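import Pool.Agent.Work.MP_be705b_al.II.TB2

set_option autoImplicit false
set_option linter.unusedSectionVars false
set_option linter.unusedVariables false

/-!
# MP_be705b_al, type II, case 1b, block A: the vertex `3` is not `m`; if it is `a` or `b` then Lemma A applies
-/

namespace Pool.Agent.BR

open Submodule Module MvPolynomial

variable {K : Type*} [Field K] {t : Fin 9 → Pol K} {p : Fin 3 → K} {lam lam' mu del : Pol K}
  {a b m : Fin 9}

namespace TV

private theorem ti (h : TV t p lam lam' mu del a b m) : TII t p lam lam' mu := h.tb.h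

private theorem fl (h : TV t p lam lam' mu del a b m) : Fl t := h.tb.h.t2.fl

private theorem hlam (h : TV t p lam lam' mu del a b m) : lam ∈ H K 1 := h.tb.h.t2.ha

private theorem hmu (h : TV t p lam lam' mu del a b m) : mu ∈ H K 1 := h.tb.h.t2.hm

private theorem mu0 (h : TV t p lam lam' mu del a b m) : mu ≠ 0 := h.tb.h.t2.m0

private theorem nml (h : TV t p lam lam' mu del a b m) : ¬ mu ∣ lam := by
  intro hd
  obtain ⟨c, hc⟩ := dvd_lin h.hmu h.hlam h.mu0 hd
  have hc0 : c ≠ 0 := by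
    rintro rfl
    exact h.ti.L0 (by rw [hc, map_zero, zero_mul])
  apply h.tb.nm
  refine ⟨C c⁻¹, ?_⟩
  rw [hc, mul_right_comm, ← map_mul, mul_inv_cancel₀ hc0, map_one, one_mul]

/-- elements of `V 3 * Y` are divisible by `mu` -/
private theorem mu_dvd (h : TV t p lam lam' mu del a b m) {Y : Submodule K (Pol K)} {f : Pol K}
    (hf : f ∈ V K t 3 * Y) : mu ∣ f := by
  refine Submodule.mul_induction_on hf ?_ ?_
  · intro x hx y _
    have h1 := ((mem_dv h.hmu h.mu0).1 (h.tb.V3_le_dv hx)).2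
    exact h1.mul_right y
  · intro x y hx hy
    exact dvd_add hx hy

private theorem three : ((3 : Fin 9) : ℕ) = 3 := rfl

/-- passing from `t 3` to `t 3 + v` -/
private theorem pass (h : TV t p lam lam' mu del a b m) {v x : Pol K} (hv : v ∈ V K t 3)
    (hx : x ∈ cubics K) : x * t 3 ∈ V K t 3 * cubics K ↔ x * (t 3 + v) ∈ V K t 3 * cubics K := by
  have h1 : x * v ∈ V K t 3 * cubics K := by
    have e : x * v = v * x := mul_comm _ _
    rw [e]
    exact mul_mem_mul hv hx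
  rw [mul_add]
  exact (Submodule.add_mem_iff_left _ h1).symm

private theorem sq (h : TV t p lam lam' mu del a b m) {v : Pol K} (hv : v ∈ V K t 3)
    (h3 : t 3 * t 3 ∈ V K t 3 * cubics K) : (t 3 + v) * (t 3 + v) ∈ V K t 3 * cubics K := by
  have hvc : v ∈ cubics K := h.fl.V_le 3 hv
  have h1 : t 3 * (t 3 + v) ∈ V K t 3 * cubics K := (h.pass hv (h.fl.mem 3)).1 h3
  have h2 : v * (t 3 + v) ∈ V K t 3 * cubics K := mul_mem_mul hv (add_mem (h.fl.mem 3) hvc)
  rw [add_mul]
  exact add_mem h1 h2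

private theorem m_out (h : TV t p lam lam' mu del a b m) : m ∈ out K t (A K t 1) := by
  rw [← notMem_inn, h.iA]
  have h3 := h.m3
  simp only [Finset.mem_insert, Finset.mem_singleton, not_or]
  refine ⟨?_, ?_, h.am.symm, h.bm.symm⟩
  · rintro rfl; exact absurd h3 (by decide)
  · rintro rfl; exact absurd h3 (by decide)

theorem ne_m (h : TV t p lam lam' mu del a b m) : (3 : Fin 9) ≠ m := by
  intro h3m
  have hm3 : (3 : Fin 9) ∈ out K t (A K t 1) := by rw [h3m]; exact h.m_out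
  have hmD : (3 : Fin 9) ∈ inn K t (dv lam) := by rw [h.iD, h3m]; simp
  obtain ⟨v, hv, hu⟩ := mem_inn.1 hmD
  rw [three] at hv
  obtain ⟨κ, hκ, he⟩ := mem_mulS.1 hu
  have hκF : κ ∉ Fp p := by
    intro hF
    refine notMem_inn.2 hm3 (mem_inn.2 ⟨v, hv, ?_⟩)
    rw [h.ti.A1, ← he]
    exact mul_mem_mulS hF
  have hnl : ¬ Adj K t 3 3 := by
    intro hadj
    have h1 : (3 : Fin 9) ∈ nb K t m (out K t (A K t 1)) := mem_nb.2 ⟨hm3, by rw [← h3m]; exact hadj⟩
    rw [h.mi] at h1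
    simp at h1
  have hsq := h.sq hv ((h.fl.not_loop_iff 3).1 hnl)
  have hdm : mu ∣ κ := by
    have h1 := h.mu_dvd hsq
    rw [← he] at h1
    have hp := prime_lin h.hmu h.mu0
    rcases hp.dvd_or_dvd h1 with h2 | h2
    · exact (hp.dvd_or_dvd h2).resolve_left h.nml
    · exact (hp.dvd_or_dvd h2).resolve_left h.nml
  obtain ⟨hN, ν, hν, hνp, rfl⟩ := h.ti.KK_dvd hκ hdm hκF
  have hA3 : ∀ x ∈ A K t 3, eval p x = 0 := by
    intro x hx
    obtain ⟨hx1, hx2⟩ := h.fl.mem_A.1 hx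
    rw [three] at hx2
    have h1 := (h.pass hv hx1).1 hx2
    rw [← he] at h1
    have h2 : x * (lam * (mu * ν)) = mu * (lam * (x * ν)) := by ring
    rw [h2] at h1
    have h3 : x * ν ∈ H K 4 := mul_mem_H (cubics_le hx1) hν
    have h4 := (h.tb.cancel4 h3).1 h1
    rw [map_mul] at h4
    exact (mul_eq_zero.1 h4).resolve_right hνp
  have hU : A K t 1 ⊔ V K t 3 ≤ cubics K := sup_le (h.fl.A_le 1) (h.fl.V_le 3)
  have hLL : LL K t (A K t 1 ⊔ V K t 3) := h.fl.llSupV (h.fl.A_le 1) (h.fl.llA 1) 3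
  have h3U : (3 : Fin 9) ∈ out K t (A K t 1 ⊔ V K t 3) := (h.fl.out_sup_V _ 3 3).2 ⟨hm3, le_rfl⟩
  have hout := h.fl.outSupA hU hLL (j := 3) le_sup_right (t_notMem_of_out h3U)
  have hemp : nb K t 3 (out K t (A K t 1 ⊔ V K t 3)) = ∅ := by
    have h1 : nb K t 3 (out K t (A K t 1 ⊔ V K t 3)) ⊆ nb K t m (out K t (A K t 1)) := by
      rw [← h3m]
      exact nb_mono _ (out_mono le_sup_left)
    rw [h.mi] at h1
    exact Finset.subset_empty.1 h1
  rw [hemp] at hout
  have h1 := W_le_of_inn hout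
  rw [h.fl.sp] at h1
  obtain ⟨w, hw, hw0⟩ := exists_cubic_ne h.ti.p0
  exact hw0 (sup_eval (sup_eval h.ti.A1_eval h.tb.V3_eval) hA3 w (h1 hw))

theorem alpha (h : TV t p lam lam' mu del a b m) (h3 : (3 : Fin 9) = a ∨ (3 : Fin 9) = b) :
    ∃ c, LA t p lam lam' mu c := by
  have hi : (3 : Fin 9) ∈ inn K t (A K t 1) := by
    rw [h.iA]
    rcases h3 with h3 | h3 <;> rw [← h3] <;> simp
  obtain ⟨v, hv, hu⟩ := mem_inn.1 hi
  rw [three] at hv
  rw [h.ti.A1] at hu
  obtain ⟨κ, hκ, he⟩ := mem_mulS.1 hu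
  have huV : lam * κ ∉ V K t 3 := by
    rw [he]
    intro h1
    have h2 := sub_mem h1 hv
    rw [add_sub_cancel_right] at h2
    exact t_notMem h.fl.li 3 h2
  have hmκ : ¬ mu ∣ κ := by
    intro hd
    obtain ⟨ν, hν, hνp, rfl⟩ := h.ti.Fp_dvd hκ hd
    apply huV
    have h1 : lam * (mu * ν) ∈ V K t 2 := by
      rw [h.ti.V2, ← mul_assoc]
      exact mul_mem_mulS (h.ti.mem_L.2 ⟨hν, hνp⟩)
    exact V_mono (by norm_num) h1
  have hp := prime_lin h.hmu h.mu0
  have hκH : κ ∈ H K 2 := Fp_le p hκ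
  have hloop : Adj K t 3 3 := by
    by_contra hnl
    have hsq := h.sq hv ((h.fl.not_loop_iff 3).1 hnl)
    rw [← he] at hsq
    have h1 := h.mu_dvd hsq
    rcases hp.dvd_or_dvd h1 with h2 | h2
    · exact (hp.dvd_or_dvd h2).elim h.nml hmκ
    · exact (hp.dvd_or_dvd h2).elim h.nml hmκ
  have ht3 : t 3 ∉ V K t 3 := t_notMem h.fl.li 3
  have hκp : eval p κ = 0 := by
    by_contra hκp
    obtain ⟨α, hα, hαp⟩ := exists_N_ne h.ti.p0
    have hαH : α ∈ H K 2 := N_le hα
    have hx : mu * α ∈ cubics K := mul_KK_mem h.hmu (N_le_KK h.hmu hα)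
    have hvc : v ∈ cubics K := h.fl.V_le 3 hv
    have hlκ : lam * κ ∈ cubics K := by
      rw [he]
      exact add_mem (h.fl.mem 3) hvc
    have h1 : mu * α * (lam * κ) * (lam * κ) ∈ V K t 3 * H K 6 := by
      have e : mu * α * (lam * κ) * (lam * κ) = mu * (lam * (α * κ * (lam * κ))) := by ring
      rw [e]
      refine (h.tb.cancel7 ?_).2 ?_
      · exact mul_mem_H (mul_mem_H hαH hκH) (mul_mem_H h.hlam hκH)
      · rw [map_mul, map_mul _ lam, h.ti.lp, zero_mul, mul_zero]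
    have h2 : mu * α * t 3 * t 3 ∈ V K t 3 * H K 6 := by
      have e : mu * α * t 3 * t 3 = mu * α * (lam * κ) * (lam * κ) - v * (mu * α * (lam * κ + t 3)) := by
        rw [he]
        ring
      rw [e]
      refine sub_mem h1 (mul_mem_mul hv ?_)
      rw [← cubics_mul_cubics]
      exact mul_mem_mul hx (add_mem hlκ (h.fl.mem 3))
    have h3 := h.fl.nil1 (h.fl.V_le 3) (h.fl.llV 3) (j := 3) le_rfl ht3 hloop hx h2
    have h4 := (h.pass hv hx).1 h3
    rw [← he] at h4
    have e : mu * α * (lam * κ) = mu * (lam * (α * κ)) := by ring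
    rw [e] at h4
    have h5 := (h.tb.cancel4 (mul_mem_H hαH hκH)).1 h4
    rw [map_mul] at h5
    exact (mul_eq_zero.1 h5).elim hαp hκp
  have hκPh : κ ∈ Ph p := ⟨hκ, mem_IP.2 ⟨hκH, hκp⟩⟩
  have hPh := h.ti.Ph_eq hκPh hmκ
  -- `A 3 = dv mu`
  have hA3 : A K t 3 = dv mu := by
    ext x
    rw [h.fl.mem_A, mem_dv h.hmu h.mu0, three]
    constructor
    · rintro ⟨hx, hx3⟩
      refine ⟨hx, ?_⟩
      have h1 := (h.pass hv hx).1 hx3
      rw [← he] at h1
      have h2 := h.mu_dvd h1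
      refine (hp.dvd_or_dvd h2).resolve_right ?_
      intro h4
      exact (hp.dvd_or_dvd h4).elim h.nml hmκ
    · rintro ⟨hx, hd⟩
      refine ⟨hx, ?_⟩
      obtain ⟨α, hα, rfl⟩ := exists_quot (a := 1) (b := 2) h.hmu h.mu0 (cubics_le hx) hd
      rw [h.pass hv hx, ← he]
      have e : mu * α * (lam * κ) = mu * (lam * (α * κ)) := by ring
      rw [e]
      refine (h.tb.cancel4 (mul_mem_H hα hκH)).2 ?_
      rw [map_mul, hκp, mul_zero]
  have hV4 : V K t 4 = mulS lam (Ph p) ⊔ span K {mu * del} := by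
    have e1 : V K t 4 = V K t 3 ⊔ span K {t 3} := V_succ (K := K) (t := t) 3
    have e2 : V K t 3 ⊔ span K {t 3} = V K t 3 ⊔ span K {lam * κ} := by
      have hv' : v ∈ V K t 3 := hv
      apply le_antisymm
      · refine sup_le le_sup_left ?_
        rw [span_singleton_le_iff_mem]
        have : t 3 = lam * κ - v := by rw [he]; ring
        rw [this]
        exact sub_mem (mem_sup_right (mem_span_singleton_self _)) (mem_sup_left hv')
      · refine sup_le le_sup_left ?_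
        rw [span_singleton_le_iff_mem, he]
        exact add_mem (mem_sup_right (mem_span_singleton_self _)) (mem_sup_left hv')
    have e3 : mulS lam (Ph p) = V K t 2 ⊔ span K {lam * κ} := by
      rw [hPh, mulS_sup, mulS_mulS, ← h.ti.V2]
      congr 1
      rw [mulS, Submodule.map_span, Set.image_singleton]
      rfl
    rw [e1, e2, h.tb.V3, e3, sup_right_comm]
  have hLL : LL K t (dv mu ⊔ V K t 4) := by
    rw [← hA3]
    exact h.fl.llSupV (h.fl.A_le 3) (h.fl.llA 3) 4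
  have hdel : del ∈ H K 2 := (mem_IP.1 h.tb.hd.2).1
  have hdelp : eval p del = 0 := (mem_IP.1 h.tb.hd.2).2
  refine ⟨mu * del, h.ti, ?_, ?_, ?_, hV4, fun _ => ⟨⟨del, h.tb.hd, rfl⟩, hLL⟩⟩
  · rw [← h.tb.t2]
    exact h.fl.mem 2
  · intro hd
    exact ((prime_lin h.hlam h.ti.L0).dvd_or_dvd hd).elim h.tb.nm h.tb.nd
  · intro κ' hκ'
    have e : κ' * (mu * del) = mu * (κ' * del) := by ring
    rw [e]
    have h1 : κ' * del ∈ span K {lam, lam'} * cubics K := by
      rw [h.ti.L_mul4, mem_IP]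
      refine ⟨mul_mem_H (KK_le _ hκ') hdel, ?_⟩
      rw [map_mul, hdelp, mul_zero]
    have h2 : mu * (κ' * del) ∈ mulS mu (span K {lam, lam'} * cubics K) := mul_mem_mulS h1
    rw [← mulS_mul] at h2
    exact mul_le_mul_left h.ti.muL_le _ h2

end TV

end Pool.Agent.BR
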