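import Pool.Agent.Work.MP_be705b_al.II.BB4c

set_option autoImplicit false
set_option linter.unusedSectionVars false
set_option linter.unusedVariables false

/-!
# MP_be705b_al, type II, case 1b, block A: the vertex `3` outside of `inn (dv lam)` (case beta)

`TV.beta`: if `3 ∈ out (dv lam)` then `mu ∣ t 3`, i.e. `t 3 = mu * del2` (structure `TC`).
-/

namespace Pool.Agent.BR

open Submodule Module MvPolynomial

variable {K : Type*} [Field K] {t : Fin 9 → Pol K} {p : Fin 3 → K} {lam lam' mu del : Pol K}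
  {a b m : Fin 9}

/-- two independent linear forms generate the ideal of a point, degree three -/
private theorem sup_IP3 {lam mu : Pol K} (hlam : lam ∈ H K 1) (l0 : lam ≠ 0) (hmu : mu ∈ H K 1) (m0 : mu ≠ 0)
    (nm : ¬ lam ∣ mu) {q : Fin 3 → K} (hq : q ≠ 0) (h1 : eval q lam = 0) (h2 : eval q mu = 0) :
    mulS lam (H K 2) ⊔ mulS mu (H K 2) = IP q 3 := by
  have hle : mulS lam (H K 2) ⊔ mulS mu (H K 2) ≤ IP q 3 := by
    refine sup_le ?_ ?_
    · intro f hf
      obtain ⟨u, hu, rfl⟩ := mem_mulS.1 hf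
      exact mem_IP.2 ⟨mul_mem_H (a := 1) (b := 2) hlam hu, by rw [map_mul, h1, zero_mul]⟩
    · intro f hf
      obtain ⟨u, hu, rfl⟩ := mem_mulS.1 hf
      exact mem_IP.2 ⟨mul_mem_H (a := 1) (b := 2) hmu hu, by rw [map_mul, h2, zero_mul]⟩
  have hinf : mulS lam (H K 2) ⊓ mulS mu (H K 2) = mulS (lam * mu) (H K 1) := by
    apply le_antisymm
    · intro f hf
      obtain ⟨hf1, hf2⟩ := mem_inf.1 hf
      obtain ⟨u, hu, rfl⟩ := mem_mulS.1 hf1
      obtain ⟨v, hv, e⟩ := mem_mulS.1 hf2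
      have h3 : lam ∣ mu * v := ⟨u, e⟩
      have h4 := ((prime_lin hlam l0).dvd_or_dvd h3).resolve_left nm
      obtain ⟨s, hs, rfl⟩ := exists_quot (a := 1) (b := 1) hlam l0 hv h4
      refine mem_mulS.2 ⟨s, hs, ?_⟩
      rw [← e]
      ring
    · intro f hf
      obtain ⟨s, hs, rfl⟩ := mem_mulS.1 hf
      refine mem_inf.2 ⟨mem_mulS.2 ⟨mu * s, mul_mem_H (a := 1) (b := 1) hmu hs, by ring⟩,
        mem_mulS.2 ⟨lam * s, mul_mem_H (a := 1) (b := 1) hlam hs, by ring⟩⟩
  have i1 : Module.Finite K ↥(IP q 3) := Submodule.finiteDimensional_of_le (inf_le_left : IP q 3 ≤ H K 3)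
  have i2 : Module.Finite K ↥(mulS lam (H K 2)) := Submodule.finiteDimensional_of_le (mulS_H_le hlam)
  have i3 : Module.Finite K ↥(mulS mu (H K 2)) := Submodule.finiteDimensional_of_le (mulS_H_le hmu)
  refine Submodule.eq_of_le_of_finrank_le hle ?_
  have h5 := Submodule.finrank_sup_add_finrank_inf_eq (mulS lam (H K 2)) (mulS mu (H K 2))
  rw [hinf, finrank_mulS (mul_ne_zero l0 m0), finrank_mulS l0, finrank_mulS m0, finrank_H1, finrank_H2] at h5
  have h6 := finrank_IP hq 3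
  rw [finrank_H3] at h6
  omega

/-- restriction of `del` to the line `lam = 0` -/
private theorem rs_del {p v : Fin 3 → K} {del : Pol K} (hdel : del ∈ H K 2) (h0 : eval p del = 0)
    (h1 : dr p v del = 0) : rs p v del = Polynomial.C ((rs p v del).coeff 2) * Polynomial.X ^ 2 := by
  ext n
  rw [Polynomial.coeff_C_mul_X_pow]
  have hdeg := rs_deg p v hdel
  rcases n with _ | _ | _ | n
  · rw [rs_coeff_zero, h0]; simp
  · rw [← dr_apply, h1]; simp
  · simp
  · rw [Polynomial.coeff_eq_zero_of_natDegree_lt (by omega)]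
    simp

private theorem X_dvd_rs {p v : Fin 3 → K} {f : Pol K} (h : eval p f = 0) :
    (Polynomial.X : Polynomial K) ∣ rs p v f := by
  rw [Polynomial.X_dvd_iff, rs_coeff_zero, h]

private theorem quot_deg {P Q : Polynomial K} {k n : ℕ} (h : P = Polynomial.X ^ k * Q)
    (hd : P.natDegree ≤ k + n) : Q.natDegree ≤ n := by
  by_cases hQ : Q = 0
  · rw [hQ]; simp
  · have h3 : P.natDegree = k + Q.natDegree := by
      rw [h, Polynomial.natDegree_mul (pow_ne_zero _ Polynomial.X_ne_zero) hQ, Polynomial.natDegree_X_pow]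
    omega

private theorem exists_ne_lin {l : Pol K} (hl : l ∈ H K 1) (l0 : l ≠ 0) :
    ∃ u : Fin 3 → K, eval u l ≠ 0 := by
  by_contra hcon
  push Not at hcon
  apply l0
  have h7 : ∀ i : Fin 3, eval (Pi.single i 1) l = lc l i := by
    intro i
    conv_lhs => rw [← lin_lc hl]
    simp only [lin, map_add, map_mul, eval_C, eval_X]
    fin_cases i <;> simp
  have h8 : lc l = 0 := by
    funext i
    rw [← h7 i, hcon]
    rfl
  rw [← lin_lc hl, lin_eq_zero, h8]

/-- `κ * d * d * d` for `d (p) = 0` -/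
private theorem cube_mem (h : TB t p lam lam' mu del) {v : Fin 3 → K} (hpv : LinearIndependent K ![p, v])
    (hv : eval v lam = 0) (h1 : dr p v del = 0) {κ d : Pol K} (hκ : κ ∈ H K 2) (hd : d ∈ H K 3)
    (hdp : eval p d = 0) : mu * κ * d * d * d ∈ V K t 3 * H K 9 := by
  have hlam := h.h.t2.ha
  have hmu := h.h.t2.hm
  have l0 := h.h.L0
  have hdel : del ∈ H K 2 := (mem_IP.1 h.hd.2).1
  have hdelp : eval p del = 0 := (mem_IP.1 h.hd.2).2
  set k := (rs p v del).coeff 2 with hk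
  have hrs : rs p v del = Polynomial.C k * Polynomial.X ^ 2 := rs_del hdel hdelp h1
  have hk0 : k ≠ 0 := by
    intro h0
    rw [h0, Polynomial.C_0, zero_mul] at hrs
    exact h.nd ((rs_eq_zero hpv hlam l0 h.h.lp hv hdel).1 hrs)
  obtain ⟨D, hD⟩ := X_dvd_rs (v := v) hdp
  have hF : κ * d * d * d ∈ H K 11 :=
    mul_mem_H (a := 8) (b := 3) (mul_mem_H (a := 5) (b := 3) (mul_mem_H (a := 2) (b := 3) hκ hd) hd) hd
  have hrF : rs p v (κ * d * d * d) = Polynomial.X ^ 2 * (rs p v κ * (Polynomial.X * D * D * D)) := by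
    simp only [map_mul]
    rw [hD]
    ring
  have hqd := quot_deg hrF (n := 9) (by have := rs_deg p v hF; omega)
  obtain ⟨w, hw, ew⟩ := rs_surj hpv (n := 9)
    (g := Polynomial.C k⁻¹ * (rs p v κ * (Polynomial.X * D * D * D)))
    ((Polynomial.natDegree_C_mul_le _ _).trans hqd)
  have hwp : eval p w = 0 := by
    rw [← rs_coeff_zero p v, ew]
    simp only [Polynomial.mul_coeff_zero, Polynomial.coeff_X_zero, zero_mul, mul_zero]
  have hmem : κ * d * d * d - del * w ∈ H K 11 := sub_mem hF (mul_mem_H (a := 2) (b := 9) hdel hw)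
  have hz : rs p v (κ * d * d * d - del * w) = 0 := by
    rw [map_sub, hrF, map_mul, hrs, ew]
    have h4 : (Polynomial.C k * Polynomial.C k⁻¹ : Polynomial K) = 1 := by
      rw [← Polynomial.C_mul, mul_inv_cancel₀ hk0, Polynomial.C_1]
    linear_combination (-(Polynomial.X ^ 2 * (rs p v κ * (Polynomial.X * D * D * D)))) * h4
  obtain ⟨g, hg, e⟩ := exists_quot (a := 1) (b := 10) hlam l0 hmem
    ((rs_eq_zero hpv hlam l0 h.h.lp hv hmem).1 hz)
  -- `g (p) = 0`
  have hgp : eval p g = 0 := by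
    obtain ⟨u, hu⟩ := exists_ne_lin hlam l0
    have e1 := congrArg (dr p u) e
    rw [map_sub, dr_mul p u (κ * d * d) d, dr_mul p u del w, dr_mul p u lam g, hdelp, hwp, h.h.lp, hdp,
      dr_linform p u hlam, (eval p).map_mul, hdp] at e1
    have e2 : eval u lam * eval p g = 0 := by linear_combination -e1
    exact (mul_eq_zero.1 e2).resolve_left hu
  have e3 : mu * κ * d * d * d = lam * mu * g + mu * del * w := by linear_combination mu * e
  rw [e3]
  have hV2 : lam * mu * g ∈ V K t 3 * H K 9 := by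
    have h5 : lam * mu * g ∈ V K t 2 * H K 9 := by
      rw [h.h.V2_mul9]
      exact mul_mem_mulS (mem_IP.2 ⟨hg, hgp⟩)
    exact mul_le_mul' (V_mono (by norm_num)) le_rfl h5
  refine add_mem hV2 (mul_mem_mul ?_ hw)
  rw [← h.t2]
  exact t_mem (K := K) (t := t) (i := 2) (j := 3) (by decide)

/-- the case `mu ∤ t 3` is impossible -/
private theorem beta_dead (h : TV t p lam lam' mu del a b m) (h3 : (3 : Fin 9) ∈ out K t (dv lam))
    (hd : ¬ mu ∣ t 3) : False := by
  have tb := h.tb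
  have fl : Fl t := tb.h.t2.fl
  have hlam := tb.h.t2.ha
  have hmu := tb.h.t2.hm
  have m0 := tb.h.t2.m0
  have l0 := tb.h.L0
  have hdel : del ∈ H K 2 := (mem_IP.1 tb.hd.2).1
  have hdelp : eval p del = 0 := (mem_IP.1 tb.hd.2).2
  have hV3 := tb.V3_le_dv
  have hnotin : t 3 ∉ V K t 3 ⊔ dv lam := by
    intro hin
    obtain ⟨v, hv, d, hdd, e⟩ := mem_sup.1 hin
    refine mem_out.1 h3 (-v) (neg_mem hv) ?_
    have : t 3 + -v = d := by rw [← e]; ring
    rwa [this]
  obtain ⟨hN, ν, hν, hνp, hνm⟩ := tb.plus (j := 3) (by decide) hV3 hd hnotin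
  -- `t 3 (p) = 0`
  have hVA : V K t 3 ⊔ A K t 3 = A K t 3 := by
    apply sup_eq_right.2
    intro v hv
    rw [fl.mem_A]
    exact ⟨fl.V_le 3 hv, mul_mem_mul hv (fl.mem 3)⟩
  have ht3p : eval p (t 3) = 0 := by
    have h4 : lam * mu * ν ∈ A K t 3 := by
      rw [← hVA]
      exact hνm
    have h5 := (fl.mem_A.1 h4).2
    have e : lam * mu * ν * t 3 = mu * (lam * (ν * t 3)) := by ring
    rw [e] at h5
    have h6 := (tb.cancel4 (mul_mem_H (a := 1) (b := 3) hν (fl.mem_H 3))).1 h5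
    rw [map_mul] at h6
    exact (mul_eq_zero.1 h6).resolve_left hνp
  -- the line `lam = 0`
  obtain ⟨l, hl, hlp, hmul, hdr⟩ := tb.h.lin_part tb.hd
  obtain ⟨c, hc⟩ := N_unique hmu m0 hl hlam l0 hmul (by rw [mul_comm]; exact hN)
  obtain ⟨v, hv1, hv2⟩ := exists_dir tb.h.p0 hlam tb.h.lp
  have hdrv : dr p v del = 0 := by
    rw [hdr, hc, map_mul, hv1, mul_zero]
  set k := (rs p v del).coeff 2 with hk
  have hrs : rs p v del = Polynomial.C k * Polynomial.X ^ 2 := rs_del hdel hdelp hdrv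
  have hk0 : k ≠ 0 := by
    intro h0
    rw [h0, Polynomial.C_0, zero_mul] at hrs
    exact tb.nd ((rs_eq_zero hv2 hlam l0 tb.h.lp hv1 hdel).1 hrs)
  have hkk : (Polynomial.C k * Polynomial.C k⁻¹ : Polynomial K) = 1 := by
    rw [← Polynomial.C_mul, mul_inv_cancel₀ hk0, Polynomial.C_1]
  -- `3` is a loop
  have hloop : Adj K t 3 3 := by
    by_contra hcon
    rw [fl.not_loop_iff] at hcon
    have h4 : mu ∣ t 3 * t 3 := by
      refine Submodule.mul_induction_on hcon ?_ ?_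
      · intro x hx y _
        exact (((mem_dv hmu m0).1 (hV3 hx)).2).mul_right y
      · intro x y hx hy
        exact dvd_add hx hy
    exact ((prime_lin hmu m0).dvd_or_dvd h4).elim hd hd
  -- `dv mu ≤ A 3`
  have hA : ∀ κ ∈ KK mu, mu * κ * t 3 ∈ V K t 3 * cubics K := by
    intro κ hκ
    have hκc : mu * κ ∈ cubics K := mul_KK_mem hmu hκ
    have h4 := cube_mem tb hv2 hv1 hdrv (KK_le _ hκ) (fl.mem_H 3) ht3p
    have h5 : mu * κ * t 3 ∈ H K 6 := mul_mem_H (a := 3) (b := 3) (cubics_le hκc) (fl.mem_H 3)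
    have h6 := fl.nil2 (fl.V_le 3) (fl.llV 3) (j := 3) le_rfl (t_notMem fl.li 3) hloop h5 h4
    exact fl.nil1 (fl.V_le 3) (fl.llV 3) (j := 3) le_rfl (t_notMem fl.li 3) hloop hκc h6
  -- `dr p v (t 3) = 0`
  have hdr3 : dr p v (t 3) = 0 := by
    obtain ⟨κ, hκ, hκp⟩ := exists_N_ne (K := K) tb.h.p0
    have hκK : κ ∈ KK mu := N_le_KK hmu hκ
    obtain ⟨g, hg, w, hw, e⟩ := tb.V3_dec4 (hA κ hκK)
    have e1 : κ * t 3 = lam * g + del * w := by
      apply mul_left_cancel₀ m0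
      linear_combination e
    have e2 := congrArg (dr p v) e1
    rw [map_add, dr_mul p v κ, dr_mul p v lam, dr_mul p v del, ht3p, tb.h.lp, hdelp, hdrv,
      dr_linform p v hlam, hv1] at e2
    have e3 : eval p κ * dr p v (t 3) = 0 := by linear_combination e2
    exact (mul_eq_zero.1 e3).resolve_left hκp
  obtain ⟨E, hE⟩ : (Polynomial.X : Polynomial K) ^ 2 ∣ rs p v (t 3) := by
    rw [Polynomial.X_pow_dvd_iff]
    intro d hd'
    have : d = 0 ∨ d = 1 := by omega
    rcases this with rfl | rfl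
    · rw [rs_coeff_zero, ht3p]
    · exact hdr3
  have hEdeg : E.natDegree ≤ 1 := quot_deg hE (by have := rs_deg p v (fl.mem_H 3); omega)
  set U := dv lam ⊔ V K t 3 with hU
  have hUc : U ≤ cubics K := sup_le tb.h.dv_le (fl.V_le 3)
  have hUL : LL K t U := fl.llSupV tb.h.dv_le tb.h.ll_dv 3
  have hdvmul : dv lam * cubics K = mulS lam (H K 5) := by
    rw [dv, mulS_mul, KK_mul hlam l0]
  have h1 : mulS lam (H K 5) ≤ U * cubics K := by
    rw [← hdvmul]
    exact mul_le_mul' le_sup_left le_rfl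
  have ht2 : mu * del ∈ U := by
    rw [← tb.t2]
    exact le_sup_right (α := Submodule K (Pol K)) (t_mem (K := K) (t := t) (i := 2) (j := 3) (by decide))
  obtain ⟨q, hq, hq1, hq2⟩ := exists_q hlam hmu
  have hVU : V K t ((3 : Fin 9) : ℕ) ≤ U := by
    rw [hU]
    exact le_sup_right
  have htU : t 3 ∉ U := by
    rw [hU, sup_comm]
    exact hnotin
  have hAle : A K t 3 ≤ dv mu := tb.A_le (j := 3) hV3 hd
  have hUA : U ⊔ A K t 3 ≤ dv lam ⊔ dv mu := by
    rw [hU]
    exact sup_le (sup_le le_sup_left (hV3.trans le_sup_right)) (hAle.trans le_sup_right)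
  -- every cubic vanishing at `q` is in `dv lam ⊔ dv mu`
  have h4 : cubics K ⊓ LinearMap.ker (aeval q : Pol K →ₐ[K] K).toLinearMap ≤ dv lam ⊔ dv mu := by
    intro w hw
    obtain ⟨hw1, hw2⟩ := mem_inf.1 hw
    rw [LinearMap.mem_ker, AlgHom.toLinearMap_apply, aeval_eq_eval] at hw2
    have hw3 : eval q w = 0 := hw2
    have hw4 : w ∈ mulS lam (H K 2) ⊔ mulS mu (H K 2) := by
      rw [sup_IP3 hlam l0 hmu m0 tb.nm hq hq1 hq2]
      exact mem_IP.2 ⟨cubics_le hw1, hw3⟩
    obtain ⟨w1, hw1', w2, hw2', ew⟩ := mem_sup.1 hw4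
    obtain ⟨f1, hf1, rfl⟩ := mem_mulS.1 hw1'
    obtain ⟨f2, hf2, rfl⟩ := mem_mulS.1 hw2'
    -- `f2 * t 3 = del * w' + lam * g`
    obtain ⟨w', hw', ew'⟩ := rs_surj3 hv2 (g := Polynomial.C k⁻¹ * (rs p v f2 * E)) (by
      refine (Polynomial.natDegree_C_mul_le _ _).trans ?_
      refine Polynomial.natDegree_mul_le.trans ?_
      have := rs_deg p v hf2
      omega)
    have hmem : f2 * t 3 - del * w' ∈ H K 5 :=
      sub_mem (mul_mem_H (a := 2) (b := 3) hf2 (fl.mem_H 3)) (mul_mem_H (a := 2) (b := 3) hdel (cubics_le hw'))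
    have hz : rs p v (f2 * t 3 - del * w') = 0 := by
      rw [map_sub, map_mul, map_mul, hrs, ew', hE]
      linear_combination (-(Polynomial.X ^ 2 * (rs p v f2 * E))) * hkk
    obtain ⟨g, hg, eg⟩ := exists_quot (a := 1) (b := 4) hlam l0 hmem
      ((rs_eq_zero hv2 hlam l0 tb.h.lp hv1 hmem).1 hz)
    have h5 : w * t 3 ∈ U * cubics K := by
      have e5 : w * t 3 = lam * (f1 * t 3 + mu * g) + mu * del * w' := by
        rw [← ew]
        linear_combination mu * eg
      rw [e5]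
      refine add_mem (h1 (mul_mem_mulS (add_mem (mul_mem_H (a := 2) (b := 3) hf1 (fl.mem_H 3))
        (mul_mem_H (a := 1) (b := 4) hmu hg)))) (mul_mem_mul ht2 hw')
    have h6 : w ∈ U ⊔ A K t 3 := fl.col1 hUc hUL hVU htU hw1 h5
    exact hUA h6
  obtain ⟨w, hw, hwq⟩ := exists_cubic_ne (K := K) hq
  have i1 : Module.Finite K ↥(cubics K) := Submodule.finiteDimensional_of_le cubics_le
  have h5 := finrank_inf_ker (U := cubics K) (φ := (aeval q : Pol K →ₐ[K] K).toLinearMap) hw (by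
    rw [AlgHom.toLinearMap_apply, aeval_eq_eval]
    exact hwq)
  rw [finrank_cubics] at h5
  have i2 : Module.Finite K ↥(dv lam ⊔ dv mu) :=
    Submodule.finiteDimensional_of_le (sup_le (BR.dv_le hlam) (BR.dv_le hmu) |>.trans cubics_le)
  have h6 := Submodule.finrank_mono h4
  have h7 := tb.dim_sup.1 hN
  have key : ∀ x y : ℕ, x + 1 = 9 → x ≤ y → y = 7 → False := by omega
  exact key _ _ h5 h6 h7

theorem TV.beta (h : TV t p lam lam' mu del a b m) (h3 : (3 : Fin 9) ∈ out K t (dv lam)) :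
    ∃ del2, TC t p lam lam' mu del del2 a b m := by
  have hmu := h.tb.h.t2.hm
  have m0 := h.tb.h.t2.m0
  have fl : Fl t := h.tb.h.t2.fl
  by_cases hd : mu ∣ t 3
  · obtain ⟨d, hd2, e⟩ := exists_quot (a := 1) (b := 2) hmu m0 (fl.mem_H 3) hd
    refine ⟨d, h, (mem_KK' hmu).2 ⟨hd2, ?_⟩, e, h3⟩
    rw [← e]
    exact fl.mem 3
  · exact (beta_dead h h3 hd).elim

end Pool.Agent.BR
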