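import Pool.Agent.Work.MP_be705b_al.II.TDefs

set_option autoImplicit false
set_option linter.unusedSectionVars false
set_option linter.unusedVariables false

/-!
# MP_be705b_al, type II, module C2v (M): `t 2 ∈ A 1` implies `V 3 = mulS lam (Ph p)`

PROOF.  `t 2 = lam * κ`, `κ ∈ Fp p` (`A1`), `κ ∉ mu * L` (`L = span {lam, lam'}`) as `t 2 ∉ V 2` (`t_notMem`), so `mu ∤ κ` (`Fp_dvd`, `mem_L`).
Claim `κ (p) = 0`.  Then `κ ∈ Ph p`, `Ph p = mulS mu L ⊔ span {κ}` (`Ph_eq`) and `V 3 = V 2 ⊔ span {t 2} = mulS lam (Ph p)` (`V_succ`).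
Suppose `κ (p) ≠ 0`.  `a ∈ A 2`: `a * lam * κ = lam * mu * g`, `g ∈ IP p 4` (`V2_mul`), so `a * κ = mu * g`, `mu ∣ a`, `a = mu * α`, `α κ = g` vanishes at
`p`, so `α (p) = 0`: `A 2 ≤ mulS mu (Ps p mu)`.  By (a) in degree two (`Fl.colA2`): for every `β ∈ IP p 5` the form `mu * β` satisfies
`mu β * t 2 = lam mu (β κ) ∈ V 2 * H 6` (`V2_mul6`), so `mu β ∈ A 2 * cubics ≤ mulS mu (Ps p mu * cubics)`, so `IP p 5 ≤ Ps p mu * cubics`.
This contradicts `ps_lt` (proved here as well): there are `rho ∈ L`, `rho ≠ 0`, with `rho * mu ∈ N K`: the map `l ↦ T(mu, l, ·)` from `L` to the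
functionals on `H 1` vanishing on `L` (`muL_le`; one-dimensional) has a nonzero kernel.  `Ps p mu` has dimension 4 (`finrank_Ps`) and contains
`rho * H 1` (`rho * X i ∈ KK mu`) and `ζ * ζ` for `ζ ∈ L \ span {rho}`, so `Ps p mu = mulS rho (H 1) ⊔ span {ζ ζ}`.  Let `v` with `rho (v) = 0`, `p, v`
independent (`exists_dir`).  `dr p v` kills `rho * s` (`rho (p) = 0`, `dr p v rho = rho (v) = 0`, `dr_mul`) and `ζ ζ`, and all these vanish at `p`, so `dr p v`
kills `Ps p mu * cubics`.  But `ζ * X i ^ 4 ∈ IP p 5` with `p i ≠ 0` has `dr p v = ζ (v) * p i ^ 4 ≠ 0` (`ζ (v) ≠ 0` because `ζ, rho` are independent in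
the 2-dimensional space `L` and `p, v` are independent).
-/

namespace Pool.Agent.BR

open Submodule Module MvPolynomial

variable {K : Type*} [Field K] {t : Fin 9 → Pol K} {p : Fin 3 → K} {lam lam' mu : Pol K}

private theorem ev_dot {l : Pol K} (hl : l ∈ H K 1) (q : Fin 3 → K) : eval q l = dot (lc l) q := by
  conv_lhs => rw [← lin_lc hl]
  exact eval_lin q (lc l)

/-- two independent linear forms have only one common zero -/
private theorem two_zero {l l' : Pol K} (hl : l ∈ H K 1) (hl' : l' ∈ H K 1)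
    (hli : LinearIndependent K ![l, l']) {q v : Fin 3 → K} (h1 : eval q l = 0) (h2 : eval q l' = 0)
    (h3 : eval v l = 0) (h4 : eval v l' = 0) : ¬ LinearIndependent K ![q, v] := by
  intro hcon
  have h5 := lc_li hl hl' hli
  rw [ev_dot hl] at h1 h3
  rw [ev_dot hl'] at h2 h4
  obtain ⟨c, hc⟩ := eq_smul_cross h5 h1 h2
  obtain ⟨d, hd⟩ := eq_smul_cross h5 h3 h4
  rw [LinearIndependent.pair_iff] at hcon
  have h6 := hcon d (-c) (by rw [hc, hd, smul_smul, smul_smul, ← add_smul]; ring_nf; simp)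
  have h7 : c = 0 := by simpa using h6.2
  have h8 : d = 0 := h6.1
  have h9 := hcon 1 0 (by rw [hc, h7]; simp)
  exact one_ne_zero h9.1

private theorem Fp_hat {κ : Pol K} (hκ : κ ∈ Fp p) : ∃ a : K, hat κ = a • p := by
  obtain ⟨n, hn, y, hy, rfl⟩ := mem_sup.1 hκ
  obtain ⟨a, rfl⟩ := mem_span_singleton.1 hy
  refine ⟨a, ?_⟩
  rw [hat_add, hat_of_N hn, hat_smul, (cf_cr p).2, zero_add]

private theorem exists_rho (h : TII t p lam lam' mu) : ∃ rho ζ : Pol K, rho ∈ H K 1 ∧ ζ ∈ H K 1 ∧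
    eval p rho = 0 ∧ eval p ζ = 0 ∧ LinearIndependent K ![rho, ζ] ∧ mu * rho ∈ N K := by
  have hlam : lam ∈ H K 1 := h.t2.ha
  have hlam' : lam' ∈ H K 1 := h.t2.hb
  have hmu : mu ∈ H K 1 := h.t2.hm
  have hli := h.t2.li
  have hF : mu * lam ∈ Fp p := (h.muL_le (mul_mem_mulS (subset_span (by simp)))).1
  have hF' : mu * lam' ∈ Fp p := (h.muL_le (mul_mem_mulS (subset_span (by simp)))).1
  obtain ⟨a, ha⟩ := Fp_hat hF
  obtain ⟨a', ha'⟩ := Fp_hat hF'
  by_cases h0 : a = 0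
  · refine ⟨lam, lam', hlam, hlam', h.lp, h.lp', hli, ?_⟩
    rw [mem_N]
    refine ⟨mul_mem_H hmu hlam, ?_⟩
    rw [ha, h0, zero_smul]
  · refine ⟨lam' - (a' / a) • lam, lam, sub_mem hlam' (smul_mem _ _ hlam), hlam, ?_, h.lp, ?_, ?_⟩
    · rw [map_sub, smul_eval, h.lp, h.lp']
      simp
    · rw [LinearIndependent.pair_iff] at hli ⊢
      intro s r hsr
      have h1 := hli (r - s * (a' / a)) s (by
        rw [← hsr]
        simp only [sub_smul, smul_sub, smul_smul]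
        abel)
      refine ⟨h1.2, ?_⟩
      have h2 := h1.1
      rw [h1.2] at h2
      simpa using h2
    · rw [mem_N]
      refine ⟨mul_mem_H hmu (sub_mem hlam' (smul_mem _ _ hlam)), ?_⟩
      rw [mul_sub, mul_smul_comm, hat_sub, hat_smul, ha, ha', smul_smul, div_mul_cancel₀ _ h0, sub_self]

theorem TII.ps_lt (h : TII t p lam lam' mu) : ¬ IP p 5 ≤ Ps p mu * cubics K := by
  intro hcon
  have hmu : mu ∈ H K 1 := h.t2.hm
  obtain ⟨rho, ζ, hr, hz, hr0, hz0, hli, hN⟩ := exists_rho h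
  have hrne : rho ≠ 0 := hli.ne_zero 0
  have hrz : ¬ rho ∣ ζ := not_dvd_lin hr hz hli
  have hPs : Ps p mu = mulS rho (H K 1) ⊔ span K {ζ * ζ} := by
    symm
    have hle : mulS rho (H K 1) ⊔ span K {ζ * ζ} ≤ Ps p mu := by
      refine sup_le ?_ ?_
      · intro w hw
        obtain ⟨ν, hν, rfl⟩ := mem_mulS.1 hw
        refine ⟨(mem_KK' hmu).2 ⟨mul_mem_H hr hν, ?_⟩, mem_IP.2 ⟨mul_mem_H hr hν, ?_⟩⟩
        · rw [← mul_assoc, ← N_mul_H1]
          exact mul_mem_mul hN hν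
        · rw [map_mul, hr0, zero_mul]
      · rw [span_singleton_le_iff_mem]
        refine ⟨(mem_KK' hmu).2 ⟨mul_mem_H hz hz, ?_⟩, mem_IP.2 ⟨mul_mem_H hz hz, ?_⟩⟩
        · have h1 : mu * ζ ∈ Fp p := (h.muL_le (mul_mem_mulS (h.mem_L.2 ⟨hz, hz0⟩))).1
          have h2 : ζ * (mu * ζ) ∈ cubics K := mul_KK_mem hz (Fp_le_KK hz hz0 h1)
          have h3 : mu * (ζ * ζ) = ζ * (mu * ζ) := by ring
          rw [h3]
          exact h2
        · rw [map_mul, hz0, zero_mul]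
    have : Module.Finite K ↥(Ps p mu) := by
      have h1 : Ps p mu ≤ H K 2 := inf_le_right.trans (IP_le p 2)
      exact Submodule.finiteDimensional_of_le h1
    apply Submodule.eq_of_le_of_finrank_le hle
    rw [finrank_Ps h.p0 hmu h.t2.m0]
    have h1 : finrank K ↥(mulS rho (H K 1)) = 3 := by rw [finrank_mulS hrne, finrank_H1]
    have h2 : ζ * ζ ∉ mulS rho (H K 1) := by
      intro h3
      obtain ⟨u, _, hu⟩ := mem_mulS.1 h3
      have h4 : rho ∣ ζ * ζ := ⟨u, hu.symm⟩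
      rcases (prime_lin hr hrne).dvd_or_dvd h4 with h5 | h5 <;> exact hrz h5
    have h3 : mulS rho (H K 1) < mulS rho (H K 1) ⊔ span K {ζ * ζ} := by
      refine lt_of_le_of_ne le_sup_left ?_
      intro h4
      apply h2
      rw [h4]
      exact mem_sup_right (mem_span_singleton_self _)
    have : Module.Finite K ↥(mulS rho (H K 1) ⊔ span K {ζ * ζ}) :=
      Submodule.finiteDimensional_of_le hle
    have h4 := Submodule.finrank_lt_finrank_of_lt h3
    omega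
  obtain ⟨v, hv, hpv⟩ := exists_dir h.p0 hr hr0
  have hk : ∀ f ∈ Ps p mu, dr p v f = 0 := by
    intro f hf
    rw [hPs] at hf
    obtain ⟨x, hx, y, hy, rfl⟩ := mem_sup.1 hf
    obtain ⟨s, _, rfl⟩ := mem_mulS.1 hx
    obtain ⟨k, rfl⟩ := mem_span_singleton.1 hy
    rw [map_add, map_smul, dr_mul, dr_mul, hr0, hz0, dr_linform p v hr, hv]
    simp
  have hk2 : ∀ f ∈ Ps p mu * cubics K, dr p v f = 0 := by
    intro f hf
    refine Submodule.mul_induction_on hf ?_ ?_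
    · intro x hx y _
      rw [dr_mul, hk x hx, Ps_eval hx]
      simp
    · intro x y hx hy
      rw [map_add, hx, hy, add_zero]
  obtain ⟨i, hi⟩ : ∃ i, p i ≠ 0 := by
    by_contra hc
    push Not at hc
    exact h.p0 (funext hc)
  have hX : (X i : Pol K) ^ 4 ∈ H K 4 := by
    have := (isHomogeneous_X K i).pow 4
    simpa using this
  have hg : ζ * X i ^ 4 ∈ IP p 5 := mem_IP.2 ⟨mul_mem_H hz hX, by rw [map_mul, hz0, zero_mul]⟩
  have h1 := hk2 _ (hcon hg)
  rw [dr_mul, hz0, zero_mul, zero_add, dr_linform p v hz, map_pow, eval_X] at h1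
  rcases mul_eq_zero.1 h1 with h2 | h2
  · exact two_zero hr hz hli hr0 hz0 hv h2 hpv
  · exact hi (pow_eq_zero_iff (by norm_num) |>.1 h2)

theorem TII.V3_case2 (h : TII t p lam lam' mu) (h2 : t 2 ∈ A K t 1) : V K t 3 = mulS lam (Ph p) := by
  have hmu : mu ∈ H K 1 := h.t2.hm
  have hm0 : mu ≠ 0 := h.t2.m0
  rw [h.A1] at h2
  obtain ⟨κ, hκ, hk⟩ := mem_mulS.1 h2
  have hnm : ¬ mu ∣ κ := by
    intro hd
    obtain ⟨ν, hν, hν0, rfl⟩ := h.Fp_dvd hκ hd
    apply t_notMem h.fl.li 2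
    change t 2 ∈ V K t 2
    rw [h.V2, ← hk, ← mul_assoc]
    exact mul_mem_mulS (h.mem_L.2 ⟨hν, hν0⟩)
  have h0 : eval p κ = 0 := by
    by_contra h0
    have hA2 : A K t 2 ≤ mulS mu (Ps p mu) := by
      intro a ha
      obtain ⟨ha1, ha2⟩ := h.fl.mem_A.1 ha
      change a * t 2 ∈ V K t 2 * cubics K at ha2
      rw [h.V2_mul, ← hk] at ha2
      obtain ⟨g, hg, hg2⟩ := mem_mulS.1 ha2
      have h3 : a * κ = mu * g := by
        apply mul_left_cancel₀ h.L0
        rw [← mul_assoc lam mu g, hg2]; ring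
      have h4 : mu ∣ a * κ := ⟨g, h3⟩
      have h5 : mu ∣ a := ((prime_lin hmu hm0).dvd_or_dvd h4).resolve_right hnm
      obtain ⟨α, hα, rfl⟩ := exists_quot (a := 1) (b := 2) hmu hm0 (cubics_le ha1) h5
      have h6 : α * κ = g := by
        apply mul_left_cancel₀ hm0
        rw [← h3]; ring
      have h7 : eval p α = 0 := by
        have h8 := (mem_IP.1 hg).2
        rw [← h6, map_mul] at h8
        exact (mul_eq_zero.1 h8).resolve_right h0
      exact mul_mem_mulS ⟨(mem_KK' hmu).2 ⟨hα, ha1⟩, mem_IP.2 ⟨hα, h7⟩⟩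
    apply h.ps_lt
    intro β hβ
    obtain ⟨hβ1, hβ2⟩ := mem_IP.1 hβ
    have h3 : mu * β ∈ H K 6 := mul_mem_H (a := 1) (b := 5) hmu hβ1
    have h4 : mu * β * t 2 ∈ V K t 2 * H K 6 := by
      rw [h.V2_mul6, ← hk]
      have h5 : mu * β * (lam * κ) = lam * mu * (β * κ) := by ring
      rw [h5]
      refine mul_mem_mulS (mem_IP.2 ⟨mul_mem_H (a := 5) (b := 2) hβ1 (Fp_le p hκ), ?_⟩)
      rw [map_mul, hβ2, zero_mul]
    have h5 : mu * β ∈ A K t 2 * cubics K := h.fl.colA2 2 h3 h4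
    have h6 : mu * β ∈ mulS mu (Ps p mu) * cubics K :=
      (mul_le_mul' hA2 le_rfl : A K t 2 * cubics K ≤ _) h5
    rw [mulS_mul] at h6
    exact (mul_mem_mulS_iff hm0).1 h6
  have hPh : κ ∈ Ph p := ⟨hκ, mem_IP.2 ⟨Fp_le p hκ, h0⟩⟩
  have h3 : V K t 3 = V K t 2 ⊔ span K {t 2} := V_succ (2 : Fin 9)
  rw [h3, h.V2, h.Ph_eq hPh hnm, mulS_sup, mulS_mulS, ← hk]
  congr 1
  rw [mulS, Submodule.map_span, Set.image_singleton]
  rfl

end Pool.Agent.BR
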