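import Pool.Agent.Work.MP_be705b_al.II.Defs

set_option autoImplicit false
set_option linter.unusedSectionVars false
set_option linter.unusedVariables false

/-!
# MP_be705b_al, type II, module B1 (S-M): dimensions of `Fp`, `KK`, `Ph`, `Ps` and their products with `cubics K`

PROOFS.  `Fp p = N K + span {cr p}`, `cr p ∉ N K` for `p ≠ 0` (`hat (cr p) = p`, `mem_N`), so `finrank = 4` (as in `finrank_FF` of
V2.lean, `finrank_N`), `Fp p ≤ H 2`, and `Fp p * cubics K = H K 5` by `mul_cubics_eq` with `κ = cr p`.  Then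
`Fp p * H K 6 = Fp p * (cubics K * cubics K) = H K 5 * cubics K = H K 8` (`H_mul_cubics`) and `Fp p * H K 9 = H K 11`
(`H K 9 = H K 6 * cubics K`).
For `l ∈ H K 1`, `l ≠ 0`: `KK l` is the kernel of the nonzero functional `κ ↦ dot (lc l) (hat κ)` on `H K 2` (`mem_KK`;
nonzero: `hat (cr u) = u`), so `finrank (KK l) = 5` (`finrank_H2 = 6`); it contains `N K` (`N_le_KK`) and some `κ ∉ N K`, so the
products are as before.  If `l (p) = 0` then `dot (lc l) p = 0` (`eval_lin`), so `cr p ∈ KK l` and `Fp p ≤ KK l`.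
`finrank (Ph p) = 3`: `Ph p` is the kernel of `eval p` on `Fp p` which is nonzero on `N K` (`exists_N_ne`).  The same for
`Ps p mu` in `KK mu`: `5 - 1 = 4`.  `Ph p ≤ Ps p l` if `l (p) = 0`.  If `κ ∈ Fp p`, `κ (p) ≠ 0` then every `f ∈ Fp p` is
`c κ + g` with `c = f (p) / κ (p)` and `g ∈ Ph p`.
-/

namespace Pool.Agent.BR

open Submodule Module MvPolynomial

variable {K : Type*} [Field K]

private theorem fin_ker {E : Submodule K (Pol K)} [Module.Finite K ↥E] (φ : Pol K →ₗ[K] K)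
    {f : Pol K} (hf : f ∈ E) (h0 : φ f ≠ 0) :
    finrank K ↥(E ⊓ LinearMap.ker φ) + 1 = finrank K ↥E := by
  set ψ : ↥E →ₗ[K] K := φ.domRestrict E with hψ
  have h1 : finrank K ↥(LinearMap.range ψ) + finrank K ↥(LinearMap.ker ψ) = finrank K ↥E :=
    LinearMap.finrank_range_add_finrank_ker ψ
  have h2 : LinearMap.range ψ = ⊤ := by
    rw [eq_top_iff]
    intro c _
    refine ⟨(c / φ f) • ⟨f, hf⟩, ?_⟩
    rw [map_smul, hψ, LinearMap.domRestrict_apply, smul_eq_mul, div_mul_cancel₀ _ h0]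
  rw [h2, finrank_top, finrank_self] at h1
  have h3 : finrank K ↥(LinearMap.ker ψ) = finrank K ↥(E ⊓ LinearMap.ker φ) := by
    have h4 : E ⊓ LinearMap.ker φ = (LinearMap.ker ψ).map E.subtype := by
      ext g
      constructor
      · rintro ⟨hg, hgp⟩
        exact ⟨⟨g, hg⟩, hgp, rfl⟩
      · rintro ⟨g', hg', rfl⟩
        exact ⟨g'.2, hg'⟩
    rw [h4, (Submodule.equivMapOfInjective E.subtype (Submodule.subtype_injective _) _).finrank_eq]
  omega

private theorem cr_notMem {p : Fin 3 → K} (hp : p ≠ 0) : cr p ∉ N K := by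
  intro hmem
  have := hat_of_N hmem
  rw [(cf_cr _).2] at this
  exact hp this

private theorem mul6 {E : Submodule K (Pol K)} (h : E * cubics K = H K 5) : E * H K 6 = H K 8 := by
  rw [← cubics_mul_cubics, ← mul_assoc, h]
  exact H_mul_cubics 4

private theorem mul9 {E : Submodule K (Pol K)} (h : E * cubics K = H K 5) : E * H K 9 = H K 11 := by
  have h1 : H K 6 * cubics K = H K 9 := H_mul_cubics 5
  rw [← h1, ← mul_assoc, mul6 h]
  exact H_mul_cubics 7

private theorem lc_ne {l : Pol K} (hl : l ∈ H K 1) (h0 : l ≠ 0) : lc l ≠ 0 := by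
  intro h
  apply h0
  rw [← lin_lc hl, h]
  exact lin_eq_zero.2 rfl

private theorem exists_notKK {l : Pol K} (hl : l ∈ H K 1) (h0 : l ≠ 0) :
    ∃ u : Fin 3 → K, dot (lc l) u ≠ 0 := by
  by_contra hcon
  push Not at hcon
  apply lc_ne hl h0
  funext i
  have := hcon (Pi.single i 1)
  fin_cases i <;> simpa [dot] using this

theorem Fp_le (p : Fin 3 → K) : Fp p ≤ H K 2 := by
  rw [Fp]
  exact sup_le N_le (by rw [span_singleton_le_iff_mem]; exact cr_mem p)

theorem N_le_Fp (p : Fin 3 → K) : N K ≤ Fp p := le_sup_left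

theorem finrank_Fp {p : Fin 3 → K} (hp : p ≠ 0) : finrank K ↥(Fp p) = 4 := by
  rw [Fp]
  have hne := cr_notMem hp
  have : Module.Finite K ↥(N K) := Submodule.finiteDimensional_of_le N_le
  have h1 := finrank_sup_add_finrank_inf_eq (N K) (span K {cr p})
  have h2 : N K ⊓ span K {cr p} = ⊥ := by
    rw [eq_bot_iff]
    rintro x ⟨hx1, hx2⟩
    obtain ⟨c, rfl⟩ := mem_span_singleton.1 hx2
    by_cases hc : c = 0
    · rw [hc, zero_smul]
      exact zero_mem _
    · exfalso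
      apply hne
      have := smul_mem _ c⁻¹ hx1
      rwa [smul_smul, inv_mul_cancel₀ hc, one_smul] at this
  have h3 : cr p ≠ 0 := by
    intro h0
    exact hne (by rw [h0]; exact zero_mem _)
  rw [h2, finrank_bot, finrank_N, finrank_span_singleton h3] at h1
  omega

theorem Fp_mul {p : Fin 3 → K} (hp : p ≠ 0) : Fp p * cubics K = H K 5 := by
  exact mul_cubics_eq (N_le_Fp p) (Fp_le p) (mem_sup_right (mem_span_singleton_self _)) (cr_notMem hp)

theorem Fp_mul6 {p : Fin 3 → K} (hp : p ≠ 0) : Fp p * H K 6 = H K 8 := by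
  exact mul6 (Fp_mul hp)

theorem Fp_mul9 {p : Fin 3 → K} (hp : p ≠ 0) : Fp p * H K 9 = H K 11 := by
  exact mul9 (Fp_mul hp)

theorem finrank_KK {l : Pol K} (hl : l ∈ H K 1) (h0 : l ≠ 0) : finrank K ↥(KK l) = 5 := by
  obtain ⟨u, hu⟩ := exists_notKK hl h0
  have h1 := fin_ker (E := H K 2) ((cf 1 1 1).comp (LinearMap.mulLeft K l)) (cr_mem u) (by
    rw [LinearMap.comp_apply, LinearMap.mulLeft_apply, ← lin_lc hl, cf111_lin_mul, (cf_cr u).2]
    exact hu)
  rw [finrank_H2] at h1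
  have h2 : finrank K ↥(KK l) + 1 = 6 := h1
  omega

theorem KK_mul {l : Pol K} (hl : l ∈ H K 1) (h0 : l ≠ 0) : KK l * cubics K = H K 5 := by
  obtain ⟨v, hv0, hv⟩ : ∃ v : Fin 3 → K, v ≠ 0 ∧ dot (lc l) v = 0 := by
    by_contra hcon
    push Not at hcon
    have h1 := hcon ![lc l 1, - lc l 0, 0]
    have h2 := hcon ![lc l 2, 0, - lc l 0]
    have h3 := hcon ![0, lc l 2, - lc l 1]
    apply lc_ne hl h0
    by_cases e1 : (![lc l 1, - lc l 0, 0] : Fin 3 → K) = 0
    · have a1 := congrFun e1 0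
      have a2 := congrFun e1 1
      by_cases e2 : (![lc l 2, 0, - lc l 0] : Fin 3 → K) = 0
      · have a3 := congrFun e2 0
        funext i
        fin_cases i
        · simpa using a2
        · simpa using a1
        · simpa using a3
      · exact absurd (by simp [dot]; ring) (h2 e2)
    · exact absurd (by simp [dot]; ring) (h1 e1)
  refine mul_cubics_eq (N_le_KK hl) (KK_le l) (κ := cr v) ?_ (cr_notMem hv0)
  rw [mem_KK hl, (cf_cr v).2]
  exact ⟨cr_mem v, hv⟩

theorem KK_mul6 {l : Pol K} (hl : l ∈ H K 1) (h0 : l ≠ 0) : KK l * H K 6 = H K 8 := by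
  exact mul6 (KK_mul hl h0)

theorem KK_mul9 {l : Pol K} (hl : l ∈ H K 1) (h0 : l ≠ 0) : KK l * H K 9 = H K 11 := by
  exact mul9 (KK_mul hl h0)

theorem Fp_le_KK {l : Pol K} {p : Fin 3 → K} (hl : l ∈ H K 1) (hp : eval p l = 0) : Fp p ≤ KK l := by
  rw [Fp]
  refine sup_le (N_le_KK hl) ?_
  rw [span_singleton_le_iff_mem, mem_KK hl, (cf_cr p).2]
  refine ⟨cr_mem p, ?_⟩
  rw [← eval_lin, lin_lc hl]
  exact hp

theorem finrank_Ph {p : Fin 3 → K} (hp : p ≠ 0) : finrank K ↥(Ph p) = 3 := by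
  obtain ⟨κ, hκ, hκp⟩ := exists_N_ne hp
  have : Module.Finite K ↥(Fp p) := Submodule.finiteDimensional_of_le (Fp_le p)
  have h1 := fin_ker (E := Fp p) (aeval p : Pol K →ₐ[K] K).toLinearMap (N_le_Fp p hκ) (by
    rw [AlgHom.toLinearMap_apply, aeval_eq_eval]
    exact hκp)
  have h2 : Ph p = Fp p ⊓ LinearMap.ker (aeval p : Pol K →ₐ[K] K).toLinearMap := by
    rw [Ph, IP, ← inf_assoc, inf_eq_left.2 (Fp_le p)]
  rw [finrank_Fp hp] at h1
  rw [h2]
  omega

theorem finrank_Ps {p : Fin 3 → K} (hp : p ≠ 0) {mu : Pol K} (hm : mu ∈ H K 1) (h0 : mu ≠ 0) :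
    finrank K ↥(Ps p mu) = 4 := by
  obtain ⟨κ, hκ, hκp⟩ := exists_N_ne hp
  have : Module.Finite K ↥(KK mu) := Submodule.finiteDimensional_of_le (KK_le mu)
  have h1 := fin_ker (E := KK mu) (aeval p : Pol K →ₐ[K] K).toLinearMap (N_le_KK hm hκ) (by
    rw [AlgHom.toLinearMap_apply, aeval_eq_eval]
    exact hκp)
  have h2 : Ps p mu = KK mu ⊓ LinearMap.ker (aeval p : Pol K →ₐ[K] K).toLinearMap := by
    rw [Ps, IP, ← inf_assoc, inf_eq_left.2 (KK_le mu)]
  rw [finrank_KK hm h0] at h1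
  rw [h2]
  omega

theorem Ph_le_Ps {l : Pol K} {p : Fin 3 → K} (hl : l ∈ H K 1) (hp : eval p l = 0) : Ph p ≤ Ps p l := by
  exact inf_le_inf_right _ (Fp_le_KK hl hp)

theorem Fp_dec {p : Fin 3 → K} {κ f : Pol K} (hκ : κ ∈ Fp p) (h0 : eval p κ ≠ 0) (hf : f ∈ Fp p) :
    ∃ c : K, ∃ g ∈ Ph p, f = C c * κ + g := by
  refine ⟨eval p f / eval p κ, f - C (eval p f / eval p κ) * κ, ⟨?_, ?_⟩, by ring⟩
  · refine sub_mem hf ?_
    rw [← smul_eq_C_mul]
    exact smul_mem _ _ hκ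
  · rw [SetLike.mem_coe, mem_IP]
    refine ⟨sub_mem (Fp_le p hf) ?_, ?_⟩
    · rw [← smul_eq_C_mul]
      exact smul_mem _ _ (Fp_le p hκ)
    · rw [map_sub, map_mul, eval_C, div_mul_cancel₀ _ h0, sub_self]

theorem finrank_H7 : finrank K ↥(H K 7) = 36 := by
  rw [finrank_H']; decide +kernel

theorem finrank_H10 : finrank K ↥(H K 10) = 66 := by
  rw [finrank_H']; decide +kernel

theorem finrank_H11 : finrank K ↥(H K 11) = 78 := by
  rw [finrank_H']; decide +kernel

end Pool.Agent.BR
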