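import Pool.Agent.Work.MP_be705b_al.II.B1

set_option autoImplicit false
set_option linter.unusedSectionVars false
set_option linter.unusedVariables false

/-!
# MP_be705b_al, type II, module B2 (M): linear forms through the base point

Notation: `L := span K {lam, lam'}` = the linear forms which vanish at `p` (`mem_L`), `T(a, b, c)` = coefficient of `x y z` in
`a * b * c` (`cf111_lin3`, `TT`).  From `T2`: `T(lam, lam, mu) = T(lam, lam', mu) = T(lam', lam', mu) = 0`.

PROOFS.
* `FF_Fp`: `FF lam lam' = N + span {cr (cross (lc lam) (lc lam'))}` (`FF_eq`), and `p` is a nonzero multiple of the cross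
  product (`eq_smul_cross` for `w = p`, `dot (lc lam) p = eval p lam = 0`).
* `mem_L`: `⊆` clear; `⊇`: the kernel of `eval p` on `H K 1` has dimension 2.
* `L_mul`: `L * H K d = IP p (d + 1)` : `⊆` clear.  `⊇`: if `f ∈ H K (d + 1)` vanishes at `p`, take coordinates: some `p i ≠ 0`;
  for `j ≠ i` the form `l_j = p i * X j - p j * X i` is in `L`; modulo the `l_j` every monomial `X^e` of degree `d + 1` is a
  multiple of `(X i)^(d + 1)` (replace one variable at a time, `p i * X j = l_j + p j * X i`), so `f = g + c (X i)^(d + 1)` with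
  `g ∈ L * H K d`, and `f (p) = 0` gives `c = 0`.
* `L_mul4`: `L * cubics K = IP p 4`: dimension count: `dim (lam * cubics + lam' * cubics) = 18 - dim {κ ∈ H 2 | lam κ, lam' κ
  ∈ cubics} = 18 - finrank (FF lam lam') = 14` (an element of the intersection is `lam * w = lam' * w'`, so (`rel_syz`) `w = lam' κ`,
  `w' = lam κ`), and `finrank (IP p 4) = 15 - 1` (`finrank_IP`, `finrank_H4`), and `L * cubics K ≤ IP p 4`.
* `muL_le`: for `ν ∈ L` the quadric `mu * ν` is in `FF lam lam' = Fp p` (the three `T` vanish) and vanishes at `p`.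
* `mu_nu`: if `mu * ν ∈ Fp p` with `ν ∈ H K 1`, `ν (p) ≠ 0`, then `T(mu, ν, L) = 0`, and `T(mu, L, L) = 0`, so
  `T(mu, l, H K 1) = 0` for `l ∈ L`, i.e. `mu * l ∈ N K` for all `l ∈ L` (a quadric `κ` with `dot u (hat κ) = 0` for all `u` has
  `hat κ = 0`, `mem_N`).  But the map `l ↦ hat (mu * l)` (`hat_lin_mul`) has rank `≥ 2` for `mu ≠ 0` on the 3-dimensional space of
  all `l` (its matrix has zero diagonal and entries `mu_i`, one of them nonzero), so its kernel has dimension `≤ 1 < 2`.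
* `lam_mu_nu`: `T(lam, mu, L) = 0` and `T(lam, mu, ν) = 0` with `ν ∉ L` give `hat (lam * mu) = 0`.
* `Ph_dvd`: `κ ∈ Fp p`, `mu ∣ κ`: `κ = mu * ν`, `ν ∈ H K 1` (`exists_quot`), and `ν (p) = 0` by `mu_nu`.
* `Ph_eq`: `mulS mu L` has dimension 2, is contained in `Ph p` (dimension 3) and does not contain `κ`.
-/

namespace Pool.Agent.BR

open Submodule Module MvPolynomial

variable {K : Type*} [Field K] {t : Fin 9 → Pol K} {p : Fin 3 → K} {lam lam' mu : Pol K}

private theorem cr_smul (c : K) (u : Fin 3 → K) : cr (c • u) = c • cr u := by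
  simp only [cr, Pi.smul_apply, smul_eq_mul, C_mul, smul_eq_C_mul]
  ring

private theorem finrank_pair {a b : Pol K} (h : LinearIndependent K ![a, b]) :
    finrank K ↥(span K {a, b}) = 2 := by
  have h1 := finrank_span_eq_card h
  have h2 : Set.range ![a, b] = {a, b} := by
    rw [Matrix.range_cons_cons_empty]
  rw [h2] at h1
  simpa using h1

private theorem lin_ker {m a b : Fin 3 → K} (hm : m ≠ 0) (ha : hat (lin m * lin a) = 0)
    (hb : hat (lin m * lin b) = 0) (h : LinearIndependent K ![a, b]) : False := by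
  rw [hat_lin_mul] at ha hb
  have a0 : m 1 * a 2 + m 2 * a 1 = 0 := by simpa using congrFun ha 0
  have a1 : m 0 * a 2 + m 2 * a 0 = 0 := by simpa using congrFun ha 1
  have a2 : m 0 * a 1 + m 1 * a 0 = 0 := by simpa using congrFun ha 2
  have b0 : m 1 * b 2 + m 2 * b 1 = 0 := by simpa using congrFun hb 0
  have b1 : m 0 * b 2 + m 2 * b 0 = 0 := by simpa using congrFun hb 1
  have b2 : m 0 * b 1 + m 1 * b 0 = 0 := by simpa using congrFun hb 2
  rw [LinearIndependent.pair_iff] at h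
  have key : ∀ i : Fin 3, m i ≠ 0 → (∀ j, j ≠ i → m i * a j = - (m j * a i)) →
      (∀ j, j ≠ i → m i * b j = - (m j * b i)) → False := by
    intro i hi hA hB
    have e1 : b i • a + (- a i) • b = 0 := by
      funext j
      simp only [Pi.add_apply, Pi.smul_apply, smul_eq_mul, Pi.zero_apply]
      by_cases hj : j = i
      · subst hj
        ring
      · apply mul_left_cancel₀ hi
        linear_combination b i * hA j hj - a i * hB j hj
    obtain ⟨h1, h2⟩ := h _ _ e1
    have e2 : (1 : K) • a + (0 : K) • b = 0 := by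
      rw [one_smul, zero_smul, add_zero]
      funext j
      by_cases hj : j = i
      · subst hj
        simpa using h2
      · apply mul_left_cancel₀ hi
        have h3 : a i = 0 := by simpa using h2
        rw [hA j hj, h3]
        simp
    exact one_ne_zero (h _ _ e2).1
  obtain ⟨i, hi⟩ : ∃ i, m i ≠ 0 := by
    by_contra hcon
    push Not at hcon
    exact hm (funext hcon)
  refine key i hi ?_ ?_
  · intro j hj
    fin_cases i <;> fin_cases j <;> simp at hj ⊢ <;> first | linear_combination a0 | linear_combination a1 | linear_combination a2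
  · intro j hj
    fin_cases i <;> fin_cases j <;> simp at hj ⊢ <;> first | linear_combination b0 | linear_combination b1 | linear_combination b2

namespace TII

theorem L0 (h : TII t p lam lam' mu) : lam ≠ 0 := h.t2.a0

theorem L0' (h : TII t p lam lam' mu) : lam' ≠ 0 := h.t2.b0

theorem FF_Fp (h : TII t p lam lam' mu) : FF lam lam' = Fp p := by
  have h1 := eq_smul_cross (w := p) (lc_li h.t2.ha h.t2.hb h.t2.li)
    (by rw [← eval_lin, lin_lc h.t2.ha]; exact h.lp) (by rw [← eval_lin, lin_lc h.t2.hb]; exact h.lp')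
  obtain ⟨c, hc⟩ := h1
  have hc0 : c ≠ 0 := by
    intro h0
    exact h.p0 (by rw [hc, h0, zero_smul])
  rw [FF_eq h.t2.ha h.t2.hb h.t2.li, Fp, hc, cr_smul, span_singleton_smul_eq (IsUnit.mk0 c hc0)]

theorem B2_FFmem (h : TII t p lam lam' mu) {κ : Pol K} : κ ∈ Fp p ↔ κ ∈ H K 2 ∧ lam * κ ∈ cubics K ∧
    lam' * κ ∈ cubics K := by
  rw [← h.FF_Fp, mem_FF h.t2.ha h.t2.hb]

private theorem L_eq (h : TII t p lam lam' mu) : span K {lam, lam'} = IP p 1 := by
  have hle : span K {lam, lam'} ≤ IP p 1 := by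
    rw [span_le]
    rintro x (rfl | rfl)
    · exact mem_IP.2 ⟨h.t2.ha, h.lp⟩
    · exact mem_IP.2 ⟨h.t2.hb, h.lp'⟩
  have h1 := finrank_IP h.p0 1
  rw [finrank_H1] at h1
  have : Module.Finite K ↥(IP p 1) := Submodule.finiteDimensional_of_le (IP_le p 1)
  exact eq_of_le_of_finrank_le hle (by rw [finrank_pair h.t2.li]; omega)

theorem mem_L (h : TII t p lam lam' mu) {ν : Pol K} :
    ν ∈ span K {lam, lam'} ↔ ν ∈ H K 1 ∧ eval p ν = 0 := by
  rw [h.L_eq, mem_IP]

private theorem dec (h : TII t p lam lam' mu) {w ν : Pol K} (hw : w ∈ H K 1) (hw0 : eval p w ≠ 0)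
    (hν : ν ∈ H K 1) : ∃ c : K, ∃ l ∈ span K {lam, lam'}, ν = l + C c * w := by
  refine ⟨eval p ν / eval p w, ν - C (eval p ν / eval p w) * w, ?_, by ring⟩
  rw [h.mem_L]
  refine ⟨sub_mem hν ?_, ?_⟩
  · rw [← smul_eq_C_mul]
    exact smul_mem _ _ hw
  · rw [map_sub, map_mul, eval_C, div_mul_cancel₀ _ hw0, sub_self]

theorem L_mul (h : TII t p lam lam' mu) (d : ℕ) : span K {lam, lam'} * H K d = IP p (d + 1) := by
  apply le_antisymm
  · rw [Submodule.mul_le]
    intro m hm n hn
    obtain ⟨h1, h2⟩ := h.mem_L.1 hm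
    rw [mem_IP, add_comm d 1]
    exact ⟨mul_mem_H h1 hn, by rw [map_mul, h2, zero_mul]⟩
  · obtain ⟨i, hi⟩ : ∃ i, p i ≠ 0 := by
      by_contra hcon
      push Not at hcon
      exact h.p0 (funext hcon)
    have hX : (X i : Pol K) ∈ H K 1 := by
      rw [mem_H]
      exact isHomogeneous_X K i
    have hXp : ∀ e : ℕ, (X i ^ e : Pol K) ∈ H K e := by
      intro e
      rw [mem_H]
      have := (isHomogeneous_X K i).pow e
      simpa using this
    have key : ∀ k e : ℕ, k + e = d + 1 → H K k * span K {(X i ^ e : Pol K)} ≤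
        span K {lam, lam'} * H K d ⊔ span K {(X i ^ (d + 1) : Pol K)} := by
      intro k
      induction k with
      | zero =>
        intro e he
        rw [zero_add] at he
        subst he
        rw [Submodule.mul_le]
        intro f hf g hg
        obtain ⟨c, rfl⟩ := mem_H0.1 hf
        rw [← smul_eq_C_mul]
        exact mem_sup_right (smul_mem _ _ hg)
      | succ k ih =>
        intro e he
        rw [add_comm k 1, ← H_mul 1 k, mul_assoc, Submodule.mul_le]
        intro l hl g hg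
        obtain ⟨c, l', hl', rfl⟩ := h.dec hX (by rw [eval_X]; exact hi) hl
        rw [add_mul]
        refine add_mem (mem_sup_left (mul_mem_mul hl' ?_)) ?_
        · have h1 : H K k * span K {(X i ^ e : Pol K)} ≤ H K (k + e) := by
            rw [← H_mul]
            exact mul_le_mul' le_rfl (by rw [span_singleton_le_iff_mem]; exact hXp e)
          have h2 : k + e = d := by omega
          rw [h2] at h1
          exact h1 hg
        · have h3 : C c * X i * g ∈ H K k * span K {(X i ^ (e + 1) : Pol K)} := by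
            have h4 : H K k * span K {(X i ^ (e + 1) : Pol K)} =
                (H K k * span K {(X i ^ e : Pol K)}) * span K {(X i : Pol K)} := by
              rw [mul_assoc, span_mul_span, Set.singleton_mul_singleton, ← pow_succ]
            rw [h4, mul_comm (C c * X i) g, mul_comm (C c) (X i), ← mul_assoc, mul_comm _ (C c), ← smul_eq_C_mul]
            exact smul_mem _ _ (mul_mem_mul hg (mem_span_singleton_self _))
          exact ih (e + 1) (by omega) h3
    intro f hf
    obtain ⟨hf1, hf2⟩ := mem_IP.1 hf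
    have h5 : f ∈ span K {lam, lam'} * H K d ⊔ span K {(X i ^ (d + 1) : Pol K)} := by
      refine key (d + 1) 0 (by omega) ?_
      have h6 := mul_mem_mul hf1 (mem_span_singleton_self (R := K) (X i ^ 0 : Pol K))
      rwa [pow_zero, mul_one] at h6
    obtain ⟨g, hg, y, hy, rfl⟩ := mem_sup.1 h5
    obtain ⟨c, rfl⟩ := mem_span_singleton.1 hy
    have h7 : eval p g = 0 := mul_eval (fun u hu => (h.mem_L.1 hu).2) hg
    rw [map_add, h7, zero_add, smul_eq_C_mul, map_mul, eval_C, map_pow, eval_X] at hf2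
    have hc : c = 0 := by
      rcases mul_eq_zero.1 hf2 with h8 | h8
      · exact h8
      · exact absurd h8 (pow_ne_zero _ hi)
    rw [hc, zero_smul, add_zero]
    exact hg

theorem L_mul4 (h : TII t p lam lam' mu) : span K {lam, lam'} * cubics K = IP p 4 := by
  have hle : span K {lam, lam'} * cubics K ≤ IP p 4 := by
    rw [← h.L_mul 3]
    exact mul_le_mul' le_rfl cubics_le
  have hfin : Module.Finite K ↥(IP p 4) := Submodule.finiteDimensional_of_le (IP_le p 4)
  have hc : Module.Finite K ↥(cubics K) := Submodule.finiteDimensional_of_le cubics_le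
  have e1 : span K {lam, lam'} * cubics K = mulS lam (cubics K) ⊔ mulS lam' (cubics K) := by
    rw [span_insert, Submodule.sup_mul, span_mul_eq', span_mul_eq']
  have i1 : Module.Finite K ↥(mulS lam (cubics K)) := Module.Finite.map _ _
  have i2 : Module.Finite K ↥(mulS lam' (cubics K)) := Module.Finite.map _ _
  have h1 := finrank_sup_add_finrank_inf_eq (mulS lam (cubics K)) (mulS lam' (cubics K))
  rw [finrank_mulS h.L0, finrank_mulS h.L0', finrank_cubics] at h1
  have h2 : mulS lam (cubics K) ⊓ mulS lam' (cubics K) ≤ mulS (lam * lam') (FF lam lam') := by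
    rintro x ⟨hx1, hx2⟩
    obtain ⟨w, hw, rfl⟩ := mem_mulS.1 hx1
    obtain ⟨w', hw', hww⟩ := mem_mulS.1 hx2
    obtain ⟨κ, hκ1, hκ2⟩ := rel_syz (relPrime_lin_lin h.t2.ha h.t2.hb h.t2.li) h.L0' hww.symm
    rw [hκ1] at hw ⊢
    rw [hκ2] at hw'
    have hκ : κ ∈ H K 2 := quot_mem (a := 1) (b := 2) h.t2.hb h.L0' (cubics_le hw)
    rw [← mul_assoc]
    exact mul_mem_mulS ((mem_FF h.t2.ha h.t2.hb).2 ⟨hκ, hw', hw⟩)
  have hF : Module.Finite K ↥(FF lam lam') := Submodule.finiteDimensional_of_le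
    (inf_le_left.trans (KK_le lam))
  have i3 : Module.Finite K ↥(mulS (lam * lam') (FF lam lam')) := Module.Finite.map _ _
  have h3 : finrank K ↥(mulS lam (cubics K) ⊓ mulS lam' (cubics K)) ≤ 4 := by
    have := Submodule.finrank_mono h2
    rwa [finrank_mulS (mul_ne_zero h.L0 h.L0'), finrank_FF h.t2.ha h.t2.hb h.t2.li] at this
  have h4 := finrank_IP h.p0 4
  rw [finrank_H4] at h4
  refine eq_of_le_of_finrank_le hle ?_
  rw [e1]
  omega

theorem muL_le (h : TII t p lam lam' mu) : mulS mu (span K {lam, lam'}) ≤ Ph p := by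
  intro x hx
  obtain ⟨ν, hν, rfl⟩ := mem_mulS.1 hx
  obtain ⟨hν1, hν2⟩ := h.mem_L.1 hν
  have h0 : lam * lam * mu ∈ cubics K := by rw [← h.t2.t0]; exact h.fl.mem 0
  have h1 : lam * lam' * mu ∈ cubics K := by rw [← h.t2.t1]; exact h.fl.mem 1
  have h2 := h.t2.t2
  refine ⟨?_, mem_IP.2 ⟨mul_mem_H h.t2.hm hν1, by rw [map_mul, hν2, mul_zero]⟩⟩
  rw [SetLike.mem_coe, h.B2_FFmem]
  obtain ⟨x, y, rfl⟩ := mem_span_pair.1 hν
  refine ⟨mul_mem_H h.t2.hm hν1, ?_, ?_⟩
  · have e : lam * (mu * (x • lam + y • lam')) = x • (lam * lam * mu) + y • (lam * lam' * mu) := by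
      simp only [smul_eq_C_mul]
      ring
    rw [e]
    exact add_mem (smul_mem _ _ h0) (smul_mem _ _ h1)
  · have e : lam' * (mu * (x • lam + y • lam')) = x • (lam * lam' * mu) + y • (lam' * lam' * mu) := by
      simp only [smul_eq_C_mul]
      ring
    rw [e]
    exact add_mem (smul_mem _ _ h1) (smul_mem _ _ h2)

theorem mu_nu (h : TII t p lam lam' mu) {ν : Pol K} (hν : ν ∈ H K 1) (h1 : mu * ν ∈ Fp p) :
    eval p ν = 0 := by
  by_contra h0
  have hmul : ∀ κ ∈ Fp p, ∀ l ∈ span K {lam, lam'}, κ * l ∈ cubics K := by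
    intro κ hκ l hl
    obtain ⟨_, h2, h3⟩ := h.B2_FFmem.1 hκ
    obtain ⟨x, y, rfl⟩ := mem_span_pair.1 hl
    have e : κ * (x • lam + y • lam') = x • (lam * κ) + y • (lam' * κ) := by
      simp only [smul_eq_C_mul]
      ring
    rw [e]
    exact add_mem (smul_mem _ _ h2) (smul_mem _ _ h3)
  have key : ∀ l ∈ span K {lam, lam'}, hat (mu * l) = 0 := by
    intro l hl
    obtain ⟨hl1, hl2⟩ := h.mem_L.1 hl
    apply hat_of_N
    apply mem_N_of_mul (mul_mem_H h.t2.hm hl1)
    intro n hn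
    obtain ⟨c, l', hl', rfl⟩ := h.dec hν h0 hn
    have e : mu * l * (l' + C c * ν) = (mu * l) * l' + c • ((mu * ν) * l) := by
      simp only [smul_eq_C_mul]
      ring
    rw [e]
    exact add_mem (hmul _ (h.muL_le (mul_mem_mulS hl)).1 _ hl') (smul_mem _ _ (hmul _ h1 _ hl))
  have hA := key lam (subset_span (by simp))
  have hB := key lam' (subset_span (by simp))
  rw [← lin_lc h.t2.hm, ← lin_lc h.t2.ha] at hA
  rw [← lin_lc h.t2.hm, ← lin_lc h.t2.hb] at hB
  refine lin_ker ?_ hA hB (lc_li h.t2.ha h.t2.hb h.t2.li)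
  intro hm0
  apply h.t2.m0
  rw [← lin_lc h.t2.hm, hm0]
  exact lin_eq_zero.2 rfl

theorem lam_mu_nu (h : TII t p lam lam' mu) {ν : Pol K} (hν : ν ∈ H K 1) (h0 : eval p ν ≠ 0)
    (h1 : lam * mu * ν ∈ cubics K) : lam * mu ∈ N K := by
  apply mem_N_of_mul (mul_mem_H h.t2.ha h.t2.hm)
  intro n hn
  obtain ⟨c, l', hl', rfl⟩ := h.dec hν h0 hn
  have h3 := (h.B2_FFmem.1 (h.muL_le (mul_mem_mulS hl')).1).2.1
  have e : lam * mu * (l' + C c * ν) = lam * (mu * l') + c • (lam * mu * ν) := by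
    simp only [smul_eq_C_mul]
    ring
  rw [e]
  exact add_mem h3 (smul_mem _ _ h1)

/-- `κ ∈ Fp p` with `mu ∣ κ` is `mu * ν` with `ν (p) = 0` -/
theorem Fp_dvd (h : TII t p lam lam' mu) {κ : Pol K} (hκ : κ ∈ Fp p) (hd : mu ∣ κ) :
    ∃ ν ∈ H K 1, eval p ν = 0 ∧ κ = mu * ν := by
  obtain ⟨ν, hν, rfl⟩ := exists_quot (a := 1) (b := 1) h.t2.hm h.t2.m0 (Fp_le p hκ) hd
  exact ⟨ν, hν, h.mu_nu hν hκ, rfl⟩

theorem Ph_eq (h : TII t p lam lam' mu) {κ : Pol K} (hκ : κ ∈ Ph p) (hd : ¬ mu ∣ κ) :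
    Ph p = mulS mu (span K {lam, lam'}) ⊔ span K {κ} := by
  have hfin : Module.Finite K ↥(Ph p) := Submodule.finiteDimensional_of_le
    (inf_le_left.trans (Fp_le p))
  have hle : mulS mu (span K {lam, lam'}) ⊔ span K {κ} ≤ Ph p :=
    sup_le h.muL_le (by rw [span_singleton_le_iff_mem]; exact hκ)
  have hfin2 : Module.Finite K ↥(mulS mu (span K {lam, lam'})) := Submodule.finiteDimensional_of_le h.muL_le
  have h1 := finrank_sup_add_finrank_inf_eq (mulS mu (span K {lam, lam'})) (span K {κ})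
  have h2 : mulS mu (span K {lam, lam'}) ⊓ span K {κ} = ⊥ := by
    rw [eq_bot_iff]
    rintro x ⟨hx1, hx2⟩
    obtain ⟨c, rfl⟩ := mem_span_singleton.1 hx2
    by_cases hc : c = 0
    · rw [hc, zero_smul]
      exact zero_mem _
    · exfalso
      apply hd
      have h3 := smul_mem _ c⁻¹ hx1
      rw [smul_smul, inv_mul_cancel₀ hc, one_smul] at h3
      obtain ⟨u, _, hu⟩ := mem_mulS.1 h3
      exact ⟨u, hu.symm⟩
  have h3 : κ ≠ 0 := by
    rintro rfl
    exact hd (dvd_zero _)
  rw [h2, finrank_bot, finrank_span_singleton h3, finrank_mulS h.t2.m0, finrank_pair h.t2.li] at h1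
  exact (eq_of_le_of_finrank_le hle (by rw [finrank_Ph h.p0]; omega)).symm

/-- there is `ψ ∈ Ph p` which is not divisible by `mu` -/
theorem exists_psi (h : TII t p lam lam' mu) : ∃ ψ ∈ Ph p, ¬ mu ∣ ψ := by
  by_contra hcon
  push Not at hcon
  have hle : Ph p ≤ mulS mu (span K {lam, lam'}) := by
    intro κ hκ
    obtain ⟨ν, hν, hν0, rfl⟩ := h.Fp_dvd hκ.1 (hcon κ hκ)
    exact mul_mem_mulS (h.mem_L.2 ⟨hν, hν0⟩)
  have hfin2 : Module.Finite K ↥(mulS mu (span K {lam, lam'})) := by
    have : Module.Finite K ↥(Ph p) := Submodule.finiteDimensional_of_le (inf_le_left.trans (Fp_le p))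
    exact Submodule.finiteDimensional_of_le h.muL_le
  have h1 := Submodule.finrank_mono hle
  rw [finrank_Ph h.p0, finrank_mulS h.t2.m0, finrank_pair h.t2.li] at h1
  omega

/-- `κ ∈ KK lam`, `mu ∣ κ`, `κ ∉ Fp p` implies `lam * mu ∈ N K` -/
theorem KK_dvd (h : TII t p lam lam' mu) {κ : Pol K} (hκ : κ ∈ KK lam) (hd : mu ∣ κ)
    (hF : κ ∉ Fp p) : lam * mu ∈ N K ∧ ∃ ν ∈ H K 1, eval p ν ≠ 0 ∧ κ = mu * ν := by
  obtain ⟨ν, hν, rfl⟩ := exists_quot (a := 1) (b := 1) h.t2.hm h.t2.m0 (KK_le lam hκ) hd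
  have h0 : eval p ν ≠ 0 := by
    intro h0
    exact hF (h.muL_le (mul_mem_mulS (h.mem_L.2 ⟨hν, h0⟩))).1
  refine ⟨h.lam_mu_nu hν h0 ?_, ν, hν, h0, rfl⟩
  rw [mul_assoc]
  exact mul_KK_mem h.t2.ha hκ

end TII

end Pool.Agent.BR
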