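import Pool.Agent.Work.MP_be705b_al.II.B2

set_option autoImplicit false
set_option linter.unusedSectionVars false
set_option linter.unusedVariables false

/-!
# MP_be705b_al, type II, module B3 (M): the flag up to `V 2`, `A 1`, `dv lam`

PROOFS.
* `V2` is `T2.V2`; products: `V 2 * cubics = mulS (lam * mu) (L * cubics) = mulS (lam * mu) (IP p 4)` (`mulS_mul`, `L_mul4`), and
  `V 2 * H 6 = mulS (lam * mu) (IP p 7)`, `V 2 * H 9 = mulS (lam * mu) (IP p 10)` (`L_mul`).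
* `A1` is `T2.A1` with `FF_Fp`; products by `Fp_mul`, `Fp_mul6`, `Fp_mul9`.
* `out_V2`: `V 2 ∈ LL` (`Fl.llV`), dimensions `2, 14, 35, 65` (`finrank_mulS`, `finrank_IP`) so by `Fl.cl1 .. Fl.cl4` the cliques
  are `7, 14, 20, 26`.
* `out_A1`: dimensions `4, 21, 45, 78`; cliques `5, 7, 10, 13`.
* `dv lam = mulS lam (KK lam)` contains `A 1` (`Fp_le_KK`), has dimension `5` and `dv lam * cubics ^ (d + 1) = A 1 * cubics ^ (d + 1)`
  (both are `mulS lam (Fp p * cubics) * cubics ^ d = mulS lam (H K 5) * cubics ^ d`).  `ll_dv`: for `d = 0` by `dim_one`, for `d + 1`: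
  `finrank (dv lam * W ^ (d + 1)) + cl (d + 2) (out (dv lam)) ≤ finrank (A 1 * W ^ (d + 1)) + cl (d + 2) (out (A 1)) = finrank (W ^ (d + 2))`
  (`out_mono`, `cl_mono`, `A 1 ∈ LL`; `W = Wt K t = cubics K`, `Fl.sp`).
* `exists_m`: `out (dv lam) ⊆ out (A 1)` with `4` and `5` elements, so `out (dv lam) = (out (A 1)).erase m`.  Degree two:
  `cl 2 (out (A 1)) = 7 = cl 2 (out (dv lam))` and `cl_erase` give `cl 1 (nb m (out (A 1))) = 0`, so `nb m (out (A 1)) = ∅`.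
* `out_dv`: cliques `4, 7, 10, 13`.
* `dv_mu`: `V 2 ≤ dv mu` since `lam * L ≤ KK mu` (`T2`).
* `eval` lemmas: elements of `A 1`, `dv lam`, `V 2` vanish at `p` as `lam (p) = 0`.
-/

namespace Pool.Agent.BR

open Submodule Module MvPolynomial

variable {K : Type*} [Field K] {t : Fin 9 → Pol K} {p : Fin 3 → K} {lam lam' mu : Pol K}

private theorem finrank_pair3 {a b : Pol K} (h : LinearIndependent K ![a, b]) :
    finrank K ↥(span K {a, b}) = 2 := by
  have h1 := finrank_span_eq_card h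
  have h2 : Set.range ![a, b] = {a, b} := by
    rw [Matrix.range_cons_cons_empty]
  rw [h2] at h1
  simpa using h1

namespace TII

theorem V2 (h : TII t p lam lam' mu) : V K t 2 = mulS (lam * mu) (span K {lam, lam'}) := h.t2.V2

theorem V2_mul (h : TII t p lam lam' mu) : V K t 2 * cubics K = mulS (lam * mu) (IP p 4) := by
  rw [h.V2, mulS_mul, h.L_mul4]

theorem V2_mul6 (h : TII t p lam lam' mu) : V K t 2 * H K 6 = mulS (lam * mu) (IP p 7) := by
  rw [h.V2, mulS_mul, h.L_mul 6]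

theorem V2_mul9 (h : TII t p lam lam' mu) : V K t 2 * H K 9 = mulS (lam * mu) (IP p 10) := by
  rw [h.V2, mulS_mul, h.L_mul 9]

theorem A1 (h : TII t p lam lam' mu) : A K t 1 = mulS lam (Fp p) := by
  rw [h.t2.A1, h.FF_Fp]

theorem A1_mul (h : TII t p lam lam' mu) : A K t 1 * cubics K = mulS lam (H K 5) := by
  rw [h.A1, mulS_mul, Fp_mul h.p0]

theorem A1_mul6 (h : TII t p lam lam' mu) : A K t 1 * H K 6 = mulS lam (H K 8) := by
  rw [h.A1, mulS_mul, Fp_mul6 h.p0]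

theorem A1_mul9 (h : TII t p lam lam' mu) : A K t 1 * H K 9 = mulS lam (H K 11) := by
  rw [h.A1, mulS_mul, Fp_mul9 h.p0]

theorem out_V2 (h : TII t p lam lam' mu) : (out K t (V K t 2)).card = 7 ∧
    cl K t 2 (out K t (V K t 2)) = 14 ∧ cl K t 3 (out K t (V K t 2)) = 20 ∧
    cl K t 4 (out K t (V K t 2)) = 26 := by
  have hU := h.fl.V_le 2
  have hL := h.fl.llV 2
  have hne : lam * mu ≠ 0 := mul_ne_zero h.L0 h.t2.m0
  have e1 := h.fl.cl1 hU hL
  have e2 := h.fl.cl2 hU hL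
  have e3 := h.fl.cl3 hU hL
  have e4 := h.fl.cl4 hU hL
  rw [h.V2_mul, finrank_mulS hne] at e2
  rw [h.V2_mul6, finrank_mulS hne] at e3
  rw [h.V2_mul9, finrank_mulS hne] at e4
  have f1 : finrank K ↥(V K t 2) = 2 := by rw [h.V2, finrank_mulS hne, finrank_pair3 h.t2.li]
  have f2 := finrank_IP h.p0 4
  have f3 := finrank_IP h.p0 7
  have f4 := finrank_IP h.p0 10
  rw [finrank_H4] at f2
  rw [finrank_H7] at f3
  rw [finrank_H10] at f4
  refine ⟨?_, ?_, ?_, ?_⟩ <;> omega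

theorem out_A1 (h : TII t p lam lam' mu) : (out K t (A K t 1)).card = 5 ∧
    cl K t 2 (out K t (A K t 1)) = 7 ∧ cl K t 3 (out K t (A K t 1)) = 10 ∧
    cl K t 4 (out K t (A K t 1)) = 13 := by
  have hU := h.fl.A_le 1
  have hL := h.fl.llA 1
  have e1 := h.fl.cl1 hU hL
  have e2 := h.fl.cl2 hU hL
  have e3 := h.fl.cl3 hU hL
  have e4 := h.fl.cl4 hU hL
  rw [h.A1_mul, finrank_mulS h.L0, finrank_H5] at e2
  rw [h.A1_mul6, finrank_mulS h.L0, finrank_H8] at e3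
  rw [h.A1_mul9, finrank_mulS h.L0, finrank_H11] at e4
  have f1 : finrank K ↥(A K t 1) = 4 := by rw [h.A1, finrank_mulS h.L0, finrank_Fp h.p0]
  refine ⟨?_, ?_, ?_, ?_⟩ <;> omega

theorem dv_le (h : TII t p lam lam' mu) : dv lam ≤ cubics K := BR.dv_le h.t2.ha

theorem A1_le_dv (h : TII t p lam lam' mu) : A K t 1 ≤ dv lam := by
  rw [h.A1, dv]
  exact mulS_mono (Fp_le_KK h.t2.ha h.lp)

theorem V2_le_A1 (h : TII t p lam lam' mu) : V K t 2 ≤ A K t 1 := by
  rw [h.A1, h.V2, ← mulS_mulS]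
  exact mulS_mono (h.muL_le.trans inf_le_left)

theorem V2_le_dv_mu (h : TII t p lam lam' mu) : V K t 2 ≤ dv mu := by
  rw [h.V2, mul_comm, ← mulS_mulS, dv]
  apply mulS_mono
  intro x hx
  obtain ⟨ν, hν, rfl⟩ := mem_mulS.1 hx
  obtain ⟨hν1, hν2⟩ := h.mem_L.1 hν
  have h1 := (h.B2_FFmem.1 (h.muL_le (mul_mem_mulS hν)).1).2.1
  rw [mem_KK' h.t2.hm]
  refine ⟨mul_mem_H h.t2.ha hν1, ?_⟩
  have e : mu * (lam * ν) = lam * (mu * ν) := by ring
  rw [e]
  exact h1

theorem V2_le_Ps (h : TII t p lam lam' mu) : V K t 2 ≤ mulS mu (Ps p mu) := by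
  rw [h.V2, mul_comm, ← mulS_mulS]
  apply mulS_mono
  intro x hx
  obtain ⟨ν, hν, rfl⟩ := mem_mulS.1 hx
  obtain ⟨hν1, hν2⟩ := h.mem_L.1 hν
  have h1 := (h.B2_FFmem.1 (h.muL_le (mul_mem_mulS hν)).1).2.1
  refine ⟨?_, mem_IP.2 ⟨mul_mem_H h.t2.ha hν1, by rw [map_mul, hν2, mul_zero]⟩⟩
  rw [SetLike.mem_coe, mem_KK' h.t2.hm]
  refine ⟨mul_mem_H h.t2.ha hν1, ?_⟩
  have e : mu * (lam * ν) = lam * (mu * ν) := by ring
  rw [e]
  exact h1

theorem V2_le_Ph (h : TII t p lam lam' mu) : V K t 2 ≤ mulS lam (Ph p) := by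
  rw [h.V2, ← mulS_mulS]
  exact mulS_mono h.muL_le

theorem ll_dv (h : TII t p lam lam' mu) : LL K t (dv lam) := by
  have hsub : out K t (dv lam) ⊆ out K t (A K t 1) := out_mono h.A1_le_dv
  intro d
  rcases d with _ | d
  · have h1 := dim_one (t := t) h.fl.li (U := dv lam) (by rw [h.fl.sp]; exact h.dv_le)
    rw [zero_add, pow_zero, mul_one, cl_one, pow_one]
    exact h1.le
  · have h1 := h.fl.llA 1 (d + 1)
    have e : dv lam * Wt K t ^ (d + 1) = A K t 1 * Wt K t ^ (d + 1) := by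
      rw [pow_succ', ← mul_assoc, ← mul_assoc, h.fl.sp, h.A1_mul, dv, mulS_mul,
        KK_mul h.t2.ha h.L0]
    rw [e]
    exact (Nat.add_le_add_left (cl_mono _ hsub) _).trans h1

theorem out_dv (h : TII t p lam lam' mu) : (out K t (dv lam)).card = 4 ∧
    cl K t 2 (out K t (dv lam)) = 7 ∧ cl K t 3 (out K t (dv lam)) = 10 ∧
    cl K t 4 (out K t (dv lam)) = 13 := by
  have hU := h.dv_le
  have hL := h.ll_dv
  have e1 := h.fl.cl1 hU hL
  have e2 := h.fl.cl2 hU hL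
  have e3 := h.fl.cl3 hU hL
  have e4 := h.fl.cl4 hU hL
  rw [dv, mulS_mul, KK_mul h.t2.ha h.L0, finrank_mulS h.L0, finrank_H5] at e2
  rw [dv, mulS_mul, KK_mul6 h.t2.ha h.L0, finrank_mulS h.L0, finrank_H8] at e3
  rw [dv, mulS_mul, KK_mul9 h.t2.ha h.L0, finrank_mulS h.L0, finrank_H11] at e4
  have f1 : finrank K ↥(dv lam) = 5 := by rw [dv, finrank_mulS h.L0, finrank_KK h.t2.ha h.L0]
  rw [← dv] at e2 e3 e4
  refine ⟨?_, ?_, ?_, ?_⟩ <;> omega

/-- the vertex `m`: isolated in `out (A 1)`, no loop -/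
theorem exists_m (h : TII t p lam lam' mu) : ∃ m : Fin 9, m ∈ out K t (A K t 1) ∧
    out K t (dv lam) = (out K t (A K t 1)).erase m ∧ nb K t m (out K t (A K t 1)) = ∅ := by
  classical
  have hsub : out K t (dv lam) ⊆ out K t (A K t 1) := out_mono h.A1_le_dv
  obtain ⟨c1, c2, _, _⟩ := h.out_dv
  obtain ⟨a1, a2, _, _⟩ := h.out_A1
  have hcard : (out K t (A K t 1) \ out K t (dv lam)).card = 1 := by
    rw [Finset.card_sdiff_of_subset hsub, a1, c1]
  obtain ⟨m, hm⟩ := Finset.card_eq_one.1 hcard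
  have hm1 : m ∈ out K t (A K t 1) \ out K t (dv lam) := by rw [hm]; exact Finset.mem_singleton_self m
  rw [Finset.mem_sdiff] at hm1
  have herase : out K t (dv lam) = (out K t (A K t 1)).erase m := by
    ext i
    rw [Finset.mem_erase]
    constructor
    · intro hi
      exact ⟨fun h0 => hm1.2 (h0 ▸ hi), hsub hi⟩
    · rintro ⟨h1, h2⟩
      by_contra h3
      have h4 : i ∈ out K t (A K t 1) \ out K t (dv lam) := Finset.mem_sdiff.2 ⟨h2, h3⟩
      rw [hm, Finset.mem_singleton] at h4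
      exact h1 h4
  refine ⟨m, hm1.1, herase, ?_⟩
  have h5 := cl_erase (K := K) (t := t) 1 hm1.1
  have h6 : (out K t (A K t 1)).erase m = out K t (dv lam) := herase.symm
  rw [a2, cl_one] at h5
  have h7 : cl K t (1 + 1) ((out K t (A K t 1)).erase m) = 7 := by
    rw [h6]; exact c2
  rw [← Finset.card_eq_zero]
  omega

theorem dv_eval (h : TII t p lam lam' mu) : ∀ u ∈ dv lam, eval p u = 0 := by
  intro u hu
  obtain ⟨κ, _, rfl⟩ := mem_mulS.1 hu
  rw [map_mul, h.lp, zero_mul]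

theorem A1_eval (h : TII t p lam lam' mu) : ∀ u ∈ A K t 1, eval p u = 0 :=
  fun u hu => h.dv_eval u (h.A1_le_dv hu)

theorem V2_eval (h : TII t p lam lam' mu) : ∀ u ∈ V K t 2, eval p u = 0 :=
  fun u hu => h.A1_eval u (h.V2_le_A1 hu)

end TII

end Pool.Agent.BR
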