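import Pool.Agent.Work.MP_be705b_al.II.TDefs

set_option autoImplicit false
set_option linter.unusedSectionVars false
set_option linter.unusedVariables false

/-!
# MP_be705b_al, type II, case 1b, module TB1 (M): the flag up to `V 3`

`TB`: `t 2 = mu * del`, `del ∈ KK mu`, `del (p) = 0`, `lam ∤ del`, `lam ∤ mu`.  So `V 3 = V 2 + mu * del`.

PROOFS.
* `V3_dec`: an element of `V 3 * cubics` is `lam * mu * g + mu * del * w` with `g ∈ IP p 4`, `w ∈ cubics` (`V2_mul`); of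
  `V 3 * H 6`: `g ∈ IP p 7`, `w ∈ H 6`; of `V 3 * H 9`: `g ∈ IP p 10`, `w ∈ H 9`.
* `cancel4`: `mu * (lam * f) = lam * mu * g + mu * del * w` gives `lam * (f - g) = del * w`, so `lam ∣ w` (`prime_lin`, `lam ∤ del`),
  `w = lam * ε`, `f = g + del * ε`, so `f (p) = 0` as `del (p) = 0`.  Conversely `f (p) = 0` gives `lam * mu * f ∈ V 2 * cubics`.  The same
  in degree `7`.
* `dims`: `V 3 * cubics = V 2 * cubics + (mu del) * cubics`, intersection: `mu del w ∈ lam mu (IP p 4)` iff `lam ∣ w`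
  (`del (p) = 0`), i.e. `w ∈ dv lam`, dimension 5; so `14 + 9 - 5 = 18`.  `V 3 * H 6`: `w ∈ lam * H 5`: `35 + 28 - 21 = 42`.
  `V 3 * H 9`: `65 + 55 - 45 = 75` (or `dim_step`).  With `Fl.cl1 .. cl4`: cliques `6, 10, 13, 16`.
* `A2`: `a ∈ A 2` iff `a * mu * del ∈ lam mu (IP p 4)` iff `lam ∣ a` (then `a = lam α`, `α del` vanishes at `p`).
* `out (V 3 ⊔ A 1)`: `2 ∈ out (A 1)` as `lam ∤ mu * del`, `out (V 3 ⊔ A 1) = (out (A 1)).erase 2`, and `nb 2 (out (A 1)) = out (A 1) ∩ out (A 2) =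
  out (dv lam)`, so by `cl_erase` and `out_A1`, `out_dv`: card `4`, cliques `7 - 4, 10 - 7, 13 - 10 = 3, 3, 3`.
-/

namespace Pool.Agent.BR

open Submodule Module MvPolynomial

variable {K : Type*} [Field K] {t : Fin 9 → Pol K} {p : Fin 3 → K} {lam lam' mu del : Pol K}

namespace TB

theorem fl (h : TB t p lam lam' mu del) : Fl t := h.h.t2.fl

theorem V3 (h : TB t p lam lam' mu del) : V K t 3 = V K t 2 ⊔ span K {mu * del} := by
  have h1 := V_succ (K := K) (t := t) (2 : Fin 9)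
  have e : ((2 : Fin 9) : ℕ) = 2 := rfl
  rw [e, h.t2] at h1
  exact h1

private theorem e0 (h : TB t p lam lam' mu del) : eval p del = 0 := Ps_eval h.hd

private theorem dH (h : TB t p lam lam' mu del) : del ∈ H K 2 := KK_le mu (mem_inf.1 h.hd).1

private theorem primeL (h : TB t p lam lam' mu del) : Prime lam := prime_lin h.h.t2.ha h.h.L0

private theorem del0 (h : TB t p lam lam' mu del) : del ≠ 0 := fun e => h.nd (by rw [e]; exact dvd_zero _)

private theorem md0 (h : TB t p lam lam' mu del) : mu * del ≠ 0 := mul_ne_zero h.h.t2.m0 h.del0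

private theorem ndt (h : TB t p lam lam' mu del) : ¬ lam ∣ mu * del := fun hd =>
  (h.primeL.dvd_or_dvd hd).elim h.nm h.nd

theorem V3_le_Ps (h : TB t p lam lam' mu del) : V K t 3 ≤ mulS mu (Ps p mu) := by
  rw [h.V3]
  refine sup_le h.h.V2_le_Ps ?_
  rw [span_singleton_le_iff_mem]
  exact mul_mem_mulS h.hd

theorem V3_le_dv (h : TB t p lam lam' mu del) : V K t 3 ≤ dv mu :=
  h.V3_le_Ps.trans (mulS_mono inf_le_left)

private theorem V3_mul (h : TB t p lam lam' mu del) (Y : Submodule K (Pol K)) :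
    V K t 3 * Y = V K t 2 * Y ⊔ mulS (mu * del) Y := by
  rw [h.V3, Submodule.sup_mul, span_mul_eq']

theorem V3_dec4 (h : TB t p lam lam' mu del) {f : Pol K} (hf : f ∈ V K t 3 * cubics K) :
    ∃ g ∈ IP p 4, ∃ w ∈ cubics K, f = lam * mu * g + mu * del * w := by
  rw [h.V3_mul, h.h.V2_mul] at hf
  obtain ⟨x, hx, y, hy, rfl⟩ := mem_sup.1 hf
  obtain ⟨g, hg, rfl⟩ := mem_mulS.1 hx
  obtain ⟨w, hw, rfl⟩ := mem_mulS.1 hy
  exact ⟨g, hg, w, hw, rfl⟩

theorem V3_dec7 (h : TB t p lam lam' mu del) {f : Pol K} (hf : f ∈ V K t 3 * H K 6) :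
    ∃ g ∈ IP p 7, ∃ w ∈ H K 6, f = lam * mu * g + mu * del * w := by
  rw [h.V3_mul, h.h.V2_mul6] at hf
  obtain ⟨x, hx, y, hy, rfl⟩ := mem_sup.1 hf
  obtain ⟨g, hg, rfl⟩ := mem_mulS.1 hx
  obtain ⟨w, hw, rfl⟩ := mem_mulS.1 hy
  exact ⟨g, hg, w, hw, rfl⟩

private theorem canc (h : TB t p lam lam' mu del) {f g w : Pol K} (hg : eval p g = 0)
    (he : mu * (lam * f) = lam * mu * g + mu * del * w) : eval p f = 0 := by
  have h1 : lam * f = lam * g + del * w := by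
    apply mul_left_cancel₀ h.h.t2.m0
    linear_combination he
  have h2 : lam ∣ del * w := ⟨f - g, by linear_combination -h1⟩
  obtain ⟨ε, rfl⟩ := (h.primeL.dvd_or_dvd h2).resolve_left h.nd
  have h3 : f = g + del * ε := by
    apply mul_left_cancel₀ h.h.L0
    linear_combination h1
  rw [h3, map_add, map_mul, hg, h.e0, zero_mul, add_zero]

theorem cancel4 (h : TB t p lam lam' mu del) {f : Pol K} (hf : f ∈ H K 4) :
    mu * (lam * f) ∈ V K t 3 * cubics K ↔ eval p f = 0 := by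
  constructor
  · intro h1
    obtain ⟨g, hg, w, hw, he⟩ := h.V3_dec4 h1
    exact h.canc (mem_IP.1 hg).2 he
  · intro h1
    rw [h.V3_mul, h.h.V2_mul]
    refine mem_sup_left (mem_mulS.2 ⟨f, mem_IP.2 ⟨hf, h1⟩, by ring⟩)

theorem cancel7 (h : TB t p lam lam' mu del) {f : Pol K} (hf : f ∈ H K 7) :
    mu * (lam * f) ∈ V K t 3 * H K 6 ↔ eval p f = 0 := by
  constructor
  · intro h1
    obtain ⟨g, hg, w, hw, he⟩ := h.V3_dec7 h1
    exact h.canc (mem_IP.1 hg).2 he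
  · intro h1
    rw [h.V3_mul, h.h.V2_mul6]
    refine mem_sup_left (mem_mulS.2 ⟨f, mem_IP.2 ⟨hf, h1⟩, by ring⟩)

theorem A2 (h : TB t p lam lam' mu del) : A K t 2 = dv lam := by
  ext a
  rw [h.fl.mem_A, mem_dv h.h.t2.ha h.h.L0]
  have e : ((2 : Fin 9) : ℕ) = 2 := rfl
  rw [e, h.h.V2_mul, h.t2, mem_mulS]
  constructor
  · rintro ⟨ha, g, hg, he⟩
    refine ⟨ha, ?_⟩
    have h1 : lam ∣ a * (mu * del) := ⟨mu * g, by rw [← he]; ring⟩
    exact (h.primeL.dvd_or_dvd h1).resolve_right h.ndt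
  · rintro ⟨ha, hd⟩
    obtain ⟨α, hα, rfl⟩ := exists_quot (a := 1) (b := 2) h.h.t2.ha h.h.L0 (cubics_le ha) hd
    refine ⟨ha, α * del, mem_IP.2 ⟨mul_mem_H hα h.dH, ?_⟩, by ring⟩
    rw [map_mul, h.e0, mul_zero]

private theorem dimgen (h : TB t p lam lam' mu del) {Y Z : Submodule K (Pol K)} {d : ℕ}
    (hY : Y ≤ H K (1 + d)) (hY2 : V K t 2 * Y = mulS (lam * mu) (IP p (2 + d)))
    (hZ : ∀ w, w ∈ Z ↔ w ∈ Y ∧ lam ∣ w) :
    finrank K ↥(V K t 3 * Y) + finrank K ↥Z = finrank K ↥(IP p (2 + d)) + finrank K ↥Y := by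
  have fY : Module.Finite K ↥Y := Submodule.finiteDimensional_of_le hY
  have fI : Module.Finite K ↥(IP p (2 + d)) := Submodule.finiteDimensional_of_le (IP_le _ _)
  have f1 : Module.Finite K ↥(mulS (lam * mu) (IP p (2 + d))) := Module.Finite.map _ _
  have f2 : Module.Finite K ↥(mulS (mu * del) Y) := Module.Finite.map _ _
  have h1 := finrank_sup_add_finrank_inf_eq (mulS (lam * mu) (IP p (2 + d))) (mulS (mu * del) Y)
  have h2 : mulS (lam * mu) (IP p (2 + d)) ⊓ mulS (mu * del) Y = mulS (mu * del) Z := by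
    ext x
    rw [mem_inf, mem_mulS, mem_mulS, mem_mulS]
    constructor
    · rintro ⟨⟨g, hg, rfl⟩, w, hw, he⟩
      refine ⟨w, (hZ w).2 ⟨hw, ?_⟩, he⟩
      have h3 : lam ∣ (mu * del) * w := ⟨mu * g, by rw [he]; ring⟩
      exact (h.primeL.dvd_or_dvd h3).resolve_left h.ndt
    · rintro ⟨w, hw, rfl⟩
      obtain ⟨hw1, hw2⟩ := (hZ w).1 hw
      obtain ⟨ε, hε, rfl⟩ := exists_quot (a := 1) (b := d) h.h.t2.ha h.h.L0 (hY hw1) hw2
      refine ⟨⟨del * ε, mem_IP.2 ⟨mul_mem_H h.dH hε, ?_⟩, by ring⟩, lam * ε, hw1, rfl⟩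
      rw [map_mul, h.e0, zero_mul]
  rw [h2, finrank_mulS (mul_ne_zero h.h.L0 h.h.t2.m0), finrank_mulS h.md0, finrank_mulS h.md0,
    ← hY2, ← h.V3_mul] at h1
  exact h1

private theorem memL (h : TB t p lam lam' mu del) (d : ℕ) (w : Pol K) :
    w ∈ mulS lam (H K d) ↔ w ∈ H K (1 + d) ∧ lam ∣ w := by
  constructor
  · intro hw
    obtain ⟨u, hu, rfl⟩ := mem_mulS.1 hw
    exact ⟨mul_mem_H h.h.t2.ha hu, dvd_mul_right _ _⟩
  · rintro ⟨hw, hd⟩
    exact mem_mulS_of_dvd h.h.t2.ha h.h.L0 hw hd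

private theorem dims (h : TB t p lam lam' mu del) : finrank K ↥(V K t 3 * cubics K) = 18 ∧
    finrank K ↥(V K t 3 * H K 6) = 42 ∧ finrank K ↥(V K t 3 * H K 9) = 75 := by
  have h1 := h.dimgen (Y := cubics K) (Z := dv lam) (d := 2) cubics_le h.h.V2_mul
    (fun w => mem_dv h.h.t2.ha h.h.L0)
  have h2 := h.dimgen (Y := H K 6) (Z := mulS lam (H K 5)) (d := 5) le_rfl h.h.V2_mul6
    (fun w => h.memL 5 w)
  have h3 := h.dimgen (Y := H K 9) (Z := mulS lam (H K 8)) (d := 8) le_rfl h.h.V2_mul9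
    (fun w => h.memL 8 w)
  have i4 := finrank_IP (K := K) h.h.p0 4
  have i7 := finrank_IP (K := K) h.h.p0 7
  have i10 := finrank_IP (K := K) h.h.p0 10
  have d1 : finrank K ↥(dv lam) = 5 := by
    rw [dv, finrank_mulS h.h.L0, finrank_KK h.h.t2.ha h.h.L0]
  rw [d1, finrank_cubics] at h1
  rw [finrank_mulS h.h.L0, finrank_H5, finrank_H6] at h2
  rw [finrank_mulS h.h.L0, finrank_H8, finrank_H9] at h3
  rw [finrank_H4] at i4
  rw [finrank_H7] at i7
  rw [finrank_H10] at i10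
  refine ⟨?_, ?_, ?_⟩
  · have e : 2 + 2 = 4 := rfl
    rw [e] at h1
    omega
  · have e : 2 + 5 = 7 := rfl
    rw [e] at h2
    omega
  · have e : 2 + 8 = 10 := rfl
    rw [e] at h3
    omega

theorem out_V3 (h : TB t p lam lam' mu del) : (out K t (V K t 3)).card = 6 ∧
    cl K t 2 (out K t (V K t 3)) = 10 ∧ cl K t 3 (out K t (V K t 3)) = 13 ∧
    cl K t 4 (out K t (V K t 3)) = 16 := by
  obtain ⟨d1, d2, d3⟩ := h.dims
  have c2 := h.fl.cl2 (h.fl.V_le 3) (h.fl.llV 3)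
  have c3 := h.fl.cl3 (h.fl.V_le 3) (h.fl.llV 3)
  have c4 := h.fl.cl4 (h.fl.V_le 3) (h.fl.llV 3)
  rw [d1] at c2
  rw [d2] at c3
  rw [d3] at c4
  refine ⟨?_, by omega, by omega, by omega⟩
  have h1 : out K t (V K t 3) = Finset.univ.filter fun i : Fin 9 => 3 ≤ (i : ℕ) := by
    ext i
    rw [h.fl.mem_out_V]
    simp
  rw [h1]
  decide

theorem dim_V3 (h : TB t p lam lam' mu del) : finrank K ↥(V K t 3 * cubics K) = 18 ∧
    finrank K ↥(V K t 3 * H K 6) = 42 :=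
  ⟨h.dims.1, h.dims.2.1⟩

private theorem two_A1 (h : TB t p lam lam' mu del) : (2 : Fin 9) ∈ out K t (A K t 1) := by
  refine mem_out_of (j := (2 : Fin 9)) h.h.V2_le_A1 ?_
  intro h1
  rw [h.t2, h.h.A1, mem_mulS] at h1
  obtain ⟨κ, -, he⟩ := h1
  exact h.ndt ⟨κ, he.symm⟩

theorem two_mem (h : TB t p lam lam' mu del) : (2 : Fin 9) ∈ out K t (dv lam) := by
  refine mem_out_of (j := (2 : Fin 9)) (h.h.V2_le_A1.trans h.h.A1_le_dv) ?_
  intro h1
  rw [h.t2, mem_dv h.h.t2.ha h.h.L0] at h1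
  exact h.ndt h1.2

theorem out_V3A1 (h : TB t p lam lam' mu del) :
    out K t (V K t 3 ⊔ A K t 1) = (out K t (A K t 1)).erase 2 ∧
    (out K t (V K t 3 ⊔ A K t 1)).card = 4 ∧
    cl K t 2 (out K t (V K t 3 ⊔ A K t 1)) = 3 ∧ cl K t 3 (out K t (V K t 3 ⊔ A K t 1)) = 3 ∧
    cl K t 4 (out K t (V K t 3 ⊔ A K t 1)) = 3 := by
  have h1 : out K t (V K t 3 ⊔ A K t 1) = (out K t (A K t 1)).erase 2 := by
    ext i
    rw [sup_comm, h.fl.out_sup_V, Finset.mem_erase]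
    constructor
    · rintro ⟨h2, h3⟩
      refine ⟨?_, h2⟩
      rintro rfl
      exact absurd h3 (by decide)
    · rintro ⟨h2, h3⟩
      refine ⟨h3, ?_⟩
      by_contra h4
      have h5 : (i : ℕ) < 2 := by
        have h6 : (i : ℕ) ≠ 2 := fun h7 => h2 (Fin.ext h7)
        omega
      exact notMem_inn.2 h3 (mem_inn_of_le h.h.V2_le_A1 h5)
  obtain ⟨a1, a2, a3, a4⟩ := h.h.out_A1
  obtain ⟨b1, b2, b3, b4⟩ := h.h.out_dv
  have h2 : nb K t 2 (out K t (A K t 1)) = out K t (dv lam) := by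
    rw [h.fl.nb_eq (j := (2 : Fin 9)) h.h.V2_le_A1, h.A2]
    exact Finset.inter_eq_right.2 (out_mono h.h.A1_le_dv)
  have c2 : cl K t 2 (out K t (A K t 1)) = cl K t 1 (nb K t 2 (out K t (A K t 1))) +
      cl K t 2 ((out K t (A K t 1)).erase 2) := cl_erase 1 h.two_A1
  have c3 : cl K t 3 (out K t (A K t 1)) = cl K t 2 (nb K t 2 (out K t (A K t 1))) +
      cl K t 3 ((out K t (A K t 1)).erase 2) := cl_erase 2 h.two_A1
  have c4 : cl K t 4 (out K t (A K t 1)) = cl K t 3 (nb K t 2 (out K t (A K t 1))) +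
      cl K t 4 ((out K t (A K t 1)).erase 2) := cl_erase 3 h.two_A1
  rw [h2, cl_one] at c2
  rw [h2] at c3 c4
  rw [h1]
  refine ⟨rfl, ?_, by omega, by omega, by omega⟩
  rw [Finset.card_erase_of_mem h.two_A1, a1]

theorem V3_eval (h : TB t p lam lam' mu del) : ∀ u ∈ V K t 3, eval p u = 0 := by
  intro u hu
  obtain ⟨κ, hκ, rfl⟩ := mem_mulS.1 (h.V3_le_Ps hu)
  rw [map_mul, Ps_eval hκ, mul_zero]

end TB

end Pool.Agent.BR
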