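import Pool.Agent.Work.MP_be705b_al.II.TB1

set_option autoImplicit false
set_option linter.unusedSectionVars false
set_option linter.unusedVariables false

/-!
# MP_be705b_al, type II, case 1b, module TB2 (M): the vertices `a`, `b`, `m`

PROOF of `exists_TV`.  `mulS lam (Ph p) ≤ A 1 ≤ dv lam` have dimensions `3, 4, 5` (so `inn` has `3, 4, 5` elements, `Fl`: `dim_one`) and
contain `V 2` (`inn ∋ 0, 1`, `V2_le_Ph`).  So `inn (lam Ph) = {0, 1, a}`, `inn (A 1) = {0, 1, a, b}`, `inn (dv lam) = {0, 1, a, b, m}`.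
`2 ∉ inn (dv lam)` (`TB.two_mem`), so `a, b, m ≥ 3`.  `mi`: `TII.exists_m` (the `m` is the same since `out (A 1) \ out (dv lam) = {m}`).
`nPs`: (G2) `Fl.g2s` with `U = V 2`, `X = A 1 = lam Fp`, `Y = mulS mu (Ps p mu)`: `lam κ * (mu ψ) = lam mu * (κ ψ)` and `κ ψ ∈ IP p 4`, so it is in
`V 2 * cubics` (`V2_mul`); `a, b, i ∈ out (V 2)` iff `≥ 2`.  `nD`: the same with `X = mulS lam (Ph p)`, `Y = dv mu`.

PROOF of `plus` (the argument (+)).  `3 ≤ j`, `V j ≤ dv mu`, `mu ∤ t j`, `t j ∉ V j ⊔ dv lam`.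
`A_le`: `a ∈ A j`: `a * t j ∈ V j * cubics` is divisible by `mu`, so `mu ∣ a`, `a ∈ dv mu` (`mem_dv`, `prime_lin`).
`U := A 1 ⊔ V j ∈ LL`, `t j ∉ U` (`A 1 ≤ dv lam`).  Take `κ ∈ KK lam`, `κ ∉ Fp p` (dimensions 5 and 4).  `lam * κ * t j ∈ lam * H 5 = A 1 * cubics ≤ U *
cubics` (`A1_mul`), so `lam κ ∈ U ⊔ A j` (`Fl.col1`): `lam κ = lam κ1 + v + a` with `κ1 ∈ Fp p`, `v ∈ V j`, `a ∈ A j`, so `mu ∣ lam (κ - κ1)`.
`mu ∤ lam` (both linear, `lam ∤ mu`), so `mu ∣ κ - κ1`, and `κ - κ1 ∈ KK lam`, `∉ Fp p`; `TII.KK_dvd` gives `lam * mu ∈ N K` and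
`κ - κ1 = mu * ν` with `ν (p) ≠ 0`, and `lam * mu * ν = v + a`.
-/

namespace Pool.Agent.BR

open Submodule Module MvPolynomial

variable {K : Type*} [Field K] {t : Fin 9 → Pol K} {p : Fin 3 → K} {lam lam' mu del : Pol K}

namespace TB

private theorem h1m (h : TB t p lam lam' mu del) : mu ∈ H K 1 := h.h.t2.hm

private theorem h1l (h : TB t p lam lam' mu del) : lam ∈ H K 1 := h.h.t2.ha

private theorem A1_le (h : TB t p lam lam' mu del) : A K t 1 ≤ cubics K := h.h.fl.A_le 1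

private theorem Ph_le_A1 (h : TB t p lam lam' mu del) : mulS lam (Ph p) ≤ A K t 1 := by
  rw [h.h.A1]
  exact mulS_mono inf_le_left

private theorem card_inn_out (U : Submodule K (Pol K)) :
    (inn K t U).card + (out K t U).card = 9 := by
  rw [out, Finset.card_add_card_compl, Fintype.card_fin]

private theorem card_inn (h : TB t p lam lam' mu del) {U : Submodule K (Pol K)} (hU : U ≤ cubics K) :
    (inn K t U).card = finrank K ↥U := by
  have h1 := dim_one h.h.fl.li (U := U) (by rw [h.h.fl.sp]; exact hU)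
  rw [h.h.fl.sp, finrank_cubics] at h1
  have h2 := card_inn_out (K := K) (t := t) U
  omega

private theorem inn_V2 (h : TB t p lam lam' mu del) : inn K t (V K t 2) = {0, 1} := by
  ext i
  rw [inn_V h.h.fl.li]
  fin_cases i <;> simp

private theorem two_le (h : TB t p lam lam' mu del) {i : Fin 9} (h0 : i ∉ ({0, 1} : Finset (Fin 9)))
    (hi : i ∈ inn K t (dv lam)) : 3 ≤ i := by
  have h2 : i ≠ 2 := by
    rintro rfl
    exact notMem_inn.2 h.two_mem hi
  simp only [Finset.mem_insert, Finset.mem_singleton, not_or] at h0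
  obtain ⟨h3, h4⟩ := h0
  revert h2 h3 h4
  clear hi
  revert i
  decide

theorem exists_TV (h : TB t p lam lam' mu del) : ∃ a b m : Fin 9, TV t p lam lam' mu del a b m := by
  classical
  have fl := h.h.fl
  have hT := h.h
  have c3 : (inn K t (mulS lam (Ph p))).card = 3 := by
    rw [h.card_inn (h.Ph_le_A1.trans h.A1_le), finrank_mulS hT.L0, finrank_Ph hT.p0]
  have c4 : (inn K t (A K t 1)).card = 4 := by
    have h1 := card_inn_out (K := K) (t := t) (A K t 1)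
    have h2 := hT.out_A1.1
    omega
  have s2 : ({0, 1} : Finset (Fin 9)) ⊆ inn K t (mulS lam (Ph p)) := by
    rw [← h.inn_V2]
    exact inn_mono hT.V2_le_Ph
  have s3 : inn K t (mulS lam (Ph p)) ⊆ inn K t (A K t 1) := inn_mono h.Ph_le_A1
  have c2 : ({0, 1} : Finset (Fin 9)).card = 2 := by decide
  obtain ⟨a, ha, hia⟩ := Finset.exists_eq_insert_iff.2 ⟨s2, by rw [c2, c3]⟩
  obtain ⟨b, hb, hib⟩ := Finset.exists_eq_insert_iff.2 ⟨s3, by rw [c3, c4]⟩
  obtain ⟨m, hm, hom, hmi⟩ := hT.exists_m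
  have hid : inn K t (dv lam) = insert m (inn K t (A K t 1)) := by
    ext i
    have h1 : i ∈ out K t (dv lam) ↔ i ∈ (out K t (A K t 1)).erase m := by rw [hom]
    rw [Finset.mem_erase] at h1
    rw [Finset.mem_insert, ← notMem_out, ← notMem_out, h1]
    tauto
  have hmA : m ∉ inn K t (A K t 1) := notMem_inn.2 hm
  have ea : inn K t (mulS lam (Ph p)) = {0, 1, a} := by
    rw [← hia]; ext i; simp only [Finset.mem_insert, Finset.mem_singleton]; tauto
  have eb : inn K t (A K t 1) = {0, 1, a, b} := by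
    rw [← hib, ea]; ext i; simp only [Finset.mem_insert, Finset.mem_singleton]; tauto
  have em : inn K t (dv lam) = {0, 1, a, b, m} := by
    rw [hid, eb]; ext i; simp only [Finset.mem_insert, Finset.mem_singleton]; tauto
  have ab : a ≠ b := by
    rintro rfl
    apply hb
    rw [ea]; simp
  have am : a ≠ m := by
    rintro rfl
    apply hmA
    rw [eb]; simp
  have bm : b ≠ m := by
    rintro rfl
    apply hmA
    rw [eb]; simp
  have ha3 : 3 ≤ a := h.two_le ha (by rw [em]; simp)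
  have hb3 : 3 ≤ b := h.two_le (fun h' => hb (s2 h')) (by rw [em]; simp)
  have hm3 : 3 ≤ m := h.two_le (fun h' => hmA (s3 (s2 h'))) (by rw [em]; simp)
  have out2 : ∀ i : Fin 9, 2 ≤ i → i ∈ out K t (V K t 2) := by
    intro i hi
    rw [fl.mem_out_V]
    exact hi
  have a2 : (2 : Fin 9) ≤ a := le_trans (by decide) ha3
  have b2 : (2 : Fin 9) ≤ b := le_trans (by decide) hb3
  have IP4 : ∀ κ ∈ H K 2, ∀ ψ ∈ H K 2, (eval p κ = 0 ∨ eval p ψ = 0) → κ * ψ ∈ IP p 4 := by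
    intro κ hκ ψ hψ h0
    rw [mem_IP]
    refine ⟨mul_mem_H (a := 2) (b := 2) hκ hψ, ?_⟩
    rw [map_mul]
    rcases h0 with h0 | h0 <;> rw [h0] <;> ring
  refine ⟨a, b, m, h, ab, am, bm, ha3, hb3, hm3, ea, eb, em, hmi, h.A2, ?_, ?_⟩
  · intro i hi hi2
    have key : ∀ x ∈ A K t 1, ∀ y ∈ mulS mu (Ps p mu), x * y ∈ V K t 2 * cubics K := by
      intro x hx y hy
      rw [hT.A1] at hx
      obtain ⟨κ, hκ, rfl⟩ := mem_mulS.1 hx
      obtain ⟨ψ, hψ, rfl⟩ := mem_mulS.1 hy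
      rw [hT.V2_mul, show lam * κ * (mu * ψ) = lam * mu * (κ * ψ) by ring]
      exact mul_mem_mulS (IP4 κ (Fp_le p hκ) ψ (KK_le _ hψ.1) (Or.inr (Ps_eval hψ)))
    constructor
    · exact fl.g2s (fl.V_le 2) (fl.llV 2) key (by rw [eb]; simp) hi (out2 a a2) (out2 i hi2)
    · exact fl.g2s (fl.V_le 2) (fl.llV 2) key (by rw [eb]; simp) hi (out2 b b2) (out2 i hi2)
  · intro i hi hi2
    have key : ∀ x ∈ mulS lam (Ph p), ∀ y ∈ dv mu, x * y ∈ V K t 2 * cubics K := by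
      intro x hx y hy
      obtain ⟨κ, hκ, rfl⟩ := mem_mulS.1 hx
      obtain ⟨ψ, hψ, rfl⟩ := mem_mulS.1 hy
      rw [hT.V2_mul, show lam * κ * (mu * ψ) = lam * mu * (κ * ψ) by ring]
      exact mul_mem_mulS (IP4 κ (Fp_le p hκ.1) ψ (KK_le _ hψ) (Or.inl (Ph_eval hκ)))
    exact fl.g2s (fl.V_le 2) (fl.llV 2) key (by rw [ea]; simp) hi (out2 a a2) (out2 i hi2)

theorem A_le (h : TB t p lam lam' mu del) {j : Fin 9} (hV : V K t j ≤ dv mu) (hm : ¬ mu ∣ t j) :
    A K t j ≤ dv mu := by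
  intro a ha
  have h1 := h.h.fl.mem_A.1 ha
  have m0 := h.h.t2.m0
  have h2 : mu ∣ a * t j := by
    refine Submodule.mul_induction_on h1.2 ?_ ?_
    · intro x hx y _
      exact dvd_mul_of_dvd_left ((mem_dv h.h1m m0).1 (hV hx)).2 _
    · intro x y hx hy
      exact dvd_add hx hy
  rcases (prime_lin h.h1m m0).dvd_or_dvd h2 with h3 | h3
  · exact (mem_dv h.h1m m0).2 ⟨h1.1, h3⟩
  · exact absurd h3 hm

private theorem exists_kk (h : TB t p lam lam' mu del) : ∃ κ ∈ KK lam, κ ∉ Fp p := by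
  by_contra hcon
  push Not at hcon
  have h1 : KK lam ≤ Fp p := hcon
  have hfin : Module.Finite K ↥(Fp p) := Module.finite_of_finrank_pos (by
    rw [finrank_Fp h.h.p0]; norm_num)
  have h2 := Submodule.finrank_mono h1
  rw [finrank_Fp h.h.p0, finrank_KK h.h1l h.h.L0] at h2
  omega

theorem plus (h : TB t p lam lam' mu del) {j : Fin 9} (hj : 3 ≤ j) (hV : V K t j ≤ dv mu)
    (hm : ¬ mu ∣ t j) (hD : t j ∉ V K t j ⊔ dv lam) :
    lam * mu ∈ N K ∧ ∃ ν ∈ H K 1, eval p ν ≠ 0 ∧ lam * mu * ν ∈ V K t j ⊔ A K t j := by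
  have fl := h.h.fl
  have hT := h.h
  have m0 := hT.t2.m0
  obtain ⟨κ, hκ, hκF⟩ := h.exists_kk
  have hU : A K t 1 ⊔ V K t j ≤ cubics K := sup_le h.A1_le (fl.V_le j)
  have hL : LL K t (A K t 1 ⊔ V K t j) := fl.llSupV h.A1_le (fl.llA 1) j
  have htU : t j ∉ A K t 1 ⊔ V K t j := by
    intro hmem
    apply hD
    exact (sup_le (hT.A1_le_dv.trans le_sup_right) le_sup_left : A K t 1 ⊔ V K t j ≤ V K t j ⊔ dv lam) hmem
  have hat : lam * κ * t j ∈ (A K t 1 ⊔ V K t j) * cubics K := by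
    have h1 : lam * κ * t j ∈ A K t 1 * cubics K := by
      rw [hT.A1_mul, mul_assoc]
      exact mul_mem_mulS (mul_mem_H (a := 2) (b := 3) (KK_le _ hκ) (fl.mem_H j))
    exact (mul_le_mul' (le_sup_left : A K t 1 ≤ A K t 1 ⊔ V K t j) le_rfl) h1
  have h2 := fl.col1 hU hL le_sup_right htU (mul_KK_mem h.h1l hκ) hat
  rw [sup_assoc] at h2
  obtain ⟨x, hx, w, hw, hxw⟩ := mem_sup.1 h2
  rw [hT.A1] at hx
  obtain ⟨κ1, hκ1, rfl⟩ := mem_mulS.1 hx
  have hweq : lam * (κ - κ1) = w := by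
    rw [mul_sub, ← hxw]; ring
  have hwmu : w ∈ dv mu := (sup_le hV (h.A_le hV hm)) hw
  have hdvd : mu ∣ lam * (κ - κ1) := by
    rw [hweq]
    exact ((mem_dv h.h1m m0).1 hwmu).2
  have hml : ¬ mu ∣ lam := by
    intro hd
    obtain ⟨c, hc⟩ := dvd_lin h.h1m h.h1l m0 hd
    have hc0 : c ≠ 0 := by
      rintro rfl
      exact hT.L0 (by rw [hc, map_zero, zero_mul])
    apply h.nm
    refine ⟨C c⁻¹, ?_⟩
    rw [hc, mul_comm (C c) mu, mul_assoc, ← map_mul, mul_inv_cancel₀ hc0, map_one, mul_one]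
  have hdvd' : mu ∣ κ - κ1 := by
    rcases (prime_lin h.h1m m0).dvd_or_dvd hdvd with h3 | h3
    · exact absurd h3 hml
    · exact h3
  have hmemKK : κ - κ1 ∈ KK lam := sub_mem hκ (Fp_le_KK h.h1l hT.lp hκ1)
  have hnF : κ - κ1 ∉ Fp p := by
    intro hc
    apply hκF
    have := add_mem hc hκ1
    rwa [sub_add_cancel] at this
  obtain ⟨hN, ν, hν, hν0, hνeq⟩ := hT.KK_dvd hmemKK hdvd' hnF
  refine ⟨hN, ν, hν, hν0, ?_⟩
  rw [mul_assoc, ← hνeq, hweq]
  exact hw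

private theorem dvd_both (h : TB t p lam lam' mu del) {w : Pol K} :
    w ∈ dv lam ⊓ dv mu ↔ ∃ ν ∈ H K 1, lam * mu * ν ∈ cubics K ∧ w = lam * mu * ν := by
  have l0 := h.h.L0
  have m0 := h.h.t2.m0
  rw [mem_inf, mem_dv h.h1l l0, mem_dv h.h1m m0]
  constructor
  · rintro ⟨⟨hw, h1⟩, -, h2⟩
    have h3 : lam * mu ∣ w := by
      obtain ⟨g, hg⟩ := h2
      have h4 : lam ∣ mu * g := hg ▸ h1
      have h5 : lam ∣ g := by
        rcases (prime_lin h.h1l l0).dvd_or_dvd h4 with h6 | h6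
        · exact absurd h6 h.nm
        · exact h6
      obtain ⟨k, rfl⟩ := h5
      exact ⟨k, by rw [hg]; ring⟩
    obtain ⟨ν, hν, rfl⟩ := exists_quot (a := 2) (b := 1) (mul_mem_H (a := 1) (b := 1) h.h1l h.h1m)
      (mul_ne_zero l0 m0) (cubics_le hw) h3
    exact ⟨ν, hν, hw, rfl⟩
  · rintro ⟨ν, hν, hc, rfl⟩
    exact ⟨⟨hc, by rw [mul_assoc]; exact dvd_mul_right _ _⟩, hc,
      by rw [mul_comm lam mu, mul_assoc]; exact dvd_mul_right _ _⟩

private theorem fin_dv {f : Pol K} (hf : f ∈ H K 1) (h0 : f ≠ 0) : Module.Finite K ↥(dv f) :=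
  Module.finite_of_finrank_pos (by rw [dv, finrank_mulS h0, finrank_KK hf h0]; norm_num)

/-- if `lam * mu ∈ N K` then `dv lam ⊔ dv mu` has dimension `7`, otherwise `8` -/
theorem dim_sup (h : TB t p lam lam' mu del) :
    (lam * mu ∈ N K → finrank K ↥(dv lam ⊔ dv mu) = 7) ∧
    (lam * mu ∉ N K → finrank K ↥(dv lam ⊔ dv mu) = 8) := by
  have l0 := h.h.L0
  have m0 := h.h.t2.m0
  have lm0 := mul_ne_zero l0 m0
  have f1 := fin_dv h.h1l l0
  have f2 := fin_dv h.h1m m0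
  have h5l : finrank K ↥(dv lam) = 5 := by rw [dv, finrank_mulS l0, finrank_KK h.h1l l0]
  have h5m : finrank K ↥(dv mu) = 5 := by rw [dv, finrank_mulS m0, finrank_KK h.h1m m0]
  have hsum := Submodule.finrank_sup_add_finrank_inf_eq (dv lam) (dv mu)
  constructor
  · intro hN
    have e : dv lam ⊓ dv mu = mulS (lam * mu) (H K 1) := by
      ext w
      rw [h.dvd_both, mem_mulS]
      constructor
      · rintro ⟨ν, hν, -, rfl⟩
        exact ⟨ν, hν, rfl⟩
      · rintro ⟨ν, hν, rfl⟩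
        refine ⟨ν, hν, ?_, rfl⟩
        rw [← N_mul_H1]
        exact mul_mem_mul hN hν
    rw [e, finrank_mulS lm0, finrank_H1] at hsum
    omega
  · intro hN
    have e : dv lam ⊓ dv mu = V K t 2 := by
      rw [h.h.V2]
      ext w
      rw [h.dvd_both, mem_mulS]
      constructor
      · rintro ⟨ν, hν, hc, rfl⟩
        refine ⟨ν, h.h.mem_L.2 ⟨hν, ?_⟩, rfl⟩
        by_contra h0
        exact hN (h.h.lam_mu_nu hν h0 hc)
      · rintro ⟨ν, hν, rfl⟩
        refine ⟨ν, (h.h.mem_L.1 hν).1, ?_, rfl⟩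
        have : lam * mu * ν ∈ V K t 2 := by
          rw [h.h.V2]
          exact mul_mem_mulS hν
        exact h.h.fl.V_le 2 this
    have h2 : finrank K ↥(V K t 2) = 2 := by
      have h3 := h.h.fl.cl1 (h.h.fl.V_le 2) (h.h.fl.llV 2)
      rw [h.h.out_V2.1] at h3
      omega
    rw [e, h2] at hsum
    omega

end TB

end Pool.Agent.BR
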