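import Pool.Agent.Work.MP_be705b_al.II.TDefs
import Pool.Agent.Work.MP_be705b_al.II.TB1
import Pool.Agent.Work.MP_be705b_al.II.TB2
import Pool.Agent.Work.MP_be705b_al.II.B1
import Pool.Agent.Work.MP_be705b_al.II.B2
import Pool.Agent.Work.MP_be705b_al.II.B3

set_option autoImplicit false
set_option linter.unusedSectionVars false
set_option linter.unusedVariables false

/-!
# MP_be705b_al, type II, case 1b, module X1 (M): `V 5 = dv mu`, `lam * mu ∉ N K`

`out (V 5) = {5, 6, 7, 8}` (`Fl.mem_out_V`).  `a, b, m ≥ 3` (TV), and `≠ 3` (`h.o3`, `h.tv.iD`).  `dv lam ⊔ V 5 = dv lam ⊔ dv mu` has dimension 8 (`TB.dim_sup`), is in `LL` (`TII.ll_dv`, `Fl.llSupV`), so its `out` has one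
element (`Fl.cl1`); `out (dv lam ⊔ V 5) = out (dv lam) ∩ {≥ 5}` (`Fl.out_sup_V`, `iD`), so `a, b, m ≥ 5` (all three, different) and `out (V 5) = {a, b, m, r}`, `out (dv lam ⊔ V 5) = {r}`.
`r` is a loop: `(dv lam ⊔ dv mu) * cubics = mulS lam (H 5) ⊔ mulS mu (H 5)` (`KK_mul`) has dimension `21 + 21 - 15 = 27` (intersection `mulS (lam * mu) (H 4)`, `lam ∤ mu`), so `cl 2 {r} = 1` (`Fl.cl2`).
`5` is adjacent to all of `out (V 5)`: `t 5 ∉ V 5 = dv mu`, so `mu ∤ t 5` (`mem_dv`), `A 5 = V 5` (`w * t 5 ∈ V 5 * cubics = mulS mu (H 5)` gives `mu ∣ w`, `w ∈ dv mu`), so `nb 5 (out (V 5)) = out (A 5) = out (V 5)` (`Fl.outA`).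
`mi`: `m ∈ out (A 1)` is isolated in `out (A 1)` and no loop, `r ∈ out (A 1)` (`iA`): `¬ Adj m m`, `¬ Adj m r`.  So `5 ≠ m`, `5 ≠ r`: `5 = a` or `5 = b`.  Let `e` be the other one.  Cliques of `out (V 5)` (`V 5 = dv mu`, dimensions `5, 21, 45`):
`4, 7, 10`; `nb 5` is everything, so `out (V 6) = out (V 5) \ {5} = {e, m, r}` has `cl 2 = 7 - 4 = 3`, `cl 3 = 10 - 7 = 3`.  `gr_tri` (module Gr) with `e, m, r`: `e` is a loop, `e ~ m`, `e ≁ r`.
-/

namespace Pool.Agent.BR

open Submodule Module MvPolynomial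

variable {K : Type*} [Field K]

variable {t : Fin 9 → Pol K} {p : Fin 3 → K} {lam lam' mu del del2 : Pol K} {a b m : Fin 9}

private theorem X1_dim (h : TB t p lam lam' mu del) :
    finrank K ↥((dv lam ⊔ dv mu) * cubics K) = 27 := by
  have hl1 := h.h.t2.ha
  have hm1 := h.h.t2.hm
  have l0 := h.h.L0
  have m0 := h.h.t2.m0
  have lm0 := mul_ne_zero l0 m0
  have e1 : (dv lam ⊔ dv mu) * cubics K = mulS lam (H K 5) ⊔ mulS mu (H K 5) := by
    rw [Submodule.sup_mul, dv, dv, mulS_mul, mulS_mul, KK_mul hl1 l0, KK_mul hm1 m0]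
  have e2 : mulS lam (H K 5) ⊓ mulS mu (H K 5) = mulS (lam * mu) (H K 4) := by
    apply le_antisymm
    · intro w hw
      obtain ⟨h1, h2⟩ := mem_inf.1 hw
      obtain ⟨f, hf, rfl⟩ := mem_mulS.1 h1
      obtain ⟨g, hg, hfg⟩ := mem_mulS.1 h2
      have h3 : mu ∣ lam * f := ⟨g, hfg.symm⟩
      have h4 : mu ∣ f := by
        rcases (prime_lin hm1 m0).dvd_or_dvd h3 with h5 | h5
        · exfalso
          obtain ⟨c, hc⟩ := dvd_lin hm1 hl1 m0 h5
          have hc0 : c ≠ 0 := by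
            rintro rfl
            exact l0 (by rw [hc, map_zero, zero_mul])
          apply h.nm
          refine ⟨C c⁻¹, ?_⟩
          rw [hc, mul_comm (C c) mu, mul_assoc, ← map_mul, mul_inv_cancel₀ hc0, map_one, mul_one]
        · exact h5
      obtain ⟨k, hk, rfl⟩ := exists_quot (a := 1) (b := 4) hm1 m0 hf h4
      rw [← mul_assoc]
      exact mul_mem_mulS hk
    · intro w hw
      obtain ⟨f, hf, rfl⟩ := mem_mulS.1 hw
      refine mem_inf.2 ⟨?_, ?_⟩
      · rw [mul_assoc]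
        exact mul_mem_mulS (mul_mem_H (a := 1) (b := 4) hm1 hf)
      · rw [mul_comm lam mu, mul_assoc]
        exact mul_mem_mulS (mul_mem_H (a := 1) (b := 4) hl1 hf)
  have f1 : Module.Finite K ↥(mulS lam (H K 5)) := Module.Finite.map _ _
  have f2 : Module.Finite K ↥(mulS mu (H K 5)) := Module.Finite.map _ _
  have h1 := Submodule.finrank_sup_add_finrank_inf_eq (mulS lam (H K 5)) (mulS mu (H K 5))
  rw [e2, finrank_mulS lm0, finrank_mulS l0, finrank_mulS m0, finrank_H4, finrank_H5] at h1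
  rw [e1]
  omega

theorem TC.x1 (h : TC t p lam lam' mu del del2 a b m) (hN : lam * mu ∉ N K) (h5 : V K t 5 = dv mu) :
    ∃ r : Fin 9, [(3 : Fin 9), 4, a, b, m, r].Nodup ∧ out K t (V K t 5) = {a, b, m, r} ∧
      (∀ i ∈ out K t (dv mu), Adj K t 5 i) ∧
      Adj K t a a ∧ Adj K t b b ∧ Adj K t r r ∧ ¬ Adj K t m m ∧ ¬ Adj K t m r ∧
      Adj K t a b ∧ Adj K t a m ∧ Adj K t b m ∧
      ((5 = a ∧ Adj K t a r ∧ ¬ Adj K t b r) ∨ (5 = b ∧ Adj K t b r ∧ ¬ Adj K t a r)) := by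
  classical
  have tv := h.tv
  have tb := tv.tb
  have hT := tb.h
  have fl := hT.fl
  have hm1 := hT.t2.hm
  have m0 := hT.t2.m0
  have hU : dv lam ⊔ V K t 5 ≤ cubics K := sup_le hT.dv_le (fl.V_le 5)
  have hL : LL K t (dv lam ⊔ V K t 5) := fl.llSupV hT.dv_le hT.ll_dv 5
  have hdim : finrank K ↥(dv lam ⊔ V K t 5) = 8 := by
    rw [h5]
    exact tb.dim_sup.2 hN
  have hcard : (out K t (dv lam ⊔ V K t 5)).card = 1 := by
    have := fl.cl1 hU hL
    omega
  obtain ⟨r, hr⟩ := Finset.card_eq_one.1 hcard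
  have hmem : ∀ i : Fin 9, (i ∈ out K t (dv lam) ∧ 5 ≤ (i : ℕ)) ↔ i = r := fun i => by
    rw [← fl.out_sup_V, hr, Finset.mem_singleton]
  obtain ⟨hrD, hr5⟩ := (hmem r).2 rfl
  have hrn : r ∉ inn K t (dv lam) := notMem_inn.2 hrD
  rw [tv.iD] at hrn
  simp only [Finset.mem_insert, Finset.mem_singleton, not_or] at hrn
  obtain ⟨-, -, hra, hrb, hrm⟩ := hrn
  -- `out (V 5)`
  have c5 : (out K t (V K t 5)).card = 4 := by
    have h1 := fl.cl1 (fl.V_le 5) (fl.llV 5)
    rw [h5, dv, finrank_mulS m0, finrank_KK hm1 m0, ← dv, ← h5] at h1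
    omega
  have hr5' : r ∈ out K t (V K t 5) := (fl.mem_out_V 5 r).2 hr5
  have habm : ({a, b, m} : Finset (Fin 9)).card = 3 := by
    rw [Finset.card_insert_of_notMem, Finset.card_insert_of_notMem, Finset.card_singleton]
    · simpa using tv.bm
    · simp only [Finset.mem_insert, Finset.mem_singleton, not_or]
      exact ⟨tv.ab, tv.am⟩
  have hsub : (out K t (V K t 5)).erase r ⊆ {a, b, m} := by
    intro i hi
    obtain ⟨hir, hi5⟩ := Finset.mem_erase.1 hi
    rw [fl.mem_out_V] at hi5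
    have h1 : i ∈ inn K t (dv lam) := by
      by_contra hcon
      exact hir ((hmem i).1 ⟨notMem_inn.1 hcon, hi5⟩)
    rw [tv.iD] at h1
    simp only [Finset.mem_insert, Finset.mem_singleton] at h1 ⊢
    rcases h1 with h1 | h1 | h1
    · subst h1; simp at hi5
    · subst h1; simp at hi5
    · exact h1
  have hE : (out K t (V K t 5)).erase r = {a, b, m} := by
    apply Finset.eq_of_subset_of_card_le hsub
    rw [habm, Finset.card_erase_of_mem hr5', c5]
  have hO : out K t (V K t 5) = {a, b, m, r} := by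
    rw [← Finset.insert_erase hr5', hE]
    ext i
    simp only [Finset.mem_insert, Finset.mem_singleton]
    tauto
  have ha5 : 5 ≤ (a : ℕ) := by
    rw [← fl.mem_out_V, hO]; simp
  have hb5 : 5 ≤ (b : ℕ) := by
    rw [← fl.mem_out_V, hO]; simp
  have hm5 : 5 ≤ (m : ℕ) := by
    rw [← fl.mem_out_V, hO]; simp
  have hne : ∀ i : Fin 9, 5 ≤ (i : ℕ) → 3 ≠ i ∧ 4 ≠ i := by
    intro i hi
    constructor
    · rintro rfl
      simp at hi
    · rintro rfl
      simp at hi
  -- `r` is a loop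
  have hrr : Adj K t r r := by
    have h1 := fl.cl2 hU hL
    rw [hr, h5, X1_dim tb] at h1
    have h2 : cl K t 2 ({r} : Finset (Fin 9)) =
        cl K t 1 (nb K t r {r}) + cl K t 2 (({r} : Finset (Fin 9)).erase r) :=
      cl_erase 1 (Finset.mem_singleton_self r)
    rw [Finset.erase_singleton, cl_empty, cl_one] at h2
    have h3 : 0 < (nb K t r {r}).card := by omega
    obtain ⟨u, hu⟩ := Finset.card_pos.1 h3
    obtain ⟨h4, h6⟩ := mem_nb.1 hu
    rw [Finset.mem_singleton] at h4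
    rwa [h4] at h6
  -- `5` is adjacent to everything
  have hmt : ¬ mu ∣ t 5 := by
    intro hd
    have h1 : t 5 ∈ V K t 5 := by
      rw [h5, mem_dv hm1 m0]
      exact ⟨fl.mem 5, hd⟩
    exact t_notMem fl.li 5 h1
  have hA5 : A K t 5 = V K t 5 := by
    apply le_antisymm
    · have h1 := tb.A_le (j := 5) (h5.le) hmt
      rwa [← h5] at h1
    · exact V_le_A 5
  have hadj : ∀ i ∈ out K t (V K t 5), Adj K t 5 i := by
    intro i hi
    have h1 : i ∈ out K t (A K t 5) := by rw [hA5]; exact hi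
    rw [fl.outA 5] at h1
    exact (mem_nb.1 h1).2
  -- `m` is isolated
  have hiA : ∀ i ∈ out K t (A K t 1), ¬ Adj K t m i := by
    intro i hi hcon
    have h1 : i ∈ nb K t m (out K t (A K t 1)) := mem_nb.2 ⟨hi, hcon⟩
    rw [tv.mi] at h1
    exact absurd h1 (Finset.notMem_empty _)
  have hrA : r ∈ out K t (A K t 1) := out_mono hT.A1_le_dv hrD
  have hmA : m ∈ out K t (A K t 1) := by
    rw [← notMem_inn, tv.iA]
    simp only [Finset.mem_insert, Finset.mem_singleton, not_or]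
    refine ⟨?_, ?_, tv.am.symm, tv.bm.symm⟩
    · rintro rfl; simp at hm5
    · rintro rfl; simp at hm5
  have hmm : ¬ Adj K t m m := hiA m hmA
  have hmr : ¬ Adj K t m r := hiA r hrA
  have a5 : Adj K t 5 5 := hadj 5 ((fl.mem_out_V 5 5).2 (by simp))
  have a5m : Adj K t 5 m := hadj m (by rw [hO]; simp)
  have a5r : Adj K t 5 r := hadj r (by rw [hO]; simp)
  have a5a : Adj K t 5 a := hadj a (by rw [hO]; simp)
  have a5b : Adj K t 5 b := hadj b (by rw [hO]; simp)
  have h5m : (5 : Fin 9) ≠ m := fun e => hmm (e ▸ a5m)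
  have h5r : (5 : Fin 9) ≠ r := by
    intro e
    apply hmr
    rw [← e]
    exact adj_symm a5m
  have h55 : (5 : Fin 9) ∈ out K t (V K t 5) := (fl.mem_out_V 5 5).2 (by simp)
  have nball : nb K t 5 (out K t (V K t 5)) = out K t (V K t 5) := by
    ext i
    rw [mem_nb]
    exact ⟨fun h1 => h1.1, fun h1 => ⟨h1, hadj i h1⟩⟩
  have c52 : cl K t 2 (out K t (V K t 5)) = 7 := by
    have h1 := fl.cl2 (fl.V_le 5) (fl.llV 5)
    rw [h5, dv, mulS_mul, KK_mul hm1 m0, finrank_mulS m0, finrank_H5, ← dv, ← h5] at h1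
    omega
  have c53 : cl K t 3 (out K t (V K t 5)) = 10 := by
    have h1 := fl.cl3 (fl.V_le 5) (fl.llV 5)
    rw [h5, dv, mulS_mul, KK_mul6 hm1 m0, finrank_mulS m0, finrank_H8, ← dv, ← h5] at h1
    omega
  have e2 : cl K t 2 ((out K t (V K t 5)).erase 5) = 3 := by
    have h1 : cl K t 2 _ = cl K t 1 _ + cl K t 2 _ := cl_erase (K := K) (t := t) 1 h55
    rw [nball, cl_one, c5, c52] at h1
    omega
  have e3 : cl K t 3 ((out K t (V K t 5)).erase 5) = 3 := by
    have h1 : cl K t 3 _ = cl K t 2 _ + cl K t 3 _ := cl_erase (K := K) (t := t) 2 h55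
    rw [nball, c52, c53] at h1
    omega
  have hnodup : [(3 : Fin 9), 4, a, b, m, r].Nodup := by
    obtain ⟨x1, x2⟩ := hne a ha5
    obtain ⟨x3, x4⟩ := hne b hb5
    obtain ⟨x5, x6⟩ := hne m hm5
    obtain ⟨x7, x8⟩ := hne r hr5
    have x9 := tv.ab
    have x10 := tv.am
    have x11 := tv.bm
    have x12 := Ne.symm hra
    have x13 := Ne.symm hrb
    have x14 := Ne.symm hrm
    simp [x1, x2, x3, x4, x5, x6, x7, x8, x9, x10, x11, x12, x13, x14]
  have h5ab : (5 : Fin 9) = a ∨ (5 : Fin 9) = b := by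
    have h1 := h55
    rw [hO] at h1
    simp only [Finset.mem_insert, Finset.mem_singleton] at h1
    rcases h1 with h1 | h1 | h1 | h1
    · exact Or.inl h1
    · exact Or.inr h1
    · exact absurd h1 h5m
    · exact absurd h1 h5r
  refine ⟨r, hnodup, hO, by rw [← h5]; exact hadj, ?_⟩
  rcases h5ab with e | e
  · have hE2 : (out K t (V K t 5)).erase 5 = {b, m, r} := by
      rw [hO, e]
      ext i
      simp only [Finset.mem_erase, Finset.mem_insert, Finset.mem_singleton]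
      constructor
      · rintro ⟨h1, h2 | h2⟩
        · exact absurd h2 h1
        · exact h2
      · rintro (rfl | rfl | rfl)
        · exact ⟨tv.ab.symm, by simp⟩
        · exact ⟨tv.am.symm, by simp⟩
        · exact ⟨hra, by simp⟩
    obtain ⟨g1, g2, g3⟩ := gr_tri hE2 tv.bm (Ne.symm hrb) (Ne.symm hrm) e2 e3 hrr hmm hmr
    rw [e] at a5 a5m a5r a5b
    exact ⟨a5, g1, hrr, hmm, hmr, a5b, a5m, g2, Or.inl ⟨e, a5r, g3⟩⟩
  · have hE2 : (out K t (V K t 5)).erase 5 = {a, m, r} := by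
      rw [hO, e]
      ext i
      simp only [Finset.mem_erase, Finset.mem_insert, Finset.mem_singleton]
      constructor
      · rintro ⟨h1, h2 | h2 | h2⟩
        · exact Or.inl h2
        · exact absurd h2 h1
        · exact Or.inr h2
      · rintro (rfl | rfl | rfl)
        · exact ⟨tv.ab, by simp⟩
        · exact ⟨tv.bm.symm, by simp⟩
        · exact ⟨hrb, by simp⟩
    obtain ⟨g1, g2, g3⟩ := gr_tri hE2 tv.am (Ne.symm hra) (Ne.symm hrm) e2 e3 hrr hmm hmr
    rw [e] at a5 a5m a5r a5a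
    exact ⟨g1, a5, hrr, hmm, hmr, adj_symm a5a, g2, a5m, Or.inr ⟨e, a5r, g3⟩⟩

/-- `r` is the first coordinate not vanishing at `p` if `mu (p) = 0` -/
theorem TC.x1c (h : TC t p lam lam' mu del del2 a b m) (h5 : V K t 5 = dv mu) (hmu : eval p mu = 0)
    {r : Fin 9} (ho : out K t (V K t 5) = {a, b, m, r}) {c : Fin 9} (hc : IsC t p c) : c = r := by
  have tv := h.tv
  have hT := tv.tb.h
  have fl := hT.fl
  have h1 : c ∈ out K t (V K t 5) := by
    refine fl.isC_out hc ?_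
    rw [h5]
    intro u hu
    obtain ⟨κ, _, rfl⟩ := mem_mulS.1 hu
    rw [map_mul, hmu, zero_mul]
  have h2 : c ∈ out K t (dv lam) := fl.isC_out hc hT.dv_eval
  rw [← notMem_inn, tv.iD] at h2
  simp only [Finset.mem_insert, Finset.mem_singleton, not_or] at h2
  obtain ⟨-, -, n1, n2, n3⟩ := h2
  rw [ho] at h1
  simp only [Finset.mem_insert, Finset.mem_singleton] at h1
  rcases h1 with h1 | h1 | h1 | h1
  · exact absurd h1 n1
  · exact absurd h1 n2
  · exact absurd h1 n3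
  · exact h1

end Pool.Agent.BR
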