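import Pool.Agent.Work.MP_be705b_al.II.TDefs
import Pool.Agent.Work.MP_be705b_al.II.TB1
import Pool.Agent.Work.MP_be705b_al.II.TB2
import Pool.Agent.Work.MP_be705b_al.II.B1
import Pool.Agent.Work.MP_be705b_al.II.B2
import Pool.Agent.Work.MP_be705b_al.II.B3

set_option autoImplicit false
set_option linter.unusedSectionVars false
set_option linter.unusedVariables false

/-!
# MP_be705b_al, type II, case 1b, module X3 (M): the last step for `p = pa`, `mu (pa) = 0`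

`Ph_pa_dec`: `lam, mu` are independent linear forms in `X 0, X 1`, so `X 0, X 1 ∈ span {lam, mu}`.  `Ph pa = span {X 0 ^ 2, X 1 ^ 2, X 0 * X 1}` (`Fp pa = N ⊔ span {X 0 X 1}`, value at `pa` = coefficient of `X 2 ^ 2`).  So `φ` is
a quadratic form in `lam, mu`: `φ = α lam^2 + mu s`.
`x5`: `5 = a ∈ inn (mulS lam (Ph pa))` (`iPh`): there is `lam φ`, `φ ∈ Ph pa`, with `IsIn (lam φ) 5` (`Fl.exists_isIn`), so `lam φ ∈ V 6`, `lam φ ∉ V 5 = dv mu`, `mu ∤ φ`.  `φ = C α lam^2 + mu s`, `α ≠ 0`.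
`b ∈ inn (dv lam)`: `u = lam κ` with `IsIn u b`, `κ ∈ KK lam`.  `u^3 = lam^3 κ^3 = α⁻¹ (lam φ) κ^3 - α⁻¹ mu (lam s κ^3)`; `(lam φ) κ^3 ∈ V 6 * H 6`, `mu (lam s κ^3) ∈ mulS mu (H 8) = dv mu * H 6 ≤ V 6 * H 6` (`KK_mul6`).
`b ∈ out (V 6)` (`b ≥ 6`).  `Fl.g2_cube` with `U = V 6 ∈ LL`: `b` is no loop.
-/

namespace Pool.Agent.BR

open Submodule Module MvPolynomial

variable {K : Type*} [Field K]

variable {t : Fin 9 → Pol K} {lam lam' mu del del2 : Pol K} {a b m : Fin 9}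

private theorem quad_pa {φ : Pol K} (hφ : φ ∈ Ph (K := K) pa) :
    ∃ c0 c1 d : K, φ = C c0 * (X 0 * X 0) + C c1 * (X 1 * X 1) + C d * (X 0 * X 1) := by
  have h1 := (mem_inf.1 hφ).1
  have h2 := Ph_eval hφ
  rw [Fp] at h1
  obtain ⟨n, hn, y, hy, rfl⟩ := mem_sup.1 h1
  obtain ⟨d, rfl⟩ := mem_span_singleton.1 hy
  rw [N] at hn
  obtain ⟨c0, c1, c2, rfl⟩ := mem_span_triple.1 hn
  have e2 : c2 = 0 := by
    simpa [smul_eq_C_mul, pa, cr] using h2
  refine ⟨c0, c1, d, ?_⟩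
  rw [e2]
  simp only [smul_eq_C_mul, pa, cr, Matrix.cons_val_zero, Matrix.cons_val_one, Matrix.cons_val,
    map_zero, map_one]
  ring

private theorem lin_pa {l : Pol K} (hl : l ∈ H K 1) (hp : eval pa l = 0) :
    ∃ u0 u1 : K, l = C u0 * X 0 + C u1 * X 1 := by
  refine ⟨lc l 0, lc l 1, ?_⟩
  have h1 : lc l 2 = 0 := by
    rw [← lin_lc hl, eval_lin] at hp
    simpa [dot, pa] using hp
  conv_lhs => rw [← lin_lc hl]
  rw [lin, h1, map_zero]
  ring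

theorem Ph_pa_dec {φ : Pol K} (hl : lam ∈ H K 1) (hm : mu ∈ H K 1) (lp : eval pa lam = 0) (mp : eval pa mu = 0)
    (hlm : ¬ lam ∣ mu) (l0 : lam ≠ 0) (hφ : φ ∈ Ph (K := K) pa) :
    ∃ α : K, ∃ s ∈ H K 1, φ = C α * (lam * lam) + mu * s := by
  obtain ⟨c0, c1, d, rfl⟩ := quad_pa hφ
  obtain ⟨u0, u1, hu⟩ := lin_pa hl lp
  obtain ⟨v0, v1, hv⟩ := lin_pa hm mp
  have hD : u0 * v1 - u1 * v0 ≠ 0 := by
    intro hD
    apply hlm
    have hu01 : u0 ≠ 0 ∨ u1 ≠ 0 := by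
      by_contra hcon
      push Not at hcon
      apply l0
      rw [hu, hcon.1, hcon.2]
      simp
    rcases hu01 with h0 | h0
    · refine ⟨C (v0 / u0), ?_⟩
      rw [hu, hv]
      have e1 : v1 = u1 * (v0 / u0) := by
        field_simp
        linear_combination hD
      have e0 : v0 = u0 * (v0 / u0) := by field_simp
      conv_lhs => rw [e1, e0]
      simp only [map_mul]
      rw [← e0]
      ring
    · refine ⟨C (v1 / u1), ?_⟩
      rw [hu, hv]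
      have e1 : v0 = u0 * (v1 / u1) := by
        field_simp
        linear_combination -hD
      have e0 : v1 = u1 * (v1 / u1) := by field_simp
      conv_lhs => rw [e1, e0]
      simp only [map_mul]
      rw [← e0]
      ring
  obtain ⟨e, he⟩ : ∃ e : K, e * (u0 * v1 - u1 * v0) = 1 := ⟨(u0 * v1 - u1 * v0)⁻¹, inv_mul_cancel₀ hD⟩
  have he' : (C e : Pol K) * (C u0 * C v1 - C u1 * C v0) = 1 := by
    rw [← map_mul, ← map_mul, ← map_sub, ← map_mul, he, map_one]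
  have hX0 : (X 0 : Pol K) = C e * (C v1 * lam - C u1 * mu) := by
    rw [hu, hv]
    linear_combination -(X 0 : Pol K) * he'
  have hX1 : (X 1 : Pol K) = C e * (C u0 * mu - C v0 * lam) := by
    rw [hu, hv]
    linear_combination -(X 1 : Pol K) * he'
  refine ⟨e * e * (c0 * v1 * v1 + c1 * v0 * v0 - d * v0 * v1),
    C (e * e * (-(2 * c0 * u1 * v1) - 2 * c1 * u0 * v0 + d * (v1 * u0 + u1 * v0))) * lam +
    C (e * e * (c0 * u1 * u1 + c1 * u0 * u0 - d * u0 * u1)) * mu, ?_, ?_⟩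
  · rw [← smul_eq_C_mul, ← smul_eq_C_mul]
    exact add_mem (smul_mem _ _ hl) (smul_mem _ _ hm)
  · rw [hX0, hX1]
    simp only [map_mul, map_add, map_sub, map_neg, map_ofNat]
    ring

theorem TC.x5 (h : TC t pa lam lam' mu del del2 a b m) (hmu : eval pa mu = 0) (h5 : V K t 5 = dv mu)
    (ha : 5 = a) (hb : 6 ≤ (b : ℕ)) : ¬ Adj K t b b := by
  have hT := h.tv.tb.h
  have fl := hT.fl
  have hl : lam ∈ H K 1 := hT.t2.ha
  have hm : mu ∈ H K 1 := hT.t2.hm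
  have l0 : lam ≠ 0 := hT.L0
  have m0 : mu ≠ 0 := hT.t2.m0
  have i5 : (5 : Fin 9) ∈ inn K t (mulS lam (Ph pa)) := by
    rw [h.tv.iPh, ← ha]
    simp
  obtain ⟨u, hu, hui⟩ := fl.exists_isIn i5
  obtain ⟨φ, hφ, rfl⟩ := mem_mulS.1 hu
  obtain ⟨α, s, hs, hdec⟩ := Ph_pa_dec hl hm hT.lp hmu h.tv.tb.nm l0 hφ
  have hu6 : lam * φ ∈ V K t 6 := hui.1
  have hu5 : lam * φ ∉ V K t 5 := hui.2
  have hα : α ≠ 0 := by
    rintro rfl
    apply hu5
    rw [h5, mem_dv hm m0]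
    refine ⟨fl.V_le 6 hu6, ?_⟩
    rw [hdec, map_zero, zero_mul, zero_add]
    exact ⟨lam * s, by ring⟩
  have ib : b ∈ inn K t (dv lam) := by
    rw [h.tv.iD]
    simp
  obtain ⟨w, hw, hwi⟩ := fl.exists_isIn ib
  obtain ⟨κ, hκ, rfl⟩ := mem_mulS.1 hw
  have hκ2 : κ ∈ H K 2 := KK_le _ hκ
  have hκ3 : κ * κ * κ ∈ H K 6 := mul_mem_H (mul_mem_H hκ2 hκ2) hκ2
  refine fl.g2_cube (fl.V_le 6) (fl.llV 6) hwi ?_ ?_
  · rw [fl.mem_out_V]
    exact hb
  · have e1 : lam * φ * (κ * κ * κ) ∈ V K t 6 * H K 6 := mul_mem_mul hu6 hκ3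
    have e2 : mu * (lam * s * (κ * κ * κ)) ∈ V K t 6 * H K 6 := by
      have e3 : mulS mu (H K 8) ≤ V K t 6 * H K 6 := by
        rw [← KK_mul6 hm m0, ← mulS_mul]
        have e4 : mulS mu (KK mu) ≤ V K t 6 := by
          have e5 : V K t 5 ≤ V K t 6 := V_mono (by norm_num)
          rw [h5] at e5
          exact e5
        exact mul_le_mul' e4 le_rfl
      exact e3 (mul_mem_mulS (mul_mem_H (a := 2) (b := 6) (mul_mem_H hl hs) hκ3))
    have e6 : lam * κ * (lam * κ) * (lam * κ) =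
        α⁻¹ • (lam * φ * (κ * κ * κ) - mu * (lam * s * (κ * κ * κ))) := by
      have e7 : (C α⁻¹ : Pol K) * C α = 1 := by rw [← map_mul, inv_mul_cancel₀ hα, map_one]
      rw [smul_eq_C_mul, hdec]
      linear_combination -(lam * lam * lam * κ * κ * κ) * e7
    rw [e6]
    exact smul_mem _ _ (sub_mem e1 e2)

end Pool.Agent.BR
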