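import Pool.Agent.Work.MP_be705b_al.II.X0
import Pool.Agent.Work.MP_be705b_al.II.X1
import Pool.Agent.Work.MP_be705b_al.II.X3

set_option autoImplicit false
set_option linter.unusedSectionVars false
set_option linter.unusedVariables false

/-!
# MP_be705b_al, type II, case 1b, module X4 (M): 3.3 for beta1

`del2 (p) = 0`.  `TC.x1` gives `r`, names and edges.  `3 ∈ inn (mulS mu (Ps p mu))` (`t 3 = mu * del2`, `del2 ∈ Ps p mu`), so `¬ Adj a 3`, `¬ Adj b 3` (`nPs`).  `4 ∈ inn (dv mu)` (`t 4 ∈ V 5 = dv mu`), so `¬ Adj a 4` (`nD`).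
`out (V 3) = {3, 4, a, b, m, r}` (`mem_out_V`), `cl 2 = 10`, `cl 3 = 13` (`TB.out_V3`); `out (V 3 ⊔ A 1) = {3, 4, m, r}`, `cl 2 = cl 3 = 3` (`TB.out_V3A1`, `iA`).  `m` has no neighbour in `out (A 1) ∋ 3, 4, r` (`mi`).
`gx_six` (`x = 3`, `y = 4`): `4 ~ b`, `4` no loop, not (`4 ~ r` and `b ~ r`).
`V 4 = mulS mu (Ps p mu)` (`≤`: `V3_le_Ps` and `t 3`; dimensions 4, `finrank_Ps`).  `t 4 ∈ V 5 = dv mu`, `t 4 = mu κ`, `κ ∈ KK mu`, `κ ∉ Ps p mu` (else `t 4 ∈ V 4`), so `κ (p) ≠ 0`.  All of `V 4` vanishes at `p`; `t 4 (p) ≠ 0` would make `4` a loop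
(`Fl.loop_of_eval`); so `mu (p) κ (p) = 0`, `mu (p) = 0`, `p = pa` (`hpa`; `subst`).
Let `IsC t p c` (`Fl.exists_isC`): `c = r` (`TC.x1c`).  `A 4` vanishes at `p`: `w mu κ ∈ V 4 * cubics = mulS mu (Ps * cubics)`, so `w κ ∈ Ps * cubics` vanishes at `p`, `w (p) = 0`.  So `r ∈ out (A 4) = nb 4 (out (V 4))`: `4 ~ r`.  So `b ≁ r`, so
`5 = a` (third line of `TC.x1`).  `TC.x5` (`b ≥ 6`: `b ∈ out (V 5)`, `b ≠ 5`): `b` is no loop, contradiction.
-/

namespace Pool.Agent.BR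

open Submodule Module MvPolynomial

variable {K : Type*} [Field K]

variable {t : Fin 9 → Pol K} {p : Fin 3 → K} {lam lam' mu del del2 : Pol K} {a b m : Fin 9}

theorem TC.end_beta1 (h : TC t p lam lam' mu del del2 a b m) (hpa : eval p mu = 0 → p = pa)
    (h0 : eval p del2 = 0) (hN : lam * mu ∉ N K) (h5 : V K t 5 = dv mu) : False := by
  have fl := h.tv.tb.fl
  have hp0 : p ≠ 0 := h.tv.tb.h.p0
  have hmu : mu ∈ H K 1 := h.tv.tb.h.t2.hm
  have hmu0 : mu ≠ 0 := h.tv.tb.h.t2.m0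
  obtain ⟨r, hnd, hout, h5a, haa, hbb, hrr, hmm, hmr, hab, ham, hbm, hor⟩ := h.x1 hN h5
  have hnd' := hnd
  simp only [List.nodup_cons, List.mem_cons, List.not_mem_nil, or_false, not_or, List.nodup_nil,
    not_false_eq_true, and_true] at hnd'
  obtain ⟨⟨n34, n3a, n3b, n3m, n3r⟩, ⟨n4a, n4b, n4m, n4r⟩, ⟨nab, nam, nar⟩, ⟨nbm, nbr⟩, nmr⟩ := hnd'
  have hdel2 : del2 ∈ Ps p mu := ⟨h.hd2, mem_IP.2 ⟨KK_le mu h.hd2, h0⟩⟩
  have ht3 : t 3 ∈ mulS mu (Ps p mu) := by
    rw [h.t3]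
    exact mul_mem_mulS hdel2
  have h3 := h.tv.nPs 3 (inn_of_t_mem ht3) (by decide)
  have ht4 : t 4 ∈ dv mu := by
    rw [← h5]
    exact t_mem (by decide)
  have h4 := h.tv.nD 4 (inn_of_t_mem ht4) (by decide)
  have hge5 : ∀ i : Fin 9, 5 ≤ (i : ℕ) ↔ (i = a ∨ i = b ∨ i = m ∨ i = r) := by
    intro i
    rw [← fl.mem_out_V 5 i, hout]
    simp
  have hge3 : ∀ i : Fin 9, 3 ≤ (i : ℕ) ↔ (i = 3 ∨ i = 4 ∨ i = a ∨ i = b ∨ i = m ∨ i = r) := by
    intro i
    rw [← hge5 i]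
    constructor
    · intro hi
      have h1 : (i : ℕ) = 3 ∨ (i : ℕ) = 4 ∨ 5 ≤ (i : ℕ) := by omega
      rcases h1 with h1 | h1 | h1
      · exact Or.inl (Fin.ext h1)
      · exact Or.inr (Or.inl (Fin.ext h1))
      · exact Or.inr (Or.inr h1)
    · rintro (rfl | rfl | h1)
      · decide
      · decide
      · omega
  have e1 : out K t (V K t 3) = {3, 4, a, b, m, r} := by
    ext i
    rw [fl.mem_out_V, hge3]
    simp
  have e2 : out K t (V K t 3 ⊔ A K t 1) = {3, 4, m, r} := by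
    rw [h.tv.tb.out_V3A1.1]
    ext i
    rw [Finset.mem_erase, ← notMem_inn, h.tv.iA]
    simp only [Finset.mem_insert, Finset.mem_singleton, not_or]
    constructor
    · rintro ⟨i2, i0, i1, ia, ib⟩
      have hi : 3 ≤ (i : ℕ) := by
        have a0 : (i : ℕ) ≠ 0 := fun h => i0 (Fin.ext h)
        have a1 : (i : ℕ) ≠ 1 := fun h => i1 (Fin.ext h)
        have a2 : (i : ℕ) ≠ 2 := fun h => i2 (Fin.ext h)
        omega
      have := (hge3 i).1 hi
      tauto
    · intro hi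
      have hi3 : 3 ≤ (i : ℕ) := (hge3 i).2 (by tauto)
      refine ⟨?_, ?_, ?_, ?_, ?_⟩
      · rintro rfl
        exact absurd hi3 (by decide)
      · rintro rfl
        exact absurd hi3 (by decide)
      · rintro rfl
        exact absurd hi3 (by decide)
      · rintro rfl
        rcases hi with h' | h' | h' | h'
        · exact n3a h'.symm
        · exact n4a h'.symm
        · exact nam h'
        · exact nar h'
      · rintro rfl
        rcases hi with h' | h' | h' | h'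
        · exact n3b h'.symm
        · exact n4b h'.symm
        · exact nbm h'
        · exact nbr h'
  have hmi : ∀ i : Fin 9, 3 ≤ (i : ℕ) → i ≠ a → i ≠ b → ¬ Adj K t m i := by
    intro i hi ia ib hadj
    have h1 : i ∈ nb K t m (out K t (A K t 1)) := by
      rw [mem_nb]
      refine ⟨?_, hadj⟩
      rw [← notMem_inn, h.tv.iA]
      simp only [Finset.mem_insert, Finset.mem_singleton, not_or]
      refine ⟨?_, ?_, ia, ib⟩
      · rintro rfl
        exact absurd hi (by decide)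
      · rintro rfl
        exact absurd hi (by decide)
    rw [h.tv.mi] at h1
    exact absurd h1 (Finset.notMem_empty _)
  have c1 := h.tv.tb.out_V3
  rw [e1] at c1
  have c2 := h.tv.tb.out_V3A1
  rw [e2] at c2
  obtain ⟨g1, g2, g3⟩ := gx_six hnd c1.2.1 c1.2.2.1 c2.2.2.1 c2.2.2.2.1 (fun h => h3.1 (adj_symm h))
    (fun h => h3.2 (adj_symm h)) (fun h => h4 (adj_symm h))
    (fun h => hmi 3 (by decide) n3a n3b (adj_symm h)) (fun h => hmi 4 (by decide) n4a n4b (adj_symm h))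
    hmm hmr hrr haa hbb hab ham hbm (by
      rcases hor with ⟨_, h1, h2⟩ | ⟨_, h1, h2⟩
      · exact Or.inl ⟨h1, h2⟩
      · exact Or.inr ⟨h2, h1⟩)
  -- `V 4 = mulS mu (Ps p mu)`
  have hV4le : V K t 4 ≤ mulS mu (Ps p mu) := by
    have h1 : V K t ((3 : Fin 9) : ℕ).succ = V K t ((3 : Fin 9) : ℕ) ⊔ span K {t 3} := V_succ 3
    have h2 : V K t 4 = V K t 3 ⊔ span K {t 3} := h1
    rw [h2]
    refine sup_le h.tv.tb.V3_le_Ps ?_
    rw [span_le, Set.singleton_subset_iff]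
    exact ht3
  have hfin : finrank K ↥(V K t 4) = 4 := by
    have h1 := fl.cl1 (fl.V_le 4) (fl.llV 4)
    have h2 : (out K t (V K t 4)).card = 5 := by
      have h3 : out K t (V K t 4) = {4, 5, 6, 7, 8} := by
        ext i
        rw [fl.mem_out_V]
        fin_cases i <;> decide
      rw [h3]
      decide
    omega
  have hV4 : V K t 4 = mulS mu (Ps p mu) := by
    have hfd : FiniteDimensional K ↥(mulS mu (Ps p mu)) := by
      apply Module.finite_of_finrank_pos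
      rw [finrank_mulS hmu0, finrank_Ps hp0 hmu hmu0]
      norm_num
    apply Submodule.eq_of_le_of_finrank_eq hV4le
    rw [hfin, finrank_mulS hmu0, finrank_Ps hp0 hmu hmu0]
  obtain ⟨κ, hκ, hκ4⟩ := mem_mulS.1 (show t 4 ∈ mulS mu (KK mu) from ht4)
  have hκPs : κ ∉ Ps p mu := by
    intro h1
    apply t_notMem fl.li (4 : Fin 9)
    have h2 : t 4 ∈ V K t 4 := by
      rw [hV4, ← hκ4]
      exact mul_mem_mulS h1
    exact h2
  have hκp : eval p κ ≠ 0 := by
    intro h1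
    exact hκPs ⟨hκ, mem_IP.2 ⟨KK_le mu hκ, h1⟩⟩
  have hVev : ∀ v ∈ V K t 4, eval p v = 0 := by
    intro v hv
    rw [hV4] at hv
    obtain ⟨u, hu, rfl⟩ := mem_mulS.1 hv
    rw [map_mul, Ps_eval hu, mul_zero]
  have ht4p : eval p (t 4) = 0 := by
    by_contra hcon
    apply g2
    apply fl.loop_of_eval (r := p) ?_ hcon
    intro i hi
    exact hVev _ (t_mem (by
      have := Fin.lt_def.1 hi
      exact this))
  have hmup : eval p mu = 0 := by
    rw [← hκ4, map_mul] at ht4p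
    rcases mul_eq_zero.1 ht4p with h1 | h1
    · exact h1
    · exact absurd h1 hκp
  have hppa : p = pa := hpa hmup
  obtain ⟨c, hc⟩ := fl.exists_isC hp0
  have hcr : c = r := h.x1c h5 hmup hout hc
  subst hcr
  have hA4 : ∀ w ∈ A K t 4, eval p w = 0 := by
    intro w hw
    have h1 := (fl.mem_A.1 hw).2
    have h1' : w * t 4 ∈ V K t 4 * cubics K := h1
    rw [hV4, mulS_mul, ← hκ4] at h1'
    have h2 : mu * (w * κ) ∈ mulS mu (Ps p mu * cubics K) := by
      have h3 : mu * (w * κ) = w * (mu * κ) := by ring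
      rw [h3]
      exact h1'
    rw [mul_mem_mulS_iff hmu0] at h2
    have h4 := mul_eval (p := p) (fun u hu => Ps_eval hu) h2
    rw [map_mul] at h4
    rcases mul_eq_zero.1 h4 with h5 | h5
    · exact h5
    · exact absurd h5 hκp
  have h4c : Adj K t 4 c := by
    have h1 := fl.isC_out hc hA4
    rw [fl.outA, mem_nb] at h1
    exact h1.2
  have hbr : ¬ Adj K t b c := fun hbc => g3 ⟨h4c, hbc⟩
  rcases hor with ⟨h5', _, _⟩ | ⟨_, h6, _⟩
  · have hb5 : 5 ≤ (b : ℕ) := (hge5 b).2 (by tauto)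
    have hne : (b : ℕ) ≠ 5 := by
      intro hb
      have hb' : b = 5 := Fin.ext (by rw [hb]; rfl)
      exact h.tv.ab (by rw [← h5', hb'])
    subst hppa
    exact h.x5 hmup h5 h5' (by omega) hbb
  · exact hbr h6

end Pool.Agent.BR
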