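import Pool.Agent.Work.MP_be705b_al.II.A_rho
import Pool.Agent.Work.MP_be705b_al.II.X4
import Pool.Agent.Work.MP_be705b_al.II.C2v

set_option autoImplicit false
set_option linter.unusedSectionVars false
set_option linter.unusedVariables false

/-!
# MP_be705b_al, type II, case 1b, block A: `del2 (p) = 0` is impossible
-/

namespace Pool.Agent.BR

open Submodule Module MvPolynomial

variable {K : Type*} [Field K] {t : Fin 9 → Pol K} {p : Fin 3 → K} {lam lam' mu del del2 : Pol K}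
  {a b m : Fin 9}

namespace TC

private theorem ti (h : TC t p lam lam' mu del del2 a b m) : TII t p lam lam' mu := h.tv.tb.h

private theorem fl (h : TC t p lam lam' mu del del2 a b m) : Fl t := h.tv.tb.h.t2.fl

private theorem hlam (h : TC t p lam lam' mu del del2 a b m) : lam ∈ H K 1 := h.ti.t2.ha

private theorem hmu (h : TC t p lam lam' mu del del2 a b m) : mu ∈ H K 1 := h.ti.t2.hm

private theorem mu0 (h : TC t p lam lam' mu del del2 a b m) : mu ≠ 0 := h.ti.t2.m0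

private theorem nml (h : TC t p lam lam' mu del del2 a b m) : ¬ mu ∣ lam := by
  intro hd
  obtain ⟨c, hc⟩ := dvd_lin h.hmu h.hlam h.mu0 hd
  have hc0 : c ≠ 0 := by
    rintro rfl
    exact h.ti.L0 (by rw [hc, map_zero, zero_mul])
  apply h.tv.tb.nm
  refine ⟨C c⁻¹, ?_⟩
  rw [hc, mul_right_comm, ← map_mul, mul_inv_cancel₀ hc0, map_one, one_mul]

private theorem ge4 (h : TC t p lam lam' mu del del2 a b m) : 4 ≤ a ∧ 4 ≤ b ∧ 4 ≤ m := by
  have h3 := h.o3
  rw [← notMem_inn, h.tv.iD] at h3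
  simp only [Finset.mem_insert, Finset.mem_singleton, not_or] at h3
  have ha := h.tv.a3
  have hb := h.tv.b3
  have hm := h.tv.m3
  refine ⟨?_, ?_, ?_⟩
  · exact lt_of_le_of_ne ha h3.2.2.1
  · exact lt_of_le_of_ne hb h3.2.2.2.1
  · exact lt_of_le_of_ne hm h3.2.2.2.2

private theorem three : ((3 : Fin 9) : ℕ) = 3 := rfl
private theorem four : ((4 : Fin 9) : ℕ) = 4 := rfl

private theorem finV (j : ℕ) : Module.Finite K ↥(V K t j) := by
  rw [V]
  exact Module.Finite.span_of_finite K (Set.toFinite _)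

private theorem fV (h : TC t p lam lam' mu del del2 a b m) (j : ℕ) (hj : j ≤ 9) :
    finrank K ↥(V K t j) = j := by
  have h1 := h.fl.cl1 (h.fl.V_le j) (h.fl.llV j)
  have h2 : out K t (V K t j) = Finset.univ.filter fun i : Fin 9 => j ≤ (i : ℕ) := by
    ext i
    rw [h.fl.mem_out_V, Finset.mem_filter]
    simp
  rw [h2] at h1
  have h3 : ∀ j : ℕ, j ≤ 9 → (Finset.univ.filter fun i : Fin 9 => j ≤ (i : ℕ)).card = 9 - j := by
    intro j hj
    interval_cases j <;> decide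
  rw [h3 j hj] at h1
  omega

/-- `V 4 = mulS mu (Ps p mu)` -/
private theorem V4 (h : TC t p lam lam' mu del del2 a b m) (h0 : eval p del2 = 0) :
    V K t 4 = mulS mu (Ps p mu) := by
  have hd : del2 ∈ Ps p mu := ⟨h.hd2, mem_IP.2 ⟨KK_le _ h.hd2, h0⟩⟩
  have hle : V K t 4 ≤ mulS mu (Ps p mu) := by
    have e : V K t (((3 : Fin 9) : ℕ) + 1) = V K t ((3 : Fin 9) : ℕ) ⊔ span K {t 3} := V_succ 3
    have e' : V K t 4 = V K t 3 ⊔ span K {t 3} := e
    rw [e']
    refine sup_le h.tv.tb.V3_le_Ps ?_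
    rw [span_singleton_le_iff_mem, h.t3]
    exact mul_mem_mulS hd
  have : Module.Finite K ↥(Ps p mu) :=
    Submodule.finiteDimensional_of_le (inf_le_right.trans (IP_le p 2))
  have : Module.Finite K ↥(mulS mu (Ps p mu)) := Module.Finite.map _ _
  refine Submodule.eq_of_le_of_finrank_le hle ?_
  rw [finrank_mulS h.mu0, finrank_Ps h.ti.p0 h.hmu h.mu0, h.fV 4 (by norm_num)]

/-- `lam * mu ∉ N` -/
private theorem notN (h : TC t p lam lam' mu del del2 a b m) (h0 : eval p del2 = 0) :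
    lam * mu ∉ N K := by
  intro hN
  have hd : del2 ∈ Ps p mu := ⟨h.hd2, mem_IP.2 ⟨KK_le _ h.hd2, h0⟩⟩
  have hc : ∀ ν ∈ H K 1, lam * mu * ν ∈ cubics K := by
    intro ν hν
    rw [← N_mul_H1]
    exact mul_mem_mul hN hν
  have hle : mulS lam (H K 1) ⊔ span K {del} ≤ Ps p mu := by
    refine sup_le ?_ ?_
    · intro w hw
      obtain ⟨ν, hν, rfl⟩ := mem_mulS.1 hw
      refine ⟨(mem_KK' h.hmu).2 ⟨mul_mem_H h.hlam hν, ?_⟩, mem_IP.2 ⟨mul_mem_H h.hlam hν, ?_⟩⟩
      · have := hc ν hν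
        have e : mu * (lam * ν) = lam * mu * ν := by ring
        rw [e]; exact this
      · rw [map_mul, h.ti.lp, zero_mul]
    · rw [span_singleton_le_iff_mem]
      exact h.tv.tb.hd
  have hfin : Module.Finite K ↥(Ps p mu) :=
    Submodule.finiteDimensional_of_le (inf_le_right.trans (IP_le p 2))
  have hfin2 : Module.Finite K ↥(mulS lam (H K 1) ⊔ span K {del}) :=
    Submodule.finiteDimensional_of_le hle
  have h1 : finrank K ↥(mulS lam (H K 1)) = 3 := by rw [finrank_mulS h.ti.L0, finrank_H1]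
  have h2 : del ∉ mulS lam (H K 1) := by
    intro h3
    obtain ⟨u, _, hu⟩ := mem_mulS.1 h3
    exact h.tv.tb.nd ⟨u, hu.symm⟩
  have h3 : mulS lam (H K 1) < mulS lam (H K 1) ⊔ span K {del} := by
    refine lt_of_le_of_ne le_sup_left ?_
    intro h4
    apply h2
    rw [h4]
    exact mem_sup_right (mem_span_singleton_self _)
  have h4 := Submodule.finrank_lt_finrank_of_lt h3
  have heq : mulS lam (H K 1) ⊔ span K {del} = Ps p mu := by
    apply Submodule.eq_of_le_of_finrank_le hle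
    rw [finrank_Ps h.ti.p0 h.hmu h.mu0]
    omega
  rw [← heq] at hd
  obtain ⟨x, hx, y, hy, hxy⟩ := mem_sup.1 hd
  obtain ⟨ν, hν, rfl⟩ := mem_mulS.1 hx
  obtain ⟨c, rfl⟩ := mem_span_singleton.1 hy
  have h5 : -(c • t 2) ∈ V K t ((3 : Fin 9) : ℕ) := neg_mem (smul_mem _ _ (t_mem (by decide)))
  refine (mem_out.1 h.o3) _ h5 ?_
  rw [mem_dv h.hlam h.ti.L0]
  have e : t 3 + -(c • t 2) = lam * mu * ν := by
    rw [h.t3, ← hxy, h.tv.tb.t2, mul_add, mul_smul_comm]
    ring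
  rw [e]
  exact ⟨hc ν hν, ⟨mu * ν, by ring⟩⟩

private theorem lam_v (h : TC t p lam lam' mu del del2 a b m) (h0 : eval p del2 = 0)
    {rho ζ : Pol K} {v : Fin 3 → K} (z : RZ p mu rho ζ v) : eval v lam ≠ 0 := by
  intro hv
  apply h.notN h0
  have h1 : rs p v lam = 0 := by
    rw [rs_linform p v h.hlam, h.ti.lp, hv]
    simp
  have h2 := (rs_eq_zero z.pv z.hr z.r1 z.r0 z.rv h.hlam).1 h1
  obtain ⟨c, hc⟩ := dvd_lin z.hr h.hlam z.r1 h2
  have e : lam * mu = c • (mu * rho) := by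
    rw [hc, smul_eq_C_mul]
    ring
  rw [e]
  exact smul_mem _ _ z.hN

/-- restriction of multiples of `lam` -/
private theorem lam_ps (h : TC t p lam lam' mu del del2 a b m) (h0 : eval p del2 = 0)
    {rho ζ : Pol K} {v : Fin 3 → K} (z : RZ p mu rho ζ v) {f : Pol K} :
    dr p v (lam * f) = 0 ↔ eval p f = 0 := by
  rw [dr_mul, h.ti.lp, zero_mul, zero_add, dr_linform p v h.hlam]
  constructor
  · intro h1
    exact (mul_eq_zero.1 h1).resolve_left (h.lam_v h0 z)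
  · intro h1
    rw [h1, mul_zero]

private theorem out_V4 (h : TC t p lam lam' mu del del2 a b m) (h0 : eval p del2 = 0) :
    (out K t (V K t 4)).card = 5 ∧ cl K t 2 (out K t (V K t 4)) = 9 ∧
    cl K t 3 (out K t (V K t 4)) = 12 ∧ cl K t 4 (out K t (V K t 4)) = 15 := by
  obtain ⟨rho, ζ, v, z⟩ := h.ti.exists_RZ
  have c1 := h.fl.cl1 (h.fl.V_le 4) (h.fl.llV 4)
  have c2 := h.fl.cl2 (h.fl.V_le 4) (h.fl.llV 4)
  have c3 := h.fl.cl3 (h.fl.V_le 4) (h.fl.llV 4)
  have c4 := h.fl.cl4 (h.fl.V_le 4) (h.fl.llV 4)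
  have f4 := h.fV 4 (by norm_num)
  rw [f4] at c1
  have d2 : finrank K ↥(V K t 4 * cubics K) = 19 := by
    rw [h.V4 h0, mulS_mul, finrank_mulS h.mu0, z.rank5]
  have d3 : finrank K ↥(V K t 4 * H K 6) = 43 := by
    rw [h.V4 h0, mulS_mul, finrank_mulS h.mu0, z.rank8]
  have d4 : finrank K ↥(V K t 4 * H K 9) = 76 := by
    rw [h.V4 h0, mulS_mul, finrank_mulS h.mu0, z.rank11]
  rw [d2] at c2
  rw [d3] at c3
  rw [d4] at c4
  refine ⟨by omega, by omega, by omega, by omega⟩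

/-- dimension of `(V 4 ⊔ A 1) * Y` -/
private theorem dimgen (h : TC t p lam lam' mu del del2 a b m) (h0 : eval p del2 = 0)
    {rho ζ : Pol K} {v : Fin 3 → K} (z : RZ p mu rho ζ v) {d : ℕ} {Y Z : Submodule K (Pol K)}
    (hZ : ∀ f, f ∈ Ps p mu * Y ↔ f ∈ H K (d + 2) ∧ eval p f = 0 ∧ dr p v f = 0)
    (hA : A K t 1 * Y = mulS lam (H K (d + 2))) :
    finrank K ↥((V K t 4 ⊔ A K t 1) * Y) + finrank K ↥(IP p (d + 1)) =
      finrank K ↥(Ps p mu * Y) + finrank K ↥(H K (d + 2)) := by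
  have e1 : (V K t 4 ⊔ A K t 1) * Y = mulS mu (Ps p mu * Y) ⊔ mulS lam (H K (d + 2)) := by
    rw [Submodule.sup_mul, hA, h.V4 h0, mulS_mul]
  have hle : Ps p mu * Y ≤ H K (d + 2) := fun f hf => ((hZ f).1 hf).1
  have f1 : Module.Finite K ↥(Ps p mu * Y) := Submodule.finiteDimensional_of_le hle
  have f2 : Module.Finite K ↥(mulS mu (Ps p mu * Y)) := Module.Finite.map _ _
  have f3 : Module.Finite K ↥(mulS lam (H K (d + 2))) := Module.Finite.map _ _
  have e2 : mulS mu (Ps p mu * Y) ⊓ mulS lam (H K (d + 2)) = mulS (lam * mu) (IP p (d + 1)) := by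
    apply le_antisymm
    · intro w hw
      obtain ⟨hw1, hw2⟩ := mem_inf.1 hw
      obtain ⟨f, hf, rfl⟩ := mem_mulS.1 hw1
      obtain ⟨g, hg, hfg⟩ := mem_mulS.1 hw2
      have h1 : lam ∣ mu * f := ⟨g, hfg.symm⟩
      have h2 : lam ∣ f := by
        rcases (prime_lin h.hlam h.ti.L0).dvd_or_dvd h1 with h3 | h3
        · exact absurd h3 h.tv.tb.nm
        · exact h3
      obtain ⟨hf1, hf2, hf3⟩ := (hZ f).1 hf
      have hf1' : f ∈ H K (1 + (d + 1)) := by
        have : 1 + (d + 1) = d + 2 := by omega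
        rw [this]; exact hf1
      obtain ⟨k, hk, rfl⟩ := exists_quot h.hlam h.ti.L0 hf1' h2
      rw [h.lam_ps h0 z] at hf3
      rw [mem_mulS]
      exact ⟨k, mem_IP.2 ⟨hk, hf3⟩, by ring⟩
    · intro w hw
      obtain ⟨k, hk, rfl⟩ := mem_mulS.1 hw
      obtain ⟨hk1, hk2⟩ := mem_IP.1 hk
      have h1 : lam * k ∈ H K (d + 2) := by
        have : d + 2 = 1 + (d + 1) := by omega
        rw [this]; exact mul_mem_H h.hlam hk1
      refine mem_inf.2 ⟨mem_mulS.2 ⟨lam * k, (hZ _).2 ⟨h1, ?_, ?_⟩, by ring⟩,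
        mem_mulS.2 ⟨mu * k, ?_, by ring⟩⟩
      · rw [map_mul, h.ti.lp, zero_mul]
      · rw [h.lam_ps h0 z]; exact hk2
      · have : d + 2 = 1 + (d + 1) := by omega
        rw [this]; exact mul_mem_H h.hmu hk1
  have h1 := finrank_sup_add_finrank_inf_eq (mulS mu (Ps p mu * Y)) (mulS lam (H K (d + 2)))
  rw [e2, finrank_mulS h.mu0, finrank_mulS h.ti.L0, finrank_mulS (mul_ne_zero h.ti.L0 h.mu0)] at h1
  rw [e1]
  exact h1

private theorem out_V4A1 (h : TC t p lam lam' mu del del2 a b m) (h0 : eval p del2 = 0) :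
    cl K t 2 (out K t (V K t 4 ⊔ A K t 1)) = 2 ∧
    cl K t 3 (out K t (V K t 4 ⊔ A K t 1)) = 2 ∧ cl K t 4 (out K t (V K t 4 ⊔ A K t 1)) = 2 := by
  obtain ⟨rho, ζ, v, z⟩ := h.ti.exists_RZ
  have hU : V K t 4 ⊔ A K t 1 ≤ cubics K := sup_le (h.fl.V_le 4) (h.fl.A_le 1)
  have hL : LL K t (V K t 4 ⊔ A K t 1) := by
    rw [sup_comm]
    exact h.fl.llSupV (h.fl.A_le 1) (h.fl.llA 1) 4
  have c2 := h.fl.cl2 hU hL
  have c3 := h.fl.cl3 hU hL
  have c4 := h.fl.cl4 hU hL
  have d2 : finrank K ↥((V K t 4 ⊔ A K t 1) * cubics K) + finrank K ↥(IP p 4) =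
      finrank K ↥(Ps p mu * cubics K) + finrank K ↥(H K 5) :=
    h.dimgen h0 z (d := 3) (Z := ⊥) (fun f => z.mem5) h.ti.A1_mul
  have d3 : finrank K ↥((V K t 4 ⊔ A K t 1) * H K 6) + finrank K ↥(IP p 7) =
      finrank K ↥(Ps p mu * H K 6) + finrank K ↥(H K 8) :=
    h.dimgen h0 z (d := 6) (Z := ⊥) (fun f => z.mem8) h.ti.A1_mul6
  have d4 : finrank K ↥((V K t 4 ⊔ A K t 1) * H K 9) + finrank K ↥(IP p 10) =
      finrank K ↥(Ps p mu * H K 9) + finrank K ↥(H K 11) :=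
    h.dimgen h0 z (d := 9) (Z := ⊥) (fun f => z.mem11) h.ti.A1_mul9
  have i4 := finrank_IP (K := K) h.ti.p0 4
  have i7 := finrank_IP (K := K) h.ti.p0 7
  have i10 := finrank_IP (K := K) h.ti.p0 10
  rw [finrank_H4] at i4
  rw [finrank_H7] at i7
  rw [finrank_H10] at i10
  rw [z.rank5, finrank_H5] at d2
  rw [z.rank8, finrank_H8] at d3
  rw [z.rank11, finrank_H11] at d4
  refine ⟨by omega, by omega, by omega⟩

/-- the vertices outside of `inn (V 4 ⊔ A 1)` -/
private theorem mem_o (h : TC t p lam lam' mu del del2 a b m) (i : Fin 9) :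
    i ∈ out K t (V K t 4 ⊔ A K t 1) ↔ 4 ≤ (i : ℕ) ∧ i ≠ a ∧ i ≠ b := by
  rw [sup_comm, h.fl.out_sup_V, ← notMem_inn, h.tv.iA]
  simp only [Finset.mem_insert, Finset.mem_singleton, not_or]
  constructor
  · rintro ⟨⟨-, -, h1, h2⟩, h3⟩
    exact ⟨h3, h1, h2⟩
  · rintro ⟨h3, h1, h2⟩
    refine ⟨⟨?_, ?_, h1, h2⟩, h3⟩
    · rintro rfl; exact absurd h3 (by decide)
    · rintro rfl; exact absurd h3 (by decide)

private theorem V4_le_dv (h : TC t p lam lam' mu del del2 a b m) (h0 : eval p del2 = 0) :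
    V K t 4 ≤ dv mu := by
  rw [h.V4 h0]
  exact mulS_mono inf_le_left

private theorem kap (h : TC t p lam lam' mu del del2 a b m) (h0 : eval p del2 = 0)
    (hm : ¬ mu ∣ t 4) {κ w : Pol K} (hκ : κ ∈ Fp p) (hw : w ∈ V K t 4) (he : lam * κ = t 4 + w) :
    eval p κ = 0 ∧ A K t 4 = dv mu := by
  obtain ⟨rho, ζ, v, z⟩ := h.ti.exists_RZ
  have hV4 := h.V4 h0
  have hV4d := h.V4_le_dv h0
  have hA4d : A K t 4 ≤ dv mu := h.tv.tb.A_le (j := 4) hV4d hm
  have hκH := Fp_le p hκ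
  have ht4 : t 4 = lam * κ - w := by rw [he]; ring
  have key : ∀ α ∈ KK mu, mu * α * t 4 ∈ V K t 4 * cubics K ↔ eval p (α * κ) = 0 := by
    intro α hα
    have hx : mu * α ∈ cubics K := mul_KK_mem h.hmu hα
    have e1 : mu * α * t 4 = mu * (lam * (α * κ)) - w * (mu * α) := by rw [ht4]; ring
    have h1 : w * (mu * α) ∈ V K t 4 * cubics K := mul_mem_mul hw hx
    rw [e1, Submodule.sub_mem_iff_left _ h1]
    rw [hV4, mulS_mul, mul_mem_mulS_iff h.mu0, z.mem5, h.lam_ps h0 z]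
    constructor
    · exact fun h2 => h2.2.2
    · intro h2
      refine ⟨mul_mem_H (a := 1) (b := 4) h.hlam (mul_mem_H (a := 2) (b := 2) (KK_le _ hα) hκH), ?_, h2⟩
      rw [map_mul, h.ti.lp, zero_mul]
  have hκ0 : eval p κ = 0 := by
    by_contra hne
    apply h.ti.ps_lt
    have hA4 : A K t 4 ≤ mulS mu (Ps p mu) := by
      intro x hx
      obtain ⟨α, hα, rfl⟩ := mem_mulS.1 (hA4d hx)
      have h1 := ((h.fl.mem_A).1 hx).2
      have h2 := (key α hα).1 h1
      rw [map_mul] at h2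
      exact mul_mem_mulS ⟨hα, mem_IP.2 ⟨KK_le _ hα, (mul_eq_zero.1 h2).resolve_right hne⟩⟩
    intro β hβ
    obtain ⟨hβ1, hβ2⟩ := mem_IP.1 hβ
    have h1 : mu * β ∈ H K 6 := mul_mem_H (a := 1) (b := 5) h.hmu hβ1
    have h2 : mu * β * t 4 ∈ V K t 4 * H K 6 := by
      have e1 : mu * β * t 4 = mu * (lam * (β * κ)) - w * (mu * β) := by
        rw [ht4]; ring
      rw [e1]
      refine sub_mem ?_ (mul_mem_mul hw h1)
      rw [hV4, mulS_mul]
      refine mul_mem_mulS (z.mem8.2 ⟨?_, ?_, ?_⟩)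
      · exact mul_mem_H (a := 1) (b := 7) h.hlam (mul_mem_H (a := 5) (b := 2) hβ1 hκH)
      · rw [map_mul, h.ti.lp, zero_mul]
      · rw [h.lam_ps h0 z, map_mul, hβ2, zero_mul]
    have h3 := h.fl.colA2 4 h1 h2
    have h4 : mu * β ∈ mulS mu (Ps p mu * cubics K) := by
      rw [← mulS_mul]
      exact (mul_le_mul' hA4 le_rfl) h3
    exact (mul_mem_mulS_iff h.mu0).1 h4
  refine ⟨hκ0, le_antisymm hA4d ?_⟩
  intro x hx
  obtain ⟨α, hα, rfl⟩ := mem_mulS.1 hx
  exact h.fl.mem_A.2 ⟨mul_KK_mem h.hmu hα, (key α hα).2 (by rw [map_mul, hκ0, mul_zero])⟩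

private theorem out_dvm (h : TC t p lam lam' mu del del2 a b m) (hA4 : A K t 4 = dv mu) :
    (out K t (dv mu)).card = 4 ∧ cl K t 2 (out K t (dv mu)) = 7 ∧
    cl K t 3 (out K t (dv mu)) = 10 := by
  have hL : LL K t (dv mu) := by rw [← hA4]; exact h.fl.llA 4
  have hU := BR.dv_le h.hmu
  have c1 := h.fl.cl1 hU hL
  have c2 := h.fl.cl2 hU hL
  have c3 := h.fl.cl3 hU hL
  have d1 : finrank K ↥(dv mu) = 5 := by
    rw [dv, finrank_mulS h.mu0, finrank_KK h.hmu h.mu0]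
  have d2 : finrank K ↥(dv mu * cubics K) = 21 := by
    rw [dv, mulS_mul, finrank_mulS h.mu0, KK_mul h.hmu h.mu0, finrank_H5]
  have d3 : finrank K ↥(dv mu * H K 6) = 45 := by
    rw [dv, mulS_mul, finrank_mulS h.mu0, KK_mul6 h.hmu h.mu0, finrank_H8]
  rw [d1] at c1
  rw [d2] at c2
  rw [d3] at c3
  exact ⟨by omega, by omega, by omega⟩

private theorem not4ab (h : TC t p lam lam' mu del del2 a b m) (h0 : eval p del2 = 0)
    (hm : ¬ mu ∣ t 4) {b' : Fin 9} (hb4 : b' ≠ 4) (hb' : 4 ≤ b')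
    (hi : inn K t (A K t 1) = {0, 1, 4, b'}) : False := by
  have h4i : (4 : Fin 9) ∈ inn K t (A K t 1) := by rw [hi]; simp
  obtain ⟨w, hw, hu⟩ := mem_inn.1 h4i
  rw [four] at hw
  have hu' := hu
  rw [h.ti.A1] at hu
  obtain ⟨κ, hκ, he⟩ := mem_mulS.1 hu
  obtain ⟨hκ0, hA4⟩ := h.kap h0 hm hκ hw he
  have hV4d := h.V4_le_dv h0
  have hwd : mu ∣ w := ((mem_dv h.hmu h.mu0).1 (hV4d hw)).2
  have hmκ : ¬ mu ∣ κ := by
    intro hd
    apply hm
    have h1 : mu ∣ lam * κ := hd.mul_left lam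
    rw [he] at h1
    exact (dvd_add_left hwd).1 h1
  have hκPh : κ ∈ Ph p := ⟨hκ, mem_IP.2 ⟨Fp_le p hκ, hκ0⟩⟩
  have e5 : V K t 5 = V K t 4 ⊔ span K {lam * κ} := by
    have e : V K t 5 = V K t 4 ⊔ span K {t 4} := V_succ (4 : Fin 9)
    rw [e]
    apply le_antisymm
    · refine sup_le le_sup_left ?_
      rw [span_singleton_le_iff_mem]
      have : t 4 = lam * κ - w := by rw [he]; ring
      rw [this]
      exact sub_mem (mem_sup_right (mem_span_singleton_self _)) (mem_sup_left hw)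
    · refine sup_le le_sup_left ?_
      rw [span_singleton_le_iff_mem, he]
      exact add_mem (mem_sup_right (mem_span_singleton_self _)) (mem_sup_left hw)
  have hPh5 : mulS lam (Ph p) ≤ V K t 5 := by
    rw [h.ti.Ph_eq hκPh hmκ, mulS_sup, mulS_mulS]
    refine sup_le ?_ ?_
    · rw [← h.ti.V2]
      exact V_mono (by norm_num)
    · rw [e5]
      intro x hx
      obtain ⟨y, hy, rfl⟩ := mem_mulS.1 hx
      obtain ⟨c, rfl⟩ := mem_span_singleton.1 hy
      rw [mul_smul_comm]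
      exact smul_mem _ _ (mem_sup_right (mem_span_singleton_self _))
  have e51 : V K t 5 ⊔ A K t 1 = V K t 4 ⊔ A K t 1 := by
    rw [e5]
    apply le_antisymm
    · refine sup_le (sup_le le_sup_left ?_) le_sup_right
      rw [span_singleton_le_iff_mem, he]
      exact mem_sup_right hu'
    · exact sup_le_sup_right le_sup_left _
  obtain ⟨n1, n2, n3, n4⟩ := h.out_V4 h0
  obtain ⟨o2, o3, o4⟩ := h.out_V4A1 h0
  obtain ⟨m1, m2, m3⟩ := h.out_dvm hA4
  have h4o : (4 : Fin 9) ∈ out K t (V K t 4) := (h.fl.mem_out_V 4 4).2 le_rfl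
  have hnb4 : nb K t 4 (out K t (V K t 4)) = out K t (dv mu) := by
    rw [← hA4]
    exact (h.fl.outA 4).symm
  have ho5 : out K t (V K t 5) = (out K t (V K t 4)).erase 4 := by
    ext i
    rw [h.fl.mem_out_V, Finset.mem_erase, h.fl.mem_out_V]
    constructor
    · intro h1
      refine ⟨?_, by omega⟩
      rintro rfl
      exact absurd h1 (by decide)
    · rintro ⟨h1, h2⟩
      have h3 : (i : ℕ) ≠ 4 := fun h4 => h1 (Fin.ext h4)
      omega
  have q1 : (out K t (V K t 5)).card = 4 := by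
    rw [ho5, Finset.card_erase_of_mem h4o, n1]
  have q2 : cl K t 2 (out K t (V K t 5)) = 5 := by
    have h1 : cl K t 2 (out K t (V K t 4)) = cl K t 1 (nb K t 4 (out K t (V K t 4))) +
        cl K t 2 ((out K t (V K t 4)).erase 4) := cl_erase 1 h4o
    rw [hnb4, cl_one, m1, ← ho5, n2] at h1
    omega
  have q3 : cl K t 3 (out K t (V K t 5)) = 5 := by
    have h1 : cl K t 3 (out K t (V K t 4)) = cl K t 2 (nb K t 4 (out K t (V K t 4))) +
        cl K t 3 ((out K t (V K t 4)).erase 4) := cl_erase 2 h4o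
    rw [hnb4, m2, ← ho5, n3] at h1
    omega
  have hb5 : b' ∈ out K t (V K t 5) := by
    rw [h.fl.mem_out_V]
    have h1 : (b' : ℕ) ≠ 4 := fun h4 => hb4 (Fin.ext h4)
    have h2 : 4 ≤ (b' : ℕ) := hb'
    omega
  have hout : out K t (V K t 5 ⊔ A K t 1) = (out K t (V K t 5)).erase b' := by
    ext i
    rw [sup_comm, h.fl.out_sup_V, ← notMem_inn, hi, Finset.mem_erase, h.fl.mem_out_V]
    simp only [Finset.mem_insert, Finset.mem_singleton, not_or]
    constructor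
    · rintro ⟨⟨-, -, -, h1⟩, h2⟩
      exact ⟨h1, h2⟩
    · rintro ⟨h1, h2⟩
      refine ⟨⟨?_, ?_, ?_, h1⟩, h2⟩
      · rintro rfl; exact absurd h2 (by decide)
      · rintro rfl; exact absurd h2 (by decide)
      · rintro rfl; exact absurd h2 (by decide)
  rw [← e51, hout] at o2 o3
  have r1 : ((out K t (V K t 5)).erase b').card = 3 := by
    rw [Finset.card_erase_of_mem hb5, q1]
  have r2 : (nb K t b' (out K t (V K t 5))).card = 3 := by
    have h1 : cl K t 2 (out K t (V K t 5)) = cl K t 1 (nb K t b' (out K t (V K t 5))) +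
        cl K t 2 ((out K t (V K t 5)).erase b') := cl_erase 1 hb5
    rw [cl_one, q2, o2] at h1
    omega
  have r3 : cl K t 2 (nb K t b' (out K t (V K t 5))) = 3 := by
    have h1 : cl K t 3 (out K t (V K t 5)) = cl K t 2 (nb K t b' (out K t (V K t 5))) +
        cl K t 3 ((out K t (V K t 5)).erase b') := cl_erase 2 hb5
    rw [q3, o3] at h1
    omega
  have hp : ∀ x ∈ cubics K, ∀ κ' ∈ Fp p, eval p κ' ≠ 0 → x * (lam * κ') ∈ V K t 5 * cubics K →
      eval p x = 0 := by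
    intro x hx κ' hκ' hne hmem
    rw [e5, Submodule.sup_mul, span_mul_eq', h.V4 h0, mulS_mul] at hmem
    obtain ⟨y, hy, y', hy', hyy⟩ := mem_sup.1 hmem
    obtain ⟨g, hg, rfl⟩ := mem_mulS.1 hy
    obtain ⟨w', hw', rfl⟩ := mem_mulS.1 hy'
    obtain ⟨rho, ζ, v, z⟩ := h.ti.exists_RZ
    obtain ⟨g1, g2, g3⟩ := z.mem5.1 hg
    have h1 : lam ∣ mu * g := ⟨x * κ' - κ * w', by linear_combination hyy⟩
    have h2 : lam ∣ g := by
      rcases (prime_lin h.hlam h.ti.L0).dvd_or_dvd h1 with h3 | h3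
      · exact absurd h3 h.tv.tb.nm
      · exact h3
    obtain ⟨k, hk, rfl⟩ := exists_quot (a := 1) (b := 4) h.hlam h.ti.L0 g1 h2
    rw [h.lam_ps h0 z] at g3
    have h3 : x * κ' = mu * k + κ * w' := by
      apply mul_left_cancel₀ h.ti.L0
      linear_combination -hyy
    have h4 := congrArg (eval p) h3
    rw [map_mul, map_add, map_mul, map_mul, g3, hκ0, mul_zero, zero_mul, add_zero] at h4
    exact (mul_eq_zero.1 h4).resolve_right hne
  obtain ⟨c, hc⟩ := h.fl.exists_isC h.ti.p0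
  have hL' : LL K t (V K t 5 ⊔ A K t 1) := by
    rw [sup_comm]
    exact h.fl.llSupV (h.fl.A_le 1) (h.fl.llA 1) 5
  have hcn := h.ti.bstar (h.fl.V_le 5) (h.fl.llV 5) hPh5 hL' hb5 hout hp hc
  have hcb : c ≠ b' := by
    intro hcb
    have h1 := h.fl.isC_out hc h.ti.A1_eval
    rw [hcb, ← notMem_inn, hi] at h1
    exact h1 (by simp)
  exact gr_four hb5 r1 o2 r2 r3 hcn hcb (h.fl.isC_loop hc)

private theorem V5 (h : TC t p lam lam' mu del del2 a b m) (h0 : eval p del2 = 0)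
    (hd : mu ∣ t 4) : V K t 5 = dv mu := by
  have hle : V K t 5 ≤ dv mu := by
    have e : V K t 5 = V K t 4 ⊔ span K {t 4} := V_succ (4 : Fin 9)
    rw [e]
    refine sup_le (h.V4_le_dv h0) ?_
    rw [span_singleton_le_iff_mem, mem_dv h.hmu h.mu0]
    exact ⟨h.fl.mem 4, hd⟩
  have hf : Module.Finite K ↥(dv mu) := by
    have : Module.Finite K ↥(KK mu) := Submodule.finiteDimensional_of_le (KK_le mu)
    exact Module.Finite.map _ _
  refine Submodule.eq_of_le_of_finrank_le hle ?_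
  rw [h.fV 5 (by norm_num), dv, finrank_mulS h.mu0, finrank_KK h.hmu h.mu0]

theorem beta1 (h : TC t p lam lam' mu del del2 a b m) (h0 : eval p del2 = 0)
    (hpa : eval p mu = 0 → p = pa) : False := by
  by_cases hd : mu ∣ t 4
  · exact h.end_beta1 hpa h0 (h.notN h0) (h.V5 h0 hd)
  have hV4d := h.V4_le_dv h0
  have h4D : t 4 ∈ V K t 4 ⊔ dv lam := by
    by_contra hD
    exact h.notN h0 (h.tv.tb.plus (j := 4) (by decide) hV4d hd hD).1
  have hin : (4 : Fin 9) ∈ inn K t (dv lam) := by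
    obtain ⟨x, hx, y, hy, hxy⟩ := mem_sup.1 h4D
    refine mem_inn.2 ⟨-x, neg_mem hx, ?_⟩
    have : t 4 + -x = y := by rw [← hxy]; ring
    rw [this]; exact hy
  rw [h.tv.iD] at hin
  simp only [Finset.mem_insert, Finset.mem_singleton] at hin
  obtain ⟨ha4, hb4, hm4⟩ := h.ge4
  rcases hin with h1 | h1 | h1 | h1 | h1
  · exact absurd h1 (by decide)
  · exact absurd h1 (by decide)
  · refine h.not4ab h0 hd (b' := b) (fun h2 => h.tv.ab (by rw [← h1, h2])) hb4 ?_
    rw [h.tv.iA, ← h1]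
  · refine h.not4ab h0 hd (b' := a) (fun h2 => h.tv.ab (by rw [← h1, h2])) ha4 ?_
    rw [h.tv.iA, ← h1]
    ext i
    simp only [Finset.mem_insert, Finset.mem_singleton]
    tauto
  · have hmo : m ∈ out K t (A K t 1) := by
      rw [← notMem_inn, h.tv.iA]
      simp only [Finset.mem_insert, Finset.mem_singleton, not_or]
      refine ⟨?_, ?_, h.tv.am.symm, h.tv.bm.symm⟩
      · rintro rfl; exact absurd hm4 (by decide)
      · rintro rfl; exact absurd hm4 (by decide)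
    have hnl : ¬ Adj K t 4 4 := by
      intro hadj
      have h2 : m ∈ nb K t m (out K t (A K t 1)) := mem_nb.2 ⟨hmo, by rw [← h1]; exact hadj⟩
      rw [h.tv.mi] at h2
      simp at h2
    have hsq := (h.fl.not_loop_iff 4).1 hnl
    have h2 : mu ∣ t 4 * t 4 := by
      have h3 : t 4 * t 4 ∈ V K t 4 * cubics K := hsq
      refine Submodule.mul_induction_on h3 ?_ ?_
      · intro x hx y _
        exact ((mem_dv h.hmu h.mu0).1 (hV4d hx)).2.mul_right y
      · intro x y hx hy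
        exact dvd_add hx hy
    rcases (prime_lin h.hmu h.mu0).dvd_or_dvd h2 with h3 | h3 <;> exact hd h3

end TC

end Pool.Agent.BR
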