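import Pool.Agent.Work.MP_be705b_al.II.TB2

set_option autoImplicit false
set_option linter.unusedSectionVars false
set_option linter.unusedVariables false

/-!
# MP_be705b_al, type II, case 1b, block B: definitions (everything in this file is proved)

`TD`: `t 2 = mu * del`, `t 3 = mu * del2`, `del (p) = 0`, `del2 (p) ≠ 0` (case beta2).
-/

namespace Pool.Agent.BR

open Submodule Module MvPolynomial

variable {K : Type*} [Field K]

/-- case 1b with `t 3 = mu * del2`, `del2 (p) ≠ 0` -/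
structure TD (t : Fin 9 → Pol K) (p : Fin 3 → K) (lam lam' mu del del2 : Pol K) (a b m : Fin 9) :
    Prop where
  tc : TC t p lam lam' mu del del2 a b m
  d2 : eval p del2 ≠ 0

variable {t : Fin 9 → Pol K} {p : Fin 3 → K} {lam lam' mu del del2 : Pol K} {a b m : Fin 9}

/-- the kernel of a functional which is not zero on `U` -/
theorem finrank_inf_ker {U : Submodule K (Pol K)} [Module.Finite K ↥U] {φ : Pol K →ₗ[K] K} {u : Pol K}
    (hu : u ∈ U) (h : φ u ≠ 0) : finrank K ↥(U ⊓ LinearMap.ker φ) + 1 = finrank K ↥U := by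
  set ψ : ↥U →ₗ[K] K := φ.domRestrict U with hψ
  have h1 : finrank K ↥(LinearMap.range ψ) + finrank K ↥(LinearMap.ker ψ) = finrank K ↥U :=
    LinearMap.finrank_range_add_finrank_ker ψ
  have h2 : LinearMap.range ψ = ⊤ := by
    rw [eq_top_iff]
    intro c _
    refine ⟨(c / φ u) • ⟨u, hu⟩, ?_⟩
    rw [map_smul, hψ, LinearMap.domRestrict_apply]
    show (c / φ u) • φ u = c
    rw [smul_eq_mul, div_mul_cancel₀ _ h]
  rw [h2, finrank_top, finrank_self] at h1
  have h3 : finrank K ↥(LinearMap.ker ψ) = finrank K ↥(U ⊓ LinearMap.ker φ) := by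
    have h4 : (LinearMap.ker ψ).map U.subtype = U ⊓ LinearMap.ker φ := by
      ext x
      simp only [mem_map, LinearMap.mem_ker, mem_inf, hψ, LinearMap.domRestrict_apply, subtype_apply,
        Subtype.exists, exists_and_right, exists_eq_right]
      tauto
    rw [← h4]
    exact (finrank_map_subtype_eq U (LinearMap.ker ψ)).symm
  omega

namespace TD

theorem tv (h : TD t p lam lam' mu del del2 a b m) : TV t p lam lam' mu del a b m := h.tc.tv

theorem tb (h : TD t p lam lam' mu del del2 a b m) : TB t p lam lam' mu del := h.tc.tv.tb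

theorem ti (h : TD t p lam lam' mu del del2 a b m) : TII t p lam lam' mu := h.tc.tv.tb.h

theorem fl (h : TD t p lam lam' mu del del2 a b m) : Fl t := h.tc.tv.tb.h.t2.fl

theorem hlam (h : TD t p lam lam' mu del del2 a b m) : lam ∈ H K 1 := h.ti.t2.ha

theorem hmu (h : TD t p lam lam' mu del del2 a b m) : mu ∈ H K 1 := h.ti.t2.hm

theorem mu0 (h : TD t p lam lam' mu del del2 a b m) : mu ≠ 0 := h.ti.t2.m0

theorem lam0 (h : TD t p lam lam' mu del del2 a b m) : lam ≠ 0 := h.ti.L0

theorem hdel (h : TD t p lam lam' mu del del2 a b m) : del ∈ H K 2 := (mem_IP.1 h.tb.hd.2).1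

theorem delp (h : TD t p lam lam' mu del del2 a b m) : eval p del = 0 := (mem_IP.1 h.tb.hd.2).2

theorem hdel2 (h : TD t p lam lam' mu del del2 a b m) : del2 ∈ H K 2 := KK_le _ h.tc.hd2

/-- the vertices `a`, `b`, `m` are at least `4` -/
theorem ge4 (h : TD t p lam lam' mu del del2 a b m) : 4 ≤ a ∧ 4 ≤ b ∧ 4 ≤ m := by
  have h3 := h.tc.o3
  rw [← notMem_inn, h.tv.iD] at h3
  simp only [Finset.mem_insert, Finset.mem_singleton, not_or] at h3
  have ha := h.tv.a3
  have hb := h.tv.b3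
  have hm := h.tv.m3
  refine ⟨?_, ?_, ?_⟩
  · exact lt_of_le_of_ne ha h3.2.2.1
  · exact lt_of_le_of_ne hb h3.2.2.2.1
  · exact lt_of_le_of_ne hm h3.2.2.2.2

theorem out_A1_iff (h : TD t p lam lam' mu del del2 a b m) (i : Fin 9) :
    i ∈ out K t (A K t 1) ↔ i ≠ 0 ∧ i ≠ 1 ∧ i ≠ a ∧ i ≠ b := by
  rw [← notMem_inn, h.tv.iA]
  simp only [Finset.mem_insert, Finset.mem_singleton, not_or]

theorem out_D_iff (h : TD t p lam lam' mu del del2 a b m) (i : Fin 9) :
    i ∈ out K t (dv lam) ↔ i ≠ 0 ∧ i ≠ 1 ∧ i ≠ a ∧ i ≠ b ∧ i ≠ m := by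
  rw [← notMem_inn, h.tv.iD]
  simp only [Finset.mem_insert, Finset.mem_singleton, not_or]

/-- `m` is not adjacent to any vertex outside of `inn (A 1)` -/
theorem m_iso (h : TD t p lam lam' mu del del2 a b m) {i : Fin 9} (hi : i ∈ out K t (A K t 1)) :
    ¬ Adj K t m i := by
  intro hadj
  have h1 : i ∈ nb K t m (out K t (A K t 1)) := mem_nb.2 ⟨hi, hadj⟩
  rw [h.tv.mi] at h1
  simp at h1

theorem m_out (h : TD t p lam lam' mu del del2 a b m) : m ∈ out K t (A K t 1) := by
  rw [h.out_A1_iff]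
  have h4 := h.ge4.2.2
  refine ⟨?_, ?_, h.tv.am.symm, h.tv.bm.symm⟩
  · rintro rfl; exact absurd h4 (by decide)
  · rintro rfl; exact absurd h4 (by decide)

theorem m_noloop (h : TD t p lam lam' mu del del2 a b m) : ¬ Adj K t m m := h.m_iso h.m_out

end TD

end Pool.Agent.BR
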