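import Pool.Agent.Work.MP_be705b_al.II.TB2
import Pool.Agent.Work.MP_be705b_al.II.BBDefs

set_option autoImplicit false
set_option linter.unusedSectionVars false
set_option linter.unusedVariables false

/-!
# MP_be705b_al, type II, block A: `Ps p mu = rho * H 1 + span {ζ ζ}` and its products

`Ps p mu * Y` (`Y` = cubics, `H 6`, `H 9`) consists of the forms `f` with `f (p) = 0`, `dr p v f = 0`.
-/

namespace Pool.Agent.BR

open Submodule Module MvPolynomial

variable {K : Type*} [Field K] {t : Fin 9 → Pol K} {p : Fin 3 → K} {lam lam' mu : Pol K}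

/-- `Ps p mu` in terms of linear forms `rho`, `ζ` and a second point `v` of the line `rho = 0` -/
structure RZ (p : Fin 3 → K) (mu rho ζ : Pol K) (v : Fin 3 → K) : Prop where
  p0 : p ≠ 0
  hr : rho ∈ H K 1
  hz : ζ ∈ H K 1
  r0 : eval p rho = 0
  z0 : eval p ζ = 0
  li : LinearIndependent K ![rho, ζ]
  hN : mu * rho ∈ N K
  hPs : Ps p mu = mulS rho (H K 1) ⊔ span K {ζ * ζ}
  rv : eval v rho = 0
  pv : LinearIndependent K ![p, v]
  zv : eval v ζ ≠ 0

private theorem r_ev_dot {l : Pol K} (hl : l ∈ H K 1) (q : Fin 3 → K) : eval q l = dot (lc l) q := by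
  conv_lhs => rw [← lin_lc hl]
  exact eval_lin q (lc l)

/-- two independent linear forms have only one common zero -/
private theorem two_zero {l l' : Pol K} (hl : l ∈ H K 1) (hl' : l' ∈ H K 1)
    (hli : LinearIndependent K ![l, l']) {q v : Fin 3 → K} (h1 : eval q l = 0) (h2 : eval q l' = 0)
    (h3 : eval v l = 0) (h4 : eval v l' = 0) : ¬ LinearIndependent K ![q, v] := by
  intro hcon
  have h5 := lc_li hl hl' hli
  rw [r_ev_dot hl] at h1 h3
  rw [r_ev_dot hl'] at h2 h4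
  obtain ⟨c, hc⟩ := eq_smul_cross h5 h1 h2
  obtain ⟨d, hd⟩ := eq_smul_cross h5 h3 h4
  rw [LinearIndependent.pair_iff] at hcon
  have h6 := hcon d (-c) (by rw [hc, hd, smul_smul, smul_smul, ← add_smul]; ring_nf; simp)
  have h7 : c = 0 := by simpa using h6.2
  have h8 : d = 0 := h6.1
  have h9 := hcon 1 0 (by rw [hc, h7]; simp)
  exact one_ne_zero h9.1

private theorem r_Fp_hat {κ : Pol K} (hκ : κ ∈ Fp p) : ∃ a : K, hat κ = a • p := by
  obtain ⟨n, hn, y, hy, rfl⟩ := mem_sup.1 hκ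
  obtain ⟨a, rfl⟩ := mem_span_singleton.1 hy
  refine ⟨a, ?_⟩
  rw [hat_add, hat_of_N hn, hat_smul, (cf_cr p).2, zero_add]

private theorem r_exists_rho (h : TII t p lam lam' mu) : ∃ rho ζ : Pol K, rho ∈ H K 1 ∧ ζ ∈ H K 1 ∧
    eval p rho = 0 ∧ eval p ζ = 0 ∧ LinearIndependent K ![rho, ζ] ∧ mu * rho ∈ N K := by
  have hlam : lam ∈ H K 1 := h.t2.ha
  have hlam' : lam' ∈ H K 1 := h.t2.hb
  have hmu : mu ∈ H K 1 := h.t2.hm
  have hli := h.t2.li
  have hF : mu * lam ∈ Fp p := (h.muL_le (mul_mem_mulS (subset_span (by simp)))).1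
  have hF' : mu * lam' ∈ Fp p := (h.muL_le (mul_mem_mulS (subset_span (by simp)))).1
  obtain ⟨a, ha⟩ := r_Fp_hat hF
  obtain ⟨a', ha'⟩ := r_Fp_hat hF'
  by_cases h0 : a = 0
  · refine ⟨lam, lam', hlam, hlam', h.lp, h.lp', hli, ?_⟩
    rw [mem_N]
    refine ⟨mul_mem_H hmu hlam, ?_⟩
    rw [ha, h0, zero_smul]
  · refine ⟨lam' - (a' / a) • lam, lam, sub_mem hlam' (smul_mem _ _ hlam), hlam, ?_, h.lp, ?_, ?_⟩
    · rw [map_sub, smul_eval, h.lp, h.lp']
      simp
    · rw [LinearIndependent.pair_iff] at hli ⊢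
      intro s r hsr
      have h1 := hli (r - s * (a' / a)) s (by
        rw [← hsr]
        simp only [sub_smul, smul_sub, smul_smul]
        abel)
      refine ⟨h1.2, ?_⟩
      have h2 := h1.1
      rw [h1.2] at h2
      simpa using h2
    · rw [mem_N]
      refine ⟨mul_mem_H hmu (sub_mem hlam' (smul_mem _ _ hlam)), ?_⟩
      rw [mul_sub, mul_smul_comm, hat_sub, hat_smul, ha, ha', smul_smul, div_mul_cancel₀ _ h0, sub_self]


theorem TII.exists_RZ (h : TII t p lam lam' mu) : ∃ (rho ζ : Pol K) (v : Fin 3 → K), RZ p mu rho ζ v := by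
  have hmu : mu ∈ H K 1 := h.t2.hm
  obtain ⟨rho, ζ, hr, hz, hr0, hz0, hli, hN⟩ := r_exists_rho h
  have hrne : rho ≠ 0 := hli.ne_zero 0
  have hrz : ¬ rho ∣ ζ := not_dvd_lin hr hz hli
  have hPs : Ps p mu = mulS rho (H K 1) ⊔ span K {ζ * ζ} := by
    symm
    have hle : mulS rho (H K 1) ⊔ span K {ζ * ζ} ≤ Ps p mu := by
      refine sup_le ?_ ?_
      · intro w hw
        obtain ⟨ν, hν, rfl⟩ := mem_mulS.1 hw
        refine ⟨(mem_KK' hmu).2 ⟨mul_mem_H hr hν, ?_⟩, mem_IP.2 ⟨mul_mem_H hr hν, ?_⟩⟩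
        · rw [← mul_assoc, ← N_mul_H1]
          exact mul_mem_mul hN hν
        · rw [map_mul, hr0, zero_mul]
      · rw [span_singleton_le_iff_mem]
        refine ⟨(mem_KK' hmu).2 ⟨mul_mem_H hz hz, ?_⟩, mem_IP.2 ⟨mul_mem_H hz hz, ?_⟩⟩
        · have h1 : mu * ζ ∈ Fp p := (h.muL_le (mul_mem_mulS (h.mem_L.2 ⟨hz, hz0⟩))).1
          have h2 : ζ * (mu * ζ) ∈ cubics K := mul_KK_mem hz (Fp_le_KK hz hz0 h1)
          have h3 : mu * (ζ * ζ) = ζ * (mu * ζ) := by ring
          rw [h3]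
          exact h2
        · rw [map_mul, hz0, zero_mul]
    have : Module.Finite K ↥(Ps p mu) := by
      have h1 : Ps p mu ≤ H K 2 := inf_le_right.trans (IP_le p 2)
      exact Submodule.finiteDimensional_of_le h1
    apply Submodule.eq_of_le_of_finrank_le hle
    rw [finrank_Ps h.p0 hmu h.t2.m0]
    have h1 : finrank K ↥(mulS rho (H K 1)) = 3 := by rw [finrank_mulS hrne, finrank_H1]
    have h2 : ζ * ζ ∉ mulS rho (H K 1) := by
      intro h3
      obtain ⟨u, _, hu⟩ := mem_mulS.1 h3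
      have h4 : rho ∣ ζ * ζ := ⟨u, hu.symm⟩
      rcases (prime_lin hr hrne).dvd_or_dvd h4 with h5 | h5 <;> exact hrz h5
    have h3 : mulS rho (H K 1) < mulS rho (H K 1) ⊔ span K {ζ * ζ} := by
      refine lt_of_le_of_ne le_sup_left ?_
      intro h4
      apply h2
      rw [h4]
      exact mem_sup_right (mem_span_singleton_self _)
    have : Module.Finite K ↥(mulS rho (H K 1) ⊔ span K {ζ * ζ}) :=
      Submodule.finiteDimensional_of_le hle
    have h4 := Submodule.finrank_lt_finrank_of_lt h3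
    omega
  obtain ⟨v, hv, hpv⟩ := exists_dir h.p0 hr hr0
  exact ⟨rho, ζ, v, ⟨h.p0, hr, hz, hr0, hz0, hli, hN, hPs, hv, hpv,
    fun h2 => two_zero hr hz hli hr0 hz0 hv h2 hpv⟩⟩

namespace RZ

variable {rho ζ : Pol K} {v : Fin 3 → K}

theorem r1 (z : RZ p mu rho ζ v) : rho ≠ 0 := z.li.ne_zero 0

/-- elements of `Ps p mu` have no linear part along `v` -/
theorem dr0 (z : RZ p mu rho ζ v) {f : Pol K} (hf : f ∈ Ps p mu) : dr p v f = 0 := by
  rw [z.hPs] at hf
  obtain ⟨x, hx, y, hy, rfl⟩ := mem_sup.1 hf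
  obtain ⟨s, _, rfl⟩ := mem_mulS.1 hx
  obtain ⟨k, rfl⟩ := mem_span_singleton.1 hy
  rw [map_add, map_smul, dr_mul, dr_mul, z.r0, z.z0, dr_linform p v z.hr, z.rv]
  simp

theorem mem_gen (z : RZ p mu rho ζ v) {d : ℕ} {Y : Submodule K (Pol K)} (hY : Y ≤ H K d)
    (hY1 : H K (d + 1) ≤ H K 1 * Y)
    (hs : ∀ g : Polynomial K, g.natDegree ≤ d → ∃ w ∈ Y, rs p v w = g) {f : Pol K} :
    f ∈ Ps p mu * Y ↔ f ∈ H K (d + 2) ∧ eval p f = 0 ∧ dr p v f = 0 := by
  constructor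
  · intro hf
    refine Submodule.mul_induction_on hf ?_ ?_
    · intro x hx y hy
      refine ⟨?_, ?_, ?_⟩
      · rw [add_comm d 2]
        exact mul_mem_H (mem_IP.1 hx.2).1 (hY hy)
      · rw [map_mul, Ps_eval hx, zero_mul]
      · rw [dr_mul, z.dr0 hx, Ps_eval hx]
        simp
    · rintro x y ⟨h1, h2, h3⟩ ⟨h4, h5, h6⟩
      exact ⟨add_mem h1 h4, by rw [map_add, h2, h5, add_zero], by rw [map_add, h3, h6, add_zero]⟩
  · rintro ⟨h1, h2, h3⟩
    -- the restriction is divisible by `X ^ 2`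
    have hdeg := rs_deg p v h1
    have hX : Polynomial.X ^ 2 ∣ rs p v f := by
      rw [Polynomial.X_pow_dvd_iff]
      intro i hi
      interval_cases i
      · rw [rs_coeff_zero, h2]
      · rw [← dr_apply, h3]
    obtain ⟨G, hG⟩ := hX
    have hGd : G.natDegree ≤ d := by
      by_cases hG0 : G = 0
      · rw [hG0]; simp
      · have h4 : (rs p v f).natDegree = 2 + G.natDegree := by
          rw [hG, Polynomial.natDegree_mul (pow_ne_zero _ Polynomial.X_ne_zero) hG0,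
            Polynomial.natDegree_X_pow]
        omega
    have hzr : rs p v (ζ * ζ) = Polynomial.C (eval v ζ * eval v ζ) * Polynomial.X ^ 2 := by
      rw [map_mul, rs_linform p v z.hz, z.z0]
      simp only [map_zero, zero_add, map_mul]
      ring
    obtain ⟨w, hw, hwG⟩ := hs (Polynomial.C ((eval v ζ * eval v ζ)⁻¹) * G)
      ((Polynomial.natDegree_C_mul_le _ _).trans hGd)
    have hzz : eval v ζ * eval v ζ ≠ 0 := mul_ne_zero z.zv z.zv
    have h5 : rs p v (f - ζ * ζ * w) = 0 := by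
      rw [map_sub, map_mul _ (ζ * ζ) w, hzr, hwG, hG]
      have : Polynomial.C (eval v ζ * eval v ζ) * Polynomial.X ^ 2 *
          (Polynomial.C ((eval v ζ * eval v ζ)⁻¹) * G) =
          Polynomial.C (eval v ζ * eval v ζ * (eval v ζ * eval v ζ)⁻¹) * (Polynomial.X ^ 2 * G) := by
        rw [Polynomial.C_mul (a := eval v ζ * eval v ζ) (b := (eval v ζ * eval v ζ)⁻¹)]
        ring
      rw [this, mul_inv_cancel₀ hzz]
      simp
    have h6 : ζ * ζ * w ∈ H K (d + 2) := by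
      rw [add_comm d 2]
      exact mul_mem_H (mul_mem_H z.hz z.hz) (hY hw)
    have h7 : f - ζ * ζ * w ∈ H K (d + 2) := sub_mem h1 h6
    have h8 := (rs_eq_zero z.pv z.hr z.r1 z.r0 z.rv h7).1 h5
    have h7' : f - ζ * ζ * w ∈ H K (1 + (d + 1)) := by
      have : 1 + (d + 1) = d + 2 := by omega
      rw [this]; exact h7
    obtain ⟨q, hq, hqe⟩ := exists_quot z.hr z.r1 h7' h8
    have h9 : f = rho * q + ζ * ζ * w := by rw [← hqe]; ring
    rw [h9, z.hPs, Submodule.sup_mul]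
    refine add_mem (mem_sup_left ?_) (mem_sup_right ?_)
    · rw [mulS_mul]
      exact mul_mem_mulS (hY1 hq)
    · exact mul_mem_mul (mem_span_singleton_self _) hw

theorem mem5 (z : RZ p mu rho ζ v) {f : Pol K} :
    f ∈ Ps p mu * cubics K ↔ f ∈ H K 5 ∧ eval p f = 0 ∧ dr p v f = 0 :=
  z.mem_gen (d := 3) cubics_le (H_mul_cubics (K := K) 0).ge (fun g hg => rs_surj3 z.pv hg)

theorem mem8 (z : RZ p mu rho ζ v) {f : Pol K} :
    f ∈ Ps p mu * H K 6 ↔ f ∈ H K 8 ∧ eval p f = 0 ∧ dr p v f = 0 :=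
  z.mem_gen (d := 6) le_rfl (by rw [H_mul, show 1 + 6 = 6 + 1 from rfl]) (fun g hg => rs_surj z.pv hg)

theorem mem11 (z : RZ p mu rho ζ v) {f : Pol K} :
    f ∈ Ps p mu * H K 9 ↔ f ∈ H K 11 ∧ eval p f = 0 ∧ dr p v f = 0 :=
  z.mem_gen (d := 9) le_rfl (by rw [H_mul, show 1 + 9 = 9 + 1 from rfl]) (fun g hg => rs_surj z.pv hg)

private theorem fin_IP (n : ℕ) : Module.Finite K ↥(IP p n) :=
  Submodule.finiteDimensional_of_le (IP_le p n)

/-- a jet condition is one more condition -/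
theorem rank_gen (z : RZ p mu rho ζ v) {d : ℕ} {Z : Submodule K (Pol K)}
    (hZ : ∀ f, f ∈ Z ↔ f ∈ H K (d + 2) ∧ eval p f = 0 ∧ dr p v f = 0) :
    finrank K ↥Z + 2 = finrank K ↥(H K (d + 2)) := by
  have e : Z = IP p (d + 2) ⊓ LinearMap.ker (dr p v) := by
    ext f
    rw [hZ, mem_inf, mem_IP, LinearMap.mem_ker]
    tauto
  have := fin_IP (K := K) (p := p) (d + 2)
  obtain ⟨s, hs, hs0⟩ := exists_eval_ne z.p0 (d + 1)
  have h1 : ζ * s ∈ IP p (d + 2) := mem_IP.2 ⟨by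
    have : d + 2 = 1 + (d + 1) := by omega
    rw [this]; exact mul_mem_H z.hz hs, by rw [map_mul, z.z0, zero_mul]⟩
  have h2 : dr p v (ζ * s) ≠ 0 := by
    rw [dr_mul, z.z0, zero_mul, zero_add, dr_linform p v z.hz]
    exact mul_ne_zero z.zv hs0
  have h3 := finrank_inf_ker h1 h2
  have h4 := finrank_IP (K := K) z.p0 (d + 2)
  rw [e]
  omega

theorem rank5 (z : RZ p mu rho ζ v) : finrank K ↥(Ps p mu * cubics K) = 19 := by
  have h1 : finrank K ↥(Ps p mu * cubics K) + 2 = finrank K ↥(H K 5) := z.rank_gen (d := 3) (fun f => z.mem5)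
  have h2 : finrank K ↥(H K 5) = 21 := finrank_H5
  omega

theorem rank8 (z : RZ p mu rho ζ v) : finrank K ↥(Ps p mu * H K 6) = 43 := by
  have h1 : finrank K ↥(Ps p mu * H K 6) + 2 = finrank K ↥(H K 8) := z.rank_gen (d := 6) (fun f => z.mem8)
  have h2 : finrank K ↥(H K 8) = 45 := finrank_H8
  omega

theorem rank11 (z : RZ p mu rho ζ v) : finrank K ↥(Ps p mu * H K 9) = 76 := by
  have h1 : finrank K ↥(Ps p mu * H K 9) + 2 = finrank K ↥(H K 11) := z.rank_gen (d := 9) (fun f => z.mem11)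
  have h2 : finrank K ↥(H K 11) = 78 := finrank_H11
  omega

end RZ

end Pool.Agent.BR
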