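import Pool.Agent.Work.MP_be705b_al.II.R1

set_option autoImplicit false
set_option linter.unusedSectionVars false
set_option linter.unusedVariables false

/-!
# MP_be705b_al, type II, module R2 (M): restriction to a line, continued

PROOFS.
* `rs_root`: `f (a P + b v) = 0`: the binary form `Σ_i c_i s^(n+1-i) u^i` vanishes at `(a, b)`, so it is divisible by `b s - a u`.
  (`a ≠ 0`: `rs P v f` has the root `b / a` (`rs_eval`), `(b - a X)` is `-a (X - b / a)`, `dvd_iff_isRoot`; `a = 0`, `b ≠ 0`: the top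
  coefficient vanishes and `b` is a unit.)
* `dr_comb`, `dr_self`: `dr P v f = Σ_i v_i (∂_i f)(P)`; by induction on `f` with `dr_mul`, `dr_X`, `dr_C` (`dr_comb`), on monomials
  (`dr_self`, Euler).
* `finrank_pt*`: `eval x`, `eval y` are independent functionals on `cubics K` (`sep`) and on `H K 6` (`w * X i ^ 3`).
-/

namespace Pool.Agent.BR

open Submodule Module MvPolynomial

variable {K : Type*} [Field K]

private theorem r2_ker (S : Submodule K (Pol K)) [Module.Finite K ↥S] (φ : Pol K →ₗ[K] K)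
    (h : ∃ f ∈ S, φ f ≠ 0) : finrank K ↥(S ⊓ LinearMap.ker φ) + 1 = finrank K ↥S := by
  set ψ : ↥S →ₗ[K] K := φ.domRestrict S with hψ
  have h1 : finrank K ↥(LinearMap.range ψ) + finrank K ↥(LinearMap.ker ψ) = finrank K ↥S :=
    LinearMap.finrank_range_add_finrank_ker ψ
  have h2 : LinearMap.range ψ = ⊤ := by
    obtain ⟨f, hf, hfp⟩ := h
    rw [eq_top_iff]
    intro c _
    refine ⟨(c / φ f) • ⟨f, hf⟩, ?_⟩
    rw [map_smul, hψ, LinearMap.domRestrict_apply]
    show (c / φ f) • φ f = c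
    rw [smul_eq_mul, div_mul_cancel₀ _ hfp]
  rw [h2, finrank_top, finrank_self] at h1
  have h3 : finrank K ↥(LinearMap.ker ψ) = finrank K ↥(S ⊓ LinearMap.ker φ) := by
    have h4 : S ⊓ LinearMap.ker φ = (LinearMap.ker ψ).map S.subtype := by
      ext f
      rw [mem_inf]
      constructor
      · rintro ⟨hf, hfp⟩
        refine ⟨⟨f, hf⟩, ?_, rfl⟩
        rw [SetLike.mem_coe, LinearMap.mem_ker, hψ, LinearMap.domRestrict_apply]
        exact hfp
      · rintro ⟨g, hg, rfl⟩
        rw [SetLike.mem_coe, LinearMap.mem_ker, hψ, LinearMap.domRestrict_apply] at hg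
        exact ⟨g.2, hg⟩
    rw [h4]
    exact LinearEquiv.finrank_eq (equivMapOfInjective _ S.injective_subtype _)
  omega

private theorem r2_swap {P v : Fin 3 → K} (hPv : LinearIndependent K ![P, v]) :
    LinearIndependent K ![v, P] := by
  rw [LinearIndependent.pair_iff] at hPv ⊢
  intro a b hab
  rw [add_comm] at hab
  exact (hPv b a hab).symm

private theorem r2_ev (x : Fin 3 → K) (f : Pol K) :
    (aeval x : Pol K →ₐ[K] K).toLinearMap f = eval x f := by
  rw [AlgHom.toLinearMap_apply, aeval_eq_eval]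

theorem rs_root (P v : Fin 3 → K) {n : ℕ} {f : Pol K} (hf : f ∈ H K (n + 1)) {a b : K}
    (hab : a ≠ 0 ∨ b ≠ 0) (h0 : eval (a • P + b • v) f = 0) : ∃ g : Polynomial K, g.natDegree ≤ n ∧
      rs P v f = (Polynomial.C b - Polynomial.C a * Polynomial.X) * g := by
  have hdeg := rs_deg P v hf
  rw [rs_eval P v hf] at h0
  by_cases ha : a = 0
  · have hb : b ≠ 0 := hab.resolve_left (not_not.2 ha)
    rw [ha] at h0
    rw [Finset.sum_eq_single (n + 1)] at h0
    · rw [Nat.sub_self, pow_zero, mul_one] at h0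
      have h1 : (rs P v f).coeff (n + 1) = 0 := (mul_eq_zero.1 h0).resolve_right (pow_ne_zero _ hb)
      refine ⟨Polynomial.C b⁻¹ * rs P v f, ?_, ?_⟩
      · refine (Polynomial.natDegree_C_mul_le _ _).trans ?_
        rw [Polynomial.natDegree_le_iff_coeff_eq_zero]
        intro N hN
        by_cases hN' : N = n + 1
        · rw [hN', h1]
        · exact Polynomial.coeff_eq_zero_of_natDegree_lt (by omega)
      · rw [ha, map_zero, zero_mul, sub_zero, ← mul_assoc, ← Polynomial.C_mul, mul_inv_cancel₀ hb,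
          Polynomial.C_1, one_mul]
    · intro i hi hne
      rw [Finset.mem_range] at hi
      rw [zero_pow (by omega), mul_zero, zero_mul]
    · intro hn
      exact absurd (Finset.mem_range.2 (Nat.lt_succ_self _)) hn
  · have h1 : (rs P v f).IsRoot (b / a) := by
      rw [Polynomial.IsRoot, Polynomial.eval_eq_sum_range' (Nat.lt_succ_of_le hdeg)]
      have h2 : a ^ (n + 1) * ∑ i ∈ Finset.range (n + 1).succ, (rs P v f).coeff i * (b / a) ^ i = 0 := by
        rw [← h0, Finset.mul_sum]
        refine Finset.sum_congr rfl fun i hi => ?_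
        rw [Finset.mem_range] at hi
        have h3 : a ^ (n + 1) = a ^ (n + 1 - i) * a ^ i := by
          rw [← pow_add]
          congr 1
          omega
        rw [h3, div_pow]
        field_simp
      exact (mul_eq_zero.1 h2).resolve_left (pow_ne_zero _ ha)
    obtain ⟨g, hg⟩ := Polynomial.dvd_iff_isRoot.2 h1
    refine ⟨Polynomial.C (-a⁻¹) * g, ?_, ?_⟩
    · refine (Polynomial.natDegree_C_mul_le _ _).trans ?_
      by_cases hg0 : g = 0
      · rw [hg0]
        simp
      · rw [hg, Polynomial.natDegree_mul (Polynomial.X_sub_C_ne_zero _) hg0, Polynomial.natDegree_X_sub_C] at hdeg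
        omega
    · rw [hg, ← mul_assoc]
      congr 1
      have h4 : Polynomial.C (b / a) = Polynomial.C b * Polynomial.C a⁻¹ := by
        rw [← Polynomial.C_mul, div_eq_mul_inv]
      have h5 : Polynomial.C a * Polynomial.C a⁻¹ = 1 := by
        rw [← Polynomial.C_mul, mul_inv_cancel₀ ha, Polynomial.C_1]
      rw [h4, map_neg]
      linear_combination (-Polynomial.X) * h5

theorem dr_comb (P u w : Fin 3 → K) (a b : K) (f : Pol K) :
    dr P (a • u + b • w) f = a * dr P u f + b * dr P w f := by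
  induction f using MvPolynomial.induction_on with
  | C c => rw [dr_C, dr_C, dr_C]; ring
  | add f g hf hg => rw [map_add, map_add, map_add, hf, hg]; ring
  | mul_X f i hf =>
    rw [dr_mul, dr_mul, dr_mul, hf, dr_X, dr_X, dr_X]
    simp only [Pi.add_apply, Pi.smul_apply, smul_eq_mul]
    ring

theorem dr_self (P : Fin 3 → K) {n : ℕ} {f : Pol K} (hf : f ∈ H K n) : dr P P f = n * eval P f := by
  have h1 : H K n ≤ LinearMap.ker (dr P P - (n : K) • (aeval P : Pol K →ₐ[K] K).toLinearMap) := by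
    refine H_le fun i j k h => ?_
    rw [LinearMap.mem_ker, LinearMap.sub_apply, LinearMap.smul_apply, r2_ev, dr_apply, sub_eq_zero]
    have h2 : ∀ i : Fin 3, rs P P (X i : Pol K) = Polynomial.C (P i) * (1 + Polynomial.X) := by
      intro i
      rw [rs_X]
      ring
    have h3 : rs P P (X 0 ^ i * X 1 ^ j * X 2 ^ k : Pol K) =
        Polynomial.C (P 0 ^ i * P 1 ^ j * P 2 ^ k) * (1 + Polynomial.X) ^ n := by
      rw [← h]
      simp only [map_mul, map_pow, h2, mul_pow, pow_add]
      ring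
    rw [h3, Polynomial.coeff_C_mul, Polynomial.coeff_one_add_X_pow, Nat.choose_one_right]
    simp only [map_mul, map_pow, eval_X, smul_eq_mul]
    ring
  have h2 := h1 hf
  rw [LinearMap.mem_ker, LinearMap.sub_apply, LinearMap.smul_apply, r2_ev, sub_eq_zero] at h2
  exact h2

private theorem r2_fin : Module.Finite K ↥(cubics K) := Submodule.finiteDimensional_of_le cubics_le

private theorem r2_pt {x : Fin 3 → K} : cubics K ⊓ IP x 3 =
    cubics K ⊓ LinearMap.ker (aeval x : Pol K →ₐ[K] K).toLinearMap := by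
  rw [IP, ← inf_assoc, inf_eq_left.2 cubics_le]

theorem finrank_pt {x : Fin 3 → K} (hx : x ≠ 0) : finrank K ↥(cubics K ⊓ IP x 3) = 8 := by
  have := r2_fin (K := K)
  obtain ⟨w, hw, hw0⟩ := exists_cubic_ne hx
  have h1 := r2_ker (cubics K) (aeval x : Pol K →ₐ[K] K).toLinearMap ⟨w, hw, by rwa [r2_ev]⟩
  rw [finrank_cubics] at h1
  rw [r2_pt]
  exact Nat.succ.inj h1

theorem finrank_pts {x y : Fin 3 → K} (h : LinearIndependent K ![x, y]) :
    finrank K ↥(cubics K ⊓ (IP x 3 ⊓ IP y 3)) = 7 := by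
  have := r2_fin (K := K)
  have hx : x ≠ 0 := h.ne_zero 0
  have e : cubics K ⊓ (IP x 3 ⊓ IP y 3) = (cubics K ⊓ IP x 3) ⊓
      LinearMap.ker (aeval y : Pol K →ₐ[K] K).toLinearMap := by
    rw [← inf_assoc, inf_right_comm, r2_pt (x := y), inf_right_comm]
  have : Module.Finite K ↥(cubics K ⊓ IP x 3) := Submodule.finiteDimensional_of_le inf_le_left
  obtain ⟨w, hw, hw0, hw1⟩ := sep (r2_swap h)
  have h1 := r2_ker (cubics K ⊓ IP x 3) (aeval y : Pol K →ₐ[K] K).toLinearMap
    ⟨w, mem_inf.2 ⟨hw, mem_IP.2 ⟨cubics_le hw, hw1⟩⟩, by rwa [r2_ev]⟩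
  rw [finrank_pt hx] at h1
  rw [e]
  exact Nat.succ.inj h1

theorem finrank_pts6 {x y : Fin 3 → K} (h : LinearIndependent K ![x, y]) :
    finrank K ↥(IP x 6 ⊓ IP y 6) = 26 := by
  have hx : x ≠ 0 := h.ne_zero 0
  have e : IP x 6 ⊓ IP y 6 = IP x 6 ⊓ LinearMap.ker (aeval y : Pol K →ₐ[K] K).toLinearMap := by
    ext f
    rw [mem_inf, mem_inf, mem_IP, mem_IP, LinearMap.mem_ker, r2_ev]
    tauto
  have : Module.Finite K ↥(IP x 6) := Submodule.finiteDimensional_of_le (IP_le x 6)
  obtain ⟨w, hw, hw0, hw1⟩ := sep (r2_swap h)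
  have hw3 := cubics_le hw
  have h1 := r2_ker (IP x 6) (aeval y : Pol K →ₐ[K] K).toLinearMap
    ⟨w * w, mem_IP.2 ⟨mul_mem_H (a := 3) (b := 3) hw3 hw3, by rw [map_mul, hw1, mul_zero]⟩, by
      rw [r2_ev, map_mul]
      exact mul_ne_zero hw0 hw0⟩
  have h2 := finrank_IP hx 6
  rw [finrank_H6] at h2
  rw [e]
  omega

end Pool.Agent.BR
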