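import Pool.Agent.Work.MP_be705b_al.II.BBDefs
import Pool.Agent.Work.MP_be705b_al.II.R2

set_option autoImplicit false
set_option linter.unusedSectionVars false
set_option linter.unusedVariables false

/-!
# MP_be705b_al, type II, block B, module BBLoop (S-M): all loops are `c_*`

PROOFS.
* `loop_isC`: let `j ∈ out U` be a loop, `j ≠ c`.  If `j < c` put `u = t j` (`u (p) = 0` by `hc.2`).  If `c < j` put
  `u = t j - C (t j (p) / t c (p)) * t c` (as `• `), `u (p) = 0`.  In both cases `IsIn K t u j` (`u ∈ V (j+1)`, `u ∉ V j` because `t c ∈ V j` and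
  `t j ∉ V j`, `t_notMem`), `u ∈ cubics K`, so `u * u * u ∈ U * H K 6` and `Fl.g2_cube` says that `j` is no loop.
* `nil_pa`: choose `v` with `mu (v) = 0`, `LinearIndependent ![pa, v]` (`exists_dir`).  `rs := rs pa v`.
  `lam (v) ≠ 0`: else `rs lam = 0` (`rs_linform`), so `mu ∣ lam` (`rs_eq_zero` with `l = mu`, `n = 1`), `lam = mu * C c`, `c ≠ 0`, so `lam ∣ mu`.
  `ψ ∈ Ph pa = Ja K 2` (`Ph_pa`), so (`mem_Ja`, `mem_Ja'`, `sq_add_cr`) `ψ = C α * X 0 ^ 2 + C β * (X 0 * X 1) + C γ * X 1 ^ 2`, so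
  `rs ψ = C k * X ^ 2` (`rs_X`, `pa 0 = pa 1 = 0`), `k ≠ 0` because of `¬ mu ∣ ψ` (`rs_eq_zero`).
  `rs a = X * g` with `natDegree g ≤ 2` (`rs_coeff_zero`, `rs_deg`, `Polynomial.X_dvd_iff`), `rs (lam * ψ) = C (lam (v) * k) * X ^ 3`.
  Choose `G ∈ H K 6` with `rs G = C (lam (v) * k)⁻¹ * g ^ 3` (`rs_surj`).  Then `rs (a * a * a - lam * ψ * G) = 0`, so
  `a * a * a - lam * ψ * G = mu * s` with `s ∈ H K 8` (`rs_eq_zero`, `exists_quot`), and `mu * s ∈ mulS mu (H K 8) = dv mu * H K 6`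
  (`KK_mul6`, `mulS_mul`).
-/

namespace Pool.Agent.BR

open Submodule Module MvPolynomial

variable {K : Type*} [Field K] {t : Fin 9 → Pol K}

theorem Fl.loop_isC (fl : Fl t) {U : Submodule K (Pol K)} (hU : U ≤ cubics K) (hL : LL K t U)
    {p : Fin 3 → K} {c : Fin 9} (hc : IsC t p c)
    (hn : ∀ a ∈ cubics K, eval p a = 0 → a * a * a ∈ U * H K 6) {j : Fin 9}
    (hj : j ∈ out K t U) (hl : Adj K t j j) : j = c := by
  by_contra hne
  rcases lt_or_gt_of_ne hne with h1 | h1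
  · have h2 : IsIn K t (t j) j := ⟨t_mem (Nat.lt_succ_self _), t_notMem fl.li j⟩
    exact fl.g2_cube hU hL h2 hj (hn _ (fl.mem j) (hc.2 j h1)) hl
  · set s : K := eval p (t j) / eval p (t c) with hs
    have hcV : t c ∈ V K t j := t_mem (Fin.lt_def.1 h1)
    have h2 : IsIn K t (t j - s • t c) j := by
      refine ⟨?_, ?_⟩
      · exact sub_mem (t_mem (Nat.lt_succ_self _)) (Submodule.smul_mem _ _ (V_mono (Nat.le_succ _) hcV))
      · intro h3
        have h4 := add_mem h3 (Submodule.smul_mem _ s hcV)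
        rw [sub_add_cancel] at h4
        exact t_notMem fl.li j h4
    have h3 : t j - s • t c ∈ cubics K := sub_mem (fl.mem j) (Submodule.smul_mem _ _ (fl.mem c))
    have h4 : eval p (t j - s • t c) = 0 := by
      rw [map_sub, smul_eval, hs, div_mul_cancel₀ _ hc.1, sub_self]
    exact fl.g2_cube hU hL h2 hj (hn _ h3 h4) hl

private theorem bl_pa_ne : (pa : Fin 3 → K) ≠ 0 := by
  intro h
  have h2 := congrFun h 2
  simp [pa] at h2

theorem nil_pa {lam mu ψ : Pol K} (hlam : lam ∈ H K 1) (l0 : lam ≠ 0) (hmu : mu ∈ H K 1) (m0 : mu ≠ 0)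
    (hl : eval pa lam = 0) (hm : eval pa mu = 0) (nm : ¬ lam ∣ mu) (hψ : ψ ∈ Ph (pa : Fin 3 → K))
    (hd : ¬ mu ∣ ψ) {U : Submodule K (Pol K)} (hU : dv mu ≤ U) (hψU : lam * ψ ∈ U) {a : Pol K}
    (ha : a ∈ cubics K) (h0 : eval pa a = 0) : a * a * a ∈ U * H K 6 := by
  obtain ⟨v, hv, hPv⟩ := exists_dir bl_pa_ne hmu hm
  have haH : a ∈ H K 3 := cubics_le ha
  have hψ2 : ψ ∈ H K 2 := (mem_IP.1 hψ.2).1
  -- the value of `lam` at `v`
  have hlv : eval v lam ≠ 0 := by
    intro h1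
    have h2 : rs pa v lam = 0 := by
      rw [rs_linform _ _ hlam, hl, h1]
      simp
    have h3 : mu ∣ lam := (rs_eq_zero hPv hmu m0 hm hv hlam).1 h2
    obtain ⟨c, hc⟩ := dvd_lin hmu hlam m0 h3
    have hc0 : c ≠ 0 := by
      rintro rfl
      rw [map_zero, zero_mul] at hc
      exact l0 hc
    apply nm
    refine ⟨C c⁻¹, ?_⟩
    rw [hc, mul_assoc, mul_comm mu, ← mul_assoc, ← C_mul, mul_inv_cancel₀ hc0, C_1, one_mul]
  -- the restriction of `ψ`
  have hψJ : ψ ∈ Ja K 2 := by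
    rw [← Ph_pa]
    exact hψ
  rw [mem_Ja] at hψJ
  have hψc : ∃ k : K, rs pa v ψ = Polynomial.C k * Polynomial.X ^ 2 := by
    have d0 : (rs pa v ψ).coeff 0 = 0 := by
      rw [rs_coeff_zero]
      exact hψJ.2.1
    have hvv : v = v 0 • ea + (v 1 • eb + v 2 • pa) := by
      funext i
      fin_cases i <;> simp [ea, eb, pa]
    have d1 : (rs pa v ψ).coeff 1 = 0 := by
      have h1 : dr pa v ψ = v 0 * dr pa ea ψ + v 1 * dr pa eb ψ + v 2 * dr pa pa ψ := by
        conv_lhs => rw [hvv]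
        have e1 := dr_comb pa ea (v 1 • eb + v 2 • pa) (v 0) 1 ψ
        have e2 := dr_comb pa eb pa (v 1) (v 2) ψ
        rw [one_smul, one_mul] at e1
        rw [e1, e2, add_assoc]
      rw [← dr_apply, h1, hψJ.2.2.1, hψJ.2.2.2, dr_self pa hψJ.1, hψJ.2.1]
      ring
    refine ⟨(rs pa v ψ).coeff 2, ?_⟩
    ext n
    rw [Polynomial.coeff_C_mul, Polynomial.coeff_X_pow]
    by_cases hn : n = 2
    · subst hn
      simp
    · rw [if_neg hn, mul_zero]
      by_cases hn0 : n = 0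
      · rw [hn0, d0]
      · by_cases hn1 : n = 1
        · rw [hn1, d1]
        · apply Polynomial.coeff_eq_zero_of_natDegree_lt
          have := rs_deg pa v hψ2
          omega
  obtain ⟨k, hk⟩ := hψc
  have hk0 : k ≠ 0 := by
    rintro rfl
    apply hd
    apply (rs_eq_zero hPv hmu m0 hm hv hψ2).1
    rw [hk]
    simp
  -- the restriction of `a`
  have hXa : Polynomial.X ∣ rs pa v a := by
    rw [Polynomial.X_dvd_iff, rs_coeff_zero]
    exact h0
  obtain ⟨g, hg⟩ := hXa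
  have hgd : g.natDegree ≤ 2 := by
    by_cases hg0 : g = 0
    · rw [hg0]
      simp
    · have h1 := rs_deg pa v haH
      rw [hg, Polynomial.natDegree_X_mul hg0] at h1
      omega
  have hG : (Polynomial.C (eval v lam * k)⁻¹ * g ^ 3).natDegree ≤ 6 := by
    refine (Polynomial.natDegree_C_mul_le _ _).trans ?_
    refine (Polynomial.natDegree_pow_le).trans ?_
    omega
  obtain ⟨G, hGH, hGrs⟩ := rs_surj hPv hG
  have hψ3 : lam * ψ ∈ H K 3 := mul_mem_H hlam hψ2
  have hrs0 : rs pa v (a * a * a - lam * ψ * G) = 0 := by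
    have hne : eval v lam * k ≠ 0 := mul_ne_zero hlv hk0
    have hl1 : rs pa v lam = Polynomial.C (eval v lam) * Polynomial.X := by
      rw [rs_linform _ _ hlam, hl, map_zero, zero_add]
    rw [map_sub, map_mul, map_mul, map_mul, map_mul, hGrs, hk, hl1, hg]
    have h5 : Polynomial.C (eval v lam) * Polynomial.X * (Polynomial.C k * Polynomial.X ^ 2) *
        (Polynomial.C (eval v lam * k)⁻¹ * g ^ 3) =
        Polynomial.C (eval v lam * k * (eval v lam * k)⁻¹) * (Polynomial.X ^ 3 * g ^ 3) := by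
      rw [Polynomial.C_mul, Polynomial.C_mul]
      ring
    rw [h5, mul_inv_cancel₀ hne, Polynomial.C_1]
    ring
  have hH9 : a * a * a - lam * ψ * G ∈ H K 9 := by
    refine sub_mem ?_ ?_
    · exact mul_mem_H (a := 6) (mul_mem_H haH haH) haH
    · exact mul_mem_H (a := 3) hψ3 hGH
  have hdv : mu ∣ a * a * a - lam * ψ * G := (rs_eq_zero hPv hmu m0 hm hv hH9).1 hrs0
  obtain ⟨s, hs, hs'⟩ := exists_quot (a := 1) (b := 8) hmu m0 hH9 hdv
  have h6 : mu * s ∈ U * H K 6 := by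
    have h7 : mu * s ∈ dv mu * H K 6 := by
      rw [dv, mulS_mul, KK_mul6 hmu m0]
      exact mul_mem_mulS hs
    exact mul_le_mul' hU le_rfl h7
  have h7 : lam * ψ * G ∈ U * H K 6 := Submodule.mul_mem_mul hψU hGH
  have h8 : a * a * a = mu * s + lam * ψ * G := by
    rw [← hs', sub_add_cancel]
  rw [h8]
  exact add_mem h6 h7

end Pool.Agent.BR
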