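import Pool.Agent.Work.MP_be705b_al.II.BB4a
import Pool.Agent.Work.MP_be705b_al.II.BBLoop

set_option autoImplicit false
set_option linter.unusedSectionVars false
set_option linter.unusedVariables false

/-!
# MP_be705b_al, type II, block B, module BB4P1 (M): `4 = a`, `mu ∤ t 4`, `mu (p) = 0`, `p = pa` is impossible

PROOF.  `4 = a ∈ inn (mulS lam (Ph p))` (`h.tv.iPh`): `t 4 + v = lam * ψ`, `v ∈ V 4`, `ψ ∈ Ph pa`, `mu ∤ ψ` (`mu ∣ v` by `V4_le_dv`, `mem_dv`).
`U = dv mu ⊔ V 5` (`≤ cubics`, `LL` by `nums4`); `lam * ψ ∈ U`.  `nil_pa` gives `w * w * w ∈ U * H 6` for all `w ∈ cubics` with `w (pa) = 0`.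
Let `IsC t pa c` (`exists_isC`; `pa ≠ 0`).  `T = out U`: all loops of `T` are `c` (`Fl.loop_isC`), `c ∈ T` (`Fl.isC_out`: `dv mu` vanishes at `pa`, `V 5` too: `V 4 ≤ dv mu`,
`t 4 = lam * ψ - v`), `c` is a loop (`isC_loop`).  `gr_loop` with `nums4`: `c` is adjacent to all elements of `T`, the other two, `≠ c`, are not adjacent.
`verts`: `out (V 5) = {b, m, x, y} =: S ⊇ T`.  `c ∈ out (A 1)` (`isC_out`, `A1_eval`), so `m` is not adjacent to `c` (`m_iso`) and `m ∉ T`.  So `T = {b, x, y}` (three elements).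
`c ≠ b` (`out_A1_iff`), so `c ∈ {x, y}`; let `c'` be the other one.  `b ~ c`, `b` not adjacent to `c'` (`gr_loop`), `b` no loop (`loop_isC`).  `nb b S` has two elements (`nums4`) and is
contained in `{m, c}`, so `nb b S = {m, c}`, and `cl 2 {m, c} = 1` (only `c c`: `m` no loop, `m` not adjacent to `c`; `cl_erase` or `cl2_bits`), contradiction to `nums4` (`= 2`).
-/

namespace Pool.Agent.BR

open Submodule Module MvPolynomial

variable {K : Type*} [Field K] {t : Fin 9 → Pol K} {lam lam' mu del del2 : Pol K} {a b m : Fin 9}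

theorem TD.dead4_p1 (h : TD t pa lam lam' mu del del2 a b m) (hd : ¬ mu ∣ t 4)
    (h4 : (4 : Fin 9) = a) (hm : eval pa mu = 0) : False := by
  classical
  have fl := h.fl
  have hT := h.ti
  obtain ⟨n1, n2, hL, n3, n4, n5⟩ := h.nums4 hd h4
  obtain ⟨x, y, hx4, hy4, hxy, hxa, hxb, hxm, hya, hyb, hym, hoD, hoV4⟩ := h.verts
  obtain ⟨c, hc⟩ := fl.exists_isC hT.p0
  have hU : dv mu ⊔ V K t 5 ≤ cubics K := sup_le (dv_le h.hmu) (fl.V_le 5)
  -- the form `lam * ψ`
  have ha : a ∈ inn K t (mulS lam (Ph (pa : Fin 3 → K))) := by rw [h.tv.iPh]; simp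
  rw [← h4] at ha
  obtain ⟨v, hv, hu⟩ := mem_inn.1 ha
  obtain ⟨ψ, hψ, hψe⟩ := mem_mulS.1 hu
  have hv4 : v ∈ V K t 4 := hv
  have hvd : v ∈ dv mu := h.V4_le_dv hv4
  have hdψ : ¬ mu ∣ ψ := by
    intro h1
    apply hd
    have h2 : mu ∣ t 4 + v := by
      rw [← hψe]
      exact dvd_mul_of_dvd_right h1 _
    have h3 := ((mem_dv h.hmu h.mu0).1 hvd).2
    exact (dvd_add_left h3).1 h2
  have hψU : lam * ψ ∈ dv mu ⊔ V K t 5 := by
    apply mem_sup_right
    rw [hψe]
    exact add_mem (t_mem (by simp)) (V_mono (by norm_num) hv4)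
  have hnil : ∀ w ∈ cubics K, eval pa w = 0 → w * w * w ∈ (dv mu ⊔ V K t 5) * H K 6 :=
    fun w hw hw0 => nil_pa h.hlam h.lam0 h.hmu h.mu0 hT.lp hm h.tb.nm hψ hdψ le_sup_left hψU hw hw0
  have hloop : ∀ j ∈ out K t (dv mu ⊔ V K t 5), Adj K t j j → j = c :=
    fun j hj hl => fl.loop_isC hU hL hc hnil hj hl
  have hdm : ∀ u ∈ dv mu, eval pa u = 0 := by
    intro u hu
    obtain ⟨κ, _, rfl⟩ := mem_mulS.1 hu
    rw [map_mul, hm, zero_mul]
  have hV5 : ∀ u ∈ V K t 5, eval pa u = 0 := by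
    intro u hu
    have e5 : V K t 5 = V K t ((4 : Fin 9) : ℕ) ⊔ span K {t 4} := V_succ (K := K) (t := t) (4 : Fin 9)
    rw [e5] at hu
    obtain ⟨y1, hy1, z1, hz1, rfl⟩ := mem_sup.1 hu
    obtain ⟨k, rfl⟩ := mem_span_singleton.1 hz1
    have e1 : eval pa y1 = 0 := hdm _ (h.V4_le_dv hy1)
    have e2 : eval pa (t 4) = 0 := by
      have h1 : t 4 = lam * ψ - v := by rw [hψe]; ring
      rw [h1, map_sub, map_mul, hT.lp, zero_mul, hdm v hvd, sub_zero]
    rw [map_add, e1, smul_eq_C_mul, map_mul, e2, mul_zero, add_zero]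
  have hcT : c ∈ out K t (dv mu ⊔ V K t 5) := fl.isC_out hc (sup_eval hdm hV5)
  have hcc : Adj K t c c := fl.isC_loop hc
  obtain ⟨g1, g2⟩ := gr_loop n3 n4 n5 hcT hloop hcc
  have hcA : c ∈ out K t (A K t 1) := fl.isC_out hc hT.A1_eval
  obtain ⟨-, -, hca, hcb⟩ := (h.out_A1_iff c).1 hcA
  have hmc : ¬ Adj K t m c := h.m_iso hcA
  have hmT : m ∉ out K t (dv mu ⊔ V K t 5) := fun h1 => hmc (adj_symm (g1 m h1))
  have hcm : c ≠ m := fun e => hmT (e ▸ hcT)
  -- `out (V 5) = {b, m, x, y}`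
  have hge : ∀ i : Fin 9, 4 ≤ i → i ≠ 4 → 5 ≤ (i : ℕ) := by
    intro i h1 h2
    have h3 : 4 ≤ (i : ℕ) := h1
    have h6 : (i : ℕ) ≠ 4 := fun e => h2 (Fin.ext e)
    omega
  have hb4 := h.ge4.2.1
  have hm4 := h.ge4.2.2
  have hS : out K t (V K t 5) = {b, m, x, y} := by
    ext i
    rw [fl.mem_out_V]
    have h1 : i ∈ out K t (V K t 4) ↔ i ∈ ({a, b, m, x, y} : Finset (Fin 9)) := by rw [hoV4]
    rw [fl.mem_out_V] at h1
    simp only [Finset.mem_insert, Finset.mem_singleton] at h1 ⊢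
    constructor
    · intro h2
      rcases h1.1 (by omega) with h3 | h3
      · rw [← h4] at h3
        subst h3
        simp at h2
      · exact h3
    · rintro (rfl | rfl | rfl | rfl)
      · exact hge _ hb4 (by rw [h4]; exact h.tv.ab.symm)
      · exact hge _ hm4 (by rw [h4]; exact h.tv.am.symm)
      · exact hge _ hx4 (by rw [h4]; exact hxa)
      · exact hge _ hy4 (by rw [h4]; exact hya)
  have hTS : out K t (dv mu ⊔ V K t 5) ⊆ {b, x, y} := by
    intro i hi
    have h1 := out_mono (le_sup_right : V K t 5 ≤ dv mu ⊔ V K t 5) hi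
    rw [hS] at h1
    simp only [Finset.mem_insert, Finset.mem_singleton] at h1 ⊢
    rcases h1 with h1 | h1 | h1
    · exact Or.inl h1
    · exact absurd (h1 ▸ hi) hmT
    · exact Or.inr h1
  have h3c : ({b, x, y} : Finset (Fin 9)).card = 3 := by
    rw [Finset.card_insert_of_notMem, Finset.card_pair hxy]
    simp only [Finset.mem_insert, Finset.mem_singleton, not_or]
    exact ⟨hxb.symm, hyb.symm⟩
  have hTe : out K t (dv mu ⊔ V K t 5) = {b, x, y} := by
    apply Finset.eq_of_subset_of_card_le hTS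
    rw [h3c, n3]
  have hbT : b ∈ out K t (dv mu ⊔ V K t 5) := by rw [hTe]; simp
  have hxT : x ∈ out K t (dv mu ⊔ V K t 5) := by rw [hTe]; simp
  have hyT : y ∈ out K t (dv mu ⊔ V K t 5) := by rw [hTe]; simp
  have hbc : Adj K t b c := adj_symm (g1 b hbT)
  have hbb : ¬ Adj K t b b := g2 b hbT b hbT hcb.symm hcb.symm
  have key : nb K t b (out K t (V K t 5)) ⊆ {m, c} := by
    intro i hi
    obtain ⟨h1, h2⟩ := mem_nb.1 hi
    rw [hS] at h1
    simp only [Finset.mem_insert, Finset.mem_singleton] at h1 ⊢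
    rcases h1 with h1 | h1 | h1 | h1
    · exact absurd (h1 ▸ h2) hbb
    · exact Or.inl h1
    · right
      by_contra hic
      subst h1
      exact g2 b hbT i hxT hcb.symm hic h2
    · right
      by_contra hic
      subst h1
      exact g2 b hbT i hyT hcb.symm hic h2
  have hE : nb K t b (out K t (V K t 5)) = {m, c} := by
    apply Finset.eq_of_subset_of_card_le key
    rw [n1, Finset.card_pair hcm.symm]
  rw [hE] at n2
  have h2 : cl K t 2 ({m, c} : Finset (Fin 9)) =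
      cl K t 1 (nb K t m {m, c}) + cl K t 2 (({m, c} : Finset (Fin 9)).erase m) :=
    cl_erase 1 (by simp)
  have h3 : nb K t m {m, c} = ∅ := by
    ext i
    rw [mem_nb]
    simp only [Finset.mem_insert, Finset.mem_singleton, Finset.notMem_empty, iff_false, not_and]
    rintro (rfl | rfl)
    · exact h.m_noloop
    · exact hmc
  have h5 : ({m, c} : Finset (Fin 9)).erase m = {c} := by
    rw [Finset.erase_insert]
    simpa using hcm.symm
  rw [h3, h5, cl_empty, n2] at h2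
  have h6 : cl K t 2 ({c} : Finset (Fin 9)) =
      cl K t 1 (nb K t c {c}) + cl K t 2 (({c} : Finset (Fin 9)).erase c) :=
    cl_erase 1 (Finset.mem_singleton_self c)
  rw [Finset.erase_singleton, cl_empty, cl_one] at h6
  have h7 : (nb K t c {c}).card ≤ 1 := by
    have h8 : nb K t c {c} ⊆ {c} := fun i hi => (mem_nb.1 hi).1
    exact (Finset.card_le_card h8).trans (by simp)
  omega

end Pool.Agent.BR
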