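import Pool.Agent.Work.MP_be705b_al.II.BB4a

set_option autoImplicit false
set_option linter.unusedSectionVars false
set_option linter.unusedVariables false

/-!
# MP_be705b_al, type II, block B, module BB4P2 (S-M): `4 = a`, `mu ∤ t 4`, `mu (p) ≠ 0` is impossible

PROOF.  `verts`: `out (V 4) = {a, b, m, x, y}`, so `out (V 5) = {b, m, x, y} =: S` (`4 = a`, `Fl.mem_out_V`).  `b` is no loop (`p2_b`).  `m` is no loop and not adjacent to `x, y`
(`m_iso`; `x, y ∈ out (dv lam) ⊆ out (A 1)`).
`nb b S = {u, v} ⊆ {m, x, y}` has two elements and `cl 2 = 2` (`nums4`).  If `m ∈ nb b S`, `nb b S = {m, w}` with `w ∈ {x, y}`, `cl 2 {m, w} ≤ 1` (only `w w`).  So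
`nb b S = {x, y}`, `b ~ x, b ~ y`, `m` is not adjacent to `b`, `cl 2 {x, y} = 2`.
`T = out (dv mu ⊔ V 5) ⊆ S` (`out_mono`), three elements, `cl 2 T = cl 3 T = 3`.  `m ∈ T` is impossible: `m` has no neighbours in `S` (`gr_iso`).  So `T = {b, x, y}` and
`cl 2 T = card {x, y} + cl 2 {x, y} = 4`.  Contradiction.
(Alternatively `cl4_bits`, `cl3_bits`, `cl2_bits` and `decide`.)
-/

namespace Pool.Agent.BR

open Submodule Module MvPolynomial

variable {K : Type*} [Field K] {t : Fin 9 → Pol K} {p : Fin 3 → K} {lam lam' mu del del2 : Pol K}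
  {a b m : Fin 9}

theorem TD.dead4_p2 (h : TD t p lam lam' mu del del2 a b m) (hd : ¬ mu ∣ t 4)
    (h4 : (4 : Fin 9) = a) (hm : eval p mu ≠ 0) : False := by
  have fl := h.fl
  obtain ⟨x, y, hx4, hy4, hxy, hxa, hxb, hxm, hya, hyb, hym, hD, hV4⟩ := h.verts
  obtain ⟨n1, n2, hL, c1, c2, c3⟩ := h.nums4 hd h4
  have hbl := h.p2_b hm
  have hab := h.tv.ab
  have ham := h.tv.am
  have hbm := h.tv.bm
  -- the vertices `≥ 5`
  have hS : out K t (V K t 5) = {b, m, x, y} := by
    ext i
    have h1 : i ∈ out K t (V K t 5) ↔ i ∈ out K t (V K t 4) ∧ i ≠ 4 := by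
      rw [fl.mem_out_V, fl.mem_out_V]
      constructor
      · intro h2
        refine ⟨by omega, ?_⟩
        rintro rfl
        exact absurd h2 (by decide)
      · rintro ⟨h2, h3⟩
        have h5 : (i : ℕ) ≠ 4 := fun h6 => h3 (Fin.ext h6)
        omega
    rw [h1, hV4, h4]
    simp only [Finset.mem_insert, Finset.mem_singleton]
    constructor
    · rintro ⟨h2, h3⟩
      exact h2.resolve_left h3
    · intro h2
      refine ⟨Or.inr h2, ?_⟩
      rcases h2 with rfl | rfl | rfl | rfl
      · exact hab.symm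
      · exact ham.symm
      · exact hxa
      · exact hya
  have hmm := h.m_noloop
  have hmx : ¬ Adj K t m x := by
    refine h.m_iso ((h.out_A1_iff x).2 ⟨?_, ?_, hxa, hxb⟩)
    · rintro rfl
      exact absurd hx4 (by decide)
    · rintro rfl
      exact absurd hx4 (by decide)
  have hmy : ¬ Adj K t m y := by
    refine h.m_iso ((h.out_A1_iff y).2 ⟨?_, ?_, hya, hyb⟩)
    · rintro rfl
      exact absurd hy4 (by decide)
    · rintro rfl
      exact absurd hy4 (by decide)
  rw [hS] at n1 n2
  -- the neighbours of `b`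
  by_cases hmb : Adj K t b m
  · -- `nb b S = {m, w}`
    have hex : ∃ w, (w = x ∨ w = y) ∧ nb K t b {b, m, x, y} = {m, w} := by
      obtain ⟨w, hw⟩ : ∃ w, (nb K t b {b, m, x, y}).erase m = {w} := by
        rw [← Finset.card_eq_one, Finset.card_erase_of_mem (mem_nb.2 ⟨by simp, hmb⟩), n1]
      have hw1 : w ∈ (nb K t b {b, m, x, y}).erase m := by rw [hw]; simp
      obtain ⟨hw2, hw3⟩ := Finset.mem_erase.1 hw1
      obtain ⟨hw4, hw5⟩ := mem_nb.1 hw3
      refine ⟨w, ?_, ?_⟩
      · simp only [Finset.mem_insert, Finset.mem_singleton] at hw4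
        rcases hw4 with rfl | rfl | rfl | rfl
        · exact absurd hw5 hbl
        · exact absurd rfl hw2
        · exact Or.inl rfl
        · exact Or.inr rfl
      · rw [← Finset.insert_erase (mem_nb.2 ⟨by simp, hmb⟩ : m ∈ nb K t b {b, m, x, y}), hw]
    obtain ⟨w, hw, he⟩ := hex
    have hmw : ¬ Adj K t m w := by
      rcases hw with rfl | rfl
      · exact hmx
      · exact hmy
    have hne : m ≠ w := by
      rcases hw with rfl | rfl
      · exact hxm.symm
      · exact hym.symm
    rw [he, cl2_bits hne] at n2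
    rw [← adjB_false] at hmw hmm
    rw [hmw, hmm] at n2
    generalize adjB K t w w = z at n2
    revert n2
    revert z
    decide
  · have hsub : nb K t b {b, m, x, y} ⊆ {x, y} := by
      intro u hu
      obtain ⟨hu1, hu2⟩ := mem_nb.1 hu
      simp only [Finset.mem_insert, Finset.mem_singleton] at hu1 ⊢
      rcases hu1 with rfl | rfl | rfl | rfl
      · exact absurd hu2 hbl
      · exact absurd hu2 hmb
      · exact Or.inl rfl
      · exact Or.inr rfl
    have heq : nb K t b {b, m, x, y} = {x, y} := by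
      refine Finset.eq_of_subset_of_card_le hsub ?_
      rw [n1]
      exact Finset.card_le_two
    have hbx : Adj K t b x := (mem_nb.1 (by rw [heq]; simp : x ∈ nb K t b {b, m, x, y})).2
    have hby : Adj K t b y := (mem_nb.1 (by rw [heq]; simp : y ∈ nb K t b {b, m, x, y})).2
    have hTs : out K t (dv mu ⊔ V K t 5) ⊆ {b, m, x, y} := by
      rw [← hS]
      exact out_mono le_sup_right
    have hmT : m ∉ out K t (dv mu ⊔ V K t 5) := by
      intro hmT
      refine gr_iso c1 c2 c3 hmT ?_
      rw [Finset.eq_empty_iff_forall_notMem]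
      intro u hu
      obtain ⟨hu1, hu2⟩ := mem_nb.1 hu
      have hu3 := hTs hu1
      simp only [Finset.mem_insert, Finset.mem_singleton] at hu3
      rcases hu3 with rfl | rfl | rfl | rfl
      · exact hmb (adj_symm hu2)
      · exact hmm hu2
      · exact hmx hu2
      · exact hmy hu2
    have hT : out K t (dv mu ⊔ V K t 5) = {b, x, y} := by
      refine Finset.eq_of_subset_of_card_le ?_ ?_
      · intro u hu
        have hu3 := hTs hu
        simp only [Finset.mem_insert, Finset.mem_singleton] at hu3 ⊢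
        rcases hu3 with rfl | rfl | rfl | rfl
        · exact Or.inl rfl
        · exact absurd hu hmT
        · exact Or.inr (Or.inl rfl)
        · exact Or.inr (Or.inr rfl)
      · rw [c1]
        exact Finset.card_le_three
    rw [heq, cl2_bits hxy] at n2
    rw [hT, cl3_bits hxb.symm hyb.symm hxy] at c2
    rw [← adjB_true] at hbx hby
    rw [← adjB_false] at hbl
    rw [hbx, hby, hbl] at c2
    generalize adjB K t x x = z1 at n2 c2
    generalize adjB K t x y = z2 at n2 c2
    generalize adjB K t y y = z3 at n2 c2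
    revert n2 c2
    revert z1 z2 z3
    decide

end Pool.Agent.BR
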