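import Pool.Agent.Work.MP_be705b_al.II.BBA3

set_option autoImplicit false
set_option linter.unusedSectionVars false
set_option linter.unusedVariables false

/-!
# MP_be705b_al, type II, block B, module BB4a (M): vertex `4` in `{a, b}`, `mu ∤ t 4`

PROOFS.
* `loop4`: if `4` is no loop then `t 4 * t 4 ∈ V 4 * cubics` (`Fl.not_loop_iff`), all its elements are divisible by `mu` (`V4_le_dv`, `mulS`), so `mu ∣ t 4` (`prime_lin`).
* `form4`: `4 ∈ inn (A 1)` (`h.tv.iA`), so `t 4 + v = lam * κ`, `v ∈ V 4`, `κ ∈ Fp p` (`mem_inn`, `TII.A1`), and `mu ∤ κ` since `mu ∣ v` (`V4_le_dv`, `mem_dv`).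
* `A4`: `≤`: `TB.A_le`.  `≥`: for `f = mu * κ' ∈ dv mu`: `f * t 4 = f * (lam * κ) - f * v`, `f * (lam * κ) = lam * mu * (κ * κ') ∈ V 4 * cubics` (`lammu`), `f * v ∈ V 4 * cubics`; `Fl.mem_A`.
* `eq_a4`: suppose `4 = b`.  If `mu (p) ≠ 0`: `p2_b` against `loop4`.  If `mu (p) = 0`: `dv mu ≤ A 3` (`p1_dv`).  `U = A 3 ∈ LL` (`llA`), `V 4 ≤ U`, `t 4 ∉ U` because
  `4 = b ∈ out (A 3)` (`b_out`, `t_notMem_of_out`).  `t 4 * t 4 ∈ A 3 * cubics`: `t 4 = lam * κ - v`, `v ∈ A 3`: `t 4 * t 4 = lam * (lam * (κ * κ)) - v * (..)`, `lam_A3` with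
  `s = lam * (κ * κ)`, `s (p) = 0`.  So (`Fl.col1`) `t 4 ∈ A 3 ⊔ A 4 = A 3` (`A4`), contradiction.
* `nums4` (`4 = a`): `out (A 4) = nb 4 (out (V 4))` (`outA`), `A 4 = dv mu`; `dv mu * cubics = mulS mu (H K 5)` etc. (`KK_mul`, `KK_mul6`), `finrank (dv mu) = 5` (`finrank_KK`), so with
  `llA 4`, `Fl.cl1, cl2, cl3`: `out (dv mu)` has cliques `4, 7, 10`.
  `S = out (V 4)`, `S' = out (V 5) = S.erase 4` (`Fl.mem_out_V`), `out (V 4 ⊔ A 1) = (S.erase a).erase b = S'.erase b` (`out_V4A1`).  `cl_erase`: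
  `cl 2 S = card (nb 4 S) + cl 2 S' = 4 + card (nb b S') + cl 2 (S'.erase b)`, `cl 3 S = 7 + cl 2 (nb b S') + cl 3 (S'.erase b)`, and `cl_V4`: `4 + card (nb b S') = 6`,
  `7 + cl 2 (nb b S') = 9`.
  `U' = dv mu ⊔ V 5`: in `LL` (`llSupV`, `llA 4`), `out U' = (out (dv mu)).erase 4` (`Fl.out_sup_V`, `V 4 ≤ dv mu`), and `nb 4 (out (dv mu)) = out (dv mu)` (`out (dv mu) = nb 4 (out (V 4))`), so by
  `cl_erase`: `card = 3`, `cl 2 = 7 - 4`, `cl 3 = 10 - 7`.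
-/

namespace Pool.Agent.BR

open Submodule Module MvPolynomial

variable {K : Type*} [Field K] {t : Fin 9 → Pol K} {p : Fin 3 → K} {lam lam' mu del del2 : Pol K}
  {a b m : Fin 9}

namespace TD

private theorem b4_dvd (h : TD t p lam lam' mu del del2 a b m) {f : Pol K} (hf : f ∈ V K t 4) :
    mu ∣ f := ((mem_dv h.hmu h.mu0).1 (h.V4_le_dv hf)).2

private theorem b4_dvdc (h : TD t p lam lam' mu del del2 a b m) {f : Pol K}
    (hf : f ∈ V K t 4 * cubics K) : mu ∣ f := by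
  refine Submodule.mul_induction_on hf ?_ ?_
  · intro v hv w _
    exact (h.b4_dvd hv).mul_right w
  · intro x y hx hy
    exact dvd_add hx hy

theorem loop4 (h : TD t p lam lam' mu del del2 a b m) (hd : ¬ mu ∣ t 4) : Adj K t 4 4 := by
  by_contra hcon
  rw [h.fl.not_loop_iff] at hcon
  have h1 := h.b4_dvdc hcon
  exact hd (((prime_lin h.hmu h.mu0).dvd_or_dvd h1).elim id id)

theorem form4 (h : TD t p lam lam' mu del del2 a b m) (hd : ¬ mu ∣ t 4)
    (h4 : (4 : Fin 9) = a ∨ (4 : Fin 9) = b) :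
    ∃ v ∈ V K t 4, ∃ κ ∈ Fp p, t 4 + v = lam * κ ∧ ¬ mu ∣ κ := by
  have h1 : (4 : Fin 9) ∈ inn K t (A K t 1) := by
    rw [h.tv.iA]
    simp only [Finset.mem_insert, Finset.mem_singleton]
    tauto
  obtain ⟨v, hv, hv'⟩ := mem_inn.1 h1
  rw [h.ti.A1] at hv'
  obtain ⟨κ, hκ, he⟩ := mem_mulS.1 hv'
  refine ⟨v, hv, κ, hκ, he.symm, fun hdv => hd ?_⟩
  have h2 : mu ∣ t 4 + v := by
    rw [← he]
    exact hdv.mul_left lam
  exact (dvd_add_left (h.b4_dvd hv)).1 h2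

theorem A4 (h : TD t p lam lam' mu del del2 a b m) (hd : ¬ mu ∣ t 4)
    (h4 : (4 : Fin 9) = a ∨ (4 : Fin 9) = b) : A K t 4 = dv mu := by
  obtain ⟨v, hv, κ, hκ, he, -⟩ := h.form4 hd h4
  apply le_antisymm
  · exact h.tb.A_le (j := 4) h.V4_le_dv hd
  · intro f hf
    obtain ⟨κ', hκ', rfl⟩ := mem_mulS.1 hf
    have hfc : mu * κ' ∈ cubics K := mul_KK_mem h.hmu hκ'
    rw [h.fl.mem_A]
    refine ⟨hfc, ?_⟩
    have e1 : mu * κ' * t 4 = lam * mu * (κ' * κ) - v * (mu * κ') := by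
      have e2 : t 4 = lam * κ - v := by rw [← he]; ring
      rw [e2]
      ring
    rw [e1]
    refine sub_mem (h.lammu ?_) (mul_mem_mul hv hfc)
    exact mul_mem_H (KK_le _ hκ') (Fp_le p hκ)

private theorem bb_A1le' (h : TD t p lam lam' mu del del2 a b m) : A K t 1 ≤ cubics K :=
  h.fl.A_le 1

theorem eq_a4 (h : TD t p lam lam' mu del del2 a b m) (hd : ¬ mu ∣ t 4)
    (h4 : (4 : Fin 9) = a ∨ (4 : Fin 9) = b) : (4 : Fin 9) = a := by
  rcases h4 with h4 | h4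
  · exact h4
  exfalso
  obtain ⟨v, hv, κ, hκ, he, -⟩ := h.form4 hd (Or.inr h4)
  by_cases hm : eval p mu = 0
  · have hA3 : A K t 3 ≤ cubics K := h.fl.A_le 3
    have hV4 : V K t ((4 : Fin 9) : ℕ) ≤ A K t 3 := h.V4_le_dv.trans (h.p1_dv hm)
    have h5 : (4 : Fin 9) ∈ out K t (A K t 3) := by
      have := h.b_out
      rwa [← h4] at this
    have h6 : t 4 ∉ A K t 3 := t_notMem_of_out h5
    have h7 : t 4 * t 4 ∈ A K t 3 * cubics K := by
      have e1 : t 4 * t 4 = lam * (lam * (κ * κ)) - v * (t 4 + lam * κ) := by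
        have e2 : t 4 = lam * κ - v := by rw [← he]; ring
        rw [e2]
        ring
      rw [e1]
      have hκ2 := Fp_le p hκ
      have hlk : lam * κ ∈ cubics K := h.bb_A1le' (by rw [h.ti.A1]; exact mul_mem_mulS hκ)
      refine sub_mem ((h.lam_A3 ?_).2 ?_) (mul_mem_mul (hV4 hv) (add_mem (h.fl.mem 4) hlk))
      · exact mul_mem_H h.hlam (mul_mem_H hκ2 hκ2)
      · rw [map_mul, h.ti.lp, zero_mul]
    have h8 := h.fl.col1 hA3 (h.fl.llA 3) hV4 h6 (h.fl.mem 4) h7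
    rw [h.A4 hd (Or.inr h4), sup_eq_left.2 (h.p1_dv hm)] at h8
    exact h6 h8
  · have h5 := h.p2_b hm
    rw [← h4] at h5
    exact h5 (h.loop4 hd)

theorem nums4 (h : TD t p lam lam' mu del del2 a b m) (hd : ¬ mu ∣ t 4) (h4 : (4 : Fin 9) = a) :
    (nb K t b (out K t (V K t 5))).card = 2 ∧ cl K t 2 (nb K t b (out K t (V K t 5))) = 2 ∧
    LL K t (dv mu ⊔ V K t 5) ∧ (out K t (dv mu ⊔ V K t 5)).card = 3 ∧
    cl K t 2 (out K t (dv mu ⊔ V K t 5)) = 3 ∧ cl K t 3 (out K t (dv mu ⊔ V K t 5)) = 3 := by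
  have hA4 := h.A4 hd (Or.inl h4)
  have hdv : dv mu ≤ cubics K := dv_le h.hmu
  have hll : LL K t (dv mu) := by
    rw [← hA4]
    exact h.fl.llA 4
  have hout : out K t (dv mu) = nb K t 4 (out K t (V K t 4)) := by
    rw [← hA4]
    exact h.fl.outA 4
  have c1 := h.fl.cl1 hdv hll
  have c2 := h.fl.cl2 hdv hll
  have c3 := h.fl.cl3 hdv hll
  have d1 : finrank K ↥(dv mu) = 5 := by
    rw [dv, finrank_mulS h.mu0, finrank_KK h.hmu h.mu0]
  have d2 : finrank K ↥(dv mu * cubics K) = 21 := by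
    rw [dv, mulS_mul, KK_mul h.hmu h.mu0, finrank_mulS h.mu0, finrank_H5]
  have d3 : finrank K ↥(dv mu * H K 6) = 45 := by
    rw [dv, mulS_mul, KK_mul6 h.hmu h.mu0, finrank_mulS h.mu0, finrank_H8]
  rw [d1] at c1
  rw [d2] at c2
  rw [d3] at c3
  have hS4 : (4 : Fin 9) ∈ out K t (V K t 4) := (h.fl.mem_out_V 4 4).2 (le_refl _)
  have hS' : out K t (V K t 5) = (out K t (V K t 4)).erase 4 := by
    ext i
    rw [Finset.mem_erase, h.fl.mem_out_V, h.fl.mem_out_V]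
    constructor
    · intro hi
      refine ⟨?_, by omega⟩
      rintro rfl
      exact absurd hi (by decide)
    · rintro ⟨h1, h2⟩
      have h3 : (i : ℕ) ≠ 4 := fun h5 => h1 (Fin.ext h5)
      omega
  have hb4 : (4 : ℕ) ≤ (b : ℕ) := h.ge4.2.1
  have hbS : b ∈ out K t (V K t 5) := by
    rw [hS', Finset.mem_erase, h.fl.mem_out_V]
    refine ⟨?_, hb4⟩
    rw [h4]
    exact h.tv.ab.symm
  have hout4 : out K t (V K t 4 ⊔ A K t 1) = (out K t (V K t 5)).erase b := by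
    rw [h.out_V4A1, hS', h4]
  obtain ⟨v1, v2⟩ := h.cl_V4
  rw [hout4] at v1 v2
  have e1 : cl K t 2 (out K t (V K t 4)) = cl K t 1 (nb K t 4 (out K t (V K t 4))) +
    cl K t 2 ((out K t (V K t 4)).erase 4) := cl_erase (K := K) (t := t) 1 hS4
  have e2 : cl K t 3 (out K t (V K t 4)) = cl K t 2 (nb K t 4 (out K t (V K t 4))) +
    cl K t 3 ((out K t (V K t 4)).erase 4) := cl_erase (K := K) (t := t) 2 hS4
  have e3 : cl K t 2 (out K t (V K t 5)) = cl K t 1 (nb K t b (out K t (V K t 5))) +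
    cl K t 2 ((out K t (V K t 5)).erase b) := cl_erase (K := K) (t := t) 1 hbS
  have e4 : cl K t 3 (out K t (V K t 5)) = cl K t 2 (nb K t b (out K t (V K t 5))) +
    cl K t 3 ((out K t (V K t 5)).erase b) := cl_erase (K := K) (t := t) 2 hbS
  rw [cl_one, ← hout, ← hS'] at e1
  rw [← hout, ← hS'] at e2
  rw [cl_one] at e3
  have h4o : (4 : Fin 9) ∈ out K t (dv mu) := by
    rw [hout, mem_nb]
    exact ⟨hS4, h.loop4 hd⟩
  have hnb : nb K t 4 (out K t (dv mu)) = out K t (dv mu) := by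
    ext i
    rw [mem_nb, hout, mem_nb]
    tauto
  have hU' : out K t (dv mu ⊔ V K t 5) = (out K t (dv mu)).erase 4 := by
    ext i
    rw [h.fl.out_sup_V, Finset.mem_erase]
    constructor
    · rintro ⟨h1, h2⟩
      refine ⟨?_, h1⟩
      rintro rfl
      exact absurd h2 (by decide)
    · rintro ⟨h1, h2⟩
      refine ⟨h2, ?_⟩
      have h3 : (i : ℕ) ≠ 4 := fun h5 => h1 (Fin.ext h5)
      rw [hout, mem_nb, h.fl.mem_out_V] at h2
      omega
  have f1 : cl K t 2 (out K t (dv mu)) = cl K t 1 (nb K t 4 (out K t (dv mu))) +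
    cl K t 2 ((out K t (dv mu)).erase 4) := cl_erase (K := K) (t := t) 1 h4o
  have f2 : cl K t 3 (out K t (dv mu)) = cl K t 2 (nb K t 4 (out K t (dv mu))) +
    cl K t 3 ((out K t (dv mu)).erase 4) := cl_erase (K := K) (t := t) 2 h4o
  have f0 := Finset.card_erase_of_mem h4o
  rw [hnb, ← hU', cl_one] at f1
  rw [hnb, ← hU'] at f2
  rw [← hU'] at f0
  refine ⟨by omega, by omega, h.fl.llSupV hdv hll 5, by omega, by omega, by omega⟩

end TD

end Pool.Agent.BR
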