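import Pool.Agent.Work.MP_be705b_al.II.BBDefs

set_option autoImplicit false
set_option linter.unusedSectionVars false
set_option linter.unusedVariables false

/-!
# MP_be705b_al, type II, block B, module BBLin (S-M): the linear part at `p` of an element of `Ps p mu`

PROOFS.
* `N_unique`: with `u = lc mu ≠ 0`, `v = lc l`: `hat (mu * l) = ![u 1 v 2 + u 2 v 1, u 0 v 2 + u 2 v 0, u 0 v 1 + u 1 v 0] = 0`
  (`lin_lc`, `hat_lin_mul`, `mem_N`).  Some `u i ≠ 0`; then the two other coordinates of `v` are determined by `v i`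
  (e.g. `i = 0`: `v 1 = - u 1 v 0 / u 0`, `v 2 = - u 2 v 0 / u 0`), the same for `v' = lc l' ≠ 0`, so `v' i ≠ 0` and `v = (v i / v' i) v'`
  (`lin_smul`).
* `lin_part`: `f ∈ H K 2`, `f (p) = 0`, so `f = lam * m1 + lam' * m2`, `m1, m2 ∈ H K 1` (`TII.L_mul` with `d = 1`; members of
  `span {lam, lam'} * H K 1`: `mem_span_pair`-style, `Submodule.span_mul..` or induction `Submodule.mul_induction_on`).  Put
  `l = C (m1 (p)) * lam + C (m2 (p)) * lam'`.  `dr p u f = lam (u) m1 (p) + lam' (u) m2 (p) = l (u)` (`dr_mul`, `dr_linform`,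
  `lam (p) = lam' (p) = 0`).  `mu * l ∈ N K`: fix `ν ∈ H K 1` with `ν (p) = 1` (`exists_eval_ne`, scaled).  `T(mu, L, L) = 0` for
  `L = span {lam, lam'}`, i.e. `cf 1 1 1 (mu * l1 * l2) = 0` for `l1, l2 ∈ L` (`muL_le`: `mu * l1 ∈ Ph p ≤ Fp p`, and
  `Fp_le_KK`).  `m_i = C (m_i (p)) * ν + l_i` with `l_i ∈ L` (`mem_L`), so `0 = cf 1 1 1 (mu * f) = cf 1 1 1 (mu * l * ν)`
  (`f ∈ KK mu`, `mem_KK'`, `mem_cubics`), so `cf 1 1 1 (ν' * (mu * l)) = 0` for all `ν' ∈ H K 1` (`ν' = C (ν' (p)) * ν + l'`, `l' ∈ L`), and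
  `mem_N_of_mul` (V2.lean) gives `mu * l ∈ N K`.
-/

namespace Pool.Agent.BR

open Submodule Module MvPolynomial

variable {K : Type*} [Field K] {t : Fin 9 → Pol K} {p : Fin 3 → K} {lam lam' mu : Pol K}

private theorem hat_rel {u v : Fin 3 → K} (h : lin u * lin v ∈ N K) (i j : Fin 3) (hij : i ≠ j) :
    u i * v j + u j * v i = 0 := by
  have h1 := hat_of_N h
  rw [hat_lin_mul] at h1
  have e0 := congrFun h1 0
  have e1 := congrFun h1 1
  have e2 := congrFun h1 2
  simp only [Pi.zero_apply, Matrix.cons_val_zero, Matrix.cons_val_one, Matrix.cons_val] at e0 e1 e2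
  fin_cases i <;> fin_cases j <;> simp only [Fin.mk_zero, Fin.mk_one, Fin.reduceFinMk] at hij ⊢ <;>
    first
      | exact absurd rfl hij
      | linear_combination e0
      | linear_combination e1
      | linear_combination e2

theorem N_unique {mu l l' : Pol K} (hmu : mu ∈ H K 1) (m0 : mu ≠ 0) (hl : l ∈ H K 1) (hl' : l' ∈ H K 1)
    (h0 : l' ≠ 0) (h1 : mu * l ∈ N K) (h2 : mu * l' ∈ N K) : ∃ c : K, l = C c * l' := by
  rw [← lin_lc hmu, ← lin_lc hl] at h1
  rw [← lin_lc hmu, ← lin_lc hl'] at h2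
  have r1 := hat_rel h1
  have r2 := hat_rel h2
  obtain ⟨i, hi⟩ : ∃ i, lc mu i ≠ 0 := by
    by_contra hcon
    push Not at hcon
    apply m0
    rw [← lin_lc hmu, lin_eq_zero]
    exact funext hcon
  have hv : lc l' i ≠ 0 := by
    intro hv
    apply h0
    rw [← lin_lc hl', lin_eq_zero]
    funext j
    by_cases hij : i = j
    · rw [← hij, hv]
      rfl
    · have := r2 i j hij
      rw [hv, mul_zero, add_zero] at this
      exact (mul_eq_zero.1 this).resolve_left hi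
  refine ⟨lc l i / lc l' i, ?_⟩
  rw [← lin_lc hl, ← lin_lc hl', ← lin_smul, lc_lin, lc_lin]
  congr 1
  funext j
  rw [Pi.smul_apply, smul_eq_mul, div_mul_eq_mul_div, eq_div_iff hv]
  by_cases hij : i = j
  · rw [← hij]
  · apply mul_left_cancel₀ hi
    linear_combination lc l' i * r1 i j hij - lc l i * r2 i j hij

theorem TII.lin_part (h : TII t p lam lam' mu) {f : Pol K} (hf : f ∈ Ps p mu) :
    ∃ l ∈ H K 1, eval p l = 0 ∧ mu * l ∈ N K ∧ ∀ u : Fin 3 → K, dr p u f = eval u l := by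
  obtain ⟨hfK, hfI⟩ := mem_inf.1 hf
  have hla := h.t2.ha
  have hlb := h.t2.hb
  have hmu := h.t2.hm
  have hfc := mul_KK_mem hmu hfK
  have h1 := h.L_mul 1
  rw [← h1, span_insert, Submodule.sup_mul, span_mul_eq', span_mul_eq'] at hfI
  obtain ⟨x, hx, y, hy, hxy⟩ := mem_sup.1 hfI
  obtain ⟨m1, hm1, rfl⟩ := mem_mulS.1 hx
  obtain ⟨m2, hm2, rfl⟩ := mem_mulS.1 hy
  have hsm : ∀ (a : K) (g : Pol K), g ∈ H K 1 → C a * g ∈ H K 1 := by
    intro a g hg
    rw [← smul_eq_C_mul]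
    exact smul_mem _ _ hg
  have hlH : C (eval p m1) * lam + C (eval p m2) * lam' ∈ H K 1 := add_mem (hsm _ _ hla) (hsm _ _ hlb)
  have hl0 : eval p (C (eval p m1) * lam + C (eval p m2) * lam') = 0 := by
    rw [map_add, map_mul, map_mul, h.lp, h.lp', mul_zero, mul_zero, add_zero]
  -- products of `mu` with two linear forms through `p`
  have hLL : ∀ l1 l2 : Pol K, l1 ∈ H K 1 → eval p l1 = 0 → l2 ∈ H K 1 → eval p l2 = 0 →
      mu * l1 * l2 ∈ cubics K := by
    intro l1 l2 h2 h3 h4 h5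
    have h6 : mu * l1 ∈ Fp p := (h.muL_le (mul_mem_mulS (h.mem_L.2 ⟨h2, h3⟩))).1
    have h7 := mul_KK_mem h4 (Fp_le_KK h4 h5 h6)
    rwa [mul_comm] at h7
  obtain ⟨ν', hν', hν'0⟩ := exists_eval_ne h.p0 1
  obtain ⟨ν, hν, hν1⟩ : ∃ ν ∈ H K 1, eval p ν = 1 := by
    refine ⟨C (eval p ν')⁻¹ * ν', hsm _ _ hν', ?_⟩
    rw [map_mul, eval_C, inv_mul_cancel₀ hν'0]
  have hdec : ∀ g ∈ H K 1, g - C (eval p g) * ν ∈ H K 1 ∧ eval p (g - C (eval p g) * ν) = 0 := by
    intro g hg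
    refine ⟨sub_mem hg (hsm _ _ hν), ?_⟩
    rw [map_sub, map_mul, eval_C, hν1, mul_one, sub_self]
  obtain ⟨a1, a2⟩ := hdec m1 hm1
  obtain ⟨b1, b2⟩ := hdec m2 hm2
  have key : mu * (C (eval p m1) * lam + C (eval p m2) * lam') * ν ∈ cubics K := by
    have e1 := hLL lam _ hla h.lp a1 a2
    have e2 := hLL lam' _ hlb h.lp' b1 b2
    have e3 := sub_mem (sub_mem hfc e1) e2
    have e4 : mu * f - mu * lam * (m1 - C (eval p m1) * ν) - mu * lam' * (m2 - C (eval p m2) * ν) =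
        mu * (C (eval p m1) * lam + C (eval p m2) * lam') * ν := by
      rw [← hxy]
      ring
    rwa [e4] at e3
  refine ⟨_, hlH, hl0, ?_, ?_⟩
  · refine mem_N_of_mul (mul_mem_H (a := 1) (b := 1) hmu hlH) ?_
    intro g hg
    obtain ⟨g1, g2⟩ := hdec g hg
    have e1 := hLL _ _ hlH hl0 g1 g2
    have e2 := add_mem e1 (smul_mem _ (eval p g) key)
    have e3 : mu * (C (eval p m1) * lam + C (eval p m2) * lam') * (g - C (eval p g) * ν) +
        eval p g • (mu * (C (eval p m1) * lam + C (eval p m2) * lam') * ν) =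
        mu * (C (eval p m1) * lam + C (eval p m2) * lam') * g := by
      rw [smul_eq_C_mul]
      ring
    rwa [e3] at e2
  · intro u
    rw [← hxy, map_add, dr_mul, dr_mul, h.lp, h.lp', zero_mul, zero_mul, zero_add, zero_add,
      dr_linform p u hla, dr_linform p u hlb, map_add, map_mul, map_mul, eval_C, eval_C]
    ring

end Pool.Agent.BR
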