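import Pool.Agent.Work.MP_be705b_al.II.BBBase1
import Pool.Agent.Work.MP_be705b_al.II.BBLin

set_option autoImplicit false
set_option linter.unusedSectionVars false
set_option linter.unusedVariables false

/-!
# MP_be705b_al, type II, block B, module BB4c (M): vertex `4` outside of `inn (dv lam)`, `mu ∤ t 4`

PROOF of `dead4c`.  `t 4 ∉ V 4 ⊔ dv lam` (`t 4 = v + d` would give `t 4 - v ∈ dv lam`, `4 ∈ inn (dv lam)`, `mem_inn`).  `TB.plus` with `j = 4`: `lam * mu ∈ N K`.
Let `l` be the linear part of `del` (`TII.lin_part`): `mu * l ∈ N K`, so `l = C c * lam` (`N_unique`, `lam ≠ 0`; use `mul_comm`).  `v`: `exists_dir` for `lam` and `p`.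
So `rs p v del` has coefficients `del (p) = 0`, `l (v) = c lam (v) = 0`, so `rs p v del = C k * X ^ 2` (`rs_deg`), `k ≠ 0` because `lam ∤ del` (`rs_eq_zero`).
`rs p v del2 = e0 + e1 X + e2 X ^ 2`, `e0 = del2 (p) ≠ 0`.
`all5` (private): every `f ∈ H K 5` has `w1, w2 ∈ cubics K` and `g ∈ H K 4` with `f = del * w1 + del2 * w2 + lam * g`: choose `w2 ∈ cubics K` with `rs w2 = b0 + b1 X`
(`rs_surj3`), `b0 = f0 / e0`, `b1 = (f1 - e1 b0) / e0` (`f_i` the coefficients of `rs f`), then `rs f - rs del2 * rs w2` is divisible by `X ^ 2`, the quotient `g` has degree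
`≤ 3` (`rs_deg`), choose `w1` with `rs w1 = C k⁻¹ * g` (`rs_surj3`), so `rs (f - del * w1 - del2 * w2) = 0` and `rs_eq_zero`, `exists_quot`.
So for `U = dv lam ⊔ V 4`: `mu * f ∈ U * cubics` for all `f ∈ H K 5` (`mu * del, mu * del2 ∈ V 4`, `h.tb.t2`, `h.tc.t3`, `t_mem`; `lam * (mu * g) ∈ mulS lam (H K 5) = dv lam * cubics`,
`KK_mul`), and `lam * f ∈ U * cubics`.
Let `q ≠ 0` with `lam (q) = mu (q) = 0` (`exists_dir`-like: `exists_point` for `span {lam, mu}`; or `q = cross (lc lam) (lc mu)`; `L_mul` is only for `lam, lam'`, so:)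
every `f ∈ H K 6` with `f (q) = 0` is `lam * f1 + mu * f2`, `f1, f2 ∈ H K 5`: dimension count `finrank (mulS lam (H 5) ⊔ mulS mu (H 5)) = 21 + 21 - 15 = 27 = finrank (IP q 6)`,
the intersection is `mulS (lam * mu) (H 4)` (`exists_quot`, `prime_lin`).
Now for all `w ∈ cubics K` with `w (q) = 0`: `w * t 4 ∈ U * cubics`, so `w ∈ U ⊔ A 4` (`Fl.col1`; `U ∈ LL`: `TII.ll_dv`, `llSupV`).  `A 4 ≤ dv mu` (`TB.A_le`), `V 4 ≤ dv mu`, so
`w ∈ dv lam ⊔ dv mu`, which has dimension `7` (`TB.dim_sup`), while `{w ∈ cubics | w (q) = 0}` has dimension at least `8` (`finrank_inf_ker`).  Contradiction.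
-/

namespace Pool.Agent.BR

open Submodule Module MvPolynomial

variable {K : Type*} [Field K] {t : Fin 9 → Pol K} {p : Fin 3 → K} {lam lam' mu del del2 : Pol K}
  {a b m : Fin 9}

theorem exists_q {lam mu : Pol K} (hlam : lam ∈ H K 1) (hmu : mu ∈ H K 1) :
    ∃ q : Fin 3 → K, q ≠ 0 ∧ eval q lam = 0 ∧ eval q mu = 0 := by
  classical
  have hle : span K {lam, mu} ≤ H K 1 := by
    rw [span_le]
    rintro f (rfl | rfl)
    · exact hlam
    · exact hmu
  have hne : span K {lam, mu} ≠ H K 1 := by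
    intro he
    have h1 : finrank K ↥(span K ({lam, mu} : Set (Pol K))) ≤ 2 := by
      have h2 := finrank_span_finset_le_card (R := K) ({lam, mu} : Finset (Pol K))
      rw [Finset.coe_pair] at h2
      exact h2.trans Finset.card_le_two
    rw [he, finrank_H1] at h1
    omega
  obtain ⟨q, hq, hv⟩ := exists_point hle hne
  exact ⟨q, hq, hv lam (subset_span (by simp)), hv mu (subset_span (by simp))⟩

/-- two independent linear forms generate the ideal of a point -/
theorem sup_IP {lam mu : Pol K} (hlam : lam ∈ H K 1) (l0 : lam ≠ 0) (hmu : mu ∈ H K 1) (m0 : mu ≠ 0)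
    (nm : ¬ lam ∣ mu) {q : Fin 3 → K} (hq : q ≠ 0) (h1 : eval q lam = 0) (h2 : eval q mu = 0) :
    mulS lam (H K 5) ⊔ mulS mu (H K 5) = IP q 6 := by
  have hle : mulS lam (H K 5) ⊔ mulS mu (H K 5) ≤ IP q 6 := by
    refine sup_le ?_ ?_
    · intro f hf
      obtain ⟨u, hu, rfl⟩ := mem_mulS.1 hf
      exact mem_IP.2 ⟨mul_mem_H (a := 1) (b := 5) hlam hu, by rw [map_mul, h1, zero_mul]⟩
    · intro f hf
      obtain ⟨u, hu, rfl⟩ := mem_mulS.1 hf
      exact mem_IP.2 ⟨mul_mem_H (a := 1) (b := 5) hmu hu, by rw [map_mul, h2, zero_mul]⟩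
  have hinf : mulS lam (H K 5) ⊓ mulS mu (H K 5) = mulS (lam * mu) (H K 4) := by
    apply le_antisymm
    · intro f hf
      obtain ⟨hf1, hf2⟩ := mem_inf.1 hf
      obtain ⟨u, hu, rfl⟩ := mem_mulS.1 hf1
      obtain ⟨v, hv, e⟩ := mem_mulS.1 hf2
      have h3 : lam ∣ mu * v := ⟨u, e⟩
      have h4 := ((prime_lin hlam l0).dvd_or_dvd h3).resolve_left nm
      obtain ⟨s, hs, rfl⟩ := exists_quot (a := 1) (b := 4) hlam l0 hv h4
      refine mem_mulS.2 ⟨s, hs, ?_⟩
      rw [← e]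
      ring
    · intro f hf
      obtain ⟨s, hs, rfl⟩ := mem_mulS.1 hf
      refine mem_inf.2 ⟨mem_mulS.2 ⟨mu * s, mul_mem_H (a := 1) (b := 4) hmu hs, by ring⟩,
        mem_mulS.2 ⟨lam * s, mul_mem_H (a := 1) (b := 4) hlam hs, by ring⟩⟩
  have i1 : Module.Finite K ↥(IP q 6) := Submodule.finiteDimensional_of_le (inf_le_left : IP q 6 ≤ H K 6)
  have i2 : Module.Finite K ↥(mulS lam (H K 5)) := Submodule.finiteDimensional_of_le (mulS_H_le hlam)
  have i3 : Module.Finite K ↥(mulS mu (H K 5)) := Submodule.finiteDimensional_of_le (mulS_H_le hmu)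
  refine Submodule.eq_of_le_of_finrank_le hle ?_
  have h5 := Submodule.finrank_sup_add_finrank_inf_eq (mulS lam (H K 5)) (mulS mu (H K 5))
  rw [hinf, finrank_mulS (mul_ne_zero l0 m0), finrank_mulS l0, finrank_mulS m0, finrank_H4, finrank_H5] at h5
  have h6 := finrank_IP hq 6
  rw [finrank_H6] at h6
  omega

private theorem natDegree_lin (x y : K) : (Polynomial.C x + Polynomial.C y * Polynomial.X).natDegree ≤ 1 := by
  compute_degree

/-- on the line `lam = 0`, the quadric `del` with a double zero and `del2` without zero at `p` generate all forms of degree `5` -/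
private theorem all5 {lam del del2 : Pol K} {p v : Fin 3 → K} (hpv : LinearIndependent K ![p, v])
    (hlam : lam ∈ H K 1) (l0 : lam ≠ 0) (hp : eval p lam = 0) (hv : eval v lam = 0)
    (hdel : del ∈ H K 2) (hdel2 : del2 ∈ H K 2) (h0 : eval p del = 0) (h1 : dr p v del = 0)
    (nd : ¬ lam ∣ del) (h2 : eval p del2 ≠ 0) {f : Pol K} (hf : f ∈ H K 5) :
    ∃ w1 ∈ cubics K, ∃ w2 ∈ cubics K, ∃ g ∈ H K 4, f = del * w1 + del2 * w2 + lam * g := by
  -- `rs del = C k * X ^ 2`
  obtain ⟨k, hk⟩ : ∃ k : K, rs p v del = Polynomial.C k * Polynomial.X ^ 2 := by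
    refine ⟨(rs p v del).coeff 2, ?_⟩
    ext n
    rw [Polynomial.coeff_C_mul_X_pow]
    have hdeg := rs_deg p v hdel
    rcases n with _ | _ | _ | n
    · rw [rs_coeff_zero, h0]; simp
    · rw [← dr_apply, h1]; simp
    · simp
    · rw [Polynomial.coeff_eq_zero_of_natDegree_lt (by omega)]
      simp
  have hk0 : k ≠ 0 := by
    rintro rfl
    rw [Polynomial.C_0, zero_mul] at hk
    exact nd ((rs_eq_zero hpv hlam l0 hp hv hdel).1 hk)
  set D := rs p v del2 with hD
  set F := rs p v f with hF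
  have hD0 : D.coeff 0 = eval p del2 := rs_coeff_zero p v del2
  set b0 : K := F.coeff 0 / D.coeff 0 with hb0
  set b1 : K := (F.coeff 1 - D.coeff 1 * b0) / D.coeff 0 with hb1
  have hD00 : D.coeff 0 ≠ 0 := by rw [hD0]; exact h2
  obtain ⟨w2, hw2, e2⟩ := rs_surj3 hpv (g := Polynomial.C b0 + Polynomial.C b1 * Polynomial.X) ((natDegree_lin b0 b1).trans (by norm_num))
  -- the difference is divisible by `X ^ 2`
  set G := F - D * (Polynomial.C b0 + Polynomial.C b1 * Polynomial.X) with hG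
  have hG0 : G.coeff 0 = 0 := by
    rw [hG, Polynomial.coeff_sub, Polynomial.mul_coeff_zero]
    simp only [Polynomial.coeff_add, Polynomial.coeff_C_zero, Polynomial.mul_coeff_zero, Polynomial.coeff_X_zero,
      mul_zero, add_zero]
    rw [hb0]
    field_simp
    ring
  have hG1 : G.coeff 1 = 0 := by
    rw [hG, Polynomial.coeff_sub, mul_add, Polynomial.coeff_add, Polynomial.coeff_mul_C, ← mul_assoc,
      Polynomial.coeff_mul_X, Polynomial.coeff_mul_C, hb1]
    field_simp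
    ring
  obtain ⟨Q, hQ⟩ : (Polynomial.X : Polynomial K) ^ 2 ∣ G := by
    rw [Polynomial.X_pow_dvd_iff]
    intro d hd
    have : d = 0 ∨ d = 1 := by omega
    rcases this with rfl | rfl
    · exact hG0
    · exact hG1
  have hGdeg : G.natDegree ≤ 5 := by
    rw [hG]
    refine (Polynomial.natDegree_sub_le _ _).trans (max_le (rs_deg p v hf) ?_)
    refine Polynomial.natDegree_mul_le.trans ?_
    have h3 : D.natDegree ≤ 2 := rs_deg p v hdel2
    have h4 := natDegree_lin b0 b1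
    omega
  have hQdeg : Q.natDegree ≤ 3 := by
    by_cases hQ0 : Q = 0
    · rw [hQ0]; simp
    · have h3 : G.natDegree = 2 + Q.natDegree := by
        rw [hQ, Polynomial.natDegree_mul (pow_ne_zero _ Polynomial.X_ne_zero) hQ0, Polynomial.natDegree_X_pow]
      omega
  obtain ⟨w1, hw1, e1⟩ := rs_surj3 hpv (g := Polynomial.C k⁻¹ * Q)
    ((Polynomial.natDegree_C_mul_le _ _).trans hQdeg)
  have hdiff : rs p v (f - del * w1 - del2 * w2) = 0 := by
    rw [map_sub, map_sub, map_mul, map_mul, hk, e1, e2, ← hD, ← hF]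
    have h3 : Polynomial.C k * Polynomial.X ^ 2 * (Polynomial.C k⁻¹ * Q) = G := by
      have h4 : (Polynomial.C k * Polynomial.C k⁻¹ : Polynomial K) = 1 := by
        rw [← Polynomial.C_mul, mul_inv_cancel₀ hk0, Polynomial.C_1]
      rw [hQ]
      linear_combination (Polynomial.X ^ 2 * Q) * h4
    rw [h3, hG]
    ring
  have hmem : f - del * w1 - del2 * w2 ∈ H K 5 :=
    sub_mem (sub_mem hf (mul_mem_H (a := 2) (b := 3) hdel (cubics_le hw1)))
      (mul_mem_H (a := 2) (b := 3) hdel2 (cubics_le hw2))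
  obtain ⟨g, hg, e⟩ := exists_quot (a := 1) (b := 4) hlam l0 hmem
    ((rs_eq_zero hpv hlam l0 hp hv hmem).1 hdiff)
  exact ⟨w1, hw1, w2, hw2, g, hg, by linear_combination e⟩

namespace TD

theorem dead4c (h : TD t p lam lam' mu del del2 a b m) (hd : ¬ mu ∣ t 4)
    (ho : (4 : Fin 9) ∈ out K t (dv lam)) : False := by
  have hV4 := h.V4_le_dv
  have hnotin : t 4 ∉ V K t 4 ⊔ dv lam := by
    intro hin
    obtain ⟨v, hv, d, hdd, e⟩ := mem_sup.1 hin
    refine mem_out.1 ho (-v) (neg_mem hv) ?_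
    have : t 4 + -v = d := by rw [← e]; ring
    rwa [this]
  obtain ⟨hN, -⟩ := h.tb.plus (j := 4) (by decide) hV4 hd hnotin
  obtain ⟨l, hl, hlp, hmul, hdr⟩ := h.ti.lin_part h.tb.hd
  obtain ⟨c, hc⟩ := N_unique h.hmu h.mu0 hl h.hlam h.lam0 hmul (by rw [mul_comm]; exact hN)
  obtain ⟨v, hv1, hv2⟩ := exists_dir h.ti.p0 h.hlam h.ti.lp
  have hdrv : dr p v del = 0 := by
    rw [hdr, hc, map_mul, hv1, mul_zero]
  set U := dv lam ⊔ V K t 4 with hU
  have hUc : U ≤ cubics K := sup_le h.ti.dv_le (h.fl.V_le 4)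
  have hUL : LL K t U := h.fl.llSupV h.ti.dv_le h.ti.ll_dv 4
  have hdvmul : dv lam * cubics K = mulS lam (H K 5) := by
    rw [dv, mulS_mul, KK_mul h.hlam h.lam0]
  have h1 : mulS lam (H K 5) ≤ U * cubics K := by
    rw [← hdvmul]
    exact mul_le_mul' le_sup_left le_rfl
  have ht2 : mu * del ∈ U := by
    rw [← h.tb.t2]
    exact le_sup_right (α := Submodule K (Pol K)) (t_mem (K := K) (t := t) (i := 2) (j := 4) (by decide))
  have ht3 : mu * del2 ∈ U := by
    rw [← h.tc.t3]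
    exact le_sup_right (α := Submodule K (Pol K)) (t_mem (K := K) (t := t) (i := 3) (j := 4) (by decide))
  have h2 : mulS mu (H K 5) ≤ U * cubics K := by
    intro f hf
    obtain ⟨s, hs, rfl⟩ := mem_mulS.1 hf
    obtain ⟨w1, hw1, w2, hw2, g, hg, e⟩ := all5 hv2 h.hlam h.lam0 h.ti.lp hv1 h.hdel h.hdel2 h.delp hdrv
      h.tb.nd h.d2 hs
    have e2 : mu * s = mu * del * w1 + mu * del2 * w2 + lam * (mu * g) := by rw [e]; ring
    rw [e2]
    refine add_mem (add_mem (mul_mem_mul ht2 hw1) (mul_mem_mul ht3 hw2)) (h1 ?_)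
    exact mul_mem_mulS (mul_mem_H (a := 1) (b := 4) h.hmu hg)
  obtain ⟨q, hq, hq1, hq2⟩ := exists_q h.hlam h.hmu
  have h3 : IP q 6 ≤ U * cubics K := by
    rw [← sup_IP h.hlam h.lam0 h.hmu h.mu0 h.tb.nm hq hq1 hq2]
    exact sup_le h1 h2
  have hVU : V K t ((4 : Fin 9) : ℕ) ≤ U := by
    rw [hU]
    exact le_sup_right
  have htU : t 4 ∉ U := by
    rw [hU, sup_comm]
    exact hnotin
  have hAle : A K t 4 ≤ dv mu := h.tb.A_le (j := 4) hV4 hd
  have hUA : U ⊔ A K t 4 ≤ dv lam ⊔ dv mu := by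
    rw [hU]
    exact sup_le (sup_le le_sup_left (hV4.trans le_sup_right)) (hAle.trans le_sup_right)
  -- every cubic vanishing at `q` is in `dv lam ⊔ dv mu`
  have h4 : cubics K ⊓ LinearMap.ker (aeval q : Pol K →ₐ[K] K).toLinearMap ≤ dv lam ⊔ dv mu := by
    intro w hw
    obtain ⟨hw1, hw2⟩ := mem_inf.1 hw
    rw [LinearMap.mem_ker, AlgHom.toLinearMap_apply, aeval_eq_eval] at hw2
    have hw3 : eval q w = 0 := hw2
    have h5 : w * t 4 ∈ U * cubics K := by
      refine h3 (mem_IP.2 ⟨mul_mem_H (a := 3) (b := 3) (cubics_le hw1) (h.fl.mem_H 4), ?_⟩)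
      rw [map_mul, hw3, zero_mul]
    have h6 : w ∈ U ⊔ A K t 4 := h.fl.col1 hUc hUL hVU htU hw1 h5
    exact hUA h6
  obtain ⟨w, hw, hwq⟩ := exists_cubic_ne (K := K) hq
  have i1 : Module.Finite K ↥(cubics K) := Submodule.finiteDimensional_of_le cubics_le
  have h5 := finrank_inf_ker (U := cubics K) (φ := (aeval q : Pol K →ₐ[K] K).toLinearMap) hw (by
    rw [AlgHom.toLinearMap_apply, aeval_eq_eval]
    exact hwq)
  rw [finrank_cubics] at h5
  have i2 : Module.Finite K ↥(dv lam ⊔ dv mu) :=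
    Submodule.finiteDimensional_of_le (sup_le (BR.dv_le h.hlam) (BR.dv_le h.hmu) |>.trans cubics_le)
  have h6 := Submodule.finrank_mono h4
  have h7 := h.tb.dim_sup.1 hN
  have key : ∀ x y : ℕ, x + 1 = 9 → x ≤ y → y = 7 → False := by omega
  exact key _ _ h5 h6 h7

end TD

end Pool.Agent.BR
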