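import Pool.Agent.Work.MP_be705b_al.II.BB4c

set_option autoImplicit false
set_option linter.unusedSectionVars false
set_option linter.unusedVariables false

/-!
# MP_be705b_al, type II, block B, module BB5 (S-M): `V 5 = dv mu`, the vertex `5`

PROOFS.
* `A5`: `t 5 ∉ V 5 = dv mu` (`t_notMem`), so `mu ∤ t 5` (`mem_dv`).  `w * t 5 ∈ V 5 * cubics` is divisible by `mu`, so `mu ∣ w` (`prime_lin`), `w ∈ dv mu`; `≥` clear (`V 5 ≤ A 5`;
  `TB.A_le` gives `≤`).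
* `full5`: `out (A 5) = nb 5 (out (V 5))` (`outA`), and `out (A 5) = out (V 5)` (`A5`), so every `x ∈ out (V 5)` is adjacent to `5`; `5 ∈ out (V 5)`.
* `nums5`: `V 5 = dv mu`, `llV 5`, `finrank_KK`, `KK_mul`, `KK_mul6`, `finrank_H5 = 21`, `finrank_H8 = 45`: `9 - 5`, `28 - 21`, `55 - 45`.
* `nums6`: `out (V 6) = (out (V 5)).erase 5` (`Fl.mem_out_V`), `nb 5 (out (V 5)) = out (V 5)`, `cl_erase`: `7 - 4`, `10 - 7`.
* `sup_mul5`: `(dv lam ⊔ dv mu) * cubics = mulS lam (H K 5) ⊔ mulS mu (H K 5) = IP q 6` (`KK_mul`, `mulS_mul`, `sup_mul`, `sup_IP`), dimension `28 - 1`.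
* `cl2_sup`: `dv lam ⊔ V 5 = dv lam ⊔ dv mu` is in `LL` (`ll_dv`, `llSupV`), `Fl.cl2`, `sup_mul5`.
-/

namespace Pool.Agent.BR

open Submodule Module MvPolynomial

variable {K : Type*} [Field K] {t : Fin 9 → Pol K} {p : Fin 3 → K} {lam lam' mu del del2 : Pol K}
  {a b m : Fin 9}

namespace TD

theorem A5 (h : TD t p lam lam' mu del del2 a b m) (h5 : V K t 5 = dv mu) : A K t 5 = dv mu := by
  have hnd : ¬ mu ∣ t 5 := by
    intro hd
    have h1 : t 5 ∈ dv mu := (mem_dv h.hmu h.mu0).2 ⟨h.fl.mem 5, hd⟩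
    rw [← h5] at h1
    exact t_notMem h.fl.li (5 : Fin 9) h1
  apply le_antisymm (h.tb.A_le (j := 5) (le_of_eq h5) hnd)
  rw [← h5]
  exact V_le_A 5

theorem full5 (h : TD t p lam lam' mu del del2 a b m) (h5 : V K t 5 = dv mu) :
    ∀ x ∈ out K t (V K t 5), Adj K t 5 x := by
  intro x hx
  have h1 : out K t (A K t 5) = nb K t 5 (out K t (V K t 5)) := h.fl.outA 5
  rw [h.A5 h5, ← h5] at h1
  rw [h1, mem_nb] at hx
  exact hx.2

theorem nums5 (h : TD t p lam lam' mu del del2 a b m) (h5 : V K t 5 = dv mu) :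
    (out K t (V K t 5)).card = 4 ∧ cl K t 2 (out K t (V K t 5)) = 7 ∧
    cl K t 3 (out K t (V K t 5)) = 10 := by
  have h1 := h.fl.cl1 (h.fl.V_le 5) (h.fl.llV 5)
  have h2 := h.fl.cl2 (h.fl.V_le 5) (h.fl.llV 5)
  have h3 := h.fl.cl3 (h.fl.V_le 5) (h.fl.llV 5)
  have e1 : finrank K ↥(V K t 5) = 5 := by
    rw [h5, dv, finrank_mulS h.mu0, finrank_KK h.hmu h.mu0]
  have e2 : finrank K ↥(V K t 5 * cubics K) = 21 := by
    rw [h5, dv, mulS_mul, KK_mul h.hmu h.mu0, finrank_mulS h.mu0, finrank_H5]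
  have e3 : finrank K ↥(V K t 5 * H K 6) = 45 := by
    rw [h5, dv, mulS_mul, KK_mul6 h.hmu h.mu0, finrank_mulS h.mu0, finrank_H8]
  exact ⟨by omega, by omega, by omega⟩

theorem nums6 (h : TD t p lam lam' mu del del2 a b m) (h5 : V K t 5 = dv mu) :
    out K t (V K t 6) = (out K t (V K t 5)).erase 5 ∧ (out K t (V K t 6)).card = 3 ∧
    cl K t 2 (out K t (V K t 6)) = 3 ∧ cl K t 3 (out K t (V K t 6)) = 3 := by
  have e1 : out K t (V K t 6) = (out K t (V K t 5)).erase 5 := by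
    ext i
    rw [Finset.mem_erase, h.fl.mem_out_V, h.fl.mem_out_V]
    constructor
    · intro hi
      refine ⟨?_, by omega⟩
      rintro rfl
      exact absurd hi (by decide)
    · rintro ⟨hi, hi'⟩
      have : (i : ℕ) ≠ 5 := fun hc => hi (Fin.ext hc)
      omega
  obtain ⟨n1, n2, n3⟩ := h.nums5 h5
  have hmem : (5 : Fin 9) ∈ out K t (V K t 5) := (h.fl.mem_out_V 5 5).2 (le_refl _)
  have hnb : nb K t 5 (out K t (V K t 5)) = out K t (V K t 5) := by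
    ext i
    rw [mem_nb]
    exact ⟨fun hi => hi.1, fun hi => ⟨hi, h.full5 h5 i hi⟩⟩
  have c2 : cl K t 2 (out K t (V K t 5)) = cl K t 1 (nb K t 5 (out K t (V K t 5))) +
      cl K t 2 ((out K t (V K t 5)).erase 5) := cl_erase (K := K) (t := t) 1 hmem
  have c3 : cl K t 3 (out K t (V K t 5)) = cl K t 2 (nb K t 5 (out K t (V K t 5))) +
      cl K t 3 ((out K t (V K t 5)).erase 5) := cl_erase (K := K) (t := t) 2 hmem
  rw [hnb] at c2 c3
  rw [cl_one] at c2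
  rw [e1]
  refine ⟨rfl, ?_, ?_, ?_⟩
  · rw [Finset.card_erase_of_mem hmem]
    omega
  · omega
  · omega

theorem sup_mul5 (h : TD t p lam lam' mu del del2 a b m) :
    finrank K ↥((dv lam ⊔ dv mu) * cubics K) = 27 := by
  obtain ⟨q, hq, h1, h2⟩ := exists_q h.hlam h.hmu
  have e1 : (dv lam ⊔ dv mu) * cubics K = IP q 6 := by
    rw [Submodule.sup_mul, dv, dv, mulS_mul, mulS_mul, KK_mul h.hlam h.lam0, KK_mul h.hmu h.mu0]
    exact sup_IP h.hlam h.lam0 h.hmu h.mu0 h.tb.nm hq h1 h2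
  have e2 := finrank_IP (K := K) hq 6
  rw [finrank_H6] at e2
  rw [e1]
  omega

theorem cl2_sup (h : TD t p lam lam' mu del del2 a b m) (h5 : V K t 5 = dv mu) :
    LL K t (dv lam ⊔ V K t 5) ∧ cl K t 2 (out K t (dv lam ⊔ V K t 5)) = 1 := by
  have h1 : LL K t (dv lam ⊔ V K t 5) := h.fl.llSupV (BR.dv_le h.hlam) h.ti.ll_dv 5
  have h2 := h.fl.cl2 (sup_le (BR.dv_le h.hlam) (h.fl.V_le 5)) h1
  refine ⟨h1, ?_⟩
  have h3 := h.sup_mul5
  rw [← h5] at h3
  omega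

end TD

end Pool.Agent.BR
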