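import Pool.Agent.Work.MP_be705b_al.II.BBBase1
import Pool.Agent.Work.MP_be705b_al.II.BBLin

set_option autoImplicit false
set_option linter.unusedSectionVars false
set_option linter.unusedVariables false

/-!
# MP_be705b_al, type II, block B, module BBP1 (M): the case `mu (p) = 0`, local analysis at `p`

PROOFS.
* `p1_noloop`: take `κ ∈ N K`, `κ (p) ≠ 0` (`exists_N_ne`), `w = lam * κ ∈ cubics`.
  `w * t 3 * t 3 = mu * (lam * (κ * mu * del2 * del2))` is in `V 3 * H 6` by `TB.cancel7` because `mu (p) = 0`.  If `3` were a loop then `Fl.nil1`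
  (`U = V 3`) gives `w * t 3 = mu * (lam * (κ * del2)) ∈ V 3 * cubics`, so `κ (p) del2 (p) = 0` by `TB.cancel4`: contradiction.
* `p1_sq`: `t 3 * t 3 ∈ V 3 * cubics` (`Fl.not_loop_iff`), `TB.V3_dec4`: `mu * del2 * (mu * del2) = lam * mu * g + mu * del * w`; cancel `mu`.
* `p1_lin`: let `l` be the linear part of `del` (`TII.lin_part`, `del ∈ Ps p mu = h.tb.hd`): `dr p u del = l (u)`, `mu * l ∈ N K`, `l (p) = 0`.
  Apply `dr p u` to `p1_sq` (`dr_mul`, `mu (p) = lam (p) = g (p) = del (p) = 0`): `mu (u) del2 (p) ^ 2 = l (u) w (p)` for all `u` (*).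
  So `w (p) ≠ 0` (choose `u` with `mu (u) ≠ 0`), `l = C c * mu` with `c = del2 (p) ^ 2 / w (p) ≠ 0` (two linear forms with the same values:
  `lin_lc`, evaluation at the unit vectors, or `rs_linform`..; or `lc`).  So `mu * mu ∈ N K`.
  `lam * mu ∉ N K`: else `N_unique` (`mu * lam`, `mu * mu ∈ N`) gives `lam = C c' * mu` and `c' ≠ 0` so `lam ∣ mu`: no (`h.tb.nm`).
  `v`: `exists_dir` for `mu` and `p`: `mu (v) = 0`, `![p, v]` independent; `dr p v del = l (v) = c mu (v) = 0`; `lam (v) ≠ 0` (else `lam` vanishes on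
  `p, v`, `rs p v lam = 0`, `mu ∣ lam`, so `lam ∣ mu`).
  `r`: `exists_dir` for `lam` and `p`: `v'` with `lam (v') = 0`; `mu (v') ≠ 0` (the same argument).  `rs p v' del = X * (δ1 + δ2 X)`
  (`rs_deg`, `rs_coeff_zero`), `δ1 = dr p v' del = c mu (v') ≠ 0`.  `r = δ2 • p - δ1 • v'`: `lam (r) = 0`, `mu (r) = - δ1 mu (v') ≠ 0`,
  `del (r) = 0` (`rs_eval` with `a = δ2`, `b = -δ1`: `0 + δ1 * δ2 * (-δ1) + δ2 * δ1 ^ 2 = 0`; `rs_top`: `δ2 = del (v')`).  Evaluate `p1_sq` at `r`:
  `mu (r) del2 (r) ^ 2 = 0`, so `del2 (r) = 0`.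
-/

namespace Pool.Agent.BR

open Submodule Module MvPolynomial

variable {K : Type*} [Field K] {t : Fin 9 → Pol K} {p : Fin 3 → K} {lam lam' mu del del2 : Pol K}
  {a b m : Fin 9}

/-- evaluation of a linear form is additive and homogeneous in the point -/
private theorem eval_lin_comb {l : Pol K} (hl : l ∈ H K 1) (x y : K) (u v : Fin 3 → K) :
    eval (x • u + y • v) l = x * eval u l + y * eval v l := by
  rw [← lin_lc hl]
  simp only [lin, map_add, map_mul, eval_C, eval_X, Pi.add_apply, Pi.smul_apply, smul_eq_mul]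
  ring

/-- two linear forms, the first vanishing on two independent points where the second vanishes -/
private theorem dvd_of_zeros {l l' : Pol K} (hl : l ∈ H K 1) (l0 : l ≠ 0) (hl' : l' ∈ H K 1) (l0' : l' ≠ 0)
    {P v : Fin 3 → K} (hPv : LinearIndependent K ![P, v]) (h1 : eval P l = 0) (h2 : eval v l = 0)
    (h3 : eval P l' = 0) (h4 : eval v l' = 0) : l' ∣ l := by
  have h5 : rs P v l = 0 := by
    rw [rs_linform P v hl, h1, h2]
    simp
  exact (rs_eq_zero hPv hl' l0' h3 h4 hl).1 h5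

/-- two linear forms which divide one another -/
private theorem dvd_symm_lin {l l' : Pol K} (hl : l ∈ H K 1) (l0 : l ≠ 0) (hl' : l' ∈ H K 1) (l0' : l' ≠ 0)
    (h : l' ∣ l) : l ∣ l' := by
  obtain ⟨g, hg, rfl⟩ := exists_quot (a := 1) (b := 0) hl' l0' hl h
  have hu : IsUnit g := isUnit_of_H0 hg (right_ne_zero_of_mul l0)
  exact (hu.dvd_mul_right.1 (dvd_refl _))

namespace TD

theorem p1_noloop (h : TD t p lam lam' mu del del2 a b m) (hm : eval p mu = 0) : ¬ Adj K t 3 3 := by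
  intro hloop
  obtain ⟨κ, hκ, hκp⟩ := exists_N_ne (K := K) h.ti.p0
  have hκK : κ ∈ KK lam := N_le_KK h.hlam hκ
  have hκ2 : κ ∈ H K 2 := KK_le _ hκK
  have hw : lam * κ ∈ cubics K := mul_KK_mem h.hlam hκK
  have e1 : lam * κ * t 3 * t 3 = mu * (lam * (κ * mu * del2 * del2)) := by
    rw [h.tc.t3]; ring
  have hdeg : κ * mu * del2 * del2 ∈ H K 7 :=
    mul_mem_H (a := 5) (b := 2) (mul_mem_H (a := 3) (b := 2) (mul_mem_H (a := 2) (b := 1) hκ2 h.hmu) h.hdel2) h.hdel2
  have h1 : lam * κ * t 3 * t 3 ∈ V K t 3 * H K 6 := by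
    rw [e1]
    refine (h.tb.cancel7 hdeg).2 ?_
    simp only [map_mul, hm, mul_zero, zero_mul]
  have h2 := h.fl.nil1 (h.fl.V_le 3) (h.fl.llV 3) (j := 3) le_rfl (t_notMem h.fl.li 3) hloop hw h1
  have e2 : lam * κ * t 3 = mu * (lam * (κ * del2)) := by
    rw [h.tc.t3]; ring
  rw [e2] at h2
  have h3 := (h.tb.cancel4 (mul_mem_H (a := 2) (b := 2) hκ2 h.hdel2)).1 h2
  rw [map_mul] at h3
  rcases mul_eq_zero.1 h3 with h4 | h4
  · exact hκp h4
  · exact h.d2 h4

theorem p1_sq (h : TD t p lam lam' mu del del2 a b m) (hm : eval p mu = 0) :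
    ∃ g ∈ IP p 4, ∃ w ∈ cubics K, mu * (del2 * del2) = lam * g + del * w := by
  have h1 := (h.fl.not_loop_iff 3).1 (h.p1_noloop hm)
  obtain ⟨g, hg, w, hw, e⟩ := h.tb.V3_dec4 (f := t 3 * t 3) h1
  refine ⟨g, hg, w, hw, ?_⟩
  apply mul_left_cancel₀ h.mu0
  rw [h.tc.t3] at e
  linear_combination e

theorem p1_lin (h : TD t p lam lam' mu del del2 a b m) (hm : eval p mu = 0) :
    lam * mu ∉ N K ∧ ∃ v r : Fin 3 → K, eval v mu = 0 ∧ LinearIndependent K ![p, v] ∧
    dr p v del = 0 ∧ eval v lam ≠ 0 ∧ eval r lam = 0 ∧ eval r del = 0 ∧ eval r del2 = 0 ∧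
    eval r mu ≠ 0 := by
  obtain ⟨g, hg, w, hw, e⟩ := h.p1_sq hm
  obtain ⟨l, hl, hlp, hmul, hdr⟩ := h.ti.lin_part h.tb.hd
  have hgp : eval p g = 0 := (mem_IP.1 hg).2
  have hlamp : eval p lam = 0 := h.ti.lp
  -- (*)
  have key : ∀ u : Fin 3 → K, eval u mu * (eval p del2 * eval p del2) = eval u l * eval p w := by
    intro u
    have e1 := congrArg (dr p u) e
    rw [map_add, dr_mul p u mu, dr_mul p u lam, dr_mul p u del, hm, hlamp, hgp, h.delp, hdr,
      dr_linform p u h.hmu, (eval p).map_mul] at e1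
    linear_combination e1
  have hd2 := h.d2
  have hd22 : eval p del2 * eval p del2 ≠ 0 := mul_ne_zero hd2 hd2
  -- a direction where `mu` does not vanish
  obtain ⟨v', hv'1, hv'2⟩ := exists_dir h.ti.p0 h.hlam hlamp
  have hnm' : ¬ mu ∣ lam := fun hd => h.tb.nm (dvd_symm_lin h.hlam h.lam0 h.hmu h.mu0 hd)
  have hmuv' : eval v' mu ≠ 0 := by
    intro h0
    exact h.tb.nm (dvd_of_zeros h.hmu h.mu0 h.hlam h.lam0 hv'2 hm h0 hlamp hv'1)
  have hlv' : eval v' l * eval p w ≠ 0 := by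
    rw [← key v']
    exact mul_ne_zero hmuv' hd22
  have hwp : eval p w ≠ 0 := right_ne_zero_of_mul hlv'
  have hlv'0 : eval v' l ≠ 0 := left_ne_zero_of_mul hlv'
  -- `l` is a multiple of `mu`
  set c : K := eval p del2 * eval p del2 / eval p w with hc
  have hc0 : c ≠ 0 := div_ne_zero hd22 hwp
  have hlc : ∀ u : Fin 3 → K, eval u l = c * eval u mu := by
    intro u
    have := key u
    rw [hc]
    field_simp
    linear_combination -this
  have hlmu : l = C c * mu := by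
    have hcmu : C c * mu ∈ H K 1 := by
      have := mul_mem_H (a := 0) (b := 1) (mem_H0.2 ⟨c, rfl⟩) h.hmu
      simpa using this
    have h5 : lin (lc l - c • lc mu) = 0 := by
      have h6 : lc l - c • lc mu = 0 := by
        have h7 : ∀ (l : Pol K), l ∈ H K 1 → ∀ i : Fin 3, eval (Pi.single i 1) l = lc l i := by
          intro l hl i
          conv_lhs => rw [← lin_lc hl]
          simp only [lin, map_add, map_mul, eval_C, eval_X]
          fin_cases i <;> simp
        funext i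
        have h8 := hlc (Pi.single i 1)
        rw [h7 l hl i, h7 mu h.hmu i] at h8
        rw [Pi.sub_apply, Pi.smul_apply, smul_eq_mul, h8]
        simp
      rw [h6]
      simp [lin]
    have h9 : lc l = c • lc mu := by
      have := lin_eq_zero.1 h5
      exact sub_eq_zero.1 this
    rw [← lin_lc hl, h9, lin_smul, lin_lc h.hmu]
  have hmumu : mu * mu ∈ N K := by
    have h5 : mu * mu = c⁻¹ • (mu * l) := by
      rw [hlmu, smul_eq_C_mul]
      have : C c⁻¹ * (mu * (C c * mu)) = C (c⁻¹ * c) * (mu * mu) := by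
        rw [C_mul]; ring
      rw [this, inv_mul_cancel₀ hc0, C_1, one_mul]
    rw [h5]
    exact smul_mem _ _ hmul
  refine ⟨?_, ?_⟩
  · intro hN
    obtain ⟨c', hc'⟩ := N_unique h.hmu h.mu0 h.hlam h.hmu h.mu0 (by rw [mul_comm]; exact hN) hmumu
    exact hnm' ⟨C c', by rw [hc', mul_comm]⟩
  obtain ⟨v, hv1, hv2⟩ := exists_dir h.ti.p0 h.hmu hm
  have hlamv : eval v lam ≠ 0 := by
    intro h0
    exact hnm' (dvd_of_zeros h.hlam h.lam0 h.hmu h.mu0 hv2 hlamp h0 hm hv1)
  set δ1 : K := dr p v' del with hδ1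
  set δ2 : K := eval v' del with hδ2
  have hδ10 : δ1 ≠ 0 := by
    rw [hδ1, hdr]
    exact hlv'0
  refine ⟨v, δ2 • p + (-δ1) • v', hv1, hv2, ?_, hlamv, ?_, ?_, ?_, ?_⟩
  · rw [hdr, hlc, hv1, mul_zero]
  · rw [eval_lin_comb h.hlam, hlamp, hv'1]
    ring
  · have h5 : eval (δ2 • p + (-δ1) • v') del = 0 := by
      rw [rs_eval p v' h.hdel]
      rw [Finset.sum_range_succ, Finset.sum_range_succ, Finset.sum_range_succ, Finset.sum_range_zero, rs_coeff_zero, h.delp,
        rs_top p v' h.hdel, ← dr_apply, ← hδ1, ← hδ2]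
      ring
    exact h5
  · -- evaluate `p1_sq` at `r`
    have hr1 : eval (δ2 • p + (-δ1) • v') del = 0 := by
      rw [rs_eval p v' h.hdel]
      rw [Finset.sum_range_succ, Finset.sum_range_succ, Finset.sum_range_succ, Finset.sum_range_zero, rs_coeff_zero, h.delp,
        rs_top p v' h.hdel, ← dr_apply, ← hδ1, ← hδ2]
      ring
    have hr2 : eval (δ2 • p + (-δ1) • v') lam = 0 := by
      rw [eval_lin_comb h.hlam, hlamp, hv'1]
      ring
    have hr3 : eval (δ2 • p + (-δ1) • v') mu ≠ 0 := by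
      rw [eval_lin_comb h.hmu, hm, mul_zero, zero_add]
      exact mul_ne_zero (neg_ne_zero.2 hδ10) hmuv'
    have e1 := congrArg (eval (δ2 • p + (-δ1) • v')) e
    rw [map_add, map_mul, map_mul, map_mul, map_mul, hr1, hr2, zero_mul, zero_mul, add_zero] at e1
    rcases mul_eq_zero.1 e1 with h6 | h6
    · exact absurd h6 hr3
    · exact mul_self_eq_zero.1 h6
  · rw [eval_lin_comb h.hmu, hm, mul_zero, zero_add]
    exact mul_ne_zero (neg_ne_zero.2 hδ10) hmuv'

end TD

end Pool.Agent.BR
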