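import Pool.Agent.Work.MP_be705b_al.II.BBBase2
import Pool.Agent.Work.MP_be705b_al.II.BBP1

set_option autoImplicit false
set_option linter.unusedSectionVars false
set_option linter.unusedVariables false

/-!
# MP_be705b_al, type II, block B, module BBA3 (M): the case `mu (p) = 0`, `A 3`

PROOFS.  `v`, `r` from `p1_lin`.  Let `Q` be the space of all `f ∈ H K 5` with `f (p) = 0`, `dr p v f = 0`, `f (r) = 0`
(`H K 5 ⊓ ker ⊓ ker ⊓ ker`; `(aeval p).toLinearMap`, `aeval_eq_eval` as in `IP`).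
* `finrank Q + 3 = finrank (H K 5) = 21` by `finrank_inf_ker` three times: `p`: `exists_eval_ne`; `dr p v`: `lam * g`, `g ∈ H K 4`, `g (p) ≠ 0`, has
  value `0` at `p` and `dr p v (lam * g) = lam (v) g (p) ≠ 0`; `r`: `mu * g` with `g ∈ H K 4`, `g (r) ≠ 0` (`r ≠ 0` since `mu (r) ≠ 0`), value `0` at
  `p`, `dr p v (mu * g) = mu (v) g (p) = 0`.
* `V 3 * cubics ≤ mulS mu Q`: `TB.V3_dec4`: `lam * mu * g + mu * del * w = mu * (lam * g + del * w)`; `g (p) = 0`, `lam (p) = lam (r) = 0`, `del (p) = del (r) = 0`,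
  `dr p v del = 0`; `dr_mul`.  Dimensions: `18 = 18` (`TB.dim_V3`, `finrank_mulS`), so equality (`eq_of_le_of_finrank_le`).
* `p1_A3`: `f ∈ A 3` iff `f ∈ cubics` and `f * (mu * del2) ∈ V 3 * cubics = mulS mu Q` iff (`mul_mem_mulS_iff`) `f * del2 ∈ Q` iff `f (p) = 0` and
  `dr p v f * del2 (p) = 0` (`dr_mul`; `del2 (r) = 0`, `del2 (p) ≠ 0`).
* `p1_card`: `finrank (A 3) = 9 - 2` (`finrank_inf_ker`: `exists_cubic_ne`; `lam * κ`, `κ ∈ N K`, `κ (p) ≠ 0`), `Fl.cl1`.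
* `p1_out`: `c ∈ out (A 3)` (`Fl.isC_out`, `A 3` vanishes at `p`), `b ∈ out (A 3)` (`b_out`), `b ≠ c` because `c ∈ out (A 1)` (`Fl.isC_out`, `TII.A1_eval`) and
  `out_A1_iff`.  Two elements.
* `p1_dv`: `mu * κ`: `mu (p) = 0`, `dr p v (mu * κ) = mu (v) κ (p) = 0`.
-/

namespace Pool.Agent.BR

open Submodule Module MvPolynomial

variable {K : Type*} [Field K] {t : Fin 9 → Pol K} {p : Fin 3 → K} {lam lam' mu del del2 : Pol K}
  {a b m : Fin 9}

namespace TD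

private theorem a3_ev (p : Fin 3 → K) (f : Pol K) :
    (aeval p : Pol K →ₐ[K] K).toLinearMap f = eval p f := by
  rw [AlgHom.toLinearMap_apply, aeval_eq_eval]

theorem p1_A3 (h : TD t p lam lam' mu del del2 a b m) (hm : eval p mu = 0) :
    ∃ v : Fin 3 → K, eval v mu = 0 ∧ eval v lam ≠ 0 ∧
    ∀ f, f ∈ A K t 3 ↔ f ∈ cubics K ∧ eval p f = 0 ∧ dr p v f = 0 := by
  obtain ⟨hN, v, r, vmu, hli, ddel, vlam, rlam, rdel, rdel2, rmu⟩ := h.p1_lin hm
  refine ⟨v, vmu, vlam, ?_⟩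
  have r0 : r ≠ 0 := by
    rintro rfl
    apply rmu
    rw [← lin_lc h.hmu, eval_lin]
    simp [dot]
  have hlp := h.ti.lp
  set Q1 : Submodule K (Pol K) := H K 5 ⊓ LinearMap.ker (aeval p : Pol K →ₐ[K] K).toLinearMap with hQ1
  set Q2 : Submodule K (Pol K) := Q1 ⊓ LinearMap.ker (dr p v) with hQ2
  set Q : Submodule K (Pol K) := Q2 ⊓ LinearMap.ker (aeval r : Pol K →ₐ[K] K).toLinearMap with hQ
  have i1 : Module.Finite K ↥Q1 := Submodule.finiteDimensional_of_le (inf_le_left : Q1 ≤ H K 5)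
  have i2 : Module.Finite K ↥Q2 := Submodule.finiteDimensional_of_le (inf_le_left : Q2 ≤ Q1)
  have i3 : Module.Finite K ↥Q := Submodule.finiteDimensional_of_le (inf_le_left : Q ≤ Q2)
  have mQ1 : ∀ f, f ∈ Q1 ↔ f ∈ H K 5 ∧ eval p f = 0 := by
    intro f
    rw [hQ1, mem_inf, LinearMap.mem_ker, a3_ev]
  have mQ2 : ∀ f, f ∈ Q2 ↔ (f ∈ H K 5 ∧ eval p f = 0) ∧ dr p v f = 0 := by
    intro f
    rw [hQ2, mem_inf, LinearMap.mem_ker, mQ1]
  have mQ : ∀ f, f ∈ Q ↔ ((f ∈ H K 5 ∧ eval p f = 0) ∧ dr p v f = 0) ∧ eval r f = 0 := by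
    intro f
    rw [hQ, mem_inf, LinearMap.mem_ker, a3_ev, mQ2]
  have e1 : finrank K ↥Q1 + 1 = finrank K ↥(H K 5) := by
    obtain ⟨u, hu, hu0⟩ := exists_eval_ne h.ti.p0 5
    exact finrank_inf_ker hu (by rw [a3_ev]; exact hu0)
  have e2 : finrank K ↥Q2 + 1 = finrank K ↥Q1 := by
    obtain ⟨g, hg, hg0⟩ := exists_eval_ne h.ti.p0 4
    refine finrank_inf_ker (u := lam * g) ?_ ?_
    · rw [mQ1]
      exact ⟨mul_mem_H h.hlam hg, by rw [map_mul, hlp, zero_mul]⟩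
    · rw [dr_mul, hlp, zero_mul, zero_add, dr_linform p v h.hlam]
      exact mul_ne_zero vlam hg0
  have e3 : finrank K ↥Q + 1 = finrank K ↥Q2 := by
    obtain ⟨g, hg, hg0⟩ := exists_eval_ne r0 4
    refine finrank_inf_ker (u := mu * g) ?_ ?_
    · rw [mQ2]
      refine ⟨⟨mul_mem_H h.hmu hg, by rw [map_mul, hm, zero_mul]⟩, ?_⟩
      rw [dr_mul, hm, dr_linform p v h.hmu, vmu]
      ring
    · rw [a3_ev, map_mul]
      exact mul_ne_zero rmu hg0
  have hdp := h.delp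
  have hle : V K t 3 * cubics K ≤ mulS mu Q := by
    intro f hf
    obtain ⟨g, hg, w, hw, rfl⟩ := h.tb.V3_dec4 hf
    have e4 : lam * mu * g + mu * del * w = mu * (lam * g + del * w) := by ring
    rw [e4]
    refine mul_mem_mulS ((mQ _).2 ⟨⟨⟨?_, ?_⟩, ?_⟩, ?_⟩)
    · exact add_mem (mul_mem_H h.hlam (mem_IP.1 hg).1) (mul_mem_H h.hdel (cubics_le hw))
    · rw [map_add, map_mul, map_mul, hlp, hdp]
      ring
    · rw [map_add, dr_mul, dr_mul, hlp, hdp, ddel, (mem_IP.1 hg).2]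
      ring
    · rw [map_add, map_mul, map_mul, rlam, rdel]
      ring
  have hfin : Module.Finite K ↥(mulS mu Q) := by
    refine Submodule.finiteDimensional_of_le (S₂ := H K 6) ?_
    refine (mulS_mono ?_).trans (mulS_H_le (d := 1) (e := 5) h.hmu)
    intro f hf
    exact ((mQ f).1 hf).1.1.1
  have heq : V K t 3 * cubics K = mulS mu Q := by
    refine Submodule.eq_of_le_of_finrank_le hle ?_
    rw [finrank_mulS h.mu0, h.tb.dim_V3.1]
    rw [finrank_H5] at e1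
    omega
  intro f
  have h1 : f ∈ A K t 3 ↔ f ∈ cubics K ∧ f * t 3 ∈ V K t 3 * cubics K := h.fl.mem_A
  have e5 : f * t 3 = mu * (f * del2) := by
    rw [h.tc.t3]
    ring
  rw [h1, e5, heq, mul_mem_mulS_iff h.mu0, mQ]
  constructor
  · rintro ⟨hf, ⟨⟨_, h2⟩, h3⟩, _⟩
    rw [map_mul] at h2
    have h4 := (mul_eq_zero.1 h2).resolve_right h.d2
    rw [dr_mul, h4, zero_mul, zero_add] at h3
    exact ⟨hf, h4, (mul_eq_zero.1 h3).resolve_right h.d2⟩
  · rintro ⟨hf, h2, h3⟩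
    refine ⟨hf, ⟨⟨mul_mem_H (cubics_le hf) h.hdel2, ?_⟩, ?_⟩, ?_⟩
    · rw [map_mul, h2, zero_mul]
    · rw [dr_mul, h2, h3]
      ring
    · rw [map_mul, rdel2, mul_zero]

theorem p1_card (h : TD t p lam lam' mu del del2 a b m) (hm : eval p mu = 0) :
    (out K t (A K t 3)).card = 2 := by
  obtain ⟨v, vmu, vlam, hA⟩ := h.p1_A3 hm
  set Q1 : Submodule K (Pol K) := cubics K ⊓ LinearMap.ker (aeval p : Pol K →ₐ[K] K).toLinearMap with hQ1
  set Q2 : Submodule K (Pol K) := Q1 ⊓ LinearMap.ker (dr p v) with hQ2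
  have i0 : Module.Finite K ↥(cubics K) := Submodule.finiteDimensional_of_le cubics_le
  have i1 : Module.Finite K ↥Q1 := Submodule.finiteDimensional_of_le (inf_le_left : Q1 ≤ cubics K)
  have mQ1 : ∀ f, f ∈ Q1 ↔ f ∈ cubics K ∧ eval p f = 0 := by
    intro f
    rw [hQ1, mem_inf, LinearMap.mem_ker, a3_ev]
  have mQ2 : ∀ f, f ∈ Q2 ↔ (f ∈ cubics K ∧ eval p f = 0) ∧ dr p v f = 0 := by
    intro f
    rw [hQ2, mem_inf, LinearMap.mem_ker, mQ1]
  have e1 : finrank K ↥Q1 + 1 = finrank K ↥(cubics K) := by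
    obtain ⟨u, hu, hu0⟩ := exists_cubic_ne h.ti.p0
    exact finrank_inf_ker hu (by rw [a3_ev]; exact hu0)
  have e2 : finrank K ↥Q2 + 1 = finrank K ↥Q1 := by
    obtain ⟨κ, hκ, hκ0⟩ := exists_N_ne h.ti.p0
    refine finrank_inf_ker (u := lam * κ) ?_ ?_
    · rw [mQ1]
      exact ⟨mul_KK_mem h.hlam (N_le_KK h.hlam hκ), by rw [map_mul, h.ti.lp, zero_mul]⟩
    · rw [dr_mul, h.ti.lp, zero_mul, zero_add, dr_linform p v h.hlam]
      exact mul_ne_zero vlam hκ0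
  have e3 : A K t 3 = Q2 := by
    ext f
    rw [hA, mQ2]
    tauto
  have c1 := h.fl.cl1 (h.fl.A_le 3) (h.fl.llA 3)
  rw [finrank_cubics] at e1
  rw [e3] at c1 ⊢
  omega

theorem p1_out (h : TD t p lam lam' mu del del2 a b m) (hm : eval p mu = 0) {c : Fin 9}
    (hc : IsC t p c) : out K t (A K t 3) = {b, c} ∧ b ≠ c := by
  classical
  obtain ⟨v, vmu, vlam, hA⟩ := h.p1_A3 hm
  have hc3 : c ∈ out K t (A K t 3) := h.fl.isC_out hc (fun u hu => ((hA u).1 hu).2.1)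
  have hc1 : c ∈ out K t (A K t 1) := h.fl.isC_out hc h.ti.A1_eval
  have hbc : b ≠ c := fun e => ((h.out_A1_iff c).1 hc1).2.2.2 e.symm
  refine ⟨?_, hbc⟩
  symm
  apply Finset.eq_of_subset_of_card_le
  · intro i hi
    rw [Finset.mem_insert, Finset.mem_singleton] at hi
    rcases hi with rfl | rfl
    · exact h.b_out
    · exact hc3
  · rw [h.p1_card hm, Finset.card_pair hbc]

theorem p1_dv (h : TD t p lam lam' mu del del2 a b m) (hm : eval p mu = 0) : dv mu ≤ A K t 3 := by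
  obtain ⟨v, vmu, vlam, hA⟩ := h.p1_A3 hm
  intro f hf
  obtain ⟨κ, hκ, rfl⟩ := mem_mulS.1 hf
  rw [hA]
  refine ⟨mul_KK_mem h.hmu hκ, ?_, ?_⟩
  · rw [map_mul, hm, zero_mul]
  · rw [dr_mul, hm, dr_linform p v h.hmu, vmu]
    ring

end TD

end Pool.Agent.BR
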