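import Pool.Agent.Work.MP_be705b_al.II.BB5
import Pool.Agent.Work.MP_be705b_al.II.BBA3
import Pool.Agent.Work.MP_be705b_al.II.BBLoop
import Pool.Agent.Work.MP_be705b_al.II.X1

set_option autoImplicit false
set_option linter.unusedSectionVars false
set_option linter.unusedVariables false

/-!
# MP_be705b_al, type II, block B, module BB5M (M): `V 5 = dv mu`, `lam * mu ∉ N K` is impossible

PROOF.  `verts`: `out (dv lam) = {2, 3, x, y}`, `out (V 4) = {a, b, m, x, y}`.  `finrank (dv lam ⊔ dv mu) = 8` (`TB.dim_sup`) so `out (dv lam ⊔ V 5)` has one element (`Fl.cl1`,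
`cl2_sup`), and `= {x, y} \ {4}` (`Fl.out_sup_V`), so `4 ∈ {x, y}`; let `c` be the other one, `out (dv lam ⊔ V 5) = {c}`, `out (V 5) = {a, b, m, c}` (`Fl.mem_out_V`), `c ≥ 5`.
`c` is a loop: `cl 2 {c} = 1` (`cl2_sup`; `cl_erase`).  `c ∈ out (dv lam) ⊆ out (A 1)`, so `m` is not adjacent to `c` (`m_iso`).
`5 ∈ out (V 5)` is adjacent to all of `out (V 5)` (`full5`), so `5 ≠ m` (`m_noloop`), `5 ≠ c`; so `5 = a` or `5 = b`.
Let `{5, b'} = {a, b}`, `out (V 6) = {b', m, c}` (`nums6`), `gr_tri`: `b'` is a loop, adjacent to `m`, not adjacent to `c`.  So `a` and `b` are both loops.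
If `mu (p) ≠ 0`: contradiction to `p2_b`.
If `mu (p) = 0`: let `IsC t p c0` (`exists_isC`, `TII.p0`).  `dv lam ⊔ V 5` vanishes at `p` (`V 5 = dv mu`), so `c0 ∈ out (..) = {c}`, `c0 = c`.  `out (A 3) = {b, c}` (`p1_out`) and
`nb b (out (A 3))` has one element (`nb_b`), `b` is a loop, so `b` is not adjacent to `c`.  `5` is adjacent to `c`, so `5 ≠ b`, `5 = a`, `b' = b`.
`5 = a ∈ inn (mulS lam (Ph p))`: `t 5 + v = lam * ψ`, `v ∈ V 5 = dv mu`, `mu ∤ ψ` (`t 5 ∉ V 5`, `mem_dv`).  Now `p = pa`.  `U = V 6 ∈ LL`, `nil_pa`, `Fl.loop_isC`: the loop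
`b ∈ out (V 6)` is `c0 = c`, but `b ≠ c`.  Contradiction.
-/

namespace Pool.Agent.BR

open Submodule Module MvPolynomial

variable {K : Type*} [Field K] {t : Fin 9 → Pol K} {p : Fin 3 → K} {lam lam' mu del del2 : Pol K}
  {a b m : Fin 9}

theorem TD.dead5_notN (h : TD t p lam lam' mu del del2 a b m) (hpa : eval p mu = 0 → p = pa)
    (hN : lam * mu ∉ N K) (h5 : V K t 5 = dv mu) : False := by
  classical
  obtain ⟨r, hnd, ho, hadj, haa, hbb, hrr, hmm, hmr, hab, ham, hbm, hor⟩ := h.tc.x1 hN h5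
  have fl := h.fl
  have hT := h.ti
  by_cases hm : eval p mu = 0
  · obtain ⟨c0, hc0⟩ := fl.exists_isC hT.p0
    have hcr : c0 = r := h.tc.x1c h5 hm ho hc0
    obtain ⟨hA3, hbc⟩ := h.p1_out hm hc0
    have hnb := h.nb_b
    have hnbr : ¬ Adj K t b r := by
      intro hbr
      have e : nb K t b (out K t (A K t 3)) = {b, c0} := by
        rw [hA3]
        ext i
        rw [mem_nb]
        constructor
        · exact fun h1 => h1.1
        · intro h1
          refine ⟨h1, ?_⟩
          simp only [Finset.mem_insert, Finset.mem_singleton] at h1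
          rcases h1 with rfl | rfl
          · exact hbb
          · rw [hcr]; exact hbr
      rw [e, Finset.card_pair hbc] at hnb
      omega
    rcases hor with ⟨e, _, _⟩ | ⟨_, e, _⟩
    · have hpa' : p = pa := hpa hm
      subst hpa'
      have ha : a ∈ inn K t (mulS lam (Ph (pa : Fin 3 → K))) := by rw [h.tv.iPh]; simp
      rw [← e] at ha
      obtain ⟨v, hv, hu⟩ := mem_inn.1 ha
      obtain ⟨ψ, hψ, hψe⟩ := mem_mulS.1 hu
      have hv5 : v ∈ V K t 5 := hv
      have hd : ¬ mu ∣ ψ := by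
        intro hd
        have h1 : lam * ψ ∈ dv mu := by
          rw [mem_dv h.hmu h.mu0]
          refine ⟨?_, dvd_mul_of_dvd_right hd _⟩
          rw [hψe]
          exact add_mem (fl.mem 5) (fl.V_le _ hv)
        rw [hψe, ← h5] at h1
        have h2 : t 5 ∈ V K t 5 := by
          have h3 := sub_mem h1 hv5
          rwa [add_sub_cancel_right] at h3
        exact t_notMem fl.li 5 h2
      have hdv6 : dv mu ≤ V K t 6 := by
        rw [← h5]
        exact V_mono (by norm_num)
      have hψ6 : lam * ψ ∈ V K t 6 := by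
        rw [hψe]
        exact add_mem (t_mem (by simp)) (V_mono (by norm_num) hv5)
      have hb6 : b ∈ out K t (V K t 6) := by
        rw [fl.mem_out_V]
        have h1 : b ∈ out K t (V K t 5) := by rw [ho]; simp
        rw [fl.mem_out_V] at h1
        have h2 : (b : ℕ) ≠ 5 := by
          intro h3
          apply h.tv.ab
          rw [← e]
          exact Fin.ext h3.symm
        omega
      have h7 := fl.loop_isC (fl.V_le 6) (fl.llV 6) hc0
        (fun w hw hw0 => nil_pa h.hlam h.lam0 h.hmu h.mu0 hT.lp hm h.tb.nm hψ hd hdv6 hψ6 hw hw0) hb6 hbb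
      exact hbc h7
    · exact hnbr e
  · exact h.p2_b hm hbb

end Pool.Agent.BR
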