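import Pool.Agent.Work.MP_be705b_al.II.BBBase1

set_option autoImplicit false
set_option linter.unusedSectionVars false
set_option linter.unusedVariables false

/-!
# MP_be705b_al, type II, block B, module BBBase2 (M): the vertices `a`, `b`, `m` and `out (A 3)`

PROOFS.  Recall `Fl.outA 3 : out (A 3) = nb 3 (out (V 3))`, `V 3 ≤ A 3`.
* `a_in`: `mulS lam (Ph p) ≤ A 3` (`lam_A3'`, `Ph p ≤ Fp p ≤ KK lam`, `Ph_eval`), `inn_mono`, `h.tv.iPh`.
* `m_in`: if `m ∈ out (A 3) = nb 3 (out (V 3))` then `Adj 3 m`, but `3 ∈ out (dv lam) ⊆ out (A 1)` (`A1_le_dv`, `out_mono`) and `m_iso`.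
* `b_out`: suppose `b ∈ inn (A 3)`.  `U = V 3 ⊔ A 1 ∈ LL` (`llSupV`, `llA`, `sup_comm`), `V 3 ≤ U`, `t 3 ∉ U` (`3 ∈ out (A 1)`, `Fl.out_sup_V`,
  `Fl.min_mem_out`), so `out (U ⊔ A 3) = nb 3 (out U)` (`outSupA`).  `nb 3 (out (V 3)) ⊆ nb 3 (out U)`: an element `i` of `out (V 3)`,
  adjacent to `3`, is in `out (A 3)`, so `i ≠ a, b` (`a_in`, assumption), `i ≥ 3`, so `i ∈ out (A 1)` (`out_A1_iff`), `i ∈ out U`.  So
  `out (A 3) ⊆ out (U ⊔ A 3)`, and with `A 3 ≤ U ⊔ A 3` and `dim_one` (twice; `Submodule.eq_of_le_of_finrank_le`) `A 3 = U ⊔ A 3 ≥ A 1`.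
  Take `κ ∈ N K`, `κ (p) ≠ 0` (`exists_N_ne`): `lam * κ ∈ A 1 ≤ A 3` (`TII.A1`), contradiction to `lam_A3'`.
* `out_A3A1`: `A 3 ⊔ A 1 = (V 3 ⊔ A 1) ⊔ A 3`, so `= nb 3 (out (V 3 ⊔ A 1))`, and `i ∈ out (V 3 ⊔ A 1)` iff `i ∈ out (V 3)`, `i ≠ a, b`
  (`Fl.out_sup_V`, `out_A1_iff`); `a ∉ out (A 3)`.
* `nb_b`: `cl 2 (out (A 3)) = card (nb b (out (A 3))) + cl 2 ((out (A 3)).erase b)` (`cl_erase 1`, `cl_one`) and by `Fl.cl2` for `A 3` and
  `A 3 ⊔ A 1` (in `LL`: it is `(V 3 ⊔ A 1) ⊔ A 3`, `llSupA`): `card (nb b ..) = finrank ((A 3 ⊔ A 1) * cubics) - finrank (A 3 * cubics)`.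
  `(A 3 ⊔ A 1) * cubics = A 3 * cubics ⊔ mulS lam (H K 5)` (`sup_mul`, `TII.A1_mul`) and `A 3 * cubics ⊓ mulS lam (H K 5) = mulS lam (IP p 5)`
  (`lam_A3`), dimension `finrank (H 5) - 1` (`finrank_mulS`, `finrank_IP`), `finrank_sup_add_finrank_inf_eq`.  So it is `1`.
* `cl_V4`: `cl d` for `d = 2, 3`: `cl (d) (out (V 3)) = cl (d-1) (out (A 3)) + cl d (out (V 4))` (`Fl.exact` for `U = V 3`, `j = 3`, or `cl_erase`), and for
  `U = V 3 ⊔ A 1`: `cl d (out U) = cl (d-1) ((out (A 3)).erase b) + cl d (out (V 4 ⊔ A 1))` (`out_A3A1`; `U ⊔ V 4 = V 4 ⊔ A 1`).  Numbers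
  `TB.out_V3`: `10, 13`, `TB.out_V3A1`: `3, 3`.  `card (out (A 3)) = card (erase) + 1`, `cl 2 (out (A 3)) = 1 + cl 2 (erase)` (`nb_b`).
* `p2_loop3`: `IsC t p 3`: `V 3` vanishes at `p` (`TB.V3_eval`), `t 3 (p) = mu (p) del2 (p)`; `Fl.isC_loop`.
* `p2_b`: `3 ∈ out (A 3)` (loop, `outA`), `Adj 3 b` as `b ∈ out (A 3) = nb 3 (out (V 3))`; so `3 ∈ nb b (out (A 3))`; if `b` is a loop then `b` is in it too,
  `b ≠ 3` (`ge4`), contradiction to `nb_b`.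
-/

namespace Pool.Agent.BR

open Submodule Module MvPolynomial

variable {K : Type*} [Field K] {t : Fin 9 → Pol K} {p : Fin 3 → K} {lam lam' mu del del2 : Pol K}
  {a b m : Fin 9}

namespace TD

private theorem bb_PhA3 (h : TD t p lam lam' mu del del2 a b m) :
    mulS lam (Ph p) ≤ A K t 3 := by
  intro f hf
  obtain ⟨κ, hκ, rfl⟩ := mem_mulS.1 hf
  exact (h.lam_A3' (Fp_le_KK h.hlam h.ti.lp hκ.1)).2 (Ph_eval hκ)

private theorem bb_outA3 (h : TD t p lam lam' mu del del2 a b m) (i : Fin 9) :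
    i ∈ out K t (A K t 3) ↔ 3 ≤ (i : ℕ) ∧ Adj K t 3 i := by
  rw [h.fl.outA 3, mem_nb, h.fl.mem_out_V]
  exact Iff.rfl

private theorem bb_3A1 (h : TD t p lam lam' mu del del2 a b m) :
    (3 : Fin 9) ∈ out K t (A K t 1) := out_mono h.ti.A1_le_dv h.tc.o3

private theorem bb_A1le (h : TD t p lam lam' mu del del2 a b m) : A K t 1 ≤ cubics K :=
  h.fl.A_le 1

private theorem bb_llU (h : TD t p lam lam' mu del del2 a b m) :
    LL K t (A K t 1 ⊔ V K t 3) := h.fl.llSupV h.bb_A1le (h.fl.llA 1) 3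

private theorem bb_leU (h : TD t p lam lam' mu del del2 a b m) :
    A K t 1 ⊔ V K t 3 ≤ cubics K := sup_le h.bb_A1le (h.fl.V_le 3)

private theorem bb_V3U (h : TD t p lam lam' mu del del2 a b m) :
    V K t ((3 : Fin 9) : ℕ) ≤ A K t 1 ⊔ V K t 3 := le_sup_right

private theorem bb_t3U (h : TD t p lam lam' mu del del2 a b m) :
    t 3 ∉ A K t 1 ⊔ V K t 3 := by
  rw [← h.fl.min_mem_out h.bb_V3U, h.fl.out_sup_V]
  exact ⟨h.bb_3A1, le_refl _⟩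

private theorem bb_outU (h : TD t p lam lam' mu del del2 a b m) :
    out K t (A K t 1 ⊔ V K t 3 ⊔ A K t 3) = nb K t 3 (out K t (A K t 1 ⊔ V K t 3)) :=
  h.fl.outSupA h.bb_leU h.bb_llU h.bb_V3U h.bb_t3U

private theorem bb_llUA (h : TD t p lam lam' mu del del2 a b m) :
    LL K t (A K t 1 ⊔ V K t 3 ⊔ A K t 3) :=
  h.fl.llSupA h.bb_leU h.bb_llU h.bb_V3U h.bb_t3U

private theorem bb_sup (h : TD t p lam lam' mu del del2 a b m) :
    A K t 1 ⊔ V K t 3 ⊔ A K t 3 = A K t 3 ⊔ A K t 1 := by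
  have h1 : V K t 3 ≤ A K t 3 := V_le_A (3 : Fin 9)
  apply le_antisymm
  · exact sup_le (sup_le le_sup_right (h1.trans le_sup_left)) le_sup_left
  · exact sup_le le_sup_right (le_sup_left.trans le_sup_left)

theorem a_in (h : TD t p lam lam' mu del del2 a b m) : a ∈ inn K t (A K t 3) := by
  refine inn_mono h.bb_PhA3 ?_
  rw [h.tv.iPh]
  simp

theorem m_in (h : TD t p lam lam' mu del del2 a b m) : m ∈ inn K t (A K t 3) := by
  by_contra hcon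
  rw [notMem_inn, h.bb_outA3] at hcon
  exact h.m_iso h.bb_3A1 (adj_symm hcon.2)

theorem b_out (h : TD t p lam lam' mu del del2 a b m) : b ∈ out K t (A K t 3) := by
  by_contra hcon
  rw [notMem_out] at hcon
  have hsub : out K t (A K t 3) ⊆ out K t (A K t 1 ⊔ V K t 3 ⊔ A K t 3) := by
    intro i hi
    have hi' := (h.bb_outA3 i).1 hi
    rw [h.bb_outU, mem_nb, h.fl.out_sup_V, h.out_A1_iff]
    refine ⟨⟨⟨?_, ?_, ?_, ?_⟩, hi'.1⟩, hi'.2⟩
    · rintro rfl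
      exact absurd hi'.1 (by decide)
    · rintro rfl
      exact absurd hi'.1 (by decide)
    · rintro rfl
      exact notMem_out.2 h.a_in hi
    · rintro rfl
      exact notMem_out.2 hcon hi
  have hc := Finset.card_le_card hsub
  have hA3 : A K t 3 ≤ cubics K := h.fl.A_le 3
  have hUA : A K t 1 ⊔ V K t 3 ⊔ A K t 3 ≤ cubics K := sup_le h.bb_leU hA3
  have e1 := h.fl.cl1 hA3 (h.fl.llA 3)
  have e2 := h.fl.cl1 hUA h.bb_llUA
  have hfin : Module.Finite K ↥(A K t 1 ⊔ V K t 3 ⊔ A K t 3) :=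
    Submodule.finiteDimensional_of_le (hUA.trans cubics_le)
  have e3 : A K t 3 = A K t 1 ⊔ V K t 3 ⊔ A K t 3 :=
    Submodule.eq_of_le_of_finrank_le le_sup_right (by omega)
  have e4 : A K t 1 ≤ A K t 3 := by
    rw [e3]
    exact le_sup_left.trans le_sup_left
  obtain ⟨κ, hκ, h0⟩ := exists_N_ne h.ti.p0
  have h1 : lam * κ ∈ A K t 1 := by
    rw [h.ti.A1]
    exact mul_mem_mulS (N_le_Fp p hκ)
  exact h0 ((h.lam_A3' (N_le_KK h.hlam hκ)).1 (e4 h1))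

theorem out_A3A1 (h : TD t p lam lam' mu del del2 a b m) :
    out K t (A K t 3 ⊔ A K t 1) = (out K t (A K t 3)).erase b := by
  rw [← h.bb_sup, h.bb_outU]
  ext i
  rw [mem_nb, h.fl.out_sup_V, h.out_A1_iff, Finset.mem_erase, h.bb_outA3]
  constructor
  · rintro ⟨⟨⟨-, -, -, h4⟩, h5⟩, h6⟩
    exact ⟨h4, h5, h6⟩
  · rintro ⟨h4, h5, h6⟩
    refine ⟨⟨⟨?_, ?_, ?_, h4⟩, h5⟩, h6⟩
    · rintro rfl
      exact absurd h5 (by decide)
    · rintro rfl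
      exact absurd h5 (by decide)
    · rintro rfl
      exact notMem_out.2 h.a_in ((h.bb_outA3 _).2 ⟨h5, h6⟩)

theorem nb_b (h : TD t p lam lam' mu del del2 a b m) :
    (nb K t b (out K t (A K t 3))).card = 1 := by
  have hA3 : A K t 3 ≤ cubics K := h.fl.A_le 3
  have hA1 := h.bb_A1le
  have e1 : cl K t 2 (out K t (A K t 3)) = cl K t 1 (nb K t b (out K t (A K t 3))) +
    cl K t 2 ((out K t (A K t 3)).erase b) := cl_erase (K := K) (t := t) 1 h.b_out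
  rw [cl_one, ← h.out_A3A1] at e1
  have e2 := h.fl.cl2 hA3 (h.fl.llA 3)
  have hLL : LL K t (A K t 3 ⊔ A K t 1) := by
    rw [← h.bb_sup]
    exact h.bb_llUA
  have e3 := h.fl.cl2 (sup_le hA3 hA1) hLL
  have e4 : (A K t 3 ⊔ A K t 1) * cubics K = A K t 3 * cubics K ⊔ mulS lam (H K 5) := by
    rw [Submodule.sup_mul, h.ti.A1_mul]
  rw [e4] at e3
  have e5 : A K t 3 * cubics K ⊓ mulS lam (H K 5) = mulS lam (IP p 5) := by
    apply le_antisymm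
    · rintro x ⟨hx1, hx2⟩
      obtain ⟨s, hs, rfl⟩ := mem_mulS.1 hx2
      exact mul_mem_mulS (mem_IP.2 ⟨hs, (h.lam_A3 hs).1 hx1⟩)
    · intro x hx
      obtain ⟨s, hs, rfl⟩ := mem_mulS.1 hx
      obtain ⟨hs1, hs2⟩ := mem_IP.1 hs
      exact ⟨(h.lam_A3 hs1).2 hs2, mul_mem_mulS hs1⟩
  have hf1 : Module.Finite K ↥(A K t 3 * cubics K) := by
    refine Submodule.finiteDimensional_of_le (S₂ := H K 6) ?_
    rw [← cubics_mul_cubics]
    exact mul_le_mul_left hA3 _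
  have hf2 : Module.Finite K ↥(mulS lam (H K 5)) :=
    Submodule.finiteDimensional_of_le (mulS_H_le h.hlam)
  have e6 := Submodule.finrank_sup_add_finrank_inf_eq (A K t 3 * cubics K) (mulS lam (H K 5))
  rw [e5, finrank_mulS h.lam0, finrank_mulS h.lam0] at e6
  have e7 := finrank_IP h.ti.p0 5
  omega

theorem cl_V4 (h : TD t p lam lam' mu del del2 a b m) :
    cl K t 2 (out K t (V K t 4)) = cl K t 2 (out K t (V K t 4 ⊔ A K t 1)) + 6 ∧
    cl K t 3 (out K t (V K t 4)) = cl K t 3 (out K t (V K t 4 ⊔ A K t 1)) + 9 := by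
  have hV3 : V K t 3 ≤ cubics K := h.fl.V_le 3
  have hl3 : LL K t (V K t 3) := h.fl.llV 3
  have hV : V K t ((3 : Fin 9) : ℕ) ≤ V K t 3 := le_refl _
  have ht : t 3 ∉ V K t 3 := t_notMem h.fl.li (3 : Fin 9)
  have hVA : V K t 3 ≤ A K t 3 := V_le_A (3 : Fin 9)
  have s1 : V K t 3 ⊔ A K t 3 = A K t 3 := sup_eq_right.2 hVA
  have s2 : V K t 3 ⊔ V K t (((3 : Fin 9) : ℕ) + 1) = V K t 4 :=
    sup_eq_right.2 (V_mono (by decide))
  have s3 : A K t 1 ⊔ V K t 3 ⊔ V K t (((3 : Fin 9) : ℕ) + 1) = V K t 4 ⊔ A K t 1 := by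
    rw [sup_assoc, s2, sup_comm]
  have s4 : A K t 1 ⊔ V K t 3 = V K t 3 ⊔ A K t 1 := sup_comm _ _
  have x1 := h.fl.exact hV3 hl3 hV ht 1
  have x2 := h.fl.exact hV3 hl3 hV ht 2
  have y1 := h.fl.exact h.bb_leU h.bb_llU h.bb_V3U h.bb_t3U 1
  have y2 := h.fl.exact h.bb_leU h.bb_llU h.bb_V3U h.bb_t3U 2
  rw [s1, s2] at x1 x2
  rw [s3, h.bb_sup, h.out_A3A1, s4] at y1 y2
  obtain ⟨v1, v2, v3, -⟩ := h.tb.out_V3
  obtain ⟨-, -, w2, w3, -⟩ := h.tb.out_V3A1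
  rw [cl_one] at x1 y1
  rw [Finset.card_erase_of_mem h.b_out] at y1
  have hc : 0 < (out K t (A K t 3)).card := Finset.card_pos.2 ⟨b, h.b_out⟩
  have e1 : cl K t 2 (out K t (A K t 3)) = cl K t 1 (nb K t b (out K t (A K t 3))) +
    cl K t 2 ((out K t (A K t 3)).erase b) := cl_erase (K := K) (t := t) 1 h.b_out
  rw [cl_one, h.nb_b] at e1
  norm_num at x1 x2 y1 y2
  omega

theorem p2_loop3 (h : TD t p lam lam' mu del del2 a b m) (hm : eval p mu ≠ 0) : Adj K t 3 3 := by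
  refine h.fl.isC_loop (p := p) (c := 3) ⟨?_, fun i hi => ?_⟩
  · rw [h.tc.t3, map_mul]
    exact mul_ne_zero hm h.d2
  · exact h.tb.V3_eval _ (BR.t_mem hi)

theorem p2_b (h : TD t p lam lam' mu del del2 a b m) (hm : eval p mu ≠ 0) : ¬ Adj K t b b := by
  intro hb
  have h3 : (3 : Fin 9) ∈ out K t (A K t 3) := (h.bb_outA3 3).2 ⟨le_refl _, h.p2_loop3 hm⟩
  have h3b : Adj K t 3 b := ((h.bb_outA3 b).1 h.b_out).2
  have m3 : (3 : Fin 9) ∈ nb K t b (out K t (A K t 3)) := mem_nb.2 ⟨h3, adj_symm h3b⟩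
  have mb : b ∈ nb K t b (out K t (A K t 3)) := mem_nb.2 ⟨h.b_out, hb⟩
  have h4 := Finset.card_le_one.1 h.nb_b.le _ m3 _ mb
  have h5 := h.ge4.2.1
  rw [← h4] at h5
  exact absurd h5 (by decide)

end TD

end Pool.Agent.BR
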