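import Pool.Agent.Work.MP_be705b_al.II.BB5
import Pool.Agent.Work.MP_be705b_al.II.BBBase2
import Pool.Agent.Work.MP_be705b_al.II.BBP1

set_option autoImplicit false
set_option linter.unusedSectionVars false
set_option linter.unusedVariables false

/-!
# MP_be705b_al, type II, block B, module BB5N (M): `V 5 = dv mu`, `lam * mu ∈ N K` is impossible

PROOF.  `mu (p) ≠ 0` by `p1_lin`.  So `b` is no loop (`p2_b`).
`verts`: `out (dv lam) = {2, 3, x, y}`, `out (V 4) = {a, b, m, x, y}`.  `finrank (dv lam ⊔ dv mu) = 7` (`TB.dim_sup`), so `out (dv lam ⊔ V 5)` has two elements (`Fl.cl1`, `cl2_sup`) and it is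
contained in `{x, y}` (`Fl.out_sup_V`), so `= {x, y}` and `x, y ≥ 5`; `4 ∈ {a, b, m}`.
If `4 ∈ {a, b}`: `4 ∈ inn (A 1)`, `t 4 + v ∈ A 1 ⊓ V 5 = A 1 ⊓ dv mu ≤ V 2` (`A1_inf`), so `t 4 ∈ V 4`, contradiction (`t_notMem`).  So `4 = m`, `out (V 5) = {a, b, x, y}`.
`cl 2 {x, y} = 1` (`cl2_sup`).  `5 ∈ out (V 5)` is a loop and adjacent to all of `out (V 5)` (`full5`).  If `5 ∈ {x, y}` then `cl 2 {x, y} ≥ 2` (the loop `5` and the edge).  So `5 ∈ {a, b}`, `5` is a
loop, so `5 = a`.  `out (V 6) = {b, x, y}` (`nums6`), `cl 2 = cl 3 = 3`, `b` no loop, `cl 2 {x, y} = 1`: `3 = card (nb b ..) + 1` (`cl_erase`), so `b` is adjacent to `x` and `y`: `gr_full`.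
-/

namespace Pool.Agent.BR

open Submodule Module MvPolynomial

variable {K : Type*} [Field K] {t : Fin 9 → Pol K} {p : Fin 3 → K} {lam lam' mu del del2 : Pol K}
  {a b m : Fin 9}

/-- two vertices with a loop and the edge have at least two cliques of size two -/
private theorem n5_two {t : Fin 9 → Pol K} {x y : Fin 9} (hxy : x ≠ y) (h1 : Adj K t x x)
    (h2 : Adj K t x y) (hcl : cl K t 2 ({x, y} : Finset (Fin 9)) = 1) : False := by
  rw [cl2_bits hxy] at hcl
  rw [← adjB_true] at h1 h2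
  rw [h1, h2] at hcl
  generalize adjB K t y y = x3 at *
  clear h1 h2
  revert x3
  decide

theorem TD.dead5_N (h : TD t p lam lam' mu del del2 a b m) (hN : lam * mu ∈ N K)
    (h5 : V K t 5 = dv mu) : False := by
  classical
  have fl := h.fl
  have hm : eval p mu ≠ 0 := fun hm => (h.p1_lin hm).1 hN
  have hb := h.p2_b hm
  obtain ⟨x, y, hx4, hy4, hxy, hxa, hxb, hxm, hya, hyb, hym, hoD, hoV⟩ := h.verts
  have hdim := h.tb.dim_sup.1 hN
  obtain ⟨hLL, hcl2⟩ := h.cl2_sup h5
  have hle : dv lam ⊔ V K t 5 ≤ cubics K := sup_le (BR.dv_le h.hlam) (fl.V_le 5)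
  have c1 := fl.cl1 hle hLL
  have hmem : ∀ i : Fin 9, i ∈ out K t (dv lam ⊔ V K t 5) ↔
      i ∈ ({2, 3, x, y} : Finset (Fin 9)) ∧ 5 ≤ (i : ℕ) := by
    intro i
    rw [fl.out_sup_V, hoD]
  have hc2 : (out K t (dv lam ⊔ V K t 5)).card = 2 := by
    rw [h5, hdim] at c1
    rw [h5]
    omega
  have hsub : out K t (dv lam ⊔ V K t 5) ⊆ ({x, y} : Finset (Fin 9)) := by
    intro i hi
    obtain ⟨hi1, hi2⟩ := (hmem i).1 hi
    simp only [Finset.mem_insert, Finset.mem_singleton] at hi1 ⊢
    rcases hi1 with rfl | rfl | hi1 | hi1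
    · exact absurd hi2 (by decide)
    · exact absurd hi2 (by decide)
    · exact Or.inl hi1
    · exact Or.inr hi1
  have hoxy : out K t (dv lam ⊔ V K t 5) = ({x, y} : Finset (Fin 9)) :=
    Finset.eq_of_subset_of_card_le hsub (by rw [Finset.card_pair hxy, hc2])
  have hx5 : 5 ≤ (x : ℕ) := ((hmem x).1 (by rw [hoxy]; simp)).2
  have hy5 : 5 ≤ (y : ℕ) := ((hmem y).1 (by rw [hoxy]; simp)).2
  rw [hoxy] at hcl2
  have h4in : (4 : Fin 9) ∈ out K t (V K t 4) := (fl.mem_out_V 4 4).2 (by decide)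
  rw [hoV] at h4in
  simp only [Finset.mem_insert, Finset.mem_singleton] at h4in
  have hA : (4 : Fin 9) ∈ inn K t (A K t 1) → False := by
    intro h4
    obtain ⟨v, hv, hu⟩ := mem_inn.1 h4
    have h45 : V K t 4 ≤ V K t 5 := V_mono (by norm_num)
    have hv4 : v ∈ V K t 4 := hv
    have e1 : t 4 + v ∈ V K t 5 := add_mem (BR.t_mem (by decide)) (h45 hv4)
    rw [h5] at e1
    have e2 := h.A1_inf (mem_inf.2 ⟨hu, e1⟩)
    have e3 : t 4 + v ∈ V K t 4 := V_mono (by norm_num) e2
    have e4 := sub_mem e3 hv4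
    rw [add_sub_cancel_right] at e4
    exact t_notMem fl.li 4 e4
  have h4m : (4 : Fin 9) = m := by
    rcases h4in with h4 | h4 | h4 | h4 | h4
    · exact (hA (by rw [h.tv.iA, h4]; simp)).elim
    · exact (hA (by rw [h.tv.iA, h4]; simp)).elim
    · exact h4
    · rw [← h4] at hx5
      exact absurd hx5 (by decide)
    · rw [← h4] at hy5
      exact absurd hy5 (by decide)
  have hoV5 : out K t (V K t 5) = (out K t (V K t 4)).erase 4 := by
    ext i
    rw [fl.mem_out_V, Finset.mem_erase, fl.mem_out_V]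
    constructor
    · intro hi
      refine ⟨?_, by omega⟩
      rintro rfl
      exact absurd hi (by decide)
    · rintro ⟨hi1, hi2⟩
      have hi3 : (i : ℕ) ≠ 4 := fun h7 => hi1 (Fin.ext h7)
      omega
  have hS5 : out K t (V K t 5) = ({a, b, x, y} : Finset (Fin 9)) := by
    rw [hoV5, hoV]
    ext i
    simp only [Finset.mem_erase, Finset.mem_insert, Finset.mem_singleton]
    have ham := h.tv.am
    have hbm := h.tv.bm
    constructor
    · rintro ⟨hi1, hi2⟩
      rw [h4m] at hi1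
      tauto
    · intro hi
      refine ⟨?_, by tauto⟩
      rw [h4m]
      rcases hi with rfl | rfl | rfl | rfl <;> assumption
  have hfull := h.full5 h5
  have h5in : (5 : Fin 9) ∈ out K t (V K t 5) := (fl.mem_out_V 5 5).2 (by decide)
  have hl5 : Adj K t 5 5 := hfull 5 h5in
  have h5a : (5 : Fin 9) = a := by
    have h5in' := h5in
    rw [hS5] at h5in'
    simp only [Finset.mem_insert, Finset.mem_singleton] at h5in'
    rcases h5in' with e | e | e | e
    · exact e
    · rw [e] at hl5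
      exact absurd hl5 hb
    · exfalso
      refine n5_two hxy (e ▸ hl5) (e ▸ hfull y (by rw [hS5]; simp)) hcl2
    · exfalso
      have hcl2' : cl K t 2 ({y, x} : Finset (Fin 9)) = 1 := by
        rw [Finset.pair_comm]
        exact hcl2
      refine n5_two hxy.symm (e ▸ hl5) (e ▸ hfull x (by rw [hS5]; simp)) hcl2'
  obtain ⟨n1, n2, n3, n4⟩ := h.nums6 h5
  have hS6 : out K t (V K t 6) = ({b, x, y} : Finset (Fin 9)) := by
    rw [n1, hS5, h5a]
    ext i
    have hab := h.tv.ab
    simp only [Finset.mem_erase, Finset.mem_insert, Finset.mem_singleton]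
    constructor
    · rintro ⟨hi1, hi2⟩
      tauto
    · intro hi
      refine ⟨?_, Or.inr hi⟩
      rcases hi with rfl | rfl | rfl
      · exact hab.symm
      · exact hxa
      · exact hya
  have hb6 : b ∈ out K t (V K t 6) := by rw [hS6]; simp
  have her : (out K t (V K t 6)).erase b = ({x, y} : Finset (Fin 9)) := by
    rw [hS6]
    ext i
    simp only [Finset.mem_erase, Finset.mem_insert, Finset.mem_singleton]
    constructor
    · rintro ⟨hi1, hi2⟩
      tauto
    · intro hi
      refine ⟨?_, Or.inr hi⟩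
      rcases hi with rfl | rfl
      · exact hxb
      · exact hyb
  have ce : cl K t 2 (out K t (V K t 6)) = cl K t 1 (nb K t b (out K t (V K t 6))) +
      cl K t 2 ((out K t (V K t 6)).erase b) := cl_erase 1 hb6
  rw [cl_one, her, hcl2, n3] at ce
  have hsub2 : nb K t b (out K t (V K t 6)) ⊆ (out K t (V K t 6)).erase b := by
    intro i hi
    obtain ⟨hi1, hi2⟩ := mem_nb.1 hi
    refine Finset.mem_erase.2 ⟨?_, hi1⟩
    rintro rfl
    exact hb hi2
  have heq := Finset.eq_of_subset_of_card_le hsub2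
    (by rw [her, Finset.card_pair hxy]; omega)
  exact gr_full n2 n3 n4 hb6 hb heq.symm.subset

end Pool.Agent.BR
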