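import Pool.Agent.Work.MP_be705b_al.II.BBDefs

set_option autoImplicit false
set_option linter.unusedSectionVars false
set_option linter.unusedVariables false

/-!
# MP_be705b_al, type II, block B, module BBBase1 (S-M): `V 4`, `A 3` and the multiples of `lam`

PROOFS.
* `V4`: `V_succ 3` and `h.tc.t3`.  `V4_le_dv`: `TB.V3_le_dv`, `mul_mem_mulS`, `h.tc.hd2`.
* `lam_A3'`: `lam * κ ∈ A 3` iff (`Fl.mem_A`, `mul_KK_mem`) `lam * κ * (mu * del2) = mu * (lam * (κ * del2)) ∈ V 3 * cubics` iff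
  (`TB.cancel4`, `κ * del2 ∈ H K 4`) `κ (p) * del2 (p) = 0` iff `κ (p) = 0`.
* `lam_A3`: `⇒`: `A 3 * cubics * t 3 ≤ V 3 * H 6` (`Fl.mem_A`, `Submodule.mul_induction_on`, `cubics_mul_cubics`), so
  `mu * (lam * (s * del2)) ∈ V 3 * H 6`, `TB.cancel7`.  `⇐`: `Fl.colA2` and `TB.cancel7`.
* `lammu`: choose `κ ∈ N K`, `κ (p) ≠ 0` (`exists_N_ne`; `κ ∈ KK lam` by `N_le_KK`).  With `c = f (p) / (del2 (p) κ (p))`:
  `f - C c * (del2 * κ) ∈ IP p 4`, so `lam * mu * f = lam * mu * (f - C c * (del2 * κ)) + C c * (mu * del2) * (lam * κ)`; the first one is in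
  `V 2 * cubics` (`TII.V2_mul`), the second in `V 4 * cubics` (`lam * κ ∈ cubics`).
* `verts`: `out (dv lam)` has four elements (`TII.out_dv`), `2` (`TB.two_mem`), `3` (`h.tc.o3`) are two of them, the others are
  `x, y`; `0, 1 ∉ out (dv lam)` (`V 2 ≤ dv lam`; `out_D_iff`), so `4 ≤ x, y`.  `x, y ≠ a, b, m` by `out_D_iff`.  `out (V 4)` = the
  vertices `≥ 4` (`Fl.mem_out_V`), five elements, and `a, b, m, x, y` are five different elements of it (`ge4`, `h.tv.ab`, ..);
  `Finset.eq_of_subset_of_card_le`.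
* `out_V4A1`: `Fl.out_sup_V` (with `sup_comm`), `out_A1_iff`, `Fl.mem_out_V`.
* `A1_inf`: `f = lam * κ`, `κ ∈ Fp p` (`TII.A1`), `mu ∣ lam * κ` (`mem_dv`), so `mu ∣ κ` (`prime_lin`; `mu ∣ lam` would give `lam ∣ mu`, both
  are linear), `κ = mu * ν`, `ν (p) = 0` (`TII.Fp_dvd`), `ν ∈ span {lam, lam'}` (`TII.mem_L`), `TII.V2`.
-/

namespace Pool.Agent.BR

open Submodule Module MvPolynomial

variable {K : Type*} [Field K] {t : Fin 9 → Pol K} {p : Fin 3 → K} {lam lam' mu del del2 : Pol K}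
  {a b m : Fin 9}

namespace TD

theorem V4 (h : TD t p lam lam' mu del del2 a b m) : V K t 4 = V K t 3 ⊔ span K {mu * del2} := by
  have h1 : V K t 4 = V K t 3 ⊔ span K {t 3} := V_succ (K := K) (t := t) 3
  rw [h1, h.tc.t3]

theorem V4_le_dv (h : TD t p lam lam' mu del del2 a b m) : V K t 4 ≤ dv mu := by
  rw [h.V4]
  refine sup_le h.tb.V3_le_dv ?_
  rw [span_singleton_le_iff_mem]
  exact mul_mem_mulS h.tc.hd2

theorem lam_A3' (h : TD t p lam lam' mu del del2 a b m) {κ : Pol K} (hκ : κ ∈ KK lam) :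
    lam * κ ∈ A K t 3 ↔ eval p κ = 0 := by
  have e : lam * κ * t 3 = mu * (lam * (κ * del2)) := by
    rw [h.tc.t3]
    ring
  have h4 : κ * del2 ∈ H K 4 := mul_mem_H (KK_le _ hκ) h.hdel2
  have h5 : lam * κ ∈ A K t 3 ↔ lam * κ ∈ cubics K ∧ lam * κ * t 3 ∈ V K t 3 * cubics K := h.fl.mem_A
  rw [h5, e, h.tb.cancel4 h4, map_mul]
  constructor
  · rintro ⟨_, h6⟩
    exact (mul_eq_zero.1 h6).resolve_right h.d2
  · intro h6
    exact ⟨mul_KK_mem h.hlam hκ, by rw [h6, zero_mul]⟩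

theorem lam_A3 (h : TD t p lam lam' mu del del2 a b m) {s : Pol K} (hs : s ∈ H K 5) :
    lam * s ∈ A K t 3 * cubics K ↔ eval p s = 0 := by
  have e : lam * s * t 3 = mu * (lam * (s * del2)) := by
    rw [h.tc.t3]
    ring
  have h7 : s * del2 ∈ H K 7 := mul_mem_H hs h.hdel2
  constructor
  · intro h1
    have h2 : ∀ x ∈ A K t 3 * cubics K, x * t 3 ∈ V K t 3 * H K 6 := by
      intro x hx
      refine Submodule.mul_induction_on hx ?_ ?_
      · intro α hα w hw
        have h3 : α * t 3 ∈ V K t 3 * cubics K := (h.fl.mem_A.1 hα).2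
        have e2 : α * w * t 3 = α * t 3 * w := by ring
        rw [e2, ← cubics_mul_cubics, ← mul_assoc]
        exact mul_mem_mul h3 hw
      · intro x y hx hy
        rw [add_mul]
        exact add_mem hx hy
    have h3 := h2 _ h1
    rw [e, h.tb.cancel7 h7, map_mul] at h3
    exact (mul_eq_zero.1 h3).resolve_right h.d2
  · intro h1
    refine h.fl.colA2 3 (mul_mem_H h.hlam hs) ?_
    show lam * s * t 3 ∈ V K t 3 * H K 6
    rw [e, h.tb.cancel7 h7, map_mul, h1, zero_mul]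

theorem lammu (h : TD t p lam lam' mu del del2 a b m) {f : Pol K} (hf : f ∈ H K 4) :
    lam * mu * f ∈ V K t 4 * cubics K := by
  obtain ⟨κ, hκ, h0⟩ := exists_N_ne h.ti.p0
  have hd2 := h.d2
  set c : K := eval p f / (eval p del2 * eval p κ) with hc
  have h1 : f - C c * (del2 * κ) ∈ IP p 4 := by
    rw [mem_IP]
    refine ⟨?_, ?_⟩
    · refine sub_mem hf ?_
      rw [← smul_eq_C_mul]
      exact smul_mem _ _ (mul_mem_H h.hdel2 (N_le hκ))
    · rw [map_sub, map_mul, map_mul, eval_C, hc, div_mul_cancel₀ _ (mul_ne_zero hd2 h0), sub_self]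
  have e : lam * mu * f = lam * mu * (f - C c * (del2 * κ)) + (c • (mu * del2)) * (lam * κ) := by
    rw [smul_eq_C_mul]
    ring
  rw [e]
  refine add_mem ?_ ?_
  · have h2 : lam * mu * (f - C c * (del2 * κ)) ∈ V K t 2 * cubics K := by
      rw [h.ti.V2_mul]
      exact mul_mem_mulS h1
    exact mul_le_mul_left (V_mono (by norm_num)) _ h2
  · refine mul_mem_mul (smul_mem _ _ ?_) (mul_KK_mem h.hlam (N_le_KK h.hlam hκ))
    rw [h.V4]
    exact mem_sup_right (mem_span_singleton_self _)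

theorem verts (h : TD t p lam lam' mu del del2 a b m) : ∃ x y : Fin 9, 4 ≤ x ∧ 4 ≤ y ∧ x ≠ y ∧
    x ≠ a ∧ x ≠ b ∧ x ≠ m ∧ y ≠ a ∧ y ≠ b ∧ y ≠ m ∧ out K t (dv lam) = {2, 3, x, y} ∧
    out K t (V K t 4) = {a, b, m, x, y} := by
  classical
  obtain ⟨c1, _, _, _⟩ := h.ti.out_dv
  have h2 := h.tb.two_mem
  have h3 := h.tc.o3
  have hsub : ({2, 3} : Finset (Fin 9)) ⊆ out K t (dv lam) := by
    intro i hi
    rw [Finset.mem_insert, Finset.mem_singleton] at hi
    rcases hi with rfl | rfl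
    · exact h2
    · exact h3
  have hcard : (out K t (dv lam) \ {2, 3}).card = 2 := by
    rw [Finset.card_sdiff_of_subset hsub, c1]
    rfl
  obtain ⟨x, y, hxy, hE⟩ := Finset.card_eq_two.1 hcard
  have hx : x ∈ out K t (dv lam) \ {2, 3} := by rw [hE]; simp
  have hy : y ∈ out K t (dv lam) \ {2, 3} := by rw [hE]; simp
  have key : ∀ z ∈ out K t (dv lam) \ {2, 3}, 4 ≤ z ∧ z ≠ a ∧ z ≠ b ∧ z ≠ m := by
    intro z hz
    rw [Finset.mem_sdiff, h.out_D_iff, Finset.mem_insert, Finset.mem_singleton, not_or] at hz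
    obtain ⟨⟨z0, z1, za, zb, zm⟩, z2, z3⟩ := hz
    refine ⟨?_, za, zb, zm⟩
    clear za zb zm hE hx hy hcard hsub
    revert z
    decide
  obtain ⟨x4, xa, xb, xm⟩ := key x hx
  obtain ⟨y4, ya, yb, ym⟩ := key y hy
  refine ⟨x, y, x4, y4, hxy, xa, xb, xm, ya, yb, ym, ?_, ?_⟩
  · rw [← Finset.sdiff_union_of_subset hsub, hE]
    ext i
    simp only [Finset.mem_union, Finset.mem_insert, Finset.mem_singleton]
    tauto
  · obtain ⟨a4, b4, m4⟩ := h.ge4
    have ho : out K t (V K t 4) = Finset.univ.filter (fun i : Fin 9 => 4 ≤ (i : ℕ)) := by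
      ext i
      rw [h.fl.mem_out_V, Finset.mem_filter]
      simp
    symm
    apply Finset.eq_of_subset_of_card_le
    · intro i hi
      rw [h.fl.mem_out_V]
      simp only [Finset.mem_insert, Finset.mem_singleton] at hi
      rcases hi with rfl | rfl | rfl | rfl | rfl
      · exact a4
      · exact b4
      · exact m4
      · exact x4
      · exact y4
    · have h5 : ({a, b, m, x, y} : Finset (Fin 9)).card = 5 := by
        have n1 := h.tv.ab
        have n2 := h.tv.am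
        have n3 := h.tv.bm
        rw [Finset.card_insert_of_notMem, Finset.card_insert_of_notMem, Finset.card_insert_of_notMem,
          Finset.card_insert_of_notMem, Finset.card_singleton]
        · simpa using hxy
        · simp only [Finset.mem_insert, Finset.mem_singleton, not_or]
          exact ⟨xm.symm, ym.symm⟩
        · simp only [Finset.mem_insert, Finset.mem_singleton, not_or]
          exact ⟨n3, xb.symm, yb.symm⟩
        · simp only [Finset.mem_insert, Finset.mem_singleton, not_or]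
          exact ⟨n1, n2, xa.symm, ya.symm⟩
      rw [h5, ho]
      decide

theorem out_V4A1 (h : TD t p lam lam' mu del del2 a b m) :
    out K t (V K t 4 ⊔ A K t 1) = ((out K t (V K t 4)).erase a).erase b := by
  ext i
  rw [sup_comm, h.fl.out_sup_V, h.out_A1_iff, Finset.mem_erase, Finset.mem_erase, h.fl.mem_out_V]
  constructor
  · rintro ⟨⟨_, _, h1, h2⟩, h3⟩
    exact ⟨h2, h1, h3⟩
  · rintro ⟨h2, h1, h3⟩
    refine ⟨⟨?_, ?_, h1, h2⟩, h3⟩
    · rintro rfl
      exact absurd h3 (by decide)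
    · rintro rfl
      exact absurd h3 (by decide)

theorem A1_inf (h : TD t p lam lam' mu del del2 a b m) : A K t 1 ⊓ dv mu ≤ V K t 2 := by
  rintro f ⟨hf1, hf2⟩
  rw [SetLike.mem_coe, h.ti.A1] at hf1
  obtain ⟨κ, hκ, rfl⟩ := mem_mulS.1 hf1
  have hd : mu ∣ lam * κ := ((mem_dv h.hmu h.mu0).1 hf2).2
  have hml : ¬ mu ∣ lam := by
    intro hd
    obtain ⟨c, hc⟩ := dvd_lin h.hmu h.hlam h.mu0 hd
    have hc0 : c ≠ 0 := by
      rintro rfl
      apply h.lam0
      rw [hc, map_zero, zero_mul]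
    apply h.tb.nm
    refine ⟨C c⁻¹, ?_⟩
    have h3 : (C c⁻¹ : Pol K) * C c = 1 := by
      rw [← C_mul, inv_mul_cancel₀ hc0, C_1]
    rw [hc]
    linear_combination (-mu) * h3
  have hd2 := ((prime_lin h.hmu h.mu0).dvd_or_dvd hd).resolve_left hml
  obtain ⟨ν, hν, hν0, rfl⟩ := h.ti.Fp_dvd hκ hd2
  rw [h.ti.V2, ← mul_assoc]
  exact mul_mem_mulS (h.ti.mem_L.2 ⟨hν, hν0⟩)

end TD

end Pool.Agent.BR
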