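import Pool.Agent.Work.MP_be705b_al.II.BB4P1
import Pool.Agent.Work.MP_be705b_al.II.BB4P2
import Pool.Agent.Work.MP_be705b_al.II.BB5M
import Pool.Agent.Work.MP_be705b_al.II.BB5N

set_option autoImplicit false
set_option linter.unusedSectionVars false
set_option linter.unusedVariables false

/-!
# MP_be705b_al, type II, case 1b, block B, assembly: `TC`, `del2 (p) ≠ 0` is impossible
-/

namespace Pool.Agent.BR

open Submodule Module MvPolynomial

variable {K : Type*} [Field K] {t : Fin 9 → Pol K} {p : Fin 3 → K} {lam lam' mu del del2 : Pol K}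
  {a b m : Fin 9}

theorem TC.beta2 (h : TC t p lam lam' mu del del2 a b m) (h2 : eval p del2 ≠ 0)
    (hpa : eval p mu = 0 → p = pa) : False := by
  have hd : TD t p lam lam' mu del del2 a b m := ⟨h, h2⟩
  by_cases hmu : mu ∣ t 4
  · -- `V 5 = dv mu`
    have h5 : V K t 5 = dv mu := by
      have e : V K t 5 = V K t 4 ⊔ span K {t 4} := V_succ (K := K) (t := t) 4
      have hle : V K t 5 ≤ dv mu := by
        rw [e]
        refine sup_le hd.V4_le_dv ((span_singleton_le_iff_mem _ _).2 ?_)
        exact (mem_dv hd.hmu hd.mu0).2 ⟨hd.fl.mem 4, hmu⟩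
      have : Module.Finite K ↥(dv mu) := Submodule.finiteDimensional_of_le (BR.dv_le hd.hmu |>.trans cubics_le)
      refine Submodule.eq_of_le_of_finrank_le hle ?_
      rw [dv, finrank_mulS hd.mu0, finrank_KK hd.hmu hd.mu0]
      have e1 := hd.fl.cl1 (hd.fl.V_le 5) (hd.fl.llV 5)
      have e2 : (out K t (V K t 5)).card = 4 := by
        have e3 : out K t (V K t 5) = {5, 6, 7, 8} := by
          ext i
          rw [hd.fl.mem_out_V]
          revert i
          decide
        rw [e3]
        rfl
      omega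
    by_cases hN : lam * mu ∈ N K
    · exact hd.dead5_N hN h5
    · exact hd.dead5_notN hpa hN h5
  · have hl := hd.loop4 hmu
    obtain ⟨x, y, hx4, hy4, hxy, hxa, hxb, hxm, hya, hyb, hym, hoD, hoV⟩ := hd.verts
    have h4 : (4 : Fin 9) ∈ out K t (V K t 4) := (hd.fl.mem_out_V 4 4).2 (by decide)
    rw [hoV] at h4
    simp only [Finset.mem_insert, Finset.mem_singleton] at h4
    have hab : (4 : Fin 9) = a ∨ (4 : Fin 9) = b → False := by
      intro h4ab
      have h4a := hd.eq_a4 hmu h4ab
      by_cases hm : eval p mu = 0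
      · obtain rfl := hpa hm
        exact hd.dead4_p1 hmu h4a hm
      · exact hd.dead4_p2 hmu h4a hm
    rcases h4 with h4 | h4 | h4 | h4 | h4
    · exact hab (Or.inl h4)
    · exact hab (Or.inr h4)
    · exact hd.m_noloop (h4 ▸ hl)
    · exact hd.dead4c hmu (by rw [hoD, h4]; simp)
    · exact hd.dead4c hmu (by rw [hoD, h4]; simp)

end Pool.Agent.BR
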