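import Pool.Agent.Work.MP_be705b_al.II.TDefs

set_option autoImplicit false
set_option linter.unusedSectionVars false
set_option linter.unusedVariables false

/-!
# MP_be705b_al, type II, module C1a (M): case 1a, `t 2` is divisible by `lam` or by `mu`

PROOF.  Let `c = t 2`, suppose `lam ∤ c`, `mu ∤ c`.  Let `m` be the vertex of `exists_m`: `m ∈ out (A 1)`, `m ∉ out (dv lam)`, `nb m (out (A 1)) = ∅`.
`2 ∈ out (A 1)`, `2 ∈ out (dv lam)` (`V 2 ≤ A 1 ≤ dv lam`, `c ∉ dv lam`; `mem_out_of`), so `m ≠ 2`, `m > 2`, and `m`, `2` are not adjacent.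
`A 2`: `a * c ∈ V 2 * cubics = lam * mu * (IP p 4)`.  As `lam * mu ∣ a * c` and `lam, mu` are primes not dividing `c`: `lam * mu ∣ a`
(`lam ∣ a`, `a = lam a'`, `mu ∣ a' c`, `mu ∣ a'`), `a = lam * mu * α`, `α ∈ H 1`, `α * c ∈ IP p 4`, i.e. `α (p) * c (p) = 0`.
`m ∈ inn (A 2)` because `out (A 2) = nb 2 (out (V 2))` (`Fl.outA`) and `m` is not adjacent to `2`; `m ∉ inn (V 2)`; so `A 2 ≠ V 2`: there is
`a = lam * mu * α ∈ A 2` with `α (p) ≠ 0` (`mem_L`, `V2`).  So `c (p) = 0` and `lam * mu ∈ N K` (`lam_mu_nu`), and `A 2 = mulS (lam * mu) (H K 1)`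
(dimension 3), `inn (A 2) = {0, 1, m}`.
Count edges at `m` in `out (V 3)`: `V 3 = V 2 ⊔ span {c}`, `finrank (V 3 * cubics) = 14 + 9 - finrank (A 2) = 14 + 9 - 3 = 20` (`dim_step` for `U = V 2`, `d = 1`,
`col K t (V 2) (t 2) 1 = A 2`), so `cl 2 (out (V 3)) = 8`.  `A 2 ⊔ V 3 ∈ LL` (`Fl.llSupV`), `out (A 2 ⊔ V 3) = (out (V 3)).erase m`, and
`finrank ((A 2 ⊔ V 3) * cubics) = finrank (A 2 * cubics) + 9 - finrank (colon of c) = 15 + 9 - 3 = 21` (`A 2 * cubics = lam mu H 4`; `a * c ∈ lam mu H 4` iff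
`lam mu ∣ a`: dimension 3), so `cl 2 = 7`.  By `cl_erase`: `card (nb m (out (V 3))) = 1`: some `u ∈ out (V 3)` is adjacent to `m`.
`u ∉ out (A 1)` as `m` is isolated there, so `u ∈ inn (A 1)`.  But (G2), `Fl.g2s` with `U = V 2`, `X = A 2`, `Y = A 1`: `lam * mu * α * (lam * κ) =
lam * mu * (α * lam * κ)` with `α lam κ ∈ IP p 4` (`lam (p) = 0`), in `V 2 * cubics`; `m ∈ inn (A 2)`, `u ∈ inn (A 1)`, both in `out (V 2)`: not adjacent.
Contradiction.
-/

namespace Pool.Agent.BR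

open Submodule Module MvPolynomial

variable {K : Type*} [Field K] {t : Fin 9 → Pol K} {p : Fin 3 → K} {lam lam' mu : Pol K}

private theorem C1a_mem (h : TII t p lam lam' mu) (hl : ¬ lam ∣ t 2) (hmu : ¬ mu ∣ t 2) {a : Pol K}
    (ha : a ∈ A K t 2) : ∃ α ∈ H K 1, a = lam * mu * α ∧ eval p α * eval p (t 2) = 0 := by
  have fl := h.fl
  have hl1 := h.t2.ha
  have hm1 := h.t2.hm
  have m0 := h.t2.m0
  have l0 := h.L0
  obtain ⟨hac, h3⟩ := fl.mem_A.1 ha
  have h4 : V K t ((2 : Fin 9) : ℕ) * cubics K = mulS (lam * mu) (IP p 4) := h.V2_mul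
  rw [h4, mem_mulS] at h3
  obtain ⟨g, hg, e⟩ := h3
  have h50 : lam ∣ a * t 2 := ⟨mu * g, by linear_combination -e⟩
  have h5 : lam ∣ a := by
    rcases (prime_lin hl1 l0).dvd_or_dvd h50 with h6 | h6
    · exact h6
    · exact absurd h6 hl
  obtain ⟨a', ha', rfl⟩ := exists_quot (a := 1) (b := 2) hl1 l0 (cubics_le hac) h5
  have e2 : mu * g = a' * t 2 := by
    apply mul_left_cancel₀ l0
    linear_combination e
  have h60 : mu ∣ a' * t 2 := ⟨g, e2.symm⟩
  have h6 : mu ∣ a' := by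
    rcases (prime_lin hm1 m0).dvd_or_dvd h60 with h6 | h6
    · exact h6
    · exact absurd h6 hmu
  obtain ⟨α, hα, rfl⟩ := exists_quot (a := 1) (b := 1) hm1 m0 ha' h6
  refine ⟨α, hα, by ring, ?_⟩
  have e3 : g = α * t 2 := by
    apply mul_left_cancel₀ m0
    linear_combination e2
  rw [← map_mul, ← e3]
  exact (mem_IP.1 hg).2

theorem TII.case_1a (h : TII t p lam lam' mu) : lam ∣ t 2 ∨ mu ∣ t 2 := by
  by_contra hcon
  push Not at hcon
  obtain ⟨hl, hmu⟩ := hcon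
  have fl := h.fl
  have hl1 := h.t2.ha
  have hm1 := h.t2.hm
  have m0 := h.t2.m0
  have l0 := h.L0
  have hlm0 : lam * mu ≠ 0 := mul_ne_zero l0 m0
  obtain ⟨m, hm, hD, hnb⟩ := h.exists_m
  have hcd : t 2 ∉ dv lam := fun h1 => hl ((mem_dv hl1 l0).1 h1).2
  have hcA : t 2 ∉ A K t 1 := fun h1 => hcd (h.A1_le_dv h1)
  have hVA : V K t ((2 : Fin 9) : ℕ) ≤ A K t 1 := h.V2_le_A1
  have hVd : V K t ((2 : Fin 9) : ℕ) ≤ dv lam := hVA.trans h.A1_le_dv
  have h2d : (2 : Fin 9) ∈ out K t (dv lam) := mem_out_of hVd hcd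
  have h2A : (2 : Fin 9) ∈ out K t (A K t 1) := mem_out_of hVA hcA
  have hm2 : m ≠ 2 := by
    rintro rfl
    rw [hD] at h2d
    exact (Finset.mem_erase.1 h2d).1 rfl
  have hge : ∀ i ∈ out K t (A K t 1), 2 ≤ (i : ℕ) := by
    intro i hi
    by_contra hlt
    exact notMem_out.2 (mem_inn_of_le hVA (not_le.1 hlt)) hi
  have hm2' := hge m hm
  have hm3 : 3 ≤ (m : ℕ) := by
    rcases Nat.lt_or_ge (m : ℕ) 3 with h1 | h1
    · exfalso
      apply hm2
      apply Fin.ext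
      show (m : ℕ) = 2
      omega
    · exact h1
  have hadj2 : ¬ Adj K t m 2 := by
    intro h1
    have : (2 : Fin 9) ∈ nb K t m (out K t (A K t 1)) := mem_nb.2 ⟨h2A, h1⟩
    rw [hnb] at this
    simp at this
  -- `m ∈ inn (A 2)`
  have hmA2 : m ∈ inn K t (A K t 2) := by
    rw [← notMem_out, fl.outA, mem_nb]
    rintro ⟨-, h1⟩
    exact hadj2 (adj_symm h1)
  -- an element with `α (p) ≠ 0`
  have hex : ∃ α ∈ H K 1, lam * mu * α ∈ A K t 2 ∧ eval p α ≠ 0 := by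
    by_contra hcon
    push Not at hcon
    have hle : A K t 2 ≤ V K t 2 := by
      intro a ha
      obtain ⟨α, hα, rfl, -⟩ := C1a_mem h hl hmu ha
      rw [h.V2]
      exact mul_mem_mulS (h.mem_L.2 ⟨hα, hcon α hα ha⟩)
    have h1 := inn_mono hle hmA2
    rw [inn_V fl.li] at h1
    omega
  obtain ⟨α, hα, hαA, hα0⟩ := hex
  have hcp : eval p (t 2) = 0 := by
    obtain ⟨β, hβ, e, h1⟩ := C1a_mem h hl hmu hαA
    have h2 : α = β := mul_left_cancel₀ hlm0 e
    rw [← h2] at h1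
    rcases mul_eq_zero.1 h1 with h3 | h3
    · exact absurd h3 hα0
    · exact h3
  have hN : lam * mu ∈ N K := h.lam_mu_nu hα hα0 (fl.A_le 2 hαA)
  have hA2 : A K t 2 = mulS (lam * mu) (H K 1) := by
    apply le_antisymm
    · intro a ha
      obtain ⟨β, hβ, rfl, -⟩ := C1a_mem h hl hmu ha
      exact mul_mem_mulS hβ
    · intro a ha
      obtain ⟨β, hβ, rfl⟩ := mem_mulS.1 ha
      rw [fl.mem_A]
      refine ⟨?_, ?_⟩
      · rw [← N_mul_H1]
        exact mul_mem_mul hN hβ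
      · have h4 : V K t ((2 : Fin 9) : ℕ) * cubics K = mulS (lam * mu) (IP p 4) := h.V2_mul
        rw [h4, mul_assoc]
        refine mul_mem_mulS (mem_IP.2 ⟨?_, ?_⟩)
        · exact mul_mem_H (a := 1) (b := 3) hβ (fl.mem_H 2)
        · rw [map_mul, hcp, mul_zero]
  have hd1 : finrank K ↥(A K t 2) = 3 := by rw [hA2, finrank_mulS hlm0, finrank_H1]
  have hd2 : finrank K ↥(A K t 2 * cubics K) = 15 := by
    rw [hA2, mulS_mul, H_mul_cubics 0, finrank_mulS hlm0, finrank_H4]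
  have c1 := fl.cl1 (fl.A_le 2) (fl.llA 2)
  have c2 := fl.cl2 (fl.A_le 2) (fl.llA 2)
  have hcA2 : t 2 ∉ A K t 2 := by
    intro h1
    obtain ⟨β, hβ, e, -⟩ := C1a_mem h hl hmu h1
    exact hl (by rw [e, mul_assoc]; exact dvd_mul_right _ _)
  have e1 := fl.exact (fl.V_le 2) (fl.llV 2) (j := 2) le_rfl (t_notMem fl.li 2) 1
  have e2 := fl.exact (fl.A_le 2) (fl.llA 2) (j := 2) (V_le_A 2) hcA2 1
  have s1 : V K t 2 ⊔ A K t 2 = A K t 2 := sup_eq_right.2 (V_le_A 2)
  have s2 : V K t 2 ⊔ V K t (((2 : Fin 9) : ℕ) + 1) = V K t 3 := sup_eq_right.2 (V_mono (by norm_num))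
  have s3 : A K t 2 ⊔ A K t 2 = A K t 2 := sup_idem _
  have s4 : A K t 2 ⊔ V K t (((2 : Fin 9) : ℕ) + 1) = A K t 2 ⊔ V K t 3 := rfl
  rw [s1, s2, cl_one] at e1
  rw [s3, s4, cl_one] at e2
  norm_num at e1 e2
  obtain ⟨-, v2, -, -⟩ := h.out_V2
  -- `inn (A 2) = {0, 1, m}`
  have hinn : inn K t (A K t 2) = {0, 1, m} := by
    symm
    apply Finset.eq_of_subset_of_card_le
    · intro i hi
      simp only [Finset.mem_insert, Finset.mem_singleton] at hi
      rcases hi with rfl | rfl | rfl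
      · exact mem_inn_of_le (V_le_A 2) (by norm_num)
      · exact mem_inn_of_le (V_le_A 2) (by norm_num)
      · exact hmA2
    · have h1 : (inn K t (A K t 2)).card + (out K t (A K t 2)).card = 9 := by
        have := Finset.card_add_card_compl (inn K t (A K t 2))
        rw [Fintype.card_fin] at this
        exact this
      have h2 : ({0, 1, m} : Finset (Fin 9)).card = 3 := by
        rw [Finset.card_insert_of_notMem, Finset.card_insert_of_notMem, Finset.card_singleton]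
        · rw [Finset.mem_singleton]
          intro h3
          rw [← h3] at hm3
          norm_num at hm3
        · simp only [Finset.mem_insert, Finset.mem_singleton, not_or]
          refine ⟨by decide, ?_⟩
          intro h3
          rw [← h3] at hm3
          norm_num at hm3
      omega
  have hout : out K t (A K t 2 ⊔ V K t 3) = (out K t (V K t 3)).erase m := by
    ext i
    rw [fl.out_sup_V, Finset.mem_erase, fl.mem_out_V, ← notMem_inn, hinn]
    simp only [Finset.mem_insert, Finset.mem_singleton, not_or]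
    constructor
    · rintro ⟨⟨-, -, h1⟩, h2⟩
      exact ⟨h1, h2⟩
    · rintro ⟨h1, h2⟩
      refine ⟨⟨?_, ?_, h1⟩, h2⟩
      · rintro rfl
        norm_num at h2
      · rintro rfl
        norm_num at h2
  have hmV3 : m ∈ out K t (V K t 3) := (fl.mem_out_V 3 m).2 hm3
  have e3 := cl_erase (K := K) (t := t) 1 hmV3
  norm_num at e3
  rw [← hout, cl_one] at e3
  have hcard : (nb K t m (out K t (V K t 3))).card = 1 := by omega
  obtain ⟨u, hu⟩ := Finset.card_pos.1 (by rw [hcard]; norm_num : 0 < (nb K t m (out K t (V K t 3))).card)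
  obtain ⟨hu1, hu2⟩ := mem_nb.1 hu
  have huA : u ∈ inn K t (A K t 1) := by
    rw [← notMem_out]
    intro h1
    have : u ∈ nb K t m (out K t (A K t 1)) := mem_nb.2 ⟨h1, hu2⟩
    rw [hnb] at this
    simp at this
  refine fl.g2s (fl.V_le 2) (fl.llV 2) (X := A K t 2) (Y := A K t 1) ?_ hmA2 huA
    ((fl.mem_out_V 2 m).2 hm2') ((fl.mem_out_V 2 u).2 ?_) hu2
  · intro x hx y hy
    rw [hA2] at hx
    rw [h.A1] at hy
    obtain ⟨β, hβ, rfl⟩ := mem_mulS.1 hx
    obtain ⟨κ, hκ, rfl⟩ := mem_mulS.1 hy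
    rw [h.V2_mul, mul_assoc]
    refine mul_mem_mulS (mem_IP.2 ⟨?_, ?_⟩)
    · exact mul_mem_H (a := 1) (b := 3) hβ (mul_mem_H (a := 1) (b := 2) hl1 (Fp_le p hκ))
    · rw [map_mul, map_mul, h.lp]
      ring
  · have := (fl.mem_out_V 3 u).1 hu1
    omega

end Pool.Agent.BR
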