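import Pool.Agent.Work.MP_be705b_al.II.TDefs

set_option autoImplicit false
set_option linter.unusedSectionVars false
set_option linter.unusedVariables false

/-!
# MP_be705b_al, type II, module C31 (M-L): `t 2 = mu * del` with `lam ∤ t 2` implies `del (p) = 0`

PROOF.  Suppose `del (p) ≠ 0`.  (`lam ∤ mu`, `lam ∤ del`, `del ∈ KK mu`.)
(1) `A 2 = mulS lam (Ps p lam)`: `a ∈ A 2` iff `a * mu * del ∈ V 2 * cubics = lam mu (IP p 4)` iff `a del = lam g`, `g ∈ IP p 4`, so `lam ∣ a`, `a = lam α`,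
`α del = g`, `α (p) = 0` (and `α ∈ KK lam` since `a ∈ cubics`); the converse is clear.
(2) `A 2 * cubics = mulS lam (IP p 5)`: `≤` clear.  `≥`: (a) in degree two, `Fl.colA2`: for `β ∈ IP p 5`, `lam β * t 2 = lam mu (β del) ∈ V 2 * H 6`
(`V2_mul6`).  So `finrank = 20` and `cl 2 (out (A 2)) = 8` (`Fl.cl2`, `Fl.llA`).
(3) Vertices.  `inn (lam Ph p) = {0, 1, a}`, `inn (A 1) = {0, 1, a, b}`, `inn (dv lam) = {0, 1, a, b, m}` (dimensions `3, 4, 5`; `m` as in `exists_m`).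
`2 ∈ out (dv lam)` (`lam ∤ t 2`), so `a, b, m ≥ 3` and `2`, `m` are not adjacent; `2` is a loop (`t 2 ∉ A 2` as `lam ∤ t 2`).
`out (A 2) = nb 2 (out (V 2))` (`Fl.outA`) so `m ∈ inn (A 2)`; `A 2 ≤ dv lam`, `lam Ph p ≤ A 2` (`Ph_le_Ps`), `finrank (A 2) = 4` (`finrank_Ps`), so
`inn (A 2) = {0, 1, a, m}`, `b ∈ out (A 2)`, `out (A 2) = insert b (out (dv lam))`.
(4) `cl 2 (out (dv lam)) = 7`, so by `cl_erase` `card (nb b (out (A 2))) = 8 - 7 = 1`; `b` is adjacent to `2` (`b ∈ out (A 2) = nb 2 ..`), `2 ∈ out (A 2)` (loop).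
So `b` is no loop and not adjacent to the other elements of `out (dv lam)`.
(5) `out (V 3) = (out (V 2)).erase 2`, `cl 2 (out (V 3)) = 14 - card (nb 2 (out (V 2))) = 14 - 5 = 9`.  `S := (out (A 1)).erase 2 = out (V 3) \ {a, b}` has
`cl 2 S = 7 - card (nb 2 (out (A 1))) = 7 - 4 = 3` (`nb 2 (out (A 1)) = out (A 1) ∩ out (A 2) = out (dv lam)`).
(6) `a` is not adjacent to the vertices `≥ 2` in `inn (dv mu)`: `Fl.g2s`, `U = V 2`, `X = mulS lam (Ph p)`, `Y = dv mu`: `lam κ * (mu κ') = lam mu (κ κ')`,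
`κ κ' ∈ IP p 4`.  `inn (dv mu)` has 5 elements, among them `0, 1, 2` (`V2_le_dv_mu`, `t 2 ∈ dv mu`), so two elements of `out (V 3)` are not adjacent to `a`:
`card (nb a (out (V 3))) ≤ 4`.
(7) `nb b ((out (V 3)).erase a) ⊆ {m}` by (4).  `cl_erase` twice: `9 = cl 2 (out (V 3)) ≤ 4 + 1 + 3 = 8`, contradiction.

`case_1b`: by `case_1a` and `lam ∤ t 2`: `mu ∣ t 2`, `t 2 = mu * del`, `del ∈ H 2` (`exists_quot`), `del ∈ KK mu` (`mem_KK'`, `t 2 ∈ cubics`).
-/

namespace Pool.Agent.BR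

open Submodule Module MvPolynomial

variable {K : Type*} [Field K] {t : Fin 9 → Pol K} {p : Fin 3 → K} {lam lam' mu : Pol K}

private theorem exists_erase31 {S S1 : Finset (Fin 9)} (h : S1 ⊆ S) (hc : S.card = S1.card + 1) :
    ∃ b ∈ S, S1 = S.erase b := by
  obtain ⟨b, hb⟩ : ∃ b, S \ S1 = {b} := by
    rw [← Finset.card_eq_one, Finset.card_sdiff_of_subset h]
    omega
  have hb1 : b ∈ S \ S1 := by rw [hb]; exact Finset.mem_singleton_self _
  obtain ⟨hb2, hb3⟩ := Finset.mem_sdiff.1 hb1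
  refine ⟨b, hb2, Finset.eq_of_subset_of_card_le ?_ ?_⟩
  · intro u hu
    refine Finset.mem_erase.2 ⟨?_, h hu⟩
    rintro rfl
    exact hb3 hu
  · rw [Finset.card_erase_of_mem hb2]
    omega

private theorem card_out31 (fl : Fl t) {U : Submodule K (Pol K)} (hU : U ≤ cubics K) :
    finrank K ↥U + (out K t U).card = 9 := by
  have h1 := dim_one fl.li (U := U) (by rw [fl.sp]; exact hU)
  rw [fl.sp, finrank_cubics] at h1
  exact h1

/-- `A 2 = mulS lam (Ps p lam)` -/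
private theorem A2_31 (h : TII t p lam lam' mu) {del : Pol K} (hd : del ∈ KK mu) (h2 : t 2 = mu * del)
    (hn : ¬ lam ∣ t 2) (hp : eval p del ≠ 0) : A K t 2 = mulS lam (Ps p lam) := by
  have fl := h.fl
  have hl := h.t2.ha
  have m0 := h.t2.m0
  have l0 := h.L0
  have hdH : del ∈ H K 2 := KK_le mu hd
  have hnd : ¬ lam ∣ del := fun hx => hn (by rw [h2]; exact hx.mul_left _)
  have hV : V K t ((2 : Fin 9) : ℕ) * cubics K = mulS (lam * mu) (IP p 4) := h.V2_mul
  ext a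
  rw [fl.mem_A, hV, mem_mulS, mem_mulS, h2]
  constructor
  · rintro ⟨ha, g, hg, e⟩
    have e1 : a * del = lam * g := by
      apply mul_left_cancel₀ m0
      linear_combination -e
    have h3 : lam ∣ a := by
      rcases (prime_lin hl l0).dvd_or_dvd (Dvd.intro g e1.symm) with h6 | h6
      · exact h6
      · exact absurd h6 hnd
    obtain ⟨α, hα, rfl⟩ := mem_mulS.1 ((mem_dv hl l0).2 ⟨ha, h3⟩)
    refine ⟨α, ?_, rfl⟩
    have e2 : α * del = g := by
      apply mul_left_cancel₀ l0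
      linear_combination e1
    have e3 : eval p (α * del) = 0 := by rw [e2]; exact (mem_IP.1 hg).2
    rw [map_mul] at e3
    exact ⟨hα, mem_IP.2 ⟨KK_le _ hα, (mul_eq_zero.1 e3).resolve_right hp⟩⟩
  · rintro ⟨α, hα, rfl⟩
    refine ⟨mul_KK_mem hl hα.1, α * del, ?_, by ring⟩
    refine mem_IP.2 ⟨mul_mem_H (KK_le _ hα.1) hdH, ?_⟩
    rw [map_mul, Ps_eval hα, zero_mul]

/-- `20 ≤ finrank (A 2 * cubics K)` -/
private theorem dim_A2_31 (h : TII t p lam lam' mu) {del : Pol K} (hd : del ∈ KK mu)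
    (h2 : t 2 = mu * del) : 20 ≤ finrank K ↥(A K t 2 * cubics K) := by
  have fl := h.fl
  have hl := h.t2.ha
  have l0 := h.L0
  have hdH : del ∈ H K 2 := KK_le mu hd
  have h1 : mulS lam (IP p 5) ≤ A K t 2 * cubics K := by
    intro f hf
    obtain ⟨β, hβ, rfl⟩ := mem_mulS.1 hf
    refine fl.colA2 2 (mul_mem_H hl (mem_IP.1 hβ).1) ?_
    have hV : V K t ((2 : Fin 9) : ℕ) * H K 6 = mulS (lam * mu) (IP p 7) := h.V2_mul6
    rw [hV, mem_mulS, h2]
    refine ⟨β * del, ?_, by ring⟩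
    refine mem_IP.2 ⟨mul_mem_H (mem_IP.1 hβ).1 hdH, ?_⟩
    rw [map_mul, (mem_IP.1 hβ).2, zero_mul]
  have h3 : A K t 2 * cubics K ≤ H K 6 := by
    rw [← cubics_mul_cubics]
    exact mul_le_mul_left (fl.A_le 2) _
  have : Module.Finite K ↥(H K 6) := by
    have := finrank_H6 (K := K)
    exact Module.finite_of_finrank_pos (by omega)
  have : Module.Finite K ↥(A K t 2 * cubics K) := Submodule.finiteDimensional_of_le h3
  have h4 := Submodule.finrank_mono h1
  rw [finrank_mulS l0] at h4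
  have h5 := finrank_IP h.p0 5
  rw [finrank_H5] at h5
  omega

theorem TII.case_31 (h : TII t p lam lam' mu) {del : Pol K} (hd : del ∈ KK mu) (h2 : t 2 = mu * del)
    (hn : ¬ lam ∣ t 2) : eval p del = 0 := by
  by_contra hp
  have fl := h.fl
  have hl := h.t2.ha
  have hm1 := h.t2.hm
  have m0 := h.t2.m0
  have l0 := h.L0
  have hA2 := A2_31 h hd h2 hn hp
  have hdim := dim_A2_31 h hd h2
  have c2 := fl.cl2 (fl.A_le 2) (fl.llA 2)
  -- the sets
  obtain ⟨v1, v2, -, -⟩ := h.out_V2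
  obtain ⟨a1, a2, -, -⟩ := h.out_A1
  obtain ⟨d1, d2, -, -⟩ := h.out_dv
  have hPhc : mulS lam (Ph p) ≤ cubics K := by
    intro x hx
    obtain ⟨κ, hκ, rfl⟩ := mem_mulS.1 hx
    exact mul_KK_mem hl (Ph_le_Ps hl h.lp hκ).1
  have hPhA1 : mulS lam (Ph p) ≤ A K t 1 := by
    rw [h.A1]
    exact mulS_mono inf_le_left
  have hPhA2 : mulS lam (Ph p) ≤ A K t 2 := by
    rw [hA2]
    exact mulS_mono (Ph_le_Ps hl h.lp)
  have hA2dv : A K t 2 ≤ dv lam := by
    rw [hA2]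
    exact mulS_mono inf_le_left
  have q1 := card_out31 fl hPhc
  rw [finrank_mulS l0, finrank_Ph h.p0] at q1
  have r1 := card_out31 fl (fl.A_le 2)
  rw [hA2, finrank_mulS l0, finrank_Ps h.p0 hl l0, ← hA2] at r1
  have w1 := card_out31 fl (BR.dv_le hm1)
  rw [dv, finrank_mulS m0, finrank_KK hm1 m0, ← dv] at w1
  obtain ⟨m, hm, hD, hnbm⟩ := h.exists_m
  obtain ⟨b, hb, hob⟩ := exists_erase31 (out_mono (t := t) hPhA1) (by omega)
  obtain ⟨a, ha, hoa⟩ := exists_erase31 (out_mono (t := t) h.V2_le_Ph) (by omega)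
  obtain ⟨b', hb', hob'⟩ := exists_erase31 (out_mono (t := t) hA2dv) (by omega)
  -- `2 ∈ out (dv lam)`
  have hV2dv : V K t ((2 : Fin 9) : ℕ) ≤ dv lam := h.V2_le_A1.trans h.A1_le_dv
  have h2D : (2 : Fin 9) ∈ out K t (dv lam) := by
    refine mem_out_of hV2dv ?_
    intro hx
    exact hn ((mem_dv hl l0).1 hx).2
  have h2A : (2 : Fin 9) ∈ out K t (A K t 1) := out_mono h.A1_le_dv h2D
  have h2A2 : (2 : Fin 9) ∈ out K t (A K t 2) := out_mono hA2dv h2D
  have h2P : (2 : Fin 9) ∈ out K t (mulS lam (Ph p)) := out_mono hPhA1 h2A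
  have hoA : out K t (A K t 2) = nb K t 2 (out K t (V K t 2)) := fl.outA 2
  -- `m ∉ out (A 2)`
  have hmA2 : m ∉ out K t (A K t 2) := by
    intro hx
    rw [hoA] at hx
    have h3 : (2 : Fin 9) ∈ nb K t m (out K t (A K t 1)) := mem_nb.2 ⟨h2A, adj_symm (mem_nb.1 hx).2⟩
    rw [hnbm] at h3
    exact absurd h3 (Finset.notMem_empty _)
  have hbA : b ∉ out K t (A K t 1) := by
    rw [hob]
    exact Finset.notMem_erase _ _
  have hbb' : b' = b := by
    by_contra hne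
    have h3 : b' ∈ out K t (mulS lam (Ph p)) := out_mono hPhA2 hb'
    have h4 : b' ∈ out K t (A K t 1) := by
      rw [hob]
      exact Finset.mem_erase.2 ⟨hne, h3⟩
    have h5 : b' ∈ out K t (dv lam) := by
      rw [hD]
      refine Finset.mem_erase.2 ⟨?_, h4⟩
      rintro rfl
      exact hmA2 hb'
    rw [hob'] at h5
    exact (Finset.mem_erase.1 h5).1 rfl
  subst hbb'
  -- (4)
  have e1 : cl K t 2 _ = cl K t 1 _ + cl K t 2 _ := cl_erase (K := K) (t := t) 1 hb'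
  rw [← hob', cl_one] at e1
  have h2b : (2 : Fin 9) ∈ nb K t b' (out K t (A K t 2)) := by
    refine mem_nb.2 ⟨h2A2, ?_⟩
    rw [hoA] at hb'
    exact adj_symm (mem_nb.1 hb').2
  have hone : (nb K t b' (out K t (A K t 2))).card ≤ 1 := by omega
  have hnb2 : ∀ u ∈ nb K t b' (out K t (A K t 2)), u = 2 := by
    intro u hu
    exact Finset.card_le_one.1 hone u hu 2 h2b
  -- (5)
  have h2V : (2 : Fin 9) ∈ out K t (V K t 2) := by
    rw [fl.mem_out_V]
    decide
  have hV3 : out K t (V K t 3) = (out K t (V K t 2)).erase 2 := by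
    ext i
    rw [Finset.mem_erase, fl.mem_out_V, fl.mem_out_V]
    constructor
    · intro hi
      refine ⟨?_, by omega⟩
      rintro rfl
      exact absurd hi (by decide)
    · rintro ⟨hi, hi'⟩
      have : (i : ℕ) ≠ 2 := fun hx => hi (Fin.ext hx)
      omega
  have e2 : cl K t 2 _ = cl K t 1 _ + cl K t 2 _ := cl_erase (K := K) (t := t) 1 h2V
  rw [← hV3, cl_one, ← hoA] at e2
  have e3 : cl K t 2 _ = cl K t 1 _ + cl K t 2 _ := cl_erase (K := K) (t := t) 1 h2A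
  rw [cl_one] at e3
  have hVA1 : V K t ((2 : Fin 9) : ℕ) ≤ A K t 1 := h.V2_le_A1
  have e4 : (out K t (dv lam)).card ≤ (nb K t 2 (out K t (A K t 1))).card := by
    refine Finset.card_le_card ?_
    intro u hu
    rw [fl.nb_eq hVA1]
    exact Finset.mem_inter.2 ⟨out_mono h.A1_le_dv hu, out_mono hA2dv hu⟩
  -- (6)
  have ha2 : a ≠ 2 := by
    rintro rfl
    rw [hoa] at h2P
    exact (Finset.mem_erase.1 h2P).1 rfl
  have haV3 : a ∈ out K t (V K t 3) := by
    rw [hV3]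
    exact Finset.mem_erase.2 ⟨ha2, ha⟩
  have haP : a ∈ inn K t (mulS lam (Ph p)) := by
    rw [← notMem_out, hoa]
    exact Finset.notMem_erase _ _
  have e5 : (nb K t a (out K t (V K t 3))).card ≤ (out K t (dv mu)).card := by
    refine Finset.card_le_card ?_
    intro u hu
    obtain ⟨hu1, hu2⟩ := mem_nb.1 hu
    rw [hV3] at hu1
    rw [← notMem_inn]
    intro hu3
    refine fl.g2s (fl.V_le 2) (fl.llV 2) ?_ haP hu3 ha (Finset.mem_erase.1 hu1).2 hu2
    intro x hx y hy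
    obtain ⟨κ, hκ, rfl⟩ := mem_mulS.1 hx
    obtain ⟨κ', hκ', rfl⟩ := mem_mulS.1 hy
    rw [h.V2_mul, mem_mulS]
    refine ⟨κ * κ', ?_, by ring⟩
    refine mem_IP.2 ⟨mul_mem_H (mem_IP.1 hκ.2).1 (KK_le _ hκ'), ?_⟩
    rw [map_mul, Ph_eval hκ, zero_mul]
  have e6 : cl K t 2 _ = cl K t 1 _ + cl K t 2 _ := cl_erase (K := K) (t := t) 1 haV3
  rw [cl_one] at e6
  -- (7)
  have hbV : b' ∈ (out K t (V K t 3)).erase a := by
    rw [hoa] at hb
    obtain ⟨h5, h6⟩ := Finset.mem_erase.1 hb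
    refine Finset.mem_erase.2 ⟨h5, ?_⟩
    rw [hV3]
    refine Finset.mem_erase.2 ⟨?_, h6⟩
    rintro rfl
    exact hbA h2A
  have e7 : cl K t 2 _ = cl K t 1 _ + cl K t 2 _ := cl_erase (K := K) (t := t) 1 hbV
  rw [cl_one] at e7
  have e8 : ((out K t (V K t 3)).erase a).erase b' = (out K t (A K t 1)).erase 2 := by
    rw [hob, hoa, hV3]
    ext i
    simp only [Finset.mem_erase]
    tauto
  rw [e8] at e7
  have e9 : (nb K t b' ((out K t (V K t 3)).erase a)).card ≤ 1 := by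
    have : nb K t b' ((out K t (V K t 3)).erase a) ⊆ {m} := by
      intro u hu
      obtain ⟨hu1, hu2⟩ := mem_nb.1 hu
      obtain ⟨hu3, hu4⟩ := Finset.mem_erase.1 hu1
      rw [hV3] at hu4
      obtain ⟨hu5, hu6⟩ := Finset.mem_erase.1 hu4
      rw [Finset.mem_singleton]
      by_contra hum
      have k1 : u ∈ out K t (mulS lam (Ph p)) := by
        rw [hoa]
        exact Finset.mem_erase.2 ⟨hu3, hu6⟩
      by_cases hub : u = b'
      · subst hub
        exact hu5 (hnb2 u (mem_nb.2 ⟨hb', hu2⟩))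
      · have k2 : u ∈ out K t (A K t 1) := by
          rw [hob]
          exact Finset.mem_erase.2 ⟨hub, k1⟩
        have k3 : u ∈ out K t (dv lam) := by
          rw [hD]
          exact Finset.mem_erase.2 ⟨hum, k2⟩
        exact hu5 (hnb2 u (mem_nb.2 ⟨out_mono hA2dv k3, hu2⟩))
    exact (Finset.card_le_card this).trans (by simp)
  omega

end Pool.Agent.BR
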