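import Pool.Agent.Work.MP_be705b_al.II.TDefs

set_option autoImplicit false
set_option linter.unusedSectionVars false
set_option linter.unusedVariables false

/-!
# MP_be705b_al, type II, module CM (S-M): the vertex `2` is not `m`

STATEMENT: if `t 2 ∈ dv lam` then `t 2 ∈ A 1`.

PROOF.  Suppose `t 2 ∉ A 1`, `t 2 = lam * κ`, `κ ∈ KK lam`, `κ ∉ Fp p`.  `V 2 ≤ A 1` (`V2_le_A1`), so `2 ∈ out (A 1)` (`mem_out_of`) and `2 ∉ out (dv lam)`,
hence `2 = m` for the `m` of `exists_m` and `nb 2 (out (A 1)) = ∅`.  By `Fl.outSupA` (`U = A 1`, `j = 2`, `t 2 ∉ A 1`): `out (A 1 ⊔ A 2) = ∅`, so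
`A 1 ⊔ A 2 = cubics K` (`W_le_of_inn`).  Every `a ∈ A 2` satisfies `a * lam * κ ∈ V 2 * cubics = lam * mu * (IP p 4)` (`V2_mul`), so
`a * κ = mu * g` with `g ∈ IP p 4`.
* If `mu ∤ κ` then `mu ∣ a` for all `a ∈ A 2` (`prime_lin`).  Then all of `cubics K = A 1 + A 2` vanishes at a point `q ≠ 0` with
  `lam (q) = mu (q) = 0` (two linear forms have a common zero: `exists_point` for `span {lam, mu} ≠ H K 1`), contradiction to
  `exists_cubic_ne`.
* If `mu ∣ κ` then by `KK_dvd` `κ = mu * ν` with `ν (p) ≠ 0`, and `a * ν = g` so `a (p) = 0` for all `a ∈ A 2`; `A 1` vanishes at `p` too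
  (`A1_eval`); contradiction to `exists_cubic_ne` for `p`.
-/

namespace Pool.Agent.BR

open Submodule Module MvPolynomial

variable {K : Type*} [Field K] {t : Fin 9 → Pol K} {p : Fin 3 → K} {lam lam' mu : Pol K}

theorem TII.case_m (h : TII t p lam lam' mu) (h2 : t 2 ∈ dv lam) : t 2 ∈ A K t 1 := by
  by_contra hA
  have fl := h.fl
  have hl := h.t2.ha
  have hm1 := h.t2.hm
  have m0 := h.t2.m0
  have l0 := h.L0
  obtain ⟨κ, hκ, e⟩ := mem_mulS.1 h2
  have hκF : κ ∉ Fp p := by
    intro hF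
    apply hA
    rw [h.A1, ← e]
    exact mul_mem_mulS hF
  obtain ⟨m, hm, hD, hnb⟩ := h.exists_m
  have hV : V K t ((2 : Fin 9) : ℕ) ≤ A K t 1 := h.V2_le_A1
  have h2o : (2 : Fin 9) ∈ out K t (A K t 1) := mem_out_of hV hA
  have h2n : (2 : Fin 9) ∉ out K t (dv lam) := notMem_out.2 (inn_of_t_mem h2)
  have hm2 : (2 : Fin 9) = m := by
    by_contra hne
    apply h2n
    rw [hD]
    exact Finset.mem_erase.2 ⟨hne, h2o⟩
  rw [← hm2] at hnb
  have ho := fl.outSupA (fl.A_le 1) (fl.llA 1) hV hA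
  rw [hnb] at ho
  have hW : cubics K ≤ A K t 1 ⊔ A K t 2 := by
    have := W_le_of_inn ho
    rwa [fl.sp] at this
  have key : ∀ a ∈ A K t 2, ∃ g ∈ IP p 4, a * κ = mu * g := by
    intro a ha
    have h3 := (fl.mem_A.1 ha).2
    have h4 : V K t ((2 : Fin 9) : ℕ) * cubics K = mulS (lam * mu) (IP p 4) := h.V2_mul
    rw [h4, mem_mulS] at h3
    obtain ⟨g, hg, e2⟩ := h3
    refine ⟨g, hg, ?_⟩
    rw [← e] at e2
    apply mul_left_cancel₀ l0
    linear_combination -e2
  by_cases hd : mu ∣ κ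
  · obtain ⟨-, ν, hν, hν0, rfl⟩ := h.KK_dvd hκ hd hκF
    obtain ⟨w, hw, hw0⟩ := exists_cubic_ne h.p0
    refine hw0 (sup_eval h.A1_eval ?_ w (hW hw))
    intro a ha
    obtain ⟨g, hg, e3⟩ := key a ha
    have h5 : a * ν = g := by
      apply mul_left_cancel₀ m0
      linear_combination e3
    have h6 : eval p (a * ν) = 0 := by rw [h5]; exact (mem_IP.1 hg).2
    rw [map_mul] at h6
    rcases mul_eq_zero.1 h6 with h7 | h7
    · exact h7
    · exact absurd h7 hν0
  · have hM : span K {lam, mu} ≤ H K 1 := by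
      rw [span_le]
      intro x hx
      rcases hx with rfl | rfl
      · exact hl
      · exact hm1
    have hne : span K {lam, mu} ≠ H K 1 := by
      intro heq
      classical
      have h5 : finrank K ↥(span K {lam, mu}) = 3 := by rw [heq, finrank_H1]
      have h6 : finrank K ↥(span K (({lam, mu} : Finset (Pol K)) : Set (Pol K))) ≤
          ({lam, mu} : Finset (Pol K)).card := finrank_span_finset_le_card _
      have h7 : ({lam, mu} : Finset (Pol K)).card ≤ 2 := Finset.card_le_two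
      rw [Finset.coe_pair] at h6
      omega
    obtain ⟨r, hr, hr0⟩ := exists_point hM hne
    obtain ⟨w, hw, hw0⟩ := exists_cubic_ne hr
    refine hw0 (sup_eval ?_ ?_ w (hW hw))
    · intro u hu
      rw [h.A1] at hu
      obtain ⟨κ', _, rfl⟩ := mem_mulS.1 hu
      rw [map_mul, hr0 lam (subset_span (by simp)), zero_mul]
    · intro a ha
      obtain ⟨g, hg, e3⟩ := key a ha
      have h5 : mu ∣ a := by
        rcases (prime_lin hm1 m0).dvd_or_dvd (Dvd.intro g e3.symm) with h6 | h6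
        · exact h6
        · exact absurd h6 hd
      obtain ⟨a', rfl⟩ := h5
      rw [map_mul, hr0 mu (subset_span (by simp)), zero_mul]

end Pool.Agent.BR
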