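import Pool.Agent.Work.MP_be705b_al.II.C1a
import Pool.Agent.Work.MP_be705b_al.II.C2v
import Pool.Agent.Work.MP_be705b_al.II.CM
import Pool.Agent.Work.MP_be705b_al.II.C31

set_option autoImplicit false
set_option linter.unusedSectionVars false
set_option linter.unusedVariables false

/-!
# MP_be705b_al, type II, module C1b (S): the two cases for `t 2`

PROOF.  If `lam ∣ t 2` then `t 2 ∈ dv lam` (`mem_dv`), `t 2 ∈ A 1` (`case_m`) and `V 3 = mulS lam (Ph p)` (`V3_case2`).  Otherwise `mu ∣ t 2` (`case_1a`),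
`t 2 = mu * del`, `del ∈ H 2` (`exists_quot`), `del ∈ KK mu` (`mem_KK'`), `del (p) = 0` (`case_31`).
-/

namespace Pool.Agent.BR

open Submodule Module MvPolynomial

variable {K : Type*} [Field K] {t : Fin 9 → Pol K} {p : Fin 3 → K} {lam lam' mu : Pol K}

theorem TII.cases (h : TII t p lam lam' mu) :
    V K t 3 = mulS lam (Ph p) ∨ ∃ del, TB t p lam lam' mu del := by
  have hm := h.t2.hm
  have m0 := h.t2.m0
  by_cases hd : lam ∣ t 2
  · left
    exact h.V3_case2 (h.case_m ((mem_dv h.t2.ha h.L0).2 ⟨h.fl.mem 2, hd⟩))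
  · right
    have h1 : mu ∣ t 2 := by
      rcases h.case_1a with h2 | h2
      · exact absurd h2 hd
      · exact h2
    obtain ⟨del, hdel, e⟩ := exists_quot (a := 1) (b := 2) hm m0 (h.fl.mem_H 2) h1
    have hK : del ∈ KK mu := (mem_KK' hm).2 ⟨hdel, by rw [← e]; exact h.fl.mem 2⟩
    refine ⟨del, ⟨h, ⟨hK, ?_⟩, e, ?_, ?_⟩⟩
    · exact mem_IP.2 ⟨hdel, h.case_31 hK e hd⟩
    · intro h3
      exact hd (by rw [e]; exact dvd_mul_of_dvd_right h3 _)
    · intro h3
      exact hd (by rw [e]; exact dvd_mul_of_dvd_left h3 _)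

end Pool.Agent.BR
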