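import Pool.Agent.Work.MP_be705b_al.II.TDefs

set_option autoImplicit false
set_option linter.unusedSectionVars false
set_option linter.unusedVariables false

/-!
# MP_be705b_al, type II, case 2: the structure `CC` (definition only)

Case 2: `V 3 = mulS lam (Ph p)`, with the vertices `b` (`inn (A 1) = {0, 1, 2, b}`) and `m`.
-/

namespace Pool.Agent.BR

open Submodule Module MvPolynomial

variable {K : Type*} [Field K]

/-- case 2 -/
structure CC (t : Fin 9 → Pol K) (p : Fin 3 → K) (lam lam' mu : Pol K) (b m : Fin 9) : Prop where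
  h : TII t p lam lam' mu
  v3 : V K t 3 = mulS lam (Ph p)
  bm : BM t lam (V K t 3) b m
  card : (out K t (V K t 3)).card = 6
  cl2 : cl K t 2 (out K t (V K t 3)) = 10
  nb3 : (nb K t b (out K t (V K t 3))).card = 3
  nbs : nb K t b (out K t (V K t 3)) ⊆ out K t (dv lam)
  oA1 : out K t (A K t 1) = (out K t (V K t 3)).erase b
  oDv : out K t (dv lam) = (out K t (A K t 1)).erase m

end Pool.Agent.BR
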