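import Pool.Agent.Work.MP_be705b_al.II.B3

set_option autoImplicit false
set_option linter.unusedSectionVars false
set_option linter.unusedVariables false

/-!
# MP_be705b_al, type II, module Col (M): the colon space of an element

`ll_col`: `U ∈ LL`, `u ∈ cubics K`, `U + u ∈ LL` and `out (U + u) = (out U) \ {b}` with `b ∈ out U`.  Let `C = (U : u)` in degree one,
`C = col K t U u 1`.  Then `out C = nb b (out U)` and `C ∈ LL`.

PROOF.  `W = Wt K t = cubics K`.  By `dim_step` (with `w = u`; `u ≠ 0` because `u ∉ U`: otherwise `out (U + u) = out U`)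
`finrank ((U + u) W^(d+1)) + finrank (col U u (d+1)) = finrank (U W^(d+1)) + finrank (W^(d+1))`, and with the equalities `LL.eq` for `U` and
`U + u` and `cl_erase`: `finrank (col U u (d+1)) + cl (d+1) (nb b (out U)) = finrank (W^(d+1))` (*).  `C * W^d ≤ col U u (d+1)`.
For `d = 0`, (*) and `dim_one` give `card (out C) = card (nb b (out U))`.  By (G2) no vertex of `inn C ∩ out U` is adjacent to `b`:
(`X = U + u`, `b ∈ inn X` because `b ∉ out (U + u)`, `Y = C`, `x * y ∈ U * W` for `x ∈ X`, `y ∈ C`, and `U ≤ C`), so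
`nb b (out U) ⊆ out C` (`u ∈ nb b (out U)`, `u ∈ inn C` is impossible); equal cardinality gives equality.  Now (*) for all `d` is `LL`.

`bstar`: in type II, if moreover `U` contains `lam * Ph p` and `U + A 1` is `U` plus one vertex `b`, the elements `a` with
`a * (lam * κ) ∈ U W` (`κ ∈ Fp p`, `κ (p) ≠ 0`) vanish at `p`, then `c_*` is adjacent to `b`.
PROOF.  Take `κ ∈ N K` with `κ (p) ≠ 0`.  `A 1 = lam * Fp p = lam * Ph p + lam κ` (`Fp_dec`), so `U + A 1 = U + span {lam * κ}`; `ll_col` gives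
`nb b (out U) = out C` and `C` vanishes at `p`; `Fl.isC_out`.
-/

namespace Pool.Agent.BR

open Submodule Module MvPolynomial

variable {K : Type*} [Field K] {t : Fin 9 → Pol K} {p : Fin 3 → K} {lam lam' mu : Pol K}

theorem Fl.ll_col (fl : Fl t) {U : Submodule K (Pol K)} (hU : U ≤ cubics K) (hL : LL K t U) {u : Pol K}
    (hu : u ∈ cubics K) {b : Fin 9} (hb : b ∈ out K t U) (hL' : LL K t (U ⊔ span K {u}))
    (ho : out K t (U ⊔ span K {u}) = (out K t U).erase b) :
    out K t (col K t U u 1) = nb K t b (out K t U) ∧ LL K t (col K t U u 1) := by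
  have hUW : U ≤ Wt K t := by rw [fl.sp]; exact hU
  have huW : u ∈ Wt K t := by rw [fl.sp]; exact hu
  have huU : u ∉ U := by
    intro h
    have h1 : U ⊔ span K {u} = U := sup_eq_left.2 ((span_singleton_le_iff_mem _ _).2 h)
    rw [h1] at ho
    rw [ho] at hb
    exact (Finset.mem_erase.1 hb).1 rfl
  have hu0 : u ≠ 0 := by
    rintro rfl
    exact huU (zero_mem _)
  have hU'W : U ⊔ span K {u} ≤ Wt K t := sup_le hUW ((span_singleton_le_iff_mem _ _).2 huW)
  -- dimension of the colon space in degree `d + 1`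
  have key : ∀ d : ℕ, finrank K ↥(col K t U u (d + 1)) + cl K t (d + 1) (nb K t b (out K t U)) =
      finrank K ↥(Wt K t ^ (d + 1)) := by
    intro d
    have h1 := dim_step hUW hu0 huW (d + 1)
    have h2 := hL.eq fl.li hUW (d + 1)
    have h3 := hL'.eq fl.li hU'W (d + 1)
    have h4 := cl_erase (K := K) (t := t) (d + 1) hb
    rw [ho] at h3
    omega
  have hCW : col K t U u 1 ≤ Wt K t := by
    have h1 := col_le (K := K) (t := t) (U := U) (w := u) (d := 1)
    rwa [pow_one] at h1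
  have hCd : ∀ d : ℕ, col K t U u 1 * Wt K t ^ d ≤ col K t U u (d + 1) := by
    intro d
    rw [mul_le]
    intro a ha x hx
    obtain ⟨h1, h2⟩ := mem_col.1 ha
    refine mem_col.2 ⟨?_, ?_⟩
    · rw [pow_one] at h1
      rw [pow_succ']
      exact mul_mem_mul h1 hx
    · have h3 : a * x * u = (a * u) * x := by ring
      rw [h3, pow_succ', ← mul_assoc]
      rw [pow_one] at h2
      exact mul_mem_mul h2 hx
  have hcard : (out K t (col K t U u 1)).card = (nb K t b (out K t U)).card := by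
    have h1 := key 0
    have h2 := dim_one fl.li hCW
    rw [zero_add, cl_one, pow_one] at h1
    omega
  have hsub : nb K t b (out K t U) ⊆ out K t (col K t U u 1) := by
    intro i hi
    obtain ⟨hi1, hi2⟩ := mem_nb.1 hi
    by_contra hcon
    have hi3 := notMem_out.1 hcon
    have hbX : b ∈ inn K t (U ⊔ span K {u}) := by
      rw [← notMem_out, ho]
      simp
    refine fl.g2s hU hL (X := U ⊔ span K {u}) (Y := col K t U u 1) ?_ hbX hi3 hb hi1 hi2
    intro x hx y hy
    obtain ⟨x1, hx1, x2, hx2, rfl⟩ := mem_sup.1 hx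
    obtain ⟨c, rfl⟩ := mem_span_singleton.1 hx2
    obtain ⟨h1, h2⟩ := mem_col.1 hy
    rw [pow_one, fl.sp] at h1 h2
    rw [add_mul]
    refine add_mem (mul_mem_mul hx1 h1) ?_
    rw [smul_mul_assoc, mul_comm u y]
    exact smul_mem _ _ h2
  have heq : nb K t b (out K t U) = out K t (col K t U u 1) :=
    Finset.eq_of_subset_of_card_le hsub hcard.le
  refine ⟨heq.symm, fun d => ?_⟩
  have : Module.Finite K ↥(col K t U u (d + 1)) := fin_of_le col_le
  have h1 := finrank_mono (hCd d)
  have h2 := key d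
  rw [← heq]
  omega

theorem Fl.mem_col1 (fl : Fl t) {U : Submodule K (Pol K)} {u a : Pol K} :
    a ∈ col K t U u 1 ↔ a ∈ cubics K ∧ a * u ∈ U * cubics K := by
  rw [mem_col, pow_one, fl.sp]

/-- `U + A 1 = U + lam * κ` -/
theorem TII.sup_A1 (h : TII t p lam lam' mu) {U : Submodule K (Pol K)} (hPh : mulS lam (Ph p) ≤ U)
    {κ : Pol K} (hκ : κ ∈ Fp p) (h0 : eval p κ ≠ 0) : U ⊔ A K t 1 = U ⊔ span K {lam * κ} := by
  apply le_antisymm
  · refine sup_le le_sup_left ?_
    rw [h.A1]
    intro x hx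
    obtain ⟨f, hf, rfl⟩ := mem_mulS.1 hx
    obtain ⟨c, g, hg, rfl⟩ := Fp_dec hκ h0 hf
    have h1 : lam * (C c * κ + g) = lam * g + c • (lam * κ) := by
      rw [MvPolynomial.smul_eq_C_mul]
      ring
    rw [h1]
    exact add_mem (le_sup_left (a := U) (hPh (mul_mem_mulS hg)))
      (smul_mem _ _ (le_sup_right (a := U) (mem_span_singleton_self _)))
  · refine sup_le le_sup_left ((span_singleton_le_iff_mem _ _).2 ?_)
    refine le_sup_right (a := U) ?_
    rw [h.A1]
    exact mul_mem_mulS hκ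

theorem TII.bstar (h : TII t p lam lam' mu) {U : Submodule K (Pol K)} (hU : U ≤ cubics K)
    (hL : LL K t U) (hPh : mulS lam (Ph p) ≤ U) (hL' : LL K t (U ⊔ A K t 1)) {b : Fin 9}
    (hb : b ∈ out K t U) (ho : out K t (U ⊔ A K t 1) = (out K t U).erase b)
    (hp : ∀ a ∈ cubics K, ∀ κ ∈ Fp p, eval p κ ≠ 0 → a * (lam * κ) ∈ U * cubics K → eval p a = 0)
    {c : Fin 9} (hc : IsC t p c) : c ∈ nb K t b (out K t U) := by
  obtain ⟨κ, hκ, h0⟩ := exists_N_ne h.p0
  have hκ' : κ ∈ Fp p := (le_sup_left : N K ≤ N K ⊔ span K {cr p}) hκ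
  have h1 := h.sup_A1 hPh hκ' h0
  have hu : lam * κ ∈ cubics K := by
    refine h.fl.A_le 1 ?_
    rw [h.A1]
    exact mul_mem_mulS hκ'
  rw [h1] at hL' ho
  have h2 := (h.fl.ll_col hU hL hu hb hL' ho).1
  rw [← h2]
  refine h.fl.isC_out hc fun a ha => ?_
  obtain ⟨h3, h4⟩ := h.fl.mem_col1.1 ha
  exact hp a h3 κ hκ' h0 h4

end Pool.Agent.BR
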