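import Pool.Agent.Work.MP_be705b_al.II.CCDefs

set_option autoImplicit false
set_option linter.unusedSectionVars false
set_option linter.unusedVariables false

/-!
# MP_be705b_al, type II, case 2, module D1 (M): the vertices `b`, `m`

`V 3 = lam * Ph p ≤ A 1 = lam * Fp p ≤ dv lam`.

PROOFS.
* `cancel`: `lam f ∈ V 3 * cubics = lam * (Ph p * cubics)` iff `f ∈ Ph p * cubics` (`mulS_mul`, `mul_mem_mulS_iff`).
* `V 3` has dimension `3`, products `18, 42, 75` (`TII.f1, f2, f3`), so `out (V 3)`: card `6`, cliques `10, 13, 16` (`Fl.cl1 .. cl4`).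
* `S := out (V 3) ⊇ out (A 1) ⊇ out (dv lam)` have `6, 5, 4` elements (`out_A1`, `out_dv`), so `out (A 1) = S.erase b`, `out (dv lam) = (out (A 1)).erase m`
  with the `m` of `exists_m`; `nb m (out (A 1)) = ∅`.  `V 3 ⊔ A 1 = A 1`, `V 3 ⊔ dv lam = dv lam`.
* counts at `b` (`cl_erase`): `card (nb b S) = 10 - 7 = 3`, `cl 2 (nb b S) = 13 - 10 = 3`, `cl 3 (nb b S) = 16 - 13 = 3`.
* `c_* ∈ nb b S` (`TII.bstar`, `U = V 3`; `a * (lam κ) ∈ V 3 * cubics` gives `a κ ∈ Ph p * cubics` and `a (p) κ (p) = 0`), `c_* ≠ b` as `c_* ∈ out (A 1)`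
  (`Fl.isC_out`, `A1_eval`).
* `gr_bm`: `b` is no loop, `m ∉ nb b S`.  So `nb b S ⊆ out (dv lam)` and `nb m S = ∅`.
-/

namespace Pool.Agent.BR

open Submodule Module MvPolynomial

variable {K : Type*} [Field K] {t : Fin 9 → Pol K} {p : Fin 3 → K} {lam lam' mu : Pol K}

theorem TII.cancel3 (h : TII t p lam lam' mu) (h3 : V K t 3 = mulS lam (Ph p)) {f : Pol K} :
    lam * f ∈ V K t 3 * cubics K ↔ f ∈ Ph p * cubics K := by
  rw [h3, mulS_mul, mul_mem_mulS_iff h.L0]

theorem TII.exists_CC (h : TII t p lam lam' mu) (h3 : V K t 3 = mulS lam (Ph p)) :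
    ∃ b m : Fin 9, CC t p lam lam' mu b m := by
  classical
  have hU := h.fl.V_le 3
  have hL := h.fl.llV 3
  have e1 := h.fl.cl1 hU hL
  have e2 := h.fl.cl2 hU hL
  have e3 := h.fl.cl3 hU hL
  have e4 := h.fl.cl4 hU hL
  have f1 : finrank K ↥(V K t 3) = 3 := by rw [h3, finrank_mulS h.L0, finrank_Ph h.p0]
  have f2 : finrank K ↥(V K t 3 * cubics K) = 18 := by rw [h3, mulS_mul, finrank_mulS h.L0, h.f1]
  have f3 : finrank K ↥(V K t 3 * H K 6) = 42 := by rw [h3, mulS_mul, finrank_mulS h.L0, h.f2]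
  have f4 : finrank K ↥(V K t 3 * H K 9) = 75 := by rw [h3, mulS_mul, finrank_mulS h.L0, h.f3]
  rw [f1] at e1
  rw [f2] at e2
  rw [f3] at e3
  rw [f4] at e4
  have hVA : V K t 3 ≤ A K t 1 := by
    rw [h3, h.A1]
    exact mulS_mono inf_le_left
  have hVD : V K t 3 ≤ dv lam := hVA.trans h.A1_le_dv
  have hs : out K t (A K t 1) ⊆ out K t (V K t 3) := out_mono hVA
  obtain ⟨a1, a2, a3, a4⟩ := h.out_A1
  obtain ⟨m, hm, hm1, hm2⟩ := h.exists_m
  have hcard : (out K t (V K t 3) \ out K t (A K t 1)).card = 1 := by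
    rw [Finset.card_sdiff_of_subset hs]
    omega
  obtain ⟨b, hb⟩ := Finset.card_eq_one.1 hcard
  have hbm : b ∈ out K t (V K t 3) \ out K t (A K t 1) := by
    rw [hb]
    exact Finset.mem_singleton_self _
  obtain ⟨hb1, hb2⟩ := Finset.mem_sdiff.1 hbm
  have oA1 : out K t (A K t 1) = (out K t (V K t 3)).erase b := by
    ext x
    rw [Finset.mem_erase]
    constructor
    · intro hx
      refine ⟨?_, hs hx⟩
      rintro rfl
      exact hb2 hx
    · rintro ⟨hx1, hx2⟩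
      by_contra hx3
      have : x ∈ out K t (V K t 3) \ out K t (A K t 1) := Finset.mem_sdiff.2 ⟨hx2, hx3⟩
      rw [hb, Finset.mem_singleton] at this
      exact hx1 this
  have g2 := cl_erase (K := K) (t := t) 1 hb1
  have g3 := cl_erase (K := K) (t := t) 2 hb1
  have g4 := cl_erase (K := K) (t := t) 3 hb1
  rw [← oA1] at g2 g3 g4
  rw [cl_one] at g2
  simp only [Nat.reduceAdd] at g2 g3 g4
  have n1 : (nb K t b (out K t (V K t 3))).card = 3 := by omega
  have n2 : cl K t 2 (nb K t b (out K t (V K t 3))) = 3 := by omega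
  have n3 : cl K t 3 (nb K t b (out K t (V K t 3))) = 3 := by omega
  have sA : V K t 3 ⊔ A K t 1 = A K t 1 := sup_eq_right.2 hVA
  have sD : V K t 3 ⊔ dv lam = dv lam := sup_eq_right.2 hVD
  obtain ⟨c, hc⟩ := h.fl.exists_isC h.p0
  have hcb : c ∈ nb K t b (out K t (V K t 3)) := by
    refine h.bstar hU hL h3.ge ?_ hb1 ?_ ?_ hc
    · rw [sA]
      exact h.fl.llA 1
    · rw [sA, oA1]
    · intro a ha κ hκ h0 hmul
      have h5 : lam * (a * κ) ∈ V K t 3 * cubics K := by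
        have : lam * (a * κ) = a * (lam * κ) := by ring
        rw [this]
        exact hmul
      have h6 := mul_eval (p := p) (fun u hu => Ph_eval hu) ((h.cancel3 h3).1 h5)
      rw [map_mul] at h6
      exact (mul_eq_zero.1 h6).resolve_right h0
  have hcne : c ≠ b := by
    rintro rfl
    exact hb2 (h.fl.isC_out hc h.A1_eval)
  obtain ⟨bb, mn⟩ := gr_bm hb1 n1 n2 n3 (by rw [← oA1]; exact hm2) hcb hcne (h.fl.isC_loop hc)
  have mS : m ∈ out K t (V K t 3) := hs hm
  have mi : nb K t m (out K t (V K t 3)) = ∅ := by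
    rw [Finset.eq_empty_iff_forall_notMem]
    intro x hx
    obtain ⟨hx1, hx2⟩ := mem_nb.1 hx
    by_cases hxb : x = b
    · subst hxb
      exact mn (mem_nb.2 ⟨mS, adj_symm hx2⟩)
    · have : x ∈ nb K t m (out K t (A K t 1)) := by
        rw [mem_nb, oA1, Finset.mem_erase]
        exact ⟨⟨hxb, hx1⟩, hx2⟩
      rw [hm2] at this
      exact absurd this (Finset.notMem_empty _)
  refine ⟨b, m, h, h3, ⟨hb1, ?_, ?_, ?_, bb, mi⟩, by omega, by omega, n1, ?_, oA1, hm1⟩
  · rw [sA, oA1]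
  · rw [sA]
    exact hm
  · rw [sA, sD, hm1]
  · intro x hx
    obtain ⟨hx1, hx2⟩ := mem_nb.1 hx
    rw [hm1, oA1, Finset.mem_erase, Finset.mem_erase]
    refine ⟨?_, ?_, hx1⟩
    · rintro rfl
      exact mn hx
    · rintro rfl
      exact bb hx2

end Pool.Agent.BR
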