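import Pool.Agent.Work.MP_be705b_al.II.D1

set_option autoImplicit false
set_option linter.unusedSectionVars false
set_option linter.unusedVariables false

/-!
# MP_be705b_al, type II, case 2, module D2 (M): the vertex `3` is not `b`, `m`, and `A 3 = dv lam`

`S := out (V 3)`, `3 ∈ S` (`t 3 ∉ V 3`).
`three_mem`: `3 ∈ out (dv lam)`.  PROOF.  Otherwise `3 = b` or `3 = m` (`oA1`, `oDv`).
* `3 = b`: `3 ∉ out (A 1)`, `V 3 ≤ A 1`, so `t 3 ∈ A 1` (`t_mem_of_inn`), `t 3 = lam κ`, `κ ∈ Fp p`, `κ (p) ≠ 0` (otherwise `t 3 ∈ V 3`).  `b` is no loop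
  (`BM.bb`): `t 3 * t 3 ∈ V 3 * cubics` (`Fl.not_loop_iff`), `lam * (lam κ κ)`, so (`cancel3`) `lam * (κ * κ) ∈ Ph p * cubics`: contradiction to `phib`.
* `3 = m`: `t 3 ∈ dv lam` (`V 3 ≤ dv lam`), `t 3 = lam κ`, `κ ∈ KK lam`, `κ ∉ Fp p` (as `m ∈ out (A 1)`).  `nb m S = ∅`, so `out (V 3 ⊔ A 3) = ∅` (`Fl.outSupA`),
  so `A 3 = cubics` (`W_le_of_inn`, `V_le_A`): `w * t 3 ∈ V 3 * cubics` for all `w ∈ cubics`, `κ w ∈ Ph p * cubics` (`cancel3`), `κ ∈ Ph p` (`TII.sat`): contradiction.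

`A3`: PROOF.  `a ∈ A 3`: `a * t 3 ∈ V 3 * cubics ≤ lam H 5`, `lam ∤ t 3` (`3 ∈ out (dv lam)`, `mem_dv`), so `lam ∣ a`, `A 3 ≤ dv lam`.  `V 3 ≤ A 3`.
`m ∈ inn (A 3)`: `out (A 3) = nb 3 S` (`Fl.outA`) and `m` is not adjacent to `3` (`BM.mi`, `adj_comm`).
If `b ∈ inn (A 3)`: `inn (A 3) ⊇ {0, 1, 2, b, m}`, so `finrank (A 3) ≥ 5 = finrank (dv lam)` (`finrank_KK`), so `A 3 = dv lam`.
If `b ∉ inn (A 3)`: `inn (A 3) ⊆ inn (dv lam)`, so `out (A 3) = S.erase m`, card `5`, `finrank (A 3) = 4`.  `nb b (out (A 3)) = nb b S` (`m ∉ nb b S`), and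
`(S.erase m).erase b = out (dv lam)`, so (`cl_erase`) `cl 2 (out (A 3)) = 3 + cl 2 (out (dv lam)) = 3 + 7 = 10`, `finrank (A 3 * cubics) = 18` (`Fl.cl2`).  Write
`A 3 = mulS lam E` with `E = {ε ∈ KK lam | ε * t 3 ∈ Ph p * cubics}` (or `E` = preimage), `finrank E = 4`, `Ph p ≤ E`, `finrank (E * cubics) = 18`, so
`E * cubics = Ph p * cubics` (`TII.f1`), so `E ≤ Ph p` (`TII.sat`), so `4 ≤ 3`: contradiction.
-/

namespace Pool.Agent.BR

open Submodule Module MvPolynomial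

variable {K : Type*} [Field K] {t : Fin 9 → Pol K} {p : Fin 3 → K} {lam lam' mu : Pol K}
  {b m : Fin 9}

private theorem d2_t3 (h : CC t p lam lam' mu b m) : t 3 ∉ V K t 3 := t_notMem h.h.fl.li 3

private theorem d2_three (h : CC t p lam lam' mu b m) : (3 : Fin 9) ∈ out K t (V K t 3) :=
  (h.h.fl.mem_out_V 3 3).2 le_rfl

private theorem d2_VA (h : CC t p lam lam' mu b m) : V K t 3 ≤ A K t 1 := by
  rw [h.v3, h.h.A1]
  exact mulS_mono inf_le_left

private theorem d2_VD (h : CC t p lam lam' mu b m) : V K t 3 ≤ dv lam := (d2_VA h).trans h.h.A1_le_dv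

theorem CC.three_mem (h : CC t p lam lam' mu b m) : (3 : Fin 9) ∈ out K t (dv lam) := by
  classical
  by_contra hcon
  have h3S := d2_three h
  by_cases hA : (3 : Fin 9) ∈ out K t (A K t 1)
  · -- `3 = m`
    have e3m : (3 : Fin 9) = m := by
      by_contra hne
      apply hcon
      rw [h.oDv, Finset.mem_erase]
      exact ⟨hne, hA⟩
    have h4 : t 3 ∈ dv lam := t_mem_of_inn (i := 3) (d2_VD h) (notMem_out.1 hcon)
    obtain ⟨κ, hκ, e1⟩ := mem_mulS.1 h4
    have h5 : out K t (V K t 3 ⊔ A K t 3) = nb K t 3 (out K t (V K t 3)) :=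
      h.h.fl.outSupA (h.h.fl.V_le 3) (h.h.fl.llV 3) (j := 3) le_rfl (d2_t3 h)
    have h6 : V K t 3 ≤ A K t 3 := V_le_A 3
    rw [sup_eq_right.2 h6] at h5
    have h7 : nb K t 3 (out K t (V K t 3)) = ∅ := by
      rw [e3m] at h5 ⊢
      exact h.bm.mi
    rw [h7] at h5
    have h8 := W_le_of_inn h5
    rw [h.h.fl.sp] at h8
    have h9 : κ ∈ Ph p := by
      refine h.h.sat κ (KK_le _ hκ) ?_
      intro w hw
      have h10 := (h.h.fl.mem_A.1 (h8 hw)).2
      rw [← h.h.cancel3 h.v3]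
      have e2 : lam * (κ * w) = w * t 3 := by rw [← e1]; ring
      rw [e2]
      exact h10
    apply d2_t3 h
    rw [h.v3, ← e1]
    exact mul_mem_mulS h9
  · -- `3 = b`
    have e3b : (3 : Fin 9) = b := by
      by_contra hne
      apply hA
      rw [h.oA1, Finset.mem_erase]
      exact ⟨hne, h3S⟩
    have h4 : t 3 ∈ A K t 1 := t_mem_of_inn (i := 3) (d2_VA h) (notMem_out.1 hA)
    rw [h.h.A1] at h4
    obtain ⟨κ, hκ, e1⟩ := mem_mulS.1 h4
    have h5 : eval p κ ≠ 0 := by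
      intro h0
      apply d2_t3 h
      rw [h.v3, ← e1]
      exact mul_mem_mulS ⟨hκ, mem_IP.2 ⟨Fp_le p hκ, h0⟩⟩
    have h6 : ¬ Adj K t 3 3 := by
      rw [e3b]
      exact h.bm.bb
    have h7 := (h.h.fl.not_loop_iff 3).1 h6
    have h8 : lam * (lam * (κ * κ)) ∈ V K t 3 * cubics K := by
      have e2 : lam * (lam * (κ * κ)) = t 3 * t 3 := by rw [← e1]; ring
      rw [e2]
      exact h7
    exact h.h.phib κ hκ h5 ((h.h.cancel3 h.v3).1 h8)

theorem CC.A3 (h : CC t p lam lam' mu b m) : A K t 3 = dv lam := by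
  classical
  have l0 := h.h.L0
  have hl := h.h.t2.ha
  have h3S := d2_three h
  have nd : ¬ lam ∣ t 3 := by
    intro hd
    exact t_notMem_of_out h.three_mem ((mem_dv hl l0).2 ⟨h.h.fl.mem 3, hd⟩)
  have hle : A K t 3 ≤ dv lam := by
    intro a ha
    obtain ⟨ha1, ha2⟩ := h.h.fl.mem_A.1 ha
    have ha3 : a * t 3 ∈ V K t 3 * cubics K := ha2
    rw [h.v3, mulS_mul] at ha3
    obtain ⟨g, -, e1⟩ := mem_mulS.1 ha3
    refine (mem_dv hl l0).2 ⟨ha1, ?_⟩
    exact ((prime_lin hl l0).dvd_or_dvd ⟨g, e1.symm⟩).resolve_right nd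
  have hVA : V K t 3 ≤ A K t 3 := V_le_A 3
  have hoA : out K t (A K t 3) = nb K t 3 (out K t (V K t 3)) := h.h.fl.outA 3
  have hm : m ∉ out K t (A K t 3) := by
    rw [hoA, mem_nb]
    rintro ⟨_, h4⟩
    have h5 : (3 : Fin 9) ∈ nb K t m (out K t (V K t 3)) := mem_nb.2 ⟨h3S, adj_symm h4⟩
    rw [h.bm.mi] at h5
    exact absurd h5 (Finset.notMem_empty _)
  have hU := h.h.fl.A_le 3
  have hL := h.h.fl.llA 3
  have c1 := h.h.fl.cl1 hU hL
  have hoS : out K t (A K t 3) ⊆ out K t (V K t 3) := out_mono hVA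
  obtain ⟨d1, d2, _, _⟩ := h.h.out_dv
  have hfd : finrank K ↥(dv lam) = 5 := by
    rw [dv, finrank_mulS l0, finrank_KK hl l0]
  have hfin : Module.Finite K ↥(dv lam) := Submodule.finiteDimensional_of_le (h.h.dv_le.trans cubics_le)
  by_cases hb : b ∈ out K t (A K t 3)
  · exfalso
    have hsub : out K t (dv lam) ⊆ out K t (A K t 3) := out_mono hle
    have hmD : m ∉ out K t (dv lam) := fun h5 => hm (hsub h5)
    have e1 : nb K t b (out K t (A K t 3)) = nb K t b (out K t (V K t 3)) := by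
      apply Finset.Subset.antisymm (nb_mono b hoS)
      intro x hx
      exact mem_nb.2 ⟨hsub (h.nbs hx), (mem_nb.1 hx).2⟩
    have e2 : (out K t (A K t 3)).erase b = out K t (dv lam) := by
      ext x
      rw [Finset.mem_erase]
      constructor
      · rintro ⟨hx1, hx2⟩
        rw [h.oDv, h.oA1, Finset.mem_erase, Finset.mem_erase]
        refine ⟨?_, hx1, hoS hx2⟩
        rintro rfl
        exact hm hx2
      · intro hx
        refine ⟨?_, hsub hx⟩
        rintro rfl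
        rw [h.oDv, h.oA1, Finset.mem_erase, Finset.mem_erase] at hx
        exact hx.2.1 rfl
    have g2 := cl_erase (K := K) (t := t) 1 hb
    rw [cl_one, e1, e2, h.nb3] at g2
    simp only [Nat.reduceAdd] at g2
    have c2 := h.h.fl.cl2 hU hL
    have f1 : V K t 3 * cubics K ≤ A K t 3 * cubics K := mul_le_mul_left hVA _
    have f2 : finrank K ↥(V K t 3 * cubics K) = 18 := by
      rw [h.v3, mulS_mul, finrank_mulS l0, h.h.f1]
    have hfin2 : Module.Finite K ↥(A K t 3 * cubics K) := by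
      refine Submodule.finiteDimensional_of_le (S₂ := H K 6) ?_
      exact (mul_le_mul' (hU.trans cubics_le) cubics_le).trans (H_mul_le 3 3)
    have f3 : V K t 3 * cubics K = A K t 3 * cubics K :=
      Submodule.eq_of_le_of_finrank_le f1 (by omega)
    have f4 : A K t 3 ≤ V K t 3 := by
      intro a ha
      obtain ⟨κ, hκ, rfl⟩ := mem_mulS.1 (hle ha)
      rw [h.v3]
      refine mul_mem_mulS (h.h.sat κ (KK_le _ hκ) ?_)
      intro w hw
      rw [← h.h.cancel3 h.v3, f3, ← mul_assoc]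
      exact mul_mem_mul ha hw
    have f5 : A K t 3 = V K t 3 := le_antisymm f4 hVA
    have f6 := h.bm.mo
    rw [sup_eq_right.2 (d2_VA h), h.oA1] at f6
    exact hm (by rw [f5]; exact Finset.mem_of_mem_erase f6)
  · have hsub : out K t (A K t 3) ⊆ out K t (dv lam) := by
      intro x hx
      rw [h.oDv, h.oA1, Finset.mem_erase, Finset.mem_erase]
      refine ⟨?_, ?_, hoS hx⟩
      · rintro rfl
        exact hm hx
      · rintro rfl
        exact hb hx
    have hc := Finset.card_le_card hsub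
    exact Submodule.eq_of_le_of_finrank_le hle (by omega)

end Pool.Agent.BR
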