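import Pool.Agent.Work.MP_be705b_al.II.D2

set_option autoImplicit false
set_option linter.unusedSectionVars false
set_option linter.unusedVariables false

/-!
# MP_be705b_al, type II, case 2, module D3 (M): Lemma A applies

By `A3`: `lam κ * t 3 ∈ V 3 * cubics` for `κ ∈ KK lam`, so `κ * t 3 ∈ Ph p * cubics` (`cancel3`).

`la0` (`mu (p) = 0`): `c = t 3`; `pm` is void.

`la1` (`mu (p) ≠ 0`, so `lam ∤ mu`, `mu ∤ lam`).  PROOF.
(1) `A 2 = dv mu`: `t 2 ∈ V 3`, `t 2 = lam κ` with `κ ∈ Ph p`, `mu ∤ κ` (otherwise `κ ∈ mulS mu L` by `Fp_dvd`, `mem_L`, and `t 2 ∈ V 2`).  `a ∈ A 2` iff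
`a lam κ ∈ lam mu (IP p 4)` (`V2_mul`) iff `a κ = mu g`, `g ∈ IP p 4`; so `mu ∣ a`; conversely `a = mu α` gives `g = α κ`.
(2) `U := dv mu ⊔ V 3 ∈ LL` (`Fl.llA`, `Fl.llSupV`).  Choose `ψ ∈ Ph p`, `mu ∤ ψ` (`exists_psi`): `U = dv mu ⊔ span {lam ψ}` (`Ph_eq`, `V2_le_dv_mu`).  `mu ∤ lam ψ`.
`U * cubics = mu H 5 + lam ψ * cubics`, dimension `21 + 9 - 5 = 25` (`lam ψ w ∈ mu H 5` iff `w ∈ dv mu`), so `T := out U` has card `9 - 6 = 3`, `cl 2 T = 3`.
(3) `3 ∉ T`.  Suppose `3 ∈ T`, `t 3 ∉ U`.  `out (U ⊔ A 3) = nb 3 T = T ∩ out (dv lam)` (`Fl.outSupA`, `Fl.nb_eq`, `A3`), `U ⊔ A 3 = dv mu ⊔ dv lam`, and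
`(dv mu ⊔ dv lam) * cubics = mu H 5 + lam H 5` has dimension `21 + 21 - 15 = 27`, so `cl 2 (T ∩ out (dv lam)) = 1`.  `m ∉ T`... : `T ⊆ out (V 3)`, the only vertices of
`out (V 3)` outside of `out (dv lam)` are `b` and `m`.  `nb m (out (V 3)) = ∅`, so removing `m` does not change `cl 2`.  If `b ∉ T`: `cl 2 T = 1 ≠ 3`.  If `b ∈ T`:
`cl 2 T = card (nb b T) + 1`, so `card (nb b T) = 2`; `b` is no loop and not adjacent to `m`, so `m ∉ T` and `nb b T = T.erase b ∋ 3`.  But `b ∈ inn (dv lam) = inn (A 3)`,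
so `b ∉ nb 3 (out (V 3))` (`Fl.outA`): not adjacent.  Contradiction.
(4) So `t 3 ∈ U`: `t 3 = mu κ + lam φ`, `κ ∈ KK mu`, `φ ∈ Ph p` .  `c := mu κ = t 3 - lam φ`.  `V 4 = V 3 ⊔ span {t 3} = lam Ph ⊔ span {c}`; `lam ∤ c`;
`κ' c = κ' t 3 - (lam κ') φ ∈ Ph p * cubics` for `κ' ∈ KK lam`; with `κ' ∈ N K`, `κ' (p) ≠ 0`: `c (p) = 0`, so `κ (p) = 0`, `κ ∈ Ps p mu`.
`dv mu ⊔ V 4 ∈ LL` because `dv mu = A 2 ∈ LL`.
-/

namespace Pool.Agent.BR

open Submodule Module MvPolynomial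

variable {K : Type*} [Field K] {t : Fin 9 → Pol K} {p : Fin 3 → K} {lam lam' mu : Pol K}
  {b m : Fin 9}

private theorem d3_t3 (h : CC t p lam lam' mu b m) : t 3 ∉ V K t 3 := t_notMem h.h.fl.li 3

private theorem d3_nd (h : CC t p lam lam' mu b m) : ¬ lam ∣ t 3 := by
  intro hd
  exact t_notMem_of_out h.three_mem ((mem_dv h.h.t2.ha h.h.L0).2 ⟨h.h.fl.mem 3, hd⟩)

private theorem d3_ck (h : CC t p lam lam' mu b m) : ∀ κ ∈ KK lam, κ * t 3 ∈ Ph p * cubics K := by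
  intro κ hκ
  rw [← h.h.cancel3 h.v3]
  have h1 : lam * κ ∈ A K t 3 := by
    rw [h.A3]
    exact mul_mem_mulS hκ
  have h2 := (h.h.fl.mem_A.1 h1).2
  rw [← mul_assoc]
  exact h2

private theorem d3_V4 (h : CC t p lam lam' mu b m) : V K t 4 = mulS lam (Ph p) ⊔ span K {t 3} := by
  have h1 := V_succ (K := K) (t := t) 3
  have h2 : V K t 4 = V K t 3 ⊔ span K {t 3} := h1
  rw [h2, h.v3]

private theorem d3_VD (h : CC t p lam lam' mu b m) : V K t 3 ≤ dv lam := by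
  refine le_trans ?_ h.h.A1_le_dv
  rw [h.v3, h.h.A1]
  exact mulS_mono inf_le_left

private theorem d3_sup {A : Submodule K (Pol K)} {x y : Pol K} (hy : y ∈ A) :
    A ⊔ span K {x + y} = A ⊔ span K {x} := by
  apply le_antisymm
  · refine sup_le le_sup_left ?_
    rw [span_singleton_le_iff_mem]
    exact add_mem (mem_sup_right (mem_span_singleton_self _)) (mem_sup_left hy)
  · refine sup_le le_sup_left ?_
    rw [span_singleton_le_iff_mem]
    have h1 : (x + y) - y ∈ A ⊔ span K {x + y} :=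
      sub_mem (mem_sup_right (mem_span_singleton_self _)) (mem_sup_left hy)
    rwa [add_sub_cancel_right] at h1

/-- removing a vertex without neighbours -/
private theorem d3_cl {T : Finset (Fin 9)} (hm : nb K t m T = ∅) : cl K t 2 T = cl K t 2 (T.erase m) := by
  classical
  by_cases hmT : m ∈ T
  · have g := cl_erase (K := K) (t := t) 1 hmT
    rw [cl_one, hm, Finset.card_empty, zero_add] at g
    exact g
  · rw [Finset.erase_eq_of_notMem hmT]

private theorem d3_fin {M : Submodule K (Pol K)} (d : ℕ) (h : M ≤ H K d) : Module.Finite K ↥M :=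
  Submodule.finiteDimensional_of_le h

/-- `A 2 = dv mu` -/
private theorem d3_A2 (h : CC t p lam lam' mu b m) (hm : eval p mu ≠ 0) :
    A K t 2 = dv mu ∧ ¬ mu ∣ t 2 := by
  have hmu := h.h.t2.hm
  have m0 := h.h.t2.m0
  have l0 := h.h.L0
  have hpr := prime_lin hmu m0
  have h1 : t 2 ∈ V K t 3 := t_mem (i := 2) (by norm_num)
  rw [h.v3] at h1
  obtain ⟨κ, hκ, e1⟩ := mem_mulS.1 h1
  have hd : ¬ mu ∣ κ := by
    intro hd
    obtain ⟨ν, hν, hν0, e2⟩ := h.h.Fp_dvd hκ.1 hd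
    have h2 : t 2 ∈ V K t 2 := by
      rw [h.h.V2, ← e1, e2, ← mul_assoc]
      exact mul_mem_mulS (h.h.mem_L.2 ⟨hν, hν0⟩)
    exact t_notMem h.h.fl.li 2 h2
  have hml : ¬ mu ∣ lam := by
    intro hd
    obtain ⟨c, hc⟩ := dvd_lin hmu h.h.t2.ha m0 hd
    have h2 := congrArg (eval p) hc
    rw [map_mul, eval_C, h.h.lp] at h2
    have hc0 : c = 0 := (mul_eq_zero.1 h2.symm).resolve_right hm
    apply l0
    rw [hc, hc0, map_zero, zero_mul]
  refine ⟨le_antisymm ?_ ?_, ?_⟩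
  · intro a ha
    obtain ⟨ha1, ha2⟩ := h.h.fl.mem_A.1 ha
    have ha3 : a * t 2 ∈ V K t 2 * cubics K := ha2
    rw [h.h.V2_mul] at ha3
    obtain ⟨g, -, e2⟩ := mem_mulS.1 ha3
    refine (mem_dv hmu m0).2 ⟨ha1, ?_⟩
    have e3 : lam * (mu * g) = lam * (a * κ) := by
      rw [← e1] at e2
      linear_combination e2
    exact (hpr.dvd_or_dvd ⟨g, (mul_left_cancel₀ l0 e3).symm⟩).resolve_right hd
  · intro a ha
    obtain ⟨α, hα, rfl⟩ := mem_mulS.1 ha
    refine h.h.fl.mem_A.2 ⟨mul_KK_mem hmu hα, ?_⟩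
    show mu * α * t 2 ∈ V K t 2 * cubics K
    rw [h.h.V2_mul, ← e1]
    have e2 : mu * α * (lam * κ) = lam * mu * (α * κ) := by ring
    rw [e2]
    refine mul_mem_mulS (mem_IP.2 ⟨mul_mem_H (KK_le _ hα) (Fp_le p hκ.1), ?_⟩)
    rw [map_mul, Ph_eval hκ, mul_zero]
  · intro hd2
    rw [← e1] at hd2
    exact (hpr.dvd_or_dvd hd2).elim hml hd

/-- the dimension of `(dv mu ⊔ dv lam) * cubics` -/
private theorem d3_dim2 {x y : Pol K} (hx : x ∈ H K 1) (hy : y ∈ H K 1) (x0 : x ≠ 0) (y0 : y ≠ 0)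
    (hxy : ¬ y ∣ x) : finrank K ↥((dv x ⊔ dv y) * cubics K) = 27 := by
  rw [Submodule.sup_mul, dv, dv, mulS_mul, mulS_mul, KK_mul hx x0, KK_mul hy y0]
  have i1 : Module.Finite K ↥(mulS x (H K 5)) := d3_fin 6 (mulS_H_le (d := 1) (e := 5) hx)
  have i2 : Module.Finite K ↥(mulS y (H K 5)) := d3_fin 6 (mulS_H_le (d := 1) (e := 5) hy)
  have h1 := finrank_sup_add_finrank_inf_eq (mulS x (H K 5)) (mulS y (H K 5))
  have h2 : mulS x (H K 5) ⊓ mulS y (H K 5) = mulS x (mulS y (H K 4)) := by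
    apply le_antisymm
    · rintro z ⟨hz1, hz2⟩
      obtain ⟨g, hg, rfl⟩ := mem_mulS.1 hz1
      obtain ⟨g', hg', e1⟩ := mem_mulS.1 hz2
      refine mul_mem_mulS ?_
      have hd : y ∣ g := ((prime_lin hy y0).dvd_or_dvd (⟨g', e1.symm⟩ : y ∣ x * g)).resolve_left hxy
      exact mem_mulS_of_dvd (a := 1) (b := 4) hy y0 hg hd
    · intro z hz
      obtain ⟨g, hg, rfl⟩ := mem_mulS.1 hz
      refine ⟨mul_mem_mulS (mulS_H_le (d := 1) (e := 4) hy hg), ?_⟩
      obtain ⟨g', hg', rfl⟩ := mem_mulS.1 hg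
      have e1 : x * (y * g') = y * (x * g') := by ring
      rw [SetLike.mem_coe, e1]
      exact mul_mem_mulS (mul_mem_H hx hg')
  rw [h2, finrank_mulS x0, finrank_mulS y0, finrank_mulS x0, finrank_mulS y0, finrank_H5, finrank_H4] at h1
  omega

/-- the dimensions of `dv x ⊔ span {c}` -/
private theorem d3_dim1 {x c : Pol K} (hx : x ∈ H K 1) (x0 : x ≠ 0) (hc : c ∈ cubics K) (c0 : c ≠ 0)
    (hxc : ¬ x ∣ c) : finrank K ↥(dv x ⊔ span K {c}) = 6 ∧
    finrank K ↥((dv x ⊔ span K {c}) * cubics K) = 25 := by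
  have hpr := prime_lin hx x0
  have hdv : dv x ≤ H K 3 := (BR.dv_le hx).trans cubics_le
  have hc3 : c ∈ H K 3 := cubics_le hc
  have fdv : finrank K ↥(dv x) = 5 := by rw [dv, finrank_mulS x0, finrank_KK hx x0]
  constructor
  · have i1 : Module.Finite K ↥(dv x) := d3_fin 3 hdv
    have h1 := finrank_sup_add_finrank_inf_eq (dv x) (span K {c})
    have h2 : dv x ⊓ span K {c} = ⊥ := by
      rw [eq_bot_iff]
      rintro z ⟨hz1, hz2⟩
      obtain ⟨k, rfl⟩ := mem_span_singleton.1 hz2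
      by_cases hk : k = 0
      · rw [hk, zero_smul]
        exact zero_mem _
      · exfalso
        apply hxc
        have h3 := smul_mem _ k⁻¹ hz1
        rw [smul_smul, inv_mul_cancel₀ hk, one_smul] at h3
        exact ((mem_dv hx x0).1 h3).2
    rw [h2, finrank_bot, fdv, finrank_span_singleton c0] at h1
    omega
  · rw [Submodule.sup_mul, span_mul_eq']
    have e1 : dv x * cubics K = mulS x (H K 5) := by rw [dv, mulS_mul, KK_mul hx x0]
    rw [e1]
    have i1 : Module.Finite K ↥(mulS x (H K 5)) := d3_fin 6 (mulS_H_le (d := 1) (e := 5) hx)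
    have i2 : Module.Finite K ↥(mulS c (cubics K)) :=
      d3_fin 6 ((mulS_mono cubics_le).trans (mulS_H_le (d := 3) (e := 3) hc3))
    have h1 := finrank_sup_add_finrank_inf_eq (mulS x (H K 5)) (mulS c (cubics K))
    have h2 : mulS x (H K 5) ⊓ mulS c (cubics K) = mulS c (dv x) := by
      apply le_antisymm
      · rintro z ⟨hz1, hz2⟩
        obtain ⟨g, hg, e1⟩ := mem_mulS.1 hz1
        obtain ⟨w, hw, rfl⟩ := mem_mulS.1 hz2
        refine mul_mem_mulS ((mem_dv hx x0).2 ⟨hw, ?_⟩)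
        exact (hpr.dvd_or_dvd (⟨g, e1.symm⟩ : x ∣ c * w)).resolve_left hxc
      · intro z hz
        obtain ⟨w, hw, rfl⟩ := mem_mulS.1 hz
        refine ⟨?_, mul_mem_mulS (BR.dv_le hx hw)⟩
        obtain ⟨κ, hκ, rfl⟩ := mem_mulS.1 hw
        have e3 : c * (x * κ) = x * (c * κ) := by ring
        rw [SetLike.mem_coe, e3]
        exact mul_mem_mulS (mul_mem_H hc3 (KK_le _ hκ))
    rw [h2, finrank_mulS c0, fdv, finrank_mulS x0, finrank_H5, finrank_mulS c0, finrank_cubics] at h1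
    omega

theorem CC.la0 (h : CC t p lam lam' mu b m) (hm : eval p mu = 0) : LA t p lam lam' mu (t 3) :=
  ⟨h.h, h.h.fl.mem 3, d3_nd h, d3_ck h, d3_V4 h, fun h0 => absurd hm h0⟩

/-- step (3) -/
private theorem d3_mem (h : CC t p lam lam' mu b m) (hm : eval p mu ≠ 0) : t 3 ∈ dv mu ⊔ V K t 3 := by
  classical
  by_contra hcon
  obtain ⟨hA2, hmt⟩ := d3_A2 h hm
  have fl := h.h.fl
  have hmu := h.h.t2.hm
  have hl := h.h.t2.ha
  have m0 := h.h.t2.m0
  have l0 := h.h.L0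
  have hlm : ¬ lam ∣ mu := by
    intro hd
    obtain ⟨c, hc⟩ := dvd_lin hl hmu l0 hd
    apply hm
    rw [hc, map_mul, h.h.lp, mul_zero]
  set U : Submodule K (Pol K) := dv mu ⊔ V K t 3 with hUdef
  have hU : U ≤ cubics K := sup_le (BR.dv_le hmu) (fl.V_le 3)
  have hL : LL K t U := by
    have := fl.llSupV (fl.A_le 2) (fl.llA 2) 3
    rwa [hA2] at this
  have hV3 : V K t 3 ≤ U := le_sup_right
  have eU : U = dv mu ⊔ span K {t 2} := by
    have h1 : V K t 3 = V K t 2 ⊔ span K {t 2} := V_succ (K := K) (t := t) 2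
    rw [hUdef, h1, ← sup_assoc, sup_eq_left.2 h.h.V2_le_dv_mu]
  obtain ⟨d1, d2⟩ := d3_dim1 hmu m0 (fl.mem 2) (fl.ne 2) hmt
  rw [← eU] at d1 d2
  have c1 := fl.cl1 hU hL
  have c2 := fl.cl2 hU hL
  have t3o : (3 : Fin 9) ∈ out K t U := mem_out_of (j := 3) hV3 hcon
  have LA3 : LL K t (U ⊔ A K t 3) := fl.llSupA hU hL (j := 3) hV3 hcon
  have oA3 : out K t (U ⊔ A K t 3) = nb K t 3 (out K t U) := fl.outSupA hU hL (j := 3) hV3 hcon
  have nb3 : nb K t 3 (out K t U) = out K t U ∩ out K t (A K t 3) := fl.nb_eq (j := 3) hV3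
  have eUA : U ⊔ A K t 3 = dv mu ⊔ dv lam := by
    rw [hUdef, h.A3, sup_assoc, sup_eq_right.2 (d3_VD h)]
  have c3 := fl.cl2 (sup_le hU (fl.A_le 3)) LA3
  rw [oA3, nb3, h.A3, ← h.A3, eUA, h.A3] at c3
  rw [d3_dim2 hmu hl m0 l0 hlm] at c3
  have c4 : cl K t 2 (out K t U ∩ out K t (dv lam)) = 1 := by omega
  have hTS : out K t U ⊆ out K t (V K t 3) := out_mono hV3
  have hmT : nb K t m (out K t U) = ∅ := by
    rw [← Finset.subset_empty, ← h.bm.mi]
    exact nb_mono m hTS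
  have hbD : b ∉ out K t (dv lam) := by
    rw [h.oDv, h.oA1]
    simp
  have hmD : m ∉ out K t (dv lam) := by
    rw [h.oDv]
    simp
  have hDS : ∀ x ∈ out K t (V K t 3), x ≠ b → x ≠ m → x ∈ out K t (dv lam) := by
    intro x hx hxb hxm
    rw [h.oDv, h.oA1, Finset.mem_erase, Finset.mem_erase]
    exact ⟨hxm, hxb, hx⟩
  by_cases hb : b ∈ out K t U
  · have g1 := cl_erase (K := K) (t := t) 1 hb
    rw [cl_one] at g1
    simp only [Nat.reduceAdd] at g1
    have hmT' : nb K t m ((out K t U).erase b) = ∅ := by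
      rw [← Finset.subset_empty, ← hmT]
      exact nb_mono m (Finset.erase_subset _ _)
    have g2 : ((out K t U).erase b).erase m = out K t U ∩ out K t (dv lam) := by
      ext x
      rw [Finset.mem_erase, Finset.mem_erase, Finset.mem_inter]
      constructor
      · rintro ⟨hx1, hx2, hx3⟩
        exact ⟨hx3, hDS x (hTS hx3) hx2 hx1⟩
      · rintro ⟨hx1, hx2⟩
        refine ⟨?_, ?_, hx1⟩
        · rintro rfl
          exact hmD hx2
        · rintro rfl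
          exact hbD hx2
    rw [d3_cl hmT', g2, c4] at g1
    have g3 : (nb K t b (out K t U)).card = 2 := by omega
    have g4 : nb K t b (out K t U) ⊆ (out K t U).erase b := by
      intro x hx
      obtain ⟨hx1, hx2⟩ := mem_nb.1 hx
      rw [Finset.mem_erase]
      refine ⟨?_, hx1⟩
      rintro rfl
      exact h.bm.bb hx2
    have g5 : ((out K t U).erase b).card = 2 := by
      rw [Finset.card_erase_of_mem hb]
      omega
    have g6 : nb K t b (out K t U) = (out K t U).erase b :=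
      Finset.eq_of_subset_of_card_le g4 (by omega)
    have g7 : (3 : Fin 9) ∈ nb K t b (out K t U) := by
      rw [g6, Finset.mem_erase]
      refine ⟨?_, t3o⟩
      intro h3
      exact hbD (h3 ▸ h.three_mem)
    have g8 : b ∈ nb K t 3 (out K t (V K t 3)) := mem_nb.2 ⟨hTS hb, adj_symm (mem_nb.1 g7).2⟩
    have g9 : out K t (A K t 3) = nb K t 3 (out K t (V K t 3)) := fl.outA 3
    rw [← g9, h.A3] at g8
    exact hbD g8
  · have g2 : (out K t U).erase m = out K t U ∩ out K t (dv lam) := by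
      ext x
      rw [Finset.mem_erase, Finset.mem_inter]
      constructor
      · rintro ⟨hx1, hx3⟩
        refine ⟨hx3, hDS x (hTS hx3) ?_ hx1⟩
        rintro rfl
        exact hb hx3
      · rintro ⟨hx1, hx2⟩
        refine ⟨?_, hx1⟩
        rintro rfl
        exact hmD hx2
    have g1 := d3_cl hmT
    rw [g2, c4] at g1
    omega

theorem CC.la1 (h : CC t p lam lam' mu b m) (hm : eval p mu ≠ 0) : ∃ c, LA t p lam lam' mu c := by
  have hmem := d3_mem h hm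
  have hmu := h.h.t2.hm
  have hl := h.h.t2.ha
  obtain ⟨y, hy, z, hz, e1⟩ := mem_sup.1 hmem
  obtain ⟨κ, hκ, rfl⟩ := mem_mulS.1 hy
  have hz' := hz
  rw [h.v3] at hz'
  obtain ⟨φ, hφ, rfl⟩ := mem_mulS.1 hz'
  have hc : mu * κ ∈ cubics K := mul_KK_mem hmu hκ
  have ck : ∀ κ' ∈ KK lam, κ' * (mu * κ) ∈ Ph p * cubics K := by
    intro κ' hκ'
    have e2 : κ' * (mu * κ) = κ' * t 3 - φ * (lam * κ') := by
      rw [← e1]
      ring
    rw [e2]
    exact sub_mem (d3_ck h κ' hκ') (mul_mem_mul hφ (mul_KK_mem hl hκ'))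
  refine ⟨mu * κ, h.h, hc, ?_, ck, ?_, ?_⟩
  · intro hd
    apply d3_nd h
    rw [← e1]
    exact dvd_add hd (dvd_mul_right _ _)
  · rw [d3_V4 h, ← e1]
    exact d3_sup (mul_mem_mulS hφ)
  · intro _
    refine ⟨⟨κ, ⟨hκ, ?_⟩, rfl⟩, ?_⟩
    · obtain ⟨κ', hκ', h0⟩ := exists_N_ne h.h.p0
      have h1 := mul_eval (p := p) (fun u hu => Ph_eval hu) (ck κ' (N_le_KK hl hκ'))
      rw [map_mul, map_mul] at h1
      have h2 := (mul_eq_zero.1 h1).resolve_left h0
      exact mem_IP.2 ⟨KK_le _ hκ, (mul_eq_zero.1 h2).resolve_left hm⟩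
    · have := h.h.fl.llSupV (h.h.fl.A_le 2) (h.h.fl.llA 2) 4
      rwa [(d3_A2 h hm).1] at this

end Pool.Agent.BR
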