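import Pool.Agent.Work.MP_be705b_al.V2
import Pool.Agent.Work.MP_be705b_al.Cube
import Pool.Agent.Work.MP_be705b_al.Graph

set_option autoImplicit false
set_option linter.unusedSectionVars false
set_option linter.unusedVariables false

/-!
# MP_be705b_al, type II: definitions (everything in this file is proved)

* `Fp p = N + span {cr p}`: the quadrics `κ` with `l * κ ∈ cubics K` for all linear forms `l` with `l (p) = 0`.
* `Ph p`: the elements of `Fp p` which vanish at `p` (`Φ` on paper); `Ps p mu = KK mu ⊓ IP p 2` (`Ψ` on paper).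
* `dv f = mulS f (KK f)`: the multiples of the linear form `f` in `cubics K`.
* `rs P v f = f (P + X v)`, a polynomial in one variable `X`: the restriction of `f` to the line through `P` and `v`.
* `IsC t p c`: `c` is the first index with `t c (p) ≠ 0`; `c` is a loop and outside of `inn U` for all `U` vanishing at `p`.
* `TII t p lam lam' mu`: type II with base point `p` of `span {lam, lam'}`, together with those properties of `Ph p` which
  are used in the abstract part of the argument.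
-/

namespace Pool.Agent.BR

open Submodule Module MvPolynomial

variable {K : Type*} [Field K]

/-- the quadrics `κ` with `l * κ ∈ cubics K` for all linear forms `l` with `l (p) = 0` -/
noncomputable def Fp (p : Fin 3 → K) : Submodule K (Pol K) := N K ⊔ span K {cr p}

/-- the elements of `Fp p` which vanish at `p` -/
noncomputable def Ph (p : Fin 3 → K) : Submodule K (Pol K) := Fp p ⊓ IP p 2

/-- the elements of `KK mu` which vanish at `p` -/
noncomputable def Ps (p : Fin 3 → K) (mu : Pol K) : Submodule K (Pol K) := KK mu ⊓ IP p 2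

/-- the multiples of `f` in `cubics K` -/
noncomputable def dv (f : Pol K) : Submodule K (Pol K) := mulS f (KK f)

/-- restriction to the line through `P` and `v`, `f ↦ f (P + X v)` -/
noncomputable def rs (P v : Fin 3 → K) : Pol K →ₐ[K] Polynomial K :=
  aeval (fun i => Polynomial.C (P i) + Polynomial.C (v i) * Polynomial.X)

/-- derivative at `P` in the direction `v` -/
noncomputable def dr (P v : Fin 3 → K) : Pol K →ₗ[K] K := (Polynomial.lcoeff K 1).comp (rs P v).toLinearMap

/-- the point `(0, 0, 1)` -/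
def pa : Fin 3 → K := ![0, 0, 1]
/-- the direction `(1, 0, 0)` -/
def ea : Fin 3 → K := ![1, 0, 0]
/-- the direction `(0, 1, 0)` -/
def eb : Fin 3 → K := ![0, 1, 0]
/-- the point `(1, 1, 0)` -/
def pb : Fin 3 → K := ![1, 1, 0]
/-- the point `(1, -1, 0)` -/
def pz : Fin 3 → K := ![1, -1, 0]

variable (K) in
/-- forms of degree `n` of order at least two at `pa` -/
noncomputable def Ja (n : ℕ) : Submodule K (Pol K) :=
  IP pa n ⊓ (LinearMap.ker (dr (K := K) pa ea) ⊓ LinearMap.ker (dr (K := K) pa eb))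

variable (K) in
/-- forms of degree `n` which vanish at `pb` and of order at least two at `pz` along the line `x + y = 0` -/
noncomputable def Jb (n : ℕ) : Submodule K (Pol K) :=
  IP pb n ⊓ (IP pz n ⊓ LinearMap.ker (dr (K := K) pz pa))

/-- `c` is the first index with `t c (p) ≠ 0` -/
def IsC (t : Fin 9 → Pol K) (p : Fin 3 → K) (c : Fin 9) : Prop :=
  eval p (t c) ≠ 0 ∧ ∀ i < c, eval p (t i) = 0

/-- type II with base point, and the facts on `Ph p` which are used -/
structure TII (t : Fin 9 → Pol K) (p : Fin 3 → K) (lam lam' mu : Pol K) : Prop where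
  t2 : T2 t lam lam' mu
  p0 : p ≠ 0
  lp : eval p lam = 0
  lp' : eval p lam' = 0
  sat : ∀ e ∈ H K 2, (∀ w ∈ cubics K, e * w ∈ Ph p * cubics K) → e ∈ Ph p
  f1 : finrank K ↥(Ph p * cubics K) = 18
  f2 : finrank K ↥(Ph p * H K 6) = 42
  f3 : finrank K ↥(Ph p * H K 9) = 75
  phib : ∀ κ ∈ Fp p, eval p κ ≠ 0 → lam * (κ * κ) ∉ Ph p * cubics K

theorem TII.fl {t : Fin 9 → Pol K} {p : Fin 3 → K} {lam lam' mu : Pol K} (h : TII t p lam lam' mu) :
    Fl t := h.t2.fl

variable {t : Fin 9 → Pol K}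

/-! ### restriction to lines -/

theorem rs_X (P v : Fin 3 → K) (i : Fin 3) :
    rs P v (X i : Pol K) = Polynomial.C (P i) + Polynomial.C (v i) * Polynomial.X := by
  simp [rs]

theorem rs_C (P v : Fin 3 → K) (c : K) : rs P v (C c : Pol K) = Polynomial.C c := by
  simp [rs]

theorem rs_coeff_zero (P v : Fin 3 → K) (f : Pol K) : (rs P v f).coeff 0 = eval P f := by
  rw [Polynomial.coeff_zero_eq_eval_zero]
  have h : (Polynomial.evalRingHom (0 : K)).comp (rs P v : Pol K →ₐ[K] Polynomial K).toRingHom =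
      (eval P : Pol K →+* K) := by
    apply MvPolynomial.ringHom_ext
    · intro c
      simp [rs]
    · intro i
      simp [rs]
  exact RingHom.congr_fun h f

theorem dr_apply (P v : Fin 3 → K) (f : Pol K) : dr P v f = (rs P v f).coeff 1 := rfl

theorem dr_mul (P v : Fin 3 → K) (f g : Pol K) :
    dr P v (f * g) = eval P f * dr P v g + dr P v f * eval P g := by
  rw [dr_apply, map_mul, Polynomial.coeff_mul, Finset.Nat.antidiagonal_succ]
  simp [rs_coeff_zero, dr_apply]

theorem dr_C (P v : Fin 3 → K) (c : K) : dr P v (C c : Pol K) = 0 := by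
  rw [dr_apply, rs_C, Polynomial.coeff_C]
  simp

theorem dr_X (P v : Fin 3 → K) (i : Fin 3) : dr P v (X i : Pol K) = v i := by
  rw [dr_apply, rs_X]
  simp [Polynomial.coeff_C]

theorem rs_linform (P v : Fin 3 → K) {l : Pol K} (hl : l ∈ H K 1) :
    rs P v l = Polynomial.C (eval P l) + Polynomial.C (eval v l) * Polynomial.X := by
  rw [← lin_lc hl]
  simp only [lin, map_add, map_mul, rs_C, rs_X, eval_C, eval_X]
  ring

theorem dr_linform (P v : Fin 3 → K) {l : Pol K} (hl : l ∈ H K 1) : dr P v l = eval v l := by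
  rw [dr_apply, rs_linform P v hl]
  simp [Polynomial.coeff_C]

theorem mem_Ja {n : ℕ} {f : Pol K} :
    f ∈ Ja K n ↔ f ∈ H K n ∧ eval pa f = 0 ∧ dr pa ea f = 0 ∧ dr pa eb f = 0 := by
  simp only [Ja, mem_inf, mem_IP, LinearMap.mem_ker]
  tauto

theorem mem_Jb {n : ℕ} {f : Pol K} :
    f ∈ Jb K n ↔ f ∈ H K n ∧ eval pb f = 0 ∧ eval pz f = 0 ∧ dr pz pa f = 0 := by
  simp only [Jb, mem_inf, mem_IP, LinearMap.mem_ker]
  tauto

/-! ### `IP`, vanishing -/

/-- `f` vanishes at `p` on a submodule -/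
theorem V_eval {p : Fin 3 → K} {j : ℕ} (h : ∀ i : Fin 9, (i : ℕ) < j → eval p (t i) = 0) {v : Pol K}
    (hv : v ∈ V K t j) : eval p v = 0 := by
  have h2 : V K t j ≤ LinearMap.ker (aeval p : Pol K →ₐ[K] K).toLinearMap := by
    rw [V, span_le]
    rintro _ ⟨i, hi, rfl⟩
    rw [SetLike.mem_coe, LinearMap.mem_ker, AlgHom.toLinearMap_apply, aeval_eq_eval]
    exact h i hi
  have h3 := h2 hv
  rw [LinearMap.mem_ker, AlgHom.toLinearMap_apply, aeval_eq_eval] at h3
  exact h3

theorem mul_eval {p : Fin 3 → K} {U X : Submodule K (Pol K)} (h : ∀ u ∈ U, eval p u = 0) {f : Pol K}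
    (hf : f ∈ U * X) : eval p f = 0 := by
  refine Submodule.mul_induction_on hf ?_ ?_
  · intro m hm n _
    rw [map_mul, h m hm, zero_mul]
  · intro x y hx hy
    rw [map_add, hx, hy, add_zero]

theorem sup_eval {p : Fin 3 → K} {U U' : Submodule K (Pol K)} (h : ∀ u ∈ U, eval p u = 0)
    (h' : ∀ u ∈ U', eval p u = 0) : ∀ u ∈ U ⊔ U', eval p u = 0 := by
  intro u hu
  obtain ⟨x, hx, y, hy, rfl⟩ := mem_sup.1 hu
  rw [map_add, h x hx, h' y hy, add_zero]

theorem Ph_eval {p : Fin 3 → K} {f : Pol K} (h : f ∈ Ph p) : eval p f = 0 := (mem_IP.1 h.2).2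

theorem Ps_eval {p : Fin 3 → K} {mu f : Pol K} (h : f ∈ Ps p mu) : eval p f = 0 := (mem_IP.1 h.2).2

theorem mem_dv {f w : Pol K} (hf : f ∈ H K 1) (hf0 : f ≠ 0) : w ∈ dv f ↔ w ∈ cubics K ∧ f ∣ w := by
  rw [dv, mem_mulS]
  constructor
  · rintro ⟨κ, hκ, rfl⟩
    exact ⟨mul_KK_mem hf hκ, dvd_mul_right _ _⟩
  · rintro ⟨hw, hd⟩
    obtain ⟨κ, hκ, rfl⟩ := exists_quot (a := 1) (b := 2) hf hf0 (cubics_le hw) hd
    exact ⟨κ, (mem_KK' hf).2 ⟨hκ, hw⟩, rfl⟩

theorem dv_le {f : Pol K} (hf : f ∈ H K 1) : dv f ≤ cubics K := by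
  intro w hw
  obtain ⟨κ, hκ, rfl⟩ := mem_mulS.1 hw
  exact mul_KK_mem hf hκ

/-- a cubic form which does not vanish at `p` -/
theorem exists_cubic_ne {p : Fin 3 → K} (hp : p ≠ 0) : ∃ w ∈ cubics K, eval p w ≠ 0 := by
  obtain ⟨i, hi⟩ : ∃ i, p i ≠ 0 := by
    by_contra hcon
    push Not at hcon
    exact hp (funext hcon)
  refine ⟨X i ^ 3, ?_, by rw [map_pow, eval_X]; exact pow_ne_zero _ hi⟩
  fin_cases i
  · have := mono_mem_cubics (K := K) (a := 3) (b := 0) (c := 0) (by norm_num) (by norm_num)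
    simpa using this
  · have := mono_mem_cubics (K := K) (a := 0) (b := 3) (c := 0) (by norm_num) (by norm_num)
    simpa using this
  · have := mono_mem_cubics (K := K) (a := 0) (b := 0) (c := 3) (by norm_num) (by norm_num)
    simpa using this

/-- a quadric in `N` which does not vanish at `p` -/
theorem exists_N_ne {p : Fin 3 → K} (hp : p ≠ 0) : ∃ κ ∈ N K, eval p κ ≠ 0 := by
  obtain ⟨i, hi⟩ : ∃ i, p i ≠ 0 := by
    by_contra hcon
    push Not at hcon
    exact hp (funext hcon)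
  refine ⟨X i ^ 2, ?_, by rw [map_pow, eval_X]; exact pow_ne_zero _ hi⟩
  rw [N]
  apply subset_span
  fin_cases i <;> simp

/-! ### more on flags -/

namespace Fl

/-- a vertex is no loop iff its square is in `V j * cubics K` -/
theorem not_loop_iff (fl : Fl t) (j : Fin 9) : ¬ Adj K t j j ↔ t j * t j ∈ V K t j * cubics K := by
  rw [fl.loop_iff, not_not, fl.mem_A]
  exact ⟨fun h => h.2, fun h => ⟨fl.mem j, h⟩⟩

theorem exists_isIn {U : Submodule K (Pol K)} (fl : Fl t) {i : Fin 9} (hi : i ∈ inn K t U) :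
    ∃ u ∈ U, IsIn K t u i := by
  obtain ⟨v, hv, hu⟩ := mem_inn.1 hi
  refine ⟨_, hu, ?_, ?_⟩
  · exact add_mem (BR.t_mem (Nat.lt_succ_self _)) (V_mono (Nat.le_succ _) hv)
  · intro h
    have h1 := sub_mem h hv
    rw [add_sub_cancel_right] at h1
    exact t_notMem fl.li i h1

/-- (G2) for submodules: `X * Y ≤ U * cubics K` implies that `inn X` and `inn Y` are not adjacent outside of `inn U` -/
theorem g2s (fl : Fl t) {U X Y : Submodule K (Pol K)} (hU : U ≤ cubics K) (hL : LL K t U)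
    (hXY : ∀ x ∈ X, ∀ y ∈ Y, x * y ∈ U * cubics K) {i i' : Fin 9} (hi : i ∈ inn K t X)
    (hi' : i' ∈ inn K t Y) (h1 : i ∈ out K t U) (h2 : i' ∈ out K t U) : ¬ Adj K t i i' := by
  obtain ⟨u, hu, hui⟩ := fl.exists_isIn hi
  obtain ⟨u', hu', hui'⟩ := fl.exists_isIn hi'
  exact fl.g2 hU hL hui hui' h1 h2 (hXY u hu u' hu')

theorem mem_out_V (fl : Fl t) (k : ℕ) (i : Fin 9) : i ∈ out K t (V K t k) ↔ k ≤ (i : ℕ) := by
  rw [← notMem_inn, inn_V fl.li, not_lt]

theorem out_sup_V (fl : Fl t) (U : Submodule K (Pol K)) (k : ℕ) (i : Fin 9) :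
    i ∈ out K t (U ⊔ V K t k) ↔ i ∈ out K t U ∧ k ≤ (i : ℕ) := by
  rw [← notMem_inn, inn_sup_V fl.li, not_or, notMem_inn, not_lt]

/-- the neighbours of `j` outside of `inn U` -/
theorem nb_eq (fl : Fl t) {U : Submodule K (Pol K)} {j : Fin 9} (hV : V K t j ≤ U) :
    nb K t j (out K t U) = out K t U ∩ out K t (A K t j) := by
  ext i
  rw [nb_out hV, Finset.mem_inter]

theorem loop_of_eval (fl : Fl t) {r : Fin 3 → K} {j : Fin 9} (h : ∀ i < j, eval r (t i) = 0)
    (h' : eval r (t j) ≠ 0) : Adj K t j j := by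
  by_contra hcon
  rw [fl.not_loop_iff] at hcon
  have h2 := mul_eval (p := r) (fun u hu => V_eval (fun i hi => h i hi) hu) hcon
  rw [map_mul] at h2
  exact h' (mul_self_eq_zero.1 h2)

theorem isC_loop (fl : Fl t) {p : Fin 3 → K} {c : Fin 9} (hc : IsC t p c) : Adj K t c c :=
  fl.loop_of_eval hc.2 hc.1

theorem isC_out (fl : Fl t) {p : Fin 3 → K} {c : Fin 9} (hc : IsC t p c) {U : Submodule K (Pol K)}
    (hU : ∀ u ∈ U, eval p u = 0) : c ∈ out K t U := by
  rw [mem_out]
  intro v hv hcon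
  have h3 := V_eval (p := p) (fun i hi => hc.2 i hi) hv
  have h4 := hU _ hcon
  rw [map_add, h3, add_zero] at h4
  exact hc.1 h4

theorem exists_isC (fl : Fl t) {p : Fin 3 → K} (hp : p ≠ 0) : ∃ c, IsC t p c := by
  classical
  have h1 : ∃ i, eval p (t i) ≠ 0 := by
    by_contra hcon
    push Not at hcon
    obtain ⟨w, hw, hw0⟩ := exists_cubic_ne hp
    have h2 : w ∈ V K t 9 := by
      have h3 := fl.sp
      change V K t 9 = _ at h3
      rwa [h3]
    exact hw0 (V_eval (fun i _ => hcon i) h2)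
  obtain ⟨c, hc, hmin⟩ := Finset.exists_min_image (Finset.univ.filter fun i => eval p (t i) ≠ 0) id
    (by
      obtain ⟨i, hi⟩ := h1
      exact ⟨i, by simpa using hi⟩)
  refine ⟨c, by simpa using hc, ?_⟩
  intro i hi
  by_contra hcon
  have := hmin i (by simpa using hcon)
  simp only [id] at this
  exact absurd hi (not_lt.2 this)

/-- the smallest vertex outside of `inn U` -/
theorem min_mem_out (fl : Fl t) {U : Submodule K (Pol K)} {j : Fin 9} (hV : V K t j ≤ U) :
    j ∈ out K t U ↔ t j ∉ U :=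
  ⟨t_notMem_of_out, mem_out_of hV⟩

/-- `(U : t j) = U + A j` in degree one -/
theorem mem_sup_A (fl : Fl t) {U : Submodule K (Pol K)} (hU : U ≤ cubics K) (hL : LL K t U) {j : Fin 9}
    (hV : V K t j ≤ U) (hj : t j ∉ U) {a : Pol K} :
    a ∈ U ⊔ A K t j ↔ a ∈ cubics K ∧ a * t j ∈ U * cubics K :=
  ⟨fun h => ⟨sup_le hU (fl.A_le j) h, fl.mul1 hU hV h⟩, fun h => fl.col1 hU hL hV hj h.1 h.2⟩

/-- the number of neighbours of `j` outside of `inn U` -/
theorem rank (fl : Fl t) {U : Submodule K (Pol K)} (hU : U ≤ cubics K) (hL : LL K t U) {j : Fin 9}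
    (hV : V K t j ≤ U) (hj : t j ∉ U) :
    finrank K ↥(U ⊔ A K t j) + (nb K t j (out K t U)).card = 9 := by
  rw [← fl.outSupA hU hL hV hj]
  exact fl.cl1 (sup_le hU (fl.A_le j)) (fl.llSupA hU hL hV hj)

end Fl

end Pool.Agent.BR
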