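import Pool.Agent.Work.MP_be705b_al.II.L7

set_option autoImplicit false
set_option linter.unusedSectionVars false
set_option linter.unusedVariables false

/-!
# MP_be705b_al, type II, Lemma A at `pb`, module L10 (M-L): the vertex `5`, the end

`PC`: `lam = x - y + α z`, `q = (-α, α, 2)`, `d = t 4` vanishes at `pb, pz, q`, `k1 : card (nb 4 S2) = 1`, `4` is no loop.  `Ph pb * cubics = Jb 5`.
Values: `lam (pz) = 2`, `Fp_pb`: `κ1 (pz) = κ1 (pb)` for `κ1 ∈ Fp pb`.  `κm := x y + (α / 2) z (x - y) ∈ KK lam`, `κm (pb) = 1`, `κm (pz) = -1`.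
`LB.six`:
* `Six1`: `lam κ κ - κ1 d ∈ Jb 5`, at `pz`: `2 κ (pz)^2 = 0`, `κ (pz) = κ (pb) ≠ 0`: contradiction.
* `Six2`: `κ ∈ KK lam`, `κ ∉ Fp pb`, with `w = x^3`: `κ (pb) = 0`, `κ (pz) = 0`.  `κ = e κm + f`, `f ∈ Fp pb`, `e ≠ 0` (`finrank (KK lam) = 5`, `Fp_le_KK`,
  `κm ∉ Fp pb` since `κm (pz) ≠ κm (pb)`), so `e + f (pb) = 0`, `-e + f (pb) = 0`, `2 e = 0`: contradiction.
* `Six3`: for `κm`: `t5 (κm - κ1) - κ2 d ∈ Jb 5`, so with `s = κ1 (pb) = κ1 (pz)`: `t5 (pb) (1 - s) = 0`, `t5 (pz) (-1 - s) = 0`, so `t5 (pb) * t5 (pz) = 0` (*).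
  Let `S3 := S2.erase 4` (2 vertices), `cl 2 S3 = cl 2 S2 - card (nb 4 S2) = 3 - 1 = 2` (`cl_erase`), `5 ∈ S3`, `k' := card (nb 5 S3)`.
  For each pair `(x, y)` and `U` of the list
    `(pb, pz)`, `U = Cb ⊔ V 5`;  `(q, pz)`, `U = dv mu ⊔ V 4 ⊔ V 5`;  `(pb, q)`, `U = V 5 ⊔ A 1`
  we have: `U ∈ LL` (`Fl.llSupV`), all elements of `U` vanish at `x` and `y` (`lam (pb) = lam (q) = 0`, `mu (q) = mu (pz) = 0`, `c = mu del`, `Ph` vanishes at `pb, pz`
  (`Ph_pb`), `d` vanishes at all three), `out U = S3` resp. (third) `insert m S3` with `m` not adjacent to anything (`Fl.out_sup_V`, `LB.bm`), so `cl 2 (out U) = 2`,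
  `finrank (U * cubics) = 26` (`Fl.cl2`), so `U * cubics = IP x 6 ⊓ IP y 6` (`finrank_pts6`), and `t 5 ∉ U`.  By `Fl.mem_sup_A`, `Fl.rank`: `finrank (U ⊔ A 5) + k' = 9`
  and `a ∈ U ⊔ A 5` iff `a ∈ cubics`, `a (x) t5 (x) = 0`, `a (y) t5 (y) = 0`; so `k' = e_x + e_y`, `e_x = 1` if `t5 (x) ≠ 0` and `0` otherwise
  (`finrank_pt`, `finrank_pts`, `finrank_cubics`).
  So `e_pb + e_pz = e_q + e_pz = e_pb + e_q`, all three are equal, with (*) all are `0` and `k' = 0`.  Then `cl 2 S3 = cl 2 (S3.erase 5) ≤ 1` (one vertex),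
  contradiction to `cl 2 S3 = 2`.
-/

namespace Pool.Agent.BR

open Submodule Module MvPolynomial

variable {K : Type*} [Field K] {t : Fin 9 → Pol K} {lam lam' mu c : Pol K} {b m : Fin 9}

/-! ### two points -/

private theorem l10_fin : Module.Finite K ↥(cubics K) := Submodule.finiteDimensional_of_le cubics_le

open Classical in
/-- `1` if `f` does not vanish at `x`, otherwise `0` -/
private noncomputable def e1 (x : Fin 3 → K) (f : Pol K) : ℕ := if eval x f = 0 then 0 else 1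

private theorem e1_zero {x : Fin 3 → K} {f : Pol K} (h : eval x f = 0) : e1 x f = 0 := by
  rw [e1, if_pos h]

private theorem e1_one {x : Fin 3 → K} {f : Pol K} (h : ¬ eval x f = 0) : e1 x f = 1 := by
  rw [e1, if_neg h]

private theorem l10_pts (fl : Fl t) {U : Submodule K (Pol K)} (hU : U ≤ cubics K) (hL : LL K t U)
    (hV : V K t 5 ≤ U) (h5 : (5 : Fin 9) ∈ out K t U) {x y : Fin 3 → K}
    (hxy : LinearIndependent K ![x, y]) (hx : ∀ u ∈ U, eval x u = 0) (hy : ∀ u ∈ U, eval y u = 0)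
    (h2 : cl K t 2 (out K t U) = 2) : (nb K t 5 (out K t U)).card =
      e1 x (t 5) + e1 y (t 5) := by
  have x0 : x ≠ 0 := by
    have := hxy.ne_zero 0
    simpa using this
  have y0 : y ≠ 0 := by
    have := hxy.ne_zero 1
    simpa using this
  have ht := t_notMem_of_out h5
  have hUW : U * cubics K = IP x 6 ⊓ IP y 6 := by
    have i1 : Module.Finite K ↥(IP x 6 ⊓ IP y 6) :=
      Submodule.finiteDimensional_of_le (inf_le_left.trans (IP_le x 6))
    apply Submodule.eq_of_le_of_finrank_eq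
    · intro f hf
      have h3 : f ∈ H K 6 := by
        rw [← cubics_mul_cubics]
        exact mul_le_mul' hU le_rfl hf
      exact mem_inf.2 ⟨mem_IP.2 ⟨h3, mul_eval hx hf⟩, mem_IP.2 ⟨h3, mul_eval hy hf⟩⟩
    · have h3 := fl.cl2 hU hL
      rw [finrank_pts6 hxy]
      omega
  have hm : ∀ a : Pol K, a ∈ U ⊔ A K t 5 ↔
      a ∈ cubics K ∧ eval x a * eval x (t 5) = 0 ∧ eval y a * eval y (t 5) = 0 := by
    intro a
    rw [fl.mem_sup_A (j := 5) hU hL hV ht, hUW, mem_inf, mem_IP, mem_IP, map_mul, map_mul]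
    constructor
    · rintro ⟨h3, ⟨_, h4⟩, _, h5⟩
      exact ⟨h3, h4, h5⟩
    · rintro ⟨h3, h4, h5⟩
      have h6 : a * t 5 ∈ H K 6 := by
        rw [← cubics_mul_cubics]
        exact mul_mem_mul h3 (fl.mem 5)
      exact ⟨h3, ⟨h6, h4⟩, h6, h5⟩
  have hr := fl.rank (j := 5) hU hL hV ht
  by_cases ex : eval x (t 5) = 0 <;> by_cases ey : eval y (t 5) = 0
  · have h3 : U ⊔ A K t 5 = cubics K := by
      ext a
      rw [hm, ex, ey]
      simp
    rw [h3, finrank_cubics] at hr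
    rw [e1_zero ex, e1_zero ey]
    omega
  · have h3 : U ⊔ A K t 5 = cubics K ⊓ IP y 3 := by
      ext a
      rw [hm, ex, mem_inf, mem_IP]
      constructor
      · rintro ⟨h3, -, h4⟩
        exact ⟨h3, cubics_le h3, (mul_eq_zero.1 h4).resolve_right ey⟩
      · rintro ⟨h3, -, h4⟩
        exact ⟨h3, by simp, by rw [h4, zero_mul]⟩
    rw [h3, finrank_pt y0] at hr
    rw [e1_zero ex, e1_one ey]
    omega
  · have h3 : U ⊔ A K t 5 = cubics K ⊓ IP x 3 := by
      ext a
      rw [hm, ey, mem_inf, mem_IP]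
      constructor
      · rintro ⟨h3, h4, -⟩
        exact ⟨h3, cubics_le h3, (mul_eq_zero.1 h4).resolve_right ex⟩
      · rintro ⟨h3, -, h4⟩
        exact ⟨h3, by rw [h4, zero_mul], by simp⟩
    rw [h3, finrank_pt x0] at hr
    rw [e1_one ex, e1_zero ey]
    omega
  · have h3 : U ⊔ A K t 5 = cubics K ⊓ (IP x 3 ⊓ IP y 3) := by
      ext a
      rw [hm, mem_inf, mem_inf, mem_IP, mem_IP]
      constructor
      · rintro ⟨h3, h4, h5⟩
        exact ⟨h3, ⟨cubics_le h3, (mul_eq_zero.1 h4).resolve_right ex⟩,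
          cubics_le h3, (mul_eq_zero.1 h5).resolve_right ey⟩
      · rintro ⟨h3, ⟨-, h4⟩, -, h5⟩
        exact ⟨h3, by rw [h4, zero_mul], by rw [h5, zero_mul]⟩
    rw [h3, finrank_pts hxy] at hr
    rw [e1_one ex, e1_one ey]
    omega

private theorem l10_one {v : Fin 9} : cl K t 2 {v} ≤ 1 := by
  have h1 : cl K t 2 {v} = cl K t 1 (nb K t v {v}) + cl K t 2 (({v} : Finset (Fin 9)).erase v) :=
    cl_erase (K := K) (t := t) 1 (Finset.mem_singleton_self v)
  have h2 : (({v} : Finset (Fin 9)).erase v) = ∅ := by simp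
  have h3 : (nb K t v {v}).card ≤ ({v} : Finset (Fin 9)).card :=
    Finset.card_le_card fun i hi => (mem_nb.1 hi).1
  have h4 : cl K t 2 (∅ : Finset (Fin 9)) = 0 := cl_empty (K := K) (t := t) 1
  rw [h1, h2, h4, cl_one]
  simpa using h3

/-! ### values -/

private theorem l10_zb (h2 : (2 : K) ≠ 0) : LinearIndependent K ![(pb : Fin 3 → K), pz] := by
  rw [LinearIndependent.pair_iff]
  intro a b hab
  have h0 := congrFun hab 0
  have h1 := congrFun hab 1
  simp only [pz, pb, Pi.add_apply, Pi.smul_apply, smul_eq_mul, Matrix.cons_val_zero, Matrix.cons_val,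
    Matrix.cons_val_one, Pi.zero_apply, mul_one, mul_zero, add_zero, zero_add, mul_neg] at h0 h1
  have ha : a = 0 := by
    have : 2 * a = 0 := by linear_combination h0 + h1
    exact (mul_eq_zero.1 this).resolve_left h2
  refine ⟨ha, ?_⟩
  rw [ha, zero_add] at h0
  exact h0

private theorem l10_qz (h2 : (2 : K) ≠ 0) (al : K) :
    LinearIndependent K ![(![-al, al, 2] : Fin 3 → K), pz] := by
  rw [LinearIndependent.pair_iff]
  intro a b hab
  have h0 := congrFun hab 0
  have h2' := congrFun hab 2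
  simp only [pz, Pi.add_apply, Pi.smul_apply, smul_eq_mul, Matrix.cons_val_zero, Matrix.cons_val,
    Matrix.cons_val_one, Pi.zero_apply, mul_one, mul_zero, add_zero, zero_add, mul_neg] at h0 h2'
  have ha : a = 0 := (mul_eq_zero.1 h2').resolve_right h2
  refine ⟨ha, ?_⟩
  rw [ha] at h0
  simpa using h0

private theorem l10_bq (h2 : (2 : K) ≠ 0) (al : K) :
    LinearIndependent K ![(pb : Fin 3 → K), ![-al, al, 2]] := by
  rw [LinearIndependent.pair_iff]
  intro a b hab
  have h0 := congrFun hab 0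
  have h2' := congrFun hab 2
  simp only [pb, Pi.add_apply, Pi.smul_apply, smul_eq_mul, Matrix.cons_val_zero, Matrix.cons_val,
    Matrix.cons_val_one, Pi.zero_apply, mul_one, mul_zero, add_zero, zero_add, mul_neg] at h0 h2'
  have hb : b = 0 := (mul_eq_zero.1 h2').resolve_right h2
  refine ⟨?_, hb⟩
  rw [hb] at h0
  simpa using h0

/-- the quadric `κm` -/
private noncomputable def km (al : K) : Pol K := cr ![-(al / 2), al / 2, 1]

private theorem km_pb (al : K) : eval pb (km al) = 1 := by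
  simp [km, cr, pb]

private theorem km_pz (al : K) : eval pz (km al) = -1 := by
  simp [km, cr, pz]

namespace PC

variable {al : K}

private theorem hlin (h : PC t lam lam' mu c b m al) : lam = lin ![1, -1, al] := by
  rw [h.hl]
  simp [lin]
  ring

private theorem km_mem (h : PC t lam lam' mu c b m al) : km al ∈ KK lam := by
  have h2 := h.h.two
  rw [mem_KK h.h.lb.la.h.t2.ha, h.hlin, lc_lin, km, (cf_cr _).2]
  refine ⟨cr_mem _, ?_⟩
  simp only [dot, Matrix.cons_val_zero, Matrix.cons_val, Matrix.cons_val_one]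
  field_simp
  ring

private theorem km_dec (h : PC t lam lam' mu c b m al) {κ : Pol K} (hκ : κ ∈ KK lam) :
    ∃ e : K, κ - e • km al ∈ Fp (pb : Fin 3 → K) := by
  have h2 := h.h.two
  obtain ⟨hκ2, hd⟩ := (mem_KK h.h.lb.la.h.t2.ha).1 hκ
  rw [h.hlin, lc_lin] at hd
  simp only [dot, Matrix.cons_val_zero, Matrix.cons_val, Matrix.cons_val_one] at hd
  refine ⟨hat κ 2, ?_⟩
  have h3 : κ - hat κ 2 • km al - (hat κ 0 + hat κ 2 * (al / 2)) • cr pb ∈ N K := by
    rw [mem_N]
    refine ⟨sub_mem (sub_mem hκ2 (smul_mem _ _ (cr_mem _))) (smul_mem _ _ (cr_mem _)), ?_⟩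
    rw [hat_sub, hat_sub, hat_smul, hat_smul, km, (cf_cr _).2, (cf_cr _).2]
    funext i
    simp only [Pi.sub_apply, Pi.smul_apply, smul_eq_mul, Pi.zero_apply]
    fin_cases i
    · change hat κ 0 - hat κ 2 * (-(al / 2)) - (hat κ 0 + hat κ 2 * (al / 2)) * 1 = 0
      ring
    · change hat κ 1 - hat κ 2 * (al / 2) - (hat κ 0 + hat κ 2 * (al / 2)) * 1 = 0
      have h4 : al / 2 + al / 2 = al := by
        field_simp
        ring
      linear_combination -hd - hat κ 2 * h4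
    · change hat κ 2 - hat κ 2 * 1 - (hat κ 0 + hat κ 2 * (al / 2)) * 0 = 0
      ring
  have h4 := add_mem (show _ ∈ Fp (pb : Fin 3 → K) from mem_sup_left h3)
    (show (hat κ 0 + hat κ 2 * (al / 2)) • cr pb ∈ Fp (pb : Fin 3 → K) from
      mem_sup_right (smul_mem _ _ (mem_span_singleton_self _)))
  rwa [sub_add_cancel] at h4

private theorem lz (h : PC t lam lam' mu c b m al) : eval pz lam = 2 := by
  rw [h.hl]
  simp [pz]
  norm_num

private theorem lq (h : PC t lam lam' mu c b m al) : eval ![-al, al, 2] lam = 0 := by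
  rw [h.hl]
  simp
  ring

private theorem mz (h : PC t lam lam' mu c b m al) : eval pz mu = 0 := by
  rw [h.h.hm]
  simp [pz]

private theorem mq (h : PC t lam lam' mu c b m al) : eval ![-al, al, 2] mu = 0 := by
  rw [h.h.hm]
  simp

private theorem ev (h : PC t lam lam' mu c b m al) {f : Pol K}
    (hf : f ∈ Ph (pb : Fin 3 → K) * cubics K) : eval pb f = 0 ∧ eval pz f = 0 := by
  rw [Ph_pb_mul5 h.h.two] at hf
  exact ⟨(mem_Jb.1 hf).2.1, (mem_Jb.1 hf).2.2.1⟩

private theorem no1 (h : PC t lam lam' mu c b m al) (h6 : LB.Six1 t pb lam) : False := by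
  obtain ⟨κ, hκ, h0, κ1, hκ1, h1⟩ := h6
  have h2 := (h.ev h1).2
  rw [map_sub, map_mul, map_mul, map_mul, h.tz, mul_zero, sub_zero, h.lz, (Fp_pb hκ).1] at h2
  exact h0 (mul_self_eq_zero.1 ((mul_eq_zero.1 h2).resolve_left h.h.two))

private theorem no2 (h : PC t lam lam' mu c b m al) (h6 : LB.Six2 t pb lam) : False := by
  obtain ⟨κ, hκ, h0, h1⟩ := h6
  obtain ⟨κ1, hκ1, h2⟩ := h1 (X 0 ^ 3) (by
    have := mono_mem_cubics (K := K) (a := 3) (b := 0) (c := 0) (by norm_num) (by norm_num)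
    simpa using this)
  have h3 := h.ev h2
  rw [map_sub, map_mul, map_mul, h.tb, map_sub, map_mul, map_mul, h.tz] at h3
  have h4 : eval pb κ = 0 := by simpa [pb] using h3.1
  have h5 : eval pz κ = 0 := by simpa [pz] using h3.2
  obtain ⟨e, he⟩ := h.km_dec hκ
  have h6 := (Fp_pb he).1
  rw [smul_eq_C_mul, map_sub, map_sub, map_mul, map_mul, h4, h5, km_pb, km_pz, eval_C, eval_C] at h6
  have h7 : (2 : K) * e = 0 := by linear_combination h6
  have h8 : e = 0 := (mul_eq_zero.1 h7).resolve_left h.h.two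
  rw [h8, zero_smul, sub_zero] at he
  exact h0 he

private theorem star (h : PC t lam lam' mu c b m al) (h6 : LB.Six3 t pb lam) :
    eval pb (t 5) = 0 ∨ eval pz (t 5) = 0 := by
  obtain ⟨κ1, hκ1, κ2, hκ2, h1⟩ := h6.2.2 (km al) h.km_mem
  have h3 := h.ev h1
  rw [map_sub, map_mul, map_sub, map_mul, h.tb, km_pb, map_sub, map_mul, map_sub, map_mul, h.tz,
    km_pz, (Fp_pb hκ1).1, mul_zero, mul_zero, sub_zero, sub_zero] at h3
  by_contra hcon
  push Not at hcon
  have h4 := (mul_eq_zero.1 h3.1).resolve_left hcon.1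
  have h5 := (mul_eq_zero.1 h3.2).resolve_left hcon.2
  exact h.h.two (by linear_combination h4 - h5)

private theorem V4b (h : PC t lam lam' mu c b m al) : ∀ u ∈ V K t 4, eval pb u = 0 :=
  fun u hu => (mem_Jb.1 (h.h.V4_le_Cb hu).2).2.1

private theorem V4z (h : PC t lam lam' mu c b m al) : ∀ u ∈ V K t 4, eval pz u = 0 :=
  fun u hu => (mem_Jb.1 (h.h.V4_le_Cb hu).2).2.2.1

private theorem V4q (h : PC t lam lam' mu c b m al) : ∀ u ∈ V K t 4, eval ![-al, al, 2] u = 0 := by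
  have hmb : eval pb mu ≠ 0 := by
    rw [h.h.hm]
    simp only [pb, map_add, eval_X, Matrix.cons_val_zero, Matrix.cons_val_one]
    have := h.h.two
    rwa [one_add_one_eq_two]
  obtain ⟨del, _, hc⟩ := (h.h.lb.la.pm hmb).1
  rw [h.h.lb.la.v4]
  apply sup_eval
  · intro u hu
    obtain ⟨v, _, rfl⟩ := mem_mulS.1 hu
    rw [map_mul, h.lq, zero_mul]
  · intro u hu
    obtain ⟨r, rfl⟩ := mem_span_singleton.1 hu
    rw [hc, smul_eq_C_mul, map_mul, map_mul, h.mq, zero_mul, mul_zero]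

private theorem V5 {x : Fin 3 → K} (h4 : ∀ u ∈ V K t 4, eval x u = 0) (h5 : eval x (t 4) = 0) :
    ∀ u ∈ V K t 5, eval x u = 0 := by
  have h1 : V K t 5 = V K t 4 ⊔ span K {t 4} := V_succ (K := K) (t := t) (4 : Fin 9)
  rw [h1]
  apply sup_eval h4
  intro u hu
  obtain ⟨r, rfl⟩ := mem_span_singleton.1 hu
  rw [smul_eq_C_mul, map_mul, h5, mul_zero]

private theorem no3 (h : PC t lam lam' mu c b m al) (h6 : LB.Six3 t pb lam) : False := by
  have fl : Fl t := h.h.fl
  have two := h.h.two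
  have hl : lam ∈ H K 1 := h.h.lb.la.h.t2.ha
  have hm : mu ∈ H K 1 := h.h.lb.la.h.t2.hm
  have T := h.h.lb.la.h
  -- the sets
  have h4S := h.h.lb.four_mem
  obtain ⟨S2, hS2⟩ : ∃ S, S = out K t (V K t 4 ⊔ dv lam) := ⟨_, rfl⟩
  have hge : ∀ i ∈ S2, 4 ≤ (i : ℕ) := by
    intro i hi
    rw [hS2, sup_comm, fl.out_sup_V] at hi
    exact hi.2
  have hS3 : ∀ i : Fin 9, i ∈ S2.erase 4 ↔ i ∈ S2 ∧ 5 ≤ (i : ℕ) := by
    intro i
    rw [Finset.mem_erase]
    constructor
    · rintro ⟨h1, h2⟩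
      refine ⟨h2, ?_⟩
      have h3 := hge i h2
      have h4 : (i : ℕ) ≠ 4 := fun h5 => h1 (Fin.ext h5)
      omega
    · rintro ⟨h1, h2⟩
      refine ⟨?_, h1⟩
      rintro rfl
      exact absurd h2 (by decide)
  have c3 : (S2.erase 4).card = 2 := by
    rw [Finset.card_erase_of_mem (by rw [hS2]; exact h4S), hS2, h.h.lb.card]
  have c2 : cl K t 2 (S2.erase 4) = 2 := by
    have h1 : cl K t 2 S2 = cl K t 1 (nb K t 4 S2) + cl K t 2 (S2.erase 4) :=
      cl_erase (K := K) (t := t) 1 (by rw [hS2]; exact h4S)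
    have h2 := h.k1
    have h3 := h.h.lb.cl2
    rw [← hS2] at h2 h3
    rw [cl_one] at h1
    omega
  have h5S : (5 : Fin 9) ∈ S2.erase 4 := by
    rw [hS3]
    exact ⟨by rw [hS2]; exact h6.1, le_refl 5⟩
  have vb := V5 h.V4b h.tb
  have vz := V5 h.V4z h.tz
  have vq := V5 h.V4q h.tq
  -- first pair
  have p1 : (nb K t 5 (S2.erase 4)).card =
      e1 pb (t 5) + e1 pz (t 5) := by
    have ho : out K t (cubics K ⊓ Jb K 3 ⊔ V K t 5) = S2.erase 4 := by
      ext i
      rw [fl.out_sup_V, h.h.out_Cb, ← hS2, hS3]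
    rw [← ho]
    refine l10_pts fl (sup_le inf_le_left (fl.V_le 5)) (fl.llSupV inf_le_left h.h.ll_Cb 5)
      le_sup_right (by rw [ho]; exact h5S) (l10_zb two) ?_ ?_ (by rw [ho]; exact c2)
    · exact sup_eval (fun u hu => (mem_Jb.1 hu.2).2.1) vb
    · exact sup_eval (fun u hu => (mem_Jb.1 hu.2).2.2.1) vz
  -- second pair
  have p2 : (nb K t 5 (S2.erase 4)).card =
      e1 ![-al, al, 2] (t 5) + e1 pz (t 5) := by
    have ho : out K t (dv mu ⊔ V K t 4 ⊔ V K t 5) = S2.erase 4 := by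
      ext i
      rw [fl.out_sup_V, h.h.out_U2, ← hS2, hS3]
    rw [← ho]
    refine l10_pts fl (sup_le h.h.U2_le (fl.V_le 5)) (fl.llSupV h.h.U2_le h.h.ll_U2 5)
      le_sup_right (by rw [ho]; exact h5S) (l10_qz two al) ?_ ?_ (by rw [ho]; exact c2)
    · refine sup_eval (sup_eval ?_ h.V4q) vq
      intro u hu
      obtain ⟨v, _, rfl⟩ := mem_mulS.1 hu
      rw [map_mul, h.mq, zero_mul]
    · refine sup_eval (sup_eval ?_ h.V4z) vz
      intro u hu
      obtain ⟨v, _, rfl⟩ := mem_mulS.1 hu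
      rw [map_mul, h.mz, zero_mul]
  -- third pair
  have p3 : (nb K t 5 (S2.erase 4)).card =
      e1 pb (t 5) + e1 ![-al, al, 2] (t 5) := by
    have mo := h.h.lb.bm.mo
    have mi := h.h.lb.bm.mi
    have oD := h.h.lb.bm.oD
    rw [← hS2] at oD
    have hmS : m ∉ S2 := by
      rw [oD]
      exact Finset.notMem_erase m _
    have hm4 : 4 ≤ (m : ℕ) := by
      have h1 := mo
      rw [sup_comm, fl.out_sup_V] at h1
      exact h1.2
    have hm5 : 5 ≤ (m : ℕ) := by
      have h1 : (m : ℕ) ≠ 4 := by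
        intro h2
        have h3 : m = 4 := Fin.ext h2
        rw [h3, hS2] at hmS
        exact hmS h4S
      omega
    have ho : out K t (A K t 1 ⊔ V K t 5) = insert m (S2.erase 4) := by
      have h1 : A K t 1 ⊔ V K t 5 = V K t 4 ⊔ A K t 1 ⊔ V K t 5 := by
        rw [sup_comm (V K t 4), sup_assoc, sup_eq_right.2 (V_mono (K := K) (t := t) (by norm_num : 4 ≤ 5))]
      ext i
      rw [h1, fl.out_sup_V, Finset.mem_insert, hS3, oD, Finset.mem_erase]
      constructor
      · rintro ⟨h2, h3⟩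
        by_cases h4 : i = m
        · exact Or.inl h4
        · exact Or.inr ⟨⟨h4, h2⟩, h3⟩
      · rintro (h2 | ⟨⟨-, h2⟩, h3⟩)
        · rw [h2]
          exact ⟨mo, hm5⟩
        · exact ⟨h2, h3⟩
    have hmi : ∀ i : Fin 9, 4 ≤ (i : ℕ) → ¬ Adj K t m i := by
      intro i hi h1
      have h2 : i ∈ nb K t m (out K t (V K t 4)) := mem_nb.2 ⟨(fl.mem_out_V 4 i).2 hi, h1⟩
      rw [mi] at h2
      exact absurd h2 (Finset.notMem_empty i)
    have hm3 : m ∉ S2.erase 4 := fun h1 => hmS (Finset.mem_of_mem_erase h1)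
    have hc2 : cl K t 2 (insert m (S2.erase 4)) = 2 := by
      have h1 : cl K t 2 (insert m (S2.erase 4)) = cl K t 1 (nb K t m (insert m (S2.erase 4))) +
          cl K t 2 ((insert m (S2.erase 4)).erase m) :=
        cl_erase (K := K) (t := t) 1 (Finset.mem_insert_self _ _)
      have h2 : nb K t m (insert m (S2.erase 4)) = ∅ := by
        rw [Finset.eq_empty_iff_forall_notMem]
        intro i hi
        obtain ⟨h3, h4⟩ := mem_nb.1 hi
        rcases Finset.mem_insert.1 h3 with h5 | h5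
        · exact hmi i (by rw [h5]; exact hm4) h4
        · exact hmi i (hge i (Finset.mem_of_mem_erase h5)) h4
      rw [h2, Finset.erase_insert hm3, c2, cl_one, Finset.card_empty] at h1
      exact h1
    have hn : nb K t 5 (insert m (S2.erase 4)) = nb K t 5 (S2.erase 4) := by
      ext i
      rw [mem_nb, mem_nb, Finset.mem_insert]
      constructor
      · rintro ⟨h1 | h1, h2⟩
        · rw [h1] at h2
          exact absurd (adj_symm h2) (hmi 5 (by decide))
        · exact ⟨h1, h2⟩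
      · rintro ⟨h1, h2⟩
        exact ⟨Or.inr h1, h2⟩
    rw [← hn, ← ho]
    refine l10_pts fl (sup_le (fl.A_le 1) (fl.V_le 5)) (fl.llSupV (fl.A_le 1) (fl.llA 1) 5)
      le_sup_right (by rw [ho]; exact Finset.mem_insert_of_mem h5S) (l10_bq two al) ?_ ?_
      (by rw [ho]; exact hc2)
    · refine sup_eval ?_ vb
      exact T.A1_eval
    · refine sup_eval ?_ vq
      rw [T.A1]
      intro u hu
      obtain ⟨v, _, rfl⟩ := mem_mulS.1 hu
      rw [map_mul, h.lq, zero_mul]
  -- the end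
  have hst := h.star h6
  have hk : (nb K t 5 (S2.erase 4)).card = 0 := by
    rcases hst with h1 | h1
    · rw [e1_zero h1] at p1 p3
      omega
    · rw [e1_zero h1] at p1 p2
      omega
  have f1 : cl K t 2 (S2.erase 4) = cl K t 1 (nb K t 5 (S2.erase 4)) +
      cl K t 2 ((S2.erase 4).erase 5) := cl_erase (K := K) (t := t) 1 h5S
  rw [cl_one, hk] at f1
  have f2 : ((S2.erase 4).erase 5).card = 1 := by
    rw [Finset.card_erase_of_mem h5S, c3]
  obtain ⟨v, hv⟩ := Finset.card_eq_one.1 f2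
  rw [hv] at f1
  have f3 := l10_one (K := K) (t := t) (v := v)
  omega

end PC

theorem PC.false (h : ∃ al, PC t lam lam' mu c b m al) : False := by
  obtain ⟨al, h⟩ := h
  rcases h.h.lb.six with h6 | h6 | h6
  · exact h.no1 h6
  · exact h.no2 h6
  · exact h.no3 h6

end Pool.Agent.BR
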