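import Pool.Agent.Work.MP_be705b_al.II.PADefs

set_option autoImplicit false
set_option linter.unusedSectionVars false
set_option linter.unusedVariables false

/-!
# MP_be705b_al, type II, Lemma A at `pa`, module L6 (M): the end

`Ph pa * cubics = Ja 5`, `Ph pa * H 6 = Ja 8` (`Ph_pa_mul5`, `Ph_pa_mul8`, `mem_Ja`), `z := X 2`.  Elements of `Fp pa = N + span {x y}` have zero derivatives
`dr pa ea`, `dr pa eb`.  `LB.six` has three alternatives.
* `Six1`: `κ ∈ Fp pa`, `κ (pa) ≠ 0`, `lam κ κ - κ1 t4 ∈ Ja 5`.  Derivative along `v` (`dvl`; `lam (pa) = 0`, `dr pa v lam = lam (v) = 0`, `t4 (pa) = 0`):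
  `κ1 (pa) dr pa v t4 = 0`, so `κ1 (pa) = 0`.  Then `dr pa ea`, `dr pa eb`: `lam (ea) κ (pa)^2 = 0 = lam (eb) κ (pa)^2`, so `lam = 0`
  (`dr_linform`, `lin_lc`), contradiction.
* `Six2`: `κ ∈ KK lam`, `κ ∉ Fp pa`, `w = z^3`: `κ z^3 - κ1 t4 ∈ Ja 5`: `κ (pa) = 0`, `dr κ = κ1 (pa) dr t4` for `ea`, `eb`; `tf` gives `dr pa ea κ = dr pa eb κ = 0`, i.e.
  the coefficients of `x z`, `y z` in `κ` vanish, so `κ ∈ N + span {x y} = Fp pa`, contradiction.
* `Six3`.  (a) `t5 (pa) = 0`: let `κ0 = l0 x z - l1 y z ∈ KK lam` as in L5, `t5 (κ0 - κ1) - κ2 t4 ∈ Ja 5`.  If `t5 (pa) ≠ 0`: value: `(κ0 - κ1)(pa) = 0`;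
  derivatives: `t5 (pa) dr κ0 = κ2 (pa) dr t4`, so `tf` gives `dr κ0 = 0`, i.e. `l0 = l1 = 0`, contradiction.
  (b) `t5 (r) ≠ 0`: otherwise `r = a pa + b v` with `b ≠ 0` (`line_pts`, `ipr`).  On the line `lam = 0`: `rs pa v c = X^2 (γ2 + γ3 X)`, `rs pa v t4`, `rs pa v t5` are
  divisible by `X` and by the factor `F := b - a X` of `r` (`rs_root`; `X` and `F` are coprime; `X^2 * C = F * ..`), so they are `X F g` with
  `deg g ≤ 1`; `g_c = s X`, `s ≠ 0` (`c2 ≠ 0`), `g_4 (0) ≠ 0` (`dt`), so `g_5` is a combination of `g_c`, `g_4`: `rs pa v (t5 - α t4 - β c) = 0`, so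
  `lam ∣ t5 - α t4 - β c ∈ cubics` (`rs_eq_zero`), so it is in `dv lam` (`mem_dv`), so `t 5 ∈ V 5 ⊔ dv lam`, contradiction to `5 ∈ out (V 5 ⊔ dv lam)`
  (`t_notMem_of_out`).
  (c) `V 5` vanishes at `r`: `V 5 = lam Ph + c + t4`.  So `5` is a loop (`Fl.loop_of_eval`).
  (d) `Fl.nil1` (`U = V 5`, `a = lam z^2`): `a t5 t5 = lam (z^2 t5 t5)`, `z^2 t5 t5 ∈ Ja 8 = Ph * H 6`, so it is in `V 4 * H 6 ≤ V 5 * H 6`; so
  `lam (z^2 t5) ∈ V 5 * cubics`, and `star2`: `z^2 t5 - κ1 t4 ∈ Ja 5`: `dr t5 = κ1 (pa) dr t4`, so `x := t5 - κ1 (pa) t4` satisfies `x * z^2 ∈ Ja 5`, contradiction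
  to `LB.notC` (`IsIn K t x 5`).
-/

namespace Pool.Agent.BR

open Submodule Module MvPolynomial

variable {K : Type*} [Field K] {t : Fin 9 → Pol K} {lam lam' mu c : Pol K} {b m : Fin 9}

private theorem z3 : (X 2 ^ 3 : Pol K) ∈ cubics K := by
  have := mono_mem_cubics (K := K) (a := 0) (b := 0) (c := 3) (by norm_num) (by norm_num)
  simpa using this

private theorem z2N : (X 2 ^ 2 : Pol K) ∈ N K := subset_span (by simp)

private theorem ev_pa_X2 : eval (pa : Fin 3 → K) (X 2) = 1 := by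
  rw [eval_X]
  rfl

private theorem ev_z (n : ℕ) : eval (pa : Fin 3 → K) (X 2 ^ n) = 1 := by
  rw [map_pow, ev_pa_X2, one_pow]

private theorem dr_z (n : ℕ) : dr pa ea (X 2 ^ n : Pol K) = 0 ∧ dr pa eb (X 2 ^ n : Pol K) = 0 := by
  have h1 : dr pa ea (X 2 : Pol K) = 0 := by
    rw [dr_X]
    rfl
  have h2 : dr pa eb (X 2 : Pol K) = 0 := by
    rw [dr_X]
    rfl
  induction n with
  | zero =>
    have e : (X 2 ^ 0 : Pol K) = C 1 := by rw [pow_zero, C_1]
    rw [e, dr_C, dr_C]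
    exact ⟨rfl, rfl⟩
  | succ n ih =>
    rw [pow_succ, dr_mul, dr_mul, h1, h2, ih.1, ih.2]
    simp

/-- `Fp pa` -/
private theorem mem_Fp_pa {κ : Pol K} : κ ∈ Fp (pa : Fin 3 → K) ↔
    κ ∈ H K 2 ∧ dr pa ea κ = 0 ∧ dr pa eb κ = 0 := by
  have hpa : hat (cr (pa : Fin 3 → K)) = pa := (cf_cr _).2
  constructor
  · intro h
    have hH := Fp_le _ h
    refine ⟨hH, ?_⟩
    obtain ⟨-, h1, h2⟩ := mem_Ja' (K := K) (n := 1) hH
    rw [h1, h2]
    obtain ⟨x, hx, y, hy, rfl⟩ := mem_sup.1 h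
    obtain ⟨k, rfl⟩ := mem_span_singleton.1 hy
    have h3 : hat (x + k • cr (pa : Fin 3 → K)) = k • pa := by
      rw [hat_add, hat_of_N hx, hat_smul, hpa, zero_add]
    constructor
    · have h4 : hat (x + k • cr (pa : Fin 3 → K)) 1 = (k • pa : Fin 3 → K) 1 := by rw [h3]
      have h5 : (k • pa : Fin 3 → K) 1 = 0 := by
        show k * pa 1 = 0
        have : (pa : Fin 3 → K) 1 = 0 := rfl
        rw [this, mul_zero]
      rw [h5] at h4
      exact h4
    · have h4 : hat (x + k • cr (pa : Fin 3 → K)) 0 = (k • pa : Fin 3 → K) 0 := by rw [h3]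
      have h5 : (k • pa : Fin 3 → K) 0 = 0 := by
        show k * pa 0 = 0
        have : (pa : Fin 3 → K) 0 = 0 := rfl
        rw [this, mul_zero]
      rw [h5] at h4
      exact h4
  · rintro ⟨hH, h1, h2⟩
    obtain ⟨-, h3, h4⟩ := mem_Ja' (K := K) (n := 1) hH
    rw [h3] at h1
    rw [h4] at h2
    have h5 : hat κ = cf 1 1 0 κ • pa := by
      funext i
      fin_cases i
      · show cf 0 1 1 κ = cf 1 1 0 κ * 0
        rw [h2, mul_zero]
      · show cf 1 0 1 κ = cf 1 1 0 κ * 0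
        rw [h1, mul_zero]
      · show cf 1 1 0 κ = cf 1 1 0 κ * 1
        rw [mul_one]
    rw [← sq_add_cr hH]
    refine add_mem (N_le_Fp _ (sq_mem_N _)) ?_
    have h6 : cr (hat κ) = cf 1 1 0 κ • cr (pa : Fin 3 → K) := by
      rw [h5]
      simp only [cr, Pi.smul_apply, smul_eq_mul, map_mul, smul_eq_C_mul]
      ring
    rw [h6]
    exact smul_mem _ _ (mem_sup_right (mem_span_singleton_self _))

private theorem lam_zero {lam : Pol K} (hl : lam ∈ H K 1) (h0 : eval pa lam = 0)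
    (h1 : eval ea lam = 0) (h2 : eval eb lam = 0) : lam = 0 := by
  rw [← lin_lc hl] at h0 h1 h2 ⊢
  rw [eval_lin] at h0 h1 h2
  rw [lin_eq_zero]
  simp only [dot, pa, ea, eb, Matrix.cons_val_zero, Matrix.cons_val_one, Matrix.cons_val,
    mul_zero, mul_one, zero_add, add_zero] at h0 h1 h2
  funext i
  fin_cases i
  · exact h1
  · exact h2
  · exact h0

/-- a form which vanishes at `pa` and `r`, on the line -/
private theorem rs_two {v r : Fin 3 → K} {a b : K} (hb : b ≠ 0) (hr : r = a • pa + b • v)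
    {f : Pol K} (hf : f ∈ H K 3) (h1 : eval pa f = 0) (h2 : eval r f = 0) :
    ∃ x y : K, rs pa v f = (Polynomial.C b - Polynomial.C a * Polynomial.X) *
      (Polynomial.X * (Polynomial.C x + Polynomial.C y * Polynomial.X)) := by
  obtain ⟨g, hg, hfg⟩ := rs_root pa v (n := 2) hf (a := a) (b := b) (Or.inr hb) (by rw [← hr]; exact h2)
  have h0 : g.coeff 0 = 0 := by
    have h3 := rs_coeff_zero pa v f
    rw [hfg, h1, Polynomial.mul_coeff_zero, Polynomial.coeff_sub, Polynomial.coeff_C_zero,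
      Polynomial.mul_coeff_zero, Polynomial.coeff_X_zero, mul_zero, sub_zero] at h3
    exact (mul_eq_zero.1 h3).resolve_left hb
  refine ⟨g.coeff 1, g.coeff 2, ?_⟩
  rw [hfg]
  congr 1
  ext n
  rcases n with _ | _ | _ | n
  · rw [h0, Polynomial.mul_coeff_zero, Polynomial.coeff_X_zero, zero_mul]
  · rw [Polynomial.coeff_X_mul]
    simp
  · rw [Polynomial.coeff_X_mul]
    simp
  · rw [Polynomial.coeff_X_mul, Polynomial.coeff_eq_zero_of_natDegree_lt (by omega)]
    simp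

private theorem tp_low {v : Fin 3 → K} {a b x y : K} {f : Pol K}
    (hf : rs pa v f = (Polynomial.C b - Polynomial.C a * Polynomial.X) *
      (Polynomial.X * (Polynomial.C x + Polynomial.C y * Polynomial.X))) :
    dr pa v f = b * x ∧ (rs pa v f).coeff 2 = b * y - a * x := by
  have e : (Polynomial.C b - Polynomial.C a * Polynomial.X) *
      (Polynomial.X * (Polynomial.C x + Polynomial.C y * Polynomial.X)) =
      Polynomial.C (b * x) * Polynomial.X ^ 1 + Polynomial.C (b * y - a * x) * Polynomial.X ^ 2 +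
        Polynomial.C (-(a * y)) * Polynomial.X ^ 3 := by
    simp only [map_mul, map_sub, map_neg]
    ring
  constructor
  · rw [dr_apply, hf, e]
    simp only [Polynomial.coeff_add, Polynomial.coeff_C_mul, Polynomial.coeff_X_pow]
    norm_num
  · rw [hf, e]
    simp only [Polynomial.coeff_add, Polynomial.coeff_C_mul, Polynomial.coeff_X_pow]
    norm_num

theorem LB.false_pa (h : LB t pa lam lam' mu c b m) {v r : Fin 3 → K} (hP : PA t lam c v r) : False := by
  have hl : lam ∈ H K 1 := h.la.h.t2.ha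
  have hl0 : lam ≠ 0 := h.la.h.t2.a0
  have hlp : eval pa lam = 0 := h.la.h.lp
  have fl : Fl t := h.fl
  have hJ5 : Ph (pa : Fin 3 → K) * cubics K = Ja K 5 := Ph_pa_mul5
  have hFK : Fp (pa : Fin 3 → K) ≤ KK lam := Fp_le_KK hl hlp
  have hz2 : (X 2 ^ 2 : Pol K) ∈ Fp (pa : Fin 3 → K) := N_le_Fp _ z2N
  rcases h.six with ⟨κ, hκ, h0, κ1, hκ1, hm1⟩ | ⟨κ, hκ, hκF, hw⟩ | ⟨h5a, h5b, hk⟩
  · -- first alternative
    rw [hJ5, mem_Ja] at hm1
    obtain ⟨-, -, d1, d2⟩ := hm1
    have d3 := hP.dvl _ d1 d2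
    have hv : dr pa v lam = 0 := by rw [dr_linform _ _ hl, hP.hv]
    rw [map_sub, dr_mul _ _ lam, dr_mul _ _ κ1, hlp, hv, hP.tp, zero_mul, zero_mul, mul_zero, add_zero, add_zero,
      zero_sub, neg_eq_zero] at d3
    have hk1 : eval pa κ1 = 0 := (mul_eq_zero.1 d3).resolve_right hP.dt
    rw [map_sub, dr_mul _ _ lam, dr_mul _ _ κ1, hlp, hk1, hP.tp, zero_mul, zero_mul, mul_zero, zero_add, add_zero,
      sub_zero, dr_linform _ _ hl, map_mul] at d1 d2
    have hkk : eval pa κ * eval pa κ ≠ 0 := mul_ne_zero h0 h0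
    exact hl0 (lam_zero hl hlp ((mul_eq_zero.1 d1).resolve_right hkk)
      ((mul_eq_zero.1 d2).resolve_right hkk))
  · -- second alternative
    obtain ⟨κ1, hκ1, hm1⟩ := hw _ z3
    rw [hJ5, mem_Ja] at hm1
    obtain ⟨-, e1, d1, d2⟩ := hm1
    rw [map_sub, map_mul, map_mul, hP.tp, ev_z, mul_one, mul_zero, sub_zero] at e1
    rw [map_sub, dr_mul, dr_mul, e1, hP.tp, ev_z, zero_mul, mul_one, mul_zero, zero_add, add_zero,
      sub_eq_zero] at d1 d2
    have h3 := hP.tf κ hκ (eval pa κ1) d1 d2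
    exact hκF (mem_Fp_pa.2 ⟨KK_le _ hκ, h3.1, h3.2⟩)
  · -- third alternative
    have hle45 : V K t 4 ≤ V K t 5 := V_mono (by norm_num)
    -- `t 5` vanishes at `pa`
    have t5p : eval pa (t 5) = 0 := by
      by_contra ht5
      let u0 : Fin 3 → K := ![-(lc lam 1), lc lam 0, 0]
      have hu : hat (cr u0) = u0 := (cf_cr _).2
      have hk0 : cr u0 ∈ KK lam := by
        rw [mem_KK hl]
        refine ⟨cr_mem _, ?_⟩
        rw [hu]
        show lc lam 0 * -(lc lam 1) + lc lam 1 * lc lam 0 + lc lam 2 * 0 = 0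
        ring
      obtain ⟨κ1, hκ1, κ2, hκ2, hm1⟩ := hk _ hk0
      rw [hJ5, mem_Ja] at hm1
      obtain ⟨-, e1, d1, d2⟩ := hm1
      obtain ⟨-, f1, f2⟩ := mem_Fp_pa.1 hκ1
      rw [map_sub, map_mul, map_mul, hP.tp, mul_zero, sub_zero] at e1
      have e2 : eval pa (cr u0 - κ1) = 0 := (mul_eq_zero.1 e1).resolve_left ht5
      rw [map_sub, dr_mul, dr_mul, e2, hP.tp, mul_zero, mul_zero, add_zero, add_zero, map_sub, f1,
        sub_zero, sub_eq_zero] at d1
      rw [map_sub, dr_mul, dr_mul, e2, hP.tp, mul_zero, mul_zero, add_zero, add_zero, map_sub, f2,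
        sub_zero, sub_eq_zero] at d2
      have h3 := hP.tf (cr u0) hk0 ((eval pa (t 5))⁻¹ * eval pa κ2)
        (by rw [mul_assoc, ← d1, inv_mul_cancel_left₀ ht5])
        (by rw [mul_assoc, ← d2, inv_mul_cancel_left₀ ht5])
      obtain ⟨-, g1, g2⟩ := mem_Ja' (K := K) (n := 1) (cr_mem (K := K) u0)
      rw [g1, g2] at h3
      have h4 : hat (cr u0) 1 = 0 := h3.1
      have h5 : hat (cr u0) 0 = 0 := h3.2
      rw [hu] at h4 h5
      have h6 : lc lam 0 = 0 := h4
      have h7 : lc lam 1 = 0 := neg_eq_zero.1 h5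
      refine hl0 (lam_zero hl hlp ?_ ?_)
      · rw [← lin_lc hl, eval_lin]
        simp only [dot, ea, Matrix.cons_val_zero, Matrix.cons_val_one, Matrix.cons_val]
        rw [h6]
        ring
      · rw [← lin_lc hl, eval_lin]
        simp only [dot, eb, Matrix.cons_val_zero, Matrix.cons_val_one, Matrix.cons_val]
        rw [h7]
        ring
    -- `V 4` vanishes at `r`
    have hc5 : c ∈ V K t 5 := hle45 h.la.c_mem
    have ht45 : t 4 ∈ V K t 5 := t_mem (i := (4 : Fin 9)) (by decide)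
    -- `t 5` does not vanish at `r`
    have t5r : eval r (t 5) ≠ 0 := by
      intro ht5
      obtain ⟨a, b', hr⟩ := line_pts hP.ipv hl hl0 hlp hP.hv hP.hr
      have hb : b' ≠ 0 := by
        intro hb
        rw [hb, zero_smul, add_zero] at hr
        have h1 := LinearIndependent.pair_iff.1 hP.ipr (a) (-1) (by rw [hr]; simp)
        exact one_ne_zero (neg_eq_zero.1 h1.2)
      obtain ⟨xc, yc, hc⟩ := rs_two hb hr (cubics_le h.la.hc) hP.cp hP.cr
      obtain ⟨x4, y4, h4⟩ := rs_two hb hr (fl.mem_H 4) hP.tp hP.tr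
      obtain ⟨x5, y5, h5⟩ := rs_two hb hr (fl.mem_H 5) t5p ht5
      obtain ⟨hc1, hc2⟩ := tp_low hc
      obtain ⟨h41, -⟩ := tp_low h4
      have hxc : xc = 0 := by
        rw [hP.dc] at hc1
        exact (mul_eq_zero.1 hc1.symm).resolve_left hb
      have hyc : yc ≠ 0 := by
        intro hy
        rw [hy, hxc, mul_zero, mul_zero, sub_zero] at hc2
        exact hP.c2 hc2
      have hx4 : x4 ≠ 0 := by
        intro hx
        rw [hx, mul_zero] at h41
        exact hP.dt h41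
      let al : K := x5 / x4
      let be : K := (y5 - al * y4) / yc
      have e1 : x5 = al * x4 := by
        show x5 = x5 / x4 * x4
        rw [div_mul_cancel₀ _ hx4]
      have e2 : y5 = al * y4 + be * yc := by
        show y5 = al * y4 + (y5 - al * y4) / yc * yc
        rw [div_mul_cancel₀ _ hyc]
        ring
      have hmem : t 5 - C al * t 4 - C be * c ∈ cubics K := by
        rw [← smul_eq_C_mul, ← smul_eq_C_mul]
        exact sub_mem (sub_mem (fl.mem 5) (smul_mem _ _ (fl.mem 4))) (smul_mem _ _ h.la.hc)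
      have hrs : rs pa v (t 5 - C al * t 4 - C be * c) = 0 := by
        rw [map_sub, map_sub, map_mul, map_mul, rs_C, rs_C, hc, h4, h5, hxc, e1, e2]
        simp only [map_mul, map_add, map_zero]
        ring
      have hdvd := (rs_eq_zero hP.ipv hl hl0 hlp hP.hv (cubics_le hmem)).1 hrs
      have hdv : t 5 - C al * t 4 - C be * c ∈ dv lam := (mem_dv hl hl0).2 ⟨hmem, hdvd⟩
      refine t_notMem_of_out h5b ?_
      have e3 : t 5 = (al • t 4 + be • c) + (t 5 - C al * t 4 - C be * c) := by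
        rw [smul_eq_C_mul, smul_eq_C_mul]
        ring
      rw [e3]
      exact add_mem (mem_sup_left (add_mem (smul_mem _ _ ht45) (smul_mem _ _ hc5)))
        (mem_sup_right hdv)
    have hV4r : ∀ u ∈ V K t 4, eval r u = 0 := by
      intro u hu
      rw [h.la.v4] at hu
      obtain ⟨x, hx, y, hy, rfl⟩ := mem_sup.1 hu
      obtain ⟨g, hg, rfl⟩ := mem_mulS.1 hx
      obtain ⟨k, rfl⟩ := mem_span_singleton.1 hy
      rw [map_add, map_mul, hP.hr, zero_mul, smul_eval, hP.cr, mul_zero, add_zero]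
    have hloop : Adj K t 5 5 := by
      refine fl.loop_of_eval (r := r) (fun i hi => ?_) t5r
      rcases Nat.lt_or_ge (i : ℕ) 4 with h1 | h1
      · exact hV4r _ (t_mem h1)
      · have h2 : i = 4 := by
          apply Fin.ext
          have h3 : (i : ℕ) < 5 := hi
          show (i : ℕ) = 4
          omega
        rw [h2]
        exact hP.tr
    -- the end
    have ht5 : t 5 ∈ cubics K := fl.mem 5
    have ha : lam * X 2 ^ 2 ∈ cubics K := mul_KK_mem hl (hFK hz2)
    have hz2H : (X 2 ^ 2 : Pol K) ∈ H K 2 := Fp_le _ hz2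
    have hJ8 : X 2 ^ 2 * t 5 * t 5 ∈ Ja K 8 := by
      rw [mem_Ja]
      refine ⟨?_, ?_, ?_, ?_⟩
      · exact mul_mem_H (a := 5) (b := 3) (mul_mem_H (a := 2) (b := 3) hz2H (cubics_le ht5))
          (cubics_le ht5)
      · rw [map_mul, t5p, mul_zero]
      · rw [dr_mul, map_mul, t5p, mul_zero, mul_zero, zero_mul, add_zero]
      · rw [dr_mul, map_mul, t5p, mul_zero, mul_zero, zero_mul, add_zero]
    have hat : lam * X 2 ^ 2 * t 5 * t 5 ∈ V K t 5 * H K 6 := by
      have h1 : X 2 ^ 2 * t 5 * t 5 ∈ Ph (pa : Fin 3 → K) * H K 6 := by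
        rw [Ph_pa_mul8]
        exact hJ8
      have h2 : X 2 ^ 2 * t 5 * t 5 ∈ H K 8 := (mem_Ja.1 hJ8).1
      have h3 := (h.la.cancel8 h2).2 h1
      have e1 : lam * X 2 ^ 2 * t 5 * t 5 = lam * (X 2 ^ 2 * t 5 * t 5) := by ring
      rw [e1]
      exact (mul_le_mul' hle45 le_rfl : V K t 4 * H K 6 ≤ V K t 5 * H K 6) h3
    have h1 := fl.nil1 (fl.V_le 5) (fl.llV 5) (j := (5 : Fin 9)) le_rfl (t_notMem fl.li 5) hloop ha hat
    have e1 : lam * X 2 ^ 2 * t 5 = lam * (X 2 ^ 2 * t 5) := by ring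
    rw [e1] at h1
    have h2 : X 2 ^ 2 * t 5 ∈ H K 5 := mul_mem_H (a := 2) (b := 3) hz2H (cubics_le ht5)
    obtain ⟨κ1, hκ1, hm1⟩ := h.star2 h2 h1
    rw [hJ5, mem_Ja] at hm1
    obtain ⟨-, -, d1, d2⟩ := hm1
    rw [map_sub, dr_mul, dr_mul, t5p, hP.tp, ev_z, one_mul, mul_zero, mul_zero, add_zero, add_zero,
      sub_eq_zero] at d1 d2
    have hx : IsIn K t (t 5 - eval pa κ1 • t 4) 5 := by
      constructor
      · refine sub_mem (t_mem (i := (5 : Fin 9)) (by decide)) (smul_mem _ _ ?_)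
        exact t_mem (i := (4 : Fin 9)) (by decide)
      · intro hcon
        refine t_notMem fl.li (5 : Fin 9) ?_
        have e2 : t 5 = (t 5 - eval pa κ1 • t 4) + eval pa κ1 • t 4 := by abel
        rw [e2]
        exact add_mem hcon (smul_mem _ _ ht45)
    refine h.notC hx h5a hz2 (by rw [ev_z]; exact one_ne_zero) ?_
    rw [hJ5, mem_Ja]
    have ev1 : eval pa (t 5 - eval pa κ1 • t 4) = 0 := by
      rw [map_sub, smul_eval, t5p, hP.tp, mul_zero, sub_zero]
    refine ⟨mul_mem_H (a := 3) (b := 2) ?_ hz2H, ?_, ?_, ?_⟩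
    · exact sub_mem (cubics_le ht5) (smul_mem _ _ (fl.mem_H 4))
    · rw [map_mul, ev1, zero_mul]
    · rw [dr_mul, ev1, zero_mul, zero_add, ev_z, mul_one, map_sub, map_smul, d1, smul_eq_mul,
        sub_self]
    · rw [dr_mul, ev1, zero_mul, zero_add, ev_z, mul_one, map_sub, map_smul, d2, smul_eq_mul,
        sub_self]

end Pool.Agent.BR
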