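import Pool.Agent.Work.MP_be705b_al.II.L7

set_option autoImplicit false
set_option linter.unusedSectionVars false
set_option linter.unusedVariables false

/-!
# MP_be705b_al, type II, Lemma A at `pb`, module L8 (M): `lam = z`

`z := X 2`, `S2 := out (V 4 ⊔ dv lam)`, `4 ∈ S2` (`LB.four_mem`), `d := t 4`.  `S2 = out Cb = out U2` with `Cb = cubics ⊓ Jb 3`, `U2 = dv mu ⊔ V 4`.
PROOF.  `κ := z (x - y) ∈ KK z` (`mem_KK`), `κ (pb) = κ (pz) = 0`, `dr pz pa κ = 2` (`rs pz pa κ = 2 X`).  `LB.star`: `d (κ - κ1) ∈ Ph * cubics = Jb 5`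
(`Ph_pb_mul5`) with `κ1 ∈ Fp pb`, `s := κ1 (pb) = κ1 (pz)`, `dr pz pa κ1 = 0` (`Fp_pb`).  So `- s d (pb) = 0`, `- s d (pz) = 0`, `2 d (pz) - s dr d = 0`.
If `s ≠ 0` then `d ∈ Cb` (`mem_Jb`), contradiction to `4 ∈ out Cb` (`t_notMem_of_out`).  So `s = 0`, `d (pz) = 0`.
`rs pz pa (lam * z^2) = X^3`.
* `d (pb) ≠ 0`: `4` is a loop (`Fl.loop_of_eval`, `LA.V4_eval`).  But `rs pz pa d` is divisible by `X`, so `rs (d d d) = X^3 g` with `deg g ≤ 6` and
  `d * d * d ∈ U2 * H 6` (`mem_U2W6`), so `4` is no loop (`Fl.g2_cube`, `IsIn K t (t 4) 4`, `4 ∈ out U2`).  Contradiction.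
* `d (pb) = 0`: then `δ := dr pz pa d ≠ 0` (otherwise `d ∈ Cb`).  Let `k = card (nb 4 S2)`.  By `Fl.mem_sup_A`, `Cb_mul`: `a ∈ Cb ⊔ A 4` iff `a ∈ cubics`,
  `a d ∈ Jb 6` iff `a (pz) = 0` (`dr (a d) = a (pz) δ`), so `Cb ⊔ A 4 = cubics ⊓ IP pz 3`, dimension `8` (`finrank_pt`), `k = 1` (`Fl.rank`).
  `U2 ⊔ A 4`: `a d ∈ U2 * cubics` gives `rs a * rs d = X^3 g` (`mem_U2W`), `rs d = X * (unit at 0)`, so `X^2 ∣ rs a`: `U2 ⊔ A 4` is in the kernel of the
  map `a ↦ (coeff 0, coeff 1)` of `rs pz pa a`, onto `K^2` (`rs_surj3`), so its dimension is `≤ 7` and `k ≥ 2` (`Fl.rank`).  Contradiction.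
-/

namespace Pool.Agent.BR

open Submodule Module MvPolynomial

variable {K : Type*} [Field K] {t : Fin 9 → Pol K} {lam lam' mu c : Pol K} {b m : Fin 9}

private theorem l8_ker (S : Submodule K (Pol K)) [Module.Finite K ↥S] (φ : Pol K →ₗ[K] K)
    (h : ∃ f ∈ S, φ f ≠ 0) : finrank K ↥(S ⊓ LinearMap.ker φ) + 1 = finrank K ↥S := by
  set ψ : ↥S →ₗ[K] K := φ.domRestrict S with hψ
  have h1 : finrank K ↥(LinearMap.range ψ) + finrank K ↥(LinearMap.ker ψ) = finrank K ↥S :=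
    LinearMap.finrank_range_add_finrank_ker ψ
  have h2 : LinearMap.range ψ = ⊤ := by
    obtain ⟨f, hf, hfp⟩ := h
    rw [eq_top_iff]
    intro c _
    refine ⟨(c / φ f) • ⟨f, hf⟩, ?_⟩
    rw [map_smul, hψ, LinearMap.domRestrict_apply]
    show (c / φ f) • φ f = c
    rw [smul_eq_mul, div_mul_cancel₀ _ hfp]
  rw [h2, finrank_top, finrank_self] at h1
  have h3 : finrank K ↥(LinearMap.ker ψ) = finrank K ↥(S ⊓ LinearMap.ker φ) := by
    have h4 : S ⊓ LinearMap.ker φ = (LinearMap.ker ψ).map S.subtype := by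
      ext f
      rw [mem_inf]
      constructor
      · rintro ⟨hf, hfp⟩
        refine ⟨⟨f, hf⟩, ?_, rfl⟩
        rw [SetLike.mem_coe, LinearMap.mem_ker, hψ, LinearMap.domRestrict_apply]
        exact hfp
      · rintro ⟨g, hg, rfl⟩
        rw [SetLike.mem_coe, LinearMap.mem_ker, hψ, LinearMap.domRestrict_apply] at hg
        exact ⟨g.2, hg⟩
    rw [h4]
    exact LinearEquiv.finrank_eq (equivMapOfInjective _ S.injective_subtype _)
  omega

private theorem l8_line : LinearIndependent K ![(pz : Fin 3 → K), pa] := by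
  rw [LinearIndependent.pair_iff]
  intro a b hab
  have h0 := congrFun hab 0
  have h2 := congrFun hab 2
  simp only [pz, pa, Pi.add_apply, Pi.smul_apply, smul_eq_mul, Matrix.cons_val_zero, Matrix.cons_val,
    Pi.zero_apply, mul_one, mul_zero, add_zero, zero_add] at h0 h2
  exact ⟨h0, h2⟩

private theorem l8_rsz : rs pz pa (X 2 : Pol K) = Polynomial.X := by
  rw [rs_X]
  simp [pz, pa]

private theorem l8_kap : (X 2 * (X 0 - X 1) : Pol K) ∈ KK (X 2 : Pol K) := by
  have hX : ∀ i : Fin 3, (X i : Pol K) ∈ H K 1 := fun i => isHomogeneous_X K i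
  rw [mem_KK' (hX 2)]
  refine ⟨mul_mem_H (a := 1) (b := 1) (hX 2) (sub_mem (hX 0) (hX 1)), ?_⟩
  have e : (X 2 * (X 2 * (X 0 - X 1)) : Pol K) = X 2 ^ 2 * (X 0 - X 1) := by ring
  rw [e, ← N_mul_H1]
  exact mul_mem_mul (subset_span (by simp)) (sub_mem (hX 0) (hX 1))

theorem PB.false_z (h : PB t lam lam' mu c b m) (hl : lam = X 2) : False := by
  have fl := h.fl
  have h4 := h.lb.four_mem
  have hCle : cubics K ⊓ Jb K 3 ≤ cubics K := inf_le_left
  have h4C : (4 : Fin 9) ∈ out K t (cubics K ⊓ Jb K 3) := by rw [h.out_Cb]; exact h4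
  have h4U : (4 : Fin 9) ∈ out K t (dv mu ⊔ V K t 4) := by rw [h.out_U2]; exact h4
  have hnC := t_notMem_of_out h4C
  have hnU := t_notMem_of_out h4U
  have hdW := fl.mem (4 : Fin 9)
  have hdH := cubics_le hdW
  have hCb : eval pb (t 4) = 0 → eval pz (t 4) = 0 → dr pz pa (t 4) = 0 → False := by
    intro h1 h2 h3
    exact hnC (mem_inf.2 ⟨hdW, mem_Jb.2 ⟨hdH, h1, h2, h3⟩⟩)
  -- `t 4` vanishes at `pz`
  have hz : eval pz (t 4) = 0 := by
    have hκ : (X 2 * (X 0 - X 1) : Pol K) ∈ KK lam := by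
      rw [hl]
      exact l8_kap
    obtain ⟨κ1, hκ1, hst⟩ := h.lb.star hκ
    obtain ⟨e1, e2⟩ := Fp_pb hκ1
    rw [Ph_pb_mul5 h.two, mem_Jb] at hst
    obtain ⟨-, s1, s2, s3⟩ := hst
    have k1 : eval pb (X 2 * (X 0 - X 1) : Pol K) = 0 := by simp [pb]
    have k2 : eval pz (X 2 * (X 0 - X 1) : Pol K) = 0 := by simp [pz]
    have k3 : dr pz pa (X 2 * (X 0 - X 1) : Pol K) = 2 := by
      rw [dr_mul, map_sub, map_sub, dr_X, dr_X, dr_X, eval_X, eval_X, eval_X]
      simp only [pz, pa, Matrix.cons_val_zero, Matrix.cons_val_one, Matrix.cons_val]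
      ring
    rw [map_mul, map_sub, k1, zero_sub] at s1
    rw [map_mul, map_sub, k2, e1, zero_sub] at s2
    rw [dr_mul, map_sub, map_sub, k3, e2, k2, e1, zero_sub, sub_zero] at s3
    by_cases hs : eval pb κ1 = 0
    · rw [hs, neg_zero, mul_zero, add_zero] at s3
      exact (mul_eq_zero.1 s3).resolve_right h.two
    · exfalso
      have a1 := (mul_eq_zero.1 s1).resolve_right (neg_ne_zero.2 hs)
      have a2 := (mul_eq_zero.1 s2).resolve_right (neg_ne_zero.2 hs)
      rw [a2, zero_mul, zero_add] at s3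
      exact hCb a1 a2 ((mul_eq_zero.1 s3).resolve_right (neg_ne_zero.2 hs))
  -- restriction of `lam * z ^ 2`
  have hlz : rs pz pa (lam * X 2 ^ 2) = Polynomial.X ^ 3 := by
    rw [hl, map_mul, map_pow, l8_rsz]
    ring
  -- restriction of `t 4`
  have hc0 : (rs pz pa (t 4)).coeff 0 = 0 := by rw [rs_coeff_zero, hz]
  obtain ⟨g, hg⟩ := Polynomial.X_dvd_iff.2 hc0
  have hgd : g.natDegree ≤ 2 := by
    by_cases hg0 : g = 0
    · rw [hg0]
      simp
    · have h1 := rs_deg pz pa hdH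
      rw [hg, Polynomial.natDegree_mul Polynomial.X_ne_zero hg0, Polynomial.natDegree_X] at h1
      omega
  by_cases hb0 : eval pb (t 4) = 0
  · have hδ : dr pz pa (t 4) ≠ 0 := fun h3 => hCb hb0 hz h3
    -- one neighbour
    have r1 := fl.rank hCle h.ll_Cb (j := (4 : Fin 9)) h.V4_le_Cb hnC
    have e1 : (cubics K ⊓ Jb K 3) ⊔ A K t 4 = cubics K ⊓ IP pz 3 := by
      ext a
      rw [fl.mem_sup_A hCle h.ll_Cb (j := (4 : Fin 9)) h.V4_le_Cb hnC, h.Cb_mul, mem_inf, mem_IP, mem_Jb,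
        map_mul, map_mul, dr_mul, hb0, hz, mul_zero, mul_zero, mul_zero, add_zero]
      constructor
      · rintro ⟨h1, -, -, -, h5⟩
        exact ⟨h1, cubics_le h1, (mul_eq_zero.1 h5).resolve_right hδ⟩
      · rintro ⟨h1, h2, h3⟩
        exact ⟨h1, mul_mem_H (a := 3) (b := 3) h2 hdH, rfl, rfl, by rw [h3, zero_mul]⟩
    have hpz : (pz : Fin 3 → K) ≠ 0 := (l8_line (K := K)).ne_zero 0
    rw [e1, finrank_pt hpz] at r1
    -- at least two neighbours
    have r2 := fl.rank h.U2_le h.ll_U2 (j := (4 : Fin 9)) le_sup_right hnU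
    have e2 : (dv mu ⊔ V K t 4) ⊔ A K t 4 ≤ (cubics K ⊓ IP pz 3) ⊓ LinearMap.ker (dr pz pa) := by
      intro a ha
      obtain ⟨h1, h2⟩ := (fl.mem_sup_A h.U2_le h.ll_U2 (j := (4 : Fin 9)) le_sup_right hnU).1 ha
      have haH := cubics_le h1
      obtain ⟨g', -, hg'⟩ := (h.mem_U2W (mul_mem_H (a := 3) (b := 3) haH hdH)).1 h2
      rw [map_mul, hg, hlz] at hg'
      have h3 : rs pz pa a * g = Polynomial.X ^ 2 * g' := by
        apply mul_left_cancel₀ (Polynomial.X_ne_zero (R := K))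
        linear_combination hg'
      have h5 : (rs pz pa (t 4)).coeff 1 = g.coeff 0 := by
        rw [hg, Polynomial.coeff_X_mul]
      have h6 : g.coeff 0 ≠ 0 := by
        rw [← h5]
        exact hδ
      have h7 : (rs pz pa a).coeff 0 = 0 := by
        have h8 := congrArg (fun q => Polynomial.coeff q 0) h3
        simp only [Polynomial.mul_coeff_zero] at h8
        rw [Polynomial.coeff_X_pow, if_neg (by norm_num), zero_mul] at h8
        exact (mul_eq_zero.1 h8).resolve_right h6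
      have h9 : (rs pz pa a).coeff 1 = 0 := by
        have h8 := congrArg (fun q => Polynomial.coeff q 1) h3
        rw [Polynomial.coeff_X_pow_mul', if_neg (by norm_num), Polynomial.mul_coeff_one, h7, zero_mul,
          zero_add] at h8
        exact (mul_eq_zero.1 h8).resolve_right h6
      rw [mem_inf, mem_inf, mem_IP, LinearMap.mem_ker]
      rw [rs_coeff_zero] at h7
      exact ⟨⟨h1, haH, h7⟩, h9⟩
    have i1 : Module.Finite K ↥(cubics K) := Submodule.finiteDimensional_of_le cubics_le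
    have i2 : Module.Finite K ↥(cubics K ⊓ IP (pz : Fin 3 → K) 3) :=
      Submodule.finiteDimensional_of_le inf_le_left
    have i3 : Module.Finite K ↥((cubics K ⊓ IP pz 3) ⊓ LinearMap.ker (dr (K := K) pz pa)) :=
      Submodule.finiteDimensional_of_le inf_le_left
    have h10 := l8_ker (cubics K ⊓ IP (pz : Fin 3 → K) 3) (dr pz pa) (by
      obtain ⟨w, hw, hwX⟩ := rs_surj3 (l8_line (K := K)) (g := Polynomial.X)
        (by rw [Polynomial.natDegree_X]; norm_num)
      refine ⟨w, mem_inf.2 ⟨hw, mem_IP.2 ⟨cubics_le hw, ?_⟩⟩, ?_⟩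
      · rw [← rs_coeff_zero pz pa, hwX, Polynomial.coeff_X_zero]
      · rw [dr_apply, hwX, Polynomial.coeff_X_one]
        exact one_ne_zero)
    rw [finrank_pt hpz] at h10
    have h11 := Submodule.finrank_mono e2
    rw [h.out_U2] at r2
    rw [h.out_Cb] at r1
    have c1 : (nb K t 4 (out K t (V K t 4 ⊔ dv lam))).card = 1 := by omega
    rw [c1] at r2
    have c2 : finrank K ↥((dv mu ⊔ V K t 4) ⊔ A K t 4) = 8 := Nat.add_right_cancel r2
    have c3 : finrank K ↥((cubics K ⊓ IP pz 3) ⊓ LinearMap.ker (dr (K := K) pz pa)) = 7 :=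
      Nat.add_right_cancel h10
    rw [c2, c3] at h11
    omega
  · -- `4` is a loop
    have hloop : Adj K t 4 4 := by
      refine fl.loop_of_eval (r := pb) (fun i hi => ?_) hb0
      refine h.lb.la.V4_eval _ (BR.t_mem ?_)
      exact hi
    refine fl.g2_cube h.U2_le h.ll_U2 (u := t 4) (i := (4 : Fin 9)) ?_ h4U ?_ hloop
    · exact ⟨BR.t_mem (Nat.lt_succ_self _), t_notMem fl.li (4 : Fin 9)⟩
    · refine h.mem_U2W6 (g := g ^ 3) ?_ ?_ ?_
      · exact mul_mem_H (a := 6) (b := 3) (mul_mem_H (a := 3) (b := 3) hdH hdH) hdH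
      · refine Polynomial.natDegree_pow_le.trans ?_
        omega
      · rw [hlz, map_mul, map_mul, hg]
        ring

end Pool.Agent.BR
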