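import Pool.Agent.Work.MP_be705b_al.II.L7

set_option autoImplicit false
set_option linter.unusedSectionVars false
set_option linter.unusedVariables false

/-!
# MP_be705b_al, type II, Lemma A at `pb`, module L9 (L): `lam = x - y + α z`, the vertex `4`

`z := X 2`, `S2 := out (V 4 ⊔ dv lam)`, `4 ∈ S2` (`LB.four_mem`), `d := t 4`, `δ := dr pz pa d`, `k := card (nb 4 S2)`.
`Cb = cubics ⊓ Jb 3`, `U2 = dv mu ⊔ V 4`, `out Cb = out U2 = S2`.  `q = (-α, α, 2)`, `lam (q) = mu (q) = 0`, `q = -α • pz + 2 • pa`;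
`q, pb` independent, `q, pz` independent.  `rs pz pa (lam z^2) = (2 + α X) X^2`.
(0) By `Fl.rank`, `Fl.mem_sup_A`, `Cb_mul`: `finrank (Cb ⊔ A 4) + k = 9`, `a ∈ Cb ⊔ A 4` iff `a ∈ cubics`, `a d ∈ Jb 6`, i.e. `a (pb) d (pb) = 0`,
`a (pz) d (pz) = 0`, `a (pz) δ + dr a * d (pz) = 0`.  `finrank (U2 ⊔ A 4) + k = 9`, `a ∈ U2 ⊔ A 4` iff `rs a * rs d = rs (lam z^2) g`, `deg g ≤ 3` (`mem_U2W`).
`U1 := V 4 ⊔ A 1 ∈ LL` (`LA.ll_A1`), `out U1 = insert m S2`, `m` not adjacent to `4`, so `nb 4 (out U1) = nb 4 S2`: `finrank (U1 ⊔ A 4) + k = 9`, and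
`a ∈ U1 ⊔ A 4` iff `a d ∈ U1 * cubics = lam H 5 + c * cubics`.
`κ := x y + (α / 2) z (x - y) ∈ KK lam` (`mem_KK`: `hat κ = (-α/2, α/2, 1)`, `lc lam = (1, -1, α)`), `κ (pb) = 1`, `κ (pz) = -1`, `dr pz pa κ = α`.
`LB.star`: `d (κ - κ1) ∈ Jb 5`, `s := κ1 (pb) = κ1 (pz)`, `dr pz pa κ1 = 0` (`Fp_pb`): `d (pb) (1 - s) = 0`, `d (pz) (-1 - s) = 0`, `d (pz) α + δ (-1 - s) = 0`.
(i) `d (pb) ≠ 0`: `s = 1`, `d (pz) = 0`, `δ = 0`.  `Cb ⊔ A 4 = cubics ⊓ IP pb 3`, `k = 1` (`finrank_pt`).  If `d (q) ≠ 0` then `U1 ⊔ A 4` vanishes at `pb` and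
`q` (`U1 * cubics` vanishes there: `lam`, `c = mu del`), so its dimension is `≤ 7` (`finrank_pts`), `k ≥ 2`, contradiction.  So `d (q) = 0`: `rs pz pa d = (2 + α X) g`
with `deg g ≤ 2` (`rs_root`), and coefficients `0` and `1` vanish, so `g = g2 X^2`, `rs d = g2 * rs (lam z^2)`, `d ∈ U2` (`mem_U2`), contradiction to `4 ∈ out U2`.
(ii) `d (pb) = 0`, `d (pz) ≠ 0`: `s = -1`, so `α = 0`, `q = 2 • pa`, `lam = x - y`.  `Cb ⊔ A 4 = {a | a (pz) = 0, dr a = 0}`, dimension `7` (the two functionals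
are independent on `cubics`, `rs_surj3`), `k = 2`.
  `d (pa) = 0`: otherwise for `a ∈ U2 ⊔ A 4`: `rs a * rs d = 2 X^2 g`, `deg g ≤ 3`, `rs d` has nonzero constant term and nonzero coefficient of `X^3`
  (`rs_top`), so `X^2 ∣ rs a` and `deg (rs a) ≤ 2`, so `rs a ∈ span {X^2}`, `finrank (U2 ⊔ A 4) ≤ 5 + 1 = 6` (kernel of `rs` on `cubics` is `dv mu`,
  dimension 5), `k ≥ 3`, contradiction.
  Now the line `lam = 0` is `rs pb pa`.  `c = mu del`, `del ∈ Ps pb mu`: explicitly `KK mu ∋ del`: coefficients `del_yz + del_xz = 0`, `del (pb) = 0`: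
  `del_xx + del_yy + del_xy = 0`; so `rs pb pa del = del (1, 1, X) = del_zz X^2`, `del_zz ≠ 0` because `lam ∤ c` (`rs_eq_zero`), and
  `rs pb pa mu = 2`, `rs pb pa c = 2 del_zz X^2`.  For every `a ∈ cubics` with `a (pb) = 0`: `rs pb pa (a d)` is divisible by `X^2` (`a (pb) = d (pb) = 0`) and has
  degree `≤ 5` (`d (pa) = 0`), so `rs (a d) = rs c * g`, `deg g ≤ 3`, `g = rs w`, `w ∈ cubics` (`rs_surj3`), so `lam ∣ a d - c w`, `a d ∈ lam H 5 + c * cubics = U1 * cubics`.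
  So `cubics ⊓ IP pb 3 ≤ U1 ⊔ A 4`, `k ≤ 1`, contradiction.
(iii) `d (pb) = 0`, `d (pz) = 0`: `δ ≠ 0` (otherwise `d ∈ Cb`).  `a ∈ Cb ⊔ A 4` iff `a (pz) = 0`: `k = 1`.  `d (q) = 0`: otherwise for `a ∈ U2 ⊔ A 4`: `rs a rs d =
(2 + α X) X^2 g` so `a (q) d (q) = 0` (`rs_eval`, or: elements of `U2 * cubics` vanish at `q`), `a (q) = 0`, and `rs d = X * unit` so `X ∣ rs a`, `a (pz) = 0`; so
`finrank (U2 ⊔ A 4) ≤ 7` (`finrank_pts` for `q, pz`), `k ≥ 2`, contradiction.  `4` is no loop: `rs d = X (2 + α X) g`, `deg g ≤ 1` (`rs_root` for `q` and for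
`pz = 1 • pz + 0 • pa`), so `rs (d d) = (2 + α X) X^2 * ((2 + α X) g^2)`, `d d ∈ U2 * cubics` (`mem_U2W`) and `Fl.g2` (`IsIn K t (t 4) 4`, `4 ∈ out U2`).
-/

namespace Pool.Agent.BR

open Submodule Module MvPolynomial

variable {K : Type*} [Field K] {t : Fin 9 → Pol K} {lam lam' mu c : Pol K} {b m : Fin 9}

private theorem l9_pz_pa : LinearIndependent K ![(pz : Fin 3 → K), pa] := by
  rw [LinearIndependent.pair_iff]
  intro s r h
  have h0 := congrFun h 0
  have h2 := congrFun h 2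
  simp [pz, pa] at h0 h2
  exact ⟨h0, h2⟩

private theorem l9_pb_pa : LinearIndependent K ![(pb : Fin 3 → K), pa] := by
  rw [LinearIndependent.pair_iff]
  intro s r h
  have h0 := congrFun h 0
  have h2 := congrFun h 2
  simp [pb, pa] at h0 h2
  exact ⟨h0, h2⟩

private theorem l9_pb_q (h2 : (2 : K) ≠ 0) (al : K) :
    LinearIndependent K ![(pb : Fin 3 → K), ![-al, al, 2]] := by
  rw [LinearIndependent.pair_iff]
  intro s r h
  have e0 := congrFun h 0
  have e2 := congrFun h 2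
  simp [pb] at e0 e2
  have hr : r = 0 := e2.resolve_right h2
  subst hr
  simp at e0
  exact ⟨e0, rfl⟩

private theorem l9_pz_q (h2 : (2 : K) ≠ 0) (al : K) :
    LinearIndependent K ![(pz : Fin 3 → K), ![-al, al, 2]] := by
  rw [LinearIndependent.pair_iff]
  intro s r h
  have e0 := congrFun h 0
  have e2 := congrFun h 2
  simp [pz] at e0 e2
  have hr : r = 0 := e2.resolve_right h2
  subst hr
  simp at e0
  exact ⟨e0, rfl⟩

private theorem l9_q (al : K) : (![-al, al, 2] : Fin 3 → K) = (-al) • pz + (2 : K) • pa := by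
  ext i
  fin_cases i <;> simp [pz, pa]

private theorem l9_mulS_eval {r : Fin 3 → K} {f : Pol K} (hf : eval r f = 0) (U : Submodule K (Pol K)) :
    ∀ u ∈ mulS f U, eval r u = 0 := by
  intro u hu
  obtain ⟨v, -, rfl⟩ := mem_mulS.1 hu
  rw [map_mul, hf, zero_mul]

private theorem l9_span_eval {r : Fin 3 → K} {f : Pol K} (hf : eval r f = 0) :
    ∀ u ∈ span K {f}, eval r u = 0 := by
  intro u hu
  obtain ⟨v, rfl⟩ := mem_span_singleton.1 hu
  rw [smul_eval, hf, mul_zero]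

/-! ### coefficients of the restriction to the line `mu = 0` -/

private theorem l9_fin : Module.Finite K ↥(cubics K) := Submodule.finiteDimensional_of_le cubics_le

private theorem l9_dim {k : ℕ} (L : Pol K →ₗ[K] (Fin k → K)) (hL : ∀ w, ∃ a ∈ cubics K, L a = w) :
    finrank K ↥(cubics K ⊓ LinearMap.ker L) + k = 9 := by
  have : Module.Finite K ↥(cubics K) := l9_fin
  have h3 := LinearMap.finrank_range_add_finrank_ker (L.domRestrict (cubics K))
  have h4 : LinearMap.range (L.domRestrict (cubics K)) = ⊤ := by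
    rw [eq_top_iff]
    intro w _
    obtain ⟨a, ha, rfl⟩ := hL w
    exact ⟨⟨a, ha⟩, rfl⟩
  have h5 : finrank K ↥(LinearMap.ker (L.domRestrict (cubics K))) =
      finrank K ↥(cubics K ⊓ LinearMap.ker L) := by
    rw [LinearMap.ker_domRestrict, ← Submodule.finrank_map_subtype_eq, Submodule.map_comap_subtype]
  rw [h4, finrank_top, h5, finrank_cubics] at h3
  simp at h3
  omega

private noncomputable def l9_L {k : ℕ} (js : Fin k → ℕ) : Pol K →ₗ[K] (Fin k → K) :=
  LinearMap.pi fun i => (Polynomial.lcoeff K (js i)).comp (rs pz pa : Pol K →ₐ[K] Polynomial K).toLinearMap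

private theorem l9_L_apply {k : ℕ} (js : Fin k → ℕ) (f : Pol K) (i : Fin k) :
    l9_L js f i = (rs pz pa f).coeff (js i) := rfl

private theorem l9_dimL {k : ℕ} (js : Fin k → ℕ) (hinj : Function.Injective js) (h3 : ∀ i, js i ≤ 3) :
    finrank K ↥(cubics K ⊓ LinearMap.ker (l9_L (K := K) js)) + k = 9 := by
  refine l9_dim _ fun w => ?_
  have hg : (∑ i, Polynomial.monomial (js i) (w i)).natDegree ≤ 3 := by
    refine Polynomial.natDegree_sum_le_of_forall_le _ _ fun i _ => ?_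
    exact (Polynomial.natDegree_monomial_le _).trans (h3 i)
  obtain ⟨a, ha, h⟩ := rs_surj3 (l9_pz_pa (K := K)) hg
  refine ⟨a, ha, ?_⟩
  ext i
  rw [l9_L_apply, h, Polynomial.finsetSum_coeff]
  simp only [Polynomial.coeff_monomial]
  rw [Finset.sum_eq_single i]
  · simp
  · intro j _ hj
    rw [if_neg]
    intro h4
    exact hj (hinj h4)
  · intro h4
    exact absurd (Finset.mem_univ i) h4

private theorem l9_X {f : Polynomial K} {n : ℕ} (hf : f.natDegree ≤ n + 1) (h0 : f.coeff 0 = 0) :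
    ∃ g : Polynomial K, g.natDegree ≤ n ∧ f = Polynomial.X * g := by
  refine ⟨f.divX, ?_, ?_⟩
  · rw [Polynomial.natDegree_divX_eq_natDegree_tsub_one]
    omega
  · have h1 := Polynomial.divX_mul_X_add f
    rw [h0, Polynomial.C_0, add_zero] at h1
    rw [mul_comm]
    exact h1.symm

private theorem l9_rs_lam {al : K} (hl : lam = X 0 - X 1 + C al * X 2) :
    rs pz pa (lam * X 2 ^ 2) = (Polynomial.C 2 + Polynomial.C al * Polynomial.X) * Polynomial.X ^ 2 := by
  have e : (Polynomial.C 2 : Polynomial K) = 1 + 1 := by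
    rw [← one_add_one_eq_two, map_add, map_one]
  rw [hl, map_mul, map_pow, map_add, map_sub, map_mul, rs_X, rs_X, rs_X, rs_C, e]
  simp [pz, pa]

/-! ### the three spaces -/

section

variable (h : PB t lam lam' mu c b m)

include h

private theorem l9_tin : IsIn K t (t 4) 4 :=
  ⟨BR.t_mem (Nat.lt_succ_self _), t_notMem h.fl.li 4⟩

private theorem l9_Cb4 : (4 : Fin 9) ∈ out K t (cubics K ⊓ Jb K 3) := by
  rw [h.out_Cb]
  exact h.lb.four_mem

private theorem l9_U24 : (4 : Fin 9) ∈ out K t (dv mu ⊔ V K t 4) := by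
  rw [h.out_U2]
  exact h.lb.four_mem

private theorem l9_out1 : out K t (V K t 4 ⊔ dv lam) = (out K t (V K t 4 ⊔ A K t 1)).erase m :=
  h.lb.bm.oD

private theorem l9_U14 : (4 : Fin 9) ∈ out K t (V K t 4 ⊔ A K t 1) := by
  have h1 := h.lb.four_mem
  rw [l9_out1 h] at h1
  exact Finset.mem_of_mem_erase h1

private theorem l9_nb1 : nb K t 4 (out K t (V K t 4 ⊔ A K t 1)) =
    nb K t 4 (out K t (V K t 4 ⊔ dv lam)) := by
  ext i
  rw [l9_out1 h, mem_nb, mem_nb, Finset.mem_erase]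
  constructor
  · rintro ⟨h1, h2⟩
    refine ⟨⟨?_, h1⟩, h2⟩
    rintro rfl
    have h3 : (4 : Fin 9) ∈ nb K t i (out K t (V K t 4)) :=
      mem_nb.2 ⟨(h.fl.mem_out_V 4 4).2 le_rfl, adj_symm h2⟩
    rw [h.lb.bm.mi] at h3
    exact absurd h3 (Finset.notMem_empty _)
  · rintro ⟨⟨h1, h2⟩, h3⟩
    exact ⟨h2, h3⟩

private theorem l9_rank_Cb : finrank K ↥(cubics K ⊓ Jb K 3 ⊔ A K t 4) +
    (nb K t 4 (out K t (V K t 4 ⊔ dv lam))).card = 9 := by
  have h1 := h.fl.rank (j := 4) inf_le_left h.ll_Cb h.V4_le_Cb (t_notMem_of_out (l9_Cb4 h))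
  rwa [h.out_Cb] at h1

private theorem l9_mem_Cb {a : Pol K} : a ∈ cubics K ⊓ Jb K 3 ⊔ A K t 4 ↔ a ∈ cubics K ∧
    eval pb a * eval pb (t 4) = 0 ∧ eval pz a * eval pz (t 4) = 0 ∧
      eval pz a * dr pz pa (t 4) + dr pz pa a * eval pz (t 4) = 0 := by
  rw [h.fl.mem_sup_A (j := 4) inf_le_left h.ll_Cb h.V4_le_Cb (t_notMem_of_out (l9_Cb4 h)), h.Cb_mul,
    mem_Jb, map_mul, map_mul, dr_mul]
  constructor
  · rintro ⟨h1, -, h2, h3, h4⟩
    exact ⟨h1, h2, h3, h4⟩
  · rintro ⟨h1, h2, h3, h4⟩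
    exact ⟨h1, mul_mem_H (cubics_le h1) (h.fl.mem_H 4), h2, h3, h4⟩

private theorem l9_rank_U2 : finrank K ↥(dv mu ⊔ V K t 4 ⊔ A K t 4) +
    (nb K t 4 (out K t (V K t 4 ⊔ dv lam))).card = 9 := by
  have h1 := h.fl.rank (j := 4) h.U2_le h.ll_U2 le_sup_right (t_notMem_of_out (l9_U24 h))
  rwa [h.out_U2] at h1

private theorem l9_mem_U2 {a : Pol K} : a ∈ dv mu ⊔ V K t 4 ⊔ A K t 4 ↔ a ∈ cubics K ∧
    a * t 4 ∈ (dv mu ⊔ V K t 4) * cubics K :=
  h.fl.mem_sup_A (j := 4) h.U2_le h.ll_U2 le_sup_right (t_notMem_of_out (l9_U24 h))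

private theorem l9_rank_U1 : finrank K ↥(V K t 4 ⊔ A K t 1 ⊔ A K t 4) +
    (nb K t 4 (out K t (V K t 4 ⊔ dv lam))).card = 9 := by
  have h1 := h.fl.rank (j := 4) h.lb.la.le_cubics h.lb.la.ll_A1 le_sup_left
    (t_notMem_of_out (l9_U14 h))
  rwa [l9_nb1 h] at h1

private theorem l9_mem_U1 {a : Pol K} : a ∈ V K t 4 ⊔ A K t 1 ⊔ A K t 4 ↔ a ∈ cubics K ∧
    a * t 4 ∈ (V K t 4 ⊔ A K t 1) * cubics K :=
  h.fl.mem_sup_A (j := 4) h.lb.la.le_cubics h.lb.la.ll_A1 le_sup_left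
    (t_notMem_of_out (l9_U14 h))

private theorem l9_mu_pb : eval pb mu ≠ 0 := by
  rw [h.hm]
  simp only [map_add, eval_X]
  simp only [pb, Matrix.cons_val_zero, Matrix.cons_val_one]
  rw [one_add_one_eq_two]
  exact h.two

private theorem l9_del : ∃ del ∈ Ps pb mu, c = mu * del := (h.lb.la.pm (l9_mu_pb h)).1

private theorem l9_mu_q (al : K) : eval ![-al, al, 2] mu = 0 := by
  rw [h.hm]
  simp

private theorem l9_lam_q {al : K} (hl : lam = X 0 - X 1 + C al * X 2) :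
    eval ![-al, al, 2] lam = 0 := by
  rw [hl]
  simp
  ring

private theorem l9_V4_q {al : K} (hl : lam = X 0 - X 1 + C al * X 2) :
    ∀ u ∈ V K t 4, eval ![-al, al, 2] u = 0 := by
  rw [h.lb.la.v4]
  refine sup_eval (l9_mulS_eval (l9_lam_q h hl) _) (l9_span_eval ?_)
  obtain ⟨del, -, hc⟩ := l9_del h
  rw [hc, map_mul, l9_mu_q h, zero_mul]

private theorem l9_U1_q {al : K} (hl : lam = X 0 - X 1 + C al * X 2) :
    ∀ u ∈ V K t 4 ⊔ A K t 1, eval ![-al, al, 2] u = 0 := by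
  refine sup_eval (l9_V4_q h hl) ?_
  rw [h.lb.la.h.A1]
  exact l9_mulS_eval (l9_lam_q h hl) _

private theorem l9_U1_pb : ∀ u ∈ V K t 4 ⊔ A K t 1, eval pb u = 0 :=
  sup_eval h.lb.la.V4_eval h.lb.la.h.A1_eval

private theorem l9_U2_q {al : K} (hl : lam = X 0 - X 1 + C al * X 2) :
    ∀ u ∈ dv mu ⊔ V K t 4, eval ![-al, al, 2] u = 0 :=
  sup_eval (l9_mulS_eval (l9_mu_q h al) _) (l9_V4_q h hl)

private theorem l9_star {al : K} (hl : lam = X 0 - X 1 + C al * X 2) :
    ∃ s : K, eval pb (t 4) * (1 - s) = 0 ∧ eval pz (t 4) * (-1 - s) = 0 ∧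
      eval pz (t 4) * al + dr pz pa (t 4) * (-1 - s) = 0 := by
  have h2 := h.two
  have hlin : lam = lin ![1, -1, al] := by
    rw [hl, lin]
    simp
    ring
  have hκ : cr (![-(al / 2), al / 2, 1] : Fin 3 → K) ∈ KK lam := by
    rw [mem_KK h.lb.la.h.t2.ha]
    refine ⟨cr_mem _, ?_⟩
    rw [hlin, lc_lin, (cf_cr _).2]
    simp [dot]
    field_simp
    ring
  obtain ⟨κ1, hκ1, h3⟩ := h.lb.star hκ
  rw [Ph_pb_mul5 h2, mem_Jb] at h3
  obtain ⟨-, e1, e2, e3⟩ := h3
  obtain ⟨e4, e5⟩ := Fp_pb hκ1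
  refine ⟨eval pb κ1, ?_, ?_, ?_⟩
  · rw [map_mul, map_sub] at e1
    simpa [cr, pb] using e1
  · rw [map_mul, map_sub, e4] at e2
    simpa [cr, pz] using e2
  · rw [dr_mul, map_sub, map_sub, e4, e5] at e3
    have e6 : dr pz pa (cr (![-(al / 2), al / 2, 1] : Fin 3 → K)) = al := by
      rw [cr, map_add, map_add]
      simp only [dr_mul, dr_C, dr_X, eval_C, eval_X, map_mul]
      simp [pz, pa]
      rw [← add_div, ← two_mul, mul_div_cancel_left₀ _ h2]
    rw [e6] at e3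
    simpa [cr, pz] using e3

end

/-! ### dimensions -/

private theorem l9_mono_le {k : ℕ} {js : Fin k → ℕ} {S : Submodule K (Pol K)}
    (hS : ∀ a ∈ S, a ∈ cubics K ∧ ∀ i, (rs pz pa a).coeff (js i) = 0) :
    finrank K ↥S ≤ finrank K ↥(cubics K ⊓ LinearMap.ker (l9_L (K := K) js)) := by
  have : Module.Finite K ↥(cubics K) := l9_fin
  have : Module.Finite K ↥(cubics K ⊓ LinearMap.ker (l9_L (K := K) js)) :=
    Submodule.finiteDimensional_of_le inf_le_left
  refine Submodule.finrank_mono ?_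
  intro a ha
  obtain ⟨h1, h2⟩ := hS a ha
  refine ⟨h1, ?_⟩
  rw [SetLike.mem_coe, LinearMap.mem_ker]
  ext i
  exact h2 i

private theorem l9_mono_ge {k : ℕ} {js : Fin k → ℕ} {S : Submodule K (Pol K)} (hS' : S ≤ cubics K)
    (hS : ∀ a ∈ cubics K, (∀ i, (rs pz pa a).coeff (js i) = 0) → a ∈ S) :
    finrank K ↥(cubics K ⊓ LinearMap.ker (l9_L (K := K) js)) ≤ finrank K ↥S := by
  have : Module.Finite K ↥(cubics K) := l9_fin
  have : Module.Finite K ↥S := Submodule.finiteDimensional_of_le hS'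
  refine Submodule.finrank_mono ?_
  rintro a ⟨h1, h2⟩
  rw [SetLike.mem_coe, LinearMap.mem_ker] at h2
  exact hS a h1 fun i => congrFun h2 i

private theorem l9_pb_ne : (pb : Fin 3 → K) ≠ 0 := by
  intro h
  have := congrFun h 0
  simp [pb] at this

private theorem l9_pz_ne : (pz : Fin 3 → K) ≠ 0 := by
  intro h
  have := congrFun h 0
  simp [pz] at this

private theorem l9_le7 {x y : Fin 3 → K} (hxy : LinearIndependent K ![x, y]) {S : Submodule K (Pol K)}
    (hS : ∀ a ∈ S, a ∈ cubics K ∧ eval x a = 0 ∧ eval y a = 0) : finrank K ↥S ≤ 7 := by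
  have : Module.Finite K ↥(cubics K) := l9_fin
  have : Module.Finite K ↥(cubics K ⊓ (IP x 3 ⊓ IP y 3)) :=
    Submodule.finiteDimensional_of_le inf_le_left
  rw [← finrank_pts hxy]
  refine Submodule.finrank_mono ?_
  intro a ha
  obtain ⟨h1, h2, h3⟩ := hS a ha
  exact ⟨h1, mem_IP.2 ⟨cubics_le h1, h2⟩, mem_IP.2 ⟨cubics_le h1, h3⟩⟩

private theorem l9_ge8 {x : Fin 3 → K} (hx : x ≠ 0) {S : Submodule K (Pol K)} (hS' : S ≤ cubics K)
    (hS : ∀ a ∈ cubics K, eval x a = 0 → a ∈ S) : 8 ≤ finrank K ↥S := by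
  have : Module.Finite K ↥(cubics K) := l9_fin
  have : Module.Finite K ↥S := Submodule.finiteDimensional_of_le hS'
  rw [← finrank_pt hx]
  refine Submodule.finrank_mono ?_
  rintro a ⟨h1, h2⟩
  exact hS a h1 (mem_IP.1 h2).2

/-! ### the three cases -/

section

variable (h : PB t lam lam' mu c b m) {al : K} (hl : lam = X 0 - X 1 + C al * X 2)

include h hl

private theorem l9_case1 (hb : eval pb (t 4) ≠ 0) (hz : eval pz (t 4) = 0)
    (hd : dr pz pa (t 4) = 0) : False := by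
  have h2 := h.two
  -- `k ≤ 1`
  have hk : (nb K t 4 (out K t (V K t 4 ⊔ dv lam))).card ≤ 1 := by
    have h1 := l9_rank_Cb h
    have h3 : 8 ≤ finrank K ↥(cubics K ⊓ Jb K 3 ⊔ A K t 4) := by
      refine l9_ge8 (l9_pb_ne (K := K)) (sup_le inf_le_left (h.fl.A_le 4)) ?_
      intro a ha ha0
      rw [l9_mem_Cb h]
      refine ⟨ha, by rw [ha0, zero_mul], by rw [hz, mul_zero], by rw [hz, hd, mul_zero, mul_zero, add_zero]⟩
    omega
  -- `d (q) = 0`
  have hq : eval ![-al, al, 2] (t 4) = 0 := by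
    by_contra hq
    have h1 := l9_rank_U1 h
    have h3 : finrank K ↥(V K t 4 ⊔ A K t 1 ⊔ A K t 4) ≤ 7 := by
      refine l9_le7 (l9_pb_q h2 al) ?_
      intro a ha
      obtain ⟨h4, h5⟩ := (l9_mem_U1 h).1 ha
      have h6 := mul_eval (l9_U1_pb h) h5
      have h7 := mul_eval (l9_U1_q h hl) h5
      rw [map_mul] at h6 h7
      exact ⟨h4, (mul_eq_zero.1 h6).resolve_right hb, (mul_eq_zero.1 h7).resolve_right hq⟩
    omega
  rw [l9_q] at hq
  obtain ⟨g, hg, hrs⟩ := rs_root pz pa (h.fl.mem_H 4) (Or.inr h2) hq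
  have e0 := rs_coeff_zero pz pa (t 4)
  have e1 := dr_apply pz pa (t 4)
  rw [hz] at e0
  rw [hd] at e1
  have g0 : g.coeff 0 = 0 := by
    rw [hrs] at e0
    simp at e0
    exact e0.resolve_left h2
  obtain ⟨g', hg', rfl⟩ := l9_X hg g0
  have g1 : g'.coeff 0 = 0 := by
    rw [hrs] at e1
    have e2 : (Polynomial.C 2 - Polynomial.C (-al) * Polynomial.X) * (Polynomial.X * g') =
        Polynomial.X * ((Polynomial.C 2 - Polynomial.C (-al) * Polynomial.X) * g') := by ring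
    rw [e2, Polynomial.coeff_X_mul] at e1
    simp at e1
    exact e1.resolve_left h2
  obtain ⟨g'', hg'', rfl⟩ := l9_X hg' g1
  have h3 : t 4 ∈ dv mu ⊔ V K t 4 := by
    rw [h.mem_U2 (h.fl.mem 4)]
    refine ⟨g''.coeff 0, ?_⟩
    rw [hrs, l9_rs_lam hl]
    have e3 := Polynomial.eq_C_of_natDegree_le_zero hg''
    rw [e3]
    simp
    ring
  exact t_notMem_of_out (l9_U24 h) h3

private theorem l9_case2 (hb : eval pb (t 4) = 0) (hz : eval pz (t 4) ≠ 0) (ha0 : al = 0) : False := by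
  have h2 := h.two
  subst ha0
  -- `k = 2`
  have hk : (nb K t 4 (out K t (V K t 4 ⊔ dv lam))).card = 2 := by
    have h1 := l9_rank_Cb h
    have h3 := l9_dimL (K := K) (k := 2) ![0, 1] (by
      intro i j hij
      fin_cases i <;> fin_cases j <;> simp_all) (by
      intro i
      fin_cases i <;> simp)
    have h4 := l9_mono_le (K := K) (k := 2) (js := ![0, 1]) (S := cubics K ⊓ Jb K 3 ⊔ A K t 4) (by
      intro a ha
      obtain ⟨h5, -, h6, h7⟩ := (l9_mem_Cb h).1 ha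
      have h8 := (mul_eq_zero.1 h6).resolve_right hz
      rw [h8, zero_mul, zero_add] at h7
      have h9 := (mul_eq_zero.1 h7).resolve_right hz
      refine ⟨h5, fun i => ?_⟩
      fin_cases i
      · change (rs pz pa a).coeff 0 = 0
        rw [rs_coeff_zero, h8]
      · change (rs pz pa a).coeff 1 = 0
        rw [← dr_apply, h9])
    have h5 := l9_mono_ge (K := K) (k := 2) (js := ![0, 1]) (S := cubics K ⊓ Jb K 3 ⊔ A K t 4)
      (sup_le inf_le_left (h.fl.A_le 4)) (by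
      intro a ha h6
      have h7 : (rs pz pa a).coeff 0 = 0 := h6 0
      have h8 : (rs pz pa a).coeff 1 = 0 := h6 1
      rw [rs_coeff_zero] at h7
      rw [← dr_apply] at h8
      rw [l9_mem_Cb h]
      refine ⟨ha, by rw [hb, mul_zero], by rw [h7, zero_mul], by rw [h7, h8, zero_mul, zero_mul, add_zero]⟩)
    have h6 := Nat.le_antisymm h4 h5
    rw [← h6] at h3
    have h7 : finrank K ↥(cubics K ⊓ Jb K 3 ⊔ A K t 4) + 2 = 9 := h3
    omega
  have hrl := l9_rs_lam hl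
  rw [Polynomial.C_0, zero_mul, add_zero] at hrl
  -- `d (pa) = 0`
  have hpa : eval pa (t 4) = 0 := by
    by_contra hpa
    have h1 := l9_rank_U2 h
    have h3 := l9_dimL (K := K) (k := 3) ![0, 1, 3] (by
      intro i j hij
      fin_cases i <;> fin_cases j <;> simp_all) (by
      intro i
      fin_cases i <;> simp)
    have h4 := l9_mono_le (K := K) (k := 3) (js := ![0, 1, 3]) (S := dv mu ⊔ V K t 4 ⊔ A K t 4) (by
      intro a ha
      obtain ⟨h5, h6⟩ := (l9_mem_U2 h).1 ha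
      have hH : a * t 4 ∈ H K 6 := mul_mem_H (cubics_le h5) (h.fl.mem_H 4)
      obtain ⟨g, hg, h7⟩ := (h.mem_U2W hH).1 h6
      rw [hrl] at h7
      have c0 : (rs pz pa (a * t 4)).coeff 0 = 0 := by
        rw [h7]
        simp [mul_assoc, Polynomial.coeff_X_pow_mul']
      have c1 : (rs pz pa (a * t 4)).coeff 1 = 0 := by
        rw [h7]
        simp [mul_assoc, Polynomial.coeff_X_pow_mul']
      have c6 : (rs pz pa (a * t 4)).coeff 6 = 0 := by
        rw [h7, mul_assoc, Polynomial.coeff_C_mul, Polynomial.coeff_X_pow_mul',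
          if_pos (by norm_num), Polynomial.coeff_eq_zero_of_natDegree_lt (by omega), mul_zero]
      rw [rs_coeff_zero, map_mul] at c0
      have a0 := (mul_eq_zero.1 c0).resolve_right hz
      rw [← dr_apply, dr_mul, a0, zero_mul, zero_add] at c1
      have a1 := (mul_eq_zero.1 c1).resolve_right hz
      rw [rs_top pz pa hH, map_mul] at c6
      have a3 := (mul_eq_zero.1 c6).resolve_right hpa
      refine ⟨h5, fun i => ?_⟩
      fin_cases i
      · change (rs pz pa a).coeff 0 = 0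
        rw [rs_coeff_zero, a0]
      · change (rs pz pa a).coeff 1 = 0
        rw [← dr_apply, a1]
      · change (rs pz pa a).coeff 3 = 0
        rw [rs_top pz pa (cubics_le h5), a3])
    omega
  -- the line `lam = 0`
  obtain ⟨del, hdel, hc⟩ := l9_del h
  obtain ⟨hdK, hdI⟩ := hdel
  have hd2 : del ∈ H K 2 := KK_le _ hdK
  have hd0 : eval pb del = 0 := (mem_IP.1 hdI).2
  have hmu : mu = lin ![1, 1, 0] := by
    rw [h.hm, lin]
    simp
  have hmu1 : mu ∈ H K 1 := by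
    rw [hmu]
    exact lin_mem _
  have hd1 : hat del 0 + hat del 1 = 0 := by
    have h3 := ((mem_KK hmu1).1 hdK).2
    rw [hmu, lc_lin] at h3
    simpa [dot] using h3
  have hrd : rs pb pa del = Polynomial.C (dg del 2) * Polynomial.X ^ 2 := by
    have h3 := sq_add_cr hd2
    have h4 : eval pb (sq (dg del) + cr (hat del)) = 0 := by rw [h3, hd0]
    have h5 : dg del 0 + dg del 1 + hat del 2 = 0 := by
      simpa [sq, cr, pb] using h4
    rw [← h3]
    have e1 : hat del 1 = - hat del 0 := by linear_combination hd1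
    have e2 : hat del 2 = - dg del 0 - dg del 1 := by linear_combination h5
    rw [h3]
    conv_lhs => rw [← h3]
    simp only [sq, cr, map_add, map_mul, map_pow, rs_X, rs_C, e1, e2]
    simp [pb, pa]
    ring
  have hrm : rs pb pa mu = Polynomial.C 2 := by
    have e : (Polynomial.C 2 : Polynomial K) = 1 + 1 := by
      rw [← one_add_one_eq_two, map_add, map_one]
    rw [h.hm, map_add, rs_X, rs_X, e]
    simp [pb, pa]
  have hrc : rs pb pa c = Polynomial.C (2 * dg del 2) * Polynomial.X ^ 2 := by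
    rw [hc, map_mul, hrm, hrd, Polynomial.C_mul]
    ring
  have hlp : eval pb lam = 0 := h.lb.la.h.lp
  have hla : eval pa lam = 0 := by
    rw [hl]
    simp [pa]
  have hl1 := h.lb.la.h.t2.ha
  have hl0 := h.lb.la.h.t2.a0
  have hne : 2 * dg del 2 ≠ 0 := by
    intro h3
    rw [h3, Polynomial.C_0, zero_mul] at hrc
    exact h.lb.la.nd ((rs_eq_zero l9_pb_pa hl1 hl0 hlp hla (cubics_le h.lb.la.hc)).1 hrc)
  -- `U1 ⊔ A 4` is large
  have hbig : 8 ≤ finrank K ↥(V K t 4 ⊔ A K t 1 ⊔ A K t 4) := by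
    refine l9_ge8 (l9_pb_ne (K := K)) (sup_le h.lb.la.le_cubics (h.fl.A_le 4)) ?_
    intro a ha ha0
    rw [l9_mem_U1 h]
    refine ⟨ha, ?_⟩
    have hH : a * t 4 ∈ H K 6 := mul_mem_H (cubics_le ha) (h.fl.mem_H 4)
    obtain ⟨A', hA', eA⟩ := l9_X (n := 2) (rs_deg pb pa (cubics_le ha))
      (by rw [rs_coeff_zero, ha0])
    have hdeg : (rs pb pa (t 4)).natDegree ≤ 1 + 1 := by
      rw [Polynomial.natDegree_le_iff_coeff_eq_zero]
      intro N hN
      have h3 := rs_deg pb pa (h.fl.mem_H 4)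
      rcases Nat.lt_or_ge 3 N with h4 | h4
      · exact Polynomial.coeff_eq_zero_of_natDegree_lt (by omega)
      · have h5 : N = 3 := by omega
        rw [h5, rs_top pb pa (h.fl.mem_H 4), hpa]
    obtain ⟨D', hD', eD⟩ := l9_X (n := 1) hdeg (by rw [rs_coeff_zero, hb])
    have hgd : (Polynomial.C (2 * dg del 2)⁻¹ * (A' * D')).natDegree ≤ 3 := by
      refine (Polynomial.natDegree_C_mul_le _ _).trans (Polynomial.natDegree_mul_le.trans ?_)
      omega
    obtain ⟨w, hw, hrw⟩ := rs_surj3 (l9_pb_pa (K := K)) hgd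
    have h6 : c * w ∈ H K 6 := mul_mem_H (cubics_le h.lb.la.hc) (cubics_le hw)
    have h7 : rs pb pa (a * t 4 - c * w) = 0 := by
      rw [map_sub, map_mul, map_mul, eA, eD, hrc, hrw]
      have h8 : (Polynomial.C (2 * dg del 2) * Polynomial.C (2 * dg del 2)⁻¹ : Polynomial K) = 1 := by
        rw [← Polynomial.C_mul, mul_inv_cancel₀ hne, Polynomial.C_1]
      linear_combination (- Polynomial.X ^ 2 * A' * D') * h8
    have h8 := (rs_eq_zero l9_pb_pa hl1 hl0 hlp hla (sub_mem hH h6)).1 h7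
    have h9 : a * t 4 - c * w ∈ mulS lam (H K 5) :=
      mem_mulS_of_dvd (a := 1) (b := 5) hl1 hl0 (sub_mem hH h6) h8
    have h10 : a * t 4 = (a * t 4 - c * w) + c * w := by ring
    rw [h10, Submodule.sup_mul]
    refine add_mem (mem_sup_right ?_) (mem_sup_left (mul_mem_mul h.lb.la.c_mem hw))
    rw [h.lb.la.h.A1_mul]
    exact h9
  have h1 := l9_rank_U1 h
  omega

private theorem l9_case3 (hb : eval pb (t 4) = 0) (hz : eval pz (t 4) = 0) :
    PC t lam lam' mu c b m al := by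
  have h2 := h.two
  have hd : dr pz pa (t 4) ≠ 0 := by
    intro hd
    exact t_notMem_of_out (l9_Cb4 h) ⟨h.fl.mem 4, mem_Jb.2 ⟨h.fl.mem_H 4, hb, hz, hd⟩⟩
  have hk : (nb K t 4 (out K t (V K t 4 ⊔ dv lam))).card = 1 := by
    have h1 := l9_rank_Cb h
    have h3 : cubics K ⊓ Jb K 3 ⊔ A K t 4 = cubics K ⊓ IP pz 3 := by
      ext a
      rw [l9_mem_Cb h, mem_inf, mem_IP]
      constructor
      · rintro ⟨h4, -, -, h5⟩
        rw [hz, mul_zero, add_zero] at h5
        exact ⟨h4, cubics_le h4, (mul_eq_zero.1 h5).resolve_right hd⟩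
      · rintro ⟨h4, -, h5⟩
        refine ⟨h4, by rw [hb, mul_zero], by rw [hz, mul_zero], by rw [h5, hz, mul_zero, zero_mul, add_zero]⟩
    rw [h3, finrank_pt (l9_pz_ne (K := K))] at h1
    omega
  have hrl := l9_rs_lam hl
  have hq : eval ![-al, al, 2] (t 4) = 0 := by
    by_contra hq
    have h1 := l9_rank_U2 h
    have h3 : finrank K ↥(dv mu ⊔ V K t 4 ⊔ A K t 4) ≤ 7 := by
      refine l9_le7 (l9_pz_q h2 al) ?_
      intro a ha
      obtain ⟨h4, h5⟩ := (l9_mem_U2 h).1 ha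
      have hH : a * t 4 ∈ H K 6 := mul_mem_H (cubics_le h4) (h.fl.mem_H 4)
      have h6 := mul_eval (l9_U2_q h hl) h5
      rw [map_mul] at h6
      obtain ⟨g, hg, h7⟩ := (h.mem_U2W hH).1 h5
      rw [hrl] at h7
      have c1 : (rs pz pa (a * t 4)).coeff 1 = 0 := by
        rw [h7]
        have e : (Polynomial.C 2 + Polynomial.C al * Polynomial.X) * Polynomial.X ^ 2 * g =
            Polynomial.X ^ 2 * ((Polynomial.C 2 + Polynomial.C al * Polynomial.X) * g) := by ring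
        rw [e, Polynomial.coeff_X_pow_mul', if_neg (by norm_num)]
      rw [← dr_apply, dr_mul, hz, mul_zero, add_zero] at c1
      exact ⟨h4, (mul_eq_zero.1 c1).resolve_right hd, (mul_eq_zero.1 h6).resolve_right hq⟩
    omega
  refine ⟨h, hl, hb, hz, hd, hq, hk, ?_⟩
  rw [l9_q] at hq
  obtain ⟨g, hg, hrs⟩ := rs_root pz pa (h.fl.mem_H 4) (Or.inr h2) hq
  have e0 := rs_coeff_zero pz pa (t 4)
  rw [hz] at e0
  have g0 : g.coeff 0 = 0 := by
    rw [hrs] at e0
    simp at e0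
    exact e0.resolve_left h2
  obtain ⟨g', hg', rfl⟩ := l9_X hg g0
  have hH : t 4 * t 4 ∈ H K 6 := mul_mem_H (h.fl.mem_H 4) (h.fl.mem_H 4)
  refine h.fl.g2 h.U2_le h.ll_U2 (l9_tin h) (l9_tin h) (l9_U24 h) (l9_U24 h) ?_
  rw [h.mem_U2W hH]
  refine ⟨(Polynomial.C 2 + Polynomial.C al * Polynomial.X) * (g' * g'), ?_, ?_⟩
  · refine Polynomial.natDegree_mul_le.trans ?_
    have e1 : (Polynomial.C 2 + Polynomial.C al * Polynomial.X : Polynomial K).natDegree ≤ 1 := by
      rw [add_comm]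
      exact Polynomial.natDegree_linear_le
    have e2 : (g' * g').natDegree ≤ 2 := Polynomial.natDegree_mul_le.trans (by omega)
    omega
  · rw [map_mul, hrs, hrl, Polynomial.C_neg]
    ring

end

theorem PB.exists_PC (h : PB t lam lam' mu c b m) {al : K} (hl : lam = X 0 - X 1 + C al * X 2) :
    PC t lam lam' mu c b m al := by
  have h2 := h.two
  obtain ⟨s, e1, e2, e3⟩ := l9_star h hl
  by_cases hb : eval pb (t 4) = 0
  · by_cases hz : eval pz (t 4) = 0
    · exact l9_case3 h hl hb hz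
    · have hs : s = -1 := by
        have e4 := (mul_eq_zero.1 e2).resolve_left hz
        linear_combination - e4
      rw [hs] at e3
      have e5 : eval pz (t 4) * al = 0 := by linear_combination e3
      exact (l9_case2 h hl hb hz ((mul_eq_zero.1 e5).resolve_left hz)).elim
  · have hs : s = 1 := by
      have e4 := (mul_eq_zero.1 e1).resolve_left hb
      linear_combination - e4
    rw [hs] at e2 e3
    have hz : eval pz (t 4) = 0 := by
      have e5 : (2 : K) * eval pz (t 4) = 0 := by linear_combination - e2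
      exact (mul_eq_zero.1 e5).resolve_left h2
    have hd : dr pz pa (t 4) = 0 := by
      rw [hz] at e3
      have e5 : (2 : K) * dr pz pa (t 4) = 0 := by linear_combination - e3
      exact (mul_eq_zero.1 e5).resolve_left h2
    exact (l9_case1 h hl hb hz hd).elim

end Pool.Agent.BR
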