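import Pool.Agent.Work.MP_be705b_al.II.L5
import Pool.Agent.Work.MP_be705b_al.II.L6
import Pool.Agent.Work.MP_be705b_al.II.L8
import Pool.Agent.Work.MP_be705b_al.II.L9
import Pool.Agent.Work.MP_be705b_al.II.L10

set_option autoImplicit false
set_option linter.unusedSectionVars false
set_option linter.unusedVariables false

/-!
# MP_be705b_al, type II: Lemma A
-/

namespace Pool.Agent.BR

open Submodule Module MvPolynomial

variable {K : Type*} [Field K] {t : Fin 9 → Pol K} {lam lam' mu c : Pol K}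

/-- Lemma A at `pa` -/
theorem LA.false_pa (h : LA t pa lam lam' mu c) : False := by
  obtain ⟨b, m, hb⟩ := h.exists_LB
  obtain ⟨v, r, hP⟩ := hb.exists_PA
  exact hb.false_pa hP

/-- Lemma A at `pb` -/
theorem LA.false_pb (h : LA t pb lam lam' mu c) (hm : mu = X 0 + X 1) (two : (2 : K) ≠ 0)
    (hl : lam = X 2 ∨ ∃ al : K, lam = X 0 - X 1 + C al * X 2) : False := by
  obtain ⟨b, m, hb⟩ := h.exists_LB
  have hB : PB t lam lam' mu c b m := ⟨hb, hm, two⟩
  rcases hl with hl | ⟨al, hl⟩
  · exact hB.false_z hl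
  · exact PC.false ⟨al, hB.exists_PC hl⟩

end Pool.Agent.BR
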