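import Pool.Agent.Work.MP_be705b_al.II.TB2
import Pool.Agent.Work.MP_be705b_al.II.A_alpha
import Pool.Agent.Work.MP_be705b_al.II.A_beta
import Pool.Agent.Work.MP_be705b_al.II.A_beta1
import Pool.Agent.Work.MP_be705b_al.II.C1b
import Pool.Agent.Work.MP_be705b_al.II.D3
import Pool.Agent.Work.MP_be705b_al.II.L11
import Pool.Agent.Work.MP_be705b_al.II.BBFin
import Pool.Agent.Work.MP_be705b_al.T2Norm

set_option autoImplicit false
set_option linter.unusedSectionVars false
set_option linter.unusedVariables false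

/-!
# MP_be705b_al, type II: the final assembly, `T2.false`
-/

namespace Pool.Agent.BR

open Submodule Module MvPolynomial

variable {K : Type*} [Field K] {t : Fin 9 → Pol K} {p : Fin 3 → K} {lam lam' mu del del2 : Pol K}
  {a b m : Fin 9}

/-- case 1b, up to Lemma A -/
theorem TB.to_LA (h : TB t p lam lam' mu del) (hpa : eval p mu = 0 → p = pa) :
    ∃ c, LA t p lam lam' mu c := by
  obtain ⟨a, b, m, hv⟩ := h.exists_TV
  by_cases h3 : (3 : Fin 9) ∈ out K t (dv lam)
  · exfalso
    obtain ⟨del2, hc⟩ := hv.beta h3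
    by_cases h0 : eval p del2 = 0
    · exact hc.beta1 h0 hpa
    · exact hc.beta2 h0 hpa
  · rw [notMem_out, hv.iD] at h3
    simp only [Finset.mem_insert, Finset.mem_singleton] at h3
    rcases h3 with h3 | h3 | h3 | h3 | h3
    · exact absurd h3 (by decide)
    · exact absurd h3 (by decide)
    · exact hv.alpha (Or.inl h3)
    · exact hv.alpha (Or.inr h3)
    · exact absurd h3 hv.ne_m

theorem TII.to_LA (h : TII t p lam lam' mu) (hpa : eval p mu = 0 → p = pa) :
    ∃ c, LA t p lam lam' mu c := by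
  rcases h.cases with h3 | ⟨del, hB⟩
  · obtain ⟨b, m, hC⟩ := h.exists_CC h3
    by_cases hm : eval p mu = 0
    · exact ⟨_, hC.la0 hm⟩
    · exact hC.la1 hm
  · exact hB.to_LA hpa

theorem TII.false_pa (h : TII t pa lam lam' mu) : False := by
  obtain ⟨c, hc⟩ := h.to_LA (fun _ => rfl)
  exact hc.false_pa

theorem TII.false_pb (h : TII t pb lam lam' mu) (hm : mu = X 0 + X 1) (two : (2 : K) ≠ 0)
    (hl : lam = X 2 ∨ ∃ al : K, lam = X 0 - X 1 + C al * X 2) : False := by
  obtain ⟨c, hc⟩ := h.to_LA (fun h0 => by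
    exfalso
    rw [hm] at h0
    simp only [map_add, eval_X, pb, Matrix.cons_val_zero, Matrix.cons_val_one] at h0
    apply two
    rw [← h0]
    norm_num)
  exact hc.false_pb hm two hl

theorem eval_pa_lin {l : Pol K} (hl : l ∈ H K 1) : eval pa l = lc l 2 := by
  conv_lhs => rw [← lin_lc hl]
  simp [lin, pa]

theorem eval_pb_lin {l : Pol K} (hl : l ∈ H K 1) : eval pb l = lc l 0 + lc l 1 := by
  conv_lhs => rw [← lin_lc hl]
  simp [lin, pb]

/-- type II is impossible -/
theorem T2.false {a b m : Pol K} (h : T2 t a b m) : False := by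
  rcases t2norm h with ⟨t', a', b', m', hP⟩ | ⟨t', a', b', m', hP⟩
  · refine (tii_pa hP.toT2 ?_ ?_).false_pa
    · rw [eval_pa_lin hP.ha, hP.a2]
    · rw [eval_pa_lin hP.hb, hP.b2]
  · refine (tii_pb hP.two hP.toT2 ?_ ?_).false_pb hP.meq hP.two hP.an
    · rcases hP.an with e | ⟨al, e⟩
      · rw [e]
        simp [pb]
      · rw [e]
        simp [pb]
    · rw [eval_pb_lin hP.hb, hP.b01]

end Pool.Agent.BR
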