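import Pool.Agent.Work.MP_be705b_al.Graph

set_option autoImplicit false
set_option linter.unusedSectionVars false
set_option linter.unusedVariables false

/-!
# MP_be705b_al, type II, module Gr (S-M): small graph lemmas

All by `cl_erase` (`cl (d+1) S = cl d (nb v S) + cl (d+1) (S \ {v})`) and counting; `cl 1 S = card S`, `cl_mono`, `cl_empty`; or by
`cl2_bits`, `cl3_bits`, `decide` of Graph.lean (for two or three named vertices; `Finset.card_eq_two`, `Finset.card_eq_three`).

* `gr_pair`: on two vertices, `cl 2 = 3` means both are loops and adjacent, so `cl 3 = 4`.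
* `gr_bm`: if `b` is a loop, `nb b S = {b, u, v}` and `cl 2 (nb b S) = 3 + cl 2 {u, v} ≥ 3 + 1` because `c` is a loop in `{u, v}`
  (`nb b (nb b S) = nb b S`).  So `b` is no loop.  If `m ∈ nb b S` then `m ≠ b` and `m` has no neighbour in `S \ {b} ⊇ nb b S`, so
  `cl 2 (nb b S \ {m}) = 3`, `cl 3 (nb b S \ {m}) = 3` with two vertices: contradiction to `gr_pair`.
* `gr_iso`: `T` has three vertices, `cl 2 = cl 3 = 3`, then no vertex of `T` is isolated without loop (same argument).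
* `gr_full`: `T` has three vertices, `cl 2 = cl 3 = 3`, `b ∈ T` no loop, then `b` is not adjacent to both of the others `u, v`
  (else `cl 2 {u, v} = 1`, `cl 3 T = cl 2 {u, v} + cl 3 {u, v} = 1 + cl 3 {u, v}`, `cl 3 {u, v} ≤ 1`).
* `gr_four`: `S = {b} ∪ M`, `card M = 3`, `cl 2 M = 2`, `card (nb b S) = 3`, `cl 2 (nb b S) = 3`, `c ≠ b` a loop in `nb b S`: impossible.
  (If `b` is a loop: `cl 2 (nb b S) ≥ 3 + 1`.  Else `nb b S = M`.)
* `gr_tri`: three vertices `b, m, c`, `cl 2 = cl 3 = 3`, `c` a loop, `m` no loop, `m` and `c` not adjacent: then `b` is a loop, adjacent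
  to `m`, not adjacent to `c`.
* `gr_loop`: three vertices, `cl 2 = cl 3 = 3`, `c` is the only loop: then `c` is adjacent to the other two, which are not adjacent.
-/

namespace Pool.Agent.BR

variable {K : Type*} {P : Type*} [Field K] [CommRing P] [IsDomain P] [Algebra K P] {n : ℕ}
  {t : Fin n → P}

theorem gr_pair {S : Finset (Fin n)} (h1 : S.card = 2) (h2 : cl K t 2 S = 3) : cl K t 3 S = 4 := by
  obtain ⟨a, b, hab, rfl⟩ := Finset.card_eq_two.1 h1
  rw [cl2_bits hab] at h2 ⊢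
  generalize adjB K t a a = x1 at *
  generalize adjB K t a b = x2 at *
  generalize adjB K t b b = x3 at *
  clear h1
  revert x1 x2 x3
  decide

/-- `b` is a loop with three neighbours, another neighbour is a loop: at least four edges -/
private theorem gr_aux1 {S : Finset (Fin n)} {b c : Fin n} (hb : b ∈ S)
    (h1 : (nb K t b S).card = 3) (hc : c ∈ nb K t b S) (hcb : c ≠ b) (hloop : Adj K t c c)
    (hbl : Adj K t b b) : 4 ≤ cl K t 2 (nb K t b S) := by
  have hb' : b ∈ nb K t b S := mem_nb.2 ⟨hb, hbl⟩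
  have e1 : cl K t 2 _ = cl K t 1 _ + cl K t 2 _ := cl_erase (K := K) (t := t) 1 hb'
  have e2 : nb K t b (nb K t b S) = nb K t b S := by
    ext u
    simp only [mem_nb]
    tauto
  have hc' : c ∈ (nb K t b S).erase b := Finset.mem_erase.2 ⟨hcb, hc⟩
  have e3 : cl K t 2 _ = cl K t 1 _ + cl K t 2 _ := cl_erase (K := K) (t := t) 1 hc'
  have hc'' : c ∈ nb K t c ((nb K t b S).erase b) := mem_nb.2 ⟨hc', hloop⟩
  have e4 := Finset.card_pos.2 ⟨c, hc''⟩
  rw [e2, cl_one, h1] at e1
  rw [cl_one] at e3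
  omega

private theorem gr_aux2 {S : Finset (Fin n)} {m : Fin n} (h1 : S.card = 3) (h2 : cl K t 2 S = 3)
    (h3 : cl K t 3 S = 3) (hm : m ∈ S) (hiso : nb K t m S = ∅) : False := by
  have e1 : cl K t 2 _ = cl K t 1 _ + cl K t 2 _ := cl_erase (K := K) (t := t) 1 hm
  have e2 : cl K t 3 _ = cl K t 2 _ + cl K t 3 _ := cl_erase (K := K) (t := t) 2 hm
  rw [hiso, cl_empty, h2, zero_add] at e1
  rw [hiso, cl_empty, h3, zero_add] at e2
  have e3 := gr_pair (K := K) (t := t) (S := S.erase m) (by rw [Finset.card_erase_of_mem hm, h1]) e1.symm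
  omega

theorem gr_bm {S : Finset (Fin n)} {b m c : Fin n} (hb : b ∈ S) (h1 : (nb K t b S).card = 3)
    (h2 : cl K t 2 (nb K t b S) = 3) (h3 : cl K t 3 (nb K t b S) = 3)
    (hiso : nb K t m (S.erase b) = ∅) (hc : c ∈ nb K t b S) (hcb : c ≠ b) (hloop : Adj K t c c) :
    ¬ Adj K t b b ∧ m ∉ nb K t b S := by
  have hbl : ¬ Adj K t b b := by
    intro hbl
    have := gr_aux1 hb h1 hc hcb hloop hbl
    omega
  refine ⟨hbl, fun hm => ?_⟩
  refine gr_aux2 h1 h2 h3 hm ?_
  rw [Finset.eq_empty_iff_forall_notMem] at hiso ⊢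
  intro u hu
  obtain ⟨hu1, hu2⟩ := mem_nb.1 hu
  obtain ⟨hu3, hu4⟩ := mem_nb.1 hu1
  refine hiso u (mem_nb.2 ⟨Finset.mem_erase.2 ⟨?_, hu3⟩, hu2⟩)
  rintro rfl
  exact hbl hu4

theorem gr_iso {S : Finset (Fin n)} {m : Fin n} (h1 : S.card = 3) (h2 : cl K t 2 S = 3)
    (h3 : cl K t 3 S = 3) (hm : m ∈ S) (hiso : nb K t m S = ∅) : False :=
  gr_aux2 h1 h2 h3 hm hiso

private theorem three_of {S : Finset (Fin n)} {b : Fin n} (h1 : S.card = 3) (hb : b ∈ S) :
    ∃ u v, b ≠ u ∧ b ≠ v ∧ u ≠ v ∧ S = {b, u, v} := by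
  have h2 : (S.erase b).card = 2 := by rw [Finset.card_erase_of_mem hb, h1]
  obtain ⟨u, v, huv, h3⟩ := Finset.card_eq_two.1 h2
  have hu : u ∈ S.erase b := by rw [h3]; simp
  have hv : v ∈ S.erase b := by rw [h3]; simp
  refine ⟨u, v, (Finset.ne_of_mem_erase hu).symm, (Finset.ne_of_mem_erase hv).symm, huv, ?_⟩
  rw [← h3, Finset.insert_erase hb]

theorem gr_full {S : Finset (Fin n)} {b : Fin n} (h1 : S.card = 3) (h2 : cl K t 2 S = 3)
    (h3 : cl K t 3 S = 3) (hb : b ∈ S) (hl : ¬ Adj K t b b) (hf : S.erase b ⊆ nb K t b S) : False := by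
  obtain ⟨u, v, hbu, hbv, huv, rfl⟩ := three_of h1 hb
  have a1 : Adj K t b u := (mem_nb.1 (hf (Finset.mem_erase.2 ⟨hbu.symm, by simp⟩))).2
  have a2 : Adj K t b v := (mem_nb.1 (hf (Finset.mem_erase.2 ⟨hbv.symm, by simp⟩))).2
  rw [cl3_bits hbu hbv huv] at h2 h3
  rw [← adjB_false] at hl
  rw [← adjB_true] at a1 a2
  rw [hl, a1, a2] at h2 h3
  clear hl a1 a2 hf hb h1
  generalize adjB K t u u = x1 at *
  generalize adjB K t u v = x2 at *
  generalize adjB K t v v = x3 at *
  revert x1 x2 x3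
  decide

theorem gr_four {S : Finset (Fin n)} {b c : Fin n} (hb : b ∈ S) (hM : (S.erase b).card = 3)
    (hM2 : cl K t 2 (S.erase b) = 2) (h1 : (nb K t b S).card = 3) (h2 : cl K t 2 (nb K t b S) = 3)
    (hc : c ∈ nb K t b S) (hcb : c ≠ b) (hloop : Adj K t c c) : False := by
  by_cases hbl : Adj K t b b
  · have := gr_aux1 hb h1 hc hcb hloop hbl
    omega
  · have h3 : nb K t b S ⊆ S.erase b := by
      intro u hu
      obtain ⟨hu1, hu2⟩ := mem_nb.1 hu
      refine Finset.mem_erase.2 ⟨?_, hu1⟩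
      rintro rfl
      exact hbl hu2
    have h4 := Finset.eq_of_subset_of_card_le h3 (by rw [hM, h1])
    rw [h4] at h2
    omega

theorem gr_tri {S : Finset (Fin n)} {b m c : Fin n} (hS : S = {b, m, c}) (hbm : b ≠ m) (hbc : b ≠ c)
    (hmc : m ≠ c) (h2 : cl K t 2 S = 3) (h3 : cl K t 3 S = 3) (hc : Adj K t c c)
    (hm : ¬ Adj K t m m) (hm' : ¬ Adj K t m c) : Adj K t b b ∧ Adj K t b m ∧ ¬ Adj K t b c := by
  subst hS
  rw [cl3_bits hbm hbc hmc] at h2 h3
  rw [← adjB_false] at hm hm'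
  rw [← adjB_true] at hc
  rw [hm, hm', hc] at h2 h3
  rw [← adjB_true, ← adjB_true, ← adjB_false]
  clear hm hm' hc
  generalize adjB K t b b = x1 at *
  generalize adjB K t b m = x2 at *
  generalize adjB K t b c = x3 at *
  revert x1 x2 x3
  decide

theorem gr_loop {S : Finset (Fin n)} {c : Fin n} (h1 : S.card = 3) (h2 : cl K t 2 S = 3)
    (h3 : cl K t 3 S = 3) (hc : c ∈ S) (hl : ∀ v ∈ S, Adj K t v v → v = c) (hc' : Adj K t c c) :
    (∀ v ∈ S, Adj K t c v) ∧ ∀ v ∈ S, ∀ w ∈ S, v ≠ c → w ≠ c → ¬ Adj K t v w := by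
  obtain ⟨u, v, hcu, hcv, huv, rfl⟩ := three_of h1 hc
  have hu : ¬ Adj K t u u := fun h => hcu (hl u (by simp) h).symm
  have hv : ¬ Adj K t v v := fun h => hcv (hl v (by simp) h).symm
  have key : adjB K t c u = true ∧ adjB K t c v = true ∧ adjB K t u v = false := by
    rw [cl3_bits hcu hcv huv] at h2 h3
    rw [← adjB_false] at hu hv
    rw [← adjB_true] at hc'
    rw [hu, hv, hc'] at h2 h3
    clear hu hv hc' hl h1 hc
    generalize adjB K t c u = x1 at *
    generalize adjB K t c v = x2 at *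
    generalize adjB K t u v = x3 at *
    revert x1 x2 x3
    decide
  rw [adjB_true, adjB_true, adjB_false] at key
  obtain ⟨k1, k2, k3⟩ := key
  constructor
  · intro w hw
    simp only [Finset.mem_insert, Finset.mem_singleton] at hw
    rcases hw with rfl | rfl | rfl
    · exact hc'
    · exact k1
    · exact k2
  · intro x hx w hw hxc hwc
    simp only [Finset.mem_insert, Finset.mem_singleton] at hx hw
    rcases hx with rfl | rfl | rfl
    · exact absurd rfl hxc
    · rcases hw with rfl | rfl | rfl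
      · exact absurd rfl hwc
      · exact hu
      · exact k3
    · rcases hw with rfl | rfl | rfl
      · exact absurd rfl hwc
      · exact fun h => k3 (adj_symm h)
      · exact hv

end Pool.Agent.BR
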