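import Pool.Agent.Work.MP_be705b_al.II.TDefs

set_option autoImplicit false
set_option linter.unusedSectionVars false
set_option linter.unusedVariables false

/-!
# MP_be705b_al, type II, Lemma A, module L1 (M): dimensions for `V 4 = lam * Ph p + c`

PROOFS.
* `cancel`: `f ∈ H 5`, `lam * f ∈ V 4 * cubics = lam * (Ph p * cubics) + c * cubics`: `lam f = lam g + c w`, so `lam ∣ w` (`lam ∤ c`),
  `w = lam ε`, `ε ∈ KK lam` (`mem_KK'`), `f = g + ε c ∈ Ph p * cubics` (`ck`).  The converse is clear.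
* `cancel8`: the same with `f ∈ H 8`, `V 4 * H 6`, `w = lam ε`, `ε ∈ H 5 = KK lam * cubics` (`KK_mul`), `ε c ∈ Ph p * cubics * cubics = Ph p * H 6`.
  `cancel11`: `f ∈ H 11`, `V 4 * H 9`.
* `c ∉ mulS lam (Ph p)`; `finrank (V 4 * cubics)`: `(lam Ph) * cubics + c * cubics`, intersection `{c w | lam ∣ w} = c * dv lam` (`ck`): `18 + 9 - 5 = 22`;
  `V 4 * H 6`: `42 + 28 - 21 = 49`; `V 4 * H 9`: `75 + 55 - 45 = 85` (`TII.f1, f2, f3`, `finrank_mulS`).  So the cliques of `out (V 4)` are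
  `5, 6, 6, 6` (`Fl.cl1 .. cl4`).
* `V 4 ⊔ A 1 = mulS lam (Fp p) ⊔ span {c} ∈ LL` (`Fl.llSupV`, `A 1 ∈ LL`): products `lam H 5 + c * cubics`: `21 + 9 - 5 = 25`; `45 + 28 - 21 = 52`;
  `78 + 55 - 45 = 88`: cliques `4, 3, 3, 3`.  `V 4 ⊔ dv lam`: dimension `5 + 1`, card `3`, and the products are the same as for `V 4 ⊔ A 1`
  (`KK_mul`, `Fp_mul`), cliques `3, 3, 3, 3`.
-/

namespace Pool.Agent.BR

open Submodule Module MvPolynomial

variable {K : Type*} [Field K] {t : Fin 9 → Pol K} {p : Fin 3 → K} {lam lam' mu c : Pol K}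

/-! ### auxiliary lemmas -/

private theorem l1_cancel {lam c : Pol K} (hl : lam ∈ H K 1) (h0 : lam ≠ 0) (nd : ¬ lam ∣ c)
    {X S : Submodule K (Pol K)}
    (hS : ∀ ε, lam * ε ∈ S → ε * c ∈ X * S) (f : Pol K) :
    lam * f ∈ (mulS lam X ⊔ span K {c}) * S ↔ f ∈ X * S := by
  rw [Submodule.sup_mul, mulS_mul, span_mul_eq']
  constructor
  · intro hf
    obtain ⟨x, hx, y, hy, hxy⟩ := mem_sup.1 hf
    obtain ⟨g, hg, rfl⟩ := mem_mulS.1 hx
    obtain ⟨w, hw, rfl⟩ := mem_mulS.1 hy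
    have h1 : lam ∣ c * w := ⟨f - g, by linear_combination hxy⟩
    obtain ⟨ε, rfl⟩ := ((prime_lin hl h0).dvd_or_dvd h1).resolve_left nd
    have h2 : f = g + ε * c := by
      apply mul_left_cancel₀ h0
      linear_combination -hxy
    rw [h2]
    exact add_mem hg (hS ε hw)
  · intro hf
    exact mem_sup_left (mul_mem_mulS hf)

private theorem l1_dim {lam c : Pol K} (hl : lam ∈ H K 1) (h0 : lam ≠ 0) (nd : ¬ lam ∣ c)
    {Z S E : Submodule K (Pol K)} [Module.Finite K ↥Z] [Module.Finite K ↥S]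
    (hE : ∀ ε, lam * ε ∈ S ↔ ε ∈ E) (hZ : ∀ ε ∈ E, ε * c ∈ Z) :
    finrank K ↥(mulS lam Z ⊔ mulS c S) + finrank K ↥E = finrank K ↥Z + finrank K ↥S := by
  have hc0 : c ≠ 0 := by
    rintro rfl
    exact nd (dvd_zero _)
  have i1 : Module.Finite K ↥(mulS lam Z) := Module.Finite.map _ _
  have i2 : Module.Finite K ↥(mulS c S) := Module.Finite.map _ _
  have h1 := Submodule.finrank_sup_add_finrank_inf_eq (mulS lam Z) (mulS c S)
  have h2 : mulS lam Z ⊓ mulS c S = mulS (c * lam) E := by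
    ext x
    rw [mem_inf, mem_mulS, mem_mulS, mem_mulS]
    constructor
    · rintro ⟨⟨z, hz, rfl⟩, w, hw, he⟩
      have h3 : lam ∣ c * w := ⟨z, he⟩
      obtain ⟨ε, rfl⟩ := ((prime_lin hl h0).dvd_or_dvd h3).resolve_left nd
      refine ⟨ε, (hE ε).1 hw, ?_⟩
      rw [← he]
      ring
    · rintro ⟨ε, hε, rfl⟩
      refine ⟨⟨ε * c, hZ ε hε, by ring⟩, lam * ε, (hE ε).2 hε, by ring⟩
  rw [h2, finrank_mulS (mul_ne_zero hc0 h0), finrank_mulS h0, finrank_mulS hc0] at h1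
  exact h1

private theorem l1_E {lam : Pol K} (hl : lam ∈ H K 1) (h0 : lam ≠ 0) (d : ℕ) (ε : Pol K) :
    lam * ε ∈ H K (1 + d) ↔ ε ∈ H K d := by
  constructor
  · intro h
    obtain ⟨κ, hκ, he⟩ := exists_quot (a := 1) (b := d) hl h0 h (dvd_mul_right _ _)
    rwa [← mul_left_cancel₀ h0 he] at hκ
  · intro h
    exact mul_mem_H hl h

private theorem l1_KK {lam : Pol K} (hl : lam ∈ H K 1) (h0 : lam ≠ 0) (ε : Pol K) :
    lam * ε ∈ cubics K ↔ ε ∈ KK lam := by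
  rw [mem_KK' hl]
  constructor
  · intro h
    exact ⟨(l1_E hl h0 2 ε).1 (cubics_le h), h⟩
  · exact fun h => h.2

private theorem l1_fincub : Module.Finite K ↥(cubics K) := Submodule.finiteDimensional_of_le cubics_le

/-- dimension of the sum of `mulS lam X` and `c`, `lam` does not divide `c` -/
private theorem l1_dim1 {lam c : Pol K} (h0 : lam ≠ 0) (nd : ¬ lam ∣ c)
    {X : Submodule K (Pol K)} [Module.Finite K ↥X] :
    finrank K ↥(mulS lam X ⊔ span K {c}) = finrank K ↥X + 1 := by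
  have hc0 : c ≠ 0 := by
    rintro rfl
    exact nd (dvd_zero _)
  have i1 : Module.Finite K ↥(mulS lam X) := Module.Finite.map _ _
  have h1 := Submodule.finrank_sup_add_finrank_inf_eq (mulS lam X) (span K {c})
  have h2 : mulS lam X ⊓ span K {c} = ⊥ := by
    rw [eq_bot_iff]
    intro x hx
    obtain ⟨h3, h4⟩ := mem_inf.1 hx
    obtain ⟨u, _, hu⟩ := mem_mulS.1 h3
    obtain ⟨a, ha⟩ := mem_span_singleton.1 h4
    rw [mem_bot]
    by_cases ha0 : a = 0
    · rw [← ha, ha0, zero_smul]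
    · exfalso
      apply nd
      refine ⟨a⁻¹ • u, ?_⟩
      rw [mul_smul_comm, hu, ← ha, smul_smul, inv_mul_cancel₀ ha0, one_smul]
  rw [h2, finrank_bot, add_zero, finrank_mulS h0, finrank_span_singleton hc0] at h1
  exact h1

namespace LA

theorem fl (h : LA t p lam lam' mu c) : Fl t := h.h.t2.fl

theorem c_mem (h : LA t p lam lam' mu c) : c ∈ V K t 4 := by
  rw [h.v4]
  exact mem_sup_right (mem_span_singleton_self _)

theorem ph_le (h : LA t p lam lam' mu c) : mulS lam (Ph p) ≤ V K t 4 := by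
  rw [h.v4]
  exact le_sup_left

/-- `H 5 * c` -/
private theorem z5 (h : LA t p lam lam' mu c) {ε : Pol K} (hε : ε ∈ H K 5) :
    ε * c ∈ Ph p * H K 6 := by
  rw [← KK_mul h.h.t2.ha h.h.L0] at hε
  refine Submodule.mul_induction_on hε ?_ ?_
  · intro κ hκ x hx
    have h1 := h.ck κ hκ
    have h2 : κ * x * c = (κ * c) * x := by ring
    rw [h2, ← cubics_mul_cubics, ← mul_assoc]
    exact mul_mem_mul h1 hx
  · intro x y hx hy
    rw [add_mul]
    exact add_mem hx hy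

/-- `H 8 * c` -/
private theorem z8 (h : LA t p lam lam' mu c) {ε : Pol K} (hε : ε ∈ H K 8) :
    ε * c ∈ Ph p * H K 9 := by
  rw [← KK_mul6 h.h.t2.ha h.h.L0] at hε
  refine Submodule.mul_induction_on hε ?_ ?_
  · intro κ hκ x hx
    have h1 := h.ck κ hκ
    have h2 : κ * x * c = (κ * c) * x := by ring
    have h3 : cubics K * H K 6 = H K 9 := cubics_mul_H 5
    rw [h2, ← h3, ← mul_assoc]
    exact mul_mem_mul h1 hx
  · intro x y hx hy
    rw [add_mul]
    exact add_mem hx hy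

theorem cancel (h : LA t p lam lam' mu c) {f : Pol K} (hf : f ∈ H K 5) :
    lam * f ∈ V K t 4 * cubics K ↔ f ∈ Ph p * cubics K := by
  rw [h.v4]
  exact l1_cancel h.h.t2.ha h.h.L0 h.nd
    (fun ε hε => h.ck ε ((l1_KK h.h.t2.ha h.h.L0 ε).1 hε)) f

theorem cancel8 (h : LA t p lam lam' mu c) {f : Pol K} (hf : f ∈ H K 8) :
    lam * f ∈ V K t 4 * H K 6 ↔ f ∈ Ph p * H K 6 := by
  rw [h.v4]
  exact l1_cancel h.h.t2.ha h.h.L0 h.nd
    (fun ε hε => z5 h ((l1_E h.h.t2.ha h.h.L0 5 ε).1 hε)) f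

theorem cancel11 (h : LA t p lam lam' mu c) {f : Pol K} (hf : f ∈ H K 11) :
    lam * f ∈ V K t 4 * H K 9 ↔ f ∈ Ph p * H K 9 := by
  rw [h.v4]
  exact l1_cancel h.h.t2.ha h.h.L0 h.nd
    (fun ε hε => z8 h ((l1_E h.h.t2.ha h.h.L0 8 ε).1 hε)) f

private theorem fin_Ph (d : ℕ) {X : Submodule K (Pol K)} (hX : X ≤ H K d) :
    Module.Finite K ↥(Ph p * X) := by
  refine Submodule.finiteDimensional_of_le (S₂ := H K (2 + d)) ?_
  rw [← H_mul]
  exact mul_le_mul' ((inf_le_left : Ph p ≤ Fp p).trans (Fp_le p)) hX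

theorem out_V4 (h : LA t p lam lam' mu c) : (out K t (V K t 4)).card = 5 ∧
    cl K t 2 (out K t (V K t 4)) = 6 ∧ cl K t 3 (out K t (V K t 4)) = 6 ∧
    cl K t 4 (out K t (V K t 4)) = 6 := by
  have hl := h.h.t2.ha
  have h0 := h.h.L0
  have i0 := l1_fincub (K := K)
  have hU := h.fl.V_le 4
  have hL := h.fl.llV 4
  refine ⟨?_, ?_, ?_, ?_⟩
  · have h1 : out K t (V K t 4) = Finset.univ.filter fun i : Fin 9 => 4 ≤ (i : ℕ) := by
      ext i
      rw [h.fl.mem_out_V]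
      simp
    rw [h1]
    decide
  · have h1 := h.fl.cl2 hU hL
    have i1 := fin_Ph (p := p) 3 cubics_le
    have h2 := l1_dim (S := cubics K) (E := KK lam) (Z := Ph p * cubics K) hl h0 h.nd
      (l1_KK hl h0) h.ck
    rw [h.h.f1, finrank_KK hl h0, finrank_cubics] at h2
    have h3 : V K t 4 * cubics K = mulS lam (Ph p * cubics K) ⊔ mulS c (cubics K) := by
      rw [h.v4, Submodule.sup_mul, mulS_mul, span_mul_eq']
    rw [h3] at h1
    omega
  · have h1 := h.fl.cl3 hU hL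
    have i1 := fin_Ph (p := p) 6 (le_refl (H K 6))
    have h2 := l1_dim (S := H K 6) (E := H K 5) (Z := Ph p * H K 6) hl h0 h.nd
      (l1_E hl h0 5) (fun ε hε => z5 h hε)
    rw [h.h.f2, finrank_H5, finrank_H6] at h2
    have h3 : V K t 4 * H K 6 = mulS lam (Ph p * H K 6) ⊔ mulS c (H K 6) := by
      rw [h.v4, Submodule.sup_mul, mulS_mul, span_mul_eq']
    rw [h3] at h1
    omega
  · have h1 := h.fl.cl4 hU hL
    have i1 := fin_Ph (p := p) 9 (le_refl (H K 9))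
    have h2 := l1_dim (S := H K 9) (E := H K 8) (Z := Ph p * H K 9) hl h0 h.nd
      (l1_E hl h0 8) (fun ε hε => z8 h hε)
    rw [h.h.f3, finrank_H8, finrank_H9] at h2
    have h3 : V K t 4 * H K 9 = mulS lam (Ph p * H K 9) ⊔ mulS c (H K 9) := by
      rw [h.v4, Submodule.sup_mul, mulS_mul, span_mul_eq']
    rw [h3] at h1
    omega

theorem ll_A1 (h : LA t p lam lam' mu c) : LL K t (V K t 4 ⊔ A K t 1) := by
  rw [sup_comm]
  exact h.fl.llSupV (h.fl.A_le 1) (h.fl.llA 1) 4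

private theorem big (h : LA t p lam lam' mu c) {U X : Submodule K (Pol K)}
    (hU : U = mulS lam X ⊔ span K {c}) (hX3 : X * cubics K = H K 5) (hX6 : X * H K 6 = H K 8)
    (hX9 : X * H K 9 = H K 11) (hUW : U ≤ cubics K) (hL : LL K t U) :
    cl K t 2 (out K t U) = 3 ∧ cl K t 3 (out K t U) = 3 ∧ cl K t 4 (out K t U) = 3 := by
  have hl := h.h.t2.ha
  have h0 := h.h.L0
  have i0 := l1_fincub (K := K)
  refine ⟨?_, ?_, ?_⟩
  · have h1 := h.fl.cl2 hUW hL
    have h2 := l1_dim (S := cubics K) (E := KK lam) (Z := H K 5) hl h0 h.nd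
      (l1_KK hl h0) (fun ε hε => mul_mem_H (a := 2) (b := 3) (KK_le _ hε) (cubics_le h.hc))
    rw [finrank_H5, finrank_KK hl h0, finrank_cubics] at h2
    have h3 : U * cubics K = mulS lam (H K 5) ⊔ mulS c (cubics K) := by
      rw [hU, Submodule.sup_mul, mulS_mul, span_mul_eq', hX3]
    rw [h3] at h1
    omega
  · have h1 := h.fl.cl3 hUW hL
    have h2 := l1_dim (S := H K 6) (E := H K 5) (Z := H K 8) hl h0 h.nd
      (l1_E hl h0 5) (fun ε hε => mul_mem_H (a := 5) (b := 3) hε (cubics_le h.hc))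
    rw [finrank_H8, finrank_H5, finrank_H6] at h2
    have h3 : U * H K 6 = mulS lam (H K 8) ⊔ mulS c (H K 6) := by
      rw [hU, Submodule.sup_mul, mulS_mul, span_mul_eq', hX6]
    rw [h3] at h1
    omega
  · have h1 := h.fl.cl4 hUW hL
    have h2 := l1_dim (S := H K 9) (E := H K 8) (Z := H K 11) hl h0 h.nd
      (l1_E hl h0 8) (fun ε hε => mul_mem_H (a := 8) (b := 3) hε (cubics_le h.hc))
    rw [finrank_H11, finrank_H8, finrank_H9] at h2
    have h3 : U * H K 9 = mulS lam (H K 11) ⊔ mulS c (H K 9) := by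
      rw [hU, Submodule.sup_mul, mulS_mul, span_mul_eq', hX9]
    rw [h3] at h1
    omega

theorem le_cubics (h : LA t p lam lam' mu c) : V K t 4 ⊔ A K t 1 ≤ cubics K :=
  sup_le (h.fl.V_le 4) (h.fl.A_le 1)

private theorem sup_eqA (h : LA t p lam lam' mu c) :
    V K t 4 ⊔ A K t 1 = mulS lam (Fp p) ⊔ span K {c} := by
  have h1 : mulS lam (Ph p) ≤ mulS lam (Fp p) := mulS_mono inf_le_left
  rw [h.v4, h.h.A1, sup_right_comm, sup_eq_right.2 h1]

private theorem sup_eqD (h : LA t p lam lam' mu c) :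
    V K t 4 ⊔ dv lam = mulS lam (KK lam) ⊔ span K {c} := by
  have h2 : Ph p ≤ KK lam := (inf_le_left : Ph p ≤ Fp p).trans (Fp_le_KK h.h.t2.ha h.h.lp)
  have h1 : mulS lam (Ph p) ≤ mulS lam (KK lam) := mulS_mono h2
  rw [h.v4, dv, sup_right_comm, sup_eq_right.2 h1]

theorem out_A1 (h : LA t p lam lam' mu c) : (out K t (V K t 4 ⊔ A K t 1)).card = 4 ∧
    cl K t 2 (out K t (V K t 4 ⊔ A K t 1)) = 3 ∧ cl K t 3 (out K t (V K t 4 ⊔ A K t 1)) = 3 ∧
    cl K t 4 (out K t (V K t 4 ⊔ A K t 1)) = 3 := by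
  refine ⟨?_, big h h.sup_eqA (Fp_mul h.h.p0) (Fp_mul6 h.h.p0) (Fp_mul9 h.h.p0) h.le_cubics h.ll_A1⟩
  have h1 := h.fl.cl1 h.le_cubics h.ll_A1
  have i1 : Module.Finite K ↥(Fp p) := Submodule.finiteDimensional_of_le (Fp_le p)
  rw [h.sup_eqA, l1_dim1 h.h.L0 h.nd, finrank_Fp h.h.p0] at h1
  rw [h.sup_eqA]
  omega

theorem ll_dv (h : LA t p lam lam' mu c) : LL K t (V K t 4 ⊔ dv lam) := by
  rw [sup_comm]
  exact h.fl.llSupV h.h.dv_le h.h.ll_dv 4

theorem out_dv (h : LA t p lam lam' mu c) : (out K t (V K t 4 ⊔ dv lam)).card = 3 ∧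
    cl K t 2 (out K t (V K t 4 ⊔ dv lam)) = 3 ∧ cl K t 3 (out K t (V K t 4 ⊔ dv lam)) = 3 ∧
    cl K t 4 (out K t (V K t 4 ⊔ dv lam)) = 3 := by
  have hl := h.h.t2.ha
  have h0 := h.h.L0
  have hle : V K t 4 ⊔ dv lam ≤ cubics K := sup_le (h.fl.V_le 4) h.h.dv_le
  refine ⟨?_, big h h.sup_eqD (KK_mul hl h0) (KK_mul6 hl h0) (KK_mul9 hl h0) hle h.ll_dv⟩
  have h1 := h.fl.cl1 hle h.ll_dv
  have i1 : Module.Finite K ↥(KK lam) := Submodule.finiteDimensional_of_le (KK_le lam)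
  rw [h.sup_eqD, l1_dim1 h0 h.nd, finrank_KK hl h0] at h1
  rw [h.sup_eqD]
  omega

/-- `V 4` vanishes at `p` -/
theorem V4_eval (h : LA t p lam lam' mu c) : ∀ u ∈ V K t 4, eval p u = 0 := by
  have hc : eval p c = 0 := by
    obtain ⟨κ, hκ, hκ0⟩ := exists_N_ne h.h.p0
    have h1 := mul_eval (fun u hu => Ph_eval hu) (h.ck κ (N_le_KK h.h.t2.ha hκ))
    rw [map_mul] at h1
    exact (mul_eq_zero.1 h1).resolve_left hκ0
  rw [h.v4]
  refine sup_eval ?_ ?_
  · intro u hu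
    obtain ⟨κ, _, rfl⟩ := mem_mulS.1 hu
    rw [map_mul, h.h.lp, zero_mul]
  · intro u hu
    obtain ⟨a, rfl⟩ := mem_span_singleton.1 hu
    rw [smul_eq_C_mul, map_mul, hc, mul_zero]

end LA

end Pool.Agent.BR
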