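import Pool.Agent.Work.MP_be705b_al.II.L1

set_option autoImplicit false
set_option linter.unusedSectionVars false
set_option linter.unusedVariables false

/-!
# MP_be705b_al, type II, Lemma A, module L2 (M): the vertices `b` and `m`

PROOF.  Write `S = out (V 4)` (5 elements), `S1 = out (V 4 ⊔ A 1)` (4), `S2 = out (V 4 ⊔ dv lam)` (3), `S2 ⊆ S1 ⊆ S`, so `S1 = S.erase b`,
`S2 = S1.erase m` with `b ∈ S`, `m ∈ S1`.
* `m` is the vertex of `exists_m`: `out (V 4 ⊔ A 1) = out (A 1) ∩ out (V 4)`, `out (V 4 ⊔ dv lam) = out (dv lam) ∩ out (V 4)` (`inn_sup_V`), and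
  `out (A 1) \ out (dv lam) = {m0}` with `nb m0 (out (A 1)) = ∅`; so `m = m0` and `nb m S1 = ∅`.
* counts at `b` (`cl_erase`): `cl d (nb b S) = cl (d+1) S - cl (d+1) S1`: `card (nb b S) = 6 - 3 = 3`, `cl 2 (nb b S) = 3`, `cl 3 (nb b S) = 3`.
* `c_* ∈ nb b S` by `TII.bstar` with `U = V 4`: if `a * (lam κ) ∈ V 4 * cubics`, `κ ∈ Fp p`, `κ (p) ≠ 0` then `a κ ∈ Ph p * cubics` (`LA.cancel`), so
  `a (p) κ (p) = 0`.  `c_* ≠ b`: `c_* ∈ S1` (`Fl.isC_out`, `V 4 ⊔ A 1` vanishes at `p`) and `b ∉ S1`.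
* `gr_bm` (module Gr): `b` is no loop and `m ∉ nb b S`.  So `nb b S ⊆ (S.erase b).erase m = S2` with 3 elements each: equal.
* `nb m S = ∅`: `m` is not adjacent to `b` and `nb m S1 = ∅`.
* `notC`: if `x ∈ cubics K` has initial vertex `i ∈ S2` then `x * κ ∉ Ph p * cubics` for `κ ∈ Fp p`, `κ (p) ≠ 0`: otherwise `x * (lam κ) ∈ V 4 * cubics`,
  and (G2) (`Fl.g2s`, `U = V 4`, `X = V 4 ⊔ A 1 = V 4 ⊔ span {lam κ}` (`TII.sup_A1`), `Y = span {x}`; `b ∈ inn X`) says that `b`, `i` are not adjacent,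
  but `i ∈ S2 = nb b S`.
* `colB`: `Cb = col K t (V 4) (lam κ) 1` is in `LL` with `out Cb = S2` (`Fl.ll_col`, `V 4 ⊔ span {lam κ} = V 4 ⊔ A 1`), and `x ∈ Cb` iff
  `x ∈ cubics`, `x κ ∈ Ph p * cubics`.
-/

namespace Pool.Agent.BR

open Submodule Module MvPolynomial

variable {K : Type*} [Field K] {t : Fin 9 → Pol K} {p : Fin 3 → K} {lam lam' mu c : Pol K}

private theorem exists_erase {S S1 : Finset (Fin 9)} (h : S1 ⊆ S) (hc : S.card = S1.card + 1) :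
    ∃ b ∈ S, S1 = S.erase b := by
  obtain ⟨b, hb⟩ : ∃ b, S \ S1 = {b} := by
    rw [← Finset.card_eq_one, Finset.card_sdiff_of_subset h]
    omega
  have hb1 : b ∈ S \ S1 := by rw [hb]; exact Finset.mem_singleton_self _
  obtain ⟨hb2, hb3⟩ := Finset.mem_sdiff.1 hb1
  refine ⟨b, hb2, Finset.eq_of_subset_of_card_le ?_ ?_⟩
  · intro u hu
    refine Finset.mem_erase.2 ⟨?_, h hu⟩
    rintro rfl
    exact hb3 hu
  · rw [Finset.card_erase_of_mem hb2]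
    omega

private theorem LA.mul_mem5 (h : LA t p lam lam' mu c) {a κ : Pol K} (ha : a ∈ cubics K)
    (hκ : κ ∈ Fp p) : a * κ ∈ H K 5 :=
  mul_mem_H (cubics_le ha) (Fp_le p hκ)

private theorem LA.mem_iff (h : LA t p lam lam' mu c) {a κ : Pol K} (ha : a ∈ cubics K)
    (hκ : κ ∈ Fp p) : a * (lam * κ) ∈ V K t 4 * cubics K ↔ a * κ ∈ Ph p * cubics K := by
  rw [← h.cancel (h.mul_mem5 ha hκ)]
  have e : a * (lam * κ) = lam * (a * κ) := by ring
  rw [e]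

theorem LA.exists_LB (h : LA t p lam lam' mu c) : ∃ b m : Fin 9, LB t p lam lam' mu c b m := by
  have fl := h.fl
  have hU := fl.V_le 4
  have hL := fl.llV 4
  obtain ⟨s1, s2, s3, s4⟩ := h.out_V4
  obtain ⟨a1, a2, a3, a4⟩ := h.out_A1
  obtain ⟨d1, d2, d3, d4⟩ := h.out_dv
  have hS1 : out K t (V K t 4 ⊔ A K t 1) ⊆ out K t (V K t 4) := out_mono le_sup_left
  have hS2 : out K t (V K t 4 ⊔ dv lam) ⊆ out K t (V K t 4 ⊔ A K t 1) :=
    out_mono (sup_le_sup_left h.h.A1_le_dv _)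
  obtain ⟨b, hb, hob⟩ := exists_erase hS1 (by omega)
  obtain ⟨m, hm, hom⟩ := exists_erase hS2 (by omega)
  obtain ⟨m0, hm0, hdv, hiso0⟩ := h.h.exists_m
  -- `m = m0`
  have memA : ∀ i, i ∈ out K t (V K t 4 ⊔ A K t 1) ↔ i ∈ out K t (A K t 1) ∧ 4 ≤ (i : ℕ) := by
    intro i
    rw [sup_comm, fl.out_sup_V]
  have memD : ∀ i, i ∈ out K t (V K t 4 ⊔ dv lam) ↔ i ∈ out K t (dv lam) ∧ 4 ≤ (i : ℕ) := by
    intro i
    rw [sup_comm, fl.out_sup_V]
  have hmm : m = m0 := by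
    by_contra hne
    have h1 := (memA m).1 hm
    have h2 : m ∈ out K t (V K t 4 ⊔ dv lam) := by
      rw [memD, hdv]
      exact ⟨Finset.mem_erase.2 ⟨hne, h1.1⟩, h1.2⟩
    rw [hom] at h2
    exact (Finset.mem_erase.1 h2).1 rfl
  have hiso : nb K t m (out K t (V K t 4 ⊔ A K t 1)) = ∅ := by
    rw [hmm, Finset.eq_empty_iff_forall_notMem]
    intro u hu
    obtain ⟨hu1, hu2⟩ := mem_nb.1 hu
    have h3 : u ∈ nb K t m0 (out K t (A K t 1)) := mem_nb.2 ⟨((memA u).1 hu1).1, hu2⟩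
    rw [hiso0] at h3
    exact absurd h3 (Finset.notMem_empty _)
  -- counts at `b`
  have e1 := cl_erase (K := K) (t := t) 1 hb
  have e2 := cl_erase (K := K) (t := t) 2 hb
  have e3 := cl_erase (K := K) (t := t) 3 hb
  rw [← hob] at e1 e2 e3
  rw [cl_one] at e1
  have n1 : (nb K t b (out K t (V K t 4))).card = 3 := by
    have e1' : cl K t 2 (out K t (V K t 4)) = (nb K t b (out K t (V K t 4))).card +
      cl K t 2 (out K t (V K t 4 ⊔ A K t 1)) := e1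
    omega
  have n2 : cl K t 2 (nb K t b (out K t (V K t 4))) = 3 := by
    have e2' : cl K t 3 (out K t (V K t 4)) = cl K t 2 (nb K t b (out K t (V K t 4))) +
      cl K t 3 (out K t (V K t 4 ⊔ A K t 1)) := e2
    omega
  have n3 : cl K t 3 (nb K t b (out K t (V K t 4))) = 3 := by
    have e3' : cl K t 4 (out K t (V K t 4)) = cl K t 3 (nb K t b (out K t (V K t 4))) +
      cl K t 4 (out K t (V K t 4 ⊔ A K t 1)) := e3
    omega
  -- the vertex `c_*`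
  obtain ⟨cs, hcs⟩ := fl.exists_isC h.h.p0
  have hcs1 : cs ∈ nb K t b (out K t (V K t 4)) := by
    refine h.h.bstar hU hL h.ph_le h.ll_A1 hb hob ?_ hcs
    intro a ha κ hκ h0 hmem
    have h1 := mul_eval (p := p) (fun u hu => Ph_eval hu) ((h.mem_iff ha hκ).1 hmem)
    rw [map_mul] at h1
    exact (mul_eq_zero.1 h1).resolve_right h0
  have hcs2 : cs ∈ out K t (V K t 4 ⊔ A K t 1) :=
    fl.isC_out hcs (sup_eval h.V4_eval h.h.A1_eval)
  have hcsb : cs ≠ b := by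
    rintro rfl
    rw [hob] at hcs2
    exact (Finset.mem_erase.1 hcs2).1 rfl
  obtain ⟨hbb, hmb⟩ := gr_bm (K := K) (t := t) hb n1 n2 n3 (by rw [← hob]; exact hiso) hcs1 hcsb
    (fl.isC_loop hcs)
  have hnbb : nb K t b (out K t (V K t 4)) = out K t (V K t 4 ⊔ dv lam) := by
    refine Finset.eq_of_subset_of_card_le ?_ (by omega)
    intro u hu
    obtain ⟨hu1, hu2⟩ := mem_nb.1 hu
    rw [hom, hob]
    refine Finset.mem_erase.2 ⟨?_, Finset.mem_erase.2 ⟨?_, hu1⟩⟩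
    · rintro rfl
      exact hmb hu
    · rintro rfl
      exact hbb hu2
  have hmi : nb K t m (out K t (V K t 4)) = ∅ := by
    rw [Finset.eq_empty_iff_forall_notMem]
    intro u hu
    obtain ⟨hu1, hu2⟩ := mem_nb.1 hu
    by_cases hub : u = b
    · subst hub
      exact hmb (mem_nb.2 ⟨hS1 hm, adj_symm hu2⟩)
    · have h3 : u ∈ nb K t m (out K t (V K t 4 ⊔ A K t 1)) := by
        refine mem_nb.2 ⟨?_, hu2⟩
        rw [hob]
        exact Finset.mem_erase.2 ⟨hub, hu1⟩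
      rw [hiso] at h3
      exact absurd h3 (Finset.notMem_empty _)
  exact ⟨b, m, ⟨h, ⟨hb, hob, hm, hom, hbb, hmi⟩, d1, d2, d3, hnbb⟩⟩

namespace LB

variable {b m : Fin 9}

theorem fl (h : LB t p lam lam' mu c b m) : Fl t := h.la.h.t2.fl

theorem notC (h : LB t p lam lam' mu c b m) {x : Pol K} {i : Fin 9} (hx : IsIn K t x i)
    (hi : i ∈ out K t (V K t 4 ⊔ dv lam)) {κ : Pol K} (hκ : κ ∈ Fp p) (h0 : eval p κ ≠ 0) :
    x * κ ∉ Ph p * cubics K := by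
  intro hmem
  have hxc : x ∈ cubics K := h.fl.V_le _ hx.1
  have h1 := (h.la.mem_iff hxc hκ).2 hmem
  have h2 : b ∈ inn K t (V K t 4 ⊔ A K t 1) := by
    rw [← notMem_out, h.bm.oA]
    exact Finset.notMem_erase _ _
  have h3 : i ∈ inn K t (span K {x}) := hx.mem_inn (mem_span_singleton_self x)
  have h4 : i ∈ nb K t b (out K t (V K t 4)) := by
    rw [h.nbb]
    exact hi
  obtain ⟨h5, h6⟩ := mem_nb.1 h4
  refine h.fl.g2s (h.fl.V_le 4) (h.fl.llV 4) ?_ h2 h3 h.bm.bo h5 h6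
  intro y hy z hz
  rw [h.la.h.sup_A1 h.la.ph_le hκ h0] at hy
  obtain ⟨v, hv, w, hw, rfl⟩ := mem_sup.1 hy
  obtain ⟨r, rfl⟩ := mem_span_singleton.1 hw
  obtain ⟨r', rfl⟩ := mem_span_singleton.1 hz
  rw [add_mul]
  refine add_mem (mul_mem_mul hv (smul_mem _ _ hxc)) ?_
  have e : (r • (lam * κ)) * (r' • x) = (r * r') • (x * (lam * κ)) := by
    rw [smul_mul_smul_comm, mul_comm (lam * κ) x]
  rw [e]
  exact smul_mem _ _ h1

theorem mem_colB (h : LB t p lam lam' mu c b m) {κ : Pol K} (hκ : κ ∈ Fp p) {x : Pol K} :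
    x ∈ col K t (V K t 4) (lam * κ) 1 ↔ x ∈ cubics K ∧ x * κ ∈ Ph p * cubics K := by
  rw [h.fl.mem_col1]
  constructor
  · rintro ⟨h1, h2⟩
    exact ⟨h1, (h.la.mem_iff h1 hκ).1 h2⟩
  · rintro ⟨h1, h2⟩
    exact ⟨h1, (h.la.mem_iff h1 hκ).2 h2⟩

theorem colB (h : LB t p lam lam' mu c b m) {κ : Pol K} (hκ : κ ∈ Fp p) (h0 : eval p κ ≠ 0) :
    LL K t (col K t (V K t 4) (lam * κ) 1) ∧
    out K t (col K t (V K t 4) (lam * κ) 1) = out K t (V K t 4 ⊔ dv lam) := by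
  have e := h.la.h.sup_A1 h.la.ph_le hκ h0
  have hu : lam * κ ∈ cubics K := by
    apply h.fl.A_le 1
    rw [h.la.h.A1]
    exact mem_mulS.2 ⟨κ, hκ, rfl⟩
  have hL' : LL K t (V K t 4 ⊔ span K {lam * κ}) := by
    rw [← e]
    exact h.la.ll_A1
  have ho : out K t (V K t 4 ⊔ span K {lam * κ}) = (out K t (V K t 4)).erase b := by
    rw [← e]
    exact h.bm.oA
  obtain ⟨h1, h2⟩ := h.fl.ll_col (h.fl.V_le 4) (h.fl.llV 4) hu h.bm.bo hL' ho
  exact ⟨h2, by rw [h1, h.nbb]⟩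

end LB

end Pool.Agent.BR
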