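import Pool.Agent.Work.MP_be705b_al.II.L2

set_option autoImplicit false
set_option linter.unusedSectionVars false
set_option linter.unusedVariables false

/-!
# MP_be705b_al, type II, Lemma A, module L3 (M): the vertex `4`, (*), (**)

Write `S = out (V 4)`, `S1 = out (V 4 ⊔ A 1) = S.erase b`, `S2 = out (V 4 ⊔ dv lam) = S1.erase m = nb b S`.

`four_mem`: `4 ∈ S2`.  PROOF.  `4 ∈ S` (`t 4 ∉ V 4`, `mem_out_of`).  If `4 ∉ S2` then `t 4 ∈ V 4 ⊔ dv lam` (`t_mem_of_inn`), and `4 = b` or `4 = m`.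
* `4 = b`: `4 ∉ S1`, so `t 4 ∈ V 4 ⊔ A 1`, `t 4 = v + lam κ`, `κ ∈ Fp p`, and `κ (p) ≠ 0` (otherwise `lam κ ∈ lam Ph p ≤ V 4`).  `b` is no loop, so
  `t 4 * t 4 ∈ V 4 * cubics` (`Fl.not_loop_iff`), so `lam κ * (lam κ) ∈ V 4 * cubics` (expand, `v * cubics ≤ V 4 * cubics`), so (`LA.cancel`)
  `lam * (κ * κ) ∈ Ph p * cubics`, contradiction to `TII.phib`.
* `4 = m`: `t 4 = v + lam κ`, `κ ∈ KK lam`, `κ ∉ Fp p` (else `4 ∉ S1`, but `m ∈ S1`).  `nb m S = ∅`, so `out (V 4 ⊔ A 4) = ∅` (`Fl.outSupA`),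
  `A 4 ⊔ V 4 = cubics` (`W_le_of_inn`; `V 4 ≤ A 4`), so for every `w ∈ cubics`: `w * t 4 ∈ V 4 * cubics`, so `lam (κ w) ∈ V 4 * cubics`,
  `κ w ∈ Ph p * cubics` (`cancel`).  By `TII.sat` `κ ∈ Ph p ≤ Fp p`, contradiction.

`star` (*): for `κ ∈ KK lam` there is `κ1 ∈ Fp p` with `t 4 * (κ - κ1) ∈ Ph p * cubics`.  PROOF.  `U = V 4 ⊔ A 1 ∈ LL`, `t 4 ∉ U` (`4 ∈ S2 ⊆ S1`).
`lam κ * t 4 ∈ lam H 5 = A 1 * cubics ≤ U * cubics` (`A1_mul`), so `lam κ ∈ U ⊔ A 4` (`Fl.col1`): `lam κ = v + lam κ1 + x`, `x ∈ A 4`, `x * t 4 ∈ V 4 * cubics`,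
so `lam (κ - κ1) * t 4 ∈ V 4 * cubics`; `cancel`.

`star2` (**): if `f ∈ H 5`, `lam f ∈ V 5 * cubics` then `f - κ1 * t 4 ∈ Ph p * cubics` for some `κ1 ∈ Fp p`.  PROOF.  `V 5 = V 4 ⊔ span {t 4}`,
`lam f = y + t 4 * w`, `y ∈ V 4 * cubics`, `w ∈ cubics`.  `V 4 * cubics ≤ lam H 5 + c * cubics = U * cubics` with `U = V 4 ⊔ A 1`, and `lam f ∈ lam H 5`, so
`t 4 * w ∈ U * cubics`, so `w ∈ U ⊔ A 4` (`Fl.col1`), `w = lam κ1 + v + x` as before, `t 4 * w ∈ lam κ1 t 4 + V 4 * cubics`, so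
`lam (f - κ1 t 4) ∈ V 4 * cubics`; `cancel`.
-/

namespace Pool.Agent.BR

open Submodule Module MvPolynomial

variable {K : Type*} [Field K] {t : Fin 9 → Pol K} {p : Fin 3 → K} {lam lam' mu c : Pol K}
  {b m : Fin 9}

namespace LB

private theorem hU' (h : LB t p lam lam' mu c b m) : V K t 4 ≤ cubics K := h.fl.V_le 4

private theorem hUA (h : LB t p lam lam' mu c b m) : V K t 4 ⊔ A K t 1 ≤ cubics K := h.la.le_cubics

private theorem t4_notMem (h : LB t p lam lam' mu c b m) : t 4 ∉ V K t 4 := t_notMem h.fl.li 4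

private theorem lam_Ph (h : LB t p lam lam' mu c b m) {κ : Pol K} (hκ : κ ∈ Fp p) (h0 : eval p κ = 0) :
    lam * κ ∈ V K t 4 := by
  apply h.la.ph_le
  exact mul_mem_mulS ⟨hκ, mem_IP.2 ⟨Fp_le p hκ, h0⟩⟩

private theorem fmem (h : LB t p lam lam' mu c b m) {κ w : Pol K} (hκ : κ ∈ H K 2) (hw : w ∈ H K 3) :
    κ * w ∈ H K 5 := mul_mem_H hκ hw

theorem four_mem (h : LB t p lam lam' mu c b m) : (4 : Fin 9) ∈ out K t (V K t 4 ⊔ dv lam) := by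
  have h4 : (4 : Fin 9) ∈ out K t (V K t 4) := mem_out_of (j := (4 : Fin 9)) le_rfl h.t4_notMem
  by_contra hcon
  have hcon' := hcon
  rw [h.bm.oD, h.bm.oA] at hcon'
  by_cases hb : (4 : Fin 9) = b
  · subst hb
    have h1 : (4 : Fin 9) ∉ out K t (V K t 4 ⊔ A K t 1) := by
      rw [h.bm.oA]
      simp
    have h2 : t 4 ∈ V K t 4 ⊔ A K t 1 := t_mem_of_inn (i := (4 : Fin 9)) le_sup_left (notMem_out.1 h1)
    obtain ⟨v, hv, w, hw, hvw⟩ := mem_sup.1 h2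
    rw [h.la.h.A1] at hw
    obtain ⟨κ, hκ, rfl⟩ := mem_mulS.1 hw
    have h0 : eval p κ ≠ 0 := by
      intro h0
      apply h.t4_notMem
      rw [← hvw]
      exact add_mem hv (h.lam_Ph hκ h0)
    have h3 : t 4 * t 4 ∈ V K t 4 * cubics K := (h.fl.not_loop_iff 4).1 h.bm.bb
    have h4 : v * (v + 2 * (lam * κ)) ∈ V K t 4 * cubics K := by
      refine mul_mem_mul hv ?_
      have h5 : lam * κ ∈ cubics K := by
        have h6 : lam * κ ∈ A K t 1 := by rw [h.la.h.A1]; exact mul_mem_mulS hκ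
        exact h.fl.A_le 1 h6
      rw [two_mul]
      exact add_mem (h.hU' hv) (add_mem h5 h5)
    have h5 : lam * (lam * (κ * κ)) ∈ V K t 4 * cubics K := by
      have h6 : lam * (lam * (κ * κ)) = t 4 * t 4 - v * (v + 2 * (lam * κ)) := by
        rw [← hvw]; ring
      rw [h6]
      exact sub_mem h3 h4
    have h6 : lam * (κ * κ) ∈ H K 5 := mul_mem_H h.la.h.t2.ha (mul_mem_H (Fp_le p hκ) (Fp_le p hκ))
    exact h.la.h.phib κ hκ h0 ((h.la.cancel h6).1 h5)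
  · have hm : (4 : Fin 9) = m := by
      by_contra hm
      exact hcon' (Finset.mem_erase.2 ⟨hm, Finset.mem_erase.2 ⟨hb, h4⟩⟩)
    subst hm
    have h2 : t 4 ∈ V K t 4 ⊔ dv lam := t_mem_of_inn (i := (4 : Fin 9)) le_sup_left (notMem_out.1 hcon)
    obtain ⟨v, hv, w, hw, hvw⟩ := mem_sup.1 h2
    obtain ⟨κ, hκ, rfl⟩ := mem_mulS.1 hw
    have hF : κ ∉ Fp p := by
      intro hF
      have h3 : t 4 ∈ V K t 4 ⊔ A K t 1 := by
        rw [← hvw, h.la.h.A1]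
        exact add_mem (mem_sup_left hv) (mem_sup_right (mul_mem_mulS hF))
      exact notMem_inn.2 h.bm.mo (inn_of_t_mem h3)
    have h3 : out K t (V K t 4 ⊔ A K t 4) = ∅ := by
      have h5 := h.fl.outSupA (j := (4 : Fin 9)) h.hU' (h.fl.llV 4) le_rfl h.t4_notMem
      rw [h5]
      exact h.bm.mi
    have h5 : cubics K ≤ V K t 4 ⊔ A K t 4 := by
      rw [← h.fl.sp]
      exact W_le_of_inn h3
    apply hF
    have h6 : κ ∈ Ph p := by
      apply h.la.h.sat κ (KK_le _ hκ)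
      intro w hw
      have h7 : w * t 4 ∈ V K t 4 * cubics K :=
        h.fl.mul1 (j := (4 : Fin 9)) h.hU' le_rfl (h5 hw)
      have h8 : v * w ∈ V K t 4 * cubics K := mul_mem_mul hv hw
      have h9 : lam * (κ * w) ∈ V K t 4 * cubics K := by
        have h10 : lam * (κ * w) = w * t 4 - v * w := by
          rw [← hvw]; ring
        rw [h10]
        exact sub_mem h7 h8
      exact (h.la.cancel (mul_mem_H (KK_le _ hκ) (cubics_le hw))).1 h9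
    exact h6.1

private theorem t4_notMemA (h : LB t p lam lam' mu c b m) : t 4 ∉ V K t 4 ⊔ A K t 1 := by
  apply t_notMem_of_out
  have h1 := h.four_mem
  rw [h.bm.oD] at h1
  exact Finset.mem_of_mem_erase h1

private theorem lamH5 (h : LB t p lam lam' mu c b m) {f : Pol K} (hf : f ∈ H K 5) :
    lam * f ∈ (V K t 4 ⊔ A K t 1) * cubics K := by
  have h1 : lam * f ∈ A K t 1 * cubics K := by
    rw [h.la.h.A1_mul]
    exact mul_mem_mulS hf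
  exact (mul_le_mul' le_sup_right le_rfl : A K t 1 * cubics K ≤ _) h1

/-- decomposition of `(U : t 4)` -/
private theorem dec (h : LB t p lam lam' mu c b m) {w : Pol K} (hw : w ∈ cubics K)
    (hwt : w * t 4 ∈ (V K t 4 ⊔ A K t 1) * cubics K) :
    ∃ κ1 ∈ Fp p, (w - lam * κ1) * t 4 ∈ V K t 4 * cubics K := by
  have h1 := h.fl.col1 (j := (4 : Fin 9)) h.hUA h.la.ll_A1 le_sup_left h.t4_notMemA hw hwt
  obtain ⟨y, hy, x, hx, rfl⟩ := mem_sup.1 h1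
  obtain ⟨v, hv, a, ha, rfl⟩ := mem_sup.1 hy
  rw [h.la.h.A1] at ha
  obtain ⟨κ1, hκ1, rfl⟩ := mem_mulS.1 ha
  refine ⟨κ1, hκ1, ?_⟩
  have h2 : (v + lam * κ1 + x - lam * κ1) * t 4 = v * t 4 + x * t 4 := by ring
  rw [h2]
  exact add_mem (mul_mem_mul hv (h.fl.mem 4)) (h.fl.mem_A.1 hx).2

theorem star (h : LB t p lam lam' mu c b m) {κ : Pol K} (hκ : κ ∈ KK lam) :
    ∃ κ1 ∈ Fp p, t 4 * (κ - κ1) ∈ Ph p * cubics K := by
  have h1 : lam * κ ∈ cubics K := mul_KK_mem h.la.h.t2.ha hκ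
  have h2 : lam * κ * t 4 ∈ (V K t 4 ⊔ A K t 1) * cubics K := by
    rw [mul_assoc]
    exact h.lamH5 (mul_mem_H (KK_le _ hκ) (h.fl.mem_H 4))
  obtain ⟨κ1, hκ1, h3⟩ := h.dec h1 h2
  refine ⟨κ1, hκ1, ?_⟩
  have h4 : t 4 * (κ - κ1) ∈ H K 5 := by
    rw [mul_comm]
    exact mul_mem_H (sub_mem (KK_le _ hκ) (Fp_le p hκ1)) (h.fl.mem_H 4)
  apply (h.la.cancel h4).1
  have h5 : lam * (t 4 * (κ - κ1)) = (lam * κ - lam * κ1) * t 4 := by ring
  rw [h5]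
  exact h3

theorem star2 (h : LB t p lam lam' mu c b m) {f : Pol K} (hf : f ∈ H K 5)
    (hf5 : lam * f ∈ V K t 5 * cubics K) : ∃ κ1 ∈ Fp p, f - κ1 * t 4 ∈ Ph p * cubics K := by
  have h5 : V K t 5 = V K t 4 ⊔ span K {t 4} := V_succ (4 : Fin 9)
  rw [h5, Submodule.sup_mul] at hf5
  obtain ⟨y, hy, z, hz, hyz⟩ := mem_sup.1 hf5
  obtain ⟨w, hw, rfl⟩ := mem_span_singleton_mul.1 hz
  have h1 : w * t 4 ∈ (V K t 4 ⊔ A K t 1) * cubics K := by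
    have h2 : w * t 4 = lam * f - y := by rw [← hyz]; ring
    rw [h2]
    exact sub_mem (h.lamH5 hf) ((mul_le_mul' le_sup_left le_rfl : V K t 4 * cubics K ≤ _) hy)
  obtain ⟨κ1, hκ1, h3⟩ := h.dec hw h1
  refine ⟨κ1, hκ1, ?_⟩
  have h4 : f - κ1 * t 4 ∈ H K 5 := sub_mem hf (mul_mem_H (Fp_le p hκ1) (h.fl.mem_H 4))
  apply (h.la.cancel h4).1
  have h6 : lam * (f - κ1 * t 4) = y + (w - lam * κ1) * t 4 := by
    have h7 : lam * f = y + t 4 * w := hyz.symm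
    rw [mul_sub, h7]; ring
  rw [h6]
  exact add_mem hy h3

end LB

end Pool.Agent.BR
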