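import Pool.Agent.Work.MP_be705b_al.II.L3

set_option autoImplicit false
set_option linter.unusedSectionVars false
set_option linter.unusedVariables false

/-!
# MP_be705b_al, type II, Lemma A, module L4 (M): the vertex `5`, (***)

`S = out (V 4)`, `b, m ∈ S`, `S2 = out (V 4 ⊔ dv lam)`.  `5 ∈ out (V 5)` (`t 5 ∉ V 5`), `out (V 5) = S.erase 4`.

PROOF.
* `5 = b` (`b` no loop): `5 ∉ out (V 5 ⊔ A 1)` (since `b ∉ out (V 4 ⊔ A 1)`), so `t 5 ∈ V 5 ⊔ A 1` (`t_mem_of_inn`), `t 5 = v + lam κ`, `κ ∈ Fp p`,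
  `κ (p) ≠ 0` (else `lam κ ∈ V 4`).  `t 5 * t 5 ∈ V 5 * cubics` (`Fl.not_loop_iff`), so `lam (lam κ κ) ∈ V 5 * cubics`, and `star2` gives the first alternative
  (`lam κ κ ∈ H 5`).
* `5 = m`: `t 5 = v + lam κ` with `v ∈ V 5`, `κ ∈ KK lam` (`m ∉ out (V 5 ⊔ dv lam)`), `κ ∉ Fp p` (else `m ∉ out (V 5 ⊔ A 1)`; but `m ∈ out (V 4 ⊔ A 1)`, `m ≥ 5`,
  `Fl.out_sup_V`).  `nb m (out (V 5)) ⊆ nb m S = ∅`, so `V 5 ⊔ A 5 = cubics` (`Fl.outSupA`, `W_le_of_inn`), so `w * t 5 ∈ V 5 * cubics` for all `w ∈ cubics`,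
  `lam (κ w) ∈ V 5 * cubics`, `star2`: second alternative.
* otherwise `5 ∈ S2` and `5 ∈ out (V 5 ⊔ dv lam)` (`Fl.out_sup_V`).  `U = V 5 ⊔ A 1 ∈ LL`, `t 5 ∉ U`.  For `κ ∈ KK lam`: `lam κ * t 5 ∈ lam H 5 ≤ U * cubics`, so
  (`Fl.col1`) `lam κ = v + lam κ1 + x`, `x ∈ A 5`, so `lam (κ - κ1) * t 5 ∈ V 5 * cubics`, and `star2` for `f = t 5 * (κ - κ1)`.
-/

namespace Pool.Agent.BR

open Submodule Module MvPolynomial

variable {K : Type*} [Field K] {t : Fin 9 → Pol K} {p : Fin 3 → K} {lam lam' mu c : Pol K}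
  {b m : Fin 9}

namespace LB

/-- first alternative: `5 = b` -/
def Six1 (t : Fin 9 → Pol K) (p : Fin 3 → K) (lam : Pol K) : Prop :=
  ∃ κ ∈ Fp p, eval p κ ≠ 0 ∧ ∃ κ1 ∈ Fp p, lam * (κ * κ) - κ1 * t 4 ∈ Ph p * cubics K

/-- second alternative: `5 = m` -/
def Six2 (t : Fin 9 → Pol K) (p : Fin 3 → K) (lam : Pol K) : Prop :=
  ∃ κ ∈ KK lam, κ ∉ Fp p ∧ ∀ w ∈ cubics K, ∃ κ1 ∈ Fp p, κ * w - κ1 * t 4 ∈ Ph p * cubics K

/-- third alternative -/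
def Six3 (t : Fin 9 → Pol K) (p : Fin 3 → K) (lam : Pol K) : Prop :=
  (5 : Fin 9) ∈ out K t (V K t 4 ⊔ dv lam) ∧ (5 : Fin 9) ∈ out K t (V K t 5 ⊔ dv lam) ∧
    ∀ κ ∈ KK lam, ∃ κ1 ∈ Fp p, ∃ κ2 ∈ Fp p, t 5 * (κ - κ1) - κ2 * t 4 ∈ Ph p * cubics K

private theorem six_le (h : LB t p lam lam' mu c b m) : V K t 4 ≤ V K t 5 := V_mono (by norm_num)

/-- multiplication of `v + lam * κ` into `V 5 * cubics K` -/
private theorem six_v {v w : Pol K} (hv : v ∈ V K t 5) (hw : w ∈ cubics K) :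
    v * w ∈ V K t 5 * cubics K := mul_mem_mul hv hw

private theorem six_b (h : LB t p lam lam' mu c b m) (hb : (5 : Fin 9) = b) : Six1 t p lam := by
  have fl : Fl t := h.la.h.t2.fl
  have h1 : (5 : Fin 9) ∉ out K t (V K t 4 ⊔ A K t 1) := by
    rw [h.bm.oA, hb]
    exact Finset.notMem_erase _ _
  rw [notMem_out] at h1
  have h2 : (5 : Fin 9) ∈ inn K t (V K t 5 ⊔ A K t 1) :=
    inn_mono (sup_le_sup_right (six_le h) _) h1
  have h3 : t 5 ∈ V K t 5 ⊔ A K t 1 := t_mem_of_inn (i := (5 : Fin 9)) le_sup_left h2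
  obtain ⟨v, hv, y, hy, hvy⟩ := mem_sup.1 h3
  rw [h.la.h.A1] at hy
  obtain ⟨κ, hκ, rfl⟩ := mem_mulS.1 hy
  have hκH : κ ∈ H K 2 := Fp_le p hκ
  refine ⟨κ, hκ, ?_, ?_⟩
  · intro h0
    have h4 : lam * κ ∈ V K t 5 :=
      six_le h (h.la.ph_le (mul_mem_mulS (⟨hκ, mem_IP.2 ⟨hκH, h0⟩⟩ : κ ∈ Ph p)))
    have h5 : t 5 ∈ V K t 5 := by
      rw [← hvy]
      exact add_mem hv h4
    exact t_notMem fl.li (5 : Fin 9) h5
  · have h4 : t 5 * t 5 ∈ V K t 5 * cubics K := by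
      have h5 := (fl.not_loop_iff (5 : Fin 9)).1 (by rw [hb]; exact h.bm.bb)
      exact h5
    have h6 : lam * (lam * (κ * κ)) ∈ V K t 5 * cubics K := by
      have e : lam * (lam * (κ * κ)) = t 5 * t 5 - v * t 5 - v * t 5 + v * v := by
        rw [← hvy]
        ring
      rw [e]
      exact add_mem (sub_mem (sub_mem h4 (six_v hv (fl.mem 5))) (six_v hv (fl.mem 5)))
        (six_v hv (fl.V_le 5 hv))
    have h7 : lam * (κ * κ) ∈ H K 5 :=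
      mul_mem_H (a := 1) (b := 4) h.la.h.t2.ha (mul_mem_H (a := 2) (b := 2) hκH hκH)
    exact h.star2 h7 h6

private theorem six_m (h : LB t p lam lam' mu c b m) (hm : (5 : Fin 9) = m) : Six2 t p lam := by
  have fl : Fl t := h.la.h.t2.fl
  have h1 : (5 : Fin 9) ∉ out K t (V K t 4 ⊔ dv lam) := by
    rw [h.bm.oD, hm]
    exact Finset.notMem_erase _ _
  rw [notMem_out] at h1
  have h2 : (5 : Fin 9) ∈ inn K t (V K t 5 ⊔ dv lam) :=
    inn_mono (sup_le_sup_right (six_le h) _) h1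
  have h3 : t 5 ∈ V K t 5 ⊔ dv lam := t_mem_of_inn (i := (5 : Fin 9)) le_sup_left h2
  obtain ⟨v, hv, y, hy, hvy⟩ := mem_sup.1 h3
  obtain ⟨κ, hκ, rfl⟩ := mem_mulS.1 hy
  have hκH : κ ∈ H K 2 := KK_le lam hκ
  refine ⟨κ, hκ, ?_, ?_⟩
  · intro hF
    have h4 : (5 : Fin 9) ∈ out K t ((V K t 4 ⊔ A K t 1) ⊔ V K t 5) := by
      rw [fl.out_sup_V]
      refine ⟨?_, le_refl _⟩
      rw [hm]
      exact h.bm.mo
    refine t_notMem_of_out h4 ?_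
    rw [← hvy]
    refine add_mem (mem_sup_right hv) (mem_sup_left (mem_sup_right ?_))
    rw [h.la.h.A1]
    exact mul_mem_mulS hF
  · intro w hw
    have h4 : out K t (A K t 5) = ∅ := by
      rw [fl.outA, ← Finset.subset_empty, ← h.bm.mi, ← hm]
      refine nb_mono _ (out_mono ?_)
      exact six_le h
    have h5 : w ∈ A K t 5 := by
      have h6 := W_le_of_inn h4
      rw [fl.sp] at h6
      exact h6 hw
    have h6 : w * t 5 ∈ V K t 5 * cubics K := (fl.mem_A.1 h5).2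
    have h7 : lam * (κ * w) ∈ V K t 5 * cubics K := by
      have e : lam * (κ * w) = w * t 5 - v * w := by
        rw [← hvy]
        ring
      rw [e]
      exact sub_mem h6 (six_v hv hw)
    exact h.star2 (mul_mem_H (a := 2) (b := 3) hκH (cubics_le hw)) h7

private theorem six_o (h : LB t p lam lam' mu c b m) (hb : (5 : Fin 9) ≠ b) (hm : (5 : Fin 9) ≠ m) :
    Six3 t p lam := by
  have fl : Fl t := h.la.h.t2.fl
  have h1 : (5 : Fin 9) ∈ out K t (V K t 4 ⊔ dv lam) := by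
    rw [h.bm.oD, Finset.mem_erase, h.bm.oA, Finset.mem_erase, fl.mem_out_V]
    exact ⟨hm, hb, by decide⟩
  have h2 : (5 : Fin 9) ∈ out K t (V K t 5 ⊔ dv lam) := by
    have h3 : (5 : Fin 9) ∈ out K t ((V K t 4 ⊔ dv lam) ⊔ V K t 5) := by
      rw [fl.out_sup_V]
      exact ⟨h1, le_refl _⟩
    have e : (V K t 4 ⊔ dv lam) ⊔ V K t 5 = V K t 5 ⊔ dv lam := by
      rw [sup_right_comm, sup_eq_right.2 (six_le h)]
    rwa [e] at h3
  refine ⟨h1, h2, ?_⟩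
  intro κ hκ
  have hκH : κ ∈ H K 2 := KK_le lam hκ
  have hU : V K t 5 ⊔ A K t 1 ≤ cubics K := sup_le (fl.V_le 5) (fl.A_le 1)
  have hL : LL K t (V K t 5 ⊔ A K t 1) := by
    rw [sup_comm]
    exact fl.llSupV (fl.A_le 1) (fl.llA 1) 5
  have ht5 : t 5 ∉ V K t 5 ⊔ A K t 1 := fun hh =>
    t_notMem_of_out h2 (sup_le_sup_left h.la.h.A1_le_dv _ hh)
  have h3 : lam * κ * t 5 ∈ (V K t 5 ⊔ A K t 1) * cubics K := by
    have h4 : lam * (κ * t 5) ∈ A K t 1 * cubics K := by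
      rw [h.la.h.A1_mul]
      exact mul_mem_mulS (mul_mem_H (a := 2) (b := 3) hκH (fl.mem_H 5))
    rw [mul_assoc]
    exact mul_le_mul_left (le_sup_right (a := V K t 5)) _ h4
  have h4 : lam * κ ∈ (V K t 5 ⊔ A K t 1) ⊔ A K t 5 :=
    fl.col1 (j := (5 : Fin 9)) hU hL le_sup_left ht5 (mul_KK_mem h.la.h.t2.ha hκ) h3
  obtain ⟨u, hu, x, hx, hux⟩ := mem_sup.1 h4
  obtain ⟨v, hv, y, hy, rfl⟩ := mem_sup.1 hu
  rw [h.la.h.A1] at hy
  obtain ⟨κ1, hκ1, rfl⟩ := mem_mulS.1 hy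
  have hκ1H : κ1 ∈ H K 2 := Fp_le p hκ1
  have h5 : x * t 5 ∈ V K t 5 * cubics K := (fl.mem_A.1 hx).2
  have h6 : lam * (t 5 * (κ - κ1)) ∈ V K t 5 * cubics K := by
    have e : lam * (t 5 * (κ - κ1)) = v * t 5 + x * t 5 := by
      linear_combination (- t 5) * hux
    rw [e]
    exact add_mem (six_v hv (fl.mem 5)) h5
  obtain ⟨κ2, hκ2, h7⟩ := h.star2 (mul_mem_H (a := 3) (b := 2) (fl.mem_H 5) (sub_mem hκH hκ1H)) h6
  exact ⟨κ1, hκ1, κ2, hκ2, h7⟩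

theorem six (h : LB t p lam lam' mu c b m) : Six1 t p lam ∨ Six2 t p lam ∨ Six3 t p lam := by
  by_cases hb : (5 : Fin 9) = b
  · exact Or.inl (six_b h hb)
  · by_cases hm : (5 : Fin 9) = m
    · exact Or.inr (Or.inl (six_m h hm))
    · exact Or.inr (Or.inr (six_o h hb hm))

end LB

end Pool.Agent.BR
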