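import Pool.Agent.Work.MP_be705b_al.II.PADefs

/-!
# MP_be705b_al, type II, Lemma A at `pa`, module L5 (M-L): the structure `PA`

Here `p = pa = (0, 0, 1)`, `Ph pa * cubics = Ja 5`, `Ph pa * H 6 = Ja 8` (`Ph_pa_mul5`, `Ph_pa_mul8`), `Ja n` = forms `f` of degree `n` with
`f (pa) = 0`, `dr pa ea f = dr pa eb f = 0` (`mem_Ja`).  `lam = l0 x + l1 y` (`lam (pa) = 0`), `v = (-l1, l0, 0) = -l1 ea + l0 eb` so `lam (v) = 0`, and
`dr pa v f = -l1 dr pa ea f + l0 dr pa eb f` (`dr_comb`).  Useful: `z := X 2`, `z^2 ∈ Fp pa` has value `1` at `pa` and zero derivatives.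

(i) `c ∈ Ja 3`: `ck` with `κ = z^2`: `z^2 c ∈ Ja 5`; `dr_mul`.
(ii) `t 4 (pa) = 0`: let `κ0 = l0 x z - l1 y z ∈ KK lam` (`mem_KK`: `hat κ0 = (-l1, l0, 0)`, `lc lam = (l0, l1, 0)`), `dr pa ea κ0 = l0`,
`dr pa eb κ0 = -l1`, not both zero.  `LB.star`: `t 4 * (κ0 - κ1) ∈ Ja 5`, `κ1 ∈ Fp pa = N + span {x y}`, so `dr pa ea κ1 = dr pa eb κ1 = 0`.  If
`t 4 (pa) ≠ 0` then `(κ0 - κ1)(pa) = 0` and `t 4 (pa) * dr (κ0 - κ1) = 0` in both directions, so `dr κ0 = 0`: contradiction.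
(iii) `dr pa ea (t 4)`, `dr pa eb (t 4)` are not both zero: otherwise `t 4 * z^2 ∈ Ja 5 = Ph * cubics`, contradiction to `LB.notC` (`IsIn K t (t 4) 4`,
`LB.four_mem`).
(iv) `t 4 * t 4 ∈ V 4 * cubics`: if `4` is a loop then (`Fl.nil1`, `U = V 4`, `a = lam * z^2`): `a * t4 * t4 = lam * (z^2 t4 t4)` and `z^2 t4 t4 ∈ Ja 8`, so
it is in `V 4 * H 6` (`LA.cancel8`), so `a * t4 ∈ V 4 * cubics`, so `z^2 * t 4 ∈ Ph * cubics` (`LA.cancel`), contradiction to `notC`.  So `4` is no loop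
(`Fl.not_loop_iff`).
(v) So `t4 * t4 = lam * h + c * w` with `h ∈ Ph * cubics = Ja 5`, `w ∈ cubics` (`LA.v4`).  Apply `rs pa u` for any direction `u`: `rs lam = lam (u) X`,
`rs h ∈ (X^2)`, `rs c = X^2 (..)` (`u` in the span of `ea, eb`), so the coefficient of `X^2` gives
`(dr pa u t4)^2 = (rs pa u c).coeff 2 * w (pa)` (*).  With (iii): `w (pa) ≠ 0`.
(vi) `dr pa v (t 4) ≠ 0`: otherwise by (*) `(rs pa v c).coeff 2 = 0`, `rs pa v c = γ X^3` (`rs_deg`) and `γ ≠ 0` (`lam ∤ c`, `rs_eq_zero`), `rs pa v w` has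
nonzero constant term, so `rs (c w)` has order exactly 3 at `X = 0`, but `rs (t4)^2` has order `≥ 4` and `rs lam = 0`: contradiction.  So `(rs pa v c).coeff 2 ≠ 0`
by (*).
(vii) `r := γ3 pa - γ2 v`, `γi = (rs pa v c).coeff i`: `c (r) = 0` (`rs_eval`), `lam (r) = 0`, `t4 (r)^2 = lam (r) h (r) + c (r) w (r) = 0`; independent of
`pa` because `γ2 ≠ 0`.
(viii) `tf`: `(rs pa u c).coeff 2` for `u = u0 ea + u1 eb` is `cf 2 0 1 c u0^2 + cf 1 1 1 c u0 u1 + cf 0 2 1 c u1^2`, and `cf 1 1 1 c = 0` (`mem_cubics`).  With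
`ν0 = dr pa ea t4`, `ν1 = dr pa eb t4` (*) says `(ν0 u0 + ν1 u1)^2 = w (pa) (..)`; taking `u = ea, eb, ea + eb`: `2 ν0 ν1 = 0`.  Let `κ ∈ KK lam`,
`(κ_xz, κ_yz) = (dr pa ea κ, dr pa eb κ) = s (ν0, ν1)`; `l0 κ_yz + l1 κ_xz = 0` (`mem_KK`, `l2 = 0`), so `s (l0 ν1 + l1 ν0) = 0`.  By (vi) `l0 ν1 - l1 ν0 ≠ 0`.  As
`2 ν0 ν1 = 0`: `2 = 0` or `ν0 = 0` or `ν1 = 0`, and in each case `l0 ν1 + l1 ν0 = ± (l0 ν1 - l1 ν0) ≠ 0`, so `s = 0`.
-/

set_option autoImplicit false
set_option linter.unusedSectionVars false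
set_option linter.unusedVariables false

namespace Pool.Agent.BR

open Submodule Module MvPolynomial

variable {K : Type*} [Field K] {t : Fin 9 → Pol K} {lam lam' mu c : Pol K} {b m : Fin 9}

private theorem l5_dra {κ : Pol K} (hκ : κ ∈ H K 2) : dr pa ea κ = hat κ 1 := by
  have h := (mem_Ja' (n := 1) hκ).2.1
  rw [h]
  rfl

private theorem l5_drb {κ : Pol K} (hκ : κ ∈ H K 2) : dr pa eb κ = hat κ 0 := by
  have h := (mem_Ja' (n := 1) hκ).2.2
  rw [h]
  rfl

private theorem l5_Fp {κ : Pol K} (hκ : κ ∈ Fp (pa : Fin 3 → K)) : dr pa ea κ = 0 ∧ dr pa eb κ = 0 := by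
  have hH := Fp_le _ hκ
  obtain ⟨n, hn, w, hw, rfl⟩ := mem_sup.1 hκ
  obtain ⟨s, rfl⟩ := mem_span_singleton.1 hw
  rw [l5_dra hH, l5_drb hH, hat_add, hat_of_N hn, hat_smul, (cf_cr _).2]
  simp [pa]

private theorem l5_z : (X 2 ^ 2 : Pol K) ∈ N K := subset_span (by simp)

private theorem l5_ez : eval pa (X 2 ^ 2 : Pol K) = 1 := by simp [pa]

private theorem l5_dz (u : Fin 3 → K) (hu : u 2 = 0) : dr pa u (X 2 ^ 2 : Pol K) = 0 := by
  rw [pow_two, dr_mul, dr_X, hu]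
  simp

private theorem l5_c2 (p q : Polynomial K) : (p * q).coeff 2 =
    p.coeff 0 * q.coeff 2 + p.coeff 1 * q.coeff 1 + p.coeff 2 * q.coeff 0 := by
  rw [Polynomial.coeff_mul, Finset.Nat.sum_antidiagonal_eq_sum_range_succ_mk]
  simp [Finset.sum_range_succ]

private theorem l5_c3 (p q : Polynomial K) : (p * q).coeff 3 =
    p.coeff 0 * q.coeff 3 + p.coeff 1 * q.coeff 2 + p.coeff 2 * q.coeff 1 + p.coeff 3 * q.coeff 0 := by
  rw [Polynomial.coeff_mul, Finset.Nat.sum_antidiagonal_eq_sum_range_succ_mk]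
  simp [Finset.sum_range_succ]

private theorem l5_add {f : Pol K} (hf : f ∈ cubics K) : (rs pa (ea + eb) f).coeff 2 =
    (rs pa ea f).coeff 2 + (rs pa eb f).coeff 2 := by
  obtain ⟨h1, h2⟩ := mem_cubics.1 hf
  set φ : Pol K →ₗ[K] K := (Polynomial.lcoeff K 2).comp (rs pa (ea + eb)).toLinearMap -
    (Polynomial.lcoeff K 2).comp (rs pa ea).toLinearMap -
    (Polynomial.lcoeff K 2).comp (rs pa eb).toLinearMap - (cf 1 1 1 : Pol K →ₗ[K] K) with hφ
  have key : ∀ u : Fin 3 → K, ∀ i j k : ℕ, (rs pa u (X 0 ^ i * X 1 ^ j * X 2 ^ k : Pol K)) =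
      (Polynomial.C (u 0) * Polynomial.X) ^ i * (Polynomial.C (u 1) * Polynomial.X) ^ j *
        (1 + Polynomial.C (u 2) * Polynomial.X) ^ k := by
    intro u i j k
    simp only [map_mul, map_pow, rs_X]
    simp [pa]
  have h3 : H K 3 ≤ LinearMap.ker φ := by
    refine H_le fun i j k hijk => ?_
    rw [LinearMap.mem_ker, hφ]
    simp only [LinearMap.sub_apply, LinearMap.comp_apply, AlgHom.toLinearMap_apply, key, cf_mono,
      Polynomial.lcoeff_apply]
    have hi : i ≤ 3 := by omega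
    have hj : j ≤ 3 := by omega
    obtain rfl : k = 3 - i - j := by omega
    interval_cases i <;> interval_cases j <;>
      first
        | omega
        | simp [ea, eb, Polynomial.coeff_X, Polynomial.coeff_one, Polynomial.coeff_X_pow, ← pow_succ, ← pow_succ']
  have h4 := h3 h1
  rw [LinearMap.mem_ker, hφ] at h4
  simp only [LinearMap.sub_apply, LinearMap.comp_apply, AlgHom.toLinearMap_apply, Polynomial.lcoeff_apply,
    h2, sub_zero] at h4
  linear_combination h4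

theorem LB.exists_PA (h : LB t pa lam lam' mu c b m) : ∃ v r : Fin 3 → K, PA t lam c v r := by
  have T := h.la.h
  have fl := h.fl
  have hl : lam ∈ H K 1 := T.t2.ha
  have hl0 : lam ≠ 0 := T.L0
  have hcH : c ∈ H K 3 := cubics_le h.la.hc
  set l : Fin 3 → K := lc lam with hldef
  have hlin : lin l = lam := lin_lc hl
  have hev : ∀ u : Fin 3 → K, eval u lam = l 0 * u 0 + l 1 * u 1 + l 2 * u 2 := by
    intro u
    rw [← hlin, eval_lin]
    rfl
  have hl2 : l 2 = 0 := by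
    have h1 := T.lp
    rw [hev] at h1
    simpa [pa] using h1
  have hl01 : ¬ (l 0 = 0 ∧ l 1 = 0) := by
    rintro ⟨h0, h1⟩
    apply hl0
    rw [← hlin, lin_eq_zero]
    ext i
    fin_cases i
    · exact h0
    · exact h1
    · exact hl2
  set v : Fin 3 → K := ![-l 1, l 0, 0] with hv
  have hv' : v = (-l 1) • (ea : Fin 3 → K) + l 0 • eb := by
    ext i
    fin_cases i <;> simp [hv, ea, eb]
  have hevv : eval v lam = 0 := by
    rw [hev]
    simp [hv]
    ring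
  have drv : ∀ f : Pol K, dr pa v f = -l 1 * dr pa ea f + l 0 * dr pa eb f := by
    intro f
    rw [hv', dr_comb]
  have hpav : LinearIndependent K ![(pa : Fin 3 → K), v] := by
    rw [LinearIndependent.pair_iff]
    intro s r hsr
    have e0 := congrFun hsr 0
    have e1 := congrFun hsr 1
    have e2 := congrFun hsr 2
    simp [pa, hv] at e0 e1 e2
    refine ⟨e2, ?_⟩
    by_contra hr
    exact hl01 ⟨e1.resolve_left hr, e0.resolve_left hr⟩
  -- (i)
  have hzF : (X 2 ^ 2 : Pol K) ∈ Fp (pa : Fin 3 → K) := N_le_Fp _ l5_z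
  have hzK : (X 2 ^ 2 : Pol K) ∈ KK lam := N_le_KK hl l5_z
  have hea : (ea : Fin 3 → K) 2 = 0 := rfl
  have heb : (eb : Fin 3 → K) 2 = 0 := rfl
  have hcJ : eval pa c = 0 ∧ dr pa ea c = 0 ∧ dr pa eb c = 0 := by
    have h1 := h.la.ck _ hzK
    rw [Ph_pa_mul5, mem_Ja, map_mul, dr_mul, dr_mul, l5_ez, l5_dz _ hea, l5_dz _ heb] at h1
    obtain ⟨-, h2, h3, h4⟩ := h1
    refine ⟨?_, ?_, ?_⟩
    · linear_combination h2
    · linear_combination h3
    · linear_combination h4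
  obtain ⟨hc0, hca, hcb⟩ := hcJ
  -- (ii)
  have htp : eval pa (t 4) = 0 := by
    by_contra hne
    have hκ0 : cr v ∈ KK lam := by
      rw [mem_KK hl]
      refine ⟨cr_mem v, ?_⟩
      rw [(cf_cr v).2]
      simp [dot, hv]
      ring
    obtain ⟨κ1, hκ1, hs⟩ := h.star hκ0
    rw [Ph_pa_mul5, mem_Ja, map_mul, dr_mul, dr_mul] at hs
    obtain ⟨-, h2, h3, h4⟩ := hs
    have h5 : eval pa (cr v - κ1) = 0 := (mul_eq_zero.1 h2).resolve_left hne
    rw [h5, mul_zero, add_zero] at h3 h4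
    have h6 := (mul_eq_zero.1 h3).resolve_left hne
    have h7 := (mul_eq_zero.1 h4).resolve_left hne
    rw [map_sub, (l5_Fp hκ1).1, sub_zero, l5_dra (cr_mem v), (cf_cr v).2] at h6
    rw [map_sub, (l5_Fp hκ1).2, sub_zero, l5_drb (cr_mem v), (cf_cr v).2] at h7
    simp [hv] at h6 h7
    exact hl01 ⟨h6, h7⟩
  -- (iii)
  have h4V : t 4 ∉ V K t 4 := t_notMem fl.li 4
  have hIn : IsIn K t (t 4) 4 := ⟨BR.t_mem (Nat.lt_succ_self _), h4V⟩
  have hno : t 4 * X 2 ^ 2 ∉ Ph (pa : Fin 3 → K) * cubics K :=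
    h.notC hIn h.four_mem hzF (by rw [l5_ez]; exact one_ne_zero)
  have h4H : t 4 ∈ H K 3 := fl.mem_H 4
  have h45 : t 4 * X 2 ^ 2 ∈ H K 5 := mul_mem_H (a := 3) (b := 2) h4H (N_le l5_z)
  have hiii : ¬ (dr pa ea (t 4) = 0 ∧ dr pa eb (t 4) = 0) := by
    rintro ⟨h1, h2⟩
    apply hno
    rw [Ph_pa_mul5, mem_Ja]
    refine ⟨h45, ?_, ?_, ?_⟩
    · rw [map_mul, htp, zero_mul]
    · rw [dr_mul, htp, h1]
      ring
    · rw [dr_mul, htp, h2]
      ring
  -- (iv)
  have hiv : t 4 * t 4 ∈ V K t 4 * cubics K := by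
    refine (fl.not_loop_iff (4 : Fin 9)).1 ?_
    intro hloop
    have ha : lam * X 2 ^ 2 ∈ cubics K := mul_KK_mem hl hzK
    have h8 : X 2 ^ 2 * t 4 * t 4 ∈ H K 8 := by
      have h1 : X 2 ^ 2 * t 4 ∈ H K 5 := mul_mem_H (a := 2) (b := 3) (N_le l5_z) h4H
      exact mul_mem_H (a := 5) (b := 3) h1 h4H
    have h1 : lam * (X 2 ^ 2 * t 4 * t 4) ∈ V K t 4 * H K 6 := by
      rw [h.la.cancel8 h8, Ph_pa_mul8, mem_Ja]
      refine ⟨h8, ?_, ?_, ?_⟩
      · rw [map_mul, htp, mul_zero]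
      · rw [dr_mul, map_mul, htp]
        ring
      · rw [dr_mul, map_mul, htp]
        ring
    have h2 := fl.nil1 (U := V K t 4) (j := (4 : Fin 9)) (fl.V_le 4) (fl.llV 4) (le_refl (V K t 4)) h4V hloop ha (by
      have e : lam * X 2 ^ 2 * t 4 * t 4 = lam * (X 2 ^ 2 * t 4 * t 4) := by ring
      rw [e]
      exact h1)
    have e : lam * X 2 ^ 2 * t 4 = lam * (t 4 * X 2 ^ 2) := by ring
    rw [e] at h2
    exact hno ((h.la.cancel h45).1 h2)
  -- (v)
  obtain ⟨g, hg, w, hw, hgw⟩ : ∃ g ∈ Ja K 5, ∃ w ∈ cubics K, t 4 * t 4 = lam * g + c * w := by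
    rw [h.la.v4, Submodule.sup_mul, mulS_mul, span_mul_eq', Ph_pa_mul5] at hiv
    obtain ⟨x, hx, y, hy, hxy⟩ := mem_sup.1 hiv
    obtain ⟨g, hg, rfl⟩ := mem_mulS.1 hx
    obtain ⟨w, hw, rfl⟩ := mem_mulS.1 hy
    exact ⟨g, hg, w, hw, hxy.symm⟩
  rw [mem_Ja] at hg
  obtain ⟨hgH, hg0, hga, hgb⟩ := hg
  have star : ∀ u0 u1 : K, (u0 * dr pa ea (t 4) + u1 * dr pa eb (t 4)) ^ 2 =
      (rs pa (u0 • ea + u1 • eb) c).coeff 2 * eval pa w := by
    intro u0 u1
    have h1 := congrArg (rs pa (u0 • ea + u1 • eb)) hgw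
    rw [map_mul, map_add, map_mul, map_mul] at h1
    have h2 := congrArg (fun p : Polynomial K => p.coeff 2) h1
    simp only [Polynomial.coeff_add, l5_c2, rs_coeff_zero, ← dr_apply, htp, hc0, hg0, dr_comb, hca, hcb, hga,
      hgb, T.lp] at h2
    linear_combination h2
  have hw0 : eval pa w ≠ 0 := by
    intro hw0
    apply hiii
    have h1 := star 1 0
    have h2 := star 0 1
    rw [hw0, mul_zero] at h1 h2
    have h3 := pow_eq_zero_iff (two_ne_zero) |>.1 h1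
    have h4 := pow_eq_zero_iff (two_ne_zero) |>.1 h2
    constructor
    · linear_combination h3
    · linear_combination h4
  have starv : (dr pa v (t 4)) ^ 2 = (rs pa v c).coeff 2 * eval pa w := by
    rw [drv, hv']
    exact star (-l 1) (l 0)
  have hdvl : ∀ f : Pol K, dr pa ea f = 0 → dr pa eb f = 0 → dr pa v f = 0 := by
    intro f h1 h2
    rw [drv, h1, h2]
    ring
  have hdc : dr pa v c = 0 := hdvl c hca hcb
  have hdc' : (rs pa v c).coeff 1 = 0 := hdc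
  have hc0' : (rs pa v c).coeff 0 = 0 := by rw [rs_coeff_zero, hc0]
  -- (vi)
  have hdt : dr pa v (t 4) ≠ 0 := by
    intro hd
    rw [hd] at starv
    have h2 : (rs pa v c).coeff 2 = 0 := by
      have : (rs pa v c).coeff 2 * eval pa w = 0 := by
        rw [← starv]
        ring
      exact (mul_eq_zero.1 this).resolve_right hw0
    have h1 := congrArg (rs pa v) hgw
    rw [map_mul, map_add, map_mul, map_mul] at h1
    have hrl : rs pa v lam = 0 := by
      rw [rs_linform pa v hl, T.lp, hevv]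
      simp
    rw [hrl, zero_mul, zero_add] at h1
    have h3 := congrArg (fun p : Polynomial K => p.coeff 3) h1
    have ht0 : (rs pa v (t 4)).coeff 0 = 0 := by rw [rs_coeff_zero, htp]
    have ht1 : (rs pa v (t 4)).coeff 1 = 0 := hd
    simp only [l5_c3, ht0, ht1, hc0', hdc', h2, zero_mul, mul_zero, add_zero, zero_add] at h3
    have h4 : (rs pa v c).coeff 3 = 0 := by
      rw [rs_coeff_zero] at h3
      exact (mul_eq_zero.1 h3.symm).resolve_right hw0
    apply h.la.nd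
    rw [← rs_eq_zero hpav hl hl0 T.lp hevv hcH]
    ext n
    rw [Polynomial.coeff_zero]
    by_cases hn : n ≤ 3
    · interval_cases n
      · exact hc0'
      · exact hdc'
      · exact h2
      · exact h4
    · exact Polynomial.coeff_eq_zero_of_natDegree_lt (lt_of_le_of_lt (rs_deg pa v hcH) (by omega))
  have hc2 : (rs pa v c).coeff 2 ≠ 0 := by
    intro h2
    rw [h2, zero_mul] at starv
    exact hdt (pow_eq_zero_iff (two_ne_zero) |>.1 starv)
  -- (vii)
  set g2 : K := (rs pa v c).coeff 2 with hg2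
  set g3 : K := (rs pa v c).coeff 3 with hg3
  set r : Fin 3 → K := g3 • pa + (-g2) • v with hr
  have hrl : eval r lam = 0 := by
    rw [hev]
    simp [hr, hv, pa, hl2]
    ring
  have hrc : eval r c = 0 := by
    rw [hr, rs_eval pa v hcH]
    simp only [Finset.sum_range_succ, Finset.sum_range_zero, hc0', hdc', ← hg2, ← hg3]
    ring
  have hrt : eval r (t 4) = 0 := by
    have h1 := congrArg (eval r) hgw
    rw [map_mul, map_add, map_mul, map_mul, hrl, hrc, zero_mul, zero_mul, add_zero] at h1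
    exact mul_self_eq_zero.1 h1
  have hpar : LinearIndependent K ![(pa : Fin 3 → K), r] := by
    rw [LinearIndependent.pair_iff]
    intro s q hsq
    rw [LinearIndependent.pair_iff] at hpav
    have h1 := hpav (s + q * g3) (-(q * g2)) (by
      rw [← hsq, hr]
      module)
    have h2 : q = 0 := by
      have := neg_eq_zero.1 h1.2
      exact (mul_eq_zero.1 this).resolve_right hc2
    refine ⟨?_, h2⟩
    have := h1.1
    rwa [h2, zero_mul, add_zero] at this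
  refine ⟨v, r, hevv, hpav, hpar, hrl, hc0, hrc, hdc, htp, hrt, hdt, hc2, hdvl, ?_⟩
  -- (viii)
  intro κ hκ s hs1 hs2
  have hκH := KK_le _ hκ
  have h1 := ((mem_KK hl).1 hκ).2
  have h2 : l 0 * dr pa eb κ + l 1 * dr pa ea κ = 0 := by
    rw [l5_dra hκH, l5_drb hκH]
    rw [dot, ← hldef, hl2] at h1
    linear_combination h1
  rw [hs1, hs2] at h2
  have e1 := star 1 0
  have e2 := star 0 1
  have e3 := star 1 1
  rw [one_smul, one_smul, l5_add h.la.hc] at e3
  rw [one_smul, zero_smul, add_zero] at e1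
  rw [one_smul, zero_smul, zero_add] at e2
  have h3 : 2 * (dr pa ea (t 4) * dr pa eb (t 4)) = 0 := by
    linear_combination e3 - e1 - e2
  rw [drv] at hdt
  have h4 : s = 0 := by
    have h5 : s * (l 0 * dr pa eb (t 4) + l 1 * dr pa ea (t 4)) = 0 := by linear_combination h2
    refine (mul_eq_zero.1 h5).resolve_right fun h6 => hdt ?_
    have h7 : (-l 1 * dr pa ea (t 4) + l 0 * dr pa eb (t 4)) ^ 2 = 0 := by
      linear_combination (l 0 * dr pa eb (t 4) + l 1 * dr pa ea (t 4)) * h6 - 2 * (l 0 * l 1) * h3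
    exact pow_eq_zero_iff (two_ne_zero) |>.1 h7
  rw [hs1, hs2, h4]
  simp

end Pool.Agent.BR
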