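import Pool.Agent.Work.MP_be705b_al.II.PBDefs

set_option autoImplicit false
set_option linter.unusedSectionVars false
set_option linter.unusedVariables false

/-!
# MP_be705b_al, type II, Lemma A at `pb`, module L7 (M): the spaces `U2 = dv mu ⊔ V 4` and `Cb = cubics ⊓ Jb 3`

`S2 := out (V 4 ⊔ dv lam)` (3 vertices, `cl 2 = cl 3 = 3`, `nb b (out (V 4)) = S2`).  `mu (pb) = 2 ≠ 0` so `LA.pm` applies: `c = mu * del`,
`del ∈ Ps pb mu`, `U2 ∈ LL`.  `z := X 2`, `z^2 ∈ Ph pb` is not divisible by `mu`, so `Ph pb = mulS mu L ⊔ span {z^2}` (`TII.Ph_eq`; `z^2 ∈ N K`).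
* `U2 = dv mu ⊔ span {lam * z^2}`: `V 4 = lam Ph + c`, `lam mu L ≤ dv mu` (`V2_le_dv_mu`, `TII.V2`), `c = mu del ∈ dv mu`.
* `mem_U2`: the line `mu = 0` is `rs pz pa` (`mu (pz) = mu (pa) = 0`): `x ∈ cubics` with `rs x = s * rs (lam z^2)` iff `mu ∣ x - s lam z^2`
  (`rs_eq_zero`) iff `x - s lam z^2 ∈ dv mu` (`mem_dv`).
* `mem_U2W`: `f ∈ H 6`: `f = mu g + lam z^2 w`, `g ∈ H 5 = KK mu * cubics`, `w ∈ cubics` iff `rs f = rs (lam z^2) * rs w` and `rs : cubics → (degree ≤ 3)`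
  is onto (`rs_surj3`, `rs_deg`).  `mem_U2W6`: only this direction: `f ∈ H 9`, `rs f = rs (lam z^2) * g`, `deg g ≤ 6`, choose `w ∈ H 6` (`rs_surj`).
* `out_U2`: `finrank U2 = 6` (`lam z^2 ∉ dv mu`: `mu ∤ lam z^2`), `finrank (U2 * cubics) = 21 + 9 - 5 = 25`, `finrank (U2 * H 6) = 45 + 28 - 21 = 52`, so
  `T := out U2` has card 3, `cl 2 T = 3`, `cl 3 T = 3`.  `T ⊆ out (V 4) = {b, m} ∪ S2`.  `m ∉ T` by `gr_iso` (`nb m (out (V 4)) = ∅`).  If `b ∈ T` then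
  `T.erase b ⊆ S2 = nb b (out (V 4))`, `b` no loop: contradiction by `gr_full`.  So `T ⊆ S2`, equal cardinality.
* `Cb`: take `κ = X 0 ^ 2 ∈ Fp pb`, values `1` at `pb` and `pz`, `dr pz pa κ = 0`.  `LB.colB`, `LB.mem_colB`: `x ∈ Cb` iff `x ∈ cubics`, `x κ ∈ Ph * cubics = Jb 5`
  (`Ph_pb_mul5`), iff `x ∈ Jb 3` (`mem_Jb`, `dr_mul`).  So `cubics ⊓ Jb 3 = col K t (V 4) (lam * X 0 ^ 2) 1` is in `LL` with `out = S2`.
* `V4_le_Cb`: `c * κ ∈ Ph * cubics` (`LA.ck`), `lam Ph * κ ≤ Ph * cubics` (`lam κ ∈ cubics`).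
* `Cb_mul`: `≤` by `dr_mul`.  `finrank (Cb * cubics) = 28 - cl 2 S2 = 25 = 28 - 3 = finrank (Jb 6)` (`Fl.cl2`, `finrank_Jb`).
-/

namespace Pool.Agent.BR

open Submodule Module MvPolynomial

variable {K : Type*} [Field K] {t : Fin 9 → Pol K} {lam lam' mu c : Pol K} {b m : Fin 9}

/-! ### auxiliary lemmas -/

private theorem l7_dim {lam c : Pol K} (hl : lam ∈ H K 1) (h0 : lam ≠ 0) (nd : ¬ lam ∣ c)
    {Z S E : Submodule K (Pol K)} [Module.Finite K ↥Z] [Module.Finite K ↥S]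
    (hE : ∀ ε, lam * ε ∈ S ↔ ε ∈ E) (hZ : ∀ ε ∈ E, ε * c ∈ Z) :
    finrank K ↥(mulS lam Z ⊔ mulS c S) + finrank K ↥E = finrank K ↥Z + finrank K ↥S := by
  have hc0 : c ≠ 0 := by
    rintro rfl
    exact nd (dvd_zero _)
  have i1 : Module.Finite K ↥(mulS lam Z) := Module.Finite.map _ _
  have i2 : Module.Finite K ↥(mulS c S) := Module.Finite.map _ _
  have h1 := Submodule.finrank_sup_add_finrank_inf_eq (mulS lam Z) (mulS c S)
  have h2 : mulS lam Z ⊓ mulS c S = mulS (c * lam) E := by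
    ext x
    rw [mem_inf, mem_mulS, mem_mulS, mem_mulS]
    constructor
    · rintro ⟨⟨z, hz, rfl⟩, w, hw, he⟩
      have h3 : lam ∣ c * w := ⟨z, he⟩
      obtain ⟨ε, rfl⟩ := ((prime_lin hl h0).dvd_or_dvd h3).resolve_left nd
      refine ⟨ε, (hE ε).1 hw, ?_⟩
      rw [← he]
      ring
    · rintro ⟨ε, hε, rfl⟩
      refine ⟨⟨ε * c, hZ ε hε, by ring⟩, lam * ε, (hE ε).2 hε, by ring⟩
  rw [h2, finrank_mulS (mul_ne_zero hc0 h0), finrank_mulS h0, finrank_mulS hc0] at h1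
  exact h1

private theorem l7_E {lam : Pol K} (hl : lam ∈ H K 1) (h0 : lam ≠ 0) (d : ℕ) (ε : Pol K) :
    lam * ε ∈ H K (1 + d) ↔ ε ∈ H K d := by
  constructor
  · intro h
    obtain ⟨κ, hκ, he⟩ := exists_quot (a := 1) (b := d) hl h0 h (dvd_mul_right _ _)
    rwa [← mul_left_cancel₀ h0 he] at hκ
  · intro h
    exact mul_mem_H hl h

private theorem l7_KK {lam : Pol K} (hl : lam ∈ H K 1) (h0 : lam ≠ 0) (ε : Pol K) :
    lam * ε ∈ cubics K ↔ ε ∈ KK lam := by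
  rw [mem_KK' hl]
  constructor
  · intro h
    exact ⟨(l7_E hl h0 2 ε).1 (cubics_le h), h⟩
  · exact fun h => h.2

private theorem l7_fincub : Module.Finite K ↥(cubics K) := Submodule.finiteDimensional_of_le cubics_le

/-- dimension of the sum of `mulS lam X` and `c`, `lam` does not divide `c` -/
private theorem l7_dim1 {lam c : Pol K} (h0 : lam ≠ 0) (nd : ¬ lam ∣ c)
    {X : Submodule K (Pol K)} [Module.Finite K ↥X] :
    finrank K ↥(mulS lam X ⊔ span K {c}) = finrank K ↥X + 1 := by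
  have hc0 : c ≠ 0 := by
    rintro rfl
    exact nd (dvd_zero _)
  have i1 : Module.Finite K ↥(mulS lam X) := Module.Finite.map _ _
  have h1 := Submodule.finrank_sup_add_finrank_inf_eq (mulS lam X) (span K {c})
  have h2 : mulS lam X ⊓ span K {c} = ⊥ := by
    rw [eq_bot_iff]
    intro x hx
    obtain ⟨h3, h4⟩ := mem_inf.1 hx
    obtain ⟨u, _, hu⟩ := mem_mulS.1 h3
    obtain ⟨a, ha⟩ := mem_span_singleton.1 h4
    rw [mem_bot]
    by_cases ha0 : a = 0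
    · rw [← ha, ha0, zero_smul]
    · exfalso
      apply nd
      refine ⟨a⁻¹ • u, ?_⟩
      rw [mul_smul_comm, hu, ← ha, smul_smul, inv_mul_cancel₀ ha0, one_smul]
  rw [h2, finrank_bot, add_zero, finrank_mulS h0, finrank_span_singleton hc0] at h1
  exact h1

private theorem l7_line : LinearIndependent K ![(pz : Fin 3 → K), pa] := by
  rw [LinearIndependent.pair_iff]
  intro a b hab
  have h0 := congrFun hab 0
  have h2 := congrFun hab 2
  simp only [pz, pa, Pi.add_apply, Pi.smul_apply, smul_eq_mul, Matrix.cons_val_zero, Matrix.cons_val,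
    Pi.zero_apply, mul_one, mul_zero, add_zero, zero_add] at h0 h2
  exact ⟨h0, h2⟩

namespace PB

theorem fl (h : PB t lam lam' mu c b m) : Fl t := h.lb.la.h.t2.fl

private theorem mH (h : PB t lam lam' mu c b m) : mu ∈ H K 1 := h.lb.la.h.t2.hm

private theorem m0 (h : PB t lam lam' mu c b m) : mu ≠ 0 := h.lb.la.h.t2.m0

private theorem mz (h : PB t lam lam' mu c b m) : eval pz mu = 0 := by
  rw [h.hm]
  simp [pz]

private theorem ma (h : PB t lam lam' mu c b m) : eval pa mu = 0 := by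
  rw [h.hm]
  simp [pa]

private theorem mb (h : PB t lam lam' mu c b m) : eval pb mu ≠ 0 := by
  rw [h.hm]
  simp only [pb, map_add, eval_X, Matrix.cons_val_zero, Matrix.cons_val_one]
  have := h.two
  rwa [one_add_one_eq_two]

private theorem rs0 (h : PB t lam lam' mu c b m) {n : ℕ} {f : Pol K} (hf : f ∈ H K n) :
    rs pz pa f = 0 ↔ mu ∣ f := rs_eq_zero l7_line h.mH h.m0 h.mz h.ma hf

private theorem z2N : (X 2 ^ 2 : Pol K) ∈ N K := subset_span (by simp)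

private theorem z2H : (X 2 ^ 2 : Pol K) ∈ H K 2 := N_le z2N

private theorem z2Ph : (X 2 ^ 2 : Pol K) ∈ Ph (pb : Fin 3 → K) := by
  refine mem_inf.2 ⟨N_le_Fp _ z2N, mem_IP.2 ⟨z2H, ?_⟩⟩
  simp [pb]

private theorem rsz (h : PB t lam lam' mu c b m) : rs pz pa (X 2 : Pol K) = Polynomial.X := by
  rw [rs_X]
  simp [pz, pa]

private theorem nz2 (h : PB t lam lam' mu c b m) : ¬ mu ∣ X 2 ^ 2 := by
  rw [← h.rs0 z2H, map_pow, h.rsz]
  exact pow_ne_zero _ Polynomial.X_ne_zero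

private theorem nlam (h : PB t lam lam' mu c b m) : ¬ mu ∣ lam := by
  intro hd
  obtain ⟨k, hk⟩ := dvd_lin h.mH h.lb.la.h.t2.ha h.m0 hd
  have h1 := h.lb.la.h.lp
  rw [hk, map_mul, eval_C] at h1
  have h2 := (mul_eq_zero.1 h1).resolve_right h.mb
  rw [h2, map_zero, zero_mul] at hk
  exact h.lb.la.h.L0 hk

private theorem nlz (h : PB t lam lam' mu c b m) : ¬ mu ∣ lam * X 2 ^ 2 := by
  intro hd
  rcases (prime_lin h.mH h.m0).dvd_or_dvd hd with h1 | h1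
  · exact h.nlam h1
  · exact h.nz2 h1

private theorem lzW (h : PB t lam lam' mu c b m) : lam * X 2 ^ 2 ∈ cubics K := by
  rw [mul_comm, ← N_mul_H1]
  exact mul_mem_mul z2N h.lb.la.h.t2.ha

theorem ll_U2 (h : PB t lam lam' mu c b m) : LL K t (dv mu ⊔ V K t 4) := (h.lb.la.pm h.mb).2

theorem U2_le (h : PB t lam lam' mu c b m) : dv mu ⊔ V K t 4 ≤ cubics K :=
  sup_le (dv_le h.mH) (h.fl.V_le 4)

private theorem U2_eq (h : PB t lam lam' mu c b m) :
    dv mu ⊔ V K t 4 = dv mu ⊔ span K {lam * X 2 ^ 2} := by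
  obtain ⟨del, hdel, hc⟩ := (h.lb.la.pm h.mb).1
  have h1 := h.lb.la.h.Ph_eq z2Ph h.nz2
  have h2 := h.lb.la.h.V2_le_dv_mu
  rw [h.lb.la.h.V2, ← mulS_mulS] at h2
  have h3 : c ∈ dv mu := by
    rw [hc]
    exact mul_mem_mulS hdel.1
  apply le_antisymm
  · refine sup_le le_sup_left ?_
    rw [h.lb.la.v4, h1, mulS_sup]
    refine sup_le (sup_le (h2.trans le_sup_left) ?_) ?_
    · intro x hx
      obtain ⟨u, hu, rfl⟩ := mem_mulS.1 hx
      obtain ⟨a, rfl⟩ := mem_span_singleton.1 hu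
      rw [mul_smul_comm]
      exact smul_mem _ _ (mem_sup_right (mem_span_singleton_self _))
    · rw [span_singleton_le_iff_mem]
      exact mem_sup_left h3
  · refine sup_le le_sup_left ?_
    rw [span_singleton_le_iff_mem]
    exact mem_sup_right (h.lb.la.ph_le (mul_mem_mulS z2Ph))

private theorem U2_mul (h : PB t lam lam' mu c b m) {S Z : Submodule K (Pol K)} (hZ : KK mu * S = Z) :
    (dv mu ⊔ V K t 4) * S = mulS mu Z ⊔ mulS (lam * X 2 ^ 2) S := by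
  rw [h.U2_eq, Submodule.sup_mul, dv, mulS_mul, hZ, span_mul_eq']

theorem mem_U2 (h : PB t lam lam' mu c b m) {x : Pol K} (hx : x ∈ cubics K) :
    x ∈ dv mu ⊔ V K t 4 ↔ ∃ s : K, rs pz pa x = Polynomial.C s * rs pz pa (lam * X 2 ^ 2) := by
  rw [h.U2_eq]
  constructor
  · intro h1
    obtain ⟨d, hd, y, hy, rfl⟩ := mem_sup.1 h1
    obtain ⟨s, rfl⟩ := mem_span_singleton.1 hy
    refine ⟨s, ?_⟩
    have h2 := (mem_dv h.mH h.m0).1 hd
    rw [map_add, (h.rs0 (cubics_le h2.1)).2 h2.2, zero_add, smul_eq_C_mul, map_mul, rs_C]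
  · rintro ⟨s, hs⟩
    have h1 : x - s • (lam * X 2 ^ 2) ∈ cubics K := sub_mem hx (smul_mem _ _ h.lzW)
    have h2 : rs pz pa (x - s • (lam * X 2 ^ 2)) = 0 := by
      rw [map_sub, hs, smul_eq_C_mul, map_mul (rs pz pa) (C s), rs_C, sub_self]
    have h3 := (h.rs0 (cubics_le h1)).1 h2
    have h4 := (mem_dv h.mH h.m0).2 ⟨h1, h3⟩
    have h5 := add_mem (mem_sup_left (T := span K {lam * X 2 ^ 2}) h4)
      (mem_sup_right (S := dv mu) (smul_mem _ s (mem_span_singleton_self (lam * X 2 ^ 2))))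
    rwa [sub_add_cancel] at h5

theorem mem_U2W (h : PB t lam lam' mu c b m) {f : Pol K} (hf : f ∈ H K 6) :
    f ∈ (dv mu ⊔ V K t 4) * cubics K ↔ ∃ g : Polynomial K, g.natDegree ≤ 3 ∧
      rs pz pa f = rs pz pa (lam * X 2 ^ 2) * g := by
  rw [h.U2_mul (KK_mul h.mH h.m0)]
  constructor
  · intro h1
    obtain ⟨x, hx, y, hy, rfl⟩ := mem_sup.1 h1
    obtain ⟨u, hu, rfl⟩ := mem_mulS.1 hx
    obtain ⟨w, hw, rfl⟩ := mem_mulS.1 hy
    refine ⟨rs pz pa w, rs_deg _ _ (cubics_le hw), ?_⟩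
    have h2 : rs pz pa mu = 0 := (h.rs0 h.mH).2 (dvd_refl _)
    rw [map_add, map_mul _ mu u, h2, zero_mul, zero_add, map_mul]
  · rintro ⟨g, hg, hfg⟩
    obtain ⟨w, hw, hwg⟩ := rs_surj3 (l7_line (K := K)) hg
    have h1 : f - lam * X 2 ^ 2 * w ∈ H K 6 :=
      sub_mem hf (mul_mem_H (a := 3) (b := 3) (cubics_le h.lzW) (cubics_le hw))
    have h2 : rs pz pa (f - lam * X 2 ^ 2 * w) = 0 := by
      rw [map_sub, hfg, map_mul _ (lam * X 2 ^ 2) w, hwg, sub_self]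
    have h3 := (h.rs0 h1).1 h2
    obtain ⟨u, hu, he⟩ := exists_quot (a := 1) (b := 5) h.mH h.m0 h1 h3
    have h4 : f = mu * u + lam * X 2 ^ 2 * w := by
      rw [← he]
      ring
    rw [h4]
    exact add_mem (mem_sup_left (mul_mem_mulS hu)) (mem_sup_right (mul_mem_mulS hw))

theorem mem_U2W6 (h : PB t lam lam' mu c b m) {f : Pol K} (hf : f ∈ H K 9) {g : Polynomial K}
    (hg : g.natDegree ≤ 6) (hfg : rs pz pa f = rs pz pa (lam * X 2 ^ 2) * g) :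
    f ∈ (dv mu ⊔ V K t 4) * H K 6 := by
  rw [h.U2_mul (KK_mul6 h.mH h.m0)]
  obtain ⟨w, hw, hwg⟩ := rs_surj (l7_line (K := K)) hg
  have h1 : f - lam * X 2 ^ 2 * w ∈ H K 9 :=
    sub_mem hf (mul_mem_H (a := 3) (b := 6) (cubics_le h.lzW) hw)
  have h2 : rs pz pa (f - lam * X 2 ^ 2 * w) = 0 := by
    rw [map_sub, hfg, map_mul _ (lam * X 2 ^ 2) w, hwg, sub_self]
  have h3 := (h.rs0 h1).1 h2
  obtain ⟨u, hu, he⟩ := exists_quot (a := 1) (b := 8) h.mH h.m0 h1 h3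
  have h4 : f = mu * u + lam * X 2 ^ 2 * w := by
    rw [← he]
    ring
  rw [h4]
  exact add_mem (mem_sup_left (mul_mem_mulS hu)) (mem_sup_right (mul_mem_mulS hw))

theorem out_U2 (h : PB t lam lam' mu c b m) :
    out K t (dv mu ⊔ V K t 4) = out K t (V K t 4 ⊔ dv lam) := by
  have hmH := h.mH
  have hm0 := h.m0
  have i0 := l7_fincub (K := K)
  have hd : (out K t (dv mu ⊔ V K t 4)).card = 3 := by
    have h1 := h.fl.cl1 h.U2_le h.ll_U2
    have i1 : Module.Finite K ↥(KK mu) := Submodule.finiteDimensional_of_le (KK_le mu)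
    have h2 := l7_dim1 (X := KK mu) hm0 h.nlz
    rw [finrank_KK hmH hm0] at h2
    rw [h.U2_eq, dv, h2] at h1
    rw [h.U2_eq, dv]
    omega
  have hd2 : cl K t 2 (out K t (dv mu ⊔ V K t 4)) = 3 := by
    have h1 := h.fl.cl2 h.U2_le h.ll_U2
    have h2 := l7_dim (S := cubics K) (E := KK mu) (Z := H K 5) hmH hm0 h.nlz (l7_KK hmH hm0)
      (fun ε hε => mul_mem_H (a := 2) (b := 3) (KK_le _ hε) (cubics_le h.lzW))
    rw [finrank_H5, finrank_KK hmH hm0, finrank_cubics] at h2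
    rw [h.U2_mul (KK_mul hmH hm0)] at h1
    omega
  have hd3 : cl K t 3 (out K t (dv mu ⊔ V K t 4)) = 3 := by
    have h1 := h.fl.cl3 h.U2_le h.ll_U2
    have h2 := l7_dim (S := H K 6) (E := H K 5) (Z := H K 8) hmH hm0 h.nlz (l7_E hmH hm0 5)
      (fun ε hε => mul_mem_H (a := 5) (b := 3) hε (cubics_le h.lzW))
    rw [finrank_H8, finrank_H5, finrank_H6] at h2
    rw [h.U2_mul (KK_mul6 hmH hm0)] at h1
    omega
  have hsub : out K t (dv mu ⊔ V K t 4) ⊆ out K t (V K t 4) := out_mono le_sup_right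
  have hmT : m ∉ out K t (dv mu ⊔ V K t 4) := by
    intro hm
    refine gr_iso hd hd2 hd3 hm ?_
    rw [← Finset.subset_empty, ← h.lb.bm.mi]
    exact nb_mono _ hsub
  have hbT : b ∉ out K t (dv mu ⊔ V K t 4) := by
    intro hb
    refine gr_full hd hd2 hd3 hb h.lb.bm.bb ?_
    intro u hu
    obtain ⟨hu1, hu2⟩ := Finset.mem_erase.1 hu
    refine mem_nb.2 ⟨hu2, ?_⟩
    have hu3 : u ∈ nb K t b (out K t (V K t 4)) := by
      rw [h.lb.nbb, h.lb.bm.oD, h.lb.bm.oA]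
      refine Finset.mem_erase.2 ⟨?_, Finset.mem_erase.2 ⟨hu1, hsub hu2⟩⟩
      rintro rfl
      exact hmT hu2
    exact (mem_nb.1 hu3).2
  refine Finset.eq_of_subset_of_card_le ?_ ?_
  · intro u hu
    rw [h.lb.bm.oD, h.lb.bm.oA]
    refine Finset.mem_erase.2 ⟨?_, Finset.mem_erase.2 ⟨?_, hsub hu⟩⟩
    · rintro rfl
      exact hmT hu
    · rintro rfl
      exact hbT hu
  · rw [hd, h.lb.card]

private theorem x2N : (X 0 ^ 2 : Pol K) ∈ N K := subset_span (by simp)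

private theorem x2b : eval pb (X 0 ^ 2 : Pol K) = 1 := by simp [pb]

private theorem Cb_eq (h : PB t lam lam' mu c b m) :
    cubics K ⊓ Jb K 3 = col K t (V K t 4) (lam * X 0 ^ 2) 1 := by
  have hF : (X 0 ^ 2 : Pol K) ∈ Fp (pb : Fin 3 → K) := N_le_Fp _ x2N
  obtain ⟨e1, e2⟩ := Fp_pb hF
  rw [x2b] at e1
  ext x
  rw [h.lb.mem_colB hF, Ph_pb_mul5 h.two, mem_inf, mem_Jb, mem_Jb, map_mul, map_mul, dr_mul, x2b, e1, e2,
    mul_one, mul_one, mul_zero, zero_add, mul_one]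
  constructor
  · rintro ⟨h1, h2, h3, h4, h5⟩
    exact ⟨h1, mul_mem_H (a := 3) (b := 2) h2 (N_le x2N), h3, h4, h5⟩
  · rintro ⟨h1, h2, h3, h4, h5⟩
    exact ⟨h1, cubics_le h1, h3, h4, h5⟩

theorem ll_Cb (h : PB t lam lam' mu c b m) : LL K t (cubics K ⊓ Jb K 3) := by
  rw [h.Cb_eq]
  exact (h.lb.colB (N_le_Fp _ x2N) (by rw [x2b]; exact one_ne_zero)).1

theorem out_Cb (h : PB t lam lam' mu c b m) :
    out K t (cubics K ⊓ Jb K 3) = out K t (V K t 4 ⊔ dv lam) := by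
  rw [h.Cb_eq]
  exact (h.lb.colB (N_le_Fp _ x2N) (by rw [x2b]; exact one_ne_zero)).2

theorem V4_le_Cb (h : PB t lam lam' mu c b m) : V K t 4 ≤ cubics K ⊓ Jb K 3 := by
  have hF : (X 0 ^ 2 : Pol K) ∈ Fp (pb : Fin 3 → K) := N_le_Fp _ x2N
  rw [h.Cb_eq]
  intro x hx
  rw [h.lb.mem_colB hF]
  refine ⟨h.fl.V_le 4 hx, ?_⟩
  rw [h.lb.la.v4] at hx
  obtain ⟨y, hy, z, hz, rfl⟩ := mem_sup.1 hx
  obtain ⟨φ, hφ, rfl⟩ := mem_mulS.1 hy
  obtain ⟨a, rfl⟩ := mem_span_singleton.1 hz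
  rw [add_mul]
  refine add_mem ?_ ?_
  · have e : lam * φ * X 0 ^ 2 = φ * (X 0 ^ 2 * lam) := by ring
    rw [e]
    refine mul_mem_mul hφ ?_
    rw [← N_mul_H1]
    exact mul_mem_mul x2N h.lb.la.h.t2.ha
  · rw [smul_mul_assoc, mul_comm c]
    exact smul_mem _ _ (h.lb.la.ck _ (N_le_KK h.lb.la.h.t2.ha x2N))

theorem Cb_mul (h : PB t lam lam' mu c b m) : (cubics K ⊓ Jb K 3) * cubics K = Jb K 6 := by
  have hle : (cubics K ⊓ Jb K 3) * cubics K ≤ Jb K 6 := by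
    rw [mul_le]
    intro f hf g hg
    obtain ⟨h1, h2, h3, h4⟩ := mem_Jb.1 (mem_inf.1 hf).2
    rw [mem_Jb]
    refine ⟨mul_mem_H (a := 3) (b := 3) h1 (cubics_le hg), ?_, ?_, ?_⟩
    · rw [map_mul, h2, zero_mul]
    · rw [map_mul, h3, zero_mul]
    · rw [dr_mul, h3, h4, zero_mul, zero_mul, add_zero]
  have i1 : Module.Finite K ↥(Jb K 6) := Submodule.finiteDimensional_of_le (inf_le_left.trans (IP_le pb 6))
  refine Submodule.eq_of_le_of_finrank_le hle ?_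
  have h1 := h.fl.cl2 inf_le_left h.ll_Cb
  rw [h.out_Cb, h.lb.cl2] at h1
  have h2 : finrank K ↥(Jb K 6) + 3 = finrank K ↥(H K 6) := finrank_Jb h.two 4
  rw [finrank_H6] at h2
  have e1 : finrank K ↥(Jb K 6) = 25 := Nat.add_right_cancel h2
  have e2 : finrank K ↥((cubics K ⊓ Jb K 3) * cubics K) = 25 := Nat.add_right_cancel h1
  exact (e1.trans e2.symm).le

end PB

end Pool.Agent.BR
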