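import Pool.Agent.Work.MP_be705b_al.II.L4
import Pool.Agent.Work.MP_be705b_al.II.R2

set_option autoImplicit false
set_option linter.unusedSectionVars false
set_option linter.unusedVariables false

/-!
# MP_be705b_al, type II, Lemma A at `pa = (0, 0, 1)`: the structure `PA` (definition only)

`v` = direction of the line `lam = 0` through `pa`; `r` = third zero of `c` on this line (`c` vanishes twice at `pa`).
-/

namespace Pool.Agent.BR

open Submodule Module MvPolynomial

variable {K : Type*} [Field K]

/-- what is known about `c` and `t 4` in Lemma A at `pa` -/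
structure PA (t : Fin 9 → Pol K) (lam c : Pol K) (v r : Fin 3 → K) : Prop where
  hv : eval v lam = 0
  ipv : LinearIndependent K ![pa, v]
  ipr : LinearIndependent K ![pa, r]
  hr : eval r lam = 0
  cp : eval pa c = 0
  cr : eval r c = 0
  dc : dr pa v c = 0
  tp : eval pa (t 4) = 0
  tr : eval r (t 4) = 0
  dt : dr pa v (t 4) ≠ 0
  c2 : (rs pa v c).coeff 2 ≠ 0
  dvl : ∀ f : Pol K, dr pa ea f = 0 → dr pa eb f = 0 → dr pa v f = 0
  tf : ∀ κ ∈ KK lam, ∀ s : K, dr pa ea κ = s * dr pa ea (t 4) → dr pa eb κ = s * dr pa eb (t 4) →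
    dr pa ea κ = 0 ∧ dr pa eb κ = 0

end Pool.Agent.BR
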