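import Pool.Agent.Work.MP_be705b_al.II.L4
import Pool.Agent.Work.MP_be705b_al.II.R2

set_option autoImplicit false
set_option linter.unusedSectionVars false
set_option linter.unusedVariables false

/-!
# MP_be705b_al, type II, Lemma A at `pb = (1, 1, 0)`: the structures `PB`, `PC` (definitions only)

`PB`: Lemma A at `pb` with `mu = x + y`, characteristic not two.  `pz = (1, -1, 0)`, `pa = (0, 0, 1)` are on the line `mu = 0`.
`PC`: in addition `lam = x - y + α z`, `q = (-α, α, 2)` (the common zero of `lam` and `mu`), and the case which survives: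
`t 4` vanishes at `pb, pz, q`, is not zero in `dr pz pa`, `4` is no loop and has exactly one neighbour in `out (V 4 ⊔ dv lam)`.
-/

namespace Pool.Agent.BR

open Submodule Module MvPolynomial

variable {K : Type*} [Field K]

/-- Lemma A at `pb` -/
structure PB (t : Fin 9 → Pol K) (lam lam' mu c : Pol K) (b m : Fin 9) : Prop where
  lb : LB t pb lam lam' mu c b m
  hm : mu = X 0 + X 1
  two : (2 : K) ≠ 0

/-- the surviving case for `t 4` -/
structure PC (t : Fin 9 → Pol K) (lam lam' mu c : Pol K) (b m : Fin 9) (al : K) : Prop where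
  h : PB t lam lam' mu c b m
  hl : lam = X 0 - X 1 + C al * X 2
  tb : eval pb (t 4) = 0
  tz : eval pz (t 4) = 0
  td : dr pz pa (t 4) ≠ 0
  tq : eval ![-al, al, 2] (t 4) = 0
  k1 : (nb K t 4 (out K t (V K t 4 ⊔ dv lam))).card = 1
  nl : ¬ Adj K t 4 4

end Pool.Agent.BR
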