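import Pool.Agent.Work.MP_be705b_al.II.B1

set_option autoImplicit false
set_option linter.unusedSectionVars false
set_option linter.unusedVariables false

/-!
# MP_be705b_al, type II, module Q1 (M): the base point `pa = (0, 0, 1)`

`Fp pa = N + span {X 0 * X 1}`, `Ph pa = span {X 0 ^ 2, X 0 * X 1, X 1 ^ 2}`, `Ja K n` = forms of degree `n` of order `≥ 2` at `pa`,
i.e. the coefficients of `z^n`, `x z^(n-1)`, `y z^(n-1)` vanish.

PROOFS.
* `Ph_pa`: `cr pa = X 0 * X 1`; an element of `Fp pa` vanishes at `pa` iff its coefficient of `z ^ 2` is `0`.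
* `mem_Ja'`: `eval pa f = cf 0 0 n f`, `dr pa ea f = cf 1 0 (n-1) f`, `dr pa eb f = cf 0 1 (n-1) f` for `f ∈ H K n`, `n ≥ 1` (check on monomials).
  So `Ja K n` is the span of the monomials `x^a y^b z^c`, `a + b + c = n`, `a + b ≥ 2`, and `finrank (Ja K n) + 3 = finrank (H K n)`, `n ≥ 1`.
* `Ph_mul5`: `⊆`: `dr_mul`.  `⊇`: a monomial `x^a y^b z^c` of degree 5 with `a + b ≥ 2` is `m * w` with `m ∈ {x^2, x y, y^2}` and `w` a
  cubic monomial `≠ x y z`: (if `c = 0`: any splitting;) if dividing by one of the three gives `x y z`, then the monomial is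
  `x^3 y z` (use `x y * x^2 z`), `x^2 y^2 z` (use `x^2 * y^2 z`), `x y^3 z` (use `x y * y^2 z`).
* `Ph_mul8`: `Ph * H 6 = Ph * cubics * cubics = Ja 5 * cubics`; a monomial of degree `8` with `a + b ≥ 2` is one of degree 5 with
  `a + b ≥ 2` times a cubic monomial `≠ x y z`; or directly `m * H 6`.  The same for `11`.
* dimensions: `21 - 3`, `45 - 3`, `78 - 3`.
* `sat`: `e * X i ^ 3 ∈ Ja 5` for `i = 2` gives `e (pa) = 0` and `dr e = 0`, so `e ∈ Ja 2 = Ph pa`.
* `phib`: `lam (pa) = 0`, `lam ≠ 0` so `lam (ea) ≠ 0` or `lam (eb) ≠ 0`; `dr pa v (lam * (κ * κ)) = lam (v) * κ (pa) ^ 2` (`dr_linform`).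
-/

namespace Pool.Agent.BR

open Submodule Module MvPolynomial

variable {K : Type*} [Field K] {t : Fin 9 → Pol K} {lam lam' mu : Pol K}

/-! ### auxiliary lemmas -/

private theorem q1_ext {d : ℕ} {L L' : Pol K →ₗ[K] K}
    (h : ∀ a b c, a + b + c = d → L (X 0 ^ a * X 1 ^ b * X 2 ^ c) = L' (X 0 ^ a * X 1 ^ b * X 2 ^ c))
    {f : Pol K} (hf : f ∈ H K d) : L f = L' f := by
  have h1 : H K d ≤ LinearMap.ker (L - L') := by
    refine H_le fun a b c habc => ?_
    rw [LinearMap.mem_ker, LinearMap.sub_apply, h a b c habc, sub_self]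
  have h2 := h1 hf
  rwa [LinearMap.mem_ker, LinearMap.sub_apply, sub_eq_zero] at h2

private theorem q1_ev {n : ℕ} {f : Pol K} (hf : f ∈ H K (n + 1)) : eval pa f = cf 0 0 (n + 1) f := by
  have h := q1_ext (L := (aeval (pa : Fin 3 → K) : Pol K →ₐ[K] K).toLinearMap) (L' := cf 0 0 (n + 1))
    (d := n + 1) ?_ hf
  · rwa [AlgHom.toLinearMap_apply, aeval_eq_eval] at h
  · intro a b c habc
    rw [AlgHom.toLinearMap_apply, aeval_eq_eval, cf_mono]
    simp only [map_mul, map_pow, eval_X, pa, Matrix.cons_val_zero, Matrix.cons_val_one,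
      Matrix.cons_val, one_pow, mul_one]
    by_cases ha : a = 0
    · by_cases hb : b = 0
      · rw [if_pos ⟨ha.symm, hb.symm, by omega⟩, ha, hb]
        simp
      · rw [if_neg (by omega), zero_pow hb, mul_zero]
    · rw [if_neg (by omega), zero_pow ha, zero_mul]

private theorem q1_dra {n : ℕ} {f : Pol K} (hf : f ∈ H K (n + 1)) : dr pa ea f = cf 1 0 n f := by
  refine q1_ext ?_ hf
  intro a b c habc
  rw [dr_apply, cf_mono]
  simp only [map_mul, map_pow, rs_X, pa, ea, Matrix.cons_val_zero, Matrix.cons_val_one,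
      Matrix.cons_val, map_zero, map_one, zero_mul, one_mul, zero_add, add_zero, one_pow, mul_one]
  by_cases hb : b = 0
  · rw [hb, pow_zero, mul_one, Polynomial.coeff_X_pow]
    by_cases ha : 1 = a
    · rw [if_pos ha, if_pos ⟨ha, rfl, by omega⟩]
    · rw [if_neg ha, if_neg (by omega)]
  · rw [if_neg (by omega), zero_pow hb, mul_zero, Polynomial.coeff_zero]

private theorem q1_drb {n : ℕ} {f : Pol K} (hf : f ∈ H K (n + 1)) : dr pa eb f = cf 0 1 n f := by
  refine q1_ext ?_ hf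
  intro a b c habc
  rw [dr_apply, cf_mono]
  simp only [map_mul, map_pow, rs_X, pa, eb, Matrix.cons_val_zero, Matrix.cons_val_one,
      Matrix.cons_val, map_zero, map_one, zero_mul, one_mul, zero_add, add_zero, one_pow, mul_one]
  by_cases ha : a = 0
  · rw [ha, pow_zero, one_mul, Polynomial.coeff_X_pow]
    by_cases hb : 1 = b
    · rw [if_pos hb, if_pos ⟨rfl, hb, by omega⟩]
    · rw [if_neg hb, if_neg (by omega)]
  · rw [if_neg (by omega), zero_pow ha, zero_mul, Polynomial.coeff_zero]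

private theorem q1_mem {n : ℕ} {f : Pol K} :
    f ∈ Ja K (n + 1) ↔ f ∈ H K (n + 1) ∧ cf 0 0 (n + 1) f = 0 ∧ cf 1 0 n f = 0 ∧ cf 0 1 n f = 0 := by
  rw [mem_Ja]
  constructor
  · rintro ⟨h, h1, h2, h3⟩
    rw [q1_ev h] at h1
    rw [q1_dra h] at h2
    rw [q1_drb h] at h3
    exact ⟨h, h1, h2, h3⟩
  · rintro ⟨h, h1, h2, h3⟩
    rw [← q1_ev h] at h1
    rw [← q1_dra h] at h2
    rw [← q1_drb h] at h3
    exact ⟨h, h1, h2, h3⟩

private theorem q1_mono {a b c n : ℕ} (h : a + b + c = n + 1) (h2 : 2 ≤ a + b) :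
    (X 0 ^ a * X 1 ^ b * X 2 ^ c : Pol K) ∈ Ja K (n + 1) := by
  rw [q1_mem]
  refine ⟨mono_mem' h, ?_, ?_, ?_⟩
  · rw [cf_mono, if_neg (by omega)]
  · rw [cf_mono, if_neg (by omega)]
  · rw [cf_mono, if_neg (by omega)]

private theorem q1_le {n : ℕ} {S : Submodule K (Pol K)}
    (h : ∀ a b c, a + b + c = n + 1 → 2 ≤ a + b → (X 0 ^ a * X 1 ^ b * X 2 ^ c : Pol K) ∈ S) :
    Ja K (n + 1) ≤ S := by
  intro f hf
  obtain ⟨h1, h2, h3, h4⟩ := q1_mem.1 hf
  refine mem_span_mono fun a b c hc => ?_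
  have hd : a + b + c = n + 1 := by
    by_contra hd
    exact hc (cf_eq_zero h1 hd)
  refine h a b c hd ?_
  by_contra hlt
  have h5 : (a = 0 ∧ b = 0 ∧ c = n + 1) ∨ (a = 1 ∧ b = 0 ∧ c = n) ∨ (a = 0 ∧ b = 1 ∧ c = n) := by
    omega
  rcases h5 with ⟨rfl, rfl, rfl⟩ | ⟨rfl, rfl, rfl⟩ | ⟨rfl, rfl, rfl⟩
  · exact hc h2
  · exact hc h3
  · exact hc h4

private theorem q1_mul_le (a b : ℕ) : Ja K a * H K b ≤ Ja K (a + b) := by
  rw [mul_le]
  intro f hf g hg
  obtain ⟨h1, h2, h3, h4⟩ := mem_Ja.1 hf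
  rw [mem_Ja]
  refine ⟨mul_mem_H h1 hg, ?_, ?_, ?_⟩
  · rw [map_mul, h2, zero_mul]
  · rw [dr_mul, h2, h3, zero_mul, zero_mul, add_zero]
  · rw [dr_mul, h2, h4, zero_mul, zero_mul, add_zero]

private theorem q1_mul (n : ℕ) : Ja K 2 * H K n = Ja K (n + 2) := by
  apply le_antisymm
  · refine (q1_mul_le 2 n).trans ?_
    rw [add_comm]
  · refine q1_le (n := n + 1) fun a b c h h2 => ?_
    have h3 : ∃ i j, i ≤ a ∧ j ≤ b ∧ i + j = 2 := ⟨min a 2, 2 - min a 2, by omega, by omega, by omega⟩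
    obtain ⟨i, j, hi, hj, hij⟩ := h3
    rw [mono_split hi hj (Nat.zero_le c)]
    exact mul_mem_mul (q1_mono (n := 1) (by omega) (by omega)) (mono_mem' (by omega))

theorem Ph_pa : Ph (pa : Fin 3 → K) = Ja K 2 := by
  apply le_antisymm
  · intro f hf
    obtain ⟨h1, h2⟩ := mem_inf.1 hf
    rw [q1_mem (n := 1)]
    have h3 : f ∈ H K (1 + 1) := Fp_le _ h1
    have h4 := (mem_IP.1 h2).2
    rw [q1_ev h3] at h4
    rw [Fp] at h1
    obtain ⟨g, hg, k, hk, rfl⟩ := mem_sup.1 h1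
    obtain ⟨c, rfl⟩ := mem_span_singleton.1 hk
    have h5 : hat (g + c • cr (pa : Fin 3 → K)) = c • pa := by
      rw [hat_add, hat_of_N hg, hat_smul, (cf_cr _).2, zero_add]
    refine ⟨h3, h4, ?_, ?_⟩
    · have h6 := congrFun h5 1
      simpa [hat, pa] using h6
    · have h6 := congrFun h5 0
      simpa [hat, pa] using h6
  · refine q1_le (n := 1) fun a b c h h2 => ?_
    rw [Ph, mem_inf]
    constructor
    · have h3 : (a = 2 ∧ b = 0 ∧ c = 0) ∨ (a = 1 ∧ b = 1 ∧ c = 0) ∨ (a = 0 ∧ b = 2 ∧ c = 0) := by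
        omega
      rw [Fp]
      rcases h3 with ⟨rfl, rfl, rfl⟩ | ⟨rfl, rfl, rfl⟩ | ⟨rfl, rfl, rfl⟩
      · refine mem_sup_left ?_
        rw [N]
        apply subset_span
        simp
      · refine mem_sup_right (mem_span_singleton.2 ⟨1, ?_⟩)
        simp [cr, pa]
      · refine mem_sup_left ?_
        rw [N]
        apply subset_span
        simp
    · rw [mem_IP]
      have h3 := mem_Ja.1 (q1_mono (K := K) h h2)
      exact ⟨h3.1, h3.2.1⟩

theorem mem_Ja' {n : ℕ} {f : Pol K} (hf : f ∈ H K (n + 1)) :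
    eval pa f = cf 0 0 (n + 1) f ∧ dr pa ea f = cf 1 0 n f ∧ dr pa eb f = cf 0 1 n f :=
  ⟨q1_ev hf, q1_dra hf, q1_drb hf⟩

theorem finrank_Ja (n : ℕ) : finrank K ↥(Ja K (n + 1)) + 3 = finrank K ↥(H K (n + 1)) := by
  have h1 : Ja K (n + 1) = span K ((fun p : ℕ × ℕ × ℕ =>
      (X 0 ^ p.1 * X 1 ^ p.2.1 * X 2 ^ p.2.2 : Pol K)) ''
        ((exf (n + 1)).filter fun p => 2 ≤ p.1 + p.2.1 : Finset (ℕ × ℕ × ℕ))) := by
    apply le_antisymm
    · refine q1_le fun a b c h h2 => subset_span ⟨(a, b, c), ?_, rfl⟩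
      rw [Finset.mem_coe, Finset.mem_filter, mem_exf]
      exact ⟨h, h2⟩
    · rw [span_le]
      rintro _ ⟨p, hp, rfl⟩
      rw [Finset.mem_coe, Finset.mem_filter, mem_exf] at hp
      exact q1_mono hp.1 hp.2
  rw [h1, finrank_span_mono, finrank_H']
  have h2 := Finset.card_filter_add_card_filter_not (s := exf (n + 1)) (fun p => 2 ≤ p.1 + p.2.1)
  rw [← h2]
  congr 1
  have h3 : ((exf (n + 1)).filter fun p => ¬ 2 ≤ p.1 + p.2.1) = {(0, 0, n + 1), (1, 0, n), (0, 1, n)} := by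
    ext ⟨a, b, c⟩
    simp only [Finset.mem_filter, mem_exf, Finset.mem_insert, Finset.mem_singleton, Prod.mk.injEq]
    omega
  rw [h3]
  rw [Finset.card_insert_of_notMem, Finset.card_insert_of_notMem, Finset.card_singleton]
  · simp
  · simp

theorem Ph_pa_mul5 : Ph (pa : Fin 3 → K) * cubics K = Ja K 5 := by
  rw [Ph_pa]
  apply le_antisymm
  · exact (mul_le_mul_right cubics_le _).trans (q1_mul_le 2 3)
  · refine q1_le (n := 4) fun a b c h h2 => ?_
    have h3 : ∃ i j, i ≤ a ∧ j ≤ b ∧ i + j = 2 ∧ (a - i = 0 ∨ b - j = 0 ∨ c = 0) := by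
      by_cases hc : c = 0
      · exact ⟨min a 2, 2 - min a 2, by omega, by omega, by omega, by omega⟩
      · by_cases ha : a ≤ 2
        · exact ⟨a, 2 - a, by omega, by omega, by omega, by omega⟩
        · by_cases hb : b = 0
          · exact ⟨2, 0, by omega, by omega, by omega, by omega⟩
          · exact ⟨1, 1, by omega, by omega, by omega, by omega⟩
    obtain ⟨i, j, hi, hj, hij, h0⟩ := h3
    rw [mono_split hi hj (Nat.zero_le c)]
    exact mul_mem_mul (q1_mono (n := 1) (by omega) (by omega)) (mono_mem_cubics (by omega) (by omega))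

theorem Ph_pa_mul8 : Ph (pa : Fin 3 → K) * H K 6 = Ja K 8 := by
  rw [Ph_pa, q1_mul]

theorem Ph_pa_mul11 : Ph (pa : Fin 3 → K) * H K 9 = Ja K 11 := by
  rw [Ph_pa, q1_mul]

theorem tii_pa (h : T2 t lam lam' mu) (h1 : eval pa lam = 0) (h2 : eval pa lam' = 0) :
    TII t pa lam lam' mu := by
  have hz : (X 2 ^ 3 : Pol K) ∈ cubics K := by
    have := mono_mem_cubics (K := K) (a := 0) (b := 0) (c := 3) (by norm_num) (by norm_num)
    simpa using this
  have ez : eval pa (X 2 ^ 3 : Pol K) = 1 := by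
    simp [pa]
  refine ⟨h, ?_, h1, h2, ?_, ?_, ?_, ?_, ?_⟩
  · intro h0
    have := congrFun h0 2
    simp [pa] at this
  · intro e he hw
    have h3 := hw _ hz
    rw [Ph_pa_mul5, mem_Ja] at h3
    obtain ⟨-, h4, h5, h6⟩ := h3
    rw [map_mul, ez, mul_one] at h4
    rw [dr_mul, h4, ez, zero_mul, zero_add, mul_one] at h5 h6
    rw [Ph_pa, mem_Ja]
    exact ⟨he, h4, h5, h6⟩
  · have h3 : finrank K ↥(Ja K 5) + 3 = finrank K ↥(H K 5) := finrank_Ja 4
    rw [finrank_H5] at h3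
    rw [Ph_pa_mul5]
    omega
  · have h3 : finrank K ↥(Ja K 8) + 3 = finrank K ↥(H K 8) := finrank_Ja 7
    rw [finrank_H8] at h3
    rw [Ph_pa_mul8]
    omega
  · have h3 : finrank K ↥(Ja K 11) + 3 = finrank K ↥(H K 11) := finrank_Ja 10
    rw [finrank_H11] at h3
    rw [Ph_pa_mul11]
    omega
  · intro κ hκ h0 hcon
    rw [Ph_pa_mul5, mem_Ja] at hcon
    obtain ⟨-, -, h5, h6⟩ := hcon
    rw [dr_mul, h1, zero_mul, zero_add, map_mul, dr_linform _ _ h.ha] at h5 h6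
    have h7 : eval ea lam = 0 := (mul_eq_zero.1 h5).resolve_right (mul_ne_zero h0 h0)
    have h8 : eval eb lam = 0 := (mul_eq_zero.1 h6).resolve_right (mul_ne_zero h0 h0)
    have h9 : lc lam = 0 := by
      rw [← lin_lc h.ha, eval_lin] at h1 h7 h8
      simp only [dot, pa, ea, eb, Matrix.cons_val_zero, Matrix.cons_val_one, Matrix.cons_val, mul_zero,
        mul_one, zero_add, add_zero] at h1 h7 h8
      ext i
      fin_cases i
      · exact h7
      · exact h8
      · exact h1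
    have h10 : lam = 0 := by
      rw [← lin_lc h.ha, h9, lin_eq_zero]
    exact h.li.ne_zero 0 h10

end Pool.Agent.BR
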