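import Pool.Agent.Work.MP_be705b_al.II.B1

set_option autoImplicit false
set_option linter.unusedSectionVars false
set_option linter.unusedVariables false

/-!
# MP_be705b_al, type II, module Q2 (M): the base point `pb = (1, 1, 0)`, characteristic not two

`Fp pb = N + span {z (x + y)}`, `Ph pb = span {x^2 - y^2, z^2, z (x + y)}`; `Jb K n` = forms of degree `n` with `f (1, 1, 0) = 0`,
`f (1, -1, 0) = 0` and `∂_z f (1, -1, 0) = 0` (`dr pz pa f`).

PROOFS.
* `Fp_pb`: for `κ ∈ Fp pb`: `κ (pz) = κ (pb)` and `dr pz pa κ = 0` (on the generators `x^2, y^2, z^2, z (x + y)`).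
* `Ph_pb`: `Ph pb = Jb 2`: `⊆` from `Fp_pb`.  `⊇`: `κ ∈ H 2` with coefficients: `κ (1, 1, 0) = κ_xx + κ_yy + κ_xy`, `κ (1, -1, 0) = κ_xx + κ_yy - κ_xy`,
  `∂_z κ (1, -1, 0) = κ_xz - κ_yz`; all zero and `2 ≠ 0` give `κ_xy = 0`, `κ_xx = - κ_yy`, `κ_xz = κ_yz`.
* `finrank_Jb`: the three functionals are independent on `H K n` for `n ≥ 2`: `z x^(n-1)` has values `(0, 0, 1)`,
  `x^n` has `(1, 1, 0)` and `x^(n-1) y` has `(1, -1, 0)`.  So `finrank (Jb n) + 3 = finrank (H n)`.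
* `Ph_mul5`: `⊆` by `dr_mul`.  `⊇`: with `u = x^2 - y^2`, `s = x + y`: modulo `Ph * cubics` (which contains `z^2 * cubics`,
  `z s * cubics`, `u * cubics`) every monomial of degree 5 is reduced: `z^c` with `c ≥ 2`: `x^a y^b z^c = z^2 * (x^a y^b z^(c-2))` unless
  the cubic is `x y z` (`x y z^3 = (z s) (y z^2) - y^2 z^3`, and `y^2 z^3 = z^2 * (y^2 z)`); `c = 1`: `x^a y^b z`, `a + b = 4`: `z x^a y^b + z x^(a+1) y^(b-1) =
  (z s) * x^a y^(b-1)`, so all are `±` one of them, `z x^4`; `c = 0`: `x^a y^b - x^(a-2) y^(b+2) = u x^(a-2) y^b`, so they reduce to `x^5` and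
  `x^4 y`.  So the quotient `H 5 / (Ph * cubics)` has dimension `≤ 3`.
* `Ph_mul8`, `Ph_mul11`: `Ph * H 6 ≤ Jb 8`, and `H 8 / (Ph * H 6)` has dimension `≤ 3` by the same reduction.
* `sat`: `e * x^3 ∈ Jb 5` gives `e (pb) = 0`, `e (pz) = 0`, `dr pz pa e = 0` (`x^3` has value `1` at both points and `dr pz pa (x^3) = 0`), so
  `e ∈ Jb 2 = Ph pb`.
* `phib`: `κ ∈ Fp pb`, `κ (pb) ≠ 0`, `k := κ (pz) = κ (pb)`, `dr pz pa κ = 0`: `lam κ κ` has value `lam (pz) k^2` at `pz` and derivative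
  `lam (pa) k^2` (`dr_linform`, if `lam (pz) = 0`); if both vanish then `lam` vanishes at the independent points `pb, pz, pa`, `lam = 0`.
-/

namespace Pool.Agent.BR

open Submodule Module MvPolynomial

variable {K : Type*} [Field K] {t : Fin 9 → Pol K} {lam lam' mu : Pol K}

private theorem cr_pb : cr (pb : Fin 3 → K) = X 1 * X 2 + X 0 * X 2 := by
  simp [cr, pb]

private theorem z2 : (X 2 ^ 2 : Pol K) ∈ N K := subset_span (by simp)

theorem Fp_pb {κ : Pol K} (hκ : κ ∈ Fp (pb : Fin 3 → K)) : eval pz κ = eval pb κ ∧ dr pz pa κ = 0 := by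
  set L : Pol K →ₗ[K] K := (aeval (pz : Fin 3 → K) : Pol K →ₐ[K] K).toLinearMap -
    (aeval (pb : Fin 3 → K) : Pol K →ₐ[K] K).toLinearMap with hL
  have hLa : ∀ f : Pol K, L f = eval pz f - eval pb f := by
    intro f
    rw [hL, LinearMap.sub_apply, AlgHom.toLinearMap_apply, AlgHom.toLinearMap_apply, aeval_eq_eval,
      aeval_eq_eval]
  have h1 : Fp (pb : Fin 3 → K) ≤ LinearMap.ker L ⊓ LinearMap.ker (dr (K := K) pz pa) := by
    rw [Fp]
    refine sup_le ?_ ?_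
    · rw [N, span_le]
      rintro _ (rfl | rfl | rfl)
      · refine ⟨?_, ?_⟩
        · rw [SetLike.mem_coe, LinearMap.mem_ker, hLa]
          simp [pz, pb]
        · rw [SetLike.mem_coe, LinearMap.mem_ker, pow_two, dr_mul, dr_X]
          simp [pz, pa]
      · refine ⟨?_, ?_⟩
        · rw [SetLike.mem_coe, LinearMap.mem_ker, hLa]
          simp [pz, pb]
        · rw [SetLike.mem_coe, LinearMap.mem_ker, pow_two, dr_mul, dr_X]
          simp [pz, pa]
      · refine ⟨?_, ?_⟩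
        · rw [SetLike.mem_coe, LinearMap.mem_ker, hLa]
          simp [pz, pb]
        · rw [SetLike.mem_coe, LinearMap.mem_ker, pow_two, dr_mul, dr_X]
          simp [pz, pa]
    · rw [span_singleton_le_iff_mem, cr_pb]
      refine ⟨?_, ?_⟩
      · rw [SetLike.mem_coe, LinearMap.mem_ker, hLa]
        simp [pz, pb]
      · rw [SetLike.mem_coe, LinearMap.mem_ker, map_add, dr_mul, dr_mul, dr_X, dr_X, dr_X]
        simp [pz, pa]
  obtain ⟨h2, h3⟩ := h1 hκ
  rw [SetLike.mem_coe, LinearMap.mem_ker, hLa, sub_eq_zero] at h2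
  exact ⟨h2, h3⟩

theorem Ph_pb (h2 : (2 : K) ≠ 0) : Ph (pb : Fin 3 → K) = Jb K 2 := by
  ext κ
  rw [Ph, mem_inf, mem_IP, mem_Jb]
  constructor
  · rintro ⟨h3, h4, h5⟩
    obtain ⟨h6, h7⟩ := Fp_pb h3
    exact ⟨h4, h5, by rw [h6, h5], h7⟩
  · rintro ⟨h3, h4, h5, h6⟩
    refine ⟨?_, h3, h4⟩
    have h7 := sq_add_cr h3
    rw [← h7] at h4 h5 h6
    simp only [sq, cr, map_add, map_mul, eval_C, eval_X, dr_mul, dr_C, dr_X, pow_two, pb, pz, pa] at h4 h5 h6
    simp at h4 h5 h6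
    have e1 : hat κ 2 = 0 := by
      have e2 : (2 : K) * hat κ 2 = 0 := by linear_combination h4 - h5
      exact (mul_eq_zero.1 e2).resolve_left h2
    have e3 : hat κ 1 = hat κ 0 := by linear_combination h6
    rw [← h7, Fp]
    refine add_mem (mem_sup_left (sq_mem_N _)) (mem_sup_right ?_)
    rw [mem_span_singleton]
    refine ⟨hat κ 0, ?_⟩
    rw [smul_eq_C_mul, cr_pb, cr, e1, e3]
    simp
    ring

private noncomputable def ev3 (K : Type*) [Field K] : Pol K →ₗ[K] (Fin 3 → K) :=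
  LinearMap.pi ![(aeval (pb : Fin 3 → K) : Pol K →ₐ[K] K).toLinearMap,
    (aeval (pz : Fin 3 → K) : Pol K →ₐ[K] K).toLinearMap, dr pz pa]

private theorem ev3_apply (f : Pol K) : ev3 K f = ![eval pb f, eval pz f, dr pz pa f] := by
  ext i
  fin_cases i <;> simp [ev3, aeval_eq_eval]

private theorem Jb_eq (n : ℕ) : Jb K n = H K n ⊓ LinearMap.ker (ev3 K) := by
  ext f
  rw [mem_Jb, mem_inf, LinearMap.mem_ker, ev3_apply]
  constructor
  · rintro ⟨h1, h2, h3, h4⟩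
    refine ⟨h1, ?_⟩
    rw [h2, h3, h4]
    ext i
    fin_cases i <;> rfl
  · rintro ⟨h1, h2⟩
    exact ⟨h1, congrFun h2 0, congrFun h2 1, congrFun h2 2⟩

private theorem ev_a (n : ℕ) : ev3 K (X 0 ^ n) = ![1, 1, 0] := by
  rw [ev3_apply]
  have h : dr (K := K) pz pa (X 0 ^ n) = 0 := by
    induction n with
    | zero => rw [pow_zero, ← C_1, dr_C]
    | succ n ih => rw [pow_succ, dr_mul, ih, dr_X]; simp [pa]
  rw [h]
  simp [pb, pz]

private theorem ev_b (n : ℕ) : ev3 K (X 0 ^ n * X 1) = ![1, -1, 0] := by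
  have h := ev_a (K := K) n
  rw [ev3_apply] at h ⊢
  have h1 : dr (K := K) pz pa (X 0 ^ n) = 0 := congrFun h 2
  rw [dr_mul, h1, dr_X]
  simp [pb, pz, pa]

private theorem ev_c (n : ℕ) : ev3 K (X 0 ^ n * X 2) = ![0, 0, 1] := by
  have h := ev_a (K := K) n
  rw [ev3_apply] at h ⊢
  have h1 : dr (K := K) pz pa (X 0 ^ n) = 0 := congrFun h 2
  rw [dr_mul, h1, dr_X]
  simp [pb, pz, pa]

private theorem ma (n : ℕ) : (X 0 ^ n : Pol K) ∈ H K n := isHomogeneous_X_pow _ _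

private theorem mb (n : ℕ) (i : Fin 3) : (X 0 ^ n * X i : Pol K) ∈ H K (n + 1) :=
  mul_mem_H (ma n) (isHomogeneous_X K i)

theorem finrank_Jb (h2 : (2 : K) ≠ 0) (n : ℕ) : finrank K ↥(Jb K (n + 2)) + 3 = finrank K ↥(H K (n + 2)) := by
  have h3 := LinearMap.finrank_range_add_finrank_ker ((ev3 K).domRestrict (H K (n + 2)))
  have h4 : LinearMap.range ((ev3 K).domRestrict (H K (n + 2))) = ⊤ := by
    rw [eq_top_iff]
    intro w _
    have hm : ((w 0 + w 1) / 2) • (X 0 ^ (n + 2) : Pol K) + ((w 0 - w 1) / 2) • (X 0 ^ (n + 1) * X 1) +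
        (w 2) • (X 0 ^ (n + 1) * X 2) ∈ H K (n + 2) :=
      add_mem (add_mem (smul_mem _ _ (ma _)) (smul_mem _ _ (mb _ _))) (smul_mem _ _ (mb _ _))
    refine ⟨⟨_, hm⟩, ?_⟩
    rw [LinearMap.domRestrict_apply]
    simp only [map_add, map_smul, ev_a, ev_b, ev_c]
    ext i
    fin_cases i
    · simp
      field_simp
      ring
    · simp
      field_simp
      ring
    · simp
  have h5 : finrank K ↥(LinearMap.ker ((ev3 K).domRestrict (H K (n + 2)))) = finrank K ↥(Jb K (n + 2)) := by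
    rw [LinearMap.ker_domRestrict, Jb_eq]
    rw [← Submodule.finrank_map_subtype_eq, Submodule.map_comap_subtype]
  rw [h4, finrank_top, h5] at h3
  simp at h3
  omega

/-- reduction modulo `Ph pb` -/
private theorem red {n : ℕ} {U S : Submodule K (Pol K)} (hS : Ph (pb : Fin 3 → K) * U ≤ S)
    (hu : (X 0 ^ 2 - X 1 ^ 2 : Pol K) ∈ Ph (pb : Fin 3 → K))
    (hs : (X 2 * (X 0 + X 1) : Pol K) ∈ Ph (pb : Fin 3 → K))
    (hxy : ∀ a b, a + b = n → (X 0 ^ a * X 1 ^ b : Pol K) ∈ U)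
    (hz : ∀ a b c, a + b + c = n → (X 2 ^ 2 * (X 0 ^ a * X 1 ^ b * X 2 ^ c) : Pol K) ∈ S)
    (e1 : (X 0 ^ (n + 2) : Pol K) ∈ S) (e2 : (X 0 ^ (n + 1) * X 1 : Pol K) ∈ S)
    (e3 : (X 0 ^ (n + 1) * X 2 : Pol K) ∈ S) : H K (n + 2) ≤ S := by
  have c1 : ∀ b a, a + b = n + 1 → (X 0 ^ a * X 1 ^ b * X 2 : Pol K) ∈ S := by
    intro b
    induction b with
    | zero =>
      intro a ha
      rw [pow_zero, mul_one]
      rw [add_zero] at ha
      rw [ha]
      exact e3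
    | succ b ih =>
      intro a ha
      have h1 := ih (a + 1) (by omega)
      have h2 : (X 2 * (X 0 + X 1) : Pol K) * (X 0 ^ a * X 1 ^ b) ∈ S :=
        hS (mul_mem_mul hs (hxy a b (by omega)))
      have h3 := sub_mem h2 h1
      have h4 : (X 0 ^ a * X 1 ^ (b + 1) * X 2 : Pol K) =
          (X 2 * (X 0 + X 1)) * (X 0 ^ a * X 1 ^ b) - X 0 ^ (a + 1) * X 1 ^ b * X 2 := by ring
      rw [h4]
      exact h3
  have c0 : ∀ b a, a + b = n + 2 → (X 0 ^ a * X 1 ^ b : Pol K) ∈ S := by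
    intro b
    induction b using Nat.strong_induction_on with
    | _ b ih =>
      intro a ha
      match b, ih, ha with
      | 0, _, ha =>
        rw [pow_zero, mul_one]
        rw [add_zero] at ha
        rw [ha]
        exact e1
      | 1, _, ha =>
        have ha' : a = n + 1 := by omega
        rw [pow_one, ha']
        exact e2
      | b + 2, ih, ha =>
        have h1 := ih b (by omega) (a + 2) (by omega)
        have h2 : (X 0 ^ 2 - X 1 ^ 2 : Pol K) * (X 0 ^ a * X 1 ^ b) ∈ S :=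
          hS (mul_mem_mul hu (hxy a b (by omega)))
        have h3 := sub_mem h1 h2
        have h4 : (X 0 ^ a * X 1 ^ (b + 2) : Pol K) =
            X 0 ^ (a + 2) * X 1 ^ b - (X 0 ^ 2 - X 1 ^ 2) * (X 0 ^ a * X 1 ^ b) := by ring
        rw [h4]
        exact h3
  refine H_le fun a b c h => ?_
  match c, h with
  | 0, h =>
    rw [pow_zero, mul_one]
    exact c0 b a (by omega)
  | 1, h =>
    rw [pow_one]
    exact c1 b a (by omega)
  | c + 2, h =>
    have h1 := hz a b c (by omega)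
    have h2 : (X 0 ^ a * X 1 ^ b * X 2 ^ (c + 2) : Pol K) = X 2 ^ 2 * (X 0 ^ a * X 1 ^ b * X 2 ^ c) := by
      ring
    rw [h2]
    exact h1

private theorem pu (h2 : (2 : K) ≠ 0) : (X 0 ^ 2 - X 1 ^ 2 : Pol K) ∈ Ph (pb : Fin 3 → K) := by
  refine ⟨?_, ?_⟩
  · rw [Fp]
    refine mem_sup_left (sub_mem ?_ ?_) <;> exact subset_span (by simp)
  · rw [SetLike.mem_coe, mem_IP]
    exact ⟨sub_mem (isHomogeneous_X_pow _ 2) (isHomogeneous_X_pow _ 2), by simp [pb]⟩

private theorem pzz : (X 2 ^ 2 : Pol K) ∈ Ph (pb : Fin 3 → K) := by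
  refine ⟨?_, ?_⟩
  · rw [Fp]
    exact mem_sup_left z2
  · rw [SetLike.mem_coe, mem_IP]
    exact ⟨isHomogeneous_X_pow _ 2, by simp [pb]⟩

private theorem ps : (X 2 * (X 0 + X 1) : Pol K) ∈ Ph (pb : Fin 3 → K) := by
  have h : (X 2 * (X 0 + X 1) : Pol K) = cr pb := by
    rw [cr_pb]
    ring
  rw [h]
  refine ⟨?_, ?_⟩
  · rw [Fp]
    exact mem_sup_right (mem_span_singleton_self _)
  · rw [SetLike.mem_coe, mem_IP]
    exact ⟨cr_mem _, by rw [cr_pb]; simp [pb]⟩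

private theorem Jb_mul (m n : ℕ) {U : Submodule K (Pol K)} (hU : U ≤ H K n) : Jb K m * U ≤ Jb K (m + n) := by
  rw [mul_le]
  intro f hf g hg
  obtain ⟨h1, h2, h3, h4⟩ := mem_Jb.1 hf
  refine mem_Jb.2 ⟨mul_mem_H h1 (hU hg), ?_, ?_, ?_⟩
  · rw [map_mul, h2, zero_mul]
  · rw [map_mul, h3, zero_mul]
  · rw [dr_mul, h3, h4, zero_mul, zero_mul, add_zero]

private theorem main (h2 : (2 : K) ≠ 0) {n : ℕ} {U : Submodule K (Pol K)} (hU : U ≤ H K n)
    (hxy : ∀ a b, a + b = n → (X 0 ^ a * X 1 ^ b : Pol K) ∈ U)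
    (hz : ∀ a b c, a + b + c = n → (X 2 ^ 2 * (X 0 ^ a * X 1 ^ b * X 2 ^ c) : Pol K) ∈
      Ph (pb : Fin 3 → K) * U) : Ph (pb : Fin 3 → K) * U = Jb K (n + 2) := by
  have hle : Ph (pb : Fin 3 → K) * U ≤ Jb K (n + 2) := by
    rw [Ph_pb h2, add_comm n 2]
    exact Jb_mul 2 n hU
  refine le_antisymm hle ?_
  intro f hf
  have h3 : H K (n + 2) ≤ Ph (pb : Fin 3 → K) * U ⊔
      span K {X 0 ^ (n + 2), X 0 ^ (n + 1) * X 1, X 0 ^ (n + 1) * X 2} := by
    refine red (U := U) le_sup_left (pu h2) ps hxy (fun a b c h => mem_sup_left (hz a b c h)) ?_ ?_ ?_ <;>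
    exact mem_sup_right (subset_span (by simp))
  obtain ⟨g, hg, r, hr, hgr⟩ := mem_sup.1 (h3 (mem_Jb.1 hf).1)
  obtain ⟨a, b, c, rfl⟩ := mem_span_triple.1 hr
  have h4 : a • (X 0 ^ (n + 2) : Pol K) + b • (X 0 ^ (n + 1) * X 1) + c • (X 0 ^ (n + 1) * X 2) ∈
      LinearMap.ker (ev3 K) := by
    have h5 : a • (X 0 ^ (n + 2) : Pol K) + b • (X 0 ^ (n + 1) * X 1) + c • (X 0 ^ (n + 1) * X 2) = f - g := by
      rw [← hgr]
      ring
    rw [h5]
    rw [Jb_eq] at hf hle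
    exact sub_mem hf.2 (hle hg).2
  rw [LinearMap.mem_ker] at h4
  simp only [map_add, map_smul, ev_a, ev_b, ev_c] at h4
  have e0 := congrFun h4 0
  have e1 := congrFun h4 1
  have e2 := congrFun h4 2
  simp at e0 e1 e2
  have e3 : a = 0 := by
    have e4 : (2 : K) * a = 0 := by linear_combination e0 + e1
    exact (mul_eq_zero.1 e4).resolve_left h2
  have e5 : b = 0 := by linear_combination e0 - e3
  rw [e3, e5, e2] at hgr
  rw [← hgr]
  simpa using hg

theorem Ph_pb_mul5 (h2 : (2 : K) ≠ 0) : Ph (pb : Fin 3 → K) * cubics K = Jb K 5 := by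
  refine main h2 (n := 3) cubics_le ?_ ?_
  · intro a b h
    have h1 := mono_mem_cubics (K := K) (a := a) (b := b) (c := 0) (by omega) (by omega)
    rwa [pow_zero, mul_one] at h1
  · intro a b c h
    by_cases hc : a = 0 ∨ b = 0 ∨ c = 0
    · exact mul_mem_mul pzz (mono_mem_cubics h hc)
    · have : a = 1 ∧ b = 1 ∧ c = 1 := by omega
      obtain ⟨rfl, rfl, rfl⟩ := this
      have h3 : (X 2 ^ 2 * (X 0 ^ 1 * X 1 ^ 1 * X 2 ^ 1) : Pol K) =
          (X 2 * (X 0 + X 1)) * (X 0 ^ 0 * X 1 ^ 1 * X 2 ^ 2) - X 2 ^ 2 * (X 0 ^ 0 * X 1 ^ 2 * X 2 ^ 1) := by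
        ring
      rw [h3]
      exact sub_mem (mul_mem_mul ps (mono_mem_cubics (by omega) (by omega)))
        (mul_mem_mul pzz (mono_mem_cubics (by omega) (by omega)))

private theorem mainH (h2 : (2 : K) ≠ 0) (n : ℕ) : Ph (pb : Fin 3 → K) * H K n = Jb K (n + 2) := by
  refine main h2 le_rfl ?_ ?_
  · intro a b h
    have h1 := mono_mem' (K := K) (a := a) (b := b) (c := 0) (d := n) (by omega)
    rwa [pow_zero, mul_one] at h1
  · intro a b c h
    exact mul_mem_mul pzz (mono_mem' h)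

theorem Ph_pb_mul8 (h2 : (2 : K) ≠ 0) : Ph (pb : Fin 3 → K) * H K 6 = Jb K 8 := mainH h2 6

theorem Ph_pb_mul11 (h2 : (2 : K) ≠ 0) : Ph (pb : Fin 3 → K) * H K 9 = Jb K 11 := mainH h2 9

theorem tii_pb (h2 : (2 : K) ≠ 0) (h : T2 t lam lam' mu) (h1 : eval pb lam = 0)
    (h1' : eval pb lam' = 0) : TII t pb lam lam' mu where
  t2 := h
  p0 := by
    intro h0
    have := congrFun h0 0
    simp [pb] at this
  lp := h1
  lp' := h1'
  sat := by
    intro e he hw
    have h3 : e * X 0 ^ 3 ∈ Jb K 5 := by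
      rw [← Ph_pb_mul5 h2]
      refine hw _ ?_
      have h4 := mono_mem_cubics (K := K) (a := 3) (b := 0) (c := 0) (by omega) (by omega)
      simpa using h4
    have h5 := ev_a (K := K) 3
    rw [ev3_apply] at h5
    have a0 : eval pb (X 0 ^ 3 : Pol K) = 1 := congrFun h5 0
    have a1 : eval pz (X 0 ^ 3 : Pol K) = 1 := congrFun h5 1
    have a2 : dr pz pa (X 0 ^ 3 : Pol K) = 0 := congrFun h5 2
    obtain ⟨-, b1, b2, b3⟩ := mem_Jb.1 h3
    rw [map_mul, a0, mul_one] at b1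
    rw [map_mul, a1, mul_one] at b2
    rw [dr_mul, a1, a2, mul_one, mul_zero, zero_add] at b3
    rw [Ph_pb h2]
    exact mem_Jb.2 ⟨he, b1, b2, b3⟩
  f1 := by
    rw [Ph_pb_mul5 h2]
    have h3 : finrank K ↥(Jb K 5) + 3 = finrank K ↥(H K 5) := finrank_Jb h2 3
    have h4 := finrank_H5 (K := K)
    omega
  f2 := by
    rw [Ph_pb_mul8 h2]
    have h3 : finrank K ↥(Jb K 8) + 3 = finrank K ↥(H K 8) := finrank_Jb h2 6
    have h4 := finrank_H8 (K := K)
    omega
  f3 := by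
    rw [Ph_pb_mul11 h2]
    have h3 : finrank K ↥(Jb K 11) + 3 = finrank K ↥(H K 11) := finrank_Jb h2 9
    have h4 := finrank_H11 (K := K)
    omega
  phib := by
    intro κ hκ hk hm
    rw [Ph_pb_mul5 h2] at hm
    obtain ⟨-, -, b2, b3⟩ := mem_Jb.1 hm
    obtain ⟨k1, k2⟩ := Fp_pb hκ
    have hl : eval pz lam = 0 := by
      rw [map_mul, map_mul, k1] at b2
      rcases mul_eq_zero.1 b2 with h3 | h3
      · exact h3
      · exact absurd (mul_self_eq_zero.1 h3) hk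
    have hl' : eval pa lam = 0 := by
      rw [dr_mul, hl, zero_mul, zero_add, dr_linform _ _ h.ha, map_mul, k1] at b3
      rcases mul_eq_zero.1 b3 with h3 | h3
      · exact h3
      · exact absurd (mul_self_eq_zero.1 h3) hk
    apply h.a0
    rw [← lin_lc h.ha] at h1 hl hl' ⊢
    rw [eval_lin] at h1 hl hl'
    simp only [dot, pb, pz, pa] at h1 hl hl'
    simp at h1 hl hl'
    rw [lin_eq_zero]
    have e0 : lc lam 0 = 0 := by
      have e4 : (2 : K) * lc lam 0 = 0 := by linear_combination h1 + hl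
      exact (mul_eq_zero.1 e4).resolve_left h2
    have e1 : lc lam 1 = 0 := by linear_combination h1 - e0
    ext i
    fin_cases i
    · exact e0
    · exact e1
    · exact hl'

end Pool.Agent.BR
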