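import Pool.Agent.Work.MP_be705b_al.II.Defs

set_option autoImplicit false
set_option linter.unusedSectionVars false
set_option linter.unusedVariables false

/-!
# MP_be705b_al, type II, module R1 (M): restriction of forms to a line

`l` a nonzero linear form, `P, v` linearly independent with `l (P) = l (v) = 0`; `rs P v f = f (P + X v)`.

PROOFS.
* `rs_deg`: every monomial of degree `n` goes to a polynomial of degree `≤ n`.
* `rs_top`: the coefficient of `X ^ n` is `f (v)`, `f ∈ H K n` (monomials).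
* `rs_surj`: choose linear forms `s, u` with `s (P) = 1, s (v) = 0, u (P) = 0, u (v) = 1` (`P, v` independent), then
  `rs (s ^ (n - i) * u ^ i) = X ^ i`.
* `rs_eq_zero`: `⇐` clear.  `⇒`: `f ∈ H K n` is a polynomial in the basis `s, u, l` of the linear forms (`X i` is a linear
  combination of `s, u, l`; expand), so `f = l * g + Σ c_i s^(n-i) u^i` (induction on the degree or `H K n = ` span of products
  `s^a u^b l^c`), and `rs f = Σ c_i X^i`, so all `c_i = 0`.
* `rs_surj3`: `cubics K` instead of `H K 3`: the map `cubics K → {degree ≤ 3}` has kernel `dv l` (`rs_eq_zero`, `mem_dv`) of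
  dimension `5` (it is isomorphic to `KK l`, the kernel of one nonzero functional on `H K 2`, `finrank_H2 = 6`), so its image has
  dimension `9 - 5 = 4`.
* `line_pts`: `l (Q) = 0` implies that `Q` is a combination of `P` and `v` (dimension 2), and for `f ∈ H K n`,
  `f (a P + b v) = Σ_i coeff_i(rs P v f) a^(n-i) b^i`.
* `sep`: for linearly independent points `Q, R` the evaluations on `cubics K` at `Q`, `R` are independent: there is `w ∈ cubics K`
  with `w (Q) ≠ 0`, `w (R) = 0`: some linear form `ν` has `ν (R) = 0`, `ν (Q) ≠ 0`, and some `X i ^ 2` has nonzero value at `Q`; so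
  `w = ν * X i ^ 2`.
-/

namespace Pool.Agent.BR

open Submodule Module MvPolynomial

variable {K : Type*} [Field K]

/-- homogeneous version of the restriction -/
private noncomputable def rsh (P v : Fin 3 → K) : Pol K →ₐ[K] MvPolynomial (Fin 2) K :=
  aeval (fun i => C (P i) * X 1 + C (v i) * X 0)

private theorem rsh_hom (P v : Fin 3 → K) {n : ℕ} {f : Pol K} (hf : f ∈ H K n) :
    (rsh P v f).IsHomogeneous n := by
  have h := IsHomogeneous.aeval (n := 1) (mem_H.1 hf) (fun i => (C (P i) * X 1 + C (v i) * X 0 :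
    MvPolynomial (Fin 2) K)) (fun i => ((isHomogeneous_X K _).C_mul _).add ((isHomogeneous_X K _).C_mul _))
  rw [one_mul] at h
  exact h

private theorem rsh_rs (P v : Fin 3 → K) (f : Pol K) :
    aeval ![(Polynomial.X : Polynomial K), 1] (rsh P v f) = rs P v f := by
  have h : ((aeval ![(Polynomial.X : Polynomial K), 1]).comp (rsh P v)) = (rs P v : Pol K →ₐ[K] Polynomial K) := by
    apply MvPolynomial.algHom_ext
    intro i
    rw [AlgHom.comp_apply, rs_X]
    simp [rsh]
  exact DFunLike.congr_fun h f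

private theorem hom_rs (P v : Fin 3 → K) {n : ℕ} {f : Pol K} (hf : f ∈ H K n) :
    (rs P v f).homogenize n = rsh P v f :=
  Polynomial.homogenize_eq_of_isHomogeneous (rsh_hom P v hf) (rsh_rs P v f)

theorem rs_deg (P v : Fin 3 → K) {n : ℕ} {f : Pol K} (hf : f ∈ H K n) : (rs P v f).natDegree ≤ n := by
  rw [← rsh_rs, ← hom_rs P v hf, Polynomial.homogenize, map_sum]
  apply Polynomial.natDegree_sum_le_of_forall_le
  intro kl hkl
  rw [Finset.HasAntidiagonal.mem_antidiagonal] at hkl
  rw [aeval_monomial, Finsupp.prod_fintype _ _ (by simp), Fin.prod_univ_two]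
  simp only [Matrix.cons_val_zero, Matrix.cons_val_one, one_pow, mul_one]
  refine (Polynomial.natDegree_C_mul_X_pow_le _ _).trans ?_
  simp
  omega

/-- evaluation of a form at a point of the line -/
theorem rs_eval (P v : Fin 3 → K) {n : ℕ} {f : Pol K} (hf : f ∈ H K n) (a b : K) :
    eval (a • P + b • v) f = ∑ i ∈ Finset.range (n + 1), (rs P v f).coeff i * a ^ (n - i) * b ^ i := by
  have h : eval (a • P + b • v) f = aeval ![b, a] (rsh P v f) := by
    have h1 : ((aeval ![b, a] : MvPolynomial (Fin 2) K →ₐ[K] K).comp (rsh P v)) =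
        (aeval (a • P + b • v) : Pol K →ₐ[K] K) := by
      apply MvPolynomial.algHom_ext
      intro i
      simp [rsh]
      ring
    have h2 := DFunLike.congr_fun h1 f
    rw [aeval_eq_eval] at h2
    exact h2.symm
  rw [h, ← hom_rs P v hf, Polynomial.homogenize, map_sum, Finset.Nat.sum_antidiagonal_eq_sum_range_succ_mk]
  refine Finset.sum_congr rfl fun i hi => ?_
  rw [aeval_monomial, Finsupp.prod_fintype _ _ (by simp), Fin.prod_univ_two]
  simp
  ring

theorem rs_top (P v : Fin 3 → K) {n : ℕ} {f : Pol K} (hf : f ∈ H K n) : (rs P v f).coeff n = eval v f := by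
  have h := rs_eval P v hf 0 1
  rw [zero_smul, zero_add, one_smul] at h
  rw [h, Finset.sum_eq_single n]
  · simp
  · intro i hi hne
    rw [Finset.mem_range] at hi
    rw [zero_pow (by omega)]
    ring
  · intro hn
    exact absurd (Finset.mem_range.2 (Nat.lt_succ_self n)) hn

private theorem exists_s {P v : Fin 3 → K} (hPv : LinearIndependent K ![P, v]) :
    ∃ s ∈ H K 1, eval P s = 1 ∧ eval v s = 0 := by
  have h1 : P ∉ span K {v} := by
    intro h
    obtain ⟨c, hc⟩ := mem_span_singleton.1 h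
    rw [LinearIndependent.pair_iff] at hPv
    have h2 := (hPv 1 (-c) (by rw [← hc]; simp)).1
    exact one_ne_zero h2
  obtain ⟨f, hf, hf'⟩ := Submodule.exists_dual_map_eq_bot_of_notMem h1 inferInstance
  have hv : f v = 0 := by
    have h2 : f v ∈ (span K {v}).map f := mem_map_of_mem (mem_span_singleton_self v)
    rw [hf'] at h2
    exact (mem_bot K).1 h2
  have key : ∀ w : Fin 3 → K, dot (fun i => f (Pi.single i 1) / f P) w = f w / f P := by
    intro w
    have h7 : w = ∑ i, w i • (Pi.single i 1 : Fin 3 → K) := by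
      rw [Fin.sum_univ_three]
      ext i
      fin_cases i <;> simp
    conv_rhs => rw [h7, map_sum, Fin.sum_univ_three]
    simp only [map_smul, smul_eq_mul, dot]
    ring
  refine ⟨lin (fun i => f (Pi.single i 1) / f P), lin_mem _, ?_, ?_⟩
  · rw [eval_lin, key, div_self hf]
  · rw [eval_lin, key, hv, zero_div]

private theorem swap_li {P v : Fin 3 → K} (hPv : LinearIndependent K ![P, v]) :
    LinearIndependent K ![v, P] := by
  rw [LinearIndependent.pair_iff] at hPv ⊢
  intro a b hab
  rw [add_comm] at hab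
  exact (hPv b a hab).symm

private theorem dec {P v : Fin 3 → K} (hPv : LinearIndependent K ![P, v]) {l : Pol K} (hl : l ∈ H K 1)
    (h0 : l ≠ 0) (h1 : eval P l = 0) (h2 : eval v l = 0) {s u : Pol K} (hs : s ∈ H K 1) (hu : u ∈ H K 1)
    (s1 : eval P s = 1) (s2 : eval v s = 0) (u1 : eval P u = 0) (u2 : eval v u = 1) {m : Pol K}
    (hm : m ∈ H K 1) : ∃ c : K, m = C (eval P m) * s + C (eval v m) * u + C c * l := by
  have hsm : ∀ (a : K) (f : Pol K), f ∈ H K 1 → C a * f ∈ H K 1 := by
    intro a f hf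
    rw [← smul_eq_C_mul]
    exact smul_mem _ _ hf
  set m' : Pol K := m - (C (eval P m) * s + C (eval v m) * u) with hm'
  have hm1 : m' ∈ H K 1 := sub_mem hm (add_mem (hsm _ _ hs) (hsm _ _ hu))
  have dotc : ∀ a b : Fin 3 → K, dot a b = dot b a := by
    intro a b
    simp only [dot]
    ring
  have e1 : eval P m' = 0 := by simp [hm', s1, u1]
  have e2 : eval v m' = 0 := by simp [hm', s2, u2]
  rw [← lin_lc hm1, eval_lin, dotc] at e1 e2
  obtain ⟨c1, hc1⟩ := eq_smul_cross hPv e1 e2
  rw [← lin_lc hl, eval_lin, dotc] at h1 h2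
  obtain ⟨c2, hc2⟩ := eq_smul_cross hPv h1 h2
  have hc20 : c2 ≠ 0 := by
    rintro rfl
    apply h0
    rw [← lin_lc hl, hc2, zero_smul, lin_eq_zero]
  refine ⟨c1 / c2, ?_⟩
  have h3 : m' = C (c1 / c2) * l := by
    rw [← lin_lc hm1, ← lin_lc hl, hc1, hc2, ← lin_smul, smul_smul, div_mul_cancel₀ _ hc20]
  rw [← h3, hm']
  ring

theorem rs_surj {P v : Fin 3 → K} (hPv : LinearIndependent K ![P, v]) {n : ℕ} {g : Polynomial K}
    (hg : g.natDegree ≤ n) : ∃ f ∈ H K n, rs P v f = g := by
  obtain ⟨s, hs, s1, s2⟩ := exists_s hPv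
  obtain ⟨u, hu, u2, u1⟩ := exists_s (swap_li hPv)
  have rss : rs P v s = 1 := by rw [rs_linform P v hs, s1, s2]; simp
  have rsu : rs P v u = Polynomial.X := by rw [rs_linform P v hu, u1, u2]; simp
  refine ⟨∑ i ∈ Finset.range (n + 1), C (g.coeff i) * (s ^ (n - i) * u ^ i), ?_, ?_⟩
  · refine sum_mem fun i hi => ?_
    rw [Finset.mem_range] at hi
    rw [← smul_eq_C_mul]
    refine smul_mem _ _ ?_
    have h1 := (IsHomogeneous.pow (mem_H.1 hs) (n - i)).mul (IsHomogeneous.pow (mem_H.1 hu) i)
    rw [one_mul, one_mul, Nat.sub_add_cancel (by omega)] at h1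
    exact h1
  · rw [map_sum]
    conv_rhs => rw [Polynomial.as_sum_range_C_mul_X_pow' g (Nat.lt_succ_of_le hg)]
    refine Finset.sum_congr rfl fun i _ => ?_
    rw [map_mul, map_mul, map_pow, map_pow, rss, rsu, rs_C, one_pow, one_mul]

theorem rs_eq_zero {P v : Fin 3 → K} (hPv : LinearIndependent K ![P, v]) {l : Pol K} (hl : l ∈ H K 1)
    (h0 : l ≠ 0) (h1 : eval P l = 0) (h2 : eval v l = 0) {n : ℕ} {f : Pol K} (hf : f ∈ H K n) :
    rs P v f = 0 ↔ l ∣ f := by
  constructor
  · intro hr
    obtain ⟨s, hs, s1, s2⟩ := exists_s hPv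
    obtain ⟨u, hu, u2, u1⟩ := exists_s (swap_li hPv)
    have h3 : rsh P v f = 0 := by
      rw [← hom_rs P v hf, hr, Polynomial.homogenize_zero]
    -- modulo `l` every polynomial is the value of the substitution
    have h4 : ∀ g : Pol K, l ∣ g - aeval ![u, s] (rsh P v g) := by
      have h5 : ((Ideal.Quotient.mkₐ K (Ideal.span {l})).comp ((aeval ![u, s] :
          MvPolynomial (Fin 2) K →ₐ[K] Pol K).comp (rsh P v))) = Ideal.Quotient.mkₐ K (Ideal.span {l}) := by
        apply MvPolynomial.algHom_ext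
        intro i
        obtain ⟨c, hc⟩ := dec hPv hl h0 h1 h2 hs hu s1 s2 u1 u2 (isHomogeneous_X K i : (X i : Pol K) ∈ H K 1)
        rw [eval_X, eval_X] at hc
        simp only [AlgHom.comp_apply]
        rw [Ideal.Quotient.mkₐ_eq_mk, Ideal.Quotient.eq, Ideal.mem_span_singleton]
        refine ⟨- C c, ?_⟩
        have e3 : aeval ![u, s] (rsh P v (X i)) = C (P i) * s + C (v i) * u := by
          simp [rsh, algebraMap_eq]
        rw [e3]
        conv_lhs => rw [hc]
        ring
      intro g
      have h6 := DFunLike.congr_fun h5 g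
      simp only [AlgHom.comp_apply] at h6
      rw [Ideal.Quotient.mkₐ_eq_mk, eq_comm, Ideal.Quotient.eq, Ideal.mem_span_singleton] at h6
      exact h6
    have h7 := h4 f
    rwa [h3, map_zero, sub_zero] at h7
  · rintro ⟨g, rfl⟩
    rw [map_mul, rs_linform P v hl, h1, h2]
    simp

/-- points of the line `l = 0` -/
theorem line_pts {P v Q : Fin 3 → K} (hPv : LinearIndependent K ![P, v]) {l : Pol K} (hl : l ∈ H K 1)
    (h0 : l ≠ 0) (h1 : eval P l = 0) (h2 : eval v l = 0) (h3 : eval Q l = 0) :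
    ∃ a b : K, Q = a • P + b • v := by
  obtain ⟨s, hs, s1, s2⟩ := exists_s hPv
  obtain ⟨u, hu, u2, u1⟩ := exists_s (swap_li hPv)
  refine ⟨eval Q s, eval Q u, ?_⟩
  ext i
  obtain ⟨c, hc⟩ := dec hPv hl h0 h1 h2 hs hu s1 s2 u1 u2 (isHomogeneous_X K i : (X i : Pol K) ∈ H K 1)
  have h4 := congrArg (eval Q) hc
  simp only [map_add, map_mul, eval_C, eval_X, h3, mul_zero, add_zero] at h4
  rw [h4]
  simp only [Pi.add_apply, Pi.smul_apply, smul_eq_mul]
  ring

theorem rs_surj3 {P v : Fin 3 → K} (hPv : LinearIndependent K ![P, v]) {g : Polynomial K}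
    (hg : g.natDegree ≤ 3) : ∃ w ∈ cubics K, rs P v w = g := by
  obtain ⟨f, hf, hfg⟩ := rs_surj hPv hg
  have hc := cross_ne hPv
  obtain ⟨i, hi⟩ : ∃ i, cross P v i ≠ 0 := by
    by_contra hcon
    push Not at hcon
    exact hc (funext hcon)
  have dotc : ∀ a b : Fin 3 → K, dot a b = dot b a := by
    intro a b
    simp only [dot]
    ring
  have h1 : rs P v (lin (cross P v)) = 0 := by
    rw [rs_linform P v (lin_mem _), eval_lin, eval_lin, dotc, dot_cross_left, dotc, dot_cross_right]
    simp
  have h2 : cf 1 1 1 (lin (cross P v) * cr (Pi.single i 1)) = cross P v i := by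
    rw [cf111_lin_mul, (cf_cr _).2]
    fin_cases i <;> simp [dot]
  refine ⟨f - (cf 1 1 1 f / cross P v i) • (lin (cross P v) * cr (Pi.single i 1)), ?_, ?_⟩
  · rw [mem_cubics]
    refine ⟨sub_mem hf (smul_mem _ _ (mul_mem_H (a := 1) (b := 2) (lin_mem _) (cr_mem _))), ?_⟩
    rw [map_sub, cf_smul, h2, div_mul_cancel₀ _ hi, sub_self]
  · rw [map_sub, map_smul, map_mul, h1, zero_mul, smul_zero, sub_zero, hfg]

/-- a linear form through two independent points exists, and a direction `v` for every `l` and `P` -/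
theorem exists_dir {P : Fin 3 → K} (hP : P ≠ 0) {l : Pol K} (hl : l ∈ H K 1) (h1 : eval P l = 0) :
    ∃ v : Fin 3 → K, eval v l = 0 ∧ LinearIndependent K ![P, v] := by
  set F : (Fin 3 → K) →ₗ[K] K :=
    { toFun := fun w => dot (lc l) w
      map_add' := fun a b => by simp only [dot, Pi.add_apply]; ring
      map_smul' := fun c a => by simp only [dot, Pi.smul_apply, smul_eq_mul, RingHom.id_apply]; ring } with hF
  have hk := LinearMap.finrank_range_add_finrank_ker F
  have hr : finrank K ↥(LinearMap.range F) ≤ 1 := by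
    refine (Submodule.finrank_le _).trans ?_
    simp
  have h3 : finrank K (Fin 3 → K) = 3 := by simp
  have h4 : finrank K ↥(span K {P}) = 1 := finrank_span_singleton hP
  have h5 : ¬ LinearMap.ker F ≤ span K {P} := by
    intro h
    have := Submodule.finrank_mono h
    omega
  obtain ⟨v, hv, hv'⟩ := SetLike.not_le_iff_exists.1 h5
  refine ⟨v, ?_, ?_⟩
  · rw [← lin_lc hl, eval_lin]
    exact hv
  · rw [LinearIndependent.pair_iff]
    intro a b hab
    have hb : b = 0 := by
      by_contra hb
      apply hv'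
      rw [mem_span_singleton]
      refine ⟨-(b⁻¹ * a), ?_⟩
      have h6 : v = b⁻¹ • (b • v) := by rw [smul_smul, inv_mul_cancel₀ hb, one_smul]
      rw [h6, (eq_neg_of_add_eq_zero_right hab), smul_neg, smul_smul, neg_smul]
    refine ⟨?_, hb⟩
    rw [hb, zero_smul, add_zero] at hab
    exact (smul_eq_zero.1 hab).resolve_right hP

theorem sep {Q R : Fin 3 → K} (h : LinearIndependent K ![Q, R]) :
    ∃ w ∈ cubics K, eval Q w ≠ 0 ∧ eval R w = 0 := by
  obtain ⟨s, hs, s1, s2⟩ := exists_s h
  obtain ⟨κ, hκ, hκ0⟩ := exists_N_ne (p := Q) (h.ne_zero 0)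
  refine ⟨κ * s, ?_, ?_, ?_⟩
  · rw [← N_mul_H1]
    exact mul_mem_mul hκ hs
  · rw [map_mul, s1, mul_one]
    exact hκ0
  · rw [map_mul, s2, mul_zero]

end Pool.Agent.BR
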