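import Pool.Agent.Work.MP_be705b_al.II.Col
import Pool.Agent.Work.MP_be705b_al.II.Gr
import Pool.Agent.Work.MP_be705b_al.II.R1
import Pool.Agent.Work.MP_be705b_al.II.Q1
import Pool.Agent.Work.MP_be705b_al.II.Q2

set_option autoImplicit false
set_option linter.unusedSectionVars false
set_option linter.unusedVariables false

/-!
# MP_be705b_al, type II: the structures of the cases (definitions only)

* `BM`: the two special vertices `b`, `m` over `U` (`U = V 3` in case 2, `U = V 4` in Lemma A).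
* `LA`: the hypotheses of Lemma A.   `LB`: Lemma A with the vertices `b`, `m`.
* `TB`: case 1b, `t 2 = mu * del`, `del (p) = 0`.   `TV`: case 1b with the vertices `a`, `b`, `m`
  (`a` is the vertex of `lam * Ph p`, `b` the other one of `A 1`, `m` the one of `dv lam`).
* `TC`: case 1b with `t 3 = mu * del2`, the vertex `3` outside of `inn (dv lam)`.
-/

namespace Pool.Agent.BR

open Submodule Module MvPolynomial

variable {K : Type*} [Field K]

/-- the vertices `b` and `m` over `U` -/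
structure BM (t : Fin 9 → Pol K) (lam : Pol K) (U : Submodule K (Pol K)) (b m : Fin 9) : Prop where
  bo : b ∈ out K t U
  oA : out K t (U ⊔ A K t 1) = (out K t U).erase b
  mo : m ∈ out K t (U ⊔ A K t 1)
  oD : out K t (U ⊔ dv lam) = (out K t (U ⊔ A K t 1)).erase m
  bb : ¬ Adj K t b b
  mi : nb K t m (out K t U) = ∅

/-- the hypotheses of Lemma A -/
structure LA (t : Fin 9 → Pol K) (p : Fin 3 → K) (lam lam' mu c : Pol K) : Prop where
  h : TII t p lam lam' mu
  hc : c ∈ cubics K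
  nd : ¬ lam ∣ c
  ck : ∀ κ ∈ KK lam, κ * c ∈ Ph p * cubics K
  v4 : V K t 4 = mulS lam (Ph p) ⊔ span K {c}
  pm : eval p mu ≠ 0 → (∃ del ∈ Ps p mu, c = mu * del) ∧ LL K t (dv mu ⊔ V K t 4)

/-- Lemma A with the vertices `b`, `m` -/
structure LB (t : Fin 9 → Pol K) (p : Fin 3 → K) (lam lam' mu c : Pol K) (b m : Fin 9) : Prop where
  la : LA t p lam lam' mu c
  bm : BM t lam (V K t 4) b m
  card : (out K t (V K t 4 ⊔ dv lam)).card = 3
  cl2 : cl K t 2 (out K t (V K t 4 ⊔ dv lam)) = 3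
  cl3 : cl K t 3 (out K t (V K t 4 ⊔ dv lam)) = 3
  nbb : nb K t b (out K t (V K t 4)) = out K t (V K t 4 ⊔ dv lam)

/-- case 1b -/
structure TB (t : Fin 9 → Pol K) (p : Fin 3 → K) (lam lam' mu del : Pol K) : Prop where
  h : TII t p lam lam' mu
  hd : del ∈ Ps p mu
  t2 : t 2 = mu * del
  nd : ¬ lam ∣ del
  nm : ¬ lam ∣ mu

/-- case 1b with the vertices `a`, `b`, `m` -/
structure TV (t : Fin 9 → Pol K) (p : Fin 3 → K) (lam lam' mu del : Pol K) (a b m : Fin 9) : Prop where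
  tb : TB t p lam lam' mu del
  ab : a ≠ b
  am : a ≠ m
  bm : b ≠ m
  a3 : 3 ≤ a
  b3 : 3 ≤ b
  m3 : 3 ≤ m
  iPh : inn K t (mulS lam (Ph p)) = {0, 1, a}
  iA : inn K t (A K t 1) = {0, 1, a, b}
  iD : inn K t (dv lam) = {0, 1, a, b, m}
  mi : nb K t m (out K t (A K t 1)) = ∅
  A2 : A K t 2 = dv lam
  nPs : ∀ i ∈ inn K t (mulS mu (Ps p mu)), 2 ≤ i → ¬ Adj K t a i ∧ ¬ Adj K t b i
  nD : ∀ i ∈ inn K t (dv mu), 2 ≤ i → ¬ Adj K t a i

/-- case 1b with `t 3 = mu * del2` -/
structure TC (t : Fin 9 → Pol K) (p : Fin 3 → K) (lam lam' mu del del2 : Pol K) (a b m : Fin 9) :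
    Prop where
  tv : TV t p lam lam' mu del a b m
  hd2 : del2 ∈ KK mu
  t3 : t 3 = mu * del2
  o3 : (3 : Fin 9) ∈ out K t (dv lam)

end Pool.Agent.BR
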