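import Pool.Agent.Work.MP_be705b_al.II.TDefs

set_option autoImplicit false
set_option linter.unusedSectionVars false
set_option linter.unusedVariables false

/-!
# MP_be705b_al, type II, case 1b, module X0 (S): graph lemma for 3.3 of beta1

Six vertices `x, y, a, b, m, r` (`x = 3`, `y = 4`).  `cl4_bits` and a six vertex version (write a private `cl6` by splitting off `x` with `cl_erase`, or use
`cl_refl` of Graph.lean with `![x, y, a, b, m, r]` and a `sym6`) + `decide`; only the six bits `xx, xy, xr, yy, yb, yr` are unknown.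
(Checked by brute force.)  On paper: 7 edges and 10 triangles of `S` touch `{a, b}` (10 - 3, 13 - 3), 6 edges and 9 triangles of `{a, b, m, r}` do (all but `rr`, `rrr`); so exactly one edge
goes from `{a, b}` to `{x, y}`, it is `b y`, and exactly one triangle, it is `b b y`; so `y` is no loop, and `b r`, `y r` are not both edges.
-/

namespace Pool.Agent.BR

open Submodule Module MvPolynomial

variable {K : Type*} [Field K]

variable {t : Fin 9 → Pol K}

private theorem cl6_bits_aux {a b c d e f : Fin 9} (hnd : [a, b, c, d, e, f].Nodup) (k : ℕ) :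
    cl K t k {a, b, c, d, e, f} = clB (sym6 (adjB K t a a) (adjB K t a b) (adjB K t a c)
      (adjB K t a d) (adjB K t a e) (adjB K t a f) (adjB K t b b) (adjB K t b c) (adjB K t b d)
      (adjB K t b e) (adjB K t b f) (adjB K t c c) (adjB K t c d) (adjB K t c e) (adjB K t c f)
      (adjB K t d d) (adjB K t d e) (adjB K t d f) (adjB K t e e) (adjB K t e f) (adjB K t f f))
      k [0, 1, 2, 3, 4, 5] := by
  have hφ : Function.Injective ![a, b, c, d, e, f] := by
    rw [← List.nodup_ofFn]
    have he : List.ofFn ![a, b, c, d, e, f] = [a, b, c, d, e, f] := rfl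
    rw [he]
    exact hnd
  rw [← cl_refl (K := K) (t := t) hφ (A := sym6 (adjB K t a a) (adjB K t a b) (adjB K t a c)
      (adjB K t a d) (adjB K t a e) (adjB K t a f) (adjB K t b b) (adjB K t b c) (adjB K t b d)
      (adjB K t b e) (adjB K t b f) (adjB K t c c) (adjB K t c d) (adjB K t c e) (adjB K t c f)
      (adjB K t d d) (adjB K t d e) (adjB K t d f) (adjB K t e e) (adjB K t e f) (adjB K t f f))
      ?_ k [0, 1, 2, 3, 4, 5] (by decide)]
  · simp
  · intro i j
    fin_cases i <;> fin_cases j <;> simp [sym6, adjB, adj_comm]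

theorem gx_six {x y a b m r : Fin 9} (hnd : [x, y, a, b, m, r].Nodup)
    (e2 : cl K t 2 {x, y, a, b, m, r} = 10) (e3 : cl K t 3 {x, y, a, b, m, r} = 13)
    (f2 : cl K t 2 {x, y, m, r} = 3) (f3 : cl K t 3 {x, y, m, r} = 3)
    (xa : ¬ Adj K t x a) (xb : ¬ Adj K t x b) (ya : ¬ Adj K t y a)
    (xm : ¬ Adj K t x m) (ym : ¬ Adj K t y m) (mm : ¬ Adj K t m m) (mr : ¬ Adj K t m r)
    (rr : Adj K t r r) (aa : Adj K t a a) (bb : Adj K t b b) (ab : Adj K t a b) (am : Adj K t a m)
    (bm : Adj K t b m) (h : (Adj K t a r ∧ ¬ Adj K t b r) ∨ (¬ Adj K t a r ∧ Adj K t b r)) :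
    Adj K t y b ∧ ¬ Adj K t y y ∧ ¬ (Adj K t y r ∧ Adj K t b r) := by
  have hnd' := hnd
  simp only [List.nodup_cons, List.mem_cons, List.not_mem_nil, or_false, not_or,
      List.nodup_nil, not_false_eq_true, and_true] at hnd'
  obtain ⟨⟨h1, h2, h3, h4, h5⟩, ⟨h6, h7, h8, h9⟩, ⟨h10, h11, h12⟩, ⟨h13, h14⟩, h15⟩ := hnd'
  rw [cl6_bits_aux hnd] at e2 e3
  rw [cl4_bits h1 h4 h5 h8 h9 h15] at f2 f3
  rw [← adjB_false] at xa xb ya xm ym mm mr
  rw [← adjB_true] at rr aa bb ab am bm
  simp only [xa, xb, ya, xm, ym, mm, mr, rr, aa, bb, ab, am, bm] at e2 e3 f2 f3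
  have key : adjB K t y b = true ∧ adjB K t y y = false ∧
      (adjB K t y r && adjB K t b r) = false := by
    clear hnd h1 h2 h3 h4 h5 h6 h7 h8 h9 h10 h11 h12 h13 h14 h15 xa xb ya xm ym mm mr rr aa bb ab am bm
    rcases h with ⟨ar, br⟩ | ⟨ar, br⟩
    · rw [← adjB_true] at ar
      rw [← adjB_false] at br
      simp only [ar, br] at e2 e3 ⊢
      clear ar br
      generalize adjB K t x x = x1 at *
      generalize adjB K t x y = x2 at *
      generalize adjB K t x r = x3 at *
      generalize adjB K t y y = x4 at *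
      generalize adjB K t y b = x5 at *
      generalize adjB K t y r = x6 at *
      revert x1 x2 x3 x4 x5 x6
      decide
    · rw [← adjB_false] at ar
      rw [← adjB_true] at br
      simp only [ar, br] at e2 e3 ⊢
      clear ar br
      generalize adjB K t x x = x1 at *
      generalize adjB K t x y = x2 at *
      generalize adjB K t x r = x3 at *
      generalize adjB K t y y = x4 at *
      generalize adjB K t y b = x5 at *
      generalize adjB K t y r = x6 at *
      revert x1 x2 x3 x4 x5 x6
      decide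
  obtain ⟨k1, k2, k3⟩ := key
  refine ⟨adjB_true.1 k1, adjB_false.1 k2, ?_⟩
  rintro ⟨k4, k5⟩
  rw [← adjB_true] at k4 k5
  rw [k4, k5] at k3
  exact absurd k3 (by decide)

end Pool.Agent.BR
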