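import Pool.Agent.Work.MP_be705b_al.II.X1

set_option autoImplicit false
set_option linter.unusedSectionVars false
set_option linter.unusedVariables false

/-!
# MP_be705b_al, type II, case 1b, module X2 (S-M): 3.3 for `mu (p) ≠ 0`

`b` is no loop (block B).  If `lam * mu ∉ N K`: contradiction to `TC.x1`.  Let `lam * mu ∈ N K`.  `dv lam ⊔ V 5 = dv lam ⊔ dv mu` has dimension 7 (`TB.dim_sup`), so `out (dv lam ⊔ V 5) = out (dv lam) ∩ {≥ 5}` has 2 elements.
`A 1 ⊔ dv mu` has dimension `4 + 5 - 2 = 7` too: `A 1 ⊓ dv mu = V 2` (`lam κ` with `κ ∈ Fp p`, `mu ∣ lam κ`, so `mu ∣ κ`, `κ = mu ν`, `ν (p) = 0` by `TII.Fp_dvd`; `V2`, `mem_L`), so `out (A 1 ⊔ V 5)` has 2 elements as well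
(`A 1 ⊔ V 5 ∈ LL`).  `a, b, m ≥ 4`.  So exactly one of `a, b, m` is `4`, and `a, b ≥ 5` (`{0,..,4} ∪ {a, b}` has 7 elements): `m = 4`, `out (V 5) = {a, b, r, s}`, `out (dv lam ⊔ V 5) = {r, s}` with
`cl 2 = 28 - 27 = 1`, `cl 3 = 55 - 54 = 1` (`(dv lam ⊔ dv mu) * cubics = mulS lam (H 5) ⊔ mulS mu (H 5)`, dimension `42 - 15`; `* H 6`: `90 - 36 = 54`).
`5` is adjacent to all of `out (V 5)` (as in X1).  `5 ≠ r, s` (else two edges in `{r, s}`).  `5 ≠ b` (no loop).  So `5 = a`, `out (V 6) = {b, r, s}`, `cl 2 = 7 - 4 = 3`, `cl 3 = 10 - 7 = 3` (cliques of `out (V 5)`: `4, 7, 10`).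
`gx_three` (below, `cl3_bits`, `cl2_bits`, `decide`): impossible.
-/

namespace Pool.Agent.BR

open Submodule Module MvPolynomial

variable {K : Type*} [Field K]

variable {t : Fin 9 → Pol K} {p : Fin 3 → K} {lam lam' mu del del2 : Pol K} {a b m : Fin 9}

theorem gx_three {b r s : Fin 9} (h1 : b ≠ r) (h2 : b ≠ s) (h3 : r ≠ s) (bb : ¬ Adj K t b b)
    (e2 : cl K t 2 {b, r, s} = 3) (e3 : cl K t 3 {b, r, s} = 3) (f2 : cl K t 2 {r, s} = 1)
    (f3 : cl K t 3 {r, s} = 1) : False := by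
  rw [cl3_bits h1 h2 h3] at e2 e3
  rw [cl2_bits h3] at f2 f3
  rw [← adjB_false] at bb
  rw [bb] at e2 e3
  generalize adjB K t b r = x1 at *
  generalize adjB K t b s = x2 at *
  generalize adjB K t r r = x3 at *
  generalize adjB K t r s = x4 at *
  generalize adjB K t s s = x5 at *
  revert x1 x2 x3 x4 x5
  decide

private theorem x2_pair {r s : Fin 9} (h : r ≠ s) (h1 : Adj K t r r) (h2 : Adj K t r s)
    (f2 : cl K t 2 {r, s} = 1) : False := by
  rw [cl2_bits h] at f2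
  rw [← adjB_true] at h1 h2
  rw [h1, h2] at f2
  generalize adjB K t s s = x5 at *
  revert x5
  decide

private theorem x2_dec : ∀ a b m : Fin 9, 3 ≤ a → 3 ≤ b → 3 ≤ m → a ≠ b → a ≠ m → b ≠ m → 3 ≠ a →
    3 ≠ b → 3 ≠ m →
    (Finset.univ.filter fun i : Fin 9 => i ∉ ({0, 1, a, b, m} : Finset (Fin 9)) ∧
      5 ≤ (i : ℕ)).card = 2 →
    (Finset.univ.filter fun i : Fin 9 => i ∉ ({0, 1, a, b} : Finset (Fin 9)) ∧
      5 ≤ (i : ℕ)).card = 2 →
    5 ≤ (a : ℕ) ∧ 5 ≤ (b : ℕ) := by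
  decide

private theorem x2_inf {l f : Pol K} (hl : l ∈ H K 1) (hf : f ∈ H K 1) (l0 : l ≠ 0)
    (hd : ¬ l ∣ f) (n : ℕ) :
    mulS l (H K (n + 1)) ⊓ mulS f (H K (n + 1)) = mulS (l * f) (H K n) := by
  apply le_antisymm
  · intro x hx
    obtain ⟨hx1, hx2⟩ := mem_inf.1 hx
    obtain ⟨u, hu, rfl⟩ := mem_mulS.1 hx1
    obtain ⟨v, hv, hv2⟩ := mem_mulS.1 hx2
    have h1 : l ∣ f * v := ⟨u, hv2⟩
    rcases (prime_lin hl l0).dvd_or_dvd h1 with h2 | ⟨w, hw⟩
    · exact absurd h2 hd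
    · subst hw
      have h3 : l * w ∈ H K (1 + n) := by rw [add_comm]; exact hv
      have h4 := quot_mem hl l0 h3
      rw [← hv2, show f * (l * w) = l * f * w by ring]
      exact mul_mem_mulS h4
  · intro x hx
    obtain ⟨w, hw, rfl⟩ := mem_mulS.1 hx
    refine mem_inf.2 ⟨?_, ?_⟩
    · rw [mul_assoc]
      refine mul_mem_mulS ?_
      have := mul_mem_H hf hw
      rwa [add_comm] at this
    · rw [show l * f * w = f * (l * w) by ring]
      refine mul_mem_mulS ?_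
      have := mul_mem_H hl hw
      rwa [add_comm] at this

private theorem x2_fin {l f : Pol K} (hl : l ∈ H K 1) (hf : f ∈ H K 1) (l0 : l ≠ 0) (f0 : f ≠ 0)
    (hd : ¬ l ∣ f) (n : ℕ) :
    finrank K ↥(mulS l (H K (n + 1)) ⊔ mulS f (H K (n + 1))) + finrank K ↥(H K n) =
      2 * finrank K ↥(H K (n + 1)) := by
  have : Module.Finite K ↥(mulS l (H K (n + 1))) := by
    rw [mulS]; infer_instance
  have : Module.Finite K ↥(mulS f (H K (n + 1))) := by
    rw [mulS]; infer_instance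
  have h1 := Submodule.finrank_sup_add_finrank_inf_eq (mulS l (H K (n + 1))) (mulS f (H K (n + 1)))
  rw [x2_inf hl hf l0 hd n, finrank_mulS (mul_ne_zero l0 f0), finrank_mulS l0, finrank_mulS f0] at h1
  omega

private theorem x2_A1 (h : TII t p lam lam' mu) (nd : ¬ lam ∣ mu) : A K t 1 ⊓ dv mu = V K t 2 := by
  have hl := h.t2.ha
  have l0 := h.L0
  have hm := h.t2.hm
  have m0 := h.t2.m0
  apply le_antisymm
  · intro x hx
    obtain ⟨h1, h2⟩ := mem_inf.1 hx
    rw [h.A1] at h1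
    obtain ⟨κ, hκ, rfl⟩ := mem_mulS.1 h1
    obtain ⟨_, h3⟩ := (mem_dv hm m0).1 h2
    have h4 : mu ∣ κ := by
      rcases (prime_lin hm m0).dvd_or_dvd h3 with h5 | h5
      · exfalso
        obtain ⟨c, hc⟩ := dvd_lin hm hl m0 h5
        have hc0 : c ≠ 0 := by
          rintro rfl
          apply l0
          rw [hc, C_0, zero_mul]
        apply nd
        refine ⟨C c⁻¹, ?_⟩
        rw [hc, mul_comm (C c) mu, mul_assoc, ← C_mul, mul_inv_cancel₀ hc0, C_1, mul_one]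
      · exact h5
    obtain ⟨ν, hν, hν0, rfl⟩ := h.Fp_dvd hκ h4
    rw [h.V2, ← mul_assoc]
    exact mul_mem_mulS (h.mem_L.2 ⟨hν, hν0⟩)
  · exact le_inf h.V2_le_A1 h.V2_le_dv_mu

theorem TC.end_P2 (h : TC t p lam lam' mu del del2 a b m) (hbb : ¬ Adj K t b b)
    (h5 : V K t 5 = dv mu) : False := by
  have T : TII t p lam lam' mu := h.tv.tb.h
  have fl : Fl t := T.fl
  have hl : lam ∈ H K 1 := T.t2.ha
  have hm : mu ∈ H K 1 := T.t2.hm
  have l0 : lam ≠ 0 := T.L0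
  have m0 : mu ≠ 0 := T.t2.m0
  by_cases hN : lam * mu ∈ N K
  swap
  · obtain ⟨r, hr⟩ := h.x1 hN h5
    exact hbb hr.2.2.2.2.1
  have o3 := h.o3
  rw [← notMem_inn, h.tv.iD] at o3
  simp only [Finset.mem_insert, Finset.mem_singleton, not_or] at o3
  obtain ⟨-, -, o3a, o3b, o3m⟩ := o3
  -- dimensions
  have hU1 : dv lam ⊔ V K t 5 ≤ cubics K := sup_le (dv_le hl) (fl.V_le 5)
  have hL1 : LL K t (dv lam ⊔ V K t 5) := fl.llSupV (dv_le hl) T.ll_dv 5
  have hf1 : finrank K ↥(dv lam ⊔ V K t 5) = 7 := by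
    rw [h5]; exact h.tv.tb.dim_sup.1 hN
  have hc1 := fl.cl1 hU1 hL1
  have ho1 : out K t (dv lam ⊔ V K t 5) = Finset.univ.filter fun i : Fin 9 =>
      i ∉ ({0, 1, a, b, m} : Finset (Fin 9)) ∧ 5 ≤ (i : ℕ) := by
    ext i
    rw [fl.out_sup_V, ← notMem_inn, h.tv.iD]
    simp
  have hU2 : A K t 1 ⊔ V K t 5 ≤ cubics K := sup_le (fl.A_le 1) (fl.V_le 5)
  have hL2 : LL K t (A K t 1 ⊔ V K t 5) := fl.llSupV (fl.A_le 1) (fl.llA 1) 5
  have hf2 : finrank K ↥(A K t 1 ⊔ V K t 5) = 7 := by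
    have : Module.Finite K ↥(H K 3) := inferInstance
    have : Module.Finite K ↥(A K t 1) := by
      exact Module.Finite.of_injective _ (Submodule.inclusion_injective ((fl.A_le 1).trans cubics_le))
    have : Module.Finite K ↥(V K t 5) := by
      exact Module.Finite.of_injective _ (Submodule.inclusion_injective ((fl.V_le 5).trans cubics_le))
    have h1 := Submodule.finrank_sup_add_finrank_inf_eq (A K t 1) (V K t 5)
    have e1 : finrank K ↥(A K t 1) = 4 := by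
      rw [T.A1, finrank_mulS l0, finrank_Fp T.p0]
    have e2 : finrank K ↥(V K t 5) = 5 := by
      rw [h5, dv, finrank_mulS m0, finrank_KK hm m0]
    have e3 : finrank K ↥(A K t 1 ⊓ V K t 5) = 2 := by
      rw [h5, x2_A1 T h.tv.tb.nm]
      have h2 := fl.cl1 (fl.V_le 2) (fl.llV 2)
      rw [T.out_V2.1] at h2
      omega
    rw [e1, e2, e3] at h1
    omega
  have hc2 := fl.cl1 hU2 hL2
  have ho2 : out K t (A K t 1 ⊔ V K t 5) = Finset.univ.filter fun i : Fin 9 =>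
      i ∉ ({0, 1, a, b} : Finset (Fin 9)) ∧ 5 ≤ (i : ℕ) := by
    ext i
    rw [fl.out_sup_V, ← notMem_inn, h.tv.iA]
    simp
  rw [ho1, hf1] at hc1
  rw [ho2, hf2] at hc2
  obtain ⟨a5, b5⟩ := x2_dec a b m h.tv.a3 h.tv.b3 h.tv.m3 h.tv.ab h.tv.am
    h.tv.bm o3a o3b o3m (by omega) (by omega)
  obtain ⟨r, s, rs, hS1⟩ := Finset.card_eq_two.1 (show (Finset.univ.filter fun i : Fin 9 =>
      i ∉ ({0, 1, a, b, m} : Finset (Fin 9)) ∧ 5 ≤ (i : ℕ)).card = 2 by omega)
  have hr : r ∈ (Finset.univ.filter fun i : Fin 9 =>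
      i ∉ ({0, 1, a, b, m} : Finset (Fin 9)) ∧ 5 ≤ (i : ℕ)) := by rw [hS1]; simp
  have hs : s ∈ (Finset.univ.filter fun i : Fin 9 =>
      i ∉ ({0, 1, a, b, m} : Finset (Fin 9)) ∧ 5 ≤ (i : ℕ)) := by rw [hS1]; simp
  simp only [Finset.mem_filter, Finset.mem_univ, true_and, Finset.mem_insert, Finset.mem_singleton,
    not_or] at hr hs
  have ar : a ≠ r := Ne.symm hr.1.2.2.1
  have as : a ≠ s := Ne.symm hs.1.2.2.1
  have br : b ≠ r := Ne.symm hr.1.2.2.2.1
  have bs : b ≠ s := Ne.symm hs.1.2.2.2.1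
  rw [hS1] at ho1
  have g1 : (out K t (V K t 5)).card = 4 := by
    have h1 := fl.cl1 (fl.V_le 5) (fl.llV 5)
    have h2 : finrank K ↥(V K t 5) = 5 := by
      rw [h5, dv, finrank_mulS m0, finrank_KK hm m0]
    omega
  have ho5 : out K t (V K t 5) = {a, b, r, s} := by
    symm
    apply Finset.eq_of_subset_of_card_le
    · intro i hi
      rw [fl.mem_out_V]
      simp only [Finset.mem_insert, Finset.mem_singleton] at hi
      rcases hi with rfl | rfl | rfl | rfl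
      · exact a5
      · exact b5
      · exact hr.2
      · exact hs.2
    · rw [g1, Finset.card_insert_of_notMem, Finset.card_insert_of_notMem,
        Finset.card_insert_of_notMem, Finset.card_singleton]
      · simpa using rs
      · simp [br, bs]
      · simp [h.tv.ab, ar, as]
  -- cliques of `{r, s}`
  have f2 : cl K t 2 {r, s} = 1 := by
    have h1 := fl.cl2 hU1 hL1
    rw [ho1, h5, dv, dv, Submodule.sup_mul, mulS_mul, mulS_mul, KK_mul hl l0, KK_mul hm m0] at h1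
    have h2 : finrank K ↥(mulS lam (H K 5) ⊔ mulS mu (H K 5)) + finrank K ↥(H K 4) =
        2 * finrank K ↥(H K 5) := x2_fin hl hm l0 m0 h.tv.tb.nm 4
    rw [finrank_H4, finrank_H5] at h2
    omega
  have f3 : cl K t 3 {r, s} = 1 := by
    have h1 := fl.cl3 hU1 hL1
    rw [ho1, h5, dv, dv, Submodule.sup_mul, mulS_mul, mulS_mul, KK_mul6 hl l0, KK_mul6 hm m0] at h1
    have h2 : finrank K ↥(mulS lam (H K 8) ⊔ mulS mu (H K 8)) + finrank K ↥(H K 7) =
        2 * finrank K ↥(H K 8) := x2_fin hl hm l0 m0 h.tv.tb.nm 7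
    rw [finrank_H7, finrank_H8] at h2
    omega
  -- cliques of `out (V 5)`
  have g2 : cl K t 2 (out K t (V K t 5)) = 7 := by
    have h1 := fl.cl2 (fl.V_le 5) (fl.llV 5)
    have h2 : finrank K ↥(V K t 5 * cubics K) = 21 := by
      rw [h5, dv, mulS_mul, KK_mul hm m0, finrank_mulS m0, finrank_H5]
    omega
  have g3 : cl K t 3 (out K t (V K t 5)) = 10 := by
    have h1 := fl.cl3 (fl.V_le 5) (fl.llV 5)
    have h2 : finrank K ↥(V K t 5 * H K 6) = 45 := by
      rw [h5, dv, mulS_mul, KK_mul6 hm m0, finrank_mulS m0, finrank_H8]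
    omega
  -- `A 5 = V 5`
  have hA5 : A K t 5 = V K t 5 := by
    apply le_antisymm
    · intro w hw
      obtain ⟨hw1, hw2⟩ := fl.mem_A.1 hw
      have hw3 : w * t 5 ∈ mulS mu (H K 5) := by
        rw [← KK_mul hm m0, ← mulS_mul]
        change w * t 5 ∈ dv mu * cubics K
        rw [← h5]
        exact hw2
      obtain ⟨g, _, hg⟩ := mem_mulS.1 hw3
      rcases (prime_lin hm m0).dvd_or_dvd (Dvd.intro g hg : mu ∣ w * t 5) with h6 | h6
      · rw [h5]
        exact (mem_dv hm m0).2 ⟨hw1, h6⟩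
      · exfalso
        have h7 : t 5 ∈ V K t 5 := by
          rw [h5]
          exact (mem_dv hm m0).2 ⟨fl.mem 5, h6⟩
        exact t_notMem fl.li 5 h7
    · exact V_le_A 5
  have hnb : nb K t 5 (out K t (V K t 5)) = out K t (V K t 5) := by
    have h1 := fl.outA 5
    rw [hA5] at h1
    exact h1.symm
  have hadj : ∀ i ∈ out K t (V K t 5), Adj K t 5 i := by
    intro i hi
    rw [← hnb] at hi
    exact (mem_nb.1 hi).2
  have m5 : (5 : Fin 9) ∈ out K t (V K t 5) := by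
    rw [fl.mem_out_V]
    exact le_refl 5
  have c5 : (5 : Fin 9) = a ∨ (5 : Fin 9) = b ∨ (5 : Fin 9) = r ∨ (5 : Fin 9) = s := by
    rw [ho5] at m5
    simpa using m5
  have mb : b ∈ out K t (V K t 5) := by rw [ho5]; simp
  have mr : r ∈ out K t (V K t 5) := by rw [ho5]; simp
  have ms : s ∈ out K t (V K t 5) := by rw [ho5]; simp
  rcases c5 with c | c | c | c
  · -- `5 = a`
    have e1 : cl K t 2 (out K t (V K t 5)) = cl K t 1 (nb K t 5 (out K t (V K t 5))) +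
      cl K t 2 ((out K t (V K t 5)).erase 5) := cl_erase (K := K) (t := t) 1 m5
    have e2 : cl K t 3 (out K t (V K t 5)) = cl K t 2 (nb K t 5 (out K t (V K t 5))) +
      cl K t 3 ((out K t (V K t 5)).erase 5) := cl_erase (K := K) (t := t) 2 m5
    rw [hnb] at e1 e2
    rw [cl_one] at e1
    have he : (out K t (V K t 5)).erase 5 = {b, r, s} := by
      rw [ho5, c]
      rw [Finset.erase_insert]
      simp [h.tv.ab, ar, as]
    rw [he] at e1 e2
    exact gx_three br bs rs hbb (by omega) (by omega) f2 f3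
  · exact hbb (c ▸ hadj b mb)
  · exact x2_pair rs (c ▸ hadj r mr) (c ▸ hadj s ms) f2
  · rw [Finset.pair_comm] at f2
    exact x2_pair rs.symm (c ▸ hadj s ms) (c ▸ hadj r mr) f2

end Pool.Agent.BR
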