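import Pool.Agent.Work.MP_be705b_al.II.X1
import Pool.Agent.Work.MP_be705b_al.II.X3

set_option autoImplicit false
set_option linter.unusedSectionVars false
set_option linter.unusedVariables false

/-!
# MP_be705b_al, type II, case 1b, module X5 (S): 3.3 for beta2, `p = pa`

Hypotheses from block B: `lam * mu ∉ N K`, `out (A 3) = {b, c}` with `IsC t pa c`, `c ≠ b`, `card (nb b (out (A 3))) = 1`.
`TC.x1`: `r`, `b` loop.  `c = r` (`TC.x1c`).  `b ∈ nb b {b, c}` (loop), so `c ∉`, `b ≁ r`, so `5 = a`; `TC.x5` (`b ∈ out (V 5)`, `b ≠ 5`, so `b ≥ 6`): `b` no loop, contradiction.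
-/

namespace Pool.Agent.BR

open Submodule Module MvPolynomial

variable {K : Type*} [Field K]

variable {t : Fin 9 → Pol K} {lam lam' mu del del2 : Pol K} {a b m : Fin 9}

theorem TC.end_beta2a (h : TC t pa lam lam' mu del del2 a b m) (hmu : eval pa mu = 0)
    (hN : lam * mu ∉ N K) {c : Fin 9} (hc : IsC t pa c) (hcb : b ≠ c) (ho : out K t (A K t 3) = {b, c})
    (h1 : (nb K t b (out K t (A K t 3))).card = 1) (h5 : V K t 5 = dv mu) : False := by
  obtain ⟨r, hnd, hout, h5a, haa, hbb, hrr, hmm, hmr, hab, ham, hbm, hor⟩ := h.x1 hN h5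
  have hcr : c = r := h.x1c h5 hmu hout hc
  subst hcr
  have hbr : ¬ Adj K t b c := by
    intro hbc
    have h2 : ({b, c} : Finset (Fin 9)) ⊆ nb K t b (out K t (A K t 3)) := by
      intro v hv
      rw [mem_nb, ho]
      refine ⟨hv, ?_⟩
      rw [Finset.mem_insert, Finset.mem_singleton] at hv
      rcases hv with rfl | rfl
      · exact hbb
      · exact hbc
    have h3 := Finset.card_le_card h2
    rw [h1, Finset.card_pair hcb] at h3
    omega
  rcases hor with ⟨h5', _, _⟩ | ⟨_, h6, _⟩
  · have hb5 : b ∈ out K t (V K t 5) := by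
      rw [hout]
      simp
    rw [h.tv.tb.fl.mem_out_V] at hb5
    have hne : (b : ℕ) ≠ 5 := by
      intro hb
      have hb' : b = 5 := Fin.ext (by rw [hb]; rfl)
      exact h.tv.ab (by rw [← h5', hb'])
    exact h.x5 hmu h5 h5' (by omega) hbb
  · exact hbr h6

end Pool.Agent.BR
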